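import Pool.Agent.H24.WH.Defs
import Pool.Agent.H48.WN.Win

/-!
# [H24 WH BAS] basic facts for all modules (complete)

`aux_z`, `aux_dz`: zeta and its derivative are differentiable away from `1`. `aux_dp`, `aux_bp`: the polynomials are entire.
`aux_kk`, `aux_pt`: continuity. `aux_pow`, `aux_log`: thresholds.
-/

set_option autoImplicit false

namespace Pool.Agent.H24.WH

open Complex MeasureTheory Finset Pool.Agent.H48.WN

theorem aux_z {s : ℂ} (hs : s ≠ 1) : DifferentiableAt ℂ riemannZeta s := differentiableAt_riemannZeta hs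

theorem aux_dz {s : ℂ} (hs : s ≠ 1) : DifferentiableAt ℂ (deriv riemannZeta) s := by
  have ho : IsOpen ({1}ᶜ : Set ℂ) := isOpen_compl_singleton
  have h1 : DifferentiableOn ℂ riemannZeta ({1}ᶜ : Set ℂ) := fun z hz =>
    (differentiableAt_riemannZeta hz).differentiableWithinAt
  exact (h1.deriv ho).differentiableAt (ho.mem_nhds hs)

theorem aux_ne {s : ℂ} (hs : s.im ≠ 0) : s ≠ 1 := by
  rintro rfl
  exact hs rfl

theorem aux_ne' {s : ℂ} (hs : s.im ≠ 0) : 1 - s ≠ 1 := by
  intro h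
  apply hs
  have := congrArg Complex.im h
  simpa using this

theorem aux_dp (c : ℕ → ℂ) (w : ℝ → ℝ) (T : ℝ) (N : ℕ) : Differentiable ℂ (Dp c w T N) := by
  unfold Dp
  refine Differentiable.fun_sum fun n hn => ?_
  have hn0 : (n : ℂ) ≠ 0 := by
    have := (Finset.mem_Icc.1 hn).1
    exact_mod_cast (by omega : n ≠ 0)
  exact (differentiable_const _).mul ((differentiable_id.neg).const_cpow (Or.inl hn0))

theorem aux_bp (T : ℝ) : Differentiable ℂ (Bp T) := by
  unfold Bp
  refine Differentiable.fun_sum fun p hp => ?_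
  have hp0 : (p : ℂ) ≠ 0 := by
    have : p.Prime := (Finset.mem_filter.1 hp).2
    exact_mod_cast this.ne_zero
  exact (differentiable_const _).mul ((differentiable_id.sub_const 1).const_cpow (Or.inl hp0))

theorem aux_qp (b h T : ℝ) : Differentiable ℂ (Qp b h T) := aux_dp _ _ _ _

theorem aux_qb (b h T : ℝ) : Differentiable ℂ (Qb b h T) := aux_dp _ _ _ _

theorem aux_rh (b h T : ℝ) : Differentiable ℂ (Rh b h T) := aux_dp _ _ _ _

theorem aux_kk (c : ℝ) : Continuous (kk c) := by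
  unfold kk
  fun_prop

theorem aux_pt (c : ℝ) : Continuous (pt c) := by
  unfold pt
  fun_prop

theorem aux_pt' (c t0 : ℝ) : Continuous (fun y : ℝ => pt c (t0 + y)) :=
  (aux_pt c).comp (by fun_prop)

/-- `1 - conj (pt c t) = pt (-c) t` -/
theorem aux_refl (c t : ℝ) : 1 - (starRingEnd ℂ) (pt c t) = pt (-c) t := by
  unfold pt
  apply Complex.ext
  · simp
    ring
  · simp

theorem aux_refl' (c t : ℝ) : (starRingEnd ℂ) (1 - pt c t) = pt (-c) t := by
  rw [map_sub, map_one, aux_refl]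

/-- composition with a line: continuity of `y ↦ F (pt c (t0 + y))` on `[-R, R]` -/
theorem aux_line {F : ℂ → ℂ} {c t0 R : ℝ} (hF : ∀ y : ℝ, |y| ≤ R → DifferentiableAt ℂ F (pt c (t0 + y))) :
    ContinuousOn (fun y : ℝ => F (pt c (t0 + y))) (Set.Icc (-R) R) := by
  intro y hy
  have h1 := (hF y (abs_le.2 hy)).continuousAt
  exact (ContinuousAt.comp (f := fun y : ℝ => pt c (t0 + y)) (g := F) h1
    (aux_pt' c t0).continuousAt).continuousWithinAt

/-- the same at the reflected point -/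
theorem aux_line' {F : ℂ → ℂ} {c t0 R : ℝ} (hF : ∀ y : ℝ, |y| ≤ R → DifferentiableAt ℂ F (1 - pt c (t0 + y))) :
    ContinuousOn (fun y : ℝ => F (1 - pt c (t0 + y))) (Set.Icc (-R) R) := by
  intro y hy
  have h1 := (hF y (abs_le.2 hy)).continuousAt
  have h2 : Continuous (fun y : ℝ => 1 - pt c (t0 + y)) := continuous_const.sub (aux_pt' c t0)
  exact (ContinuousAt.comp (f := fun y : ℝ => 1 - pt c (t0 + y)) (g := F) h1
    h2.continuousAt).continuousWithinAt

/-- from a set to an interval integral -/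
theorem aux_ii {R : ℝ} (hR : 0 ≤ R) {f : ℝ → ℂ} (hf : ContinuousOn f (Set.Icc (-R) R)) :
    IntervalIntegrable f volume (-R) R := by
  apply ContinuousOn.intervalIntegrable
  rwa [Set.uIcc_of_le (by linarith)]

/-- a power of `T` beats a constant -/
theorem aux_pow (c a : ℝ) (ha : 0 < a) : ∃ T0 : ℝ, 10 ≤ T0 ∧ ∀ T : ℝ, T0 ≤ T → c ≤ T ^ a := by
  have h := (tendsto_rpow_atTop ha).eventually_ge_atTop c
  rw [Filter.eventually_atTop] at h
  obtain ⟨T1, h1⟩ := h
  exact ⟨max T1 10, le_max_right _ _, fun T hT => h1 T ((le_max_left _ _).trans hT)⟩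

/-- a power of `T` beats a constant times a power of `log T` -/
theorem aux_log (c a : ℝ) (k : ℕ) (ha : 0 < a) : ∃ T0 : ℝ, 10 ≤ T0 ∧ ∀ T : ℝ, T0 ≤ T → c * (Real.log T) ^ k ≤ T ^ a := by
  have h := (isLittleO_log_rpow_rpow_atTop (k : ℝ) ha).bound (show (0 : ℝ) < 1 / (|c| + 1) by positivity)
  rw [Filter.eventually_atTop] at h
  obtain ⟨T1, h1⟩ := h
  refine ⟨max T1 10, le_max_right _ _, fun T hT => ?_⟩
  have h10 : 10 ≤ T := (le_max_right _ _).trans hT
  have h2 := h1 T ((le_max_left _ _).trans hT)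
  have hl : 0 ≤ Real.log T := Real.log_nonneg (by linarith)
  have hp : 0 < T ^ a := Real.rpow_pos_of_pos (by linarith) _
  rw [Real.rpow_natCast, Real.norm_of_nonneg (pow_nonneg hl k), Real.norm_of_nonneg hp.le] at h2
  have h3 : 0 < |c| + 1 := by positivity
  have h4 : (|c| + 1) * (Real.log T) ^ k ≤ T ^ a := by
    have := mul_le_mul_of_nonneg_left h2 h3.le
    have e : (|c| + 1) * (1 / (|c| + 1) * T ^ a) = T ^ a := by field_simp
    rwa [e] at this
  have h5 : c ≤ |c| := le_abs_self c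
  have h6 : 0 ≤ (Real.log T) ^ k := pow_nonneg hl k
  nlinarith

/-- `(log T)^2 ≤ T^a` for large `T`, with the usual consequences for heights -/
theorem aux_win (κ : ℝ) (hκ : 0 < κ) : ∃ T0 : ℝ, 10 ≤ T0 ∧ ∀ T : ℝ, T0 ≤ T →
    1 ≤ Real.log T ∧ (Real.log T) ^ 2 + 2 ≤ T ^ κ - 1 ∧ (Real.log T) ^ 2 + 2 ≤ T / 2 := by
  obtain ⟨T1, h1, H1⟩ := aux_log 4 κ 2 hκ
  obtain ⟨T2, h2, H2⟩ := aux_log 8 1 2 one_pos
  refine ⟨max T1 T2, h1.trans (le_max_left _ _), fun T hT => ?_⟩
  have a1 := H1 T ((le_max_left _ _).trans hT)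
  have a2 := H2 T ((le_max_right _ _).trans hT)
  have h10 : 10 ≤ T := (h1.trans (le_max_left _ _)).trans hT
  have hl : 1 ≤ Real.log T := by
    rw [Real.le_log_iff_exp_le (by linarith)]
    have := Real.exp_one_lt_d9
    linarith
  rw [Real.rpow_one] at a2
  have h3 : 1 ≤ (Real.log T) ^ 2 := one_le_pow₀ hl
  refine ⟨hl, ?_, ?_⟩
  · linarith
  · linarith

end Pool.Agent.H24.WH
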