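import Pool.Agent.H24.WH.Defs

/-!
# [H24 WH DLS] Dirichlet series to the right of 1

PROOF. (1) `ArithmeticFunction.LSeries_vonMangoldt_eq_deriv_riemannZeta_div`. (2) derivative of `LSeries 1` (Mathlib `LSeries_deriv`,
`LSeries.hasDerivAt`...). (3) `ζ'^2/ζ = (-ζ')(-ζ'/ζ)`: product of absolutely convergent series = convolution (`LSeries_convolution'`/`LSeries_mul'`), `aa = Lam * log`.
(4) `aa n ≤ log n · sum_{k|n} Lam k = log^2 n`. (5) tails: `sum_{n > y} log^2 n n^(-σ) ≤ C y^(1-σ) (1+log y)^2`, `σ ≥ 2`, `y ≥ 1`, `C` absolute (compare with the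
integral, or `n^(-σ) ≤ y^(2-σ) n^(-2)` and `sum_{n>y} log^2 n/n^2 ≤ C (1+log y)^2/y`). (6) the heads: `Fa`, `Fb` are minus tails: for `n ≤ NN b T` with
`log n/L ≤ b + h` the weight is `1`, `NN b T ≥ T^(b+2h)`, so all remaining coefficients are `Lam n (weight - 1)` with `n > T^(b+h)`.
-/

set_option autoImplicit false

namespace Pool.Agent.H24.WH

open Complex MeasureTheory Finset Pool.Agent.H48.WN

private theorem dls_term (f : ℕ → ℂ) (hf : f 0 = 0) (s : ℂ) :
    LSeries.term f s = fun n : ℕ => f n * (n : ℂ) ^ (-s) := by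
  funext n
  rcases eq_or_ne n 0 with h | h
  · subst h
    rw [LSeries.term_zero, hf, zero_mul]
  · rw [LSeries.term_of_ne_zero h, cpow_neg, div_eq_mul_inv]

private theorem dls_zeta_deriv (s : ℂ) (hs : 1 < s.re) :
    deriv riemannZeta s = -LSeries (LSeries.logMul 1) s := by
  have h1 : LSeries.abscissaOfAbsConv 1 < s.re := by
    rw [LSeries.abscissaOfAbsConv_one]
    exact_mod_cast hs
  rw [← LSeries_deriv h1]
  apply Filter.EventuallyEq.deriv_eq
  have h2 : {z : ℂ | 1 < z.re} ∈ nhds s := (isOpen_lt continuous_const continuous_re).mem_nhds hs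
  filter_upwards [h2] with z hz
  exact (LSeries_one_eq_riemannZeta hz).symm

private theorem dls_logMul : LSeries.logMul (1 : ℕ → ℂ) = fun n : ℕ => ((Real.log n : ℝ) : ℂ) := by
  funext n
  unfold LSeries.logMul
  rw [Pi.one_apply, mul_one, Complex.natCast_log]

theorem dls_lam (s : ℂ) (hs : 1 < s.re) :
    HasSum (fun n : ℕ => La n * (n : ℂ) ^ (-s)) (-(deriv riemannZeta s / riemannZeta s)) := by
  have h1 := (ArithmeticFunction.LSeriesSummable_vonMangoldt hs).LSeriesHasSum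
  rw [ArithmeticFunction.LSeries_vonMangoldt_eq_deriv_riemannZeta_div hs] at h1
  unfold LSeriesHasSum at h1
  rw [dls_term _ (by simp)] at h1
  rw [neg_div] at h1
  exact h1

private theorem dls_log_sum (s : ℂ) (hs : 1 < s.re) :
    LSeriesHasSum (fun n : ℕ => ((Real.log n : ℝ) : ℂ)) s (-deriv riemannZeta s) := by
  have h1 : LSeries.abscissaOfAbsConv 1 < s.re := by
    rw [LSeries.abscissaOfAbsConv_one]
    exact_mod_cast hs
  have h2 := (LSeriesSummable_logMul_of_lt_re h1).LSeriesHasSum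
  rw [dls_zeta_deriv s hs, neg_neg, ← dls_logMul]
  exact h2

theorem dls_log (s : ℂ) (hs : 1 < s.re) :
    HasSum (fun n : ℕ => ((Real.log n : ℝ) : ℂ) * (n : ℂ) ^ (-s)) (-deriv riemannZeta s) := by
  have h1 := dls_log_sum s hs
  unfold LSeriesHasSum at h1
  rw [dls_term _ (by simp)] at h1
  exact h1

theorem dls_aa (s : ℂ) (hs : 1 < s.re) :
    HasSum (fun n : ℕ => ((aa n : ℝ) : ℂ) * (n : ℂ) ^ (-s)) ((deriv riemannZeta s) ^ 2 / riemannZeta s) := by
  have h0 := (ArithmeticFunction.LSeriesSummable_vonMangoldt hs).LSeriesHasSum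
  rw [ArithmeticFunction.LSeries_vonMangoldt_eq_deriv_riemannZeta_div hs] at h0
  have h1 := h0.convolution (dls_log_sum s hs)
  have h2 : LSeries.convolution (fun n : ℕ => ((ArithmeticFunction.vonMangoldt n : ℝ) : ℂ))
      (fun n : ℕ => ((Real.log n : ℝ) : ℂ)) = fun n : ℕ => ((aa n : ℝ) : ℂ) := by
    funext n
    rw [LSeries.convolution_def]
    unfold aa
    change ∑ p ∈ n.divisorsAntidiagonal, ((ArithmeticFunction.vonMangoldt p.1 : ℝ) : ℂ) * ((Real.log p.2 : ℝ) : ℂ) = _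
    rw [Nat.sum_divisorsAntidiagonal fun i j : ℕ =>
      ((ArithmeticFunction.vonMangoldt i : ℝ) : ℂ) * ((Real.log j : ℝ) : ℂ)]
    push_cast
    rfl
  rw [h2] at h1
  unfold LSeriesHasSum at h1
  rw [dls_term _ (by simp [aa])] at h1
  have h3 : (deriv riemannZeta s) ^ 2 / riemannZeta s =
      -deriv riemannZeta s / riemannZeta s * -deriv riemannZeta s := by ring
  rw [h3]
  exact h1

theorem aa_nonneg (n : ℕ) : 0 ≤ aa n := by
  unfold aa
  exact sum_nonneg fun k _ => mul_nonneg ArithmeticFunction.vonMangoldt_nonneg (Real.log_natCast_nonneg _)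

theorem aa_le (n : ℕ) : aa n ≤ (Real.log n) ^ 2 := by
  rcases eq_or_ne n 0 with h | h
  · subst h
    simp [aa]
  unfold aa
  calc ∑ k ∈ n.divisors, ArithmeticFunction.vonMangoldt k * Real.log ((n / k : ℕ) : ℝ)
      ≤ ∑ k ∈ n.divisors, ArithmeticFunction.vonMangoldt k * Real.log n := by
        refine sum_le_sum fun k hk => mul_le_mul_of_nonneg_left ?_ ArithmeticFunction.vonMangoldt_nonneg
        have hk' := Nat.dvd_of_mem_divisors hk
        have h1 : 0 < n / k := Nat.div_pos (Nat.le_of_dvd (Nat.pos_of_ne_zero h) hk')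
          (Nat.pos_of_dvd_of_pos hk' (Nat.pos_of_ne_zero h))
        refine Real.log_le_log (by exact_mod_cast h1) ?_
        exact_mod_cast Nat.div_le_self n k
    _ = (Real.log n) ^ 2 := by
        rw [← sum_mul, ArithmeticFunction.vonMangoldt_sum, sq]

theorem aa_prime (p : ℕ) (hp : p.Prime) : aa p = 0 := by
  unfold aa
  rw [hp.divisors, sum_pair hp.one_lt.ne]
  rw [ArithmeticFunction.vonMangoldt_apply_one, zero_mul, zero_add, Nat.div_self hp.pos, Nat.cast_one,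
    Real.log_one, mul_zero]

/-- `(n+1)^(-3/2) ≤ 2 (n^(-1/2) - (n+1)^(-1/2))` with square roots -/
private theorem dls_step (n : ℕ) (hn : 1 ≤ n) :
    1 / (((n : ℝ) + 1) * √((n : ℝ) + 1)) ≤ 2 * (1 / √(n : ℝ) - 1 / √((n : ℝ) + 1)) := by
  have hn' : (1 : ℝ) ≤ n := by exact_mod_cast hn
  obtain ⟨a, ha⟩ : ∃ a : ℝ, a = √(n : ℝ) := ⟨_, rfl⟩
  obtain ⟨b, hb⟩ : ∃ b : ℝ, b = √((n : ℝ) + 1) := ⟨_, rfl⟩
  have ha0 : 0 < a := by
    rw [ha]
    exact Real.sqrt_pos.2 (by linarith)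
  have hb0 : 0 < b := by
    rw [hb]
    exact Real.sqrt_pos.2 (by linarith)
  have ha2 : a ^ 2 = n := by
    rw [ha]
    exact Real.sq_sqrt (by linarith)
  have hb2 : b ^ 2 = (n : ℝ) + 1 := by
    rw [hb]
    exact Real.sq_sqrt (by linarith)
  have hab : a ≤ b := by
    rw [ha, hb]
    exact Real.sqrt_le_sqrt (by linarith)
  rw [← ha, ← hb, ← hb2]
  have h1 : 1 / a - 1 / b = 1 / (a * b * (a + b)) := by
    have h2 : b - a = 1 / (a + b) := by
      rw [eq_div_iff (by positivity)]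
      nlinarith
    have h3 : 1 / a - 1 / b = (b - a) / (a * b) := by
      field_simp
    rw [h3, h2]
    field_simp
  rw [h1, mul_one_div]
  rw [div_le_div_iff₀ (by positivity) (by positivity)]
  have h4 : a * (a + b) ≤ 2 * b ^ 2 := by nlinarith
  nlinarith

/-- finite tails of `sum n^(-3/2)` -/
private theorem dls_fin (m N : ℕ) (hm : 1 ≤ m) :
    ∑ n ∈ Ioc m N, 1 / ((n : ℝ) * √(n : ℝ)) ≤ 2 / √(m : ℝ) := by
  have h0 : ∀ k : ℕ, ∑ n ∈ Ioc m (m + k), 1 / ((n : ℝ) * √(n : ℝ)) ≤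
      2 * (1 / √(m : ℝ) - 1 / √((m + k : ℕ) : ℝ)) := by
    intro k
    induction k with
    | zero => simp
    | succ k ih =>
      rw [← add_assoc, Finset.sum_Ioc_succ_top (by omega)]
      have h1 := dls_step (m + k) (by omega)
      push_cast at ih h1 ⊢
      linarith
  rcases Nat.le_total N m with h | h
  · rw [Ioc_eq_empty (by omega), sum_empty]
    positivity
  · have h1 := h0 (N - m)
    rw [Nat.add_sub_of_le h] at h1
    refine h1.trans ?_
    have h2 : 0 ≤ 1 / √(N : ℝ) := by positivity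
    have h3 : 2 / √(m : ℝ) = 2 * (1 / √(m : ℝ)) := by ring
    rw [h3]
    linarith

/-- `(1 + log n)^2 n^(-σ) ≤ 16 (1 + log y)^2 y^(3/2 - σ) n^(-3/2)`, `n ≥ y ≥ 1`, `σ ≥ 2` -/
private theorem dls_one {σ y n : ℝ} (hσ : 2 ≤ σ) (hy : 1 ≤ y) (hn : y ≤ n) :
    (1 + Real.log n) ^ 2 * n ^ (-σ) ≤
      16 * (1 + Real.log y) ^ 2 * y ^ (3 / 2 - σ) * (1 / (n * √n)) := by
  have hn1 : 1 ≤ n := hy.trans hn
  have hn0 : 0 < n := by linarith
  have hy0 : 0 < y := by linarith
  have hly : 0 ≤ Real.log y := Real.log_nonneg hy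
  obtain ⟨t, ht⟩ : ∃ t : ℝ, t = n / y := ⟨_, rfl⟩
  have ht1 : 1 ≤ t := by
    rw [ht, le_div_iff₀ hy0]
    linarith
  have ht0 : 0 < t := by linarith
  have hlt : 0 ≤ Real.log t := Real.log_nonneg ht1
  have h1 : Real.log n = Real.log y + Real.log t := by
    rw [ht, Real.log_div hn0.ne' hy0.ne']
    ring
  have h2 : 1 + Real.log n ≤ (1 + Real.log y) * (1 + Real.log t) := by
    rw [h1]
    nlinarith [mul_nonneg hly hlt]
  have h3 : 1 + Real.log t ≤ 4 * t ^ (1 / 4 : ℝ) := by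
    have h4 := Real.log_le_sub_one_of_pos (x := t ^ (1 / 4 : ℝ)) (by positivity)
    rw [Real.log_rpow ht0] at h4
    linarith
  have h5 : (1 + Real.log t) ^ 2 ≤ 16 * t ^ (1 / 2 : ℝ) := by
    have h6 : (4 * t ^ (1 / 4 : ℝ)) ^ 2 = 16 * t ^ (1 / 2 : ℝ) := by
      rw [mul_pow, ← Real.rpow_natCast, ← Real.rpow_natCast, ← Real.rpow_mul ht0.le]
      norm_num
    rw [← h6]
    exact pow_le_pow_left₀ (by linarith) h3 2
  have h7 : (1 + Real.log n) ^ 2 ≤ (1 + Real.log y) ^ 2 * (16 * t ^ (1 / 2 : ℝ)) := by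
    have h8 : (1 + Real.log n) ^ 2 ≤ ((1 + Real.log y) * (1 + Real.log t)) ^ 2 :=
      pow_le_pow_left₀ (by rw [h1]; linarith) h2 2
    rw [mul_pow] at h8
    exact h8.trans (mul_le_mul_of_nonneg_left h5 (sq_nonneg _))
  have h9 : t ^ (1 / 2 : ℝ) * n ^ (-σ) ≤ y ^ (3 / 2 - σ) * (1 / (n * √n)) := by
    have h10 : 1 / (n * √n) = n ^ (-(3 / 2) : ℝ) := by
      rw [Real.sqrt_eq_rpow, Real.rpow_neg hn0.le, one_div]
      congr 1
      nth_rewrite 1 [← Real.rpow_one n]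
      rw [← Real.rpow_add hn0]
      norm_num
    rw [h10, ht, Real.div_rpow hn0.le hy0.le]
    have h11 : n ^ (1 / 2 : ℝ) / y ^ (1 / 2 : ℝ) * n ^ (-σ) = y ^ (-(1 / 2) : ℝ) * (n ^ (2 - σ) * n ^ (-(3 / 2) : ℝ)) := by
      rw [Real.rpow_neg hy0.le, ← Real.rpow_add hn0, div_mul_eq_mul_div, ← Real.rpow_add hn0]
      rw [div_eq_inv_mul]
      congr 2
      ring
    rw [h11]
    have h12 : y ^ (3 / 2 - σ) = y ^ (-(1 / 2) : ℝ) * y ^ (2 - σ) := by
      rw [← Real.rpow_add hy0]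
      congr 1
      ring
    rw [h12, mul_assoc]
    refine mul_le_mul_of_nonneg_left (mul_le_mul_of_nonneg_right ?_ (by positivity)) (by positivity)
    exact Real.rpow_le_rpow_of_nonpos hy0 hn (by linarith)
  calc (1 + Real.log n) ^ 2 * n ^ (-σ) ≤ (1 + Real.log y) ^ 2 * (16 * t ^ (1 / 2 : ℝ)) * n ^ (-σ) :=
        mul_le_mul_of_nonneg_right h7 (by positivity)
    _ = 16 * (1 + Real.log y) ^ 2 * (t ^ (1 / 2 : ℝ) * n ^ (-σ)) := by ring
    _ ≤ 16 * (1 + Real.log y) ^ 2 * (y ^ (3 / 2 - σ) * (1 / (n * √n))) :=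
        mul_le_mul_of_nonneg_left h9 (by positivity)
    _ = _ := by ring

private theorem dls_norm {α : ℂ} {n : ℕ} (hn : 1 ≤ n) (hα : ‖α‖ ≤ (1 + Real.log n) ^ 2) (s : ℂ) :
    ‖α * (n : ℂ) ^ (-s)‖ ≤ (1 + Real.log n) ^ 2 * (n : ℝ) ^ (-s.re) := by
  rw [norm_mul]
  have h1 : ‖(n : ℂ) ^ (-s)‖ = (n : ℝ) ^ (-s.re) := by
    rw [Complex.norm_natCast_cpow_of_pos (by omega)]
    simp
  rw [h1]
  exact mul_le_mul_of_nonneg_right hα (by positivity)

/-- the tail, with explicit constants -/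
private theorem dls_tail1 {σ y : ℝ} (hσ : 2 ≤ σ) (hy : 1 ≤ y) {α : ℕ → ℂ} (hα : ∀ n, ‖α n‖ ≤ (1 + Real.log n) ^ 2)
    {s : ℂ} (hs : s.re = σ) :
    Summable (fun n : ℕ => ‖(if y < n then α n * (n : ℂ) ^ (-s) else 0)‖) ∧
      ∑' n : ℕ, ‖(if y < n then α n * (n : ℂ) ^ (-s) else 0)‖ ≤ 48 * y ^ (1 - σ) * (1 + Real.log y) ^ 2 := by
  have hy0 : 0 < y := by linarith
  obtain ⟨m, hm⟩ : ∃ m : ℕ, m = ⌊y⌋₊ := ⟨_, rfl⟩
  have hm1 : 1 ≤ m := by
    rw [hm]
    exact Nat.le_floor (by simpa using hy)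
  have hmy : (m : ℝ) ≤ y := by
    rw [hm]
    exact Nat.floor_le hy0.le
  have hym : y < m + 1 := by
    rw [hm]
    exact Nat.lt_floor_add_one y
  have hm1' : (1 : ℝ) ≤ m := by exact_mod_cast hm1
  have key : ∀ N : ℕ, ∑ n ∈ range N, ‖(if y < n then α n * (n : ℂ) ^ (-s) else 0)‖ ≤
      48 * y ^ (1 - σ) * (1 + Real.log y) ^ 2 := by
    intro N
    have h1 : ∑ n ∈ range N, ‖(if y < n then α n * (n : ℂ) ^ (-s) else 0)‖ ≤
        ∑ n ∈ Ioc m N, 16 * (1 + Real.log y) ^ 2 * y ^ (3 / 2 - σ) * (1 / ((n : ℝ) * √(n : ℝ))) := by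
      have h2 : ∑ n ∈ range N, ‖(if y < n then α n * (n : ℂ) ^ (-s) else 0)‖ =
          ∑ n ∈ (range N).filter (fun n : ℕ => y < n), ‖α n * (n : ℂ) ^ (-s)‖ := by
        rw [sum_filter]
        refine sum_congr rfl fun n _ => ?_
        split_ifs
        · rfl
        · exact norm_zero
      rw [h2]
      calc ∑ n ∈ (range N).filter (fun n : ℕ => y < n), ‖α n * (n : ℂ) ^ (-s)‖
          ≤ ∑ n ∈ (range N).filter (fun n : ℕ => y < n),
            16 * (1 + Real.log y) ^ 2 * y ^ (3 / 2 - σ) * (1 / ((n : ℝ) * √(n : ℝ))) := by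
            refine sum_le_sum fun n hn => ?_
            have hn' := (mem_filter.1 hn).2
            have hn1 : 1 ≤ n := by
              rcases Nat.eq_zero_or_pos n with h | h
              · subst h
                push_cast at hn'
                linarith
              · exact h
            have h3 := dls_norm hn1 (hα n) s
            rw [hs] at h3
            exact h3.trans (dls_one hσ hy hn'.le)
        _ ≤ _ := by
            refine sum_le_sum_of_subset_of_nonneg ?_ fun n _ _ => by positivity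
            intro n hn
            rw [mem_filter, mem_range] at hn
            rw [mem_Ioc]
            refine ⟨?_, hn.1.le⟩
            have h4 : (m : ℝ) < n := lt_of_le_of_lt hmy hn.2
            exact_mod_cast h4
    refine h1.trans ?_
    rw [← mul_sum]
    have h5 : (2 : ℝ) / √(m : ℝ) ≤ 3 * y ^ (-(1 / 2) : ℝ) := by
      have h6 : √y ≤ 3 / 2 * √(m : ℝ) := by
        rw [show (3 / 2 : ℝ) = √(9 / 4) by
          rw [show (9 / 4 : ℝ) = (3 / 2) ^ 2 by norm_num]
          exact (Real.sqrt_sq (by norm_num)).symm, ← Real.sqrt_mul (by norm_num)]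
        refine Real.sqrt_le_sqrt ?_
        linarith
      have h7 : 0 < √(m : ℝ) := Real.sqrt_pos.2 (by linarith)
      have h8 : 0 < √y := Real.sqrt_pos.2 hy0
      rw [Real.rpow_neg hy0.le, ← Real.sqrt_eq_rpow, ← div_eq_mul_inv, div_le_div_iff₀ h7 h8]
      linarith
    calc 16 * (1 + Real.log y) ^ 2 * y ^ (3 / 2 - σ) * ∑ n ∈ Ioc m N, 1 / ((n : ℝ) * √(n : ℝ))
        ≤ 16 * (1 + Real.log y) ^ 2 * y ^ (3 / 2 - σ) * (3 * y ^ (-(1 / 2) : ℝ)) :=
          mul_le_mul_of_nonneg_left ((dls_fin m N hm1).trans h5) (by positivity)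
      _ = 48 * (y ^ (3 / 2 - σ) * y ^ (-(1 / 2) : ℝ)) * (1 + Real.log y) ^ 2 := by ring
      _ = 48 * y ^ (1 - σ) * (1 + Real.log y) ^ 2 := by
          rw [← Real.rpow_add hy0]
          congr 3
          ring
  exact ⟨summable_of_sum_range_le (fun n => norm_nonneg _) key,
    Real.tsum_le_of_sum_range_le (fun n => norm_nonneg _) key⟩

theorem dls_tail : ∃ C : ℝ, 0 < C ∧ ∀ σ : ℝ, 2 ≤ σ → ∀ y : ℝ, 1 ≤ y → ∀ α : ℕ → ℂ, (∀ n, ‖α n‖ ≤ (1 + Real.log n) ^ 2) →
    ∀ s : ℂ, s.re = σ → Summable (fun n : ℕ => α n * (n : ℂ) ^ (-s)) ∧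
      ‖∑' n : ℕ, (if y < n then α n * (n : ℂ) ^ (-s) else 0)‖ ≤ C * y ^ (1 - σ) * (1 + Real.log y) ^ 2 := by
  refine ⟨48, by norm_num, ?_⟩
  intro σ hσ y hy α hα s hs
  refine ⟨?_, ?_⟩
  · have h1 := (dls_tail1 hσ le_rfl hα hs).1.of_norm
    have h2 : Summable (fun n : ℕ => α n * (n : ℂ) ^ (-s) - (if (1 : ℝ) < n then α n * (n : ℂ) ^ (-s) else 0)) := by
      refine summable_of_ne_finset_zero (s := {0, 1}) ?_
      intro n hn
      have h3 : (1 : ℝ) < n := by
        have h4 : 1 < n := by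
          rw [mem_insert, mem_singleton] at hn
          omega
        exact_mod_cast h4
      rw [if_pos h3, sub_self]
    refine (h1.add h2).congr fun n => ?_
    ring
  · have h1 := dls_tail1 hσ hy hα hs
    exact (norm_tsum_le_tsum_norm h1.1).trans h1.2

private theorem dls_logT {T : ℝ} (hT : 10 ≤ T) : 1 ≤ Real.log T := by
  rw [Real.le_log_iff_exp_le (by linarith)]
  exact (Real.exp_one_lt_d9.le.trans (by norm_num)).trans hT

private theorem dls_La_norm (n : ℕ) : ‖La n‖ ≤ Real.log n := by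
  unfold La
  rw [Complex.norm_real, Real.norm_of_nonneg ArithmeticFunction.vonMangoldt_nonneg]
  exact ArithmeticFunction.vonMangoldt_le_log

/-- `log n / log T ≤ a` in terms of powers -/
private theorem dls_log_div {T a : ℝ} (hT : 10 ≤ T) {n : ℕ} (hn : 1 ≤ n) :
    Real.log n / Real.log T ≤ a ↔ (n : ℝ) ≤ T ^ a := by
  have h1 := dls_logT hT
  have hn' : (0 : ℝ) < n := by exact_mod_cast hn
  rw [div_le_iff₀ (by linarith), ← Real.log_rpow (by linarith), Real.log_le_log_iff hn' (by positivity)]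

/-- heads are minus tails -/
private theorem dls_head (a b h : ℝ) (hb : 1 ≤ b) (hh : 0 < h) (ha : b ≤ a) (hab : a ≤ b + 1) {C : ℝ} (hC0 : 0 < C)
    (hC : ∀ σ : ℝ, 2 ≤ σ → ∀ y : ℝ, 1 ≤ y → ∀ α : ℕ → ℂ, (∀ n, ‖α n‖ ≤ (1 + Real.log n) ^ 2) →
      ∀ s : ℂ, s.re = σ → Summable (fun n : ℕ => α n * (n : ℂ) ^ (-s)) ∧
      ‖∑' n : ℕ, (if y < n then α n * (n : ℂ) ^ (-s) else 0)‖ ≤ C * y ^ (1 - σ) * (1 + Real.log y) ^ 2)
    {T : ℝ} (hT : 10 ≤ T) {s : ℂ} (hs : 2 ≤ s.re) :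
    ‖Dp La (st a h) T (NN b T) s + deriv riemannZeta s / riemannZeta s‖ ≤
      C * (b + 2) ^ 2 * T ^ (a * (1 - s.re)) * (Real.log T) ^ 2 := by
  have hT0 : 0 < T := by linarith
  have hL := dls_logT hT
  obtain ⟨y, hy⟩ : ∃ y : ℝ, y = T ^ a := ⟨_, rfl⟩
  have hy1 : 1 ≤ y := by
    rw [hy]
    exact Real.one_le_rpow (by linarith) (by linarith)
  have h1 := dls_lam s (by linarith)
  have h2 : HasSum (fun n : ℕ => if n ∈ Icc 1 (NN b T) then
      La n * ((st a h (Real.log n / Real.log T) : ℝ) : ℂ) * (n : ℂ) ^ (-s) else 0)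
      (Dp La (st a h) T (NN b T) s) := by
    have h3 : HasSum (fun n : ℕ => if n ∈ Icc 1 (NN b T) then
      La n * ((st a h (Real.log n / Real.log T) : ℝ) : ℂ) * (n : ℂ) ^ (-s) else 0)
      (∑ n ∈ Icc 1 (NN b T), (fun n : ℕ => if n ∈ Icc 1 (NN b T) then
      La n * ((st a h (Real.log n / Real.log T) : ℝ) : ℂ) * (n : ℂ) ^ (-s) else 0) n) :=
      hasSum_sum_of_ne_finset_zero (fun n hn => if_neg hn)
    have h4 : (∑ n ∈ Icc 1 (NN b T), (fun n : ℕ => if n ∈ Icc 1 (NN b T) then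
      La n * ((st a h (Real.log n / Real.log T) : ℝ) : ℂ) * (n : ℂ) ^ (-s) else 0) n) =
        Dp La (st a h) T (NN b T) s := by
      unfold Dp
      exact sum_congr rfl fun n hn => if_pos hn
    rw [h4] at h3
    exact h3
  have h3 := h1.sub h2
  obtain ⟨α, hα⟩ : ∃ α : ℕ → ℂ, α = fun n => La n - (if n ∈ Icc 1 (NN b T) then
      La n * ((st a h (Real.log n / Real.log T) : ℝ) : ℂ) else 0) := ⟨_, rfl⟩
  have hLa0 : La 0 = 0 := by
    unfold La
    simp
  have hf : (fun n : ℕ => La n * (n : ℂ) ^ (-s) - (if n ∈ Icc 1 (NN b T) then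
      La n * ((st a h (Real.log n / Real.log T) : ℝ) : ℂ) * (n : ℂ) ^ (-s) else 0)) =
      fun n : ℕ => if y < n then α n * (n : ℂ) ^ (-s) else 0 := by
    funext n
    rw [hα]
    by_cases hn : y < n
    · rw [if_pos hn]
      by_cases hm : n ∈ Icc 1 (NN b T)
      · simp only [if_pos hm]
        ring
      · simp only [if_neg hm]
        ring
    · rw [if_neg hn]
      push Not at hn
      rcases Nat.eq_zero_or_pos n with h0 | h0
      · subst h0
        rw [hLa0, if_neg (by simp)]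
        ring
      · have hm : n ∈ Icc 1 (NN b T) := by
          rw [mem_Icc]
          refine ⟨h0, ?_⟩
          unfold NN
          refine Nat.le_floor (hn.trans ?_)
          rw [hy]
          exact Real.rpow_le_rpow_of_exponent_le (by linarith) (by linarith)
        rw [if_pos hm, st_one hh, Complex.ofReal_one]
        · ring
        · rw [dls_log_div hT h0, ← hy]
          exact hn
  rw [hf] at h3
  have hα1 : ∀ n, ‖α n‖ ≤ (1 + Real.log n) ^ 2 := by
    intro n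
    have hl : 0 ≤ Real.log (n : ℝ) := Real.log_natCast_nonneg n
    have h5 : ‖α n‖ ≤ Real.log n := by
      rw [hα]
      by_cases hm : n ∈ Icc 1 (NN b T)
      · simp only [if_pos hm]
        have h6 : La n - La n * ((st a h (Real.log n / Real.log T) : ℝ) : ℂ) =
            La n * ((1 - st a h (Real.log n / Real.log T) : ℝ) : ℂ) := by
          push_cast
          ring
        rw [h6, norm_mul, Complex.norm_real, Real.norm_of_nonneg (by linarith [st_le_one a h (Real.log n / Real.log T)])]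
        calc ‖La n‖ * (1 - st a h (Real.log n / Real.log T)) ≤ ‖La n‖ * 1 :=
              mul_le_mul_of_nonneg_left (by linarith [st_nonneg a h (Real.log n / Real.log T)]) (norm_nonneg _)
          _ ≤ _ := by
              rw [mul_one]
              exact dls_La_norm n
      · simp only [if_neg hm, sub_zero]
        exact dls_La_norm n
    refine h5.trans ?_
    nlinarith
  have h7 := (hC s.re hs y hy1 α hα1 s rfl).2
  rw [h3.tsum_eq] at h7
  have h8 : ‖Dp La (st a h) T (NN b T) s + deriv riemannZeta s / riemannZeta s‖ =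
      ‖-(deriv riemannZeta s / riemannZeta s) - Dp La (st a h) T (NN b T) s‖ := by
    rw [← norm_neg]
    congr 1
    ring
  rw [h8]
  refine h7.trans ?_
  have h9 : y ^ (1 - s.re) = T ^ (a * (1 - s.re)) := by
    rw [hy, ← Real.rpow_mul hT0.le]
  have h10 : Real.log y = a * Real.log T := by
    rw [hy, Real.log_rpow hT0]
  rw [h9, h10]
  have h11 : (1 + a * Real.log T) ^ 2 ≤ (b + 2) ^ 2 * (Real.log T) ^ 2 := by
    rw [← mul_pow]
    refine pow_le_pow_left₀ (by nlinarith) ?_ 2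
    nlinarith
  calc C * T ^ (a * (1 - s.re)) * (1 + a * Real.log T) ^ 2
      ≤ C * T ^ (a * (1 - s.re)) * ((b + 2) ^ 2 * (Real.log T) ^ 2) :=
        mul_le_mul_of_nonneg_left h11 (by positivity)
    _ = _ := by ring

theorem dls_F (b h : ℝ) (hb : 1 ≤ b) (hh : 0 < h) (hh1 : h ≤ 1 / 100) : ∃ C : ℝ, 0 < C ∧ ∀ T : ℝ, 10 ≤ T → ∀ s : ℂ, 2 ≤ s.re →
    ‖Fa b h T s‖ ≤ C * T ^ ((b + h) * (1 - s.re)) * (Real.log T) ^ 2 ∧
    ‖Fb b h T s‖ ≤ C * T ^ ((b + 1 / 2 + 3 * h) * (1 - s.re)) * (Real.log T) ^ 2 := by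
  obtain ⟨C, hC0, hC⟩ := dls_tail
  refine ⟨C * (b + 2) ^ 2, by positivity, ?_⟩
  intro T hT s hs
  exact ⟨dls_head (b + h) b h hb hh (by linarith) (by linarith) hC0 hC hT hs,
    dls_head (b + 1 / 2 + 3 * h) b h hb hh (by linarith) (by linarith) hC0 hC hT hs⟩

/-- crude bound for one head -/
private theorem dls_crude1 (a b h : ℝ) (hh : 0 < h) (hab : a + h ≤ b + 1) (ha : 0 ≤ a) {T : ℝ} (hT : 10 ≤ T) {s : ℂ}
    {A : ℝ} (hA : 0 ≤ A) (hs : -A ≤ s.re) (hb : 1 ≤ b) :
    ‖Dp La (st a h) T (NN b T) s‖ ≤ T ^ ((a + h) * (A + 1)) * (b + 1) * Real.log T := by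
  have hT0 : 0 < T := by linarith
  have hL := dls_logT hT
  obtain ⟨y, hy⟩ : ∃ y : ℝ, y = T ^ (a + h) := ⟨_, rfl⟩
  have hy1 : 1 ≤ y := by
    rw [hy]
    exact Real.one_le_rpow (by linarith) (by linarith)
  unfold Dp
  have h1 : ∀ n ∈ Icc 1 (NN b T), ‖La n * ((st a h (Real.log n / Real.log T) : ℝ) : ℂ) * (n : ℂ) ^ (-s)‖ ≤
      if n ∈ Icc 1 ⌊y⌋₊ then (b + 1) * Real.log T * y ^ A else 0 := by
    intro n hn
    rw [mem_Icc] at hn
    have hn0 : (0 : ℝ) < n := by exact_mod_cast hn.1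
    have hn1 : (1 : ℝ) ≤ n := by exact_mod_cast hn.1
    by_cases hm : n ∈ Icc 1 ⌊y⌋₊
    · rw [if_pos hm]
      rw [mem_Icc] at hm
      have hny : (n : ℝ) ≤ y := (Nat.le_floor_iff (by linarith)).1 hm.2
      rw [norm_mul, norm_mul, Complex.norm_real, Real.norm_of_nonneg (st_nonneg _ _ _),
        Complex.norm_natCast_cpow_of_pos (by omega)]
      have h2 : ‖La n‖ ≤ (b + 1) * Real.log T := by
        refine (dls_La_norm n).trans ?_
        have h3 : Real.log n ≤ Real.log y := Real.log_le_log hn0 hny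
        rw [hy, Real.log_rpow hT0] at h3
        nlinarith
      have h4 : (n : ℝ) ^ (-s).re ≤ y ^ A := by
        rw [neg_re]
        calc (n : ℝ) ^ (-s.re) ≤ (n : ℝ) ^ A := Real.rpow_le_rpow_of_exponent_le hn1 (by linarith)
          _ ≤ y ^ A := Real.rpow_le_rpow hn0.le hny hA
      calc ‖La n‖ * st a h (Real.log n / Real.log T) * (n : ℝ) ^ (-s).re
          ≤ ((b + 1) * Real.log T) * 1 * y ^ A := by
            refine mul_le_mul (mul_le_mul h2 (st_le_one _ _ _) (st_nonneg _ _ _) ?_) h4 (by positivity) ?_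
            · nlinarith
            · nlinarith
        _ = _ := by ring
    · rw [if_neg hm, st_zero hh, Complex.ofReal_zero, mul_zero, zero_mul, norm_zero]
      by_contra hc
      push Not at hc
      apply hm
      rw [mem_Icc]
      refine ⟨hn.1, Nat.le_floor ?_⟩
      rw [hy]
      exact (dls_log_div hT hn.1).1 hc.le
  calc ‖∑ n ∈ Icc 1 (NN b T), La n * ((st a h (Real.log n / Real.log T) : ℝ) : ℂ) * (n : ℂ) ^ (-s)‖
      ≤ ∑ n ∈ Icc 1 (NN b T), (if n ∈ Icc 1 ⌊y⌋₊ then (b + 1) * Real.log T * y ^ A else 0) :=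
        (norm_sum_le _ _).trans (sum_le_sum h1)
    _ = ∑ n ∈ (Icc 1 (NN b T)).filter (fun n => n ∈ Icc 1 ⌊y⌋₊), (b + 1) * Real.log T * y ^ A := by
        rw [sum_filter]
    _ ≤ ∑ n ∈ Icc 1 ⌊y⌋₊, (b + 1) * Real.log T * y ^ A := by
        refine sum_le_sum_of_subset_of_nonneg ?_ fun n _ _ => ?_
        · intro n hn
          exact (mem_filter.1 hn).2
        · have h5 : 0 ≤ (b + 1) * Real.log T := by nlinarith
          positivity
    _ = ⌊y⌋₊ * ((b + 1) * Real.log T * y ^ A) := by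
        rw [sum_const, Nat.card_Icc, nsmul_eq_mul]
        simp
    _ ≤ y * ((b + 1) * Real.log T * y ^ A) := by
        refine mul_le_mul_of_nonneg_right (Nat.floor_le (by linarith)) ?_
        have h5 : 0 ≤ (b + 1) * Real.log T := by nlinarith
        positivity
    _ = (y ^ A * y ^ (1 : ℝ)) * (b + 1) * Real.log T := by
        rw [Real.rpow_one]
        ring
    _ = T ^ ((a + h) * (A + 1)) * (b + 1) * Real.log T := by
        rw [← Real.rpow_add (by linarith), hy, ← Real.rpow_mul hT0.le]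

/-- crude bounds for the polynomials: `Re s ≥ -A` -/
theorem dls_crude (b h : ℝ) (hb : 1 ≤ b) (hh : 0 < h) (hh1 : h ≤ 1 / 100) : ∀ T : ℝ, 10 ≤ T → ∀ s : ℂ, ∀ A : ℝ, 0 ≤ A →
    -A ≤ s.re →
    ‖Qp b h T s‖ ≤ T ^ ((b + 2 * h) * (A + 1)) * (b + 1) * Real.log T ∧
    ‖Qb b h T s‖ ≤ T ^ ((b + 1 / 2 + 4 * h) * (A + 1)) * (b + 1) * Real.log T := by
  intro T hT s A hA hs
  have h1 := dls_crude1 (b + h) b h hh (by linarith) (by linarith) hT hA hs hb
  have h2 := dls_crude1 (b + 1 / 2 + 3 * h) b h hh (by linarith) (by linarith) hT hA hs hb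
  rw [show b + h + h = b + 2 * h by ring] at h1
  rw [show b + 1 / 2 + 3 * h + h = b + 1 / 2 + 4 * h by ring] at h2
  exact ⟨h1, h2⟩

/-- crude bound for the test polynomial: `Re s ≤ A` -/
theorem dls_bp : ∃ C : ℝ, 0 < C ∧ ∀ T : ℝ, 10 ≤ T → ∀ s : ℂ,
    (0 ≤ s.re → ‖Bp T s‖ ≤ C * 4 ^ s.re * T ^ (s.re / 2)) ∧ (s.re ≤ 0 → ‖Bp T s‖ ≤ C * 2 ^ (-s.re) * T ^ (s.re / 2)) := by
  refine ⟨4 * Real.log 4, by positivity, ?_⟩
  intro T hT s
  have hT0 : 0 < T := by linarith
  obtain ⟨N, hN⟩ : ∃ N : ℕ, N = ⌊Real.sqrt T⌋₊ := ⟨_, rfl⟩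
  have hs3 : 3 ≤ Real.sqrt T := by
    rw [show (3 : ℝ) = Real.sqrt 9 by
      rw [show (9 : ℝ) = 3 ^ 2 by norm_num]
      exact (Real.sqrt_sq (by norm_num)).symm]
    exact Real.sqrt_le_sqrt (by linarith)
  have hN3 : 3 ≤ N := by
    rw [hN]
    exact Nat.le_floor (by exact_mod_cast hs3)
  have hN3' : (3 : ℝ) ≤ N := by exact_mod_cast hN3
  have hNT : (N : ℝ) ≤ Real.sqrt T := by
    rw [hN]
    exact Nat.floor_le (Real.sqrt_nonneg _)
  have hTN : Real.sqrt T ≤ 2 * N := by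
    have h1 : Real.sqrt T < N + 1 := by
      rw [hN]
      exact Nat.lt_floor_add_one _
    linarith
  have hsT : ∀ x : ℝ, T ^ (x / 2) = (Real.sqrt T) ^ x := by
    intro x
    rw [Real.sqrt_eq_rpow, ← Real.rpow_mul hT0.le]
    congr 1
    ring
  have hlog : ∑ p ∈ PP T, Real.log p / p ≤ 4 * Real.log 4 := by
    have h1 : ∑ p ∈ PP T, Real.log p / p ≤ ∑ p ∈ PP T, Real.log p / N := by
      refine sum_le_sum fun p hp => ?_
      unfold PP at hp
      rw [mem_filter, mem_Ioc, ← hN] at hp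
      have h2 : (N : ℝ) ≤ p := by exact_mod_cast hp.1.1.le
      exact div_le_div_of_nonneg_left (Real.log_natCast_nonneg p) (by linarith) h2
    have h2 : ∑ p ∈ PP T, Real.log p ≤ Chebyshev.theta ((4 * N : ℕ) : ℝ) := by
      unfold Chebyshev.theta
      rw [Nat.floor_natCast]
      refine sum_le_sum_of_subset_of_nonneg ?_ fun p _ _ => Real.log_natCast_nonneg p
      intro p hp
      unfold PP at hp
      rw [mem_filter, mem_Ioc, ← hN] at hp
      rw [mem_filter, mem_Ioc]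
      exact ⟨⟨by omega, hp.1.2⟩, hp.2⟩
    have h3 := Chebyshev.theta_le_log4_mul_x (x := ((4 * N : ℕ) : ℝ)) (by positivity)
    refine h1.trans ?_
    rw [← sum_div, div_le_iff₀ (by linarith)]
    refine h2.trans (h3.trans (le_of_eq ?_))
    push_cast
    ring
  have hmain : ∀ M : ℝ, 0 ≤ M → (∀ p ∈ PP T, (p : ℝ) ^ s.re ≤ M) → ‖Bp T s‖ ≤ 4 * Real.log 4 * M := by
    intro M hM hp
    unfold Bp
    calc ‖∑ p ∈ PP T, ((Real.log p : ℝ) : ℂ) * (p : ℂ) ^ (s - 1)‖
        ≤ ∑ p ∈ PP T, ‖((Real.log p : ℝ) : ℂ) * (p : ℂ) ^ (s - 1)‖ := norm_sum_le _ _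
      _ ≤ ∑ p ∈ PP T, Real.log p / p * M := by
          refine sum_le_sum fun p hpp => ?_
          have hp0 : 0 < p := by
            have h1 := hpp
            unfold PP at h1
            exact (mem_filter.1 h1).2.pos
          have hp0' : (0 : ℝ) < p := by exact_mod_cast hp0
          rw [norm_mul, Complex.norm_real, Real.norm_of_nonneg (Real.log_natCast_nonneg p),
            Complex.norm_natCast_cpow_of_pos hp0, sub_re, one_re, Real.rpow_sub hp0', Real.rpow_one]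
          calc Real.log p * ((p : ℝ) ^ s.re / p) = Real.log p / p * (p : ℝ) ^ s.re := by ring
            _ ≤ Real.log p / p * M :=
                mul_le_mul_of_nonneg_left (hp p hpp) (div_nonneg (Real.log_natCast_nonneg p) hp0'.le)
      _ = (∑ p ∈ PP T, Real.log p / p) * M := by rw [sum_mul]
      _ ≤ 4 * Real.log 4 * M := mul_le_mul_of_nonneg_right hlog hM
  have hPb : ∀ p ∈ PP T, (N : ℝ) ≤ p ∧ (p : ℝ) ≤ 4 * N := by
    intro p hp
    unfold PP at hp
    rw [mem_filter, mem_Ioc, ← hN] at hp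
    refine ⟨by exact_mod_cast hp.1.1.le, by exact_mod_cast hp.1.2⟩
  refine ⟨fun hs => ?_, fun hs => ?_⟩
  · have h1 := hmain (4 ^ s.re * T ^ (s.re / 2)) (by positivity) (fun p hp => by
      have hp' := hPb p hp
      rw [hsT, ← Real.mul_rpow (by norm_num) (Real.sqrt_nonneg _)]
      refine Real.rpow_le_rpow (by linarith) ?_ hs
      linarith)
    rw [← mul_assoc] at h1
    exact h1
  · have h1 := hmain (2 ^ (-s.re) * T ^ (s.re / 2)) (by positivity) (fun p hp => by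
      have hp' := hPb p hp
      rw [hsT, Real.rpow_neg (by norm_num), ← Real.inv_rpow (by norm_num),
        ← Real.mul_rpow (by norm_num) (Real.sqrt_nonneg _)]
      refine Real.rpow_le_rpow_of_nonpos (by positivity) ?_ hs
      linarith)
    rw [← mul_assoc] at h1
    exact h1

end Pool.Agent.H24.WH
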