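import Pool.Agent.H24.WH.Stl

/-!
# [H24 WH LSY] symmetries; the derivative of the functional equation

PROOF. (1) `GG z · GG (1-z) = 1` for `Im z ≠ 0` gives `lam (1-z) = lam z`; `GG (conj z) = conj (GG z)` gives `lam (conj z) = conj (lam z)`
(`deriv_conj_conj`, see `digamma_conj` in `Gfe`). (2) `riemannZeta_conj` (used in `Lln`), `lln_dz` in `Lln` (private? copy): the
derivative. (3) differentiate `ζ(1-z) = GG z ζ z` (see the proof of `lln`): `-ζ'(1-z) = GG'(z) ζ(z) + GG(z) ζ'(z)`.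
-/

set_option autoImplicit false

namespace Pool.Agent.H24.WH

open Complex MeasureTheory Finset Pool.Agent.H48.WN

private theorem lsy_one {s : ℂ} (h : s.im ≠ 0) : logDeriv GG (1 - s) = logDeriv GG s := by
  have h' := Pool.Agent.H73.WH.im_one_subb h
  have ho : IsOpen {z : ℂ | z.im ≠ 0} := isOpen_ne_fun Complex.continuous_im continuous_const
  have h1 : (fun z : ℂ => GG z * GG (1 - z)) =ᶠ[nhds s] fun _ => (1 : ℂ) := by
    filter_upwards [ho.mem_nhds h] with z hz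
    exact Pool.Agent.H73.WH.gg_inv hz
  have h2 : HasDerivAt (fun z : ℂ => GG (1 - z)) (GG (1 - s) * logDeriv GG (1 - s) * (-1)) s := by
    have h3 : HasDerivAt (fun z : ℂ => 1 - z) (-1) s := by
      simpa using (hasDerivAt_id s).const_sub 1
    exact (Pool.Agent.H73.WH.lam_hasDeriv h').comp s h3
  have h4 := (Pool.Agent.H73.WH.lam_hasDeriv h).mul h2
  have h8 : HasDerivAt (fun _ : ℂ => (1 : ℂ)) (GG s * logDeriv GG s * GG (1 - s) +
      GG s * (GG (1 - s) * logDeriv GG (1 - s) * (-1))) s := h4.congr_of_eventuallyEq h1.symm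
  have h5 := h8.unique (hasDerivAt_const s (1 : ℂ))
  have h6 := Pool.Agent.H73.WH.gg_inv h
  have h7 : GG s * GG (1 - s) * (logDeriv GG s - logDeriv GG (1 - s)) = 0 := by
    linear_combination h5
  rw [h6, one_mul] at h7
  exact (sub_eq_zero.1 h7).symm

private theorem lsy_conj (z : ℂ) : logDeriv GG ((starRingEnd ℂ) z) = (starRingEnd ℂ) (logDeriv GG z) := by
  rw [logDeriv_apply, logDeriv_apply, map_div₀, Pool.Agent.H73.WH.gg_conj]
  have h1 : (starRingEnd ℂ) ∘ GG ∘ (starRingEnd ℂ) = GG := by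
    funext w
    simp only [Function.comp_apply]
    rw [Pool.Agent.H73.WH.gg_conj, Complex.conj_conj]
  have h2 := congrFun (deriv_conj_conj (𝕜 := ℂ) (f := GG)) ((starRingEnd ℂ) z)
  rw [h1, Function.comp_apply, Function.comp_apply, Complex.conj_conj] at h2
  rw [h2]

theorem lam_sym (z : ℂ) (hz : z.im ≠ 0) : lam (1 - (starRingEnd ℂ) z) = (starRingEnd ℂ) (lam z) := by
  have h : ((starRingEnd ℂ) z).im ≠ 0 := by
    rw [Complex.conj_im]
    exact neg_ne_zero.2 hz
  unfold lam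
  rw [lsy_one h, lsy_conj]

theorem zeta_conj (z : ℂ) : riemannZeta ((starRingEnd ℂ) z) = (starRingEnd ℂ) (riemannZeta z) :=
  riemannZeta_conj z

theorem dzeta_conj (z : ℂ) : deriv riemannZeta ((starRingEnd ℂ) z) = (starRingEnd ℂ) (deriv riemannZeta z) := by
  have h1 : (starRingEnd ℂ) ∘ riemannZeta ∘ (starRingEnd ℂ) = riemannZeta := by
    funext w
    simp only [Function.comp_apply]
    rw [riemannZeta_conj, Complex.conj_conj]
  have h2 := congrFun (deriv_conj_conj (𝕜 := ℂ) (f := riemannZeta)) ((starRingEnd ℂ) z)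
  rw [h1, Function.comp_apply, Function.comp_apply, Complex.conj_conj] at h2
  exact h2

private theorem lsy_pow (n : ℕ) (z : ℂ) : (n : ℂ) ^ ((starRingEnd ℂ) z) = (starRingEnd ℂ) ((n : ℂ) ^ z) := by
  have h : (n : ℂ) ^ ((starRingEnd ℂ) z) = (starRingEnd ℂ) (((starRingEnd ℂ) (n : ℂ)) ^ z) := by
    refine Complex.cpow_conj _ _ ?_
    rw [Complex.natCast_arg]
    exact Real.pi_pos.ne
  rw [h, Complex.conj_natCast]

theorem dp_conj (c : ℕ → ℝ) (w : ℝ → ℝ) (T : ℝ) (N : ℕ) (z : ℂ) :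
    Dp (fun n => (c n : ℂ)) w T N ((starRingEnd ℂ) z) = (starRingEnd ℂ) (Dp (fun n => (c n : ℂ)) w T N z) := by
  unfold Dp
  rw [map_sum]
  refine sum_congr rfl fun n _ => ?_
  rw [map_mul, map_mul, conj_ofReal, conj_ofReal, ← lsy_pow, map_neg]

theorem bp_conj (T : ℝ) (z : ℂ) : Bp T ((starRingEnd ℂ) z) = (starRingEnd ℂ) (Bp T z) := by
  unfold Bp
  rw [map_sum]
  refine sum_congr rfl fun p _ => ?_
  rw [map_mul, conj_ofReal, ← lsy_pow, map_sub, map_one]

theorem fe_deriv (A : ℝ) : ∃ T0 : ℝ, 10 ≤ T0 ∧ ∀ z : ℂ, |z.re| ≤ A → T0 ≤ z.im →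
    deriv riemannZeta (1 - z) = -(GG z * (lam z * riemannZeta z + deriv riemannZeta z)) := by
  refine ⟨10, le_rfl, fun z _ hz => ?_⟩
  exact Pool.Agent.H73.WH.dz_fe (by linarith : z.im > 0).ne'

/-- so `HL` is `HR` at `1 - z` -/
theorem hl_eq (A : ℝ) : ∃ T0 : ℝ, 10 ≤ T0 ∧ ∀ T : ℝ, ∀ z : ℂ, |z.re| ≤ A → T0 ≤ z.im → riemannZeta z ≠ 0 →
    HL T z = HR T (1 - z) ∧
    HL T z = -(deriv riemannZeta (1 - z) * (lam z + deriv riemannZeta z / riemannZeta z) * Bp T (1 - z)) := by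
  refine ⟨10, le_rfl, fun T z _ hz hne => ?_⟩
  have h0 : z.im ≠ 0 := (by linarith : z.im > 0).ne'
  have h1 : deriv riemannZeta (1 - z) = -(GG z * (lam z * riemannZeta z + deriv riemannZeta z)) :=
    Pool.Agent.H73.WH.dz_fe h0
  have h2 := Pool.Agent.H73.WH.gg_fe h0
  have h3 := Pool.Agent.H73.WH.gg_ne h0
  constructor
  · unfold HL HR
    rw [h1, h2]
    field_simp
  · unfold HL
    rw [h1]
    field_simp

end Pool.Agent.H24.WH
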