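import Pool.Agent.H24.WH.Ggn
import Pool.Agent.H24.WH.Lsy
import Pool.Agent.H48.WN.Zad

/-!
# [H24 WH GRW] crude growth bounds

PROOF. `zeta_bd` (`Pool/Agent/H48/WN/Zad.lean`) for `Re z ≤ 3`; for `Re z ≥ 2` the Dirichlet series is bounded by `ζ(2)`, its derivative by
a constant (or Cauchy on a disc of radius 1/4). Then `ggn`, `stl`, `fe_deriv` for the point `1 - z`.
-/

set_option autoImplicit false

namespace Pool.Agent.H24.WH

open Complex MeasureTheory Finset Pool.Agent.H48.WN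

private theorem grw_two {s : ℂ} (hs : 2 ≤ s.re) :
    ‖riemannZeta s‖ ≤ ∑' n : ℕ, 1 / ((n : ℝ) + 1) ^ 2 := by
  have h1 : 1 < s.re := by linarith
  have hsum : Summable fun n : ℕ => 1 / ((n : ℝ) + 1) ^ 2 := by
    have h := (summable_nat_add_iff 1).2 (Real.summable_one_div_nat_pow.2 (one_lt_two))
    refine h.congr fun n => ?_
    push_cast
    rfl
  rw [zeta_eq_tsum_one_div_nat_add_one_cpow h1]
  refine tsum_of_norm_bounded hsum.hasSum fun n => ?_
  have hn : (0 : ℝ) < (n : ℝ) + 1 := by positivity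
  have e : ((n : ℂ) + 1) = (((n : ℝ) + 1 : ℝ) : ℂ) := by push_cast; rfl
  rw [norm_div, norm_one, e, Complex.norm_cpow_eq_rpow_re_of_pos hn]
  refine one_div_le_one_div_of_le (by positivity) ?_
  rw [← Real.rpow_natCast]
  exact Real.rpow_le_rpow_of_exponent_le (by linarith) (by exact_mod_cast hs)

private theorem grw_three : ∃ C : ℝ, 1 ≤ C ∧ ∀ s : ℂ, 3 ≤ s.re →
    ‖riemannZeta s‖ ≤ C ∧ ‖deriv riemannZeta s‖ ≤ C := by
  refine ⟨max 1 (∑' n : ℕ, 1 / ((n : ℝ) + 1) ^ 2), le_max_left _ _, fun s hs => ⟨?_, ?_⟩⟩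
  · exact (grw_two (by linarith)).trans (le_max_right _ _)
  · have hball : ∀ z ∈ Metric.closedBall s 1, 2 ≤ z.re ∧ z ≠ 1 := by
      intro z hz
      have hz' : ‖z - s‖ ≤ 1 := by
        rw [← dist_eq_norm]
        exact hz
      have hre : |z.re - s.re| ≤ 1 := by
        rw [← Complex.sub_re]
        exact (Complex.abs_re_le_norm _).trans hz'
      rw [abs_le] at hre
      have h2 : 2 ≤ z.re := by linarith [hre.1]
      refine ⟨h2, fun h => ?_⟩
      rw [h, Complex.one_re] at h2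
      linarith
    have hDC : DiffContOnCl ℂ riemannZeta (Metric.ball s 1) := by
      apply DifferentiableOn.diffContOnCl
      intro z hz
      have hz' : z ∈ Metric.closedBall s 1 := Metric.closure_ball_subset_closedBall hz
      exact (differentiableAt_riemannZeta (hball z hz').2).differentiableWithinAt
    have hbd : ∀ z ∈ Metric.sphere s 1, ‖riemannZeta z‖ ≤
        max 1 (∑' n : ℕ, 1 / ((n : ℝ) + 1) ^ 2) := fun z hz =>
      (grw_two (hball z (Metric.sphere_subset_closedBall hz)).1).trans (le_max_right _ _)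
    have := Complex.norm_deriv_le_of_forall_mem_sphere_norm_le (by norm_num) hDC hbd
    rwa [div_one] at this

private theorem grw_right : ∃ C : ℝ, 1 ≤ C ∧ ∀ s : ℂ, 1 / 2 ≤ s.re → 3 ≤ s.im →
    ‖riemannZeta s‖ ≤ C * s.im ∧ ‖deriv riemannZeta s‖ ≤ C * s.im := by
  obtain ⟨C₁, hC₁, h₁⟩ := zeta_bd
  obtain ⟨C₂, hC₂, h₂⟩ := grw_three
  refine ⟨max C₁ C₂, hC₁.trans (le_max_left _ _), fun s hs ht => ?_⟩
  have ht0 : 0 ≤ s.im := by linarith
  rcases le_total s.re 3 with h3 | h3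
  · obtain ⟨a, b⟩ := h₁ s (by linarith) h3 ht
    exact ⟨a.trans (mul_le_mul_of_nonneg_right (le_max_left _ _) ht0),
      b.trans (mul_le_mul_of_nonneg_right (le_max_left _ _) ht0)⟩
  · obtain ⟨a, b⟩ := h₂ s h3
    have h4 : C₂ ≤ max C₁ C₂ * s.im :=
      calc C₂ ≤ max C₁ C₂ := le_max_right _ _
        _ = max C₁ C₂ * 1 := (mul_one _).symm
        _ ≤ max C₁ C₂ * s.im := mul_le_mul_of_nonneg_left (by linarith)
            (by linarith [hC₁.trans (le_max_left C₁ C₂)])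
    exact ⟨a.trans h4, b.trans h4⟩

theorem grw (A : ℝ) (hA : 1 ≤ A) : ∃ C T0 : ℝ, 1 ≤ C ∧ 10 ≤ T0 ∧ ∀ z : ℂ, 1 / 2 ≤ z.re → z.re ≤ A → T0 ≤ z.im →
    ‖riemannZeta z‖ ≤ C * z.im ∧ ‖deriv riemannZeta z‖ ≤ C * z.im ∧ ‖riemannZeta (1 - z)‖ ≤ C * z.im ^ (A + 1) ∧
      ‖deriv riemannZeta (1 - z)‖ ≤ C * z.im ^ (A + 2) := by
  obtain ⟨C₁, hC₁, h₁⟩ := grw_right
  obtain ⟨C₂, T₂, hC₂, hT₂, h₂⟩ := ggn A (by linarith)
  obtain ⟨C₃, T₃, hC₃, hT₃, h₃⟩ := stl A
  obtain ⟨T₄, hT₄, h₄⟩ := fe_deriv A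
  refine ⟨max C₁ (C₂ * (C₁ * (C₃ + 3))), max (max T₂ T₃) T₄, hC₁.trans (le_max_left _ _),
    hT₂.trans ((le_max_left _ _).trans (le_max_left _ _)), fun z hz1 hz2 hz3 => ?_⟩
  have hT2 : T₂ ≤ z.im := ((le_max_left _ _).trans (le_max_left _ _)).trans hz3
  have hT3 : T₃ ≤ z.im := ((le_max_right _ _).trans (le_max_left _ _)).trans hz3
  have hT4 : T₄ ≤ z.im := (le_max_right _ _).trans hz3
  have h10 : 10 ≤ z.im := hT₂.trans hT2
  have h0 : 0 < z.im := by linarith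
  have h1 : 1 ≤ z.im := by linarith
  have habs : |z.re| ≤ A := abs_le.2 ⟨by linarith, hz2⟩
  obtain ⟨a1, a2⟩ := h₁ z hz1 (by linarith)
  obtain ⟨b1, -⟩ := h₂ z hz1 hz2 hT2
  obtain ⟨c1, -, -, -, c2⟩ := h₃ z habs hT3
  have d1 := h₄ z habs hT4
  have hm1 : C₁ ≤ max C₁ (C₂ * (C₁ * (C₃ + 3))) := le_max_left _ _
  have hm2 : C₂ * (C₁ * (C₃ + 3)) ≤ max C₁ (C₂ * (C₁ * (C₃ + 3))) := le_max_right _ _
  -- the factor
  have hG : ‖GG z‖ ≤ C₂ * z.im ^ (A - 1 / 2) := b1.trans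
    (mul_le_mul_of_nonneg_left (Real.rpow_le_rpow_of_exponent_le h1 (by linarith)) hC₂.le)
  have hG0 : 0 ≤ C₂ * z.im ^ (A - 1 / 2) := by positivity
  -- the logarithmic derivative of the factor
  have hlam : ‖lam z‖ ≤ (C₃ + 1) * z.im := by
    have e1 : ‖lam z‖ ≤ ‖lam z - ((Real.log (z.im / (2 * Real.pi)) : ℝ) : ℂ)‖ +
        ‖((Real.log (z.im / (2 * Real.pi)) : ℝ) : ℂ)‖ := by
      have h := norm_add_le (lam z - ((Real.log (z.im / (2 * Real.pi)) : ℝ) : ℂ))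
        ((Real.log (z.im / (2 * Real.pi)) : ℝ) : ℂ)
      rwa [sub_add_cancel] at h
    have hpi : 0 < 2 * Real.pi := by positivity
    have hpi7 : 2 * Real.pi < 10 := by nlinarith [Real.pi_lt_four]
    have e2 : 1 ≤ z.im / (2 * Real.pi) := (one_le_div hpi).2 (by linarith)
    have e3 : ‖((Real.log (z.im / (2 * Real.pi)) : ℝ) : ℂ)‖ ≤ z.im := by
      rw [Complex.norm_real, Real.norm_eq_abs, abs_of_nonneg (Real.log_nonneg e2)]
      have e4 := Real.log_le_sub_one_of_pos (x := z.im / (2 * Real.pi)) (by positivity)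
      have e5 : z.im / (2 * Real.pi) ≤ z.im :=
        div_le_self h0.le (by nlinarith [Real.pi_gt_three])
      linarith
    have e6 : C₃ / z.im ≤ C₃ * z.im := by
      rw [div_le_iff₀ h0]
      nlinarith [mul_le_mul h1 h1 zero_le_one h0.le, hC₃]
    nlinarith [e1, c2, e3, e6]
  refine ⟨a1.trans (mul_le_mul_of_nonneg_right hm1 h0.le),
    a2.trans (mul_le_mul_of_nonneg_right hm1 h0.le), ?_, ?_⟩
  · rw [c1, norm_mul]
    have e1 : ‖GG z‖ * ‖riemannZeta z‖ ≤ (C₂ * z.im ^ (A - 1 / 2)) * (C₁ * z.im) :=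
      mul_le_mul hG a1 (norm_nonneg _) hG0
    have e2 : z.im ^ (A - 1 / 2) * z.im ≤ z.im ^ (A + 1) := by
      have h := Real.rpow_add_one h0.ne' (A - 1 / 2)
      rw [← h]
      exact Real.rpow_le_rpow_of_exponent_le h1 (by linarith)
    have e3 : C₂ * C₁ ≤ C₂ * (C₁ * (C₃ + 3)) := by
      refine mul_le_mul_of_nonneg_left ?_ hC₂.le
      exact le_mul_of_one_le_right (by linarith) (by linarith)
    calc ‖GG z‖ * ‖riemannZeta z‖ ≤ (C₂ * z.im ^ (A - 1 / 2)) * (C₁ * z.im) := e1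
      _ = (C₂ * C₁) * (z.im ^ (A - 1 / 2) * z.im) := by ring
      _ ≤ (C₂ * C₁) * z.im ^ (A + 1) := mul_le_mul_of_nonneg_left e2 (by positivity)
      _ ≤ _ := mul_le_mul_of_nonneg_right (e3.trans hm2) (Real.rpow_nonneg h0.le _)
  · rw [d1, norm_neg, norm_mul]
    have e0 : ‖lam z * riemannZeta z + deriv riemannZeta z‖ ≤ C₁ * (C₃ + 3) * (z.im * z.im) := by
      refine (norm_add_le _ _).trans ?_
      rw [norm_mul]
      have f1 : ‖lam z‖ * ‖riemannZeta z‖ ≤ ((C₃ + 1) * z.im) * (C₁ * z.im) :=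
        mul_le_mul hlam a1 (norm_nonneg _) (by positivity)
      have f2 : C₁ * z.im ≤ C₁ * (z.im * z.im) :=
        mul_le_mul_of_nonneg_left (le_mul_of_one_le_left h0.le h1) (by linarith)
      have f3 : 0 ≤ C₁ * (z.im * z.im) := by positivity
      nlinarith [f1, f2, f3, a2]
    have e1 : ‖GG z‖ * ‖lam z * riemannZeta z + deriv riemannZeta z‖ ≤
        (C₂ * z.im ^ (A - 1 / 2)) * (C₁ * (C₃ + 3) * (z.im * z.im)) :=
      mul_le_mul hG e0 (norm_nonneg _) hG0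
    have e2 : z.im ^ (A - 1 / 2) * (z.im * z.im) ≤ z.im ^ (A + 2) := by
      have h := Real.rpow_add_one h0.ne' (A - 1 / 2)
      have h' := Real.rpow_add_one h0.ne' (A - 1 / 2 + 1)
      rw [← mul_assoc, ← h, ← h']
      exact Real.rpow_le_rpow_of_exponent_le h1 (by linarith)
    calc ‖GG z‖ * ‖lam z * riemannZeta z + deriv riemannZeta z‖
        ≤ (C₂ * z.im ^ (A - 1 / 2)) * (C₁ * (C₃ + 3) * (z.im * z.im)) := e1
      _ = (C₂ * (C₁ * (C₃ + 3))) * (z.im ^ (A - 1 / 2) * (z.im * z.im)) := by ring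
      _ ≤ (C₂ * (C₁ * (C₃ + 3))) * z.im ^ (A + 2) :=
          mul_le_mul_of_nonneg_left e2 (by positivity)
      _ ≤ _ := mul_le_mul_of_nonneg_right hm2 (Real.rpow_nonneg h0.le _)

end Pool.Agent.H24.WH
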