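import Pool.Agent.H24.WH.Rcg
import Pool.Agent.H24.WH.Dls
import Pool.Agent.H24.WH.Grw

/-!
# [H24 WH E1A] the first term, from the critical line to `Re = 2`

PROOF. `rcg` with `q = lam ζ' Bp`, `x1 = 0`, `x2 = 3/2`: analytic for `Im ≥ T/2`, `≤ C L T · T` (`stl`, `zeta_bd`/`grw`, `dls_bp`).
-/

set_option autoImplicit false

namespace Pool.Agent.H24.WH

open Complex MeasureTheory Finset Pool.Agent.H48.WN

private theorem e1a_bp_diff (T : ℝ) (s : ℂ) : DifferentiableAt ℂ (Bp T) s := by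
  have h : DifferentiableAt ℂ (fun s => ∑ p ∈ PP T, ((Real.log p : ℝ) : ℂ) * (p : ℂ) ^ (s - 1)) s := by
    refine DifferentiableAt.fun_sum fun p hp => ?_
    have hp0 : (p : ℂ) ≠ 0 := by
      have : p.Prime := (mem_filter.1 hp).2
      exact_mod_cast this.ne_zero
    refine (DifferentiableAt.const_cpow (differentiableAt_id.sub_const 1) (Or.inl hp0)).const_mul _
  exact h

private theorem e1a_zeta_diff {s : ℂ} (hs : s ≠ 1) : DifferentiableAt ℂ (deriv riemannZeta) s := by
  have h1 : DifferentiableOn ℂ riemannZeta {1}ᶜ := fun z hz =>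
    (differentiableAt_riemannZeta hz).differentiableWithinAt
  have h2 : IsOpen ({1}ᶜ : Set ℂ) := isOpen_compl_singleton
  exact (h1.deriv h2).differentiableAt (h2.mem_nhds hs)

private theorem e1a_num {K L : ℝ} (hL2 : 2 ≤ L) (hKL : K ≤ L) :
    K * Real.exp (-(L ^ 2) ^ 2) * (L * Real.exp L ^ 2) ≤ 1 := by
  have h1 : L ≤ Real.exp L := by
    have := Real.add_one_le_exp L
    linarith
  have h2 : K ≤ Real.exp L := hKL.trans h1
  have h3 : 8 * L ≤ (L ^ 2) ^ 2 := by nlinarith [sq_nonneg (L ^ 2), mul_nonneg (by linarith : (0 : ℝ) ≤ L - 2) (by positivity : (0 : ℝ) ≤ L * (L ^ 2 + 2 * L + 4))]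
  calc K * Real.exp (-(L ^ 2) ^ 2) * (L * Real.exp L ^ 2)
      ≤ Real.exp L * Real.exp (-(8 * L)) * (Real.exp L * Real.exp L ^ 2) := by
        refine mul_le_mul (mul_le_mul h2 (Real.exp_le_exp.2 ?_) (Real.exp_pos _).le (Real.exp_pos _).le)
          (mul_le_mul_of_nonneg_right h1 (by positivity)) (by positivity) (by positivity)
        linarith
    _ = Real.exp (-(4 * L)) := by
        rw [← Real.exp_nat_mul, ← Real.exp_add, ← Real.exp_add, ← Real.exp_add]
        congr 1
        push_cast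
        ring
    _ ≤ 1 := Real.exp_le_one_iff.2 (by linarith)

theorem e1a : ∃ T0 : ℝ, 10 ≤ T0 ∧ ∀ T : ℝ, T0 ≤ T → ∀ t0 : ℝ, T ≤ t0 → t0 ≤ 2 * T →
    ‖(∫ y in (-(Real.log T) ^ 2)..((Real.log T) ^ 2), kk 0 y *
      (lam (pt 0 (t0 + y)) * deriv riemannZeta (pt 0 (t0 + y)) * Bp T (pt 0 (t0 + y)))) -
     ∫ y in (-(Real.log T) ^ 2)..((Real.log T) ^ 2), kk (3 / 2) y *
      (lam (pt (3 / 2) (t0 + y)) * deriv riemannZeta (pt (3 / 2) (t0 + y)) * Bp T (pt (3 / 2) (t0 + y)))‖ ≤ 1 := by
  obtain ⟨C1, T1, hC1, hT1, h1⟩ := stl 2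
  obtain ⟨C2, T2, hC2, hT2, h2⟩ := grw 2 (by norm_num)
  obtain ⟨C3, hC3, h3⟩ := dls_bp
  obtain ⟨K, hK⟩ : ∃ K : ℝ, K = 3 * Real.exp (9 / 4) * (96 * C2 * C3) := ⟨_, rfl⟩
  have hK0 : 0 ≤ K := by rw [hK]; positivity
  have e1 : ∀ᶠ T : ℝ in Filter.atTop, (Real.log T) ^ 2 ≤ 1 / 2 * T := by
    have h4 := (Real.isLittleO_pow_log_id_atTop (n := 2)).def (by norm_num : (0 : ℝ) < 1 / 2)
    filter_upwards [h4, Filter.eventually_ge_atTop 0] with T h5 h6
    rw [Real.norm_eq_abs, abs_of_nonneg (by positivity), id, Real.norm_eq_abs, abs_of_nonneg h6] at h5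
    exact h5
  have e2 : ∀ᶠ T : ℝ in Filter.atTop, max 2 K ≤ Real.log T := Real.tendsto_log_atTop.eventually_ge_atTop _
  have e3 : ∀ᶠ T : ℝ in Filter.atTop, max (max 10 (2 * T1)) (max (2 * T2) (2 * C1)) ≤ T := Filter.eventually_ge_atTop _
  obtain ⟨T0, hT0⟩ := Filter.eventually_atTop.1 (e1.and (e2.and e3))
  refine ⟨max T0 10, le_max_right _ _, fun T hT t0 ht0 ht1 => ?_⟩
  obtain ⟨a1, a2, a3⟩ := hT0 T ((le_max_left _ _).trans hT)
  have b1 : (2 : ℝ) ≤ Real.log T := (le_max_left _ _).trans a2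
  have b2 : K ≤ Real.log T := (le_max_right _ _).trans a2
  have b3 : (10 : ℝ) ≤ T := (le_max_left _ _).trans ((le_max_left _ _).trans a3)
  have b4 : 2 * T1 ≤ T := (le_max_right _ _).trans ((le_max_left _ _).trans a3)
  have b5 : 2 * T2 ≤ T := (le_max_left _ _).trans ((le_max_right _ _).trans a3)
  have b6 : 2 * C1 ≤ T := (le_max_right _ _).trans ((le_max_right _ _).trans a3)
  have hT0' : 0 < T := by linarith
  have hL0 : 0 < Real.log T := by linarith
  have key := rcg (fun s => lam s * deriv riemannZeta s * Bp T s) t0 ((Real.log T) ^ 2) 0 (3 / 2)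
    (96 * C2 * C3 * (Real.log T * T ^ 2)) (by positivity) (by norm_num) (fun s hs1 hs2 hs3 => by
      have hs1' : 1 / 2 ≤ s.re := by linarith
      have hs2' : s.re ≤ 2 := by linarith
      have h5 := abs_le.1 hs3
      have h6 : T / 2 ≤ s.im := by linarith [h5.1]
      have h7 : s.im ≤ 3 * T := by linarith [h5.2]
      have him : 0 < s.im := by linarith
      have hs0 : s ≠ 1 := by
        intro h8
        rw [h8, Complex.one_im] at him
        exact lt_irrefl _ him
      obtain ⟨-, -, -, c1, c2⟩ := h1 s (abs_le.2 ⟨by linarith, hs2'⟩) (by linarith)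
      obtain ⟨-, c3, -, -⟩ := h2 s hs1' hs2' (by linarith)
      have c4 := (h3 T b3 s).1 (by linarith)
      refine ⟨(c1.mul (e1a_zeta_diff hs0)).mul (e1a_bp_diff T s), ?_⟩
      have d1 : ‖lam s‖ ≤ 2 * Real.log T := by
        have f1 : |Real.log (s.im / (2 * Real.pi))| ≤ Real.log T := by
          have hpi := Real.pi_gt_three
          have hpi2 : Real.pi < 3.15 := Real.pi_lt_d2
          rw [abs_le]
          constructor
          · refine le_trans ?_ (Real.log_le_log (x := T⁻¹) (by positivity) ?_)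
            · rw [Real.log_inv]
            · rw [inv_eq_one_div, div_le_div_iff₀ hT0' (by positivity)]
              nlinarith
          · refine Real.log_le_log (by positivity) ?_
            rw [div_le_iff₀ (by positivity)]
            nlinarith
        have f2 : C1 / s.im ≤ 1 := by
          rw [div_le_one him]
          linarith
        calc ‖lam s‖ = ‖(lam s - ((Real.log (s.im / (2 * Real.pi)) : ℝ) : ℂ)) + ((Real.log (s.im / (2 * Real.pi)) : ℝ) : ℂ)‖ := by
              rw [sub_add_cancel]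
          _ ≤ C1 / s.im + |Real.log (s.im / (2 * Real.pi))| := by
              refine (norm_add_le _ _).trans (add_le_add c2 ?_)
              rw [Complex.norm_real, Real.norm_eq_abs]
          _ ≤ 2 * Real.log T := by linarith
      have d2 : ‖deriv riemannZeta s‖ ≤ 3 * C2 * T := by
        refine c3.trans ?_
        nlinarith
      have d3 : ‖Bp T s‖ ≤ 16 * C3 * T := by
        refine c4.trans ?_
        have f1 : (4 : ℝ) ^ s.re ≤ 16 := by
          calc (4 : ℝ) ^ s.re ≤ 4 ^ (2 : ℝ) := Real.rpow_le_rpow_of_exponent_le (by norm_num) hs2'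
            _ = 16 := by norm_num
        have f2 : T ^ (s.re / 2) ≤ T := by
          calc T ^ (s.re / 2) ≤ T ^ (1 : ℝ) := Real.rpow_le_rpow_of_exponent_le (by linarith) (by linarith)
            _ = T := Real.rpow_one T
        calc C3 * 4 ^ s.re * T ^ (s.re / 2) ≤ C3 * 16 * T := by
              refine mul_le_mul (mul_le_mul_of_nonneg_left f1 hC3.le) f2 (by positivity) (by positivity)
          _ = 16 * C3 * T := by ring
      calc ‖lam s * deriv riemannZeta s * Bp T s‖ = ‖lam s‖ * ‖deriv riemannZeta s‖ * ‖Bp T s‖ := by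
            rw [norm_mul, norm_mul]
        _ ≤ (2 * Real.log T) * (3 * C2 * T) * (16 * C3 * T) :=
            mul_le_mul (mul_le_mul d1 d2 (norm_nonneg _) (by positivity)) d3 (norm_nonneg _) (by positivity)
        _ = 96 * C2 * C3 * (Real.log T * T ^ 2) := by ring)
  refine key.trans ?_
  have g1 : max ((0 : ℝ) ^ 2) ((3 / 2) ^ 2) = 9 / 4 := by norm_num
  rw [g1]
  have g2 := e1a_num b1 b2
  rw [Real.exp_log hT0'] at g2
  calc 2 * (3 / 2 - 0) * Real.exp (9 / 4) * Real.exp (-((Real.log T) ^ 2) ^ 2) * (96 * C2 * C3 * (Real.log T * T ^ 2))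
      = K * Real.exp (-((Real.log T) ^ 2) ^ 2) * (Real.log T * T ^ 2) := by
        rw [hK]
        ring
    _ ≤ 1 := g2

end Pool.Agent.H24.WH
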