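import Pool.Agent.H24.WH.Defs

/-!
# [H24 WH PLO] sums over primes

PROOF. `N = ⌊sqrt T⌋`. (1) Chebyshev: Mathlib `Chebyshev.theta_ge`, `Chebyshev.theta_le_log4_mul_x`: `θ(4N) - θ(N) ≥ 4N log 2 - 2N log 2 - O(sqrt N log N) ≥ N`, so
`sum_{p in PP} log p/p ≥ (θ(4N) - θ(N))/(4N) ≥ 1/4`; upper: `≤ θ(4N)/N ≤ 4 log 4 ≤ 6`. (2) Mertens for `Lam(k)/k`: `log n! = sum Lam(d) ⌊n/d⌋`, `ψ(x) ≤ C x`
(`Chebyshev.psi_le_const_mul_self`), so `|sum_{k≤x} Lam(k)/k - log x| ≤ C`; see `Pool/Agent/H75/AP` (`mertens_upper`, `mertens_low`, `logp_lower`) or prove it.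
(3) `sum_{k > x} Lam(k)/k^2 ≤ C/x` (partial summation with `ψ(x) ≤ C x`, dyadic blocks).
-/

set_option autoImplicit false

namespace Pool.Agent.H24.WH

open Complex MeasureTheory Finset Pool.Agent.H48.WN

private theorem plo_Ioc (N : ℕ) : Icc 1 N = Ioc 0 N := by
  ext m
  simp only [mem_Icc, mem_Ioc]
  omega

private theorem plo_psi (N : ℕ) :
    ∑ k ∈ Ioc 0 N, ArithmeticFunction.vonMangoldt k ≤ (Real.log 4 + 4) * N := by
  have h := Chebyshev.psi_le_const_mul_self (x := (N : ℝ)) (Nat.cast_nonneg N)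
  rw [Chebyshev.psi, Nat.floor_natCast] at h
  exact h

private theorem plo_log4 : Real.log 4 = 2 * Real.log 2 := by
  rw [show (4 : ℝ) = 2 ^ 2 by norm_num, Real.log_pow]
  norm_num

private theorem plo_dif (N : ℕ) : ∑ p ∈ (Ioc N (4 * N)).filter Nat.Prime, Real.log p =
    Chebyshev.theta ((4 * N : ℕ) : ℝ) - Chebyshev.theta (N : ℝ) := by
  rw [Chebyshev.theta, Chebyshev.theta, Nat.floor_natCast, Nat.floor_natCast, sum_filter,
    sum_filter, sum_filter,
    ← sum_Ioc_consecutive _ (Nat.zero_le N) (by omega : N ≤ 4 * N)]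
  ring

private theorem plo_low (N : ℕ) (hN : (50 : ℝ) ^ 4 ≤ N) :
    (N : ℝ) ≤ Chebyshev.theta ((4 * N : ℕ) : ℝ) - Chebyshev.theta (N : ℝ) := by
  have h1 := Chebyshev.theta_ge (4 * N)
  have h2 := Chebyshev.theta_le_log4_mul_x (x := (N : ℝ)) (Nat.cast_nonneg N)
  rw [plo_log4] at h2
  have hN0 : (0 : ℝ) < N := lt_of_lt_of_le (by norm_num) hN
  obtain ⟨a, ha⟩ : ∃ a : ℝ, a = Real.sqrt (Real.sqrt N) := ⟨_, rfl⟩
  have hs0 : 0 ≤ Real.sqrt (N : ℝ) := Real.sqrt_nonneg _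
  have ha2 : a ^ 2 = Real.sqrt N := by
    rw [ha, Real.sq_sqrt hs0]
  have ha4 : a ^ 4 = N := by
    rw [show a ^ 4 = (a ^ 2) ^ 2 by ring, ha2, Real.sq_sqrt hN0.le]
  have ha50 : 50 ≤ a := by
    rw [ha]
    apply Real.le_sqrt_of_sq_le
    apply Real.le_sqrt_of_sq_le
    refine le_trans (le_of_eq ?_) hN
    norm_num
  have ha0 : 0 < a := by linarith
  have hloga : Real.log a ≤ a - 1 := Real.log_le_sub_one_of_pos ha0
  have hlogN : Real.log N = 4 * Real.log a := by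
    rw [← ha4, Real.log_pow]
    norm_num
  have hl2 : Real.log 2 < 0.6931471808 := Real.log_two_lt_d9
  have hl2' : 0.6931471803 < Real.log 2 := Real.log_two_gt_d9
  have hlog4N : Real.log ((4 * N : ℕ) : ℝ) ≤ 4 * a := by
    push_cast
    rw [Real.log_mul (by norm_num) hN0.ne', hlogN, plo_log4]
    linarith
  have hlog4N1 : Real.log (((4 * N : ℕ) : ℝ) + 1) ≤ 4 * a := by
    have h3 : Real.log (((4 * N : ℕ) : ℝ) + 1) ≤ Real.log (8 * N) := by
      apply Real.log_le_log (by positivity)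
      push_cast
      have : (1 : ℝ) ≤ N := le_trans (by norm_num) hN
      linarith
    have h12 : Real.log 8 = 3 * Real.log 2 := by
      rw [show (8 : ℝ) = 2 ^ 3 by norm_num, Real.log_pow]
      norm_num
    rw [Real.log_mul (by norm_num) hN0.ne', hlogN, h12] at h3
    linarith
  have hsq : Real.sqrt ((4 * N : ℕ) : ℝ) = 2 * a ^ 2 := by
    rw [ha2]
    push_cast
    rw [Real.sqrt_mul (by norm_num), show (4 : ℝ) = 2 ^ 2 by norm_num,
      Real.sqrt_sq (by norm_num)]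
  rw [hsq] at h1
  have h5 : 2 * (2 * a ^ 2) * Real.log ((4 * N : ℕ) : ℝ) ≤ 2 * (2 * a ^ 2) * (4 * a) :=
    mul_le_mul_of_nonneg_left hlog4N (by positivity)
  have h6 : ((4 * N : ℕ) : ℝ) = 4 * a ^ 4 := by
    rw [ha4]
    push_cast
    ring
  have h7 : 16 * a ^ 3 + 4 * a ≤ 0.386 * a ^ 4 := by
    have e1 : 50 * a ^ 3 ≤ a * a ^ 3 := mul_le_mul_of_nonneg_right ha50 (by positivity)
    have e2 : 50 * 50 * a ≤ a * a * a := by
      have := mul_le_mul ha50 ha50 (by norm_num) ha0.le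
      nlinarith
    nlinarith
  have h8 : ((4 * N : ℕ) : ℝ) * Real.log 2 - 2 * Real.log 2 * N = 2 * Real.log 2 * a ^ 4 := by
    rw [h6, ← ha4]
    ring
  have h9 : 0.386 * a ^ 4 ≤ (2 * Real.log 2 - 1) * a ^ 4 :=
    mul_le_mul_of_nonneg_right (by linarith) (by positivity)
  have h10 : (2 * Real.log 2 - 1) * a ^ 4 = 2 * Real.log 2 * a ^ 4 - a ^ 4 := by ring
  have h11 : 2 * (2 * a ^ 2) * (4 * a) = 16 * a ^ 3 := by ring
  linarith

theorem plo_mem (T : ℝ) (hT : 10 ≤ T) (p : ℕ) (hp : p ∈ PP T) :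
    p.Prime ∧ Real.sqrt T ≤ p ∧ (p : ℝ) ≤ 4 * Real.sqrt T := by
  rw [PP, mem_filter, mem_Ioc] at hp
  obtain ⟨⟨h1, h2⟩, h3⟩ := hp
  have hs : 0 ≤ Real.sqrt T := Real.sqrt_nonneg T
  refine ⟨h3, ?_, ?_⟩
  · have h4 := Nat.lt_floor_add_one (Real.sqrt T)
    have h5 : ((⌊Real.sqrt T⌋₊ : ℕ) : ℝ) + 1 ≤ p := by exact_mod_cast h1
    linarith
  · have h4 := Nat.floor_le hs
    have h5 : (p : ℝ) ≤ 4 * ((⌊Real.sqrt T⌋₊ : ℕ) : ℝ) := by exact_mod_cast h2
    linarith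

theorem plo_pp : ∃ T0 : ℝ, 10 ≤ T0 ∧ ∀ T : ℝ, T0 ≤ T → 1 / 4 ≤ ∑ p ∈ PP T, Real.log p / p ∧
    ∑ p ∈ PP T, Real.log p / p ≤ 6 := by
  refine ⟨10 ^ 14, by norm_num, fun T hT => ?_⟩
  obtain ⟨N, hN⟩ : ∃ N : ℕ, N = ⌊Real.sqrt T⌋₊ := ⟨_, rfl⟩
  have hs : (10 : ℝ) ^ 7 ≤ Real.sqrt T := by
    apply Real.le_sqrt_of_sq_le
    calc ((10 : ℝ) ^ 7) ^ 2 = 10 ^ 14 := by norm_num
      _ ≤ T := hT
  have hN7 : 10 ^ 7 ≤ N := by
    rw [hN]
    apply Nat.le_floor
    refine le_trans (le_of_eq ?_) hs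
    norm_num
  have hN7' : (10 : ℝ) ^ 7 ≤ N := by exact_mod_cast hN7
  have hN0 : (0 : ℝ) < N := lt_of_lt_of_le (by norm_num) hN7'
  have hlow := plo_low N (le_trans (by norm_num) hN7')
  rw [← plo_dif] at hlow
  have hPP : PP T = (Ioc N (4 * N)).filter Nat.Prime := by rw [PP, hN]
  rw [hPP]
  have hmem : ∀ p ∈ (Ioc N (4 * N)).filter Nat.Prime, (N : ℝ) ≤ p ∧ (p : ℝ) ≤ 4 * N ∧
      0 ≤ Real.log p := by
    intro p hp
    rw [mem_filter, mem_Ioc] at hp
    refine ⟨by exact_mod_cast hp.1.1.le, by exact_mod_cast hp.1.2, Real.log_natCast_nonneg p⟩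
  constructor
  · have h1 : (∑ p ∈ (Ioc N (4 * N)).filter Nat.Prime, Real.log p) / (4 * N) ≤
        ∑ p ∈ (Ioc N (4 * N)).filter Nat.Prime, Real.log p / p := by
      rw [sum_div]
      refine sum_le_sum fun p hp => ?_
      obtain ⟨e1, e2, e3⟩ := hmem p hp
      exact div_le_div_of_nonneg_left e3 (lt_of_lt_of_le hN0 e1) e2
    refine le_trans ?_ h1
    rw [le_div_iff₀ (by positivity)]
    linarith
  · have h1 : ∑ p ∈ (Ioc N (4 * N)).filter Nat.Prime, Real.log p / p ≤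
        (∑ p ∈ (Ioc N (4 * N)).filter Nat.Prime, Real.log p) / N := by
      rw [sum_div]
      refine sum_le_sum fun p hp => ?_
      obtain ⟨e1, e2, e3⟩ := hmem p hp
      exact div_le_div_of_nonneg_left e3 hN0 e1
    refine le_trans h1 ?_
    rw [div_le_iff₀ hN0, plo_dif]
    have h2 := Chebyshev.theta_le_log4_mul_x (x := ((4 * N : ℕ) : ℝ)) (Nat.cast_nonneg _)
    have h3 := Chebyshev.theta_nonneg (N : ℝ)
    rw [plo_log4] at h2
    have hl2 : Real.log 2 < 0.6931471808 := Real.log_two_lt_d9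
    push_cast at h2 ⊢
    nlinarith

private theorem plo_fac (N : ℕ) : ∑ n ∈ Ioc 0 N, Real.log n =
    ∑ k ∈ Ioc 0 N, ArithmeticFunction.vonMangoldt k * ((N / k : ℕ) : ℝ) := by
  have h := ArithmeticFunction.sum_Ioc_mul_zeta_eq_sum ArithmeticFunction.vonMangoldt N
  rw [← h]
  refine sum_congr rfl fun n _ => ?_
  rw [ArithmeticFunction.vonMangoldt_mul_zeta]
  rfl

private theorem plo_logsum (N : ℕ) (hN : 1 ≤ N) :
    N * Real.log N - N ≤ ∑ n ∈ Ioc 0 N, Real.log n ∧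
      ∑ n ∈ Ioc 0 N, Real.log n ≤ N * Real.log N := by
  constructor
  · induction N, hN using Nat.le_induction with
    | base => simp
    | succ n hn ih =>
      rw [sum_Ioc_succ_top (Nat.zero_le n)]
      have hn0 : (0 : ℝ) < n := by exact_mod_cast hn
      have h1 : Real.log ((n + 1 : ℕ) : ℝ) - Real.log n ≤ 1 / n := by
        rw [← Real.log_div (by positivity) hn0.ne']
        have h2 := Real.log_le_sub_one_of_pos (x := ((n + 1 : ℕ) : ℝ) / n) (by positivity)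
        refine h2.trans (le_of_eq ?_)
        push_cast
        field_simp
        ring
      have h3 : (n : ℝ) * (Real.log ((n + 1 : ℕ) : ℝ) - Real.log n) ≤ 1 := by
        have h4 := mul_le_mul_of_nonneg_left h1 hn0.le
        rwa [mul_one_div_cancel hn0.ne'] at h4
      push_cast at h3 ⊢
      nlinarith
  · have h1 : ∀ n ∈ Ioc 0 N, Real.log n ≤ Real.log N := by
      intro n hn
      rw [mem_Ioc] at hn
      exact Real.log_le_log (by exact_mod_cast hn.1) (by exact_mod_cast hn.2)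
    have h2 := sum_le_card_nsmul _ _ _ h1
    rw [Nat.card_Ioc, nsmul_eq_mul] at h2
    exact h2

theorem plo_mertens : ∃ C : ℝ, 0 < C ∧ ∀ x : ℝ, 1 ≤ x →
    |∑ k ∈ Icc 1 ⌊x⌋₊, ArithmeticFunction.vonMangoldt k / (k : ℝ) - Real.log x| ≤ C := by
  refine ⟨6, by norm_num, fun x hx => ?_⟩
  obtain ⟨N, hN⟩ : ∃ N : ℕ, N = ⌊x⌋₊ := ⟨_, rfl⟩
  have hN1 : 1 ≤ N := by
    rw [hN]
    exact Nat.le_floor (by exact_mod_cast hx)
  have hNx : (N : ℝ) ≤ x := by
    rw [hN]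
    exact Nat.floor_le (by linarith)
  have hxN : x < N + 1 := by
    rw [hN]
    exact Nat.lt_floor_add_one x
  have hN1' : (1 : ℝ) ≤ N := by exact_mod_cast hN1
  have hN0 : (0 : ℝ) < N := by linarith
  rw [← hN, plo_Ioc]
  obtain ⟨S, hS⟩ : ∃ S : ℝ, S = ∑ k ∈ Ioc 0 N, ArithmeticFunction.vonMangoldt k / (k : ℝ) :=
    ⟨_, rfl⟩
  rw [← hS]
  have h1 := plo_fac N
  have h2 : ∑ k ∈ Ioc 0 N, ArithmeticFunction.vonMangoldt k * ((N / k : ℕ) : ℝ) ≤ N * S := by
    rw [hS, mul_sum]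
    refine sum_le_sum fun k hk => ?_
    have h3 : ((N / k : ℕ) : ℝ) ≤ (N : ℝ) / k := Nat.cast_div_le
    have h4 := ArithmeticFunction.vonMangoldt_nonneg (n := k)
    calc _ ≤ ArithmeticFunction.vonMangoldt k * ((N : ℝ) / k) :=
          mul_le_mul_of_nonneg_left h3 h4
      _ = _ := by ring
  have h3 : N * S ≤ ∑ k ∈ Ioc 0 N, ArithmeticFunction.vonMangoldt k * ((N / k : ℕ) : ℝ) +
      ∑ k ∈ Ioc 0 N, ArithmeticFunction.vonMangoldt k := by
    rw [hS, mul_sum, ← sum_add_distrib]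
    refine sum_le_sum fun k hk => ?_
    rw [mem_Ioc] at hk
    have hk0 : (0 : ℝ) < k := by exact_mod_cast hk.1
    have h3 : (N : ℝ) / k ≤ ((N / k : ℕ) : ℝ) + 1 := by
      rw [div_le_iff₀ hk0]
      have h5 := Nat.div_add_mod N k
      have h6 := Nat.mod_lt N hk.1
      have h7 : N ≤ (N / k + 1) * k := by nlinarith
      exact_mod_cast h7
    have h4 := ArithmeticFunction.vonMangoldt_nonneg (n := k)
    calc _ = ArithmeticFunction.vonMangoldt k * ((N : ℝ) / k) := by ring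
      _ ≤ ArithmeticFunction.vonMangoldt k * (((N / k : ℕ) : ℝ) + 1) :=
          mul_le_mul_of_nonneg_left h3 h4
      _ = _ := by ring
  have h4 := plo_psi N
  have h5 := plo_logsum N hN1
  have hl2 : Real.log 2 < 0.6931471808 := Real.log_two_lt_d9
  have h6 : Real.log N ≤ Real.log x := Real.log_le_log hN0 hNx
  have h7 : Real.log x ≤ Real.log N + Real.log 2 := by
    rw [← Real.log_mul hN0.ne' (by norm_num)]
    exact Real.log_le_log (by linarith) (by linarith)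
  rw [h1] at h5
  have h8 : (N : ℝ) * (Real.log N - 1) ≤ N * S := by nlinarith [h5.1]
  have h9 : (N : ℝ) * S ≤ N * (Real.log N + (Real.log 4 + 4)) := by nlinarith [h5.2]
  have h10 := le_of_mul_le_mul_left h8 hN0
  have h11 := le_of_mul_le_mul_left h9 hN0
  rw [plo_log4] at h11
  rw [abs_le]
  constructor <;> linarith

private theorem plo_step (c x P : ℝ) (hc : 0 < c) (N : ℕ) (hP : P ≤ c * ((N : ℝ) + 1)) :
    P / ((N : ℝ) + 1) ^ 2 + 2 * c * (1 / x - 1 / ((N : ℝ) + 1)) ≤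
      P / ((N : ℝ) + 1 + 1) ^ 2 + 2 * c * (1 / x - 1 / ((N : ℝ) + 1 + 1)) := by
  have hn : (0 : ℝ) ≤ N := Nat.cast_nonneg N
  obtain ⟨m, hm⟩ : ∃ m : ℝ, m = (N : ℝ) + 1 := ⟨_, rfl⟩
  rw [← hm] at hP ⊢
  have hm1 : 1 ≤ m := by linarith
  have hm0 : 0 < m := by linarith
  have h1 : P / m ^ 2 - P / (m + 1) ^ 2 ≤ 2 * c * (1 / m - 1 / (m + 1)) := by
    have e1 : P / m ^ 2 - P / (m + 1) ^ 2 = P * ((2 * m + 1) / (m ^ 2 * (m + 1) ^ 2)) := by
      field_simp
      ring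
    have e2 : 2 * c * (1 / m - 1 / (m + 1)) = 2 * c / (m * (m + 1)) := by
      field_simp
      ring
    rw [e1, e2]
    have e3 : P * ((2 * m + 1) / (m ^ 2 * (m + 1) ^ 2)) ≤
        c * m * ((2 * m + 1) / (m ^ 2 * (m + 1) ^ 2)) :=
      mul_le_mul_of_nonneg_right hP (by positivity)
    refine e3.trans ?_
    have e4 : c * m * ((2 * m + 1) / (m ^ 2 * (m + 1) ^ 2)) =
        c / (m * (m + 1)) * ((2 * m + 1) / (m + 1)) := by
      field_simp
    rw [e4]
    have e5 : (2 * m + 1) / (m + 1) ≤ 2 := by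
      rw [div_le_iff₀ (by linarith)]
      linarith
    calc _ ≤ c / (m * (m + 1)) * 2 := mul_le_mul_of_nonneg_left e5 (by positivity)
      _ = _ := by ring
  linarith

private theorem plo_ind (x : ℝ) (hx : 1 ≤ x) (N : ℕ) (hN : x < (N : ℝ) + 1) :
    ∑ k ∈ (Ioc 0 N).filter (fun k : ℕ => x < k), ArithmeticFunction.vonMangoldt k / (k : ℝ) ^ 2 ≤
      (∑ k ∈ (Ioc 0 N).filter (fun k : ℕ => x < k), ArithmeticFunction.vonMangoldt k) /
        ((N : ℝ) + 1) ^ 2 + 2 * (Real.log 4 + 4) * (1 / x - 1 / ((N : ℝ) + 1)) := by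
  have hl2' : 0.6931471803 < Real.log 2 := Real.log_two_gt_d9
  have hc : 0 < Real.log 4 + 4 := by
    rw [plo_log4]
    linarith
  induction N with
  | zero =>
    exfalso
    push_cast at hN
    linarith
  | succ n ih =>
    have hP : ∑ k ∈ (Ioc 0 (n + 1)).filter (fun k : ℕ => x < k),
        ArithmeticFunction.vonMangoldt k ≤ (Real.log 4 + 4) * ((n : ℝ) + 1) := by
      have h1 := plo_psi (n + 1)
      push_cast at h1
      refine le_trans ?_ h1
      exact sum_le_sum_of_subset_of_nonneg (filter_subset _ _)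
        fun k _ _ => ArithmeticFunction.vonMangoldt_nonneg
    have hst := plo_step (Real.log 4 + 4) x _ hc n hP
    push_cast
    have hsum : ∀ f : ℕ → ℝ, ∑ k ∈ (Ioc 0 (n + 1)).filter (fun k : ℕ => x < k), f k =
        ∑ k ∈ (Ioc 0 n).filter (fun k : ℕ => x < k), f k +
          if x < ((n + 1 : ℕ) : ℝ) then f (n + 1) else 0 := by
      intro f
      rw [sum_filter, sum_filter, sum_Ioc_succ_top (Nat.zero_le n)]
    by_cases hlt : x < (n : ℝ) + 1
    · refine le_trans ?_ hst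
      have h2 := ih hlt
      rw [hsum, hsum]
      have h3 : x < ((n + 1 : ℕ) : ℝ) := by
        push_cast
        exact hlt
      rw [if_pos h3, if_pos h3, add_div]
      push_cast
      linarith
    · have h4 : ∀ f : ℕ → ℝ, ∑ k ∈ (Ioc 0 (n + 1)).filter (fun k : ℕ => x < k), f k = 0 := by
        intro f
        rw [filter_eq_empty_iff.2, sum_empty]
        intro k hk hxk
        rw [mem_Ioc] at hk
        have h5 : (k : ℝ) ≤ (n : ℝ) + 1 := by exact_mod_cast hk.2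
        exact hlt (lt_of_lt_of_le hxk h5)
      rw [h4, h4, zero_div, zero_add]
      push_cast at hN
      have h6 : 1 / ((n : ℝ) + 1 + 1) ≤ 1 / x :=
        one_div_le_one_div_of_le (by linarith) hN.le
      have h7 : 0 ≤ 1 / x - 1 / ((n : ℝ) + 1 + 1) := by linarith
      positivity

theorem plo_sq : ∃ C : ℝ, 0 < C ∧ ∀ x : ℝ, 1 ≤ x → ∀ N : ℕ,
    ∑ k ∈ (Icc 1 N).filter (fun k : ℕ => x < k), ArithmeticFunction.vonMangoldt k / (k : ℝ) ^ 2 ≤ C / x := by
  have hl2' : 0.6931471803 < Real.log 2 := Real.log_two_gt_d9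
  have hc : 0 < Real.log 4 + 4 := by
    rw [plo_log4]
    linarith
  refine ⟨2 * (Real.log 4 + 4), by positivity, fun x hx N => ?_⟩
  rw [plo_Ioc]
  have hx0 : 0 < x := by linarith
  by_cases hN : x < (N : ℝ) + 1
  · refine le_trans (plo_ind x hx N hN) ?_
    have h1 : ∑ k ∈ (Ioc 0 N).filter (fun k : ℕ => x < k), ArithmeticFunction.vonMangoldt k ≤
        (Real.log 4 + 4) * ((N : ℝ) + 1) := by
      have h2 := plo_psi N
      refine le_trans (sum_le_sum_of_subset_of_nonneg (filter_subset _ _)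
        fun k _ _ => ArithmeticFunction.vonMangoldt_nonneg) (h2.trans ?_)
      nlinarith
    have hN0 : (0 : ℝ) < (N : ℝ) + 1 := by positivity
    have h3 : (∑ k ∈ (Ioc 0 N).filter (fun k : ℕ => x < k), ArithmeticFunction.vonMangoldt k) /
        ((N : ℝ) + 1) ^ 2 ≤ (Real.log 4 + 4) * (1 / ((N : ℝ) + 1)) := by
      rw [div_le_iff₀ (by positivity)]
      refine h1.trans (le_of_eq ?_)
      field_simp
    have h4 : 0 ≤ (Real.log 4 + 4) * (1 / ((N : ℝ) + 1)) := by positivity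
    have h5 : 2 * (Real.log 4 + 4) / x = 2 * (Real.log 4 + 4) * (1 / x) := by ring
    rw [h5]
    linarith
  · rw [filter_eq_empty_iff.2, sum_empty]
    · positivity
    · intro k hk hxk
      rw [mem_Ioc] at hk
      have h5 : (k : ℝ) ≤ (N : ℝ) := by exact_mod_cast hk.2
      exact hN (by linarith)

end Pool.Agent.H24.WH
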