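import Pool.Agent.H24.WH.Defs
import Pool.Agent.H73.WH.Ggb

/-!
# [H24 WH STL] the logarithmic derivative of the factor of the functional equation

PROOF. `GG s = Gammaℝ s / Gammaℝ (1 - s)` (`Pool/Agent/H48/WN/Gfe.lean`: copy its private lemmas `gr_ne, gr_deriv, gg_deriv, gg_ne,
digamma_conj`), so `lam s = -log π + digamma(s/2)/2 + digamma((1-s)/2)/2`. By `Pool.Agent.H14.Sel.stirling`: `Γ = stir · (1 + g)`,
`|g(z)| ≤ C/|z|^2` for `|Re z| ≤ A + 2`, `|Im z| ≥ T1`; Cauchy on discs of radius 1: `|g'(z)| ≤ C'/|z|^2`, so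
`digamma z = log z - 1/(2z) + O(1/|z|^2) = log z + O(1/|z|)`. With `z = s/2` and `z = (1-s)/2 = conj((1 - conj s)/2)`
(`digamma_conj`): `log(s/2) + log((1-s)/2)`: `log z = log(i y) + log(1 + x/(iy)) = log y + iπ/2 + O(|x|/y)` for `Im z = y > 0` and the
conjugate `log y - iπ/2 + O(|x|/y)`, the sum is `2 log(Im s/2) + O(1/Im s)`. Differentiability of `lam` near `s`: it is
`deriv GG / GG`, `GG` analytic and `≠ 0` for `Im > 0`.
-/

set_option autoImplicit false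

namespace Pool.Agent.H24.WH

open Complex MeasureTheory Finset Pool.Agent.H48.WN

theorem stl (A : ℝ) : ∃ C T0 : ℝ, 0 < C ∧ 10 ≤ T0 ∧ ∀ s : ℂ, |s.re| ≤ A → T0 ≤ s.im →
    riemannZeta (1 - s) = GG s * riemannZeta s ∧ GG s ≠ 0 ∧ DifferentiableAt ℂ GG s ∧ DifferentiableAt ℂ lam s ∧
      ‖lam s - ((Real.log (s.im / (2 * Real.pi)) : ℝ) : ℂ)‖ ≤ C / s.im := by
  obtain ⟨C, T0, hC, hT0, H⟩ := Pool.Agent.H73.WH.lam_bd A
  refine ⟨C, T0, hC, hT0, fun s hs1 hs2 => ?_⟩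
  have hp : 0 < s.im := by linarith
  have h0 : s.im ≠ 0 := hp.ne'
  have hab : |s.im| = s.im := abs_of_pos hp
  have h1 := H s hs1 (by rw [hab]; exact hs2)
  rw [hab] at h1
  exact ⟨Pool.Agent.H73.WH.gg_fe h0, Pool.Agent.H73.WH.gg_ne h0, Pool.Agent.H73.WH.gg_diff h0,
    Pool.Agent.H73.WH.lam_diff h0, h1⟩

end Pool.Agent.H24.WH
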