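import Pool.Agent.H24.WH.Fdc
import Pool.Agent.H24.WH.Dls
import Pool.Agent.H24.WH.Plo
import Pool.Agent.H24.WH.Stl

/-!
# [H24 WH E1B] the average of the first term

PROOF. `Re s = 2`. `lam(s) = log(t0/2π) + O((1+|y|)/T)` (`stl`: `log((t0+y)/2π) = log(t0/2π) + O(|y|/T)`), `|ζ'| ≤ C`, `|Bp(pt (3/2) ..)| ≤ C T` (`dls_bp`): replacing `lam` by `log(t0/2π)` costs
`T · (C/T) · C T · int e^(9/4 - y^2)(1+|y|) dy = O(T)`. Then with `-ζ' = sum log m m^(-s)`: the average of `log(t0/2π) ζ' Bp` is `- sum_m sum_p log m log p m^(-2) p V1(log p - log m)`,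
`V1(x) = (int kk (3/2) y e^(ixy) dy)(int_T^(2T) ph(t0/T) log(t0/2π) e^(ixt0) dt0)`. As `log(t0/2π) = log u + log(T/2π)`, `u = t0/T`: `|V1(x)| ≤ C L T (1+T|x|)^(-A)` (`fdc` for `ph` and
`ph · log`, the latter is smooth with compact support in `[1,2]`). `m ≠ p`: as in `Avr`, total `≤ 1`. `m = p`: `- sum_p (log p)^2/p V1(0)`, `V1(0) = (sqrt π + O(e^(-L^4)))(T L P0 + O(T))`
(`int_ℝ kk (3/2) y dy = sqrt π`: `integral_cexp_quadratic`, as in `Cnt`), and `sum_p (log p)^2/p ≤ 6 L`.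
-/

set_option autoImplicit false

namespace Pool.Agent.H24.WH

open Complex MeasureTheory Finset Pool.Agent.H48.WN

/-! ### Gaussian integrals -/

private theorem e1b_gi : Integrable (fun y : ℝ => Real.exp (-(y ^ 2 / 2))) := by
  have h := integrable_exp_neg_mul_sq (b := 1 / 2) (by norm_num)
  refine h.congr (Filter.Eventually.of_forall fun y => ?_)
  show Real.exp (-(1 / 2) * y ^ 2) = Real.exp (-(y ^ 2 / 2))
  rw [show -(1 / 2) * y ^ 2 = -(y ^ 2 / 2) by ring]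

private theorem e1b_gv : ∫ y : ℝ, Real.exp (-(y ^ 2 / 2)) ≤ 3 := by
  have h := integral_gaussian (1 / 2)
  have h1 : ∫ y : ℝ, Real.exp (-(y ^ 2 / 2)) = √(Real.pi / (1 / 2)) := by
    rw [← h]
    refine integral_congr_ae (Filter.Eventually.of_forall fun y => ?_)
    show Real.exp (-(y ^ 2 / 2)) = Real.exp (-(1 / 2) * y ^ 2)
    rw [show -(1 / 2) * y ^ 2 = -(y ^ 2 / 2) by ring]
  rw [h1]
  apply Real.sqrt_le_iff.2
  have := Real.pi_lt_four
  constructor
  · norm_num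
  · linarith

private theorem e1b_e94 : Real.exp (9 / 4) ≤ 10 := by
  have h1 : Real.exp (9 / 4) ^ 4 = Real.exp 1 ^ 9 := by
    rw [← Real.exp_nat_mul, ← Real.exp_nat_mul]
    norm_num
  have h2 : Real.exp 1 ^ 9 ≤ 2.72 ^ 9 :=
    pow_le_pow_left₀ (Real.exp_pos 1).le (Real.exp_one_lt_d9.le.trans (by norm_num)) 9
  have h3 : Real.exp (9 / 4) ^ 4 ≤ 10 ^ 4 := by
    rw [h1]
    exact h2.trans (by norm_num)
  exact (pow_le_pow_iff_left₀ (Real.exp_pos _).le (by norm_num) (by norm_num)).1 h3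

private theorem e1b_kn (y : ℝ) : ‖kk (3 / 2) y‖ ≤ 10 * Real.exp (-(y ^ 2 / 2)) * Real.exp (-(y ^ 2 / 2)) := by
  rw [kk_norm, mul_assoc, ← Real.exp_add, show (3 / 2 : ℝ) ^ 2 - y ^ 2 = 9 / 4 + (-(y ^ 2 / 2) + -(y ^ 2 / 2)) by ring,
    Real.exp_add]
  exact mul_le_mul_of_nonneg_right e1b_e94 (Real.exp_pos _).le

private theorem e1b_kn2 (y : ℝ) : ‖kk (3 / 2) y‖ * (1 + |y|) ≤ 20 * Real.exp (-(y ^ 2 / 2)) := by
  have h1 : (1 + |y|) * Real.exp (-(y ^ 2 / 2)) ≤ 2 := by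
    have h2 := Real.add_one_le_exp (y ^ 2 / 2)
    have h3 : 1 + |y| ≤ 2 * Real.exp (y ^ 2 / 2) := by
      have h4 : y ^ 2 = |y| ^ 2 := (sq_abs y).symm
      nlinarith [sq_nonneg (|y| - 1), abs_nonneg y]
    have h5 := mul_le_mul_of_nonneg_right h3 (Real.exp_pos (-(y ^ 2 / 2))).le
    rwa [mul_assoc, ← Real.exp_add, add_neg_cancel, Real.exp_zero, mul_one] at h5
  have h2 := Real.exp_pos (-(y ^ 2 / 2))
  calc ‖kk (3 / 2) y‖ * (1 + |y|) ≤ (10 * Real.exp (-(y ^ 2 / 2)) * Real.exp (-(y ^ 2 / 2))) * (1 + |y|) :=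
        mul_le_mul_of_nonneg_right (e1b_kn y) (by positivity)
    _ = 10 * Real.exp (-(y ^ 2 / 2)) * ((1 + |y|) * Real.exp (-(y ^ 2 / 2))) := by ring
    _ ≤ 10 * Real.exp (-(y ^ 2 / 2)) * 2 := mul_le_mul_of_nonneg_left h1 (by positivity)
    _ = _ := by ring

private theorem e1b_inner {R B : ℝ} (hR : 0 ≤ R) (hB : 0 ≤ B) {G : ℝ → ℂ}
    (hG : ∀ y, |y| ≤ R → ‖G y‖ ≤ B * (1 + |y|)) :
    ‖∫ y in (-R)..R, kk (3 / 2) y * G y‖ ≤ 60 * B := by
  have hle : -R ≤ R := by linarith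
  have h1 : ‖∫ y in (-R)..R, kk (3 / 2) y * G y‖ ≤ ∫ y in (-R)..R, B * 20 * Real.exp (-(y ^ 2 / 2)) := by
    apply intervalIntegral.norm_integral_le_of_norm_le hle
    · refine Filter.Eventually.of_forall fun y hy => ?_
      have hy1 : |y| ≤ R := abs_le.2 ⟨hy.1.le, hy.2⟩
      rw [norm_mul]
      calc ‖kk (3 / 2) y‖ * ‖G y‖ ≤ ‖kk (3 / 2) y‖ * (B * (1 + |y|)) :=
            mul_le_mul_of_nonneg_left (hG y hy1) (norm_nonneg _)
        _ = B * (‖kk (3 / 2) y‖ * (1 + |y|)) := by ring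
        _ ≤ B * (20 * Real.exp (-(y ^ 2 / 2))) := mul_le_mul_of_nonneg_left (e1b_kn2 y) hB
        _ = _ := by ring
    · exact (e1b_gi.const_mul (B * 20)).intervalIntegrable
  refine h1.trans ?_
  rw [intervalIntegral.integral_of_le hle]
  have h2 : ∫ y in Set.Ioc (-R) R, B * 20 * Real.exp (-(y ^ 2 / 2)) ≤ ∫ y : ℝ, B * 20 * Real.exp (-(y ^ 2 / 2)) :=
    setIntegral_le_integral (e1b_gi.const_mul _) (Filter.Eventually.of_forall fun y => by positivity)
  refine h2.trans ?_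
  rw [integral_const_mul]
  have := mul_le_mul_of_nonneg_left e1b_gv (by positivity : 0 ≤ B * 20)
  linarith

private theorem e1b_kint : Integrable (kk (3 / 2)) ∧ ∫ y, kk (3 / 2) y = ((Real.sqrt Real.pi : ℝ) : ℂ) := by
  have h1 : kk (3 / 2) = fun y : ℝ => cexp (-(1 : ℂ) * ((y : ℂ) + ((-(3 / 2) : ℝ) : ℂ) * I) ^ 2) := by
    funext y
    unfold kk
    congr 1
    push_cast
    have hI : I ^ 2 = -1 := Complex.I_sq
    linear_combination ((3 / 2 : ℂ) ^ 2 + (y : ℂ) ^ 2) * hI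
  rw [h1]
  constructor
  · exact GaussianFourier.integrable_cexp_neg_mul_sq_add_real_mul_I (by norm_num) (-(3 / 2))
  · rw [GaussianFourier.integral_cexp_neg_mul_sq_add_real_mul_I (by norm_num) (-(3 / 2)), div_one,
      Real.sqrt_eq_rpow, Complex.ofReal_cpow Real.pi_pos.le]
    norm_num

private theorem e1b_tail {R : ℝ} (hR : 0 ≤ R) :
    ‖(∫ y in (-R)..R, kk (3 / 2) y) - ((Real.sqrt Real.pi : ℝ) : ℂ)‖ ≤ 30 * Real.exp (-(R ^ 2 / 2)) := by
  have hle : -R ≤ R := by linarith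
  obtain ⟨hi, hv⟩ := e1b_kint
  rw [← hv, norm_sub_rev, intervalIntegral.integral_of_le hle]
  have e1 : (∫ y, kk (3 / 2) y) - ∫ y in Set.Ioc (-R) R, kk (3 / 2) y = ∫ y in (Set.Ioc (-R) R)ᶜ, kk (3 / 2) y := by
    rw [sub_eq_iff_eq_add, add_comm]
    exact (integral_add_compl measurableSet_Ioc hi).symm
  rw [e1]
  have h1 : ‖∫ y in (Set.Ioc (-R) R)ᶜ, kk (3 / 2) y‖ ≤
      ∫ y in (Set.Ioc (-R) R)ᶜ, 10 * Real.exp (-(R ^ 2 / 2)) * Real.exp (-(y ^ 2 / 2)) := by
    refine norm_integral_le_of_norm_le (e1b_gi.integrableOn.const_mul _) ?_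
    refine (ae_restrict_iff' measurableSet_Ioc.compl).2 (Filter.Eventually.of_forall fun y hy => ?_)
    refine (e1b_kn y).trans ?_
    have h2 : R ^ 2 ≤ y ^ 2 := by
      rw [Set.mem_compl_iff, Set.mem_Ioc, not_and_or, not_lt, not_le] at hy
      rcases hy with hy | hy
      · nlinarith
      · nlinarith
    have h3 : Real.exp (-(y ^ 2 / 2)) ≤ Real.exp (-(R ^ 2 / 2)) := Real.exp_le_exp.2 (by linarith)
    have h4 := Real.exp_pos (-(y ^ 2 / 2))
    exact mul_le_mul_of_nonneg_right (mul_le_mul_of_nonneg_left h3 (by norm_num)) h4.le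
  refine h1.trans ?_
  have h2 : ∫ y in (Set.Ioc (-R) R)ᶜ, 10 * Real.exp (-(R ^ 2 / 2)) * Real.exp (-(y ^ 2 / 2)) ≤
      ∫ y : ℝ, 10 * Real.exp (-(R ^ 2 / 2)) * Real.exp (-(y ^ 2 / 2)) :=
    setIntegral_le_integral (e1b_gi.const_mul _) (Filter.Eventually.of_forall fun y => by positivity)
  refine h2.trans ?_
  rw [integral_const_mul]
  have := mul_le_mul_of_nonneg_left e1b_gv (by positivity : 0 ≤ 10 * Real.exp (-(R ^ 2 / 2)))
  linarith

/-! ### the average in `t0` -/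

private theorem e1b_sub (T : ℝ) (hT : 0 < T) (g : ℝ → ℝ) (hl : ∀ u, u ≤ 1 → g u = 0) (hr : ∀ u, 2 ≤ u → g u = 0)
    (x : ℝ) : ∫ t0 in T..(2 * T), ((g (t0 / T) : ℝ) : ℂ) * cexp (I * (x : ℂ) * (t0 : ℂ)) =
      (T : ℂ) * ∫ u : ℝ, ((g u : ℝ) : ℂ) * cexp (I * ((T * x : ℝ) : ℂ) * (u : ℂ)) := by
  have hT0 : (T : ℂ) ≠ 0 := by exact_mod_cast hT.ne'
  have h1 := intervalIntegral.integral_comp_div (a := T) (b := 2 * T) (c := T)
    (fun u : ℝ => ((g u : ℝ) : ℂ) * cexp (I * ((T * x : ℝ) : ℂ) * (u : ℂ))) hT.ne'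
  have h2 : (fun t0 : ℝ => ((g (t0 / T) : ℝ) : ℂ) * cexp (I * ((T * x : ℝ) : ℂ) * ((t0 / T : ℝ) : ℂ))) =
      fun t0 : ℝ => ((g (t0 / T) : ℝ) : ℂ) * cexp (I * (x : ℂ) * (t0 : ℂ)) := by
    funext t0
    congr 2
    push_cast
    field_simp
  rw [h2, div_self hT.ne', mul_div_assoc, div_self hT.ne', mul_one] at h1
  rw [h1, Complex.real_smul]
  congr 1
  refine intervalIntegral.integral_eq_integral_of_support_subset ?_
  intro u hu
  rw [Function.mem_support] at hu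
  by_contra hc
  apply hu
  rw [Set.mem_Ioc, not_and_or, not_lt, not_le] at hc
  rcases hc with hc | hc
  · rw [hl u hc, Complex.ofReal_zero, zero_mul]
  · rw [hr u hc.le, Complex.ofReal_zero, zero_mul]

private theorem e1b_cs (g : ℝ → ℝ) (hl : ∀ u, u ≤ 1 → g u = 0) (hr : ∀ u, 2 ≤ u → g u = 0) : HasCompactSupport g := by
  refine HasCompactSupport.intro (isCompact_Icc (a := (1 : ℝ)) (b := 2)) ?_
  intro u hu
  rw [Set.mem_Icc, not_and_or, not_le, not_le] at hu
  rcases hu with hu | hu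
  · exact hl u hu.le
  · exact hr u hu.le

private theorem e1b_g1 : ContDiff ℝ (⊤ : ℕ∞) (fun u => ph u * Real.log u) := by
  rw [contDiff_iff_contDiffAt]
  intro u
  by_cases hu : u < 1
  · have : (fun u => ph u * Real.log u) =ᶠ[nhds u] fun _ => (0 : ℝ) := by
      filter_upwards [Iio_mem_nhds hu] with v hv
      rw [ph_zero_left (le_of_lt hv), zero_mul]
    exact contDiffAt_const.congr_of_eventuallyEq this
  · have hu0 : u ≠ 0 := by linarith
    exact ph_contDiff.contDiffAt.mul (Real.contDiffAt_log.2 hu0)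

private theorem e1b_ell {T t0 : ℝ} (hT : 10 ≤ T) (h1 : T ≤ t0) (h2 : t0 ≤ 2 * T) :
    0 ≤ Real.log (t0 / (2 * Real.pi)) ∧ Real.log (t0 / (2 * Real.pi)) ≤ Real.log T ∧
      |Real.log (t0 / (2 * Real.pi)) - Real.log T| ≤ 2 ∧
      Real.log (t0 / (2 * Real.pi)) = Real.log (t0 / T) + Real.log (T / (2 * Real.pi)) := by
  have hp := Real.pi_gt_three
  have hp2 := Real.pi_lt_d2
  have hpi : 0 < 2 * Real.pi := by linarith
  have ht : 0 < t0 := by linarith
  have hTp : 0 < T := by linarith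
  have e1 : Real.log (t0 / (2 * Real.pi)) = Real.log t0 - Real.log (2 * Real.pi) := Real.log_div ht.ne' hpi.ne'
  have a1 : Real.log (t0 / (2 * Real.pi)) ≤ Real.log T := by
    apply Real.log_le_log (by positivity)
    rw [div_le_iff₀ hpi]
    nlinarith
  refine ⟨?_, a1, ?_, ?_⟩
  · apply Real.log_nonneg
    rw [le_div_iff₀ hpi]
    linarith
  · have h3 : Real.log T ≤ Real.log t0 := Real.log_le_log hTp h1
    have h4 : Real.log (2 * Real.pi) ≤ 2 := by
      rw [Real.log_le_iff_le_exp hpi]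
      have h5 : Real.exp 2 = Real.exp 1 ^ 2 := by
        rw [← Real.exp_nat_mul]
        norm_num
      have h6 := Real.exp_one_gt_d9
      rw [h5]
      nlinarith
    rw [abs_le]
    constructor
    · linarith
    · linarith
  · rw [e1, Real.log_div ht.ne' hTp.ne', Real.log_div hTp.ne' hpi.ne']
    ring

private noncomputable def e1b_W (T x : ℝ) : ℂ :=
  ∫ t0 in T..(2 * T), ((ph (t0 / T) : ℝ) : ℂ) * (((Real.log (t0 / (2 * Real.pi)) : ℝ) : ℂ) * cexp (I * (x : ℂ) * (t0 : ℂ)))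

private theorem e1b_phc (T : ℝ) : Continuous (fun t0 : ℝ => ((ph (t0 / T) : ℝ) : ℂ)) := by
  have h1 : Continuous ph := ph_contDiff.continuous
  exact Complex.continuous_ofReal.comp (h1.comp (continuous_id.div_const T))

private theorem e1b_lc {T : ℝ} (hT : 10 ≤ T) :
    ContinuousOn (fun t0 : ℝ => ((Real.log (t0 / (2 * Real.pi)) : ℝ) : ℂ)) (Set.uIcc T (2 * T)) := by
  rw [Set.uIcc_of_le (by linarith)]
  refine Complex.continuous_ofReal.comp_continuousOn ?_
  refine ContinuousOn.log (continuousOn_id.div_const _) fun t0 ht0 => ?_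
  have := Real.pi_pos
  have h1 : 0 < t0 := by linarith [ht0.1]
  positivity

private theorem e1b_Wb : ∃ C : ℝ, 0 < C ∧ ∀ T : ℝ, 10 ≤ T → 1 ≤ Real.log T → ∀ x : ℝ,
    ‖e1b_W T x‖ ≤ C * T * Real.log T * (1 + T * |x|) ^ (-(8 : ℝ)) := by
  have hl1 : ∀ u : ℝ, u ≤ 1 → ph u * Real.log u = 0 := fun u hu => by rw [ph_zero_left hu, zero_mul]
  have hr1 : ∀ u : ℝ, 2 ≤ u → ph u * Real.log u = 0 := fun u hu => by rw [ph_zero_right hu, zero_mul]
  obtain ⟨C1, hC1, H1⟩ := fdc (fun u => ph u * Real.log u) e1b_g1 (e1b_cs _ hl1 hr1) 8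
  obtain ⟨C2, hC2, H2⟩ := fdc ph ph_contDiff (e1b_cs _ (fun u hu => ph_zero_left hu) (fun u hu => ph_zero_right hu)) 8
  refine ⟨C1 + C2, by positivity, fun T hT hL x => ?_⟩
  have hTp : 0 < T := by linarith
  have hT2 : T ≤ 2 * T := by linarith
  have hLT := e1b_ell hT le_rfl hT2
  have e1 : e1b_W T x = (∫ t0 in T..(2 * T), ((ph (t0 / T) * Real.log (t0 / T) : ℝ) : ℂ) * cexp (I * (x : ℂ) * (t0 : ℂ))) +
      ((Real.log (T / (2 * Real.pi)) : ℝ) : ℂ) *
        ∫ t0 in T..(2 * T), ((ph (t0 / T) : ℝ) : ℂ) * cexp (I * (x : ℂ) * (t0 : ℂ)) := by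
    rw [← intervalIntegral.integral_const_mul, ← intervalIntegral.integral_add]
    · refine intervalIntegral.integral_congr fun t0 ht0 => ?_
      rw [Set.uIcc_of_le hT2] at ht0
      rw [(e1b_ell hT ht0.1 ht0.2).2.2.2]
      push_cast
      ring
    · apply ContinuousOn.intervalIntegrable
      have h1 : Continuous (fun u => ph u * Real.log u) := e1b_g1.continuous
      have h2 : Continuous (fun t0 : ℝ => ((ph (t0 / T) * Real.log (t0 / T) : ℝ) : ℂ)) :=
        Complex.continuous_ofReal.comp (h1.comp (continuous_id.div_const T))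
      exact (h2.mul (by fun_prop)).continuousOn
    · apply Continuous.intervalIntegrable
      exact continuous_const.mul ((e1b_phc T).mul (by fun_prop))
  rw [e1, e1b_sub T hTp (fun u => ph u * Real.log u) hl1 hr1 x,
    e1b_sub T hTp ph (fun u hu => ph_zero_left hu) (fun u hu => ph_zero_right hu) x]
  have h3 := H1 (T * x)
  have h4 := H2 (T * x)
  rw [abs_mul, abs_of_pos hTp] at h3 h4
  have hA : ((8 : ℕ) : ℝ) = 8 := by norm_num
  rw [hA] at h3 h4
  have hq : 0 ≤ (1 + T * |x|) ^ (-(8 : ℝ)) := Real.rpow_nonneg (by positivity) _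
  have hlT : ‖((Real.log (T / (2 * Real.pi)) : ℝ) : ℂ)‖ ≤ Real.log T := by
    rw [Complex.norm_real, Real.norm_eq_abs, abs_of_nonneg hLT.1]
    exact hLT.2.1
  have hTn : ‖(T : ℂ)‖ = T := by rw [Complex.norm_real, Real.norm_eq_abs, abs_of_pos hTp]
  refine (norm_add_le _ _).trans ?_
  rw [norm_mul, norm_mul, norm_mul, hTn]
  have b1 := mul_le_mul_of_nonneg_left h3 hTp.le
  have b2 := mul_le_mul_of_nonneg_left h4 hTp.le
  have b3 := mul_le_mul hlT b2 (by positivity) (by linarith)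
  have b4 : T * (C1 * (1 + T * |x|) ^ (-(8 : ℝ))) ≤ Real.log T * (T * (C1 * (1 + T * |x|) ^ (-(8 : ℝ)))) :=
    le_mul_of_one_le_left (by positivity) hL
  have e2 : (C1 + C2) * T * Real.log T * (1 + T * |x|) ^ (-(8 : ℝ)) =
      Real.log T * (T * (C1 * (1 + T * |x|) ^ (-(8 : ℝ)))) + Real.log T * (T * (C2 * (1 + T * |x|) ^ (-(8 : ℝ)))) := by ring
  rw [e2]
  linarith

private theorem e1b_W0 {T : ℝ} (hT : 10 ≤ T) :
    ‖e1b_W T 0 - ((T * P0 * Real.log T : ℝ) : ℂ)‖ ≤ 2 * T := by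
  have hTp : 0 < T := by linarith
  have hT2 : T ≤ 2 * T := by linarith
  have e0 : ((T * P0 * Real.log T : ℝ) : ℂ) = ∫ t0 in T..(2 * T), ((ph (t0 / T) * Real.log T : ℝ) : ℂ) := by
    rw [intervalIntegral.integral_ofReal, intervalIntegral.integral_mul_const,
      intervalIntegral.integral_comp_div ph hTp.ne', div_self hTp.ne', mul_div_assoc, div_self hTp.ne', mul_one]
    unfold P0
    simp
  have e1 : e1b_W T 0 = ∫ t0 in T..(2 * T), ((ph (t0 / T) * Real.log (t0 / (2 * Real.pi)) : ℝ) : ℂ) := by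
    unfold e1b_W
    refine intervalIntegral.integral_congr fun t0 _ => ?_
    simp
  have hc : ContinuousOn (fun t0 : ℝ => ((ph (t0 / T) * Real.log (t0 / (2 * Real.pi)) : ℝ) : ℂ)) (Set.uIcc T (2 * T)) := by
    have := (e1b_phc T).continuousOn.mul (e1b_lc hT)
    refine this.congr fun t0 _ => ?_
    push_cast
    rfl
  rw [e0, e1, ← intervalIntegral.integral_sub hc.intervalIntegrable]
  · have h1 := intervalIntegral.norm_integral_le_of_norm_le_const (a := T) (b := 2 * T) (C := 2)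
      (f := fun t0 : ℝ => ((ph (t0 / T) * Real.log (t0 / (2 * Real.pi)) : ℝ) : ℂ) - ((ph (t0 / T) * Real.log T : ℝ) : ℂ))
      (fun t0 ht0 => by
        rw [Set.uIoc_of_le hT2] at ht0
        have h2 := (e1b_ell hT ht0.1.le ht0.2).2.2.1
        rw [← Complex.ofReal_sub, Complex.norm_real, Real.norm_eq_abs, ← mul_sub, abs_mul]
        have h3 := ph_le (t0 / T)
        have h4 := ph_nonneg (t0 / T)
        rw [abs_of_nonneg h4]
        nlinarith [abs_nonneg (Real.log (t0 / (2 * Real.pi)) - Real.log T)])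
    refine h1.trans (le_of_eq ?_)
    rw [show 2 * T - T = T by ring, abs_of_pos hTp]
  · apply Continuous.intervalIntegrable
    have : Continuous (fun t0 : ℝ => ((ph (t0 / T) : ℝ) : ℂ) * ((Real.log T : ℝ) : ℂ)) :=
      (e1b_phc T).mul continuous_const
    refine this.congr fun t0 => ?_
    push_cast
    rfl


/-! ### the functional -/

private noncomputable def e1b_La (T : ℝ) (F : ℝ → ℂ) : ℂ :=
  ∫ t0 in T..(2 * T), ((ph (t0 / T) : ℝ) : ℂ) * (((Real.log (t0 / (2 * Real.pi)) : ℝ) : ℂ) *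
    ∫ y in (-(Real.log T) ^ 2)..((Real.log T) ^ 2), kk (3 / 2) y * F (t0 + y))

private theorem e1b_kc : Continuous (kk (3 / 2)) := by
  unfold kk
  fun_prop

private theorem e1b_par (R : ℝ) {F : ℝ → ℂ} (hF : Continuous F) :
    Continuous (fun t0 : ℝ => ∫ y in (-R)..R, kk (3 / 2) y * F (t0 + y)) := by
  refine intervalIntegral.continuous_parametric_intervalIntegral_of_continuous' ?_ _ _
  exact (e1b_kc.comp continuous_snd).mul (hF.comp (continuous_fst.add continuous_snd))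

private theorem e1b_Li {T : ℝ} (hT : 10 ≤ T) {F : ℝ → ℂ} (hF : Continuous F) :
    IntervalIntegrable (fun t0 : ℝ => ((ph (t0 / T) : ℝ) : ℂ) * (((Real.log (t0 / (2 * Real.pi)) : ℝ) : ℂ) *
      ∫ y in (-(Real.log T) ^ 2)..((Real.log T) ^ 2), kk (3 / 2) y * F (t0 + y))) volume T (2 * T) :=
  ContinuousOn.intervalIntegrable ((e1b_phc T).continuousOn.mul ((e1b_lc hT).mul (e1b_par _ hF).continuousOn))

private theorem e1b_Lsum {T : ℝ} (hT : 10 ≤ T) {ι : Type} (s : Finset ι) (F : ι → ℝ → ℂ) (hF : ∀ i ∈ s, Continuous (F i)) :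
    e1b_La T (fun t => ∑ i ∈ s, F i t) = ∑ i ∈ s, e1b_La T (F i) := by
  unfold e1b_La
  rw [← intervalIntegral.integral_finset_sum fun i hi => e1b_Li hT (hF i hi)]
  refine intervalIntegral.integral_congr fun t0 _ => ?_
  simp only
  rw [← mul_sum, ← mul_sum, ← intervalIntegral.integral_finset_sum]
  · simp only [mul_sum]
  · intro i hi
    apply Continuous.intervalIntegrable
    exact e1b_kc.mul ((hF i hi).comp (continuous_const.add continuous_id))

private theorem e1b_Lmul (T : ℝ) (c : ℂ) (F : ℝ → ℂ) : e1b_La T (fun t => c * F t) = c * e1b_La T F := by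
  unfold e1b_La
  rw [← intervalIntegral.integral_const_mul]
  refine intervalIntegral.integral_congr fun t0 _ => ?_
  have h : ∫ y in (-(Real.log T) ^ 2)..((Real.log T) ^ 2), kk (3 / 2) y * (c * F (t0 + y)) =
      c * ∫ y in (-(Real.log T) ^ 2)..((Real.log T) ^ 2), kk (3 / 2) y * F (t0 + y) := by
    rw [← intervalIntegral.integral_const_mul]
    refine intervalIntegral.integral_congr fun y _ => ?_
    ring
  rw [h]
  ring

private theorem e1b_Lsub {T : ℝ} (hT : 10 ≤ T) {F G : ℝ → ℂ} (hF : Continuous F) (hG : Continuous G) :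
    e1b_La T (fun t => F t - G t) = e1b_La T F - e1b_La T G := by
  unfold e1b_La
  rw [← intervalIntegral.integral_sub (e1b_Li hT hF) (e1b_Li hT hG)]
  refine intervalIntegral.integral_congr fun t0 _ => ?_
  simp only
  rw [← mul_sub, ← mul_sub, ← intervalIntegral.integral_sub]
  · simp only [mul_sub]
  · apply Continuous.intervalIntegrable
    exact e1b_kc.mul (hF.comp (continuous_const.add continuous_id))
  · apply Continuous.intervalIntegrable
    exact e1b_kc.mul (hG.comp (continuous_const.add continuous_id))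

private theorem e1b_Lb {T B : ℝ} (hT : 10 ≤ T) (hL : 0 ≤ Real.log T) (hB : 0 ≤ B) {F : ℝ → ℂ} (hF : ∀ t, ‖F t‖ ≤ B) :
    ‖e1b_La T F‖ ≤ Real.log T * (60 * B) * T := by
  have hTp : 0 < T := by linarith
  have hT2 : T ≤ 2 * T := by linarith
  unfold e1b_La
  have h1 := intervalIntegral.norm_integral_le_of_norm_le_const (a := T) (b := 2 * T) (C := Real.log T * (60 * B))
      (f := fun t0 : ℝ => ((ph (t0 / T) : ℝ) : ℂ) * (((Real.log (t0 / (2 * Real.pi)) : ℝ) : ℂ) *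
    ∫ y in (-(Real.log T) ^ 2)..((Real.log T) ^ 2), kk (3 / 2) y * F (t0 + y)))
      (fun t0 ht0 => by
        rw [Set.uIoc_of_le hT2] at ht0
        have h2 := e1b_ell hT ht0.1.le ht0.2
        have h3 : ‖∫ y in (-(Real.log T) ^ 2)..((Real.log T) ^ 2), kk (3 / 2) y * F (t0 + y)‖ ≤ 60 * B := by
          refine e1b_inner (sq_nonneg _) hB fun y _ => (hF _).trans ?_
          exact le_mul_of_one_le_right hB (by linarith [abs_nonneg y])
        rw [norm_mul, norm_mul, Complex.norm_real, Complex.norm_real, Real.norm_eq_abs, Real.norm_eq_abs,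
          abs_of_nonneg (ph_nonneg _), abs_of_nonneg h2.1]
        have h4 := mul_le_mul h2.2.1 h3 (norm_nonneg _) hL
        have h5 := mul_le_mul (ph_le (t0 / T)) h4 (mul_nonneg h2.1 (norm_nonneg _)) zero_le_one
        rwa [one_mul] at h5)
  refine h1.trans (le_of_eq ?_)
  rw [show 2 * T - T = T by ring, abs_of_pos hTp]

private theorem e1b_Lexp (T x : ℝ) : e1b_La T (fun t => cexp (I * (x : ℂ) * (t : ℂ))) =
    (∫ y in (-(Real.log T) ^ 2)..((Real.log T) ^ 2), kk (3 / 2) y * cexp (I * (x : ℂ) * (y : ℂ))) * e1b_W T x := by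
  unfold e1b_La e1b_W
  rw [← intervalIntegral.integral_const_mul]
  refine intervalIntegral.integral_congr fun t0 _ => ?_
  have h : ∫ y in (-(Real.log T) ^ 2)..((Real.log T) ^ 2), kk (3 / 2) y * cexp (I * (x : ℂ) * ((t0 + y : ℝ) : ℂ)) =
      cexp (I * (x : ℂ) * (t0 : ℂ)) *
        ∫ y in (-(Real.log T) ^ 2)..((Real.log T) ^ 2), kk (3 / 2) y * cexp (I * (x : ℂ) * (y : ℂ)) := by
    rw [← intervalIntegral.integral_const_mul]
    refine intervalIntegral.integral_congr fun y _ => ?_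
    rw [Complex.ofReal_add, mul_add, Complex.exp_add]
    ring
  rw [h]
  ring

private theorem e1b_Vb : ∃ C : ℝ, 0 < C ∧ ∀ T : ℝ, 10 ≤ T → 1 ≤ Real.log T → ∀ x : ℝ,
    ‖e1b_La T (fun t => cexp (I * (x : ℂ) * (t : ℂ)))‖ ≤ C * T * Real.log T * (1 + T * |x|) ^ (-(8 : ℝ)) := by
  obtain ⟨C, hC, H⟩ := e1b_Wb
  refine ⟨60 * C, by positivity, fun T hT hL x => ?_⟩
  rw [e1b_Lexp, norm_mul]
  have h1 : ‖∫ y in (-(Real.log T) ^ 2)..((Real.log T) ^ 2), kk (3 / 2) y * cexp (I * (x : ℂ) * (y : ℂ))‖ ≤ 60 * 1 := by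
    refine e1b_inner (sq_nonneg _) zero_le_one fun y _ => ?_
    have h2 : ‖cexp (I * (x : ℂ) * (y : ℂ))‖ = 1 := by
      rw [show I * (x : ℂ) * (y : ℂ) = ((x * y : ℝ) : ℂ) * I by push_cast; ring, Complex.norm_exp_ofReal_mul_I]
    rw [h2]
    linarith [abs_nonneg y]
  have h3 := mul_le_mul h1 (H T hT hL x) (norm_nonneg _) (by norm_num)
  refine h3.trans (le_of_eq ?_)
  ring

private theorem e1b_V0 {T : ℝ} (hT : 10 ≤ T) (hL : 1 ≤ Real.log T) :
    ‖e1b_La T (fun t => cexp (I * ((0 : ℝ) : ℂ) * (t : ℂ))) - ((Real.sqrt Real.pi * T * P0 * Real.log T : ℝ) : ℂ)‖ ≤ 150 * T := by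
  have hTp : 0 < T := by linarith
  rw [e1b_Lexp]
  obtain ⟨K, hK⟩ : ∃ K : ℂ, K = ∫ y in (-(Real.log T) ^ 2)..((Real.log T) ^ 2), kk (3 / 2) y * cexp (I * ((0 : ℝ) : ℂ) * (y : ℂ)) :=
    ⟨_, rfl⟩
  have hK1 : ‖K‖ ≤ 60 * 1 := by
    rw [hK]
    refine e1b_inner (sq_nonneg _) zero_le_one fun y _ => ?_
    simp
  have hK2 : ‖K - ((Real.sqrt Real.pi : ℝ) : ℂ)‖ ≤ 30 * Real.exp (-((Real.log T) ^ 2) ^ 2 / 2) := by
    have h := e1b_tail (R := (Real.log T) ^ 2) (sq_nonneg _)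
    have e : K = ∫ y in (-(Real.log T) ^ 2)..((Real.log T) ^ 2), kk (3 / 2) y := by
      rw [hK]
      refine intervalIntegral.integral_congr fun y _ => ?_
      simp
    rw [← e] at h
    rwa [neg_div]
  rw [← hK]
  have e : K * e1b_W T 0 - ((Real.sqrt Real.pi * T * P0 * Real.log T : ℝ) : ℂ) =
      K * (e1b_W T 0 - ((T * P0 * Real.log T : ℝ) : ℂ)) +
      (K - ((Real.sqrt Real.pi : ℝ) : ℂ)) * ((T * P0 * Real.log T : ℝ) : ℂ) := by
    push_cast
    ring
  rw [e]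
  refine (norm_add_le _ _).trans ?_
  rw [norm_mul, norm_mul]
  have h1 := mul_le_mul hK1 (e1b_W0 hT) (norm_nonneg _) (by norm_num)
  have hP := p0_bd
  have h2 : ‖((T * P0 * Real.log T : ℝ) : ℂ)‖ ≤ T * Real.log T := by
    rw [Complex.norm_real, Real.norm_eq_abs, abs_of_nonneg (by
      have : 0 ≤ P0 := by linarith [hP.1]
      positivity)]
    have : T * P0 ≤ T := by nlinarith [hP.2]
    exact mul_le_mul_of_nonneg_right this (by linarith)
  have h3 : Real.exp (-((Real.log T) ^ 2) ^ 2 / 2) * Real.log T ≤ 1 := by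
    have h4 := Real.add_one_le_exp (((Real.log T) ^ 2) ^ 2 / 2)
    have h5 : Real.log T ≤ Real.exp (((Real.log T) ^ 2) ^ 2 / 2) := by
      nlinarith [sq_nonneg ((Real.log T) ^ 2 - 1), sq_nonneg (Real.log T - 1)]
    have h6 := mul_le_mul_of_nonneg_left h5 (Real.exp_pos (-((Real.log T) ^ 2) ^ 2 / 2)).le
    rw [← Real.exp_add] at h6
    have h7 : -((Real.log T) ^ 2) ^ 2 / 2 + ((Real.log T) ^ 2) ^ 2 / 2 = 0 := by ring
    rwa [h7, Real.exp_zero] at h6
  have h4 := mul_le_mul hK2 h2 (norm_nonneg _) (by positivity)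
  have h5 : 30 * Real.exp (-((Real.log T) ^ 2) ^ 2 / 2) * (T * Real.log T) ≤ 30 * T := by
    have := mul_le_mul_of_nonneg_left h3 (by positivity : 0 ≤ 30 * T)
    nlinarith
  linarith


/-! ### the Dirichlet series -/

private noncomputable def e1b_g (n : ℕ) : ℝ := Real.log n * (n : ℝ) ^ (-(2 : ℝ))

private theorem e1b_gn (n : ℕ) : 0 ≤ e1b_g n :=
  mul_nonneg (Real.log_natCast_nonneg n) (Real.rpow_nonneg (Nat.cast_nonneg n) _)

private theorem e1b_nrm (n : ℕ) (s : ℂ) (hs : s.re = 2) : ‖((Real.log n : ℝ) : ℂ) * (n : ℂ) ^ (-s)‖ = e1b_g n := by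
  rw [norm_mul, Complex.norm_real, Real.norm_eq_abs, abs_of_nonneg (Real.log_natCast_nonneg n)]
  unfold e1b_g
  rcases Nat.eq_zero_or_pos n with h | h
  · subst h
    simp
  · rw [Complex.norm_natCast_cpow_of_pos h, Complex.neg_re, hs]

private theorem e1b_gs : Summable e1b_g := by
  have h := (dls_log 2 (by norm_num)).summable.norm
  refine h.congr fun n => ?_
  exact e1b_nrm n 2 (by norm_num)

private theorem e1b_zb (s : ℂ) (hs : s.re = 2) : ‖deriv riemannZeta s‖ ≤ ∑' n, e1b_g n := by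
  have h := dls_log s (by rw [hs]; norm_num)
  have h1 : ‖-deriv riemannZeta s‖ ≤ ∑' n : ℕ, ‖((Real.log n : ℝ) : ℂ) * (n : ℂ) ^ (-s)‖ := by
    rw [← h.tsum_eq]
    exact norm_tsum_le_tsum_norm h.summable.norm
  rw [norm_neg] at h1
  refine h1.trans (le_of_eq ?_)
  exact tsum_congr fun n => e1b_nrm n s hs

private theorem e1b_tr : ∃ C : ℝ, 0 < C ∧ ∀ y : ℝ, 1 ≤ y → ∀ s : ℂ, s.re = 2 →
    ‖-deriv riemannZeta s - ∑ m ∈ Icc 1 ⌊y⌋₊, ((Real.log m : ℝ) : ℂ) * (m : ℂ) ^ (-s)‖ ≤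
      C * y⁻¹ * (1 + Real.log y) ^ 2 := by
  obtain ⟨C, hC, H⟩ := dls_tail
  refine ⟨C, hC, fun y hy s hs => ?_⟩
  have h1 := H 2 le_rfl y hy (fun n => ((Real.log n : ℝ) : ℂ)) (fun n => by
    rw [Complex.norm_real, Real.norm_eq_abs, abs_of_nonneg (Real.log_natCast_nonneg n)]
    nlinarith [Real.log_natCast_nonneg n]) s hs
  obtain ⟨hs1, h2⟩ := h1
  have h3 := dls_log s (by rw [hs]; norm_num)
  have e1 : -deriv riemannZeta s - ∑ m ∈ Icc 1 ⌊y⌋₊, ((Real.log m : ℝ) : ℂ) * (m : ℂ) ^ (-s) =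
      ∑' n : ℕ, (if y < n then ((Real.log n : ℝ) : ℂ) * (n : ℂ) ^ (-s) else 0) := by
    have h4 : HasSum (fun n : ℕ => if y < n then (0 : ℂ) else ((Real.log n : ℝ) : ℂ) * (n : ℂ) ^ (-s))
        (∑ m ∈ Icc 1 ⌊y⌋₊, (if y < (m : ℝ) then (0 : ℂ) else ((Real.log m : ℝ) : ℂ) * (m : ℂ) ^ (-s))) := by
      refine hasSum_sum_of_ne_finset_zero fun n hn => ?_
      rw [mem_Icc, not_and_or, not_le, not_le] at hn
      rcases hn with hn | hn
      · have h0 : n = 0 := by omega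
        subst h0
        simp
      · rw [if_pos (Nat.lt_of_floor_lt hn)]
    have h5 : ∑ m ∈ Icc 1 ⌊y⌋₊, (if y < (m : ℝ) then (0 : ℂ) else ((Real.log m : ℝ) : ℂ) * (m : ℂ) ^ (-s)) =
        ∑ m ∈ Icc 1 ⌊y⌋₊, ((Real.log m : ℝ) : ℂ) * (m : ℂ) ^ (-s) := by
      refine sum_congr rfl fun m hm => ?_
      have h6 : (m : ℝ) ≤ y := (Nat.le_floor_iff (by linarith)).1 (mem_Icc.1 hm).2
      rw [if_neg (not_lt.2 h6)]
    rw [h5] at h4
    have h6 := h3.sub h4
    have h7 : (fun n : ℕ => ((Real.log n : ℝ) : ℂ) * (n : ℂ) ^ (-s) -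
        (if y < n then (0 : ℂ) else ((Real.log n : ℝ) : ℂ) * (n : ℂ) ^ (-s))) =
        fun n : ℕ => (if y < n then ((Real.log n : ℝ) : ℂ) * (n : ℂ) ^ (-s) else 0) := by
      funext n
      by_cases hn : y < n
      · rw [if_pos hn, if_pos hn, sub_zero]
      · rw [if_neg hn, if_neg hn, sub_self]
    rw [h7] at h6
    exact h6.tsum_eq.symm
  rw [e1]
  refine h2.trans (le_of_eq ?_)
  rw [show (1 - 2 : ℝ) = -1 by norm_num, Real.rpow_neg_one]

private theorem e1b_term {m p : ℕ} (hm : 1 ≤ m) (hp : 1 ≤ p) (t : ℝ) :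
    ((Real.log m : ℝ) : ℂ) * (m : ℂ) ^ (-(pt (3 / 2) t)) * (((Real.log p : ℝ) : ℂ) * (p : ℂ) ^ (pt (3 / 2) t - 1)) =
      ((e1b_g m * (Real.log p * p) : ℝ) : ℂ) * cexp (I * ((Real.log p - Real.log m : ℝ) : ℂ) * (t : ℂ)) := by
  have hm0 : (m : ℂ) ≠ 0 := by exact_mod_cast (by omega : m ≠ 0)
  have hp0 : (p : ℂ) ≠ 0 := by exact_mod_cast (by omega : p ≠ 0)
  have hmr : (0 : ℝ) ≤ m := Nat.cast_nonneg m
  have e1 : (m : ℂ) ^ (-(pt (3 / 2) t)) = (((m : ℝ) ^ (-(2 : ℝ)) : ℝ) : ℂ) * cexp (-(I * ((Real.log m : ℝ) : ℂ) * (t : ℂ))) := by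
    rw [Complex.ofReal_cpow hmr, Complex.ofReal_natCast, Complex.cpow_def_of_ne_zero hm0, Complex.cpow_def_of_ne_zero hm0,
      ← Complex.exp_add, ← Complex.natCast_log]
    congr 1
    unfold pt
    push_cast
    ring
  have e2 : (p : ℂ) ^ (pt (3 / 2) t - 1) = (p : ℂ) * cexp (I * ((Real.log p : ℝ) : ℂ) * (t : ℂ)) := by
    have h1 : (p : ℂ) = cexp (((Real.log p : ℝ) : ℂ)) := by
      rw [Complex.natCast_log, Complex.exp_log hp0]
    have h2 : (p : ℂ) ^ (pt (3 / 2) t - 1) = cexp (((Real.log p : ℝ) : ℂ) * (pt (3 / 2) t - 1)) := by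
      rw [Complex.cpow_def_of_ne_zero hp0, Complex.natCast_log]
    rw [h2]
    nth_rw 1 [h1]
    rw [← Complex.exp_add]
    congr 1
    unfold pt
    push_cast
    ring
  rw [e1, e2]
  unfold e1b_g
  have e3 : cexp (I * ((Real.log p - Real.log m : ℝ) : ℂ) * (t : ℂ)) =
      cexp (-(I * ((Real.log m : ℝ) : ℂ) * (t : ℂ))) * cexp (I * ((Real.log p : ℝ) : ℂ) * (t : ℂ)) := by
    rw [← Complex.exp_add]
    congr 1
    push_cast
    ring
  rw [e3]
  push_cast
  ring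

/-! ### off the diagonal -/

private theorem e1b_gap {T : ℝ} (hT : 10 ≤ T) {m p : ℕ} (hm : 1 ≤ m) (hp : p ∈ PP T) (hne : m ≠ p) :
    1 / (5 * Real.sqrt T) ≤ |Real.log p - Real.log m| := by
  obtain ⟨h1, h2, h3⟩ := plo_mem T hT p hp
  have hs : 1 ≤ Real.sqrt T := by
    rw [Real.one_le_sqrt]
    linarith
  have hp0 : (0 : ℝ) < p := by linarith
  have hm0 : (0 : ℝ) < m := by exact_mod_cast hm
  rcases lt_or_gt_of_ne hne with h | h
  · have h4 : (m : ℝ) + 1 ≤ p := by exact_mod_cast h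
    have h5 := Real.one_sub_inv_le_log_of_pos (div_pos hp0 hm0)
    rw [Real.log_div hp0.ne' hm0.ne', inv_div] at h5
    refine le_trans ?_ (le_abs_self _)
    refine le_trans ?_ h5
    have h6 : 1 - (m : ℝ) / p = (p - m) / p := by field_simp
    rw [h6, div_le_div_iff₀ (by positivity) hp0]
    nlinarith
  · have h4 : (p : ℝ) + 1 ≤ m := by exact_mod_cast h
    have h5 := Real.one_sub_inv_le_log_of_pos (div_pos hm0 hp0)
    rw [Real.log_div hm0.ne' hp0.ne', inv_div] at h5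
    rw [abs_sub_comm]
    refine le_trans ?_ (le_abs_self _)
    refine le_trans ?_ h5
    have h6 : 1 - (p : ℝ) / m = (m - p) / m := by field_simp
    rw [h6, div_le_div_iff₀ (by positivity) hm0]
    nlinarith

private theorem e1b_off {T x : ℝ} (hT : 10 ≤ T) (hx : 1 / (5 * Real.sqrt T) ≤ |x|) :
    (1 + T * |x|) ^ (-(8 : ℝ)) ≤ 5 ^ 8 / T ^ 4 := by
  have hTp : 0 < T := by linarith
  have hs : 0 < Real.sqrt T := Real.sqrt_pos.2 hTp
  have hss : Real.sqrt T ^ 2 = T := Real.sq_sqrt hTp.le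
  have h1 : Real.sqrt T / 5 ≤ 1 + T * |x| := by
    have h2 := mul_le_mul_of_nonneg_left hx hTp.le
    have h3 : T * (1 / (5 * Real.sqrt T)) = Real.sqrt T / 5 := by
      nth_rw 1 [← hss]
      field_simp
    rw [h3] at h2
    linarith
  have h2 : (1 + T * |x|) ^ (-(8 : ℝ)) ≤ (Real.sqrt T / 5) ^ (-(8 : ℝ)) :=
    Real.rpow_le_rpow_of_nonpos (by positivity) h1 (by norm_num)
  refine h2.trans (le_of_eq ?_)
  have h3 : ((Real.sqrt T / 5) ^ (-(8 : ℝ))) = ((Real.sqrt T / 5) ^ 8)⁻¹ := by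
    rw [Real.rpow_neg (by positivity), ← Real.rpow_natCast]
    norm_num
  have h4 : Real.sqrt T ^ 8 = T ^ 4 := by
    rw [show (8 : ℕ) = 2 * 4 by norm_num, pow_mul, hss]
  rw [h3, div_pow, h4, inv_div]


/-! ### the functional at `ζ' Bp` -/

private noncomputable def e1b_D (T t : ℝ) : ℂ := deriv riemannZeta (pt (3 / 2) t) * Bp T (pt (3 / 2) t)

private theorem e1b_ptc : Continuous (pt (3 / 2)) := by
  unfold pt
  fun_prop

private theorem e1b_re (t : ℝ) : (pt (3 / 2) t).re = 2 := by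
  rw [pt_re]
  norm_num

private theorem e1b_ne (t : ℝ) : pt (3 / 2) t ≠ 1 := by
  intro h
  have := congrArg Complex.re h
  rw [e1b_re, Complex.one_re] at this
  norm_num at this

private theorem e1b_dzc : Continuous (fun t : ℝ => deriv riemannZeta (pt (3 / 2) t)) := by
  have ho : IsOpen ({1}ᶜ : Set ℂ) := isOpen_compl_singleton
  have h1 : DifferentiableOn ℂ riemannZeta ({1}ᶜ : Set ℂ) := fun z hz =>
    (differentiableAt_riemannZeta hz).differentiableWithinAt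
  rw [continuous_iff_continuousAt]
  intro t
  have h2 : ContinuousAt (deriv riemannZeta) (pt (3 / 2) t) :=
    ((h1.deriv ho).differentiableAt (ho.mem_nhds (e1b_ne t))).continuousAt
  exact ContinuousAt.comp (f := pt (3 / 2)) h2 e1b_ptc.continuousAt

private theorem e1b_bpc (T : ℝ) : Continuous (fun t : ℝ => Bp T (pt (3 / 2) t)) := by
  unfold Bp
  refine continuous_finset_sum _ fun p hp => ?_
  have hp0 : (p : ℂ) ≠ 0 := by
    have : p.Prime := (Finset.mem_filter.1 hp).2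
    exact_mod_cast this.ne_zero
  have h1 : Differentiable ℂ (fun s : ℂ => (p : ℂ) ^ (s - 1)) :=
    (differentiable_id.sub_const 1).const_cpow (Or.inl hp0)
  exact continuous_const.mul (h1.continuous.comp e1b_ptc)

private theorem e1b_Dc (T : ℝ) : Continuous (e1b_D T) := e1b_dzc.mul (e1b_bpc T)

private theorem e1b_bb : ∃ C : ℝ, 0 < C ∧ ∀ T : ℝ, 10 ≤ T → ∀ t : ℝ, ‖Bp T (pt (3 / 2) t)‖ ≤ C * T := by
  obtain ⟨C, hC, H⟩ := dls_bp
  refine ⟨C * 16, by positivity, fun T hT t => ?_⟩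
  have h := (H T hT (pt (3 / 2) t)).1 (by rw [e1b_re]; norm_num)
  rw [e1b_re] at h
  refine h.trans (le_of_eq ?_)
  have h1 : (4 : ℝ) ^ (2 : ℝ) = 16 := by
    rw [show (2 : ℝ) = ((2 : ℕ) : ℝ) by norm_num, Real.rpow_natCast]
    norm_num
  rw [h1, div_self (by norm_num : (2 : ℝ) ≠ 0), Real.rpow_one]

private theorem e1b_main : ∃ C T0 : ℝ, 0 < C ∧ 10 ≤ T0 ∧ ∀ T : ℝ, T0 ≤ T → 1 ≤ Real.log T →
    ‖e1b_La T (e1b_D T) + ((Real.sqrt Real.pi * T * P0 * Real.log T * ∑ p ∈ PP T, (Real.log p) ^ 2 / p : ℝ) : ℂ)‖ ≤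
      C * T * Real.log T := by
  obtain ⟨Ct, hCt, Ht⟩ := e1b_tr
  obtain ⟨Cb, hCb, Hb⟩ := e1b_bb
  obtain ⟨Cv, hCv, Hv⟩ := e1b_Vb
  obtain ⟨T1, hT1, HP⟩ := plo_pp
  obtain ⟨Z, hZ⟩ : ∃ Z : ℝ, Z = ∑' n, e1b_g n := ⟨_, rfl⟩
  have hZ0 : 0 ≤ Z := by
    rw [hZ]
    exact tsum_nonneg e1b_gn
  refine ⟨60 * (25 * Ct * Cb) + (Z * (Cv * 5 ^ 8) * 96 + 150 * 12), max 10 T1, by positivity, le_max_left _ _, ?_⟩
  intro T hT' hL
  have hT : 10 ≤ T := (le_max_left _ _).trans hT'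
  obtain ⟨hPl, hPu⟩ := HP T ((le_max_right _ _).trans hT')
  have hTp : 0 < T := by linarith
  have hLT : Real.log T ≤ T := (Real.log_le_sub_one_of_pos hTp).trans (by linarith)
  obtain ⟨L, hLd⟩ : ∃ L : ℝ, L = Real.log T := ⟨_, rfl⟩
  obtain ⟨M, hM⟩ : ∃ M : ℕ, M = ⌊T ^ 4⌋₊ := ⟨_, rfl⟩
  obtain ⟨c, hc⟩ : ∃ c : ℕ → ℕ → ℂ, c = fun (p m : ℕ) => ((e1b_g m * (Real.log p * p) : ℝ) : ℂ) := ⟨_, rfl⟩
  obtain ⟨E, hE⟩ : ∃ E : ℝ → ℝ → ℂ, E = fun (x t : ℝ) => cexp (I * (x : ℂ) * (t : ℂ)) := ⟨_, rfl⟩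
  obtain ⟨P, hP⟩ : ∃ P : ℝ → ℂ, P = fun t => ∑ p ∈ PP T, ∑ m ∈ Icc 1 M, c p m * E (Real.log p - Real.log m) t := ⟨_, rfl⟩
  have hEc : ∀ x, Continuous (E x) := fun x => by
    rw [hE]
    fun_prop
  have hPc : Continuous P := by
    rw [hP]
    exact continuous_finset_sum _ fun p _ => continuous_finset_sum _ fun m _ => continuous_const.mul (hEc _)
  -- the remainder
  obtain ⟨Rm, hRm⟩ : ∃ Rm : ℝ → ℂ, Rm = fun t => (-1) * e1b_D T t - P t := ⟨_, rfl⟩
  have hRc : Continuous Rm := by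
    rw [hRm]
    exact (continuous_const.mul (e1b_Dc T)).sub hPc
  have hRe : ∀ t, Rm t = (-deriv riemannZeta (pt (3 / 2) t) -
      ∑ m ∈ Icc 1 M, ((Real.log m : ℝ) : ℂ) * (m : ℂ) ^ (-(pt (3 / 2) t))) * Bp T (pt (3 / 2) t) := by
    intro t
    have h1 : P t = (∑ m ∈ Icc 1 M, ((Real.log m : ℝ) : ℂ) * (m : ℂ) ^ (-(pt (3 / 2) t))) * Bp T (pt (3 / 2) t) := by
      rw [hP]
      unfold Bp
      simp only
      rw [sum_mul_sum, sum_comm]
      refine sum_congr rfl fun m hm => sum_congr rfl fun p hp => ?_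
      have h2 := e1b_term (mem_Icc.1 hm).1 ((plo_mem T hT p hp).1.one_lt.le) t
      rw [hc, hE]
      exact h2.symm
    rw [hRm]
    simp only
    rw [h1]
    unfold e1b_D
    ring
  have hRb : ∀ t, ‖Rm t‖ ≤ 25 * Ct * Cb * (T ^ 4)⁻¹ * T ^ 2 * T := by
    intro t
    rw [hRe, norm_mul]
    have h1 := Ht (T ^ 4) (one_le_pow₀ (by linarith)) (pt (3 / 2) t) (e1b_re t)
    rw [← hM] at h1
    have h2 := Hb T hT t
    have h3 : Real.log (T ^ 4) = 4 * Real.log T := by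
      rw [Real.log_pow]
      norm_num
    have h4 : (1 + Real.log (T ^ 4)) ^ 2 ≤ 25 * T ^ 2 := by
      rw [h3]
      nlinarith
    have h5 : Ct * (T ^ 4)⁻¹ * (1 + Real.log (T ^ 4)) ^ 2 ≤ Ct * (T ^ 4)⁻¹ * (25 * T ^ 2) :=
      mul_le_mul_of_nonneg_left h4 (by positivity)
    have h6 := mul_le_mul (h1.trans h5) h2 (norm_nonneg _) (by positivity)
    refine h6.trans (le_of_eq ?_)
    ring
  have hLR : ‖e1b_La T Rm‖ ≤ 60 * (25 * Ct * Cb) * (T * Real.log T) := by
    have h1 := e1b_Lb hT (by linarith) (by positivity : 0 ≤ 25 * Ct * Cb * (T ^ 4)⁻¹ * T ^ 2 * T) hRb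
    refine h1.trans ?_
    have h2 : (T ^ 4)⁻¹ * T ^ 2 * T ≤ 1 := by
      have h3 : (T ^ 4)⁻¹ * T ^ 2 * T = T⁻¹ := by
        field_simp
      rw [h3]
      exact inv_le_one_of_one_le₀ (by linarith)
    have h4 : Real.log T * (60 * (25 * Ct * Cb * (T ^ 4)⁻¹ * T ^ 2 * T)) * T =
        (60 * (25 * Ct * Cb) * (T * Real.log T)) * ((T ^ 4)⁻¹ * T ^ 2 * T) := by ring
    rw [h4]
    exact mul_le_of_le_one_right (by positivity) h2
  -- linearity
  have hD1 : e1b_La T Rm = (-1) * e1b_La T (e1b_D T) - e1b_La T P := by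
    have h1 := e1b_Lsub hT (F := fun t => (-1) * e1b_D T t) (G := P) (continuous_const.mul (e1b_Dc T)) hPc
    rw [hRm, h1, e1b_Lmul]
  have hLP : e1b_La T P = ∑ p ∈ PP T, ∑ m ∈ Icc 1 M, c p m * e1b_La T (E (Real.log p - Real.log m)) := by
    rw [hP, e1b_Lsum hT (PP T) (fun p t => ∑ m ∈ Icc 1 M, c p m * E (Real.log p - Real.log m) t)
      (fun p _ => continuous_finset_sum _ fun m _ => continuous_const.mul (hEc _))]
    refine sum_congr rfl fun p _ => ?_
    rw [e1b_Lsum hT (Icc 1 M) (fun m t => c p m * E (Real.log p - Real.log m) t)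
      (fun m _ => continuous_const.mul (hEc _))]
    exact sum_congr rfl fun m _ => e1b_Lmul T _ _
  -- one prime
  have hone : ∀ p ∈ PP T, ‖(∑ m ∈ Icc 1 M, c p m * e1b_La T (E (Real.log p - Real.log m))) -
      (((Real.log p) ^ 2 / p : ℝ) : ℂ) * ((Real.sqrt Real.pi * T * P0 * Real.log T : ℝ) : ℂ)‖ ≤
      Z * (Real.log p * p) * (Cv * T * Real.log T * (5 ^ 8 / T ^ 4)) + (Real.log p) ^ 2 / p * (150 * T) := by
    intro p hp
    obtain ⟨hpp, hp1, hp2⟩ := plo_mem T hT p hp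
    have hp0 : (0 : ℝ) < p := by exact_mod_cast hpp.pos
    have hlp : 0 ≤ Real.log p := Real.log_natCast_nonneg p
    have hpM : p ∈ Icc 1 M := by
      rw [mem_Icc, hM]
      refine ⟨hpp.one_lt.le, Nat.le_floor ?_⟩
      have h1 : Real.sqrt T ≤ T := by
        rw [Real.sqrt_le_iff]
        exact ⟨hTp.le, by nlinarith⟩
      have h2 : 4 * T ≤ T ^ 2 := by nlinarith
      have h3 : T ^ 2 ≤ T ^ 4 := pow_le_pow_right₀ (by linarith) (by norm_num)
      linarith
    rw [← add_sum_erase _ _ hpM]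
    have e1 : c p p = (((Real.log p) ^ 2 / p : ℝ) : ℂ) := by
      rw [hc]
      simp only
      congr 1
      unfold e1b_g
      rw [Real.rpow_neg hp0.le, show (2 : ℝ) = ((2 : ℕ) : ℝ) by norm_num, Real.rpow_natCast]
      field_simp
    have e2 : (Real.log p - Real.log p : ℝ) = 0 := sub_self _
    rw [e1, e2]
    have h1 : ‖∑ m ∈ (Icc 1 M).erase p, c p m * e1b_La T (E (Real.log p - Real.log m))‖ ≤
        Z * (Real.log p * p) * (Cv * T * Real.log T * (5 ^ 8 / T ^ 4)) := by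
      have h2 : ∀ m ∈ (Icc 1 M).erase p, ‖c p m * e1b_La T (E (Real.log p - Real.log m))‖ ≤
          e1b_g m * ((Real.log p * p) * (Cv * T * Real.log T * (5 ^ 8 / T ^ 4))) := by
        intro m hm
        rw [mem_erase, mem_Icc] at hm
        obtain ⟨hmp, hm1, -⟩ := hm
        have h3 := Hv T hT hL (Real.log p - Real.log m)
        have h4 := e1b_off hT (e1b_gap hT hm1 hp hmp)
        have h5 : ‖e1b_La T (E (Real.log p - Real.log m))‖ ≤ Cv * T * Real.log T * (5 ^ 8 / T ^ 4) := by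
          rw [hE]
          exact h3.trans (mul_le_mul_of_nonneg_left h4 (by positivity))
        rw [norm_mul, hc]
        simp only
        rw [Complex.norm_real, Real.norm_eq_abs, abs_of_nonneg (mul_nonneg (e1b_gn m) (mul_nonneg hlp hp0.le))]
        have h6 := mul_le_mul_of_nonneg_left h5 (mul_nonneg (e1b_gn m) (mul_nonneg hlp hp0.le))
        refine h6.trans (le_of_eq ?_)
        ring
      refine (norm_sum_le_of_le _ h2).trans ?_
      rw [← sum_mul, mul_assoc Z]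
      refine mul_le_mul_of_nonneg_right ?_ (by positivity)
      rw [hZ]
      exact e1b_gs.sum_le_tsum _ fun m _ => e1b_gn m
    have h2 := e1b_V0 hT hL
    have h3 : ‖(((Real.log p) ^ 2 / p : ℝ) : ℂ) * e1b_La T (E 0) -
        (((Real.log p) ^ 2 / p : ℝ) : ℂ) * ((Real.sqrt Real.pi * T * P0 * Real.log T : ℝ) : ℂ)‖ ≤
        (Real.log p) ^ 2 / p * (150 * T) := by
      rw [← mul_sub, norm_mul, Complex.norm_real, Real.norm_eq_abs, abs_of_nonneg (by positivity)]
      refine mul_le_mul_of_nonneg_left ?_ (by positivity)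
      rw [hE]
      exact h2
    have e3 : (((Real.log p) ^ 2 / p : ℝ) : ℂ) * e1b_La T (E 0) +
        ∑ m ∈ (Icc 1 M).erase p, c p m * e1b_La T (E (Real.log p - Real.log m)) -
        (((Real.log p) ^ 2 / p : ℝ) : ℂ) * ((Real.sqrt Real.pi * T * P0 * Real.log T : ℝ) : ℂ) =
        ∑ m ∈ (Icc 1 M).erase p, c p m * e1b_La T (E (Real.log p - Real.log m)) +
        ((((Real.log p) ^ 2 / p : ℝ) : ℂ) * e1b_La T (E 0) -
        (((Real.log p) ^ 2 / p : ℝ) : ℂ) * ((Real.sqrt Real.pi * T * P0 * Real.log T : ℝ) : ℂ)) := by ring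
    rw [e3]
    exact (norm_add_le _ _).trans (add_le_add h1 h3)
  -- all primes
  have hall : ‖e1b_La T P - ((Real.sqrt Real.pi * T * P0 * Real.log T * ∑ p ∈ PP T, (Real.log p) ^ 2 / p : ℝ) : ℂ)‖ ≤
      (Z * (Cv * 5 ^ 8) * 96 + 150 * 12) * (T * Real.log T) := by
    have e1 : ((Real.sqrt Real.pi * T * P0 * Real.log T * ∑ p ∈ PP T, (Real.log p) ^ 2 / p : ℝ) : ℂ) =
        ∑ p ∈ PP T, (((Real.log p) ^ 2 / p : ℝ) : ℂ) * ((Real.sqrt Real.pi * T * P0 * Real.log T : ℝ) : ℂ) := by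
      rw [← sum_mul, ← Complex.ofReal_sum, ← Complex.ofReal_mul]
      congr 1
      ring
    rw [hLP, e1, ← sum_sub_distrib]
    refine (norm_sum_le_of_le _ hone).trans ?_
    rw [sum_add_distrib, ← sum_mul, ← sum_mul, ← mul_sum]
    have h1 : ∑ p ∈ PP T, Real.log p * p ≤ 96 * T := by
      have h2 : ∀ p ∈ PP T, Real.log p * p ≤ Real.log p / p * (16 * T) := by
        intro p hp
        obtain ⟨hpp, hp1, hp2⟩ := plo_mem T hT p hp
        have hp0 : (0 : ℝ) < p := by exact_mod_cast hpp.pos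
        have hlp : 0 ≤ Real.log p := Real.log_natCast_nonneg p
        have h3 : (p : ℝ) ^ 2 ≤ 16 * T := by
          have h4 := pow_le_pow_left₀ hp0.le hp2 2
          rw [mul_pow, Real.sq_sqrt hTp.le] at h4
          linarith
        have h5 : Real.log p * p = Real.log p / p * (p : ℝ) ^ 2 := by
          field_simp
        rw [h5]
        exact mul_le_mul_of_nonneg_left h3 (by positivity)
      refine (sum_le_sum h2).trans ?_
      rw [← sum_mul]
      have := mul_le_mul_of_nonneg_right hPu (by positivity : 0 ≤ 16 * T)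
      linarith
    have h2 : ∑ p ∈ PP T, (Real.log p) ^ 2 / p ≤ 12 * Real.log T := by
      have h3 : ∀ p ∈ PP T, (Real.log p) ^ 2 / p ≤ Real.log p / p * (2 * Real.log T) := by
        intro p hp
        obtain ⟨hpp, hp1, hp2⟩ := plo_mem T hT p hp
        have hp0 : (0 : ℝ) < p := by exact_mod_cast hpp.pos
        have hlp : 0 ≤ Real.log p := Real.log_natCast_nonneg p
        have h4 : Real.log p ≤ 2 * Real.log T := by
          have h5 : (p : ℝ) ≤ T ^ 2 := by
            have h6 : Real.sqrt T ≤ T := by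
              rw [Real.sqrt_le_iff]
              exact ⟨hTp.le, by nlinarith⟩
            nlinarith
          have h7 := Real.log_le_log hp0 h5
          rw [Real.log_pow] at h7
          exact_mod_cast h7
        have h5 : (Real.log p) ^ 2 / p = Real.log p / p * Real.log p := by ring
        rw [h5]
        exact mul_le_mul_of_nonneg_left h4 (by positivity)
      refine (sum_le_sum h3).trans ?_
      rw [← sum_mul]
      have := mul_le_mul_of_nonneg_right hPu (by positivity : 0 ≤ 2 * Real.log T)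
      linarith
    have h3 : Z * (∑ p ∈ PP T, Real.log p * p) * (Cv * T * Real.log T * (5 ^ 8 / T ^ 4)) ≤
        Z * (Cv * 5 ^ 8) * 96 * (T * Real.log T) := by
      have h4 := mul_le_mul_of_nonneg_right (mul_le_mul_of_nonneg_left h1 hZ0)
        (by positivity : 0 ≤ Cv * T * Real.log T * (5 ^ 8 / T ^ 4))
      refine h4.trans ?_
      have h5 : Z * (96 * T) * (Cv * T * Real.log T * (5 ^ 8 / T ^ 4)) =
          Z * (Cv * 5 ^ 8) * 96 * (T * Real.log T) * (1 / T ^ 3) := by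
        field_simp
      rw [h5]
      refine mul_le_of_le_one_right (by positivity) ?_
      rw [div_le_one (by positivity)]
      exact one_le_pow₀ (by linarith)
    have h4 := mul_le_mul_of_nonneg_right h2 (by positivity : 0 ≤ 150 * T)
    linarith
  have e4 : e1b_La T (e1b_D T) + ((Real.sqrt Real.pi * T * P0 * Real.log T * ∑ p ∈ PP T, (Real.log p) ^ 2 / p : ℝ) : ℂ) =
      -(e1b_La T Rm + (e1b_La T P -
        ((Real.sqrt Real.pi * T * P0 * Real.log T * ∑ p ∈ PP T, (Real.log p) ^ 2 / p : ℝ) : ℂ))) := by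
    rw [hD1]
    ring
  rw [e4, norm_neg]
  refine (norm_add_le _ _).trans ((add_le_add hLR hall).trans (le_of_eq ?_))
  ring


/-! ### the factor `lam` -/

private theorem e1b_log1 {a b m : ℝ} (hm : 0 < m) (ha : m ≤ a) (hb : m ≤ b) : Real.log a - Real.log b ≤ |a - b| / m := by
  have ha0 : 0 < a := by linarith
  have hb0 : 0 < b := by linarith
  rw [← Real.log_div ha0.ne' hb0.ne']
  have h1 := Real.log_le_sub_one_of_pos (div_pos ha0 hb0)
  have h2 : a / b - 1 = (a - b) / b := by field_simp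
  rw [h2] at h1
  refine h1.trans ?_
  have h3 : (a - b) / b ≤ |a - b| / b := div_le_div_of_nonneg_right (le_abs_self _) hb0.le
  exact h3.trans (div_le_div_of_nonneg_left (abs_nonneg _) hm hb)

private theorem e1b_log2 {a b m : ℝ} (hm : 0 < m) (ha : m ≤ a) (hb : m ≤ b) : |Real.log a - Real.log b| ≤ |a - b| / m := by
  rw [abs_le]
  have h1 := e1b_log1 hm ha hb
  have h2 := e1b_log1 hm hb ha
  rw [abs_sub_comm b a] at h2
  constructor
  · linarith
  · exact h1

theorem e1b : ∃ C T0 : ℝ, 0 < C ∧ 10 ≤ T0 ∧ ∀ T : ℝ, T0 ≤ T →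
    ‖(∫ t0 in T..(2 * T), ((ph (t0 / T) : ℝ) : ℂ) *
      ∫ y in (-(Real.log T) ^ 2)..((Real.log T) ^ 2), kk (3 / 2) y *
        (lam (pt (3 / 2) (t0 + y)) * deriv riemannZeta (pt (3 / 2) (t0 + y)) * Bp T (pt (3 / 2) (t0 + y)))) +
      ((Real.sqrt Real.pi * T * P0 * Real.log T * ∑ p ∈ PP T, (Real.log p) ^ 2 / p : ℝ) : ℂ)‖ ≤
      C * T * Real.log T := by
  obtain ⟨Cl, Tl, hCl, hTl, Hl⟩ := stl 2
  obtain ⟨Cm, Tm, hCm, hTm, Hm⟩ := e1b_main
  obtain ⟨Cb, hCb, Hb⟩ := e1b_bb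
  obtain ⟨Z, hZ⟩ : ∃ Z : ℝ, Z = ∑' n, e1b_g n := ⟨_, rfl⟩
  have hZ0 : 0 ≤ Z := by
    rw [hZ]
    exact tsum_nonneg e1b_gn
  have hlo := (Real.isLittleO_pow_log_id_atTop (n := 2)).bound (show (0 : ℝ) < 1 / 2 by norm_num)
  rw [Filter.eventually_atTop] at hlo
  obtain ⟨T1, hlo⟩ := hlo
  refine ⟨60 * ((2 * Cl + 2) * (Z * Cb)) + Cm, max (max 10 T1) (max (2 * Tl) Tm), by positivity,
    (le_max_left _ _).trans (le_max_left _ _), ?_⟩
  intro T hT'
  have hT : 10 ≤ T := ((le_max_left _ _).trans (le_max_left _ _)).trans hT'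
  have hT1 : T1 ≤ T := ((le_max_right _ _).trans (le_max_left _ _)).trans hT'
  have hTl2 : 2 * Tl ≤ T := ((le_max_left _ _).trans (le_max_right _ _)).trans hT'
  have hTm2 : Tm ≤ T := ((le_max_right _ _).trans (le_max_right _ _)).trans hT'
  have hTp : 0 < T := by linarith
  have hT2 : T ≤ 2 * T := by linarith
  have hL : 1 ≤ Real.log T := by
    rw [Real.le_log_iff_exp_le hTp]
    have := Real.exp_one_lt_d9
    linarith
  have hL2 : (Real.log T) ^ 2 ≤ T / 2 := by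
    have h1 := hlo T hT1
    rw [Real.norm_of_nonneg (sq_nonneg _), id, Real.norm_of_nonneg hTp.le] at h1
    linarith
  obtain ⟨W, hW⟩ : ∃ W : ℝ → ℂ, W = fun t => lam (pt (3 / 2) (max t (T / 2))) * e1b_D T t := ⟨_, rfl⟩
  have hWc : Continuous W := by
    rw [hW]
    refine Continuous.mul ?_ (e1b_Dc T)
    rw [continuous_iff_continuousAt]
    intro t
    have h1 : Tl ≤ (pt (3 / 2) (max t (T / 2))).im := by
      rw [pt_im]
      exact le_max_of_le_right (by linarith)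
    have h2 := (Hl (pt (3 / 2) (max t (T / 2))) (by rw [e1b_re, abs_two]) h1).2.2.2.1.continuousAt
    exact ContinuousAt.comp (f := fun t : ℝ => pt (3 / 2) (max t (T / 2))) h2
      (e1b_ptc.comp (continuous_id.max continuous_const)).continuousAt
  have e1 : (∫ t0 in T..(2 * T), ((ph (t0 / T) : ℝ) : ℂ) *
      ∫ y in (-(Real.log T) ^ 2)..((Real.log T) ^ 2), kk (3 / 2) y *
        (lam (pt (3 / 2) (t0 + y)) * deriv riemannZeta (pt (3 / 2) (t0 + y)) * Bp T (pt (3 / 2) (t0 + y)))) =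
      ∫ t0 in T..(2 * T), ((ph (t0 / T) : ℝ) : ℂ) *
        ∫ y in (-(Real.log T) ^ 2)..((Real.log T) ^ 2), kk (3 / 2) y * W (t0 + y) := by
    refine intervalIntegral.integral_congr fun t0 ht0 => ?_
    rw [Set.uIcc_of_le hT2] at ht0
    refine congrArg (fun z : ℂ => ((ph (t0 / T) : ℝ) : ℂ) * z) ?_
    refine intervalIntegral.integral_congr fun y hy => ?_
    rw [Set.uIcc_of_le (by nlinarith [sq_nonneg (Real.log T)])] at hy
    show kk (3 / 2) y * (lam (pt (3 / 2) (t0 + y)) * deriv riemannZeta (pt (3 / 2) (t0 + y)) * Bp T (pt (3 / 2) (t0 + y))) =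
      kk (3 / 2) y * W (t0 + y)
    have h1 : max (t0 + y) (T / 2) = t0 + y := max_eq_left (by linarith [ht0.1, hy.1])
    rw [hW]
    simp only
    rw [h1]
    unfold e1b_D
    ring
  have hdiff : ‖(∫ t0 in T..(2 * T), ((ph (t0 / T) : ℝ) : ℂ) *
        ∫ y in (-(Real.log T) ^ 2)..((Real.log T) ^ 2), kk (3 / 2) y * W (t0 + y)) - e1b_La T (e1b_D T)‖ ≤
      60 * ((2 * Cl + 2) * (Z * Cb)) * T := by
    have hI : IntervalIntegrable (fun t0 : ℝ => ((ph (t0 / T) : ℝ) : ℂ) *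
        ∫ y in (-(Real.log T) ^ 2)..((Real.log T) ^ 2), kk (3 / 2) y * W (t0 + y)) volume T (2 * T) :=
      ((e1b_phc T).mul (e1b_par _ hWc)).intervalIntegrable _ _
    unfold e1b_La
    rw [← intervalIntegral.integral_sub hI (e1b_Li hT (e1b_Dc T))]
    refine (intervalIntegral.norm_integral_le_of_norm_le_const (C := 60 * ((2 * Cl + 2) * (Z * Cb)))
      fun t0 ht0 => ?_).trans (le_of_eq ?_)
    · rw [Set.uIoc_of_le hT2] at ht0
      have h1 : ∀ y : ℝ, |y| ≤ (Real.log T) ^ 2 →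
          ‖W (t0 + y) - ((Real.log (t0 / (2 * Real.pi)) : ℝ) : ℂ) * e1b_D T (t0 + y)‖ ≤
            (2 * Cl + 2) * (Z * Cb) * (1 + |y|) := by
        intro y hy
        have hy' := abs_le.1 hy
        have ht : T / 2 ≤ t0 + y := by linarith [ht0.1, hy'.1]
        have h2 : max (t0 + y) (T / 2) = t0 + y := max_eq_left ht
        rw [hW]
        simp only
        rw [h2, ← sub_mul, norm_mul]
        have h3 := (Hl (pt (3 / 2) (t0 + y)) (by rw [e1b_re, abs_two]) (by rw [pt_im]; linarith)).2.2.2.2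
        rw [pt_im] at h3
        have h4 : Cl / (t0 + y) ≤ 2 * Cl / T := by
          rw [div_le_div_iff₀ (by linarith) hTp]
          nlinarith
        have hpi := Real.pi_pos
        have h5 : |Real.log ((t0 + y) / (2 * Real.pi)) - Real.log (t0 / (2 * Real.pi))| ≤ 2 * |y| / T := by
          have e2 : Real.log ((t0 + y) / (2 * Real.pi)) - Real.log (t0 / (2 * Real.pi)) =
              Real.log (t0 + y) - Real.log t0 := by
            rw [Real.log_div (by linarith) (by positivity), Real.log_div (by linarith [ht0.1]) (by positivity)]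
            ring
          rw [e2]
          have h6 := e1b_log2 (a := t0 + y) (b := t0) (m := T / 2) (by linarith) ht (by linarith [ht0.1])
          refine h6.trans (le_of_eq ?_)
          rw [add_sub_cancel_left]
          field_simp
        have h6 : ‖lam (pt (3 / 2) (t0 + y)) - ((Real.log (t0 / (2 * Real.pi)) : ℝ) : ℂ)‖ ≤
            (2 * Cl + 2) * (1 + |y|) / T := by
          have e3 : lam (pt (3 / 2) (t0 + y)) - ((Real.log (t0 / (2 * Real.pi)) : ℝ) : ℂ) =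
              (lam (pt (3 / 2) (t0 + y)) - ((Real.log ((t0 + y) / (2 * Real.pi)) : ℝ) : ℂ)) +
              ((Real.log ((t0 + y) / (2 * Real.pi)) - Real.log (t0 / (2 * Real.pi)) : ℝ) : ℂ) := by
            push_cast
            ring
          rw [e3]
          refine (norm_add_le _ _).trans ?_
          rw [Complex.norm_real, Real.norm_eq_abs]
          refine (add_le_add (h3.trans h4) h5).trans ?_
          rw [← add_div]
          refine div_le_div_of_nonneg_right ?_ hTp.le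
          nlinarith [abs_nonneg y]
        have h7 : ‖e1b_D T (t0 + y)‖ ≤ Z * (Cb * T) := by
          unfold e1b_D
          rw [norm_mul]
          refine mul_le_mul ?_ (Hb T hT _) (norm_nonneg _) hZ0
          rw [hZ]
          exact e1b_zb _ (e1b_re _)
        have h8 := mul_le_mul h6 h7 (norm_nonneg _) (by positivity)
        refine h8.trans (le_of_eq ?_)
        field_simp
      have h2 := e1b_inner (R := (Real.log T) ^ 2) (sq_nonneg _) (by positivity : 0 ≤ (2 * Cl + 2) * (Z * Cb)) h1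
      have e4 : ((ph (t0 / T) : ℝ) : ℂ) * (∫ y in (-(Real.log T) ^ 2)..((Real.log T) ^ 2), kk (3 / 2) y * W (t0 + y)) -
          ((ph (t0 / T) : ℝ) : ℂ) * (((Real.log (t0 / (2 * Real.pi)) : ℝ) : ℂ) *
            ∫ y in (-(Real.log T) ^ 2)..((Real.log T) ^ 2), kk (3 / 2) y * e1b_D T (t0 + y)) =
          ((ph (t0 / T) : ℝ) : ℂ) * ∫ y in (-(Real.log T) ^ 2)..((Real.log T) ^ 2), kk (3 / 2) y *
            (W (t0 + y) - ((Real.log (t0 / (2 * Real.pi)) : ℝ) : ℂ) * e1b_D T (t0 + y)) := by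
        rw [← mul_sub, ← intervalIntegral.integral_const_mul, ← intervalIntegral.integral_sub]
        · congr 1
          refine intervalIntegral.integral_congr fun y _ => ?_
          ring
        · apply Continuous.intervalIntegrable
          exact e1b_kc.mul (hWc.comp (continuous_const.add continuous_id))
        · apply Continuous.intervalIntegrable
          exact continuous_const.mul (e1b_kc.mul ((e1b_Dc T).comp (continuous_const.add continuous_id)))
      rw [e4, norm_mul, Complex.norm_real, Real.norm_eq_abs, abs_of_nonneg (ph_nonneg _)]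
      have h3 := mul_le_mul (ph_le (t0 / T)) h2 (norm_nonneg _) zero_le_one
      rwa [one_mul] at h3
    · rw [show 2 * T - T = T by ring, abs_of_pos hTp]
  rw [e1]
  obtain ⟨X, hX⟩ : ∃ X : ℂ, X = ∫ t0 in T..(2 * T), ((ph (t0 / T) : ℝ) : ℂ) *
        ∫ y in (-(Real.log T) ^ 2)..((Real.log T) ^ 2), kk (3 / 2) y * W (t0 + y) := ⟨_, rfl⟩
  obtain ⟨Y, hY⟩ : ∃ Y : ℂ, Y = ((Real.sqrt Real.pi * T * P0 * Real.log T * ∑ p ∈ PP T, (Real.log p) ^ 2 / p : ℝ) : ℂ) :=
    ⟨_, rfl⟩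
  have hm := Hm T hTm2 hL
  rw [← hX] at hdiff ⊢
  rw [← hY] at hm ⊢
  have e5 : X + Y = (X - e1b_La T (e1b_D T)) + (e1b_La T (e1b_D T) + Y) := by ring
  rw [e5]
  refine (norm_add_le _ _).trans ((add_le_add hdiff hm).trans ?_)
  have h9 : 60 * ((2 * Cl + 2) * (Z * Cb)) * T ≤ 60 * ((2 * Cl + 2) * (Z * Cb)) * T * Real.log T :=
    le_mul_of_one_le_right (by positivity) hL
  have e6 : (60 * ((2 * Cl + 2) * (Z * Cb)) + Cm) * T * Real.log T =
      60 * ((2 * Cl + 2) * (Z * Cb)) * T * Real.log T + Cm * T * Real.log T := by ring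
  rw [e6]
  linarith

end Pool.Agent.H24.WH
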