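import Pool.Agent.H24.WH.Grw
import Pool.Agent.H24.WH.Dls

/-!
# [H24 WH JCO] continuity in `t0`

PROOF. `HR T` is continuous at all points with `Re = 2` (`ζ ≠ 0`), `HL T` at the points with `Re = 2`, `Im ≥ T1` (`stl`: `GG`, `lam` differentiable). Parametric interval integrals with
a continuous integrand (`intervalIntegral.continuous_parametric_intervalIntegral_of_continuous'` after replacing the height `t` by `max t (T/2)`, or
`continuousOn` version); `t0 + y ≥ T - L^2 ≥ T/2`.
-/

set_option autoImplicit false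

namespace Pool.Agent.H24.WH

open Complex MeasureTheory Finset Pool.Agent.H48.WN

private theorem jco_log {T : ℝ} (hT : 1000 ≤ T) : (Real.log T) ^ 2 < T := by
  have hT0 : 0 < T := by linarith
  have h1 : Real.log T ≤ T ^ (1 / 4 : ℝ) / (1 / 4 : ℝ) := Real.log_le_rpow_div hT0.le (by norm_num)
  have h2 : 0 ≤ Real.log T := Real.log_nonneg (by linarith)
  have h3 : Real.log T ≤ 4 * T ^ (1 / 4 : ℝ) := by
    have e : T ^ (1 / 4 : ℝ) / (1 / 4 : ℝ) = 4 * T ^ (1 / 4 : ℝ) := by ring
    linarith
  have h4 : (Real.log T) ^ 2 ≤ (4 * T ^ (1 / 4 : ℝ)) ^ 2 := pow_le_pow_left₀ h2 h3 2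
  have h5 : (4 * T ^ (1 / 4 : ℝ)) ^ 2 = 16 * Real.sqrt T := by
    rw [mul_pow, ← Real.rpow_natCast (T ^ (1 / 4 : ℝ)) 2, ← Real.rpow_mul hT0.le, Real.sqrt_eq_rpow]
    norm_num
  have h6 : 31 ≤ Real.sqrt T := Real.le_sqrt_of_sq_le (by linarith)
  have h7 : Real.sqrt T * Real.sqrt T = T := Real.mul_self_sqrt hT0.le
  nlinarith [h4, h5, h6, h7]

private theorem jco_deriv {s : ℂ} (hs : s ≠ 1) : ContinuousAt (deriv riemannZeta) s := by
  have ho : IsOpen {z : ℂ | z ≠ 1} := isOpen_ne
  have hd : DifferentiableOn ℂ riemannZeta {z : ℂ | z ≠ 1} := fun z hz =>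
    (differentiableAt_riemannZeta hz).differentiableWithinAt
  exact ((hd.deriv ho).differentiableAt (ho.mem_nhds hs)).continuousAt

private theorem jco_bp (T : ℝ) : Continuous (Bp T) := by
  unfold Bp
  refine continuous_finsetSum _ fun p hp => ?_
  have hp0 : p ≠ 0 := by
    have h := (Finset.mem_filter.1 hp).2
    exact h.ne_zero
  have hpc : (p : ℂ) ≠ 0 := by exact_mod_cast hp0
  refine continuous_const.mul (Continuous.const_cpow (by fun_prop) (Or.inl hpc))

private theorem jco_two {s : ℂ} (hs : s.re = 2) : s ≠ 1 ∧ riemannZeta s ≠ 0 := by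
  refine ⟨fun h => ?_, riemannZeta_ne_zero_of_one_le_re (by rw [hs]; norm_num)⟩
  rw [h, Complex.one_re] at hs
  norm_num at hs

private theorem jco_hr (T : ℝ) {s : ℂ} (hs : s.re = 2) : ContinuousAt (HR T) s := by
  obtain ⟨h1, h2⟩ := jco_two hs
  unfold HR
  exact (((jco_deriv h1).pow 2).div (differentiableAt_riemannZeta h1).continuousAt h2).mul
    (jco_bp T).continuousAt

private theorem jco_hl (T : ℝ) {s : ℂ} (hs : s.re = 2) (hi : 0 < s.im) : ContinuousAt (HL T) s := by
  obtain ⟨h1, h2⟩ := jco_two hs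
  have hz := (differentiableAt_riemannZeta h1).continuousAt
  have hG := (Pool.Agent.H73.WH.gg_diff hi.ne').continuousAt
  have hl := (Pool.Agent.H73.WH.lam_diff hi.ne').continuousAt
  have hb : ContinuousAt (fun z : ℂ => Bp T (1 - z)) s :=
    ((jco_bp T).comp (continuous_const.sub continuous_id)).continuousAt
  unfold HL
  exact ((hG.mul (((hl.mul hz).add (jco_deriv h1)).pow 2)).div hz h2).mul hb

private theorem jco_gen {H : ℂ → ℂ} (hH : ∀ s : ℂ, s.re = 2 → 0 < s.im → ContinuousAt H s)
    {T M : ℝ} (hM : 0 ≤ M) (hMT : M < T) :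
    ContinuousOn (fun t0 : ℝ => ∫ y in (-M)..M, kk (3 / 2) y * H (pt (3 / 2) (t0 + y)))
      (Set.Icc T (2 * T)) := by
  have hpt : Continuous (pt (3 / 2)) := by
    unfold pt
    fun_prop
  have hkk : Continuous (kk (3 / 2)) := by
    unfold kk
    fun_prop
  have hh : Continuous (fun t : ℝ => H (pt (3 / 2) (max t (T - M)))) := by
    rw [continuous_iff_continuousAt]
    intro t
    have h1 : ContinuousAt H (pt (3 / 2) (max t (T - M))) := by
      refine hH _ ?_ ?_
      · rw [pt_re]
        norm_num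
      · rw [pt_im]
        exact lt_max_of_lt_right (by linarith)
    have h2 : ContinuousAt (fun t : ℝ => pt (3 / 2) (max t (T - M))) t :=
      (hpt.comp (continuous_id.max continuous_const)).continuousAt
    exact ContinuousAt.comp (g := H) h1 h2
  have hc : Continuous (fun t0 : ℝ => ∫ y in (-M)..M,
      kk (3 / 2) y * H (pt (3 / 2) (max (t0 + y) (T - M)))) := by
    refine intervalIntegral.continuous_parametric_intervalIntegral_of_continuous'
      (f := fun t0 y : ℝ => kk (3 / 2) y * H (pt (3 / 2) (max (t0 + y) (T - M)))) ?_ (-M) M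
    exact (hkk.comp continuous_snd).mul (hh.comp (continuous_fst.add continuous_snd))
  refine hc.continuousOn.congr fun t0 ht0 => ?_
  refine intervalIntegral.integral_congr fun y hy => ?_
  rw [Set.uIcc_of_le (by linarith), Set.mem_Icc] at hy
  have e : max (t0 + y) (T - M) = t0 + y := max_eq_left (by linarith [ht0.1, hy.1])
  simp only [e]

theorem jco : ∃ T0 : ℝ, 10 ≤ T0 ∧ ∀ T : ℝ, T0 ≤ T →
    ContinuousOn (fun t0 => JR T (3 / 2) t0) (Set.Icc T (2 * T)) ∧
    ContinuousOn (fun t0 => JL T (3 / 2) t0) (Set.Icc T (2 * T)) := by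
  refine ⟨1000, by norm_num, fun T hT => ⟨?_, ?_⟩⟩
  · have h := jco_gen (H := HR T) (fun s hs _ => jco_hr T hs) (T := T) (M := (Real.log T) ^ 2)
      (sq_nonneg _) (jco_log hT)
    exact h
  · have h := jco_gen (H := HL T) (fun s hs hi => jco_hl T hs hi) (T := T) (M := (Real.log T) ^ 2)
      (sq_nonneg _) (jco_log hT)
    exact h

end Pool.Agent.H24.WH
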