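import Pool.Agent.H24.WH.Plo

/-!
# [H24 WH MSU] the main term is positive; the error sums

PROOF. `p = e^(L/2 + O(1))`, `y = T/p = e^(L/2 + O(1))`, `M(x) = sum_{k ≤ x} Lam(k)/k = log x + O(1)` (`plo_mertens`).
`sum_{k ≤ y} (Lam k/k) log k ≤ (1/2) log y M(√y) + log y (M(y) - M(√y)) = log y M(y) - (1/2) log y M(√y) ≤ L^2/4 - L^2/16 + C L = (3/16) L^2 + CL`,
`log p M(y) ≤ L^2/4 + CL`, `L log p ≥ L^2/2 - CL`: the bracket `L log p - sum_{k≤y} (Lam k/k) log(kp)` is `≥ L^2/16 - CL ≥ L^2/32`, times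
`sum_p log p/p ≥ 1/4`. (msu2): for each `p` the inner sum is `≤ M(T/p) - M(T^(1-η)/p) ≤ η L + 2C` (`T^(1-η)/p ≥ 1`), times `6`.
(msu3): `sum_p log p/p^2 sum_{k > T/p} Lam(k)/k^2 ≤ sum_p (log p/p^2) C p/T ≤ 6C/T`.
-/

set_option autoImplicit false

namespace Pool.Agent.H24.WH

open Complex MeasureTheory Finset Pool.Agent.H48.WN

/-- `sum_{k ≤ y} (Lam k/k) log k ≤ (3/4) log^2 y + (3/2) C log y` -/
private theorem msu_logk (C : ℝ)
    (hC : ∀ x : ℝ, 1 ≤ x →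
      |∑ k ∈ Icc 1 ⌊x⌋₊, ArithmeticFunction.vonMangoldt k / (k : ℝ) - Real.log x| ≤ C)
    (y : ℝ) (hy : 1 ≤ y) :
    ∑ k ∈ Icc 1 ⌊y⌋₊, (ArithmeticFunction.vonMangoldt k / (k : ℝ)) * Real.log k ≤
      3 / 4 * (Real.log y) ^ 2 + 3 / 2 * C * Real.log y := by
  have hy0 : (0 : ℝ) < y := by linarith
  set z : ℝ := Real.sqrt y with hz
  have hz1 : 1 ≤ z := by
    rw [hz]; exact Real.one_le_sqrt.mpr hy
  have hz0 : 0 < z := by linarith
  have hzz : z * z = y := by rw [hz]; exact Real.mul_self_sqrt hy0.le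
  have hzy : z ≤ y := by nlinarith
  have hlz : Real.log z = Real.log y / 2 := by
    rw [hz]; exact Real.log_sqrt hy0.le
  have hly : 0 ≤ Real.log y := Real.log_nonneg hy
  set f : ℕ → ℝ := fun k => ArithmeticFunction.vonMangoldt k / (k : ℝ) with hf
  have hf0 : ∀ k, 0 ≤ f k := fun k => div_nonneg ArithmeticFunction.vonMangoldt_nonneg (Nat.cast_nonneg k)
  have hsub : Icc 1 ⌊z⌋₊ ⊆ Icc 1 ⌊y⌋₊ :=
    Finset.Icc_subset_Icc le_rfl (Nat.floor_le_floor hzy)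
  have h1 := (abs_le.mp (hC y hy)).2
  have h2 := (abs_le.mp (hC z hz1)).1
  rw [hlz] at h2
  have hsplit := Finset.sum_sdiff (f := f) hsub
  have hsplit2 := Finset.sum_sdiff (f := fun k => f k * Real.log k) hsub
  have hA : ∑ k ∈ Icc 1 ⌊z⌋₊, f k * Real.log k ≤ (Real.log y / 2) * ∑ k ∈ Icc 1 ⌊z⌋₊, f k := by
    rw [Finset.mul_sum]
    refine Finset.sum_le_sum fun k hk => ?_
    rw [Finset.mem_Icc] at hk
    have hk0 : (0 : ℝ) < k := by exact_mod_cast hk.1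
    have hkz : (k : ℝ) ≤ z := (Nat.le_floor_iff hz0.le).mp hk.2
    have : Real.log k ≤ Real.log y / 2 := by
      rw [← hlz]; exact Real.log_le_log hk0 hkz
    nlinarith [hf0 k]
  have hB : ∑ k ∈ Icc 1 ⌊y⌋₊ \ Icc 1 ⌊z⌋₊, f k * Real.log k ≤
      Real.log y * ∑ k ∈ Icc 1 ⌊y⌋₊ \ Icc 1 ⌊z⌋₊, f k := by
    rw [Finset.mul_sum]
    refine Finset.sum_le_sum fun k hk => ?_
    rw [Finset.mem_sdiff, Finset.mem_Icc] at hk
    have hk0 : (0 : ℝ) < k := by exact_mod_cast hk.1.1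
    have hky : (k : ℝ) ≤ y := (Nat.le_floor_iff hy0.le).mp hk.1.2
    have : Real.log k ≤ Real.log y := Real.log_le_log hk0 hky
    nlinarith [hf0 k]
  have hgoal : ∑ k ∈ Icc 1 ⌊y⌋₊, (ArithmeticFunction.vonMangoldt k / (k : ℝ)) * Real.log k =
      ∑ k ∈ Icc 1 ⌊y⌋₊, f k * Real.log k := rfl
  have h1' : ∑ k ∈ Icc 1 ⌊y⌋₊, f k - Real.log y ≤ C := h1
  have h2' : -C ≤ ∑ k ∈ Icc 1 ⌊z⌋₊, f k - Real.log y / 2 := h2
  rw [hgoal, ← hsplit2]
  have hD : ∑ k ∈ Icc 1 ⌊y⌋₊ \ Icc 1 ⌊z⌋₊, f k =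
      ∑ k ∈ Icc 1 ⌊y⌋₊, f k - ∑ k ∈ Icc 1 ⌊z⌋₊, f k := by linarith
  rw [hD] at hB
  nlinarith [mul_le_mul_of_nonneg_left h1' hly, mul_le_mul_of_nonneg_left h2' hly]

/-- basic facts about the primes of `PP T` -/
private theorem msu_p (T : ℝ) (hT : 16 ≤ T) (p : ℕ) (hp : p ∈ PP T) :
    (0 : ℝ) < p ∧ 0 ≤ Real.log p ∧ 1 ≤ T / p ∧ Real.log T / 2 ≤ Real.log p ∧
      Real.log p ≤ Real.log T / 2 + Real.log 4 ∧ Real.log (T / p) ≤ Real.log T / 2 ∧ 0 < T := by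
  obtain ⟨hpp, h1, h2⟩ := plo_mem T (by linarith) p hp
  have hT0 : 0 < T := by linarith
  have hs4 : 4 ≤ Real.sqrt T := by
    rw [show (4 : ℝ) = Real.sqrt 16 by
      rw [show (16 : ℝ) = 4 ^ 2 by norm_num]; exact (Real.sqrt_sq (by norm_num)).symm]
    exact Real.sqrt_le_sqrt hT
  have hss : Real.sqrt T * Real.sqrt T = T := Real.mul_self_sqrt hT0.le
  have hp0 : (0 : ℝ) < p := by linarith
  have hls : Real.log (Real.sqrt T) = Real.log T / 2 := Real.log_sqrt hT0.le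
  have hlp1 : Real.log T / 2 ≤ Real.log p := by
    rw [← hls]; exact Real.log_le_log (by linarith) h1
  have hlp2 : Real.log p ≤ Real.log T / 2 + Real.log 4 := by
    rw [← hls, add_comm, ← Real.log_mul (by norm_num) (by linarith)]
    exact Real.log_le_log hp0 h2
  refine ⟨hp0, Real.log_nonneg (by linarith), ?_, hlp1, hlp2, ?_, hT0⟩
  · rw [le_div_iff₀ hp0]; nlinarith
  · rw [Real.log_div hT0.ne' hp0.ne']; linarith

theorem msu1 : ∃ c T0 : ℝ, 0 < c ∧ 10 ≤ T0 ∧ ∀ T : ℝ, T0 ≤ T → c * (Real.log T) ^ 2 ≤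
    Real.log T * (∑ p ∈ PP T, (Real.log p) ^ 2 / p) -
      ∑ p ∈ PP T, ∑ k ∈ Icc 1 ⌊T / p⌋₊, (Real.log p / p) * (ArithmeticFunction.vonMangoldt k / k) *
        Real.log ((k * p : ℕ) : ℝ) := by
  obtain ⟨T1, hT1, hPP⟩ := plo_pp
  obtain ⟨C, hC0, hC⟩ := plo_mertens
  -- constants
  set K : ℝ := 32 * (2 * C + 2 + 2 * Real.log 4 * (C + 1)) with hK
  refine ⟨1 / 128, max T1 (max 16 (Real.exp (K + 1))), by norm_num, le_trans hT1 (le_max_left _ _), ?_⟩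
  intro T hT
  have hTT1 : T1 ≤ T := le_trans (le_max_left _ _) hT
  have hT16 : 16 ≤ T := le_trans (le_trans (le_max_left _ _) (le_max_right _ _)) hT
  have hTe : Real.exp (K + 1) ≤ T := le_trans (le_trans (le_max_right _ _) (le_max_right _ _)) hT
  have hT0 : 0 < T := by linarith
  have hLK : K + 1 ≤ Real.log T := by
    rw [← Real.log_exp (K + 1)]; exact Real.log_le_log (Real.exp_pos _) hTe
  set L : ℝ := Real.log T with hL
  have hl4 : 0 ≤ Real.log 4 := Real.log_nonneg (by norm_num)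
  have hK0 : 0 ≤ K := by rw [hK]; nlinarith [mul_nonneg hl4 hC0.le]
  have hL1 : 1 ≤ L := by linarith
  have hkey : ∀ p ∈ PP T, Real.log p / p * (L ^ 2 / 32) ≤ L * ((Real.log p) ^ 2 / p) -
      ∑ k ∈ Icc 1 ⌊T / p⌋₊, (Real.log p / p) * (ArithmeticFunction.vonMangoldt k / k) *
        Real.log ((k * p : ℕ) : ℝ) := by
    intro p hp
    obtain ⟨hp0, hlp0, hy1, hlp1, hlp2, hly, -⟩ := msu_p T hT16 p hp
    set y : ℝ := T / p with hy
    have hly0 : 0 ≤ Real.log y := Real.log_nonneg hy1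
    have hlogk := msu_logk C hC y hy1
    have hM := (abs_le.mp (hC y hy1)).2
    have hsum : ∑ k ∈ Icc 1 ⌊y⌋₊, (Real.log p / p) * (ArithmeticFunction.vonMangoldt k / k) *
        Real.log ((k * p : ℕ) : ℝ) = (Real.log p / p) *
        (∑ k ∈ Icc 1 ⌊y⌋₊, (ArithmeticFunction.vonMangoldt k / (k : ℝ)) * Real.log k +
          Real.log p * ∑ k ∈ Icc 1 ⌊y⌋₊, ArithmeticFunction.vonMangoldt k / (k : ℝ)) := by
      rw [Finset.mul_sum, ← Finset.sum_add_distrib, Finset.mul_sum]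
      refine Finset.sum_congr rfl fun k hk => ?_
      rw [Finset.mem_Icc] at hk
      have hk0 : (0 : ℝ) < k := by exact_mod_cast hk.1
      rw [Nat.cast_mul, Real.log_mul hk0.ne' hp0.ne']
      ring
    rw [hsum]
    set S1 : ℝ := ∑ k ∈ Icc 1 ⌊y⌋₊, (ArithmeticFunction.vonMangoldt k / (k : ℝ)) * Real.log k with hS1
    set S2 : ℝ := ∑ k ∈ Icc 1 ⌊y⌋₊, ArithmeticFunction.vonMangoldt k / (k : ℝ) with hS2
    set lp : ℝ := Real.log p with hlp
    set ly : ℝ := Real.log y with hlyd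
    have hb1 : S1 ≤ 3 / 16 * L ^ 2 + 3 / 4 * C * L := by
      have e1 : ly ^ 2 ≤ (L / 2) ^ 2 := pow_le_pow_left₀ hly0 hly 2
      have e2 : C * ly ≤ C * (L / 2) := mul_le_mul_of_nonneg_left hly hC0.le
      nlinarith
    have hS2b : S2 ≤ L / 2 + C := by linarith
    have hb2 : lp * S2 ≤ (L / 2 + Real.log 4) * (L / 2 + C) := by
      calc lp * S2 ≤ lp * (L / 2 + C) := mul_le_mul_of_nonneg_left hS2b hlp0
        _ ≤ (L / 2 + Real.log 4) * (L / 2 + C) :=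
            mul_le_mul_of_nonneg_right hlp2 (by linarith)
    have hb3 : L ^ 2 / 2 ≤ L * lp := by nlinarith
    have hlast : L ^ 2 / 32 ≤ L * lp - (S1 + lp * S2) := by
      have e3 : K * L ≤ L * L := mul_le_mul_of_nonneg_right (by linarith) (by linarith)
      have e4 : Real.log 4 * C ≤ Real.log 4 * C * L := by
        nlinarith [mul_nonneg hl4 hC0.le]
      rw [hK] at e3
      nlinarith [mul_nonneg hl4 (show (0:ℝ) ≤ L by linarith), mul_nonneg hC0.le (show (0:ℝ) ≤ L by linarith),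
        mul_nonneg (mul_nonneg hl4 hC0.le) (show (0:ℝ) ≤ L by linarith)]
    have hq : 0 ≤ lp / p := div_nonneg hlp0 hp0.le
    have hfin := mul_le_mul_of_nonneg_left hlast hq
    have heq : L * (lp ^ 2 / p) = lp / p * (L * lp) := by ring
    rw [heq]
    linarith
  have hs := Finset.sum_le_sum hkey
  rw [Finset.sum_sub_distrib, ← Finset.sum_mul, ← Finset.mul_sum] at hs
  have hpp := (hPP T hTT1).1
  have : 1 / 128 * L ^ 2 ≤ (∑ p ∈ PP T, Real.log p / p) * (L ^ 2 / 32) := by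
    nlinarith [sq_nonneg L]
  linarith

theorem msu2 : ∃ C : ℝ, 0 < C ∧ ∀ η : ℝ, 0 < η → η ≤ 1 / 4 → ∃ T0 : ℝ, 10 ≤ T0 ∧ ∀ T : ℝ, T0 ≤ T →
    ∑ p ∈ PP T, ∑ k ∈ (Icc 1 ⌊T / p⌋₊).filter (fun k : ℕ => T ^ (1 - η) < ((k * p : ℕ) : ℝ)),
      (Real.log p / p) * (ArithmeticFunction.vonMangoldt k / k) ≤ C * (η * Real.log T + 1) := by
  obtain ⟨T1, hT1, hPP⟩ := plo_pp
  obtain ⟨C, hC0, hC⟩ := plo_mertens
  refine ⟨6 + 12 * C, by linarith, fun η hη0 hη => ⟨max T1 256, le_trans hT1 (le_max_left _ _), ?_⟩⟩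
  intro T hT
  have hTT1 : T1 ≤ T := le_trans (le_max_left _ _) hT
  have hT256 : 256 ≤ T := le_trans (le_max_right _ _) hT
  have hT0 : 0 < T := by linarith
  have hL0 : 0 ≤ Real.log T := Real.log_nonneg (by linarith)
  have hkey : ∀ p ∈ PP T,
      ∑ k ∈ (Icc 1 ⌊T / p⌋₊).filter (fun k : ℕ => T ^ (1 - η) < ((k * p : ℕ) : ℝ)),
        (Real.log p / p) * (ArithmeticFunction.vonMangoldt k / k) ≤
      Real.log p / p * (η * Real.log T + 2 * C) := by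
    intro p hp
    obtain ⟨hp0, hlp0, hy1, hlp1, hlp2, hly, -⟩ := msu_p T (by linarith) p hp
    obtain ⟨-, -, hp4⟩ := plo_mem T (by linarith) p hp
    rw [← Finset.mul_sum]
    refine mul_le_mul_of_nonneg_left ?_ (div_nonneg hlp0 hp0.le)
    set w : ℝ := T ^ (1 - η) / p with hw
    have hw1 : 1 ≤ w := by
      rw [hw, le_div_iff₀ hp0, one_mul]
      refine le_trans hp4 ?_
      have e1 : T ^ (3 / 4 : ℝ) ≤ T ^ (1 - η) :=
        Real.rpow_le_rpow_of_exponent_le (by linarith) (by linarith)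
      have e2 : T ^ (3 / 4 : ℝ) = T ^ (1 / 4 : ℝ) * Real.sqrt T := by
        rw [Real.sqrt_eq_rpow, ← Real.rpow_add hT0]; norm_num
      have e3 : (4 : ℝ) ≤ T ^ (1 / 4 : ℝ) := by
        have : (4 : ℝ) = (256 : ℝ) ^ (1 / 4 : ℝ) := by
          rw [show (256 : ℝ) = 4 ^ (4 : ℝ) by norm_num, ← Real.rpow_mul (by norm_num)]
          norm_num
        calc (4 : ℝ) = (256 : ℝ) ^ (1 / 4 : ℝ) := this
          _ ≤ T ^ (1 / 4 : ℝ) := Real.rpow_le_rpow (by norm_num) hT256 (by norm_num)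
      have e4 : 0 ≤ Real.sqrt T := Real.sqrt_nonneg T
      calc 4 * Real.sqrt T ≤ T ^ (1 / 4 : ℝ) * Real.sqrt T := mul_le_mul_of_nonneg_right e3 e4
        _ = T ^ (3 / 4 : ℝ) := e2.symm
        _ ≤ T ^ (1 - η) := e1
    have hw0 : 0 < w := by linarith
    have hpow1 : T ^ (1 - η) ≤ T := by
      calc T ^ (1 - η) ≤ T ^ (1 : ℝ) := Real.rpow_le_rpow_of_exponent_le (by linarith) (by linarith)
        _ = T := Real.rpow_one T
    have hwy : w ≤ T / p := by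
      rw [hw]; exact div_le_div_of_nonneg_right hpow1 hp0.le
    have hsub : Icc 1 ⌊w⌋₊ ⊆ Icc 1 ⌊T / p⌋₊ :=
      Finset.Icc_subset_Icc le_rfl (Nat.floor_le_floor hwy)
    have hsplit := Finset.sum_sdiff (f := fun k : ℕ => ArithmeticFunction.vonMangoldt k / (k : ℝ)) hsub
    have hle : ∑ k ∈ (Icc 1 ⌊T / p⌋₊).filter (fun k : ℕ => T ^ (1 - η) < ((k * p : ℕ) : ℝ)),
        ArithmeticFunction.vonMangoldt k / (k : ℝ) ≤
        ∑ k ∈ Icc 1 ⌊T / p⌋₊ \ Icc 1 ⌊w⌋₊, ArithmeticFunction.vonMangoldt k / (k : ℝ) := by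
      refine Finset.sum_le_sum_of_subset_of_nonneg ?_ (fun k _ _ =>
        div_nonneg ArithmeticFunction.vonMangoldt_nonneg (Nat.cast_nonneg k))
      intro k hk
      rw [Finset.mem_filter] at hk
      rw [Finset.mem_sdiff]
      refine ⟨hk.1, fun hk2 => ?_⟩
      rw [Finset.mem_Icc] at hk2
      have h3 : (k : ℝ) ≤ w := (Nat.le_floor_iff hw0.le).mp hk2.2
      rw [hw, le_div_iff₀ hp0] at h3
      have h4 := hk.2
      rw [Nat.cast_mul] at h4
      linarith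
    have h1 := (abs_le.mp (hC (T / p) hy1)).2
    have h2 := (abs_le.mp (hC w hw1)).1
    have hlogw : Real.log w = (1 - η) * Real.log T - Real.log p := by
      rw [hw, Real.log_div (Real.rpow_pos_of_pos hT0 _).ne' hp0.ne', Real.log_rpow hT0]
    have hlogy : Real.log (T / p) = Real.log T - Real.log p := Real.log_div hT0.ne' hp0.ne'
    rw [hlogw] at h2
    rw [hlogy] at h1
    have hsplit' : ∑ k ∈ Icc 1 ⌊T / p⌋₊ \ Icc 1 ⌊w⌋₊, ArithmeticFunction.vonMangoldt k / (k : ℝ) +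
        ∑ k ∈ Icc 1 ⌊w⌋₊, ArithmeticFunction.vonMangoldt k / (k : ℝ) =
        ∑ k ∈ Icc 1 ⌊T / p⌋₊, ArithmeticFunction.vonMangoldt k / (k : ℝ) := hsplit
    nlinarith
  refine le_trans (Finset.sum_le_sum hkey) ?_
  rw [← Finset.sum_mul]
  have hpp := (hPP T hTT1).2
  have hn : 0 ≤ η * Real.log T + 2 * C := by
    have := mul_nonneg hη0.le hL0
    linarith
  calc (∑ p ∈ PP T, Real.log p / p) * (η * Real.log T + 2 * C) ≤ 6 * (η * Real.log T + 2 * C) :=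
        mul_le_mul_of_nonneg_right hpp hn
    _ ≤ (6 + 12 * C) * (η * Real.log T + 1) := by
        have := mul_nonneg hC0.le (mul_nonneg hη0.le hL0)
        nlinarith

theorem msu3 : ∃ C T0 : ℝ, 0 < C ∧ 10 ≤ T0 ∧ ∀ T : ℝ, T0 ≤ T → ∀ N : ℕ,
    ∑ p ∈ PP T, ∑ k ∈ (Icc 1 N).filter (fun k : ℕ => T < ((k * p : ℕ) : ℝ)),
      Real.log p * ArithmeticFunction.vonMangoldt k / (((k * p : ℕ) : ℝ)) ^ 2 ≤ C / T := by
  obtain ⟨T1, hT1, hPP⟩ := plo_pp
  obtain ⟨C, hC0, hC⟩ := plo_sq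
  refine ⟨6 * C, max T1 16, by linarith, le_trans hT1 (le_max_left _ _), ?_⟩
  intro T hT N
  have hTT1 : T1 ≤ T := le_trans (le_max_left _ _) hT
  have hT16 : 16 ≤ T := le_trans (le_max_right _ _) hT
  have hT0 : 0 < T := by linarith
  have hkey : ∀ p ∈ PP T,
      ∑ k ∈ (Icc 1 N).filter (fun k : ℕ => T < ((k * p : ℕ) : ℝ)),
        Real.log p * ArithmeticFunction.vonMangoldt k / (((k * p : ℕ) : ℝ)) ^ 2 ≤
      Real.log p / p * (C / T) := by
    intro p hp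
    obtain ⟨hp0, hlp0, hy1, hlp1, hlp2, hly, -⟩ := msu_p T hT16 p hp
    have hfil : (Icc 1 N).filter (fun k : ℕ => T < ((k * p : ℕ) : ℝ)) =
        (Icc 1 N).filter (fun k : ℕ => T / p < (k : ℝ)) := by
      refine Finset.filter_congr fun k _ => ?_
      rw [Nat.cast_mul, div_lt_iff₀ hp0]
    rw [hfil]
    have heq : ∑ k ∈ (Icc 1 N).filter (fun k : ℕ => T / p < (k : ℝ)),
        Real.log p * ArithmeticFunction.vonMangoldt k / (((k * p : ℕ) : ℝ)) ^ 2 =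
        Real.log p / (p : ℝ) ^ 2 * ∑ k ∈ (Icc 1 N).filter (fun k : ℕ => T / p < (k : ℝ)),
          ArithmeticFunction.vonMangoldt k / (k : ℝ) ^ 2 := by
      rw [Finset.mul_sum]
      refine Finset.sum_congr rfl fun k hk => ?_
      have hk1 : 1 ≤ k := (Finset.mem_Icc.mp (Finset.mem_filter.mp hk).1).1
      have hk0 : (0 : ℝ) < k := by exact_mod_cast hk1
      rw [Nat.cast_mul]
      field_simp
    rw [heq]
    have h := hC (T / p) hy1 N
    have hcp : C / (T / p) = C * p / T := by field_simp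
    rw [hcp] at h
    calc Real.log p / (p : ℝ) ^ 2 * ∑ k ∈ (Icc 1 N).filter (fun k : ℕ => T / p < (k : ℝ)),
          ArithmeticFunction.vonMangoldt k / (k : ℝ) ^ 2
        ≤ Real.log p / (p : ℝ) ^ 2 * (C * p / T) :=
          mul_le_mul_of_nonneg_left h (div_nonneg hlp0 (by positivity))
      _ = Real.log p / p * (C / T) := by field_simp
  refine le_trans (Finset.sum_le_sum hkey) ?_
  rw [← Finset.sum_mul]
  have hpp := (hPP T hTT1).2
  calc (∑ p ∈ PP T, Real.log p / p) * (C / T) ≤ 6 * (C / T) :=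
        mul_le_mul_of_nonneg_right hpp (by positivity)
    _ = 6 * C / T := by ring

end Pool.Agent.H24.WH
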