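import Pool.Agent.H24.WH.Zrp

/-!
# [H24 WH ZK1] `K ≤ T^(1-η)`: only `m = K`

PROOF. `zrp`. `m = K`: `st 6 1 (log K/L) = 1`, the term is `log K/K Uu T 0` (`uu_zero`, error `≤ L T^(-10)`). `m ≠ K`: `|log K - log m| ≥ 1/(K+m)`; for `m ≤ 2K` this is `≥ T^(-1+η)/3`, for `m > 2K` it is `≥ log 2`: `uu_dec` with
`A η ≥ 40`, `A ≥ 40`: each term is `≤ C L T (T^η/3)^(-A) ≤ T^(-30)`, `≤ T^7 + 2` terms.
-/

set_option autoImplicit false

namespace Pool.Agent.H24.WH

open Complex MeasureTheory Finset Pool.Agent.H48.WN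

/-- distance of the logarithms of two different natural numbers -/
private theorem zk1_log {K m : ℕ} (hK : 1 ≤ K) (hm : 1 ≤ m) (h : m ≠ K) :
    1 / (2 * (K : ℝ)) ≤ |Real.log K - Real.log m| := by
  have hK0 : (0 : ℝ) < K := by exact_mod_cast hK
  have hm0 : (0 : ℝ) < m := by exact_mod_cast hm
  have hK1 : (1 : ℝ) ≤ K := by exact_mod_cast hK
  rcases lt_or_gt_of_ne h with h1 | h1
  · -- m < K
    have h2 : (m : ℝ) + 1 ≤ K := by exact_mod_cast h1
    have h3 : Real.log (m / K) ≤ m / K - 1 := Real.log_le_sub_one_of_pos (by positivity)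
    rw [Real.log_div hm0.ne' hK0.ne'] at h3
    have h4 : (m : ℝ) / K ≤ 1 - 1 / K := by
      rw [div_le_iff₀ hK0, sub_mul, one_div, inv_mul_cancel₀ hK0.ne', one_mul]
      linarith
    have h5 : 1 / (2 * (K : ℝ)) ≤ 1 / K := by
      apply one_div_le_one_div_of_le hK0
      linarith
    refine le_trans ?_ (le_abs_self _)
    linarith
  · -- K < m
    have h2 : (K : ℝ) + 1 ≤ m := by exact_mod_cast h1
    rw [abs_sub_comm]
    refine le_trans ?_ (le_abs_self _)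
    have h3 : Real.log (K / m) ≤ K / m - 1 := Real.log_le_sub_one_of_pos (by positivity)
    rw [Real.log_div hK0.ne' hm0.ne'] at h3
    have h4 : (K : ℝ) / m ≤ 1 - 1 / (2 * K) := by
      rw [div_le_iff₀ hm0]
      have h5 : (K : ℝ) / (K + 1) ≤ 1 - 1 / (2 * K) := by
        rw [div_le_iff₀ (by linarith)]
        field_simp
        nlinarith
      have h6 : (K : ℝ) ≤ (1 - 1 / (2 * K)) * (K + 1) := by
        rwa [div_le_iff₀ (by linarith)] at h5
      have h7 : 0 ≤ 1 - 1 / (2 * (K : ℝ)) := by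
        have : 1 / (2 * (K : ℝ)) ≤ 1 := by
          rw [div_le_one (by positivity)]
          linarith
        linarith
      exact h6.trans (mul_le_mul_of_nonneg_left h2 h7)
    linarith

private theorem zk1_w (K m : ℕ) (hK : 1 ≤ K) (hm : 1 ≤ m) (u : ℝ) :
    ‖((Real.log m * st 6 1 u / (Real.sqrt m * Real.sqrt K) : ℝ) : ℂ)‖ ≤ 2 := by
  have hm1 : (1 : ℝ) ≤ m := by exact_mod_cast hm
  have hK1 : (1 : ℝ) ≤ K := by exact_mod_cast hK
  have hs0 : 0 < Real.sqrt m := Real.sqrt_pos.2 (by linarith)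
  have hs1 : 1 ≤ Real.sqrt K := Real.one_le_sqrt.2 hK1
  have hst0 : 0 ≤ st 6 1 u := Real.smoothTransition.nonneg _
  have hst1 : st 6 1 u ≤ 1 := Real.smoothTransition.le_one _
  have hl0 : 0 ≤ Real.log m := Real.log_nonneg hm1
  have hl : Real.log m ≤ 2 * Real.sqrt m := by
    have h1 : Real.log (Real.sqrt m) ≤ Real.sqrt m - 1 := Real.log_le_sub_one_of_pos hs0
    rw [Real.log_sqrt (by linarith)] at h1
    linarith
  rw [Complex.norm_real, Real.norm_eq_abs, abs_of_nonneg (by positivity), div_le_iff₀ (by positivity)]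
  calc Real.log m * st 6 1 u ≤ Real.log m * 1 := mul_le_mul_of_nonneg_left hst1 hl0
    _ ≤ 2 * Real.sqrt m := by linarith
    _ ≤ 2 * (Real.sqrt m * Real.sqrt K) := by nlinarith

theorem zk1 (η : ℝ) (hη : 0 < η) (hη1 : η ≤ 1 / 2) : ∃ T0 : ℝ, 10 ≤ T0 ∧ ∀ T : ℝ, T0 ≤ T → ∀ K : ℕ, 1 ≤ K → (K : ℝ) ≤ T ^ (1 - η) →
    ‖Zt T K + ((Real.sqrt Real.pi * T * P0 * (Real.log K / K) : ℝ) : ℂ)‖ ≤ T ^ (-(5 : ℝ)) := by
  obtain ⟨A, hA⟩ : ∃ A : ℕ, A = ⌈40 / η⌉₊ := ⟨_, rfl⟩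
  have hAη : 40 ≤ η * A := by
    have h1 : 40 / η ≤ A := by rw [hA]; exact Nat.le_ceil _
    rw [div_le_iff₀ hη] at h1
    linarith
  obtain ⟨C, hC, hU⟩ := uu_dec A
  obtain ⟨T1, hT1, hZ⟩ := zrp
  obtain ⟨T2, hT2, hU0⟩ := uu_zero
  refine ⟨max (max T1 T2) (4 * C * 2 ^ A + 10), (hT1.trans (le_max_left _ _)).trans (le_max_left _ _), ?_⟩
  intro T hT K hK hKT
  have hTT1 : T1 ≤ T := ((le_max_left _ _).trans (le_max_left _ _)).trans hT
  have hTT2 : T2 ≤ T := ((le_max_right _ _).trans (le_max_left _ _)).trans hT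
  have hTC : 4 * C * 2 ^ A + 10 ≤ T := (le_max_right _ _).trans hT
  have hT10 : 10 ≤ T := hT1.trans hTT1
  have hT0 : 0 < T := by linarith
  have hT1' : 1 ≤ T := by linarith
  have hK0 : (0 : ℝ) < K := by exact_mod_cast hK
  have hK1 : (1 : ℝ) ≤ K := by exact_mod_cast hK
  obtain ⟨N, hN⟩ : ∃ N : ℕ, N = ⌈T ^ 7⌉₊ := ⟨_, rfl⟩
  have hZ1 := hZ T hTT1 K hK
  rw [← hN] at hZ1
  have hNup : (N : ℝ) ≤ 2 * T ^ 7 := by
    rw [hN]
    have h1 := Nat.ceil_lt_add_one (show 0 ≤ T ^ 7 by positivity)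
    have h2 : (1 : ℝ) ≤ T ^ 7 := one_le_pow₀ hT1'
    linarith
  have hKT' : (K : ℝ) ≤ T := by
    refine hKT.trans ?_
    calc T ^ (1 - η) ≤ T ^ (1 : ℝ) := Real.rpow_le_rpow_of_exponent_le hT1' (by linarith)
      _ = T := Real.rpow_one T
  have hKN : K ∈ Icc 1 N := by
    rw [mem_Icc]
    refine ⟨hK, ?_⟩
    have h1 : (K : ℝ) ≤ N := by
      rw [hN]
      refine le_trans ?_ (Nat.le_ceil _)
      refine hKT'.trans ?_
      calc T = T ^ 1 := (pow_one T).symm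
        _ ≤ T ^ 7 := pow_le_pow_right₀ hT1' (by norm_num)
    exact_mod_cast h1
  obtain ⟨f, hf⟩ : ∃ f : ℕ → ℂ, f = fun m : ℕ => ((Real.log m * st 6 1 (Real.log m / Real.log T) /
      (Real.sqrt m * Real.sqrt K) : ℝ) : ℂ) * Uu T (Real.log K - Real.log m) := ⟨_, rfl⟩
  have hZ2 : ‖Zt T K + ∑ m ∈ Icc 1 N, f m‖ ≤ T ^ (-(20 : ℝ)) := by
    rw [hf]
    exact hZ1
  -- the term m = K
  have hfK : ‖f K - ((Real.sqrt Real.pi * T * P0 * (Real.log K / K) : ℝ) : ℂ)‖ ≤ T ^ (-(10 : ℝ)) := by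
    have hlogT : 0 < Real.log T := Real.log_pos (by linarith)
    have hst : st 6 1 (Real.log K / Real.log T) = 1 := by
      unfold st
      refine Real.smoothTransition.one_of_one_le ?_
      rw [div_one]
      have h1 : Real.log K / Real.log T ≤ 1 := by
        rw [div_le_one hlogT]
        exact Real.log_le_log hK0 hKT'
      linarith
    have h1 : f K = ((Real.log K / K : ℝ) : ℂ) * Uu T 0 := by
      rw [hf]
      simp only [hst, sub_self, mul_one, Real.mul_self_sqrt hK0.le]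
    have h2 : f K - ((Real.sqrt Real.pi * T * P0 * (Real.log K / K) : ℝ) : ℂ) =
        ((Real.log K / K : ℝ) : ℂ) * (Uu T 0 - ((Real.sqrt Real.pi * T * P0 : ℝ) : ℂ)) := by
      rw [h1]
      push_cast
      ring
    have h3 : ‖((Real.log K / K : ℝ) : ℂ)‖ ≤ 1 := by
      rw [Complex.norm_real, Real.norm_eq_abs, abs_of_nonneg (div_nonneg (Real.log_nonneg hK1) hK0.le),
        div_le_one hK0]
      have := Real.log_le_sub_one_of_pos hK0
      linarith
    rw [h2, norm_mul]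
    calc ‖((Real.log K / K : ℝ) : ℂ)‖ * ‖Uu T 0 - ((Real.sqrt Real.pi * T * P0 : ℝ) : ℂ)‖
        ≤ 1 * T ^ (-(10 : ℝ)) := mul_le_mul h3 (hU0 T hTT2) (norm_nonneg _) zero_le_one
      _ = T ^ (-(10 : ℝ)) := one_mul _
  -- the other terms
  have hrest : ∀ m ∈ (Icc 1 N).erase K, ‖f m‖ ≤ 2 * (C * T * (2 ^ A * T ^ (-(40 : ℝ)))) := by
    intro m hm
    rw [mem_erase, mem_Icc] at hm
    obtain ⟨hmK, hm1, _⟩ := hm
    have h1 := (hU T hT10 (Real.log K - Real.log m)).1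
    have h2 : T ^ η / 2 ≤ 1 + T * |Real.log K - Real.log m| := by
      have h3 := zk1_log hK hm1 hmK
      have h4 : T * (1 / (2 * (K : ℝ))) ≤ T * |Real.log K - Real.log m| :=
        mul_le_mul_of_nonneg_left h3 hT0.le
      have h5 : T ^ η / 2 ≤ T * (1 / (2 * (K : ℝ))) := by
        rw [mul_one_div, div_le_div_iff₀ (by norm_num) (by positivity)]
        have h6 : T ^ η * K ≤ T := by
          calc T ^ η * K ≤ T ^ η * T ^ (1 - η) := mul_le_mul_of_nonneg_left hKT (by positivity)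
            _ = T := by
              rw [← Real.rpow_add hT0]
              simp
        linarith
      linarith
    have h3 : (1 + T * |Real.log K - Real.log m|) ^ (-(A : ℝ)) ≤ 2 ^ A * T ^ (-(40 : ℝ)) := by
      have h4 : (0 : ℝ) < T ^ η / 2 := by positivity
      calc (1 + T * |Real.log K - Real.log m|) ^ (-(A : ℝ)) ≤ (T ^ η / 2) ^ (-(A : ℝ)) :=
            Real.rpow_le_rpow_of_nonpos h4 h2 (by simp)
        _ = 2 ^ A * T ^ (-(η * A)) := by
            rw [Real.div_rpow (by positivity) (by norm_num), ← Real.rpow_mul hT0.le,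
              Real.rpow_neg (by norm_num : (0 : ℝ) ≤ 2), Real.rpow_natCast, div_inv_eq_mul, mul_neg,
              mul_comm]
        _ ≤ 2 ^ A * T ^ (-(40 : ℝ)) :=
            mul_le_mul_of_nonneg_left (Real.rpow_le_rpow_of_exponent_le hT1' (by linarith))
              (by positivity)
    rw [hf]
    show ‖((Real.log m * st 6 1 (Real.log m / Real.log T) /
      (Real.sqrt m * Real.sqrt K) : ℝ) : ℂ) * Uu T (Real.log K - Real.log m)‖ ≤ _
    rw [norm_mul]
    refine mul_le_mul (zk1_w K m hK hm1 _) (h1.trans ?_) (norm_nonneg _) (by norm_num)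
    exact mul_le_mul_of_nonneg_left h3 (by positivity)
  have hcard : (((Icc 1 N).erase K).card : ℝ) ≤ N := by
    have h1 : ((Icc 1 N).erase K).card ≤ N := by
      refine (card_erase_le).trans ?_
      rw [Nat.card_Icc]
      omega
    exact_mod_cast h1
  have hsum : ‖∑ m ∈ (Icc 1 N).erase K, f m‖ ≤ T ^ (-(20 : ℝ)) := by
    refine (norm_sum_le _ _).trans ?_
    refine (Finset.sum_le_card_nsmul _ _ _ hrest).trans ?_
    rw [nsmul_eq_mul]
    have hp : (0 : ℝ) ≤ 2 * (C * T * (2 ^ A * T ^ (-(40 : ℝ)))) := by positivity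
    refine (mul_le_mul_of_nonneg_right (hcard.trans hNup) hp).trans ?_
    have h4 : 4 * C * 2 ^ A ≤ T := by linarith
    have h5 : T ^ (-(20 : ℝ)) = T ^ 20 * T ^ (-(40 : ℝ)) := by
      rw [← Real.rpow_natCast T 20, ← Real.rpow_add hT0]
      norm_num
    rw [h5]
    have h6 : (0 : ℝ) ≤ T ^ (-(40 : ℝ)) := by positivity
    have h7 : 2 * T ^ 7 * (2 * (C * T * (2 ^ A * T ^ (-(40 : ℝ))))) =
        (4 * C * 2 ^ A) * T ^ 8 * T ^ (-(40 : ℝ)) := by ring
    rw [h7]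
    refine mul_le_mul_of_nonneg_right ?_ h6
    calc 4 * C * 2 ^ A * T ^ 8 ≤ T * T ^ 8 := mul_le_mul_of_nonneg_right h4 (by positivity)
      _ = T ^ 9 := by ring
      _ ≤ T ^ 20 := pow_le_pow_right₀ hT1' (by norm_num)
  -- together
  have hsplit : Zt T K + ((Real.sqrt Real.pi * T * P0 * (Real.log K / K) : ℝ) : ℂ) =
      (Zt T K + ∑ m ∈ Icc 1 N, f m) -
        (f K - ((Real.sqrt Real.pi * T * P0 * (Real.log K / K) : ℝ) : ℂ)) -
        ∑ m ∈ (Icc 1 N).erase K, f m := by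
    rw [← Finset.add_sum_erase _ _ hKN]
    ring
  rw [hsplit]
  refine (norm_sub_le _ _).trans ?_
  refine (add_le_add (norm_sub_le _ _) hsum).trans ?_
  have h20 : T ^ (-(20 : ℝ)) ≤ T ^ (-(10 : ℝ)) := Real.rpow_le_rpow_of_exponent_le hT1' (by norm_num)
  have h5 : T ^ (-(10 : ℝ)) * T ≤ T ^ (-(5 : ℝ)) := by
    calc T ^ (-(10 : ℝ)) * T = T ^ (-(10 : ℝ)) * T ^ (1 : ℝ) := by rw [Real.rpow_one]
      _ = T ^ (-(9 : ℝ)) := by
          rw [← Real.rpow_add hT0]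
          norm_num
      _ ≤ T ^ (-(5 : ℝ)) := Real.rpow_le_rpow_of_exponent_le hT1' (by norm_num)
  have h6 : 0 ≤ T ^ (-(10 : ℝ)) := by positivity
  have h7 : T ^ (-(10 : ℝ)) * 3 ≤ T ^ (-(10 : ℝ)) * T := mul_le_mul_of_nonneg_left (by linarith) h6
  linarith

end Pool.Agent.H24.WH
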