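import Pool.Agent.H24.WH.Zrp

/-!
# [H24 WH ZK2] the trivial bound, `K ≤ T`

PROOF. `zrp`, `uu_dec` with `A = 12`. `K/2 < m < 2K`: `|log K - log m| ≥ |m - K|/(2K)`, `log m ≤ 2 L`, `(mK)^(-1/2) ≤ 2/K`: sum `≤ (2/K) 2L C T sum_m (1 + T|m-K|/(2K))^(-12) ≤ C L T/K (1 + sum_{j≥1} (1 + j/2)^(-12)·2)` as `T/K ≥ 1`. The other `m`:
`|log K - log m| ≥ log 2`, each term `≤ 7L C T (T/2)^(-12)`, at most `T^7 + 2` of them: `≤ T^(-3)`; and `T/K ≥ 1`.
-/

set_option autoImplicit false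

namespace Pool.Agent.H24.WH

open Complex MeasureTheory Finset Pool.Agent.H48.WN

private theorem zk2_log {K m : ℕ} (hK : 1 ≤ K) (hm : 1 ≤ m) (h : m < 2 * K) :
    |(m : ℝ) - K| / (2 * K) ≤ |Real.log K - Real.log m| := by
  have hK0 : (0 : ℝ) < K := by exact_mod_cast hK
  have hm0 : (0 : ℝ) < m := by exact_mod_cast hm
  have h' : (m : ℝ) < 2 * K := by exact_mod_cast h
  rcases le_or_gt m K with h1 | h1
  · have h2 : (m : ℝ) ≤ K := by exact_mod_cast h1
    have h3 : Real.log (m / K) ≤ m / K - 1 := Real.log_le_sub_one_of_pos (by positivity)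
    rw [Real.log_div hm0.ne' hK0.ne'] at h3
    refine le_trans ?_ (le_abs_self _)
    rw [abs_of_nonpos (by linarith)]
    have h4 : -((m : ℝ) - K) / (2 * K) ≤ 1 - m / K := by
      rw [div_le_iff₀ (by positivity)]
      have h5 : (1 - (m : ℝ) / K) * (2 * K) = 2 * (K - m) := by field_simp
      rw [h5]
      linarith
    linarith
  · have h2 : (K : ℝ) < m := by exact_mod_cast h1
    have h3 : Real.log (K / m) ≤ K / m - 1 := Real.log_le_sub_one_of_pos (by positivity)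
    rw [Real.log_div hK0.ne' hm0.ne'] at h3
    rw [abs_sub_comm (Real.log K)]
    refine le_trans ?_ (le_abs_self _)
    rw [abs_of_nonneg (by linarith)]
    have h4 : ((m : ℝ) - K) / (2 * K) ≤ ((m : ℝ) - K) / m :=
      div_le_div_of_nonneg_left (by linarith) hm0 h'.le
    have h5 : ((m : ℝ) - K) / m = 1 - K / m := by field_simp
    linarith

private theorem zk2_far {K m : ℕ} (hK : 1 ≤ K) (hm : 1 ≤ m) (h : 2 * m ≤ K ∨ 2 * K ≤ m) :
    1 / 2 ≤ |Real.log K - Real.log m| := by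
  have hK0 : (0 : ℝ) < K := by exact_mod_cast hK
  have hm0 : (0 : ℝ) < m := by exact_mod_cast hm
  have h2 := Real.log_two_gt_d9
  rcases h with h | h
  · have h1 : (2 : ℝ) * m ≤ K := by exact_mod_cast h
    have h3 : Real.log (2 * m) ≤ Real.log K := Real.log_le_log (by positivity) h1
    rw [Real.log_mul (by norm_num) hm0.ne'] at h3
    refine le_trans ?_ (le_abs_self _)
    linarith
  · have h1 : (2 : ℝ) * K ≤ m := by exact_mod_cast h
    have h3 : Real.log (2 * K) ≤ Real.log m := Real.log_le_log (by positivity) h1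
    rw [Real.log_mul (by norm_num) hK0.ne'] at h3
    rw [abs_sub_comm]
    refine le_trans ?_ (le_abs_self _)
    linarith

private theorem zk2_tel (M : ℕ) :
    ∑ j ∈ range M, 1 / (1 + (j : ℝ) / 2) ^ 2 ≤ 4 := by
  have h : ∀ M : ℕ, ∑ j ∈ range M, 1 / (1 + (j : ℝ) / 2) ^ 2 ≤ 4 - 4 / ((M : ℝ) + 1) := by
    intro M
    induction M with
    | zero => simp
    | succ M ih =>
      rw [sum_range_succ]
      have h1 : 1 / (1 + (M : ℝ) / 2) ^ 2 ≤ 4 / ((M : ℝ) + 1) - 4 / ((M : ℝ) + 2) := by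
        have hM : (0 : ℝ) ≤ M := Nat.cast_nonneg M
        have e1 : 1 / (1 + (M : ℝ) / 2) ^ 2 = 4 / ((M : ℝ) + 2) ^ 2 := by
          rw [div_eq_div_iff (by positivity) (by positivity)]
          ring
        have e2 : 4 / ((M : ℝ) + 1) - 4 / ((M : ℝ) + 2) = 4 / (((M : ℝ) + 1) * ((M : ℝ) + 2)) := by
          field_simp
          ring
        rw [e1, e2]
        refine div_le_div_of_nonneg_left (by norm_num) (by positivity) ?_
        nlinarith
      push_cast
      have e3 : (M : ℝ) + 1 + 1 = M + 2 := by ring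
      rw [e3]
      linarith
  have h1 := h M
  have h2 : 0 ≤ 4 / ((M : ℝ) + 1) := by positivity
  linarith

private theorem zk2_sum (K N : ℕ) :
    ∑ m ∈ Icc 1 N, 1 / (1 + |(m : ℝ) - K| / 2) ^ 2 ≤ 8 := by
  rw [← sum_filter_add_sum_filter_not (Icc 1 N) (fun m => m ≤ K)]
  have h0 : ∀ j : ℕ, 0 ≤ 1 / (1 + (j : ℝ) / 2) ^ 2 := fun j => by positivity
  have h1 : ∑ m ∈ (Icc 1 N).filter (fun m => m ≤ K), 1 / (1 + |(m : ℝ) - K| / 2) ^ 2 ≤ 4 := by
    have e1 : ∑ m ∈ (Icc 1 N).filter (fun m => m ≤ K), 1 / (1 + |(m : ℝ) - K| / 2) ^ 2 =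
        ∑ m ∈ (Icc 1 N).filter (fun m => m ≤ K), 1 / (1 + ((K - m : ℕ) : ℝ) / 2) ^ 2 := by
      refine sum_congr rfl fun m hm => ?_
      have h2 := (mem_filter.1 hm).2
      have h3 : (m : ℝ) ≤ K := by exact_mod_cast h2
      rw [Nat.cast_sub h2, abs_of_nonpos (by linarith), neg_sub]
    rw [e1, ← sum_image (f := fun j : ℕ => 1 / (1 + (j : ℝ) / 2) ^ 2) (g := fun m : ℕ => K - m)]
    · refine (sum_le_sum_of_subset_of_nonneg ?_ fun j _ _ => h0 j).trans (zk2_tel (K + 1))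
      intro j hj
      rw [mem_image] at hj
      obtain ⟨m, -, rfl⟩ := hj
      rw [mem_range]
      omega
    · intro a ha b hb hab
      have h2 := (mem_filter.1 ha).2
      have h3 := (mem_filter.1 hb).2
      simp only at hab
      omega
  have h1' : ∑ m ∈ (Icc 1 N).filter (fun m => ¬ m ≤ K), 1 / (1 + |(m : ℝ) - K| / 2) ^ 2 ≤ 4 := by
    have e1 : ∑ m ∈ (Icc 1 N).filter (fun m => ¬ m ≤ K), 1 / (1 + |(m : ℝ) - K| / 2) ^ 2 =
        ∑ m ∈ (Icc 1 N).filter (fun m => ¬ m ≤ K), 1 / (1 + ((m - K : ℕ) : ℝ) / 2) ^ 2 := by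
      refine sum_congr rfl fun m hm => ?_
      have h2 := not_le.1 (mem_filter.1 hm).2
      have h3 : (K : ℝ) ≤ m := by exact_mod_cast h2.le
      rw [Nat.cast_sub h2.le, abs_of_nonneg (by linarith)]
    rw [e1, ← sum_image (f := fun j : ℕ => 1 / (1 + (j : ℝ) / 2) ^ 2) (g := fun m : ℕ => m - K)]
    · refine (sum_le_sum_of_subset_of_nonneg ?_ fun j _ _ => h0 j).trans (zk2_tel (N + 1))
      intro j hj
      rw [mem_image] at hj
      obtain ⟨m, hm, rfl⟩ := hj
      have h2 := (mem_Icc.1 (mem_filter.1 hm).1).2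
      rw [mem_range]
      omega
    · intro a ha b hb hab
      have h2 := (mem_filter.1 ha).2
      have h3 := (mem_filter.1 hb).2
      simp only at hab
      omega
  linarith

private theorem zk2_w (K m : ℕ) (hK : 1 ≤ K) (hm : 1 ≤ m) (u : ℝ) :
    ‖((Real.log m * st 6 1 u / (Real.sqrt m * Real.sqrt K) : ℝ) : ℂ)‖ ≤ 2 := by
  have hm1 : (1 : ℝ) ≤ m := by exact_mod_cast hm
  have hK1 : (1 : ℝ) ≤ K := by exact_mod_cast hK
  have hs0 : 0 < Real.sqrt m := Real.sqrt_pos.2 (by linarith)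
  have hs1 : 1 ≤ Real.sqrt K := Real.one_le_sqrt.2 hK1
  have hst0 : 0 ≤ st 6 1 u := Real.smoothTransition.nonneg _
  have hst1 : st 6 1 u ≤ 1 := Real.smoothTransition.le_one _
  have hl0 : 0 ≤ Real.log m := Real.log_nonneg hm1
  have hl : Real.log m ≤ 2 * Real.sqrt m := by
    have h1 : Real.log (Real.sqrt m) ≤ Real.sqrt m - 1 := Real.log_le_sub_one_of_pos hs0
    rw [Real.log_sqrt (by linarith)] at h1
    linarith
  rw [Complex.norm_real, Real.norm_eq_abs, abs_of_nonneg (by positivity), div_le_iff₀ (by positivity)]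
  calc Real.log m * st 6 1 u ≤ Real.log m * 1 := mul_le_mul_of_nonneg_left hst1 hl0
    _ ≤ 2 * Real.sqrt m := by linarith
    _ ≤ 2 * (Real.sqrt m * Real.sqrt K) := by nlinarith

private theorem zk2_wn (K m : ℕ) (hK : 1 ≤ K) (hm : 1 ≤ m) (u T : ℝ) (hT : 2 ≤ T)
    (hKT : (K : ℝ) ≤ T) (h1 : K < 2 * m) (h2 : m < 2 * K) :
    ‖((Real.log m * st 6 1 u / (Real.sqrt m * Real.sqrt K) : ℝ) : ℂ)‖ ≤ 4 * Real.log T / K := by
  have hm1 : (1 : ℝ) ≤ m := by exact_mod_cast hm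
  have hK1 : (1 : ℝ) ≤ K := by exact_mod_cast hK
  have hs0 : 0 < Real.sqrt m := Real.sqrt_pos.2 (by linarith)
  have hs1 : 0 < Real.sqrt K := Real.sqrt_pos.2 (by linarith)
  have hst0 : 0 ≤ st 6 1 u := Real.smoothTransition.nonneg _
  have hst1 : st 6 1 u ≤ 1 := Real.smoothTransition.le_one _
  have hl0 : 0 ≤ Real.log m := Real.log_nonneg hm1
  have h2' : (m : ℝ) ≤ 2 * K := by exact_mod_cast h2.le
  have h1' : (K : ℝ) ≤ 2 * m := by exact_mod_cast h1.le
  have hT0 : 0 < T := by linarith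
  have hl : Real.log m ≤ 2 * Real.log T := by
    have e1 : Real.log m ≤ Real.log (T * T) := by
      refine Real.log_le_log (by linarith) (h2'.trans ?_)
      nlinarith
    rw [Real.log_mul hT0.ne' hT0.ne'] at e1
    linarith
  have hlT : 0 ≤ Real.log T := Real.log_nonneg (by linarith)
  have hq : (K : ℝ) / 2 ≤ Real.sqrt m * Real.sqrt K := by
    rw [← Real.sqrt_mul (by linarith)]
    refine Real.le_sqrt_of_sq_le ?_
    nlinarith
  rw [Complex.norm_real, Real.norm_eq_abs, abs_of_nonneg (by positivity), div_le_div_iff₀ (by positivity) (by linarith)]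
  calc Real.log m * st 6 1 u * K ≤ 2 * Real.log T * 1 * K := by gcongr
    _ = 4 * Real.log T * (K / 2) := by ring
    _ ≤ 4 * Real.log T * (Real.sqrt m * Real.sqrt K) := by gcongr

theorem zk2 : ∃ C T0 : ℝ, 0 < C ∧ 10 ≤ T0 ∧ ∀ T : ℝ, T0 ≤ T → ∀ K : ℕ, 1 ≤ K → (K : ℝ) ≤ T →
    ‖Zt T K‖ ≤ C * Real.log T * (T / K) := by
  obtain ⟨C, hC, hU⟩ := uu_dec 12
  obtain ⟨T1, hT1, hZ⟩ := zrp
  refine ⟨32 * C + 4 * C * 2 ^ 12 + 1, T1, by positivity, hT1, fun T hT K hK hKT => ?_⟩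
  have hT10 : 10 ≤ T := hT1.trans hT
  have hT0 : 0 < T := by linarith
  have hT1' : 1 ≤ T := by linarith
  have hK0 : (0 : ℝ) < K := by exact_mod_cast hK
  have hK1 : (1 : ℝ) ≤ K := by exact_mod_cast hK
  have hL1 : 1 ≤ Real.log T := by
    rw [Real.le_log_iff_exp_le hT0]
    have := Real.exp_one_lt_d9
    linarith
  have hTK : 1 ≤ T / K := by
    rw [le_div_iff₀ hK0]
    linarith
  have hLTK : 1 ≤ Real.log T * (T / K) := by nlinarith
  obtain ⟨N, hN⟩ : ∃ N : ℕ, N = ⌈T ^ 7⌉₊ := ⟨_, rfl⟩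
  have hZ1 := hZ T hT K hK
  rw [← hN] at hZ1
  have hNup : (N : ℝ) ≤ 2 * T ^ 7 := by
    rw [hN]
    have h1 := Nat.ceil_lt_add_one (show 0 ≤ T ^ 7 by positivity)
    have h2 : (1 : ℝ) ≤ T ^ 7 := one_le_pow₀ hT1'
    linarith
  obtain ⟨f, hf⟩ : ∃ f : ℕ → ℂ, f = fun m : ℕ => ((Real.log m * st 6 1 (Real.log m / Real.log T) /
      (Real.sqrt m * Real.sqrt K) : ℝ) : ℂ) * Uu T (Real.log K - Real.log m) := ⟨_, rfl⟩
  have hZ2 : ‖Zt T K + ∑ m ∈ Icc 1 N, f m‖ ≤ T ^ (-(20 : ℝ)) := by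
    rw [hf]
    exact hZ1
  have hneg : ∀ u : ℝ, 0 < u → u ^ (-((12 : ℕ) : ℝ)) = 1 / u ^ 12 := by
    intro u hu
    rw [Real.rpow_neg hu.le, Real.rpow_natCast, one_div]
  have hterm : ∀ m ∈ Icc 1 N, ‖f m‖ ≤ 4 * Real.log T / K * (C * T) * (1 / (1 + |(m : ℝ) - K| / 2) ^ 2) +
      2 * (C * T * (2 ^ 12 / T ^ 12)) := by
    intro m hm
    rw [mem_Icc] at hm
    have hUm := (hU T hT10 (Real.log K - Real.log m)).1
    have hx : (0 : ℝ) < 1 + T * |Real.log K - Real.log m| := by positivity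
    rw [hneg _ hx] at hUm
    have hp1 : 0 ≤ 4 * Real.log T / K * (C * T) * (1 / (1 + |(m : ℝ) - K| / 2) ^ 2) := by positivity
    have hp2 : 0 ≤ 2 * (C * T * (2 ^ 12 / T ^ 12)) := by positivity
    by_cases hnear : K < 2 * m ∧ m < 2 * K
    · refine le_trans ?_ (le_add_of_nonneg_right hp2)
      have h1 := zk2_log hK hm.1 hnear.2
      have h2 : 1 + |(m : ℝ) - K| / 2 ≤ 1 + T * |Real.log K - Real.log m| := by
        have h3 : |(m : ℝ) - K| / 2 ≤ T * (|(m : ℝ) - K| / (2 * K)) := by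
          have e1 : T * (|(m : ℝ) - K| / (2 * K)) = (T / K) * (|(m : ℝ) - K| / 2) := by
            field_simp
          rw [e1]
          have : 0 ≤ |(m : ℝ) - K| / 2 := by positivity
          nlinarith
        have h4 := mul_le_mul_of_nonneg_left h1 hT0.le
        linarith
      have h3 : 1 / (1 + T * |Real.log K - Real.log m|) ^ 12 ≤ 1 / (1 + |(m : ℝ) - K| / 2) ^ 2 := by
        have h4 : (0 : ℝ) < 1 + |(m : ℝ) - K| / 2 := by positivity
        refine one_div_le_one_div_of_le (by positivity) ?_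
        calc (1 + |(m : ℝ) - K| / 2) ^ 2 ≤ (1 + T * |Real.log K - Real.log m|) ^ 2 := by gcongr
          _ ≤ (1 + T * |Real.log K - Real.log m|) ^ 12 :=
            pow_le_pow_right₀ (by have : 0 ≤ T * |Real.log K - Real.log m| := by positivity
                                  linarith) (by norm_num)
      rw [hf]
      show ‖((Real.log m * st 6 1 (Real.log m / Real.log T) /
        (Real.sqrt m * Real.sqrt K) : ℝ) : ℂ) * Uu T (Real.log K - Real.log m)‖ ≤ _
      rw [norm_mul, mul_assoc]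
      refine mul_le_mul (zk2_wn K m hK hm.1 _ T (by linarith) hKT hnear.1 hnear.2) (hUm.trans ?_)
        (norm_nonneg _) (by positivity)
      exact mul_le_mul_of_nonneg_left h3 (by positivity)
    · refine le_trans ?_ (le_add_of_nonneg_left hp1)
      have h1 := zk2_far hK hm.1 (by omega : 2 * m ≤ K ∨ 2 * K ≤ m)
      have h2 : T / 2 ≤ 1 + T * |Real.log K - Real.log m| := by
        have h4 := mul_le_mul_of_nonneg_left h1 hT0.le
        linarith
      have h3 : 1 / (1 + T * |Real.log K - Real.log m|) ^ 12 ≤ 2 ^ 12 / T ^ 12 := by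
        have e1 : (2 : ℝ) ^ 12 / T ^ 12 = 1 / (T / 2) ^ 12 := by
          rw [div_pow, one_div_div]
        rw [e1]
        refine one_div_le_one_div_of_le (by positivity) ?_
        gcongr
      rw [hf]
      show ‖((Real.log m * st 6 1 (Real.log m / Real.log T) /
        (Real.sqrt m * Real.sqrt K) : ℝ) : ℂ) * Uu T (Real.log K - Real.log m)‖ ≤ _
      rw [norm_mul]
      refine mul_le_mul (zk2_w K m hK hm.1 _) (hUm.trans ?_) (norm_nonneg _) (by norm_num)
      exact mul_le_mul_of_nonneg_left h3 (by positivity)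
  have hsum : ‖∑ m ∈ Icc 1 N, f m‖ ≤ (32 * C + 4 * C * 2 ^ 12) * (Real.log T * (T / K)) := by
    refine (norm_sum_le _ _).trans ((sum_le_sum hterm).trans ?_)
    rw [sum_add_distrib, ← mul_sum, sum_const, Nat.card_Icc, Nat.add_sub_cancel, nsmul_eq_mul]
    have h1 : 4 * Real.log T / K * (C * T) * ∑ m ∈ Icc 1 N, 1 / (1 + |(m : ℝ) - K| / 2) ^ 2 ≤
        4 * Real.log T / K * (C * T) * 8 :=
      mul_le_mul_of_nonneg_left (zk2_sum K N) (by positivity)
    have h2 : 4 * Real.log T / K * (C * T) * 8 = 32 * C * (Real.log T * (T / K)) := by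
      field_simp
      ring
    have h3 : (N : ℝ) * (2 * (C * T * (2 ^ 12 / T ^ 12))) ≤ 4 * C * 2 ^ 12 * (Real.log T * (T / K)) := by
      have h4 : (N : ℝ) * (2 * (C * T * (2 ^ 12 / T ^ 12))) ≤
          2 * T ^ 7 * (2 * (C * T * (2 ^ 12 / T ^ 12))) :=
        mul_le_mul_of_nonneg_right hNup (by positivity)
      have h5 : 2 * T ^ 7 * (2 * (C * T * (2 ^ 12 / T ^ 12))) = 4 * C * 2 ^ 12 * (1 / T ^ 4) := by
        field_simp
        norm_num
      have h6 : 1 / T ^ 4 ≤ 1 := by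
        rw [div_le_one (by positivity)]
        exact one_le_pow₀ hT1'
      calc (N : ℝ) * (2 * (C * T * (2 ^ 12 / T ^ 12))) ≤ 4 * C * 2 ^ 12 * (1 / T ^ 4) := h4.trans h5.le
        _ ≤ 4 * C * 2 ^ 12 * (Real.log T * (T / K)) := by
          refine mul_le_mul_of_nonneg_left (h6.trans hLTK) (by positivity)
    calc _ ≤ 4 * Real.log T / K * (C * T) * 8 + 4 * C * 2 ^ 12 * (Real.log T * (T / K)) :=
          add_le_add h1 h3
      _ = (32 * C + 4 * C * 2 ^ 12) * (Real.log T * (T / K)) := by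
          rw [h2]
          ring
  have h20 : T ^ (-(20 : ℝ)) ≤ 1 := Real.rpow_le_one_of_one_le_of_nonpos hT1' (by norm_num)
  have hsplit : Zt T K = (Zt T K + ∑ m ∈ Icc 1 N, f m) - ∑ m ∈ Icc 1 N, f m := by ring
  rw [hsplit]
  refine (norm_sub_le _ _).trans ?_
  calc _ ≤ T ^ (-(20 : ℝ)) + (32 * C + 4 * C * 2 ^ 12) * (Real.log T * (T / K)) := add_le_add hZ2 hsum
    _ ≤ Real.log T * (T / K) + (32 * C + 4 * C * 2 ^ 12) * (Real.log T * (T / K)) := by linarith
    _ = (32 * C + 4 * C * 2 ^ 12 + 1) * Real.log T * (T / K) := by ring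

end Pool.Agent.H24.WH
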