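import Pool.Agent.H24.WH.Zrp
import Pool.Agent.H48.WN.Poi

/-!
# [H24 WH ZK3] `T ≤ K ≤ T^5`: Poisson summation

PROOF. `zrp`. Let `χ` be a smooth bump, `1` on `[3/4, 3/2]`, support in `[1/2, 2]`. The `m` with `m/K ∉ (3/4, 3/2)`: `uu_dec` with `A = 40` (`|log| ≥ 0.28`): negligible. For `m < 2K ≤ 2 T^5` the weight `st 6 1` is `1`. So
`-Zt = sum_m G(m) + O(T^(-12))`, `G(x) = K^(-1) g(x/K)`, `g(v) = log(Kv) χ(v) v^(-1/2) Uu T (-log v)` (`log K - log m = -log v`). `poi` (`Pool/Agent/H48/WN/Poi.lean`) with `A = 2`: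
`|sum_m G(m) - int G| ≤ C int |G''| = C K^(-2) int |g''|`, and `|g''(v)| ≤ C L (|Uu| + |Uu'| + |Uu''|)(-log v)` (`1/2 ≤ v ≤ 2`, `log K ≤ 5L`), so by `uu_dec` with `A = 2` and `int T (1 + T|log v|)^(-2) dv ≤ C`:
`int |g''| ≤ C L T^2`. Finally `int G = int g(v) dv = int_y int_{t0} kk 0 y ph(t0/T) (int log(Kv) χ(v) v^(-1/2 - i(t0+y)) dv)`: the inner integral is `≤ C L T^(-15)` (substitute `v = e^w`, integrate by parts 15 times, or `fdc` for the smooth compactly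
supported functions `χ(e^w) e^(w/2)` and `w χ(e^w) e^(w/2)` at the frequency `t0 + y ≥ T/2`).
-/

set_option autoImplicit false

namespace Pool.Agent.H24.WH

open Complex MeasureTheory Finset Pool.Agent.H48.WN

/-! ### the bump -/

private noncomputable def zc (v : ℝ) : ℝ :=
  Real.smoothTransition (4 * (v - 1 / 2)) * Real.smoothTransition (2 * (2 - v))

private theorem zc_cd : ContDiff ℝ (⊤ : ℕ∞) zc := by
  unfold zc
  exact (Real.smoothTransition.contDiff.comp (by fun_prop)).mul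
    (Real.smoothTransition.contDiff.comp (by fun_prop))

private theorem zc_one {v : ℝ} (h1 : 3 / 4 ≤ v) (h2 : v ≤ 3 / 2) : zc v = 1 := by
  unfold zc
  rw [Real.smoothTransition.one_of_one_le (by linarith),
    Real.smoothTransition.one_of_one_le (by linarith), mul_one]

private theorem zc_lo {v : ℝ} (h : v ≤ 1 / 2) : zc v = 0 := by
  unfold zc
  rw [Real.smoothTransition.zero_of_nonpos (by linarith), zero_mul]

private theorem zc_hi {v : ℝ} (h : 2 ≤ v) : zc v = 0 := by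
  unfold zc
  rw [Real.smoothTransition.zero_of_nonpos (x := 2 * (2 - v)) (by linarith), mul_zero]

private theorem zc_nn (v : ℝ) : 0 ≤ zc v :=
  mul_nonneg (Real.smoothTransition.nonneg _) (Real.smoothTransition.nonneg _)

private theorem zc_le (v : ℝ) : zc v ≤ 1 :=
  mul_le_one₀ (Real.smoothTransition.le_one _) (Real.smoothTransition.nonneg _)
    (Real.smoothTransition.le_one _)

private theorem zc_cut {f : ℝ → ℝ} (hf : ∀ v : ℝ, 0 < v → ContDiffAt ℝ (⊤ : ℕ∞) f v) :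
    ContDiff ℝ (⊤ : ℕ∞) (fun v => zc v * f v) := by
  rw [contDiff_iff_contDiffAt]
  intro v
  rcases le_or_gt v (1 / 4) with h | h
  · have h1 : (fun v => zc v * f v) =ᶠ[nhds v] fun _ => (0 : ℝ) := by
      filter_upwards [Iio_mem_nhds (show v < 1 / 2 by linarith)] with w hw
      rw [zc_lo (le_of_lt hw), zero_mul]
    exact contDiffAt_const.congr_of_eventuallyEq h1
  · exact zc_cd.contDiffAt.mul (hf v (by linarith))

private noncomputable def zb (v : ℝ) : ℝ := zc v * (Real.sqrt v)⁻¹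

private noncomputable def zl (v : ℝ) : ℝ := zc v * ((Real.sqrt v)⁻¹ * Real.log v)

private theorem zb_cd : ContDiff ℝ (⊤ : ℕ∞) zb := by
  refine zc_cut fun v hv => ?_
  exact (Real.contDiffAt_sqrt hv.ne').inv (Real.sqrt_pos.mpr hv).ne'

private theorem zl_cd : ContDiff ℝ (⊤ : ℕ∞) zl := by
  refine zc_cut fun v hv => ?_
  exact ((Real.contDiffAt_sqrt hv.ne').inv (Real.sqrt_pos.mpr hv).ne').mul
    (Real.contDiffAt_log.mpr hv.ne')

private theorem zb_lo {v : ℝ} (h : v ≤ 1 / 2) : zb v = 0 := by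
  unfold zb
  rw [zc_lo h, zero_mul]

private theorem zb_hi {v : ℝ} (h : 2 ≤ v) : zb v = 0 := by
  unfold zb
  rw [zc_hi h, zero_mul]

private theorem zl_lo {v : ℝ} (h : v ≤ 1 / 2) : zl v = 0 := by
  unfold zl
  rw [zc_lo h, zero_mul]

private theorem zl_hi {v : ℝ} (h : 2 ≤ v) : zl v = 0 := by
  unfold zl
  rw [zc_hi h, zero_mul]

/-- a smooth function which vanishes off `[1/2,2]` has bounded derivatives of order `0, 1, 2` -/
private theorem bdd3 (a : ℝ → ℝ) (ha : ContDiff ℝ (⊤ : ℕ∞) a) (h0 : ∀ v, v ≤ 1 / 2 → a v = 0)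
    (h2 : ∀ v, 2 ≤ v → a v = 0) :
    ∃ M : ℝ, 0 < M ∧ ∀ v, |a v| ≤ M ∧ |deriv a v| ≤ M ∧ |deriv (deriv a) v| ≤ M := by
  have hc : HasCompactSupport a := by
    refine HasCompactSupport.intro (isCompact_Icc (a := (1 / 2 : ℝ)) (b := 2)) fun v hv => ?_
    rw [Set.mem_Icc, not_and_or, not_le, not_le] at hv
    rcases hv with h | h
    · exact h0 v h.le
    · exact h2 v h.le
  have hd1 : ContDiff ℝ (⊤ : ℕ∞) (deriv a) := by
    have h := ha.iterate_deriv 1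
    simpa using h
  have hd2 : ContDiff ℝ (⊤ : ℕ∞) (deriv (deriv a)) := by
    have h := ha.iterate_deriv 2
    simpa using h
  obtain ⟨M0, hM0⟩ := hc.exists_bound_of_continuous ha.continuous
  obtain ⟨M1, hM1⟩ := hc.deriv.exists_bound_of_continuous hd1.continuous
  obtain ⟨M2, hM2⟩ := hc.deriv.deriv.exists_bound_of_continuous hd2.continuous
  refine ⟨|M0| + |M1| + |M2| + 1, by positivity, fun v => ⟨?_, ?_, ?_⟩⟩
  · have h := hM0 v
    rw [Real.norm_eq_abs] at h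
    have := le_abs_self M0
    have := abs_nonneg M1
    have := abs_nonneg M2
    linarith
  · have h := hM1 v
    rw [Real.norm_eq_abs] at h
    have := le_abs_self M1
    have := abs_nonneg M0
    have := abs_nonneg M2
    linarith
  · have h := hM2 v
    rw [Real.norm_eq_abs] at h
    have := le_abs_self M2
    have := abs_nonneg M1
    have := abs_nonneg M0
    linarith

/-! ### the function `g` -/

private noncomputable def gg (a : ℝ → ℝ) (u : ℝ → ℂ) (v : ℝ) : ℂ := ((a v : ℝ) : ℂ) * u (-Real.log v)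

private theorem gg_cd (a : ℝ → ℝ) (ha : ContDiff ℝ (⊤ : ℕ∞) a) (h0 : ∀ v, v ≤ 1 / 2 → a v = 0)
    (u : ℝ → ℂ) (hu : ContDiff ℝ (⊤ : ℕ∞) u) : ContDiff ℝ (⊤ : ℕ∞) (gg a u) := by
  rw [contDiff_iff_contDiffAt]
  intro v
  rcases le_or_gt v (1 / 4) with h | h
  · have h1 : gg a u =ᶠ[nhds v] fun _ => (0 : ℂ) := by
      filter_upwards [Iio_mem_nhds (show v < 1 / 2 by linarith)] with w hw
      unfold gg
      rw [h0 w (le_of_lt hw), Complex.ofReal_zero, zero_mul]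
    exact contDiffAt_const.congr_of_eventuallyEq h1
  · have hv : v ≠ 0 := by linarith
    have h1 : ContDiffAt ℝ (⊤ : ℕ∞) (fun v => u (-Real.log v)) v :=
      hu.contDiffAt.comp v (Real.contDiffAt_log.mpr hv).neg
    have h2 : ContDiffAt ℝ (⊤ : ℕ∞) (fun v => ((a v : ℝ) : ℂ)) v :=
      (Complex.ofRealCLM.contDiff.comp ha).contDiffAt
    exact h2.mul h1

private theorem gg_cs (a : ℝ → ℝ) (h0 : ∀ v, v ≤ 1 / 2 → a v = 0) (h2 : ∀ v, 2 ≤ v → a v = 0)
    (u : ℝ → ℂ) : HasCompactSupport (gg a u) := by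
  refine HasCompactSupport.intro (isCompact_Icc (a := (1 / 2 : ℝ)) (b := 2)) fun v hv => ?_
  rw [Set.mem_Icc, not_and_or, not_le, not_le] at hv
  unfold gg
  rcases hv with h | h
  · rw [h0 v h.le, Complex.ofReal_zero, zero_mul]
  · rw [h2 v h.le, Complex.ofReal_zero, zero_mul]

private theorem gg_d1 (a : ℝ → ℝ) (ha : ContDiff ℝ (⊤ : ℕ∞) a)
    (u : ℝ → ℂ) (hu : ContDiff ℝ (⊤ : ℕ∞) u) (v : ℝ) (hv : 0 < v) :
    HasDerivAt (gg a u) (gg (deriv a) u v - gg (fun v => a v * v⁻¹) (deriv u) v) v := by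
  have h1 : HasDerivAt a (deriv a v) v :=
    (ha.differentiable (by simp) v).hasDerivAt
  have h2 : HasDerivAt u (deriv u (-Real.log v)) (-Real.log v) :=
    (hu.differentiable (by simp) _).hasDerivAt
  have h3 : HasDerivAt (fun v => -Real.log v) (-v⁻¹) v := (Real.hasDerivAt_log hv.ne').neg
  have h4 := h2.scomp v h3
  have h5 := h1.ofReal_comp.mul h4
  refine h5.congr_deriv ?_
  unfold gg
  simp only [Function.comp, Complex.real_smul]
  push_cast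
  ring

private theorem gg_d2 (a : ℝ → ℝ) (ha : ContDiff ℝ (⊤ : ℕ∞) a)
    (u : ℝ → ℂ) (hu : ContDiff ℝ (⊤ : ℕ∞) u) (v : ℝ) (hv : 0 < v) :
    iteratedDeriv 2 (gg a u) v =
      ((deriv (deriv a) v : ℝ) : ℂ) * u (-Real.log v) -
        2 * ((deriv a v * v⁻¹ : ℝ) : ℂ) * deriv u (-Real.log v) +
        ((a v * (v ^ 2)⁻¹ : ℝ) : ℂ) * (deriv u (-Real.log v) + deriv (deriv u) (-Real.log v)) := by
  have ha1 : ContDiff ℝ (⊤ : ℕ∞) (deriv a) := by
    have h := ha.iterate_deriv 1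
    simpa using h
  have hu1 : ContDiff ℝ (⊤ : ℕ∞) (deriv u) := by
    have h := hu.iterate_deriv 1
    simpa using h
  have e1 : deriv (gg a u) =ᶠ[nhds v]
      fun v => gg (deriv a) u v - ((v⁻¹ : ℝ) : ℂ) * gg a (deriv u) v := by
    filter_upwards [Ioi_mem_nhds hv] with w hw
    rw [(gg_d1 a ha u hu w hw).deriv]
    unfold gg
    push_cast
    ring
  rw [iteratedDeriv_succ, iteratedDeriv_one, e1.deriv_eq]
  have h1 := gg_d1 (deriv a) ha1 u hu v hv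
  have h2 := gg_d1 a ha (deriv u) hu1 v hv
  have h3 : HasDerivAt (fun v : ℝ => v⁻¹) (-(v ^ 2)⁻¹) v := hasDerivAt_inv hv.ne'
  have h4 := h1.sub (h3.ofReal_comp.mul h2)
  have h5 := h4.deriv
  refine Eq.trans ?_ (h5.trans ?_)
  · rfl
  · unfold gg
    have hv' : (v : ℂ) ≠ 0 := by exact_mod_cast hv.ne'
    push_cast
    field_simp
    ring

/-- the bound for the second derivative -/
private theorem gg_bd (a : ℝ → ℝ) (ha : ContDiff ℝ (⊤ : ℕ∞) a) (h0 : ∀ v, v ≤ 1 / 2 → a v = 0)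
    (h2 : ∀ v, 2 ≤ v → a v = 0) (u : ℝ → ℂ) (hu : ContDiff ℝ (⊤ : ℕ∞) u) (M : ℝ) (hM0 : 0 ≤ M)
    (hM : ∀ v, |a v| ≤ M ∧ |deriv a v| ≤ M ∧ |deriv (deriv a) v| ≤ M) (U T : ℝ) (hU0 : 0 ≤ U)
    (hT : 0 < T)
    (hU : ∀ x, ‖u x‖ + ‖deriv u x‖ + ‖deriv (deriv u) x‖ ≤ U * ((1 + T * |x|) ^ 2)⁻¹) (v : ℝ) :
    ‖iteratedDeriv 2 (gg a u) v‖ ≤ 8 * M * U * ((1 + T * (|v - 1| / 2)) ^ 2)⁻¹ := by
  have hR : 0 ≤ 8 * M * U * ((1 + T * (|v - 1| / 2)) ^ 2)⁻¹ := by positivity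
  rcases lt_or_ge v (1 / 2) with hv | hv
  · have e : gg a u =ᶠ[nhds v] fun _ => (0 : ℂ) := by
      filter_upwards [Iio_mem_nhds hv] with w hw
      unfold gg
      rw [h0 w (le_of_lt hw), Complex.ofReal_zero, zero_mul]
    rw [e.iteratedDeriv_eq 2]
    simpa using hR
  · rcases lt_or_ge 2 v with hv2 | hv2
    · have e : gg a u =ᶠ[nhds v] fun _ => (0 : ℂ) := by
        filter_upwards [Ioi_mem_nhds hv2] with w hw
        unfold gg
        rw [h2 w (le_of_lt hw), Complex.ofReal_zero, zero_mul]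
      rw [e.iteratedDeriv_eq 2]
      simpa using hR
    · have hvp : 0 < v := by linarith
      rw [gg_d2 a ha u hu v hvp]
      obtain ⟨m0, m1, m2⟩ := hM v
      have hinv : v⁻¹ ≤ 2 := by
        rw [inv_le_comm₀ hvp two_pos]
        linarith
      have hinv0 : 0 ≤ v⁻¹ := by positivity
      have hinv2 : (v ^ 2)⁻¹ ≤ 4 := by
        rw [← inv_pow]
        nlinarith
      have hinv20 : 0 ≤ (v ^ 2)⁻¹ := by positivity
      set x := -Real.log v with hx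
      have n0 : ‖((deriv (deriv a) v : ℝ) : ℂ) * u x‖ ≤ M * ‖u x‖ := by
        rw [norm_mul, Complex.norm_real, Real.norm_eq_abs]
        exact mul_le_mul_of_nonneg_right m2 (norm_nonneg _)
      have n1 : ‖2 * ((deriv a v * v⁻¹ : ℝ) : ℂ) * deriv u x‖ ≤ 4 * M * ‖deriv u x‖ := by
        rw [norm_mul, norm_mul, Complex.norm_real, Real.norm_eq_abs, abs_mul, abs_of_nonneg hinv0,
          Complex.norm_ofNat]
        refine mul_le_mul_of_nonneg_right ?_ (norm_nonneg _)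
        nlinarith [mul_le_mul m1 hinv hinv0 hM0]
      have n2 : ‖((a v * (v ^ 2)⁻¹ : ℝ) : ℂ) * (deriv u x + deriv (deriv u) x)‖ ≤
          4 * M * (‖deriv u x‖ + ‖deriv (deriv u) x‖) := by
        rw [norm_mul, Complex.norm_real, Real.norm_eq_abs, abs_mul, abs_of_nonneg hinv20]
        refine mul_le_mul ?_ (norm_add_le _ _) (norm_nonneg _) (by positivity)
        nlinarith [mul_le_mul m0 hinv2 hinv20 hM0]
      have hlog : |v - 1| / 2 ≤ |x| := by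
        rw [hx, abs_neg]
        rcases le_total 1 v with h1 | h1
        · rw [abs_of_nonneg (by linarith), abs_of_nonneg (Real.log_nonneg h1)]
          have h3 := Real.one_sub_inv_le_log_of_pos hvp
          have h4 : (v - 1) / 2 ≤ 1 - v⁻¹ := by
            have h5 : 1 - v⁻¹ = (v - 1) * v⁻¹ := by
              field_simp
            rw [h5]
            have h6 : 1 / 2 ≤ v⁻¹ := by
              rw [one_div]
              exact inv_anti₀ hvp hv2
            nlinarith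
          linarith
        · rw [abs_of_nonpos (by linarith), abs_of_nonpos (Real.log_nonpos hvp.le h1)]
          have h3 := Real.log_le_sub_one_of_pos hvp
          linarith
      have h6 : ((1 + T * |x|) ^ 2)⁻¹ ≤ ((1 + T * (|v - 1| / 2)) ^ 2)⁻¹ := by
        apply inv_anti₀ (by positivity)
        apply pow_le_pow_left₀ (by positivity)
        nlinarith
      have h7 := hU x
      have h8 : ‖((deriv (deriv a) v : ℝ) : ℂ) * u x -
          2 * ((deriv a v * v⁻¹ : ℝ) : ℂ) * deriv u x +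
          ((a v * (v ^ 2)⁻¹ : ℝ) : ℂ) * (deriv u x + deriv (deriv u) x)‖ ≤
          8 * M * (‖u x‖ + ‖deriv u x‖ + ‖deriv (deriv u) x‖) := by
        refine (norm_add_le _ _).trans ?_
        have := norm_sub_le (((deriv (deriv a) v : ℝ) : ℂ) * u x)
          (2 * ((deriv a v * v⁻¹ : ℝ) : ℂ) * deriv u x)
        have p0 : 0 ≤ M * ‖u x‖ := by positivity
        have p1 : 0 ≤ M * ‖deriv u x‖ := by positivity
        have p2 : 0 ≤ M * ‖deriv (deriv u) x‖ := by positivity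
        nlinarith
      refine h8.trans ?_
      calc 8 * M * (‖u x‖ + ‖deriv u x‖ + ‖deriv (deriv u) x‖)
          ≤ 8 * M * (U * ((1 + T * |x|) ^ 2)⁻¹) := by
            exact mul_le_mul_of_nonneg_left h7 (by positivity)
        _ ≤ 8 * M * (U * ((1 + T * (|v - 1| / 2)) ^ 2)⁻¹) := by
            apply mul_le_mul_of_nonneg_left _ (by positivity)
            exact mul_le_mul_of_nonneg_left h6 hU0
        _ = 8 * M * U * ((1 + T * (|v - 1| / 2)) ^ 2)⁻¹ := by ring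


/-! ### the weight and Poisson summation at scale `K` -/

private theorem w_int : Integrable (fun x : ℝ => ((1 + |x|) ^ 2)⁻¹) := by
  have h := integrable_one_add_norm (E := ℝ) (μ := volume) (r := 2) (by simp)
  refine h.congr (Filter.Eventually.of_forall fun x => ?_)
  show (1 + ‖x‖) ^ (-2 : ℝ) = ((1 + |x|) ^ 2)⁻¹
  rw [Real.norm_eq_abs, Real.rpow_neg (by positivity)]
  norm_num

private theorem w_eq (T : ℝ) (hT : 0 < T) (v : ℝ) :
    ((1 + T * (|v - 1| / 2)) ^ 2)⁻¹ = (fun x : ℝ => ((1 + |x|) ^ 2)⁻¹) (T / 2 * (v - 1)) := by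
  show _ = ((1 + |T / 2 * (v - 1)|) ^ 2)⁻¹
  rw [abs_mul, abs_of_pos (by positivity : (0 : ℝ) < T / 2)]
  congr 3
  ring

private theorem w_int2 (T : ℝ) (hT : 0 < T) :
    Integrable (fun v : ℝ => ((1 + T * (|v - 1| / 2)) ^ 2)⁻¹) := by
  have h1 := (w_int.comp_mul_left' (R := T / 2) (by positivity)).comp_sub_right 1
  refine h1.congr (Filter.Eventually.of_forall fun v => ?_)
  exact (w_eq T hT v).symm

private theorem w_val (T : ℝ) (hT : 0 < T) :
    ∫ v : ℝ, ((1 + T * (|v - 1| / 2)) ^ 2)⁻¹ = 2 / T * ∫ x : ℝ, ((1 + |x|) ^ 2)⁻¹ := by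
  have h1 : ∫ v : ℝ, ((1 + T * (|v - 1| / 2)) ^ 2)⁻¹ =
      ∫ v : ℝ, (fun x : ℝ => ((1 + |x|) ^ 2)⁻¹) (T / 2 * (v - 1)) :=
    integral_congr_ae (Filter.Eventually.of_forall fun v => w_eq T hT v)
  rw [h1, integral_sub_right_eq_self (fun v : ℝ => (fun x : ℝ => ((1 + |x|) ^ 2)⁻¹) (T / 2 * v)) 1,
    Measure.integral_comp_mul_left (fun x : ℝ => ((1 + |x|) ^ 2)⁻¹) (T / 2), smul_eq_mul,
    abs_of_pos (by positivity)]
  congr 1
  rw [inv_div]

private theorem poiK (g : ℝ → ℂ) (hg : ContDiff ℝ (⊤ : ℕ∞) g) (hc : HasCompactSupport g)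
    (W : ℝ → ℝ) (hW : Integrable W) (hb : ∀ v, ‖iteratedDeriv 2 g v‖ ≤ W v) (K : ℝ) (hK : 0 < K) :
    ‖(∑' m : ℤ, ((K⁻¹ : ℝ) : ℂ) * g (K⁻¹ * m)) - ∫ x, g x‖ ≤ (K ^ 2)⁻¹ * ∫ v, W v := by
  have hK' : K⁻¹ ≠ 0 := by positivity
  have h2top : (((2 : ℕ) : ℕ∞) : WithTop ℕ∞) ≤ ((⊤ : ℕ∞) : WithTop ℕ∞) := by exact_mod_cast le_top
  have hgl : ContDiff ℝ (⊤ : ℕ∞) (fun x : ℝ => g (K⁻¹ * x)) := hg.comp (by fun_prop)
  have hG : ContDiff ℝ (⊤ : ℕ∞) (fun x : ℝ => ((K⁻¹ : ℝ) : ℂ) * g (K⁻¹ * x)) :=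
    contDiff_const.mul hgl
  have hGc : HasCompactSupport (fun x : ℝ => ((K⁻¹ : ℝ) : ℂ) * g (K⁻¹ * x)) := by
    have h1 : HasCompactSupport (fun x : ℝ => g (K⁻¹ * x)) :=
      hc.comp_homeomorph (Homeomorph.mulLeft₀ K⁻¹ hK')
    exact h1.mul_left
  have hp := poi _ hG hGc 2 le_rfl
  have hint : ∫ x : ℝ, ((K⁻¹ : ℝ) : ℂ) * g (K⁻¹ * x) = ∫ x, g x := by
    rw [integral_const_mul, Measure.integral_comp_mul_left, inv_inv, abs_of_pos hK,
      Complex.real_smul, ← mul_assoc, ← Complex.ofReal_mul, inv_mul_cancel₀ hK.ne',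
      Complex.ofReal_one, one_mul]
  rw [hint] at hp
  refine hp.trans ?_
  have hid : ∀ x : ℝ, ‖iteratedDeriv 2 (fun x : ℝ => ((K⁻¹ : ℝ) : ℂ) * g (K⁻¹ * x)) x‖ ≤
      K⁻¹ ^ 3 * W (K⁻¹ * x) := by
    intro x
    rw [iteratedDeriv_const_mul _ (hgl.contDiffAt.of_le h2top),
      iteratedDeriv_comp_const_smul (hg.of_le h2top), norm_mul, norm_smul,
      Complex.norm_real, Real.norm_eq_abs, Real.norm_eq_abs, abs_of_pos (by positivity),
      abs_of_pos (by positivity)]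
    calc K⁻¹ * (K⁻¹ ^ 2 * ‖iteratedDeriv 2 g (K⁻¹ * x)‖)
        = K⁻¹ ^ 3 * ‖iteratedDeriv 2 g (K⁻¹ * x)‖ := by ring
      _ ≤ _ := mul_le_mul_of_nonneg_left (hb _) (by positivity)
  have hWi : Integrable (fun x : ℝ => K⁻¹ ^ 3 * W (K⁻¹ * x)) :=
    (hW.comp_mul_left' hK').const_mul _
  have h1 : ∫ x : ℝ, ‖iteratedDeriv 2 (fun x : ℝ => ((K⁻¹ : ℝ) : ℂ) * g (K⁻¹ * x)) x‖ ≤
      ∫ x : ℝ, K⁻¹ ^ 3 * W (K⁻¹ * x) :=
    integral_mono_of_nonneg (Filter.Eventually.of_forall fun _ => norm_nonneg _) hWi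
      (Filter.Eventually.of_forall hid)
  refine h1.trans (le_of_eq ?_)
  rw [integral_const_mul, Measure.integral_comp_mul_left, inv_inv, abs_of_pos hK, smul_eq_mul]
  field_simp

/-! ### the integral -/

private theorem swp (A k : ℝ → ℂ) (hA : Continuous A) (hk : Continuous k) (a b c d : ℝ) :
    ∫ w in a..b, A w * ∫ y in c..d, k y * cexp (I * ((-w : ℝ) : ℂ) * (y : ℂ)) =
      ∫ y in c..d, k y * ∫ w in a..b, A w * cexp (I * ((-y : ℝ) : ℂ) * (w : ℂ)) := by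
  have h1 : ∀ w : ℝ, A w * ∫ y in c..d, k y * cexp (I * ((-w : ℝ) : ℂ) * (y : ℂ)) =
      ∫ y in c..d, A w * (k y * cexp (I * ((-w : ℝ) : ℂ) * (y : ℂ))) := fun w =>
    (intervalIntegral.integral_const_mul _ _).symm
  have h2 : ∀ y : ℝ, k y * ∫ w in a..b, A w * cexp (I * ((-y : ℝ) : ℂ) * (w : ℂ)) =
      ∫ w in a..b, A w * (k y * cexp (I * ((-w : ℝ) : ℂ) * (y : ℂ))) := by
    intro y
    rw [← intervalIntegral.integral_const_mul]
    refine intervalIntegral.integral_congr fun w _ => ?_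
    have h3 : I * ((-y : ℝ) : ℂ) * (w : ℂ) = I * ((-w : ℝ) : ℂ) * (y : ℂ) := by
      push_cast
      ring
    rw [h3]
    ring
  simp_rw [h1, h2]
  apply intervalIntegral_intervalIntegral_swap
  have hcont : Continuous (Function.uncurry fun w y : ℝ =>
      A w * (k y * cexp (I * ((-w : ℝ) : ℂ) * (y : ℂ)))) := by
    unfold Function.uncurry
    fun_prop
  refine (hcont.continuousOn.integrableOn_compact
    ((isCompact_uIcc (a := a) (b := b)).prod (isCompact_uIcc (a := c) (b := d)))).mono_set ?_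
  exact Set.prod_mono Set.uIoc_subset_uIcc Set.uIoc_subset_uIcc

private theorem lemM (A : ℝ → ℝ) (hA : Continuous A) (h0 : ∀ w, 1 ≤ |w| → A w = 0) (T X : ℝ)
    (hT : 0 < T) (hL : Real.log T ^ 2 ≤ T / 2)
    (hX : ∀ ξ : ℝ, T / 2 ≤ |ξ| → ‖∫ u : ℝ, ((A u : ℝ) : ℂ) * cexp (I * (ξ : ℂ) * (u : ℂ))‖ ≤ X) :
    ‖∫ w : ℝ, ((A w : ℝ) : ℂ) * Uu T (-w)‖ ≤ T * (2 * Real.log T ^ 2 * X) := by
  have hL0 : 0 ≤ Real.log T ^ 2 := sq_nonneg _
  have hX0 : 0 ≤ X := (norm_nonneg _).trans (hX (T / 2) (le_abs_self _))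
  have hloc : ∀ f : ℝ → ℂ, ∫ w : ℝ, ((A w : ℝ) : ℂ) * f w = ∫ w in (-1 : ℝ)..1, ((A w : ℝ) : ℂ) * f w := by
    intro f
    rw [intervalIntegral.integral_eq_integral_of_support_subset]
    intro w hw
    rw [Function.mem_support] at hw
    by_contra hcon
    apply hw
    rw [h0 w ?_, Complex.ofReal_zero, zero_mul]
    rw [Set.mem_Ioc, not_and_or, not_lt, not_le] at hcon
    rcases hcon with h | h
    · rw [abs_of_neg (by linarith)]
      linarith
    · rw [abs_of_pos (by linarith)]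
      linarith
  have hAc : Continuous fun w : ℝ => ((A w : ℝ) : ℂ) := Complex.continuous_ofReal.comp hA
  have hkc : Continuous (kk 0) := by
    unfold kk
    fun_prop
  have hph : Continuous fun t0 : ℝ => ((ph (t0 / T) : ℝ) : ℂ) :=
    Complex.continuous_ofReal.comp (ph_contDiff.continuous.comp (by fun_prop))
  have hPc : Continuous fun w : ℝ => ∫ y in (-(Real.log T) ^ 2)..((Real.log T) ^ 2),
      kk 0 y * cexp (I * ((-w : ℝ) : ℂ) * (y : ℂ)) := by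
    apply intervalIntegral.continuous_parametric_intervalIntegral_of_continuous'
    unfold Function.uncurry
    fun_prop
  rw [hloc]
  have e1 : ∫ w in (-1 : ℝ)..1, ((A w : ℝ) : ℂ) * Uu T (-w) =
      ∫ w in (-1 : ℝ)..1, (((A w : ℝ) : ℂ) * ∫ y in (-(Real.log T) ^ 2)..((Real.log T) ^ 2),
        kk 0 y * cexp (I * ((-w : ℝ) : ℂ) * (y : ℂ))) *
        ∫ t0 in T..(2 * T), ((ph (t0 / T) : ℝ) : ℂ) * cexp (I * ((-w : ℝ) : ℂ) * (t0 : ℂ)) := by
    refine intervalIntegral.integral_congr fun w _ => ?_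
    unfold Uu
    rw [mul_assoc]
  have hAP : Continuous fun w : ℝ => ((A w : ℝ) : ℂ) * ∫ y in (-(Real.log T) ^ 2)..((Real.log T) ^ 2),
      kk 0 y * cexp (I * ((-w : ℝ) : ℂ) * (y : ℂ)) := hAc.mul hPc
  rw [e1, swp _ _ hAP hph]
  have hin : ∀ t0 : ℝ, T ≤ t0 →
      ‖∫ w in (-1 : ℝ)..1, (((A w : ℝ) : ℂ) * ∫ y in (-(Real.log T) ^ 2)..((Real.log T) ^ 2),
        kk 0 y * cexp (I * ((-w : ℝ) : ℂ) * (y : ℂ))) * cexp (I * ((-t0 : ℝ) : ℂ) * (w : ℂ))‖ ≤
      2 * Real.log T ^ 2 * X := by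
    intro t0 ht0
    have e2 : ∫ w in (-1 : ℝ)..1, (((A w : ℝ) : ℂ) * ∫ y in (-(Real.log T) ^ 2)..((Real.log T) ^ 2),
        kk 0 y * cexp (I * ((-w : ℝ) : ℂ) * (y : ℂ))) * cexp (I * ((-t0 : ℝ) : ℂ) * (w : ℂ)) =
        ∫ w in (-1 : ℝ)..1, (((A w : ℝ) : ℂ) * cexp (I * ((-t0 : ℝ) : ℂ) * (w : ℂ))) *
          ∫ y in (-(Real.log T) ^ 2)..((Real.log T) ^ 2),
        kk 0 y * cexp (I * ((-w : ℝ) : ℂ) * (y : ℂ)) := by
      refine intervalIntegral.integral_congr fun w _ => ?_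
      ring
    have hAE : Continuous fun w : ℝ => ((A w : ℝ) : ℂ) * cexp (I * ((-t0 : ℝ) : ℂ) * (w : ℂ)) :=
      hAc.mul (by fun_prop)
    rw [e2, swp _ _ hAE hkc]
    have hb : ∀ y ∈ Set.uIoc (-(Real.log T) ^ 2) ((Real.log T) ^ 2),
        ‖kk 0 y * ∫ w in (-1 : ℝ)..1, (((A w : ℝ) : ℂ) * cexp (I * ((-t0 : ℝ) : ℂ) * (w : ℂ))) *
          cexp (I * ((-y : ℝ) : ℂ) * (w : ℂ))‖ ≤ X := by
      intro y hy
      rw [Set.uIoc_of_le (by linarith), Set.mem_Ioc] at hy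
      have e3 : ∫ w in (-1 : ℝ)..1, (((A w : ℝ) : ℂ) * cexp (I * ((-t0 : ℝ) : ℂ) * (w : ℂ))) *
          cexp (I * ((-y : ℝ) : ℂ) * (w : ℂ)) =
          ∫ w : ℝ, ((A w : ℝ) : ℂ) * cexp (I * ((-(t0 + y) : ℝ) : ℂ) * (w : ℂ)) := by
        rw [hloc fun w => cexp (I * ((-(t0 + y) : ℝ) : ℂ) * (w : ℂ))]
        refine intervalIntegral.integral_congr fun w _ => ?_
        rw [mul_assoc, ← Complex.exp_add]
        congr 2
        push_cast
        ring
      rw [e3, norm_mul]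
      have h1 := hX (-(t0 + y)) (by
        rw [abs_neg]
        refine le_trans ?_ (le_abs_self _)
        linarith [hy.1])
      have h2 : ‖kk 0 y‖ ≤ 1 := by
        rw [kk_norm]
        apply Real.exp_le_one_iff.mpr
        nlinarith [sq_nonneg y]
      calc _ ≤ 1 * X := mul_le_mul h2 h1 (norm_nonneg _) zero_le_one
        _ = X := one_mul _
    have h3 := intervalIntegral.norm_integral_le_of_norm_le_const hb
    refine h3.trans (le_of_eq ?_)
    rw [abs_of_nonneg (by linarith)]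
    ring
  have hb : ∀ t0 ∈ Set.uIoc T (2 * T), ‖((ph (t0 / T) : ℝ) : ℂ) * ∫ w in (-1 : ℝ)..1,
      (((A w : ℝ) : ℂ) * ∫ y in (-(Real.log T) ^ 2)..((Real.log T) ^ 2),
        kk 0 y * cexp (I * ((-w : ℝ) : ℂ) * (y : ℂ))) * cexp (I * ((-t0 : ℝ) : ℂ) * (w : ℂ))‖ ≤
      2 * Real.log T ^ 2 * X := by
    intro t0 ht0
    rw [Set.uIoc_of_le (by linarith), Set.mem_Ioc] at ht0
    rw [norm_mul, Complex.norm_real, Real.norm_eq_abs, abs_of_nonneg (ph_nonneg _)]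
    calc _ ≤ 1 * (2 * Real.log T ^ 2 * X) :=
          mul_le_mul (ph_le _) (hin t0 ht0.1.le) (norm_nonneg _) zero_le_one
      _ = _ := one_mul _
  have h3 := intervalIntegral.norm_integral_le_of_norm_le_const hb
  refine h3.trans (le_of_eq ?_)
  rw [abs_of_nonneg (by linarith)]
  ring

/-- substitution `v = e^w` -/
private theorem sube (g : ℝ → ℂ) (h0 : ∀ v, v ≤ 1 / 2 → g v = 0) :
    ∫ v : ℝ, g v = ∫ w : ℝ, ((Real.exp w : ℝ) : ℂ) * g (Real.exp w) := by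
  have h1 : ∫ v in Set.Ioi (0 : ℝ), g v = ∫ v : ℝ, g v := by
    apply setIntegral_eq_integral_of_forall_compl_eq_zero
    intro v hv
    rw [Set.mem_Ioi, not_lt] at hv
    exact h0 v (by linarith)
  rw [← h1, ← Real.range_exp, ← Set.image_univ,
    integral_image_eq_integral_abs_deriv_smul MeasurableSet.univ
      (fun x _ => (Real.hasDerivAt_exp x).hasDerivWithinAt) Real.exp_injective.injOn,
    Measure.restrict_univ]
  refine integral_congr_ae (Filter.Eventually.of_forall fun w => ?_)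
  simp only
  rw [abs_of_pos (Real.exp_pos w), Complex.real_smul]


/-! ### assembly -/

private theorem trm (K : ℝ) (hK : 0 < K) (m : ℝ) (hm : 0 < m) (u : ℝ → ℂ) :
    ((K⁻¹ : ℝ) : ℂ) * gg (fun v => Real.log K * zb v + zl v) u (K⁻¹ * m) =
      ((Real.log m * zc (K⁻¹ * m) / (Real.sqrt m * Real.sqrt K) : ℝ) : ℂ) *
        u (Real.log K - Real.log m) := by
  have hKm : 0 < K⁻¹ * m := by positivity
  have h1 : -Real.log (K⁻¹ * m) = Real.log K - Real.log m := by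
    rw [Real.log_mul (by positivity) hm.ne', Real.log_inv]
    ring
  have h2 : Real.log (K⁻¹ * m) = Real.log m - Real.log K := by linarith
  have hsK : 0 < Real.sqrt K := Real.sqrt_pos.mpr hK
  have hsm : 0 < Real.sqrt m := Real.sqrt_pos.mpr hm
  unfold gg
  rw [h1, ← mul_assoc, ← Complex.ofReal_mul]
  congr 2
  simp only
  unfold zb zl
  rw [h2, Real.sqrt_mul (by positivity), Real.sqrt_inv]
  have hKK : K = Real.sqrt K * Real.sqrt K := (Real.mul_self_sqrt hK.le).symm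
  have h3 : K⁻¹ = (Real.sqrt K)⁻¹ * (Real.sqrt K)⁻¹ := by
    rw [← mul_inv, ← hKK]
  have h4 : K⁻¹ * (Real.log K * (zc (K⁻¹ * m) * ((Real.sqrt K)⁻¹ * Real.sqrt m)⁻¹) +
      zc (K⁻¹ * m) * (((Real.sqrt K)⁻¹ * Real.sqrt m)⁻¹ * (Real.log m - Real.log K))) =
      zc (K⁻¹ * m) * Real.log m * (K⁻¹ * ((Real.sqrt K)⁻¹ * Real.sqrt m)⁻¹) := by ring
  rw [h4]
  have h5 : K⁻¹ * ((Real.sqrt K)⁻¹ * Real.sqrt m)⁻¹ = (Real.sqrt m * Real.sqrt K)⁻¹ := by
    rw [h3]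
    field_simp
  rw [h5]
  ring

private noncomputable def eb (w : ℝ) : ℝ := Real.exp w * zb (Real.exp w)

private noncomputable def el (w : ℝ) : ℝ := Real.exp w * zl (Real.exp w)

private theorem eb_cd : ContDiff ℝ (⊤ : ℕ∞) eb := Real.contDiff_exp.mul (zb_cd.comp Real.contDiff_exp)

private theorem el_cd : ContDiff ℝ (⊤ : ℕ∞) el := Real.contDiff_exp.mul (zl_cd.comp Real.contDiff_exp)

private theorem exp_out {w : ℝ} (hw : 1 ≤ |w|) : Real.exp w ≤ 1 / 2 ∨ 2 ≤ Real.exp w := by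
  rcases le_abs.mp hw with h | h
  · right
    have := Real.add_one_le_exp w
    linarith
  · left
    have h1 := Real.add_one_le_exp (-w)
    have h2 : 2 ≤ Real.exp (-w) := by linarith
    rw [Real.exp_neg] at h2
    have h3 := Real.exp_pos w
    rw [le_inv_comm₀ two_pos h3] at h2
    linarith

private theorem eb_out {w : ℝ} (hw : 1 ≤ |w|) : eb w = 0 := by
  unfold eb
  rcases exp_out hw with h | h
  · rw [zb_lo h, mul_zero]
  · rw [zb_hi h, mul_zero]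

private theorem el_out {w : ℝ} (hw : 1 ≤ |w|) : el w = 0 := by
  unfold el
  rcases exp_out hw with h | h
  · rw [zl_lo h, mul_zero]
  · rw [zl_hi h, mul_zero]

private theorem out_cs {f : ℝ → ℝ} (h : ∀ w : ℝ, 1 ≤ |w| → f w = 0) : HasCompactSupport f := by
  refine HasCompactSupport.intro (isCompact_Icc (a := (-1 : ℝ)) (b := 1)) fun v hv => ?_
  apply h
  rw [Set.mem_Icc, not_and_or, not_le, not_le] at hv
  rcases hv with h | h
  · rw [abs_of_neg (by linarith)]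
    linarith
  · rw [abs_of_pos (by linarith)]
    linarith

private theorem intX (l T Fb Fc : ℝ) (hl : 0 ≤ l) (hT : 0 < T)
    (hFb0 : 0 < Fb) (hFc0 : 0 < Fc)
    (hFb : ∀ ξ : ℝ, ‖∫ u : ℝ, ((eb u : ℝ) : ℂ) * cexp (I * (ξ : ℂ) * (u : ℂ))‖ ≤ Fb * (1 + |ξ|) ^ (-((40 : ℕ) : ℝ)))
    (hFc : ∀ ξ : ℝ, ‖∫ u : ℝ, ((el u : ℝ) : ℂ) * cexp (I * (ξ : ℂ) * (u : ℂ))‖ ≤ Fc * (1 + |ξ|) ^ (-((40 : ℕ) : ℝ)))
    (ξ : ℝ) (hξ : T / 2 ≤ |ξ|) :
    ‖∫ u : ℝ, ((l * eb u + el u : ℝ) : ℂ) * cexp (I * (ξ : ℂ) * (u : ℂ))‖ ≤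
      (l * Fb + Fc) * (2 ^ 40 * (T ^ 40)⁻¹) := by
  have hi : ∀ f : ℝ → ℝ, Continuous f → (∀ w : ℝ, 1 ≤ |w| → f w = 0) →
      Integrable fun u : ℝ => ((f u : ℝ) : ℂ) * cexp (I * (ξ : ℂ) * (u : ℂ)) := by
    intro f hf h0
    apply Continuous.integrable_of_hasCompactSupport
    · exact (Complex.continuous_ofReal.comp hf).mul (by fun_prop)
    · have h1 := out_cs h0
      have h2 : HasCompactSupport fun u : ℝ => ((f u : ℝ) : ℂ) :=
        h1.comp_left (g := fun x : ℝ => (x : ℂ)) Complex.ofReal_zero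
      exact h2.mul_right
  have i1 := hi eb eb_cd.continuous fun w hw => eb_out hw
  have i2 := hi el el_cd.continuous fun w hw => el_out hw
  have e : ∫ u : ℝ, ((l * eb u + el u : ℝ) : ℂ) * cexp (I * (ξ : ℂ) * (u : ℂ)) =
      (l : ℂ) * (∫ u : ℝ, ((eb u : ℝ) : ℂ) * cexp (I * (ξ : ℂ) * (u : ℂ))) +
        ∫ u : ℝ, ((el u : ℝ) : ℂ) * cexp (I * (ξ : ℂ) * (u : ℂ)) := by
    rw [← integral_const_mul, ← integral_add (i1.const_mul _) i2]
    refine integral_congr_ae (Filter.Eventually.of_forall fun u => ?_)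
    simp only
    push_cast
    ring
  have hp : (1 + |ξ|) ^ (-((40 : ℕ) : ℝ)) ≤ 2 ^ 40 * (T ^ 40)⁻¹ := by
    rw [Real.rpow_neg (by positivity), Real.rpow_natCast]
    have h1 : (T / 2) ^ 40 ≤ (1 + |ξ|) ^ 40 := by
      apply pow_le_pow_left₀ (by positivity)
      linarith
    have h2 : ((1 + |ξ|) ^ 40)⁻¹ ≤ ((T / 2) ^ 40)⁻¹ := inv_anti₀ (by positivity) h1
    refine h2.trans (le_of_eq ?_)
    rw [div_pow, inv_div]
    rfl
  rw [e]
  refine (norm_add_le _ _).trans ?_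
  rw [norm_mul, Complex.norm_real, Real.norm_eq_abs, abs_of_nonneg hl]
  have h1 := (hFb ξ).trans (mul_le_mul_of_nonneg_left hp hFb0.le)
  have h2 := (hFc ξ).trans (mul_le_mul_of_nonneg_left hp hFc0.le)
  have h3 := mul_le_mul_of_nonneg_left h1 hl
  nlinarith

private theorem tail1 (K : ℝ) (hK : 0 < K) (m : ℝ) (hm : 0 < m)
    (h : K⁻¹ * m < 3 / 4 ∨ 3 / 2 < K⁻¹ * m) : 1 / 4 ≤ |Real.log K - Real.log m| := by
  have hKm : 0 < K⁻¹ * m := by positivity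
  have h1 : Real.log K - Real.log m = -Real.log (K⁻¹ * m) := by
    rw [Real.log_mul (by positivity) hm.ne', Real.log_inv]
    ring
  rw [h1, abs_neg]
  rcases h with h | h
  · have h3 := Real.log_le_sub_one_of_pos hKm
    rw [abs_of_neg (by linarith)]
    linarith
  · have h3 := Real.one_sub_inv_le_log_of_pos hKm
    have h4 : (K⁻¹ * m)⁻¹ ≤ (3 / 2)⁻¹ := inv_anti₀ (by norm_num) h.le
    have h5 : ((3 : ℝ) / 2)⁻¹ = 2 / 3 := by norm_num
    rw [h5] at h4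
    refine le_trans ?_ (le_abs_self _)
    linarith


private theorem st_eq (T : ℝ) (hT : 10 ≤ T) (K : ℝ) (hK : 0 < K) (hK5 : K ≤ T ^ 5) (m : ℝ)
    (hm : 1 ≤ m) (h : K⁻¹ * m ≤ 3 / 2) : st 6 1 (Real.log m / Real.log T) = 1 := by
  have hL : 0 < Real.log T := Real.log_pos (by linarith)
  apply st_one one_pos
  rw [div_le_iff₀ hL]
  have h1 : m ≤ 3 / 2 * K := by
    have h2 : K * (K⁻¹ * m) ≤ K * (3 / 2) := mul_le_mul_of_nonneg_left h hK.le
    rw [← mul_assoc, mul_inv_cancel₀ hK.ne', one_mul] at h2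
    linarith
  have h3 : m ≤ T ^ 6 := by
    have h4 : (0 : ℝ) < T ^ 5 := by positivity
    have h5 : T ^ 6 = T ^ 5 * T := by ring
    rw [h5]
    nlinarith
  have h6 : Real.log m ≤ Real.log (T ^ 6) := Real.log_le_log (by linarith) h3
  rw [Real.log_pow] at h6
  push_cast at h6
  exact h6

private theorem dlin (l : ℝ) (M N : ℝ) (hl : 0 ≤ l) (p q : ℝ → ℝ) (hp : ContDiff ℝ (⊤ : ℕ∞) p)
    (hq : ContDiff ℝ (⊤ : ℕ∞) q)
    (hM : ∀ v, |p v| ≤ M ∧ |deriv p v| ≤ M ∧ |deriv (deriv p) v| ≤ M)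
    (hN : ∀ v, |q v| ≤ N ∧ |deriv q v| ≤ N ∧ |deriv (deriv q) v| ≤ N) (v : ℝ) :
    |(fun v => l * p v + q v) v| ≤ l * M + N ∧ |deriv (fun v => l * p v + q v) v| ≤ l * M + N ∧
      |deriv (deriv (fun v => l * p v + q v)) v| ≤ l * M + N := by
  have hp1 : ContDiff ℝ (⊤ : ℕ∞) (deriv p) := by
    have h := hp.iterate_deriv 1
    simpa using h
  have hq1 : ContDiff ℝ (⊤ : ℕ∞) (deriv q) := by
    have h := hq.iterate_deriv 1
    simpa using h
  have key : ∀ f g : ℝ → ℝ, ContDiff ℝ (⊤ : ℕ∞) f → ContDiff ℝ (⊤ : ℕ∞) g →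
      deriv (fun v => l * f v + g v) = fun v => l * deriv f v + deriv g v := by
    intro f g hf hg
    funext w
    exact ((((hf.differentiable (by simp) w).hasDerivAt).const_mul l).add
      ((hg.differentiable (by simp) w).hasDerivAt)).deriv
  have bd : ∀ x y : ℝ, |x| ≤ M → |y| ≤ N → |l * x + y| ≤ l * M + N := by
    intro x y hx hy
    refine (abs_add_le _ _).trans ?_
    rw [abs_mul, abs_of_nonneg hl]
    exact add_le_add (mul_le_mul_of_nonneg_left hx hl) hy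
  obtain ⟨a0, a1, a2⟩ := hM v
  obtain ⟨b0, b1, b2⟩ := hN v
  rw [key p q hp hq, key (deriv p) (deriv q) hp1 hq1]
  exact ⟨bd _ _ a0 b0, bd _ _ a1 b1, bd _ _ a2 b2⟩

private theorem tsm (K : ℝ) (hK : 0 < K) (N : ℕ) (hN : 2 * K ≤ N) (u : ℝ → ℂ) :
    ∑' m : ℤ, ((K⁻¹ : ℝ) : ℂ) * gg (fun v => Real.log K * zb v + zl v) u (K⁻¹ * (m : ℝ)) =
      ∑ m ∈ Icc 1 N, ((Real.log m * zc (K⁻¹ * m) / (Real.sqrt m * Real.sqrt K) : ℝ) : ℂ) *
        u (Real.log K - Real.log m) := by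
  have hz : ∀ m : ℤ, m ∉ (Icc 1 N).map (Nat.castEmbedding (R := ℤ)) →
      ((K⁻¹ : ℝ) : ℂ) * gg (fun v => Real.log K * zb v + zl v) u (K⁻¹ * (m : ℝ)) = 0 := by
    intro m hm
    have h1 : K⁻¹ * (m : ℝ) ≤ 1 / 2 ∨ 2 ≤ K⁻¹ * (m : ℝ) := by
      by_contra hcon
      push Not at hcon
      apply hm
      have h2 : (0 : ℝ) < m := by
        by_contra hneg
        push Not at hneg
        have : K⁻¹ * (m : ℝ) ≤ 0 := mul_nonpos_of_nonneg_of_nonpos (by positivity) hneg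
        linarith [hcon.1]
      have h3 : 0 < m := by exact_mod_cast h2
      have h4 : (m : ℝ) < 2 * K := by
        have h5 : K * (K⁻¹ * (m : ℝ)) < K * 2 := mul_lt_mul_of_pos_left hcon.2 hK
        rw [← mul_assoc, mul_inv_cancel₀ hK.ne', one_mul] at h5
        linarith
      rw [mem_map]
      refine ⟨m.toNat, ?_, ?_⟩
      · rw [mem_Icc]
        refine ⟨by omega, ?_⟩
        have h6 : ((m.toNat : ℤ) : ℝ) = (m : ℝ) := by
          rw [Int.toNat_of_nonneg h3.le]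
        have h7 : (m.toNat : ℝ) = (m : ℝ) := by exact_mod_cast h6
        have h8 : (m.toNat : ℝ) ≤ N := by linarith
        exact_mod_cast h8
      · show ((m.toNat : ℕ) : ℤ) = m
        exact Int.toNat_of_nonneg h3.le
    unfold gg
    rcases h1 with h | h
    · simp only [zb_lo h, zl_lo h, mul_zero, add_zero, Complex.ofReal_zero, zero_mul]
    · simp only [zb_hi h, zl_hi h, mul_zero, add_zero, Complex.ofReal_zero, zero_mul]
  rw [tsum_eq_sum (fun m hm => hz m hm), sum_map]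
  refine sum_congr rfl fun m hm => ?_
  rw [mem_Icc] at hm
  have h1 : (0 : ℝ) < m := by exact_mod_cast hm.1
  rw [← trm K hK m h1 u]
  simp [Nat.castEmbedding]



private theorem num2 (T C4 N : ℝ) (hT : 10 ≤ T) (hC : 0 < C4) (hN : N ≤ 2 * T ^ 7)
    (t4 : 4 ^ 41 * C4 ≤ T) : N * (2 * T ^ 7 * (C4 * T * (4 ^ 40 * (T ^ 40)⁻¹))) ≤ (T ^ 20)⁻¹ := by
  have hT0 : 0 < T := by linarith
  have h1 : N * (2 * T ^ 7 * (C4 * T * (4 ^ 40 * (T ^ 40)⁻¹))) ≤
      2 * T ^ 7 * (2 * T ^ 7 * (C4 * T * (4 ^ 40 * (T ^ 40)⁻¹))) :=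
    mul_le_mul_of_nonneg_right hN (by positivity)
  have h2 : 2 * T ^ 7 * (2 * T ^ 7 * (C4 * T * (4 ^ 40 * (T ^ 40)⁻¹))) =
      (4 ^ 41 * C4) * (T ^ 15 * (T ^ 40)⁻¹) := by ring
  have h3 : (4 ^ 41 * C4) * (T ^ 15 * (T ^ 40)⁻¹) ≤ T * (T ^ 15 * (T ^ 40)⁻¹) :=
    mul_le_mul_of_nonneg_right t4 (by positivity)
  have h4 : T * (T ^ 15 * (T ^ 40)⁻¹) ≤ (T ^ 20)⁻¹ := by
    have h5 : T * (T ^ 15 * (T ^ 40)⁻¹) = (T ^ 24)⁻¹ := by
      field_simp
    rw [h5]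
    apply inv_anti₀ (by positivity)
    exact pow_le_pow_right₀ (by linarith) (by norm_num)
  linarith

private theorem num4 (T L l Fb Fc : ℝ) (hT : 10 ≤ T) (hL0 : 0 ≤ L) (hLT : L ≤ T) (hl0 : 0 ≤ l)
    (hl : l ≤ 5 * L) (hb : 0 < Fb) (hc : 0 < Fc) (t5 : 2 ^ 41 * (5 * Fb + Fc) ≤ T) :
    T * (2 * L ^ 2 * ((l * Fb + Fc) * (2 ^ 40 * (T ^ 40)⁻¹))) ≤ (T ^ 20)⁻¹ := by
  have hT0 : 0 < T := by linarith
  have h0 : l * Fb + Fc ≤ T * (5 * Fb + Fc) := by
    have k1 : l * Fb ≤ 5 * T * Fb := by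
      apply mul_le_mul_of_nonneg_right _ hb.le
      linarith
    nlinarith
  have h00 : 0 ≤ l * Fb + Fc := by positivity
  have hL2 : L ^ 2 ≤ T ^ 2 := pow_le_pow_left₀ hL0 hLT 2
  have h1 : T * (2 * L ^ 2 * ((l * Fb + Fc) * (2 ^ 40 * (T ^ 40)⁻¹))) ≤
      T * (2 * T ^ 2 * ((T * (5 * Fb + Fc)) * (2 ^ 40 * (T ^ 40)⁻¹))) := by
    apply mul_le_mul_of_nonneg_left _ hT0.le
    apply mul_le_mul (by linarith) _ (by positivity) (by positivity)
    exact mul_le_mul_of_nonneg_right h0 (by positivity)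
  have h2 : T * (2 * T ^ 2 * ((T * (5 * Fb + Fc)) * (2 ^ 40 * (T ^ 40)⁻¹))) =
      (2 ^ 41 * (5 * Fb + Fc)) * (T ^ 4 * (T ^ 40)⁻¹) := by ring
  have h3 : (2 ^ 41 * (5 * Fb + Fc)) * (T ^ 4 * (T ^ 40)⁻¹) ≤ T * (T ^ 4 * (T ^ 40)⁻¹) :=
    mul_le_mul_of_nonneg_right t5 (by positivity)
  have h4 : T * (T ^ 4 * (T ^ 40)⁻¹) ≤ (T ^ 20)⁻¹ := by
    have h5 : T * (T ^ 4 * (T ^ 40)⁻¹) = (T ^ 35)⁻¹ := by
      field_simp
    rw [h5]
    apply inv_anti₀ (by positivity)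
    exact pow_le_pow_right₀ (by linarith) (by norm_num)
  linarith

private theorem num3 (T : ℝ) (hT : 10 ≤ T) : 3 * (T ^ 20)⁻¹ ≤ (T ^ 10)⁻¹ := by
  have hT0 : 0 < T := by linarith
  have h1 : (T ^ 20)⁻¹ = (T ^ 10)⁻¹ * (T ^ 10)⁻¹ := by
    rw [← mul_inv]
    congr 1
    ring
  have h2 : (T ^ 10)⁻¹ ≤ 1 / 3 := by
    rw [one_div]
    apply inv_anti₀ (by norm_num)
    calc (3 : ℝ) ≤ T := by linarith
      _ = T ^ 1 := (pow_one T).symm
      _ ≤ T ^ 10 := pow_le_pow_right₀ (by linarith) (by norm_num)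
  have h3 : 0 < (T ^ 10)⁻¹ := by positivity
  rw [h1]
  nlinarith

private theorem num1 (T K L M C2 I0 : ℝ) (hT : 0 < T) (hK : 0 < K) :
    (K ^ 2)⁻¹ * (8 * (L * M) * (3 * C2 * T ^ 3) * (2 / T * I0)) =
      48 * M * C2 * I0 * L * (T / K) ^ 2 := by
  field_simp
  ring

private theorem num5 (C L x : ℝ) (hL : 0 ≤ L) : C * L * x ^ 2 ≤ (C + 1) * L * x ^ 2 := by
  have h1 : 0 ≤ L * x ^ 2 := by positivity
  nlinarith

private theorem num6 (z p q r s : ℂ) (hz : z = p - q - r - s) : ‖z‖ ≤ ‖p‖ + ‖q‖ + ‖r‖ + ‖s‖ := by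
  have h1 := norm_sub_le (p - q - r) s
  have h2 := norm_sub_le (p - q) r
  have h3 := norm_sub_le p q
  rw [hz]
  linarith

private theorem num7 (T K N : ℝ) (hT : 10 ≤ T) (hK : K ≤ T ^ 5) (hN : T ^ 7 ≤ N) : 2 * K ≤ N := by
  have h1 : T ^ 7 = T ^ 5 * T ^ 2 := by ring
  have h2 : (2 : ℝ) ≤ T ^ 2 := by nlinarith
  have h3 : (0 : ℝ) < T ^ 5 := by positivity
  have h4 : T ^ 5 * 2 ≤ T ^ 5 * T ^ 2 := mul_le_mul_of_nonneg_left h2 h3.le
  linarith

theorem zk3 : ∃ C T0 : ℝ, 0 < C ∧ 10 ≤ T0 ∧ ∀ T : ℝ, T0 ≤ T → ∀ K : ℕ, T ≤ (K : ℝ) → (K : ℝ) ≤ T ^ (5 : ℝ) →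
    ‖Zt T K‖ ≤ C * Real.log T * (T / K) ^ 2 + T ^ (-(10 : ℝ)) := by
  obtain ⟨T1, hT1, hz⟩ := zrp
  obtain ⟨Mb, hMb0, hMb⟩ := bdd3 zb zb_cd (fun v h => zb_lo h) (fun v h => zb_hi h)
  obtain ⟨Mc, hMc0, hMc⟩ := bdd3 zl zl_cd (fun v h => zl_lo h) (fun v h => zl_hi h)
  obtain ⟨C2, hC20, hC2⟩ := uu_dec 2
  obtain ⟨C4, hC40, hC4⟩ := uu_dec 40
  obtain ⟨Fb, hFb0, hFb⟩ := fdc eb eb_cd (out_cs fun w hw => eb_out hw) 40
  obtain ⟨Fc, hFc0, hFc⟩ := fdc el el_cd (out_cs fun w hw => el_out hw) 40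
  set I0 := ∫ x : ℝ, ((1 + |x|) ^ 2)⁻¹ with hI0
  have hI0n : 0 ≤ I0 := integral_nonneg fun x => by positivity
  obtain ⟨T2, hT2⟩ : ∃ T2 : ℝ, ∀ T : ℝ, T2 ≤ T → Real.log T ^ 2 ≤ 1 / 2 * |T| := by
    have h1 := (Asymptotics.isLittleO_iff.mp (Real.isLittleO_pow_log_id_atTop (n := 2))
      (show (0 : ℝ) < 1 / 2 by norm_num))
    obtain ⟨T2, h2⟩ := Filter.eventually_atTop.mp h1
    refine ⟨T2, fun T hT => ?_⟩
    have h3 := h2 T hT
    rw [Real.norm_eq_abs, Real.norm_eq_abs, abs_of_nonneg (sq_nonneg _)] at h3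
    exact h3
  refine ⟨48 * (5 * Mb + Mc) * C2 * I0 + 1,
    |T1| + |T2| + 10 + 4 ^ 41 * C4 + 2 ^ 41 * (5 * Fb + Fc), by positivity, ?_, ?_⟩
  · have h1 : 0 ≤ |T1| + |T2| + 4 ^ 41 * C4 + 2 ^ 41 * (5 * Fb + Fc) := by positivity
    linarith
  intro T hT K hK1 hK5
  have g1 : 0 ≤ |T1| := abs_nonneg _
  have g2 : 0 ≤ |T2| := abs_nonneg _
  have g3 : 0 ≤ 4 ^ 41 * C4 := by positivity
  have g4 : 0 ≤ 2 ^ 41 * (5 * Fb + Fc) := by positivity
  have t1 : T1 ≤ T := by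
    have := le_abs_self T1
    linarith
  have t2 : T2 ≤ T := by
    have := le_abs_self T2
    linarith
  have t10 : 10 ≤ T := by linarith
  have t4 : 4 ^ 41 * C4 ≤ T := by linarith
  have t5 : 2 ^ 41 * (5 * Fb + Fc) ≤ T := by linarith
  have hT0 : 0 < T := by linarith
  have hK0 : (0 : ℝ) < K := by linarith
  have hK1' : (1 : ℝ) ≤ K := by linarith
  have hK5' : (K : ℝ) ≤ T ^ 5 := by
    refine hK5.trans (le_of_eq ?_)
    exact_mod_cast Real.rpow_natCast T 5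
  set L := Real.log T with hLdef
  have hL1 : 1 ≤ L := by
    rw [hLdef, Real.le_log_iff_exp_le hT0]
    have := Real.exp_one_lt_d9
    linarith
  have hLT : L ≤ T := by
    have := Real.log_le_sub_one_of_pos hT0
    linarith
  have hLsq : L ^ 2 ≤ T / 2 := by
    have h := hT2 T t2
    rw [abs_of_pos hT0] at h
    linarith
  have hlK0 : 0 ≤ Real.log (K : ℝ) := Real.log_nonneg hK1'
  have hlK : Real.log (K : ℝ) ≤ 5 * L := by
    have h := Real.log_le_log hK0 hK5'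
    rw [Real.log_pow] at h
    push_cast at h
    exact h
  -- the function `a`
  set a : ℝ → ℝ := fun v => Real.log K * zb v + zl v with ha_def
  have ha : ContDiff ℝ (⊤ : ℕ∞) a := (contDiff_const.mul zb_cd).add zl_cd
  have ha0 : ∀ v, v ≤ 1 / 2 → a v = 0 := fun v hv => by
    simp only [ha_def, zb_lo hv, zl_lo hv, mul_zero, add_zero]
  have ha2 : ∀ v, 2 ≤ v → a v = 0 := fun v hv => by
    simp only [ha_def, zb_hi hv, zl_hi hv, mul_zero, add_zero]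
  have hM : ∀ v, |a v| ≤ L * (5 * Mb + Mc) ∧ |deriv a v| ≤ L * (5 * Mb + Mc) ∧
      |deriv (deriv a) v| ≤ L * (5 * Mb + Mc) := by
    intro v
    have h := dlin (Real.log K) Mb Mc hlK0 zb zl zb_cd zl_cd hMb hMc v
    have h1 : Real.log K * Mb + Mc ≤ L * (5 * Mb + Mc) := by nlinarith
    exact ⟨h.1.trans h1, h.2.1.trans h1, h.2.2.trans h1⟩
  have hus := uu_smooth T t10
  have hU : ∀ x, ‖Uu T x‖ + ‖deriv (Uu T) x‖ + ‖deriv (deriv (Uu T)) x‖ ≤
      3 * C2 * T ^ 3 * ((1 + T * |x|) ^ 2)⁻¹ := by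
    intro x
    obtain ⟨u0, u1, u2⟩ := hC2 T t10 x
    have hr : (1 + T * |x|) ^ (-((2 : ℕ) : ℝ)) = ((1 + T * |x|) ^ 2)⁻¹ := by
      rw [Real.rpow_neg (by positivity), Real.rpow_natCast]
    rw [hr] at u0 u1 u2
    set r := ((1 + T * |x|) ^ 2)⁻¹ with hrd
    have hr0 : 0 ≤ r := by positivity
    have k1 : T ≤ T ^ 3 := le_self_pow₀ (by linarith) (by norm_num)
    have k2 : T ^ 2 ≤ T ^ 3 := pow_le_pow_right₀ (by linarith) (by norm_num)
    have k3 : C2 * T * r ≤ C2 * T ^ 3 * r :=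
      mul_le_mul_of_nonneg_right (mul_le_mul_of_nonneg_left k1 hC20.le) hr0
    have k4 : C2 * T ^ 2 * r ≤ C2 * T ^ 3 * r :=
      mul_le_mul_of_nonneg_right (mul_le_mul_of_nonneg_left k2 hC20.le) hr0
    linarith
  have hgb := gg_bd a ha ha0 ha2 (Uu T) hus (L * (5 * Mb + Mc)) (by positivity) hM
    (3 * C2 * T ^ 3) T (by positivity) hT0 hU
  have hE3 := poiK (gg a (Uu T)) (gg_cd a ha ha0 (Uu T) hus) (gg_cs a ha0 ha2 (Uu T)) _
    ((w_int2 T hT0).const_mul _) hgb K hK0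
  rw [integral_const_mul, w_val T hT0, ← hI0] at hE3
  -- the sum
  set N : ℕ := ⌈T ^ 7⌉₊ with hN
  have hNlo : T ^ 7 ≤ N := Nat.le_ceil _
  have hNhi : (N : ℝ) ≤ 2 * T ^ 7 := by
    have h1 : (N : ℝ) < T ^ 7 + 1 := Nat.ceil_lt_add_one (by positivity)
    have h2 : (1 : ℝ) ≤ T ^ 7 := one_le_pow₀ (by linarith)
    linarith
  have hN2 : 2 * (K : ℝ) ≤ N := num7 T K N t10 hK5' hNlo
  rw [tsm K hK0 N hN2 (Uu T)] at hE3
  have hE1 := hz T t1 K (by exact_mod_cast hK1')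
  rw [← hN] at hE1
  set S1 : ℂ := ∑ m ∈ Icc 1 N, ((Real.log m * st 6 1 (Real.log m / Real.log T) /
      (Real.sqrt m * Real.sqrt K) : ℝ) : ℂ) * Uu T (Real.log K - Real.log m) with hS1
  set S2 : ℂ := ∑ m ∈ Icc 1 N, ((Real.log m * zc ((K : ℝ)⁻¹ * m) / (Real.sqrt m * Real.sqrt K) : ℝ) : ℂ) *
        Uu T (Real.log K - Real.log m) with hS2
  have hE2 : ‖S1 - S2‖ ≤ (N : ℝ) * (2 * T ^ 7 * (C4 * T * (4 ^ 40 * (T ^ 40)⁻¹))) := by
    rw [hS1, hS2, ← sum_sub_distrib]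
    refine (norm_sum_le _ _).trans ?_
    have hcard : ((Icc 1 N).card : ℝ) = N := by simp
    rw [← hcard, ← nsmul_eq_mul]
    apply sum_le_card_nsmul
    intro m hm
    rw [mem_Icc] at hm
    have hm1 : (1 : ℝ) ≤ m := by exact_mod_cast hm.1
    have hmN : (m : ℝ) ≤ N := by exact_mod_cast hm.2
    have hm0 : (0 : ℝ) < m := by linarith
    rw [← sub_mul, ← Complex.ofReal_sub, norm_mul, Complex.norm_real, Real.norm_eq_abs]
    have e1 : Real.log m * st 6 1 (Real.log m / L) / (Real.sqrt m * Real.sqrt K) -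
        Real.log m * zc ((K : ℝ)⁻¹ * m) / (Real.sqrt m * Real.sqrt K) =
        Real.log m * (st 6 1 (Real.log m / L) - zc ((K : ℝ)⁻¹ * m)) * (Real.sqrt m * Real.sqrt K)⁻¹ := by
      ring
    rw [e1]
    have hpos : 0 ≤ 2 * T ^ 7 * (C4 * T * (4 ^ 40 * (T ^ 40)⁻¹)) := by positivity
    by_cases hcase : (K : ℝ)⁻¹ * m < 3 / 4 ∨ 3 / 2 < (K : ℝ)⁻¹ * m
    · have h1 := tail1 K hK0 m hm0 hcase
      have h2 : ‖Uu T (Real.log K - Real.log m)‖ ≤ C4 * T * (4 ^ 40 * (T ^ 40)⁻¹) := by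
        refine (hC4 T t10 _).1.trans ?_
        apply mul_le_mul_of_nonneg_left _ (by positivity)
        rw [Real.rpow_neg (by positivity), Real.rpow_natCast]
        have h3 : (T / 4) ^ 40 ≤ (1 + T * |Real.log K - Real.log m|) ^ 40 := by
          apply pow_le_pow_left₀ (by positivity)
          nlinarith
        have h4 := inv_anti₀ (by positivity) h3
        refine h4.trans (le_of_eq ?_)
        rw [div_pow, inv_div]
        rfl
      have h5 : |Real.log m * (st 6 1 (Real.log m / L) - zc ((K : ℝ)⁻¹ * m)) *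
          (Real.sqrt m * Real.sqrt K)⁻¹| ≤ 2 * T ^ 7 := by
        rw [abs_mul, abs_mul]
        have k1 : |Real.log m| ≤ 2 * T ^ 7 := by
          rw [abs_of_nonneg (Real.log_nonneg hm1)]
          have := Real.log_le_sub_one_of_pos hm0
          linarith
        have k2 : |st 6 1 (Real.log m / L) - zc ((K : ℝ)⁻¹ * m)| ≤ 1 := by
          rw [abs_le]
          have := st_nonneg 6 1 (Real.log m / L)
          have := st_le_one 6 1 (Real.log m / L)
          have := zc_nn ((K : ℝ)⁻¹ * m)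
          have := zc_le ((K : ℝ)⁻¹ * m)
          constructor <;> linarith
        have k3 : |(Real.sqrt m * Real.sqrt K)⁻¹| ≤ 1 := by
          rw [abs_of_nonneg (by positivity)]
          apply inv_le_one_of_one_le₀
          have r1 : 1 ≤ Real.sqrt m := Real.one_le_sqrt.mpr hm1
          have r2 : 1 ≤ Real.sqrt K := Real.one_le_sqrt.mpr hK1'
          nlinarith
        calc |Real.log m| * |st 6 1 (Real.log m / L) - zc ((K : ℝ)⁻¹ * m)| *
              |(Real.sqrt m * Real.sqrt K)⁻¹| ≤ 2 * T ^ 7 * 1 * 1 := by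
              apply mul_le_mul _ k3 (abs_nonneg _) (by positivity)
              exact mul_le_mul k1 k2 (abs_nonneg _) (by positivity)
          _ = 2 * T ^ 7 := by ring
      exact mul_le_mul h5 h2 (norm_nonneg _) (by positivity)
    · push Not at hcase
      have h1 := st_eq T t10 K hK0 hK5' m hm1 hcase.2
      have h2 := zc_one hcase.1 hcase.2
      rw [← hLdef] at h1
      rw [h1, h2, sub_self, mul_zero, zero_mul, abs_zero, zero_mul]
      exact hpos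
  -- the integral
  have hE4 : ‖∫ v : ℝ, gg a (Uu T) v‖ ≤
      T * (2 * L ^ 2 * ((Real.log K * Fb + Fc) * (2 ^ 40 * (T ^ 40)⁻¹))) := by
    have h1 := sube (gg a (Uu T)) (fun v hv => by
      unfold gg
      rw [ha0 v hv, Complex.ofReal_zero, zero_mul])
    have h2 : ∫ w : ℝ, ((Real.exp w : ℝ) : ℂ) * gg a (Uu T) (Real.exp w) =
        ∫ w : ℝ, ((Real.log K * eb w + el w : ℝ) : ℂ) * Uu T (-w) := by
      refine integral_congr_ae (Filter.Eventually.of_forall fun w => ?_)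
      simp only
      unfold gg eb el
      rw [Real.log_exp, ← mul_assoc, ← Complex.ofReal_mul]
      congr 2
      simp only [ha_def]
      ring
    rw [h1, h2]
    have hcA : Continuous fun w => Real.log K * eb w + el w :=
      (continuous_const.mul eb_cd.continuous).add el_cd.continuous
    exact lemM (fun w => Real.log K * eb w + el w) hcA
      (fun w hw => by simp only [eb_out hw, el_out hw, mul_zero, add_zero]) T _ hT0 hLsq
      (fun ξ hξ => intX (Real.log K) T Fb Fc hlK0 hT0 hFb0 hFc0 hFb hFc ξ hξ)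
  -- numbers
  have hnorm := num6 (Zt T K) (Zt T K + S1) (S1 - S2) (S2 - ∫ v : ℝ, gg a (Uu T) v)
    (∫ v : ℝ, gg a (Uu T) v) (by ring)
  have hT20 : T ^ (-(20 : ℝ)) = (T ^ 20)⁻¹ := by
    rw [Real.rpow_neg hT0.le]
    congr 1
    exact_mod_cast Real.rpow_natCast T 20
  have hT10 : T ^ (-(10 : ℝ)) = (T ^ 10)⁻¹ := by
    rw [Real.rpow_neg hT0.le]
    congr 1
    exact_mod_cast Real.rpow_natCast T 10
  rw [hT20] at hE1
  rw [hT10]
  have hE2' := hE2.trans (num2 T C4 N t10 hC40 hNhi t4)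
  have hE4' := hE4.trans (num4 T L (Real.log K) Fb Fc t10 (by linarith) hLT hlK0 hlK hFb0 hFc0 t5)
  rw [num1 T K L (5 * Mb + Mc) C2 I0 hT0 hK0] at hE3
  have hsm := num3 T t10
  have hfin := num5 (48 * (5 * Mb + Mc) * C2 * I0) L (T / K) (by linarith)
  linarith

end Pool.Agent.H24.WH
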