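import Pool.Agent.H24.WH.Ksh
import Pool.Agent.H24.WH.E1a
import Pool.Agent.H24.WH.E1b
import Pool.Agent.H24.WH.Zk1
import Pool.Agent.H24.WH.Zk2
import Pool.Agent.H24.WH.Zk3
import Pool.Agent.H24.WH.Msu
import Pool.Agent.H24.WH.Jco
import Pool.Agent.H24.WH.Bas

/-!
# [H24 WH AVL] the average of the left integral is large

PROOF. `ksh`, `e1a`, `e1b`: `int ph conj JL = √π T P0 L sum_p log^2 p/p + sum_{k ≤ T^4} sum_p Lam(k) log p Zt T (kp) + O(T L)` (`k^(s-1) p^(s-1) = (kp)^(s-1)`). Split the sum at `kp ≤ T^(1-η)` (`zk1`: main term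
`-√π T P0 (log p/p)(Lam k/k) log(kp)`), `T^(1-η) < kp ≤ T` (`zk2`, `msu2`: `≤ C T L (ηL + 1)`), `kp > T` (`zk3`, `msu3`: `≤ C T L`; `kp ≤ T^4 · 4 sqrt T ≤ T^5`). `msu1` (the sum over `kp ≤ T^(1-η)` is at most the sum over `k ≤ T/p`):
`≥ √π T P0 c L^2 - C T L (ηL + 1)`; choose `η` small in terms of `c`, `C`.
-/

set_option autoImplicit false

namespace Pool.Agent.H24.WH

open Complex MeasureTheory Finset Pool.Agent.H48.WN

/-- integrability in `y` -/
private theorem avl_y {c T R t0 : ℝ} (hR0 : 0 ≤ R) (hR : R ≤ T / 2) {G : ℝ → ℂ}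
    (hG : ContinuousOn G (Set.Ici (T / 2))) (ht : T ≤ t0) :
    IntervalIntegrable (fun y => kk c y * G (t0 + y)) volume (-R) R := by
  apply ContinuousOn.intervalIntegrable
  rw [Set.uIcc_of_le (by linarith)]
  refine ((aux_kk c).continuousOn).mul (hG.comp (by fun_prop) fun y hy => ?_)
  rw [Set.mem_Ici]
  linarith [hy.1]

/-- continuity in `t0` -/
private theorem avl_t {c T R : ℝ} (hR0 : 0 ≤ R) (hR : R ≤ T / 2) {G : ℝ → ℂ}
    (hG : ContinuousOn G (Set.Ici (T / 2))) :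
    ContinuousOn (fun t0 => ∫ y in (-R)..R, kk c y * G (t0 + y)) (Set.Icc T (2 * T)) := by
  have h1 : Continuous (fun t => G (max t (T / 2))) :=
    hG.comp_continuous (by fun_prop) fun x => Set.mem_Ici.2 (le_max_right _ _)
  have h2 : Continuous (fun t0 => ∫ y in (-R)..R, kk c y * G (max (t0 + y) (T / 2))) := by
    apply intervalIntegral.continuous_parametric_intervalIntegral_of_continuous'
    exact ((aux_kk c).comp continuous_snd).mul (h1.comp (continuous_fst.add continuous_snd))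
  refine h2.continuousOn.congr fun t0 ht => ?_
  refine intervalIntegral.integral_congr fun y hy => ?_
  rw [Set.uIcc_of_le (by linarith)] at hy
  have h3 : max (t0 + y) (T / 2) = t0 + y := max_eq_left (by linarith [hy.1, ht.1])
  simp only [h3]

private theorem avl_dz (c : ℝ) {T : ℝ} (hT : 0 < T) :
    ContinuousOn (fun t => deriv riemannZeta (pt c t)) (Set.Ici (T / 2)) := by
  intro t ht
  have h1 : pt c t ≠ 1 := aux_ne (by
    rw [pt_im]
    rw [Set.mem_Ici] at ht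
    linarith)
  exact (ContinuousAt.comp (f := fun t : ℝ => pt c t) (g := deriv riemannZeta) (aux_dz h1).continuousAt
    (aux_pt c).continuousAt).continuousWithinAt

private theorem avl_bp (c T : ℝ) : Continuous (fun t => Bp T (pt c t)) :=
  (aux_bp T).continuous.comp (aux_pt c)

private theorem avl_cp {K : ℕ} (hK : K ≠ 0) : Continuous (fun t => (K : ℂ) ^ (pt 0 t - 1)) := by
  have h : Differentiable ℂ (fun s : ℂ => (K : ℂ) ^ (s - 1)) :=
    (differentiable_id.sub_const 1).const_cpow (Or.inl (by exact_mod_cast hK))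
  exact h.continuous.comp (aux_pt 0)

private theorem avl_lam : ∃ T0 : ℝ, 10 ≤ T0 ∧ ∀ T : ℝ, T0 ≤ T → ∀ c : ℝ, |1 / 2 + c| ≤ 2 →
    ContinuousOn (fun t => lam (pt c t)) (Set.Ici (T / 2)) := by
  obtain ⟨C, T0, -, h10, H⟩ := stl 2
  refine ⟨2 * T0, by linarith, fun T hT c hc t ht => ?_⟩
  rw [Set.mem_Ici] at ht
  have h1 := (H (pt c t) (by rw [pt_re]; exact hc) (by rw [pt_im]; linarith)).2.2.2.1
  exact (ContinuousAt.comp (f := fun t : ℝ => pt c t) (g := lam) h1.continuousAt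
    (aux_pt c).continuousAt).continuousWithinAt

/-- the inner integral of `Zt` -/
private noncomputable def avlW (T : ℝ) (K : ℕ) (t0 : ℝ) : ℂ :=
  ∫ y in (-(Real.log T) ^ 2)..((Real.log T) ^ 2), kk 0 y *
      (deriv riemannZeta (pt 0 (t0 + y)) * (K : ℂ) ^ (pt 0 (t0 + y) - 1))

/-- the inner integral of the first term -/
private noncomputable def avlI (T c t0 : ℝ) : ℂ :=
  ∫ y in (-(Real.log T) ^ 2)..((Real.log T) ^ 2), kk c y *
      (lam (pt c (t0 + y)) * deriv riemannZeta (pt c (t0 + y)) * Bp T (pt c (t0 + y)))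

/-- the integral of `ksh` -/
private noncomputable def avlK (T : ℝ) (N : ℕ) (t0 : ℝ) : ℂ :=
  ∫ y in (-(Real.log T) ^ 2)..((Real.log T) ^ 2), kk 0 y *
      ((-lam (pt 0 (t0 + y)) + ∑ k ∈ Icc 1 N, La k * (k : ℂ) ^ (pt 0 (t0 + y) - 1)) *
        deriv riemannZeta (pt 0 (t0 + y)) * Bp T (pt 0 (t0 + y)))

private theorem avl_pp {T : ℝ} {p : ℕ} (hp : p ∈ PP T) : p.Prime ∧ ⌊Real.sqrt T⌋₊ < p ∧ p ≤ 4 * ⌊Real.sqrt T⌋₊ := by
  obtain ⟨h1, h2⟩ := Finset.mem_filter.1 hp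
  exact ⟨h2, (Finset.mem_Ioc.1 h1).1, (Finset.mem_Ioc.1 h1).2⟩

private theorem avl_point (T : ℝ) (N : ℕ) (s w l z : ℂ) :
    w * ((-l + ∑ k ∈ Icc 1 N, La k * (k : ℂ) ^ (s - 1)) * z * Bp T s) =
      -(w * (l * z * Bp T s)) + ∑ k ∈ Icc 1 N, ∑ p ∈ PP T, (La k * ((Real.log p : ℝ) : ℂ)) *
        (w * (z * ((k * p : ℕ) : ℂ) ^ (s - 1))) := by
  have h1 : (∑ k ∈ Icc 1 N, La k * (k : ℂ) ^ (s - 1)) * Bp T s =
      ∑ k ∈ Icc 1 N, ∑ p ∈ PP T, (La k * ((Real.log p : ℝ) : ℂ)) * ((k * p : ℕ) : ℂ) ^ (s - 1) := by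
    unfold Bp
    rw [Finset.sum_mul_sum]
    refine Finset.sum_congr rfl fun k _ => Finset.sum_congr rfl fun p _ => ?_
    rw [Nat.cast_mul, Complex.natCast_mul_natCast_cpow]
    ring
  have h2 : ∑ k ∈ Icc 1 N, ∑ p ∈ PP T, (La k * ((Real.log p : ℝ) : ℂ)) *
        (w * (z * ((k * p : ℕ) : ℂ) ^ (s - 1))) =
      w * z * ∑ k ∈ Icc 1 N, ∑ p ∈ PP T, (La k * ((Real.log p : ℝ) : ℂ)) * ((k * p : ℕ) : ℂ) ^ (s - 1) := by
    rw [Finset.mul_sum]
    refine Finset.sum_congr rfl fun k _ => ?_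
    rw [Finset.mul_sum]
    refine Finset.sum_congr rfl fun p _ => ?_
    ring
  rw [h2, ← h1]
  ring

private theorem avl_sum {ι : Type} (s : Finset ι) {f : ι → ℝ → ℂ} {a b : ℝ}
    (h : ∀ i ∈ s, IntervalIntegrable (f i) volume a b) :
    IntervalIntegrable (fun y => ∑ i ∈ s, f i y) volume a b := by
  have h1 := IntervalIntegrable.sum s h
  rwa [show (∑ i ∈ s, f i) = fun y => ∑ i ∈ s, f i y from by
    ext y
    exact Finset.sum_apply _ _ _] at h1

private theorem avl_split {T : ℝ} (hT : 0 < T) (hR : (Real.log T) ^ 2 ≤ T / 2)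
    (hl : ContinuousOn (fun t => lam (pt 0 t)) (Set.Ici (T / 2))) (N : ℕ) {t0 : ℝ} (ht : T ≤ t0) :
    avlK T N t0 = -avlI T 0 t0 +
      ∑ k ∈ Icc 1 N, ∑ p ∈ PP T, (La k * ((Real.log p : ℝ) : ℂ)) * avlW T (k * p) t0 := by
  have hR0 : 0 ≤ (Real.log T) ^ 2 := sq_nonneg _
  have hW : ∀ K : ℕ, K ≠ 0 → IntervalIntegrable (fun y => kk 0 y *
      (deriv riemannZeta (pt 0 (t0 + y)) * (K : ℂ) ^ (pt 0 (t0 + y) - 1))) volume
      (-(Real.log T) ^ 2) ((Real.log T) ^ 2) := fun K hK =>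
    avl_y (G := fun t => deriv riemannZeta (pt 0 t) * (K : ℂ) ^ (pt 0 t - 1)) hR0 hR
      ((avl_dz 0 hT).mul (avl_cp hK).continuousOn) ht
  have hI : IntervalIntegrable (fun y => kk 0 y *
      (lam (pt 0 (t0 + y)) * deriv riemannZeta (pt 0 (t0 + y)) * Bp T (pt 0 (t0 + y)))) volume
      (-(Real.log T) ^ 2) ((Real.log T) ^ 2) :=
    avl_y (G := fun t => lam (pt 0 t) * deriv riemannZeta (pt 0 t) * Bp T (pt 0 t)) hR0 hR
      ((hl.mul (avl_dz 0 hT)).mul (avl_bp 0 T).continuousOn) ht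
  have hne : ∀ k ∈ Icc 1 N, ∀ p ∈ PP T, k * p ≠ 0 := fun k hk p hp =>
    Nat.mul_ne_zero (by have := (Finset.mem_Icc.1 hk).1; omega) (avl_pp hp).1.ne_zero
  unfold avlK avlI avlW
  simp only [avl_point]
  have hIn := hI.neg
  simp only [Pi.neg_def] at hIn
  have hS := avl_sum (Icc 1 N) (f := fun k y => ∑ p ∈ PP T, La k * ((Real.log p : ℝ) : ℂ) *
      (kk 0 y * (deriv riemannZeta (pt 0 (t0 + y)) * ((k * p : ℕ) : ℂ) ^ (pt 0 (t0 + y) - 1))))
      (a := -(Real.log T) ^ 2) (b := (Real.log T) ^ 2) fun k hk => avl_sum (PP T) fun p hp =>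
        (hW _ (hne k hk p hp)).const_mul _
  rw [intervalIntegral.integral_add hIn hS, intervalIntegral.integral_neg]
  congr 1
  rw [intervalIntegral.integral_finsetSum]
  · refine Finset.sum_congr rfl fun k hk => ?_
    rw [intervalIntegral.integral_finsetSum]
    · refine Finset.sum_congr rfl fun p hp => ?_
      rw [intervalIntegral.integral_const_mul]
    · exact fun p hp => (hW _ (hne k hk p hp)).const_mul _
  · intro k hk
    exact avl_sum _ fun p hp => (hW _ (hne k hk p hp)).const_mul _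

/-- integrability in `t0` -/
private theorem avl_u {T : ℝ} (hT : 0 < T) {F : ℝ → ℂ} (hF : ContinuousOn F (Set.Icc T (2 * T))) :
    IntervalIntegrable (fun t0 => ((ph (t0 / T) : ℝ) : ℂ) * F t0) volume T (2 * T) := by
  apply ContinuousOn.intervalIntegrable
  rw [Set.uIcc_of_le (by linarith)]
  refine ContinuousOn.mul ?_ hF
  have h1 : Continuous (fun t0 : ℝ => ph (t0 / T)) := ph_contDiff.continuous.comp (by fun_prop)
  exact (Complex.continuous_ofReal.comp h1).continuousOn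

/-- the difference of two averages -/
private theorem avl_d {T : ℝ} (hT : 0 < T) {F G : ℝ → ℂ} (hF : ContinuousOn F (Set.Icc T (2 * T)))
    (hG : ContinuousOn G (Set.Icc T (2 * T))) (h : ∀ t ∈ Set.Icc T (2 * T), ‖F t - G t‖ ≤ 1) :
    ‖(∫ t0 in T..(2 * T), ((ph (t0 / T) : ℝ) : ℂ) * F t0) -
      ∫ t0 in T..(2 * T), ((ph (t0 / T) : ℝ) : ℂ) * G t0‖ ≤ T := by
  rw [← intervalIntegral.integral_sub (avl_u hT hF) (avl_u hT hG)]
  refine (intervalIntegral.norm_integral_le_of_norm_le_const (C := 1) fun t ht => ?_).trans (le_of_eq ?_)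
  · rw [Set.uIoc_of_le (by linarith)] at ht
    have h1 := h t ⟨ht.1.le, ht.2⟩
    rw [← mul_sub, norm_mul, Complex.norm_real, Real.norm_eq_abs, abs_of_nonneg (ph_nonneg _)]
    exact mul_le_one₀ (ph_le _) (norm_nonneg _) h1
  · rw [abs_of_nonneg (by linarith)]
    ring

private theorem avl_A : ∃ C T0 : ℝ, 0 < C ∧ 10 ≤ T0 ∧ ∀ T : ℝ, T0 ≤ T →
    ‖(∫ t0 in T..(2 * T), ((ph (t0 / T) : ℝ) : ℂ) * (starRingEnd ℂ) (JL T (3 / 2) t0)) -
      ((Real.sqrt Real.pi * T * P0 * Real.log T * ∑ p ∈ PP T, (Real.log p) ^ 2 / p : ℝ) : ℂ) -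
      ∑ k ∈ Icc 1 ⌊T ^ 4⌋₊, ∑ p ∈ PP T, (La k * ((Real.log p : ℝ) : ℂ)) * Zt T (k * p)‖ ≤
      C * T * Real.log T := by
  obtain ⟨T1, h10, H1⟩ := ksh
  obtain ⟨T2, -, H2⟩ := e1a
  obtain ⟨C, T3, hC, -, H3⟩ := e1b
  obtain ⟨T4, -, H4⟩ := avl_lam
  obtain ⟨T5, -, H5⟩ := aux_win 1 one_pos
  obtain ⟨T6, -, H6⟩ := jco
  refine ⟨C + 2, max T1 (max T2 (max T3 (max T4 (max T5 T6)))), by linarith, h10.trans (le_max_left _ _),
    fun T hT => ?_⟩
  simp only [max_le_iff] at hT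
  obtain ⟨t1, t2, t3, t4, t5, t6⟩ := hT
  have hT0 : 0 < T := by linarith
  obtain ⟨hL1, -, hL2⟩ := H5 T t5
  have hR : (Real.log T) ^ 2 ≤ T / 2 := by linarith
  have hR0 : 0 ≤ (Real.log T) ^ 2 := sq_nonneg _
  have hl0 := H4 T t4 0 (by norm_num [abs_le])
  have hl3 := H4 T t4 (3 / 2) (by norm_num [abs_le])
  have cI0 : ContinuousOn (avlI T 0) (Set.Icc T (2 * T)) :=
    avl_t (G := fun t => lam (pt 0 t) * deriv riemannZeta (pt 0 t) * Bp T (pt 0 t)) hR0 hR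
      ((hl0.mul (avl_dz 0 hT0)).mul (avl_bp 0 T).continuousOn)
  have cI3 : ContinuousOn (avlI T (3 / 2)) (Set.Icc T (2 * T)) :=
    avl_t (G := fun t => lam (pt (3 / 2) t) * deriv riemannZeta (pt (3 / 2) t) * Bp T (pt (3 / 2) t)) hR0 hR
      ((hl3.mul (avl_dz (3 / 2) hT0)).mul (avl_bp (3 / 2) T).continuousOn)
  have cW : ∀ K : ℕ, K ≠ 0 → ContinuousOn (avlW T K) (Set.Icc T (2 * T)) := fun K hK =>
    avl_t (G := fun t => deriv riemannZeta (pt 0 t) * (K : ℂ) ^ (pt 0 t - 1)) hR0 hR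
      ((avl_dz 0 hT0).mul (avl_cp hK).continuousOn)
  have hne : ∀ k ∈ Icc 1 ⌊T ^ 4⌋₊, ∀ p ∈ PP T, k * p ≠ 0 := fun k hk p hp =>
    Nat.mul_ne_zero (by have := (Finset.mem_Icc.1 hk).1; omega) (avl_pp hp).1.ne_zero
  have cS : ContinuousOn (fun t0 => ∑ k ∈ Icc 1 ⌊T ^ 4⌋₊, ∑ p ∈ PP T,
      (La k * ((Real.log p : ℝ) : ℂ)) * avlW T (k * p) t0) (Set.Icc T (2 * T)) :=
    continuousOn_finsetSum _ fun k hk => continuousOn_finsetSum _ fun p hp =>
      continuousOn_const.mul (cW _ (hne k hk p hp))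
  have cJ : ContinuousOn (fun t0 => (starRingEnd ℂ) (JL T (3 / 2) t0)) (Set.Icc T (2 * T)) :=
    Complex.continuous_conj.comp_continuousOn (H6 T t6).2
  have h1 := avl_d hT0 cJ (cI0.neg.add cS) (fun t ht => by
    have e := H1 T t1 t ht.1 ht.2
    have e2 : avlK T ⌊T ^ 4⌋₊ t = _ := avl_split hT0 hR hl0 ⌊T ^ 4⌋₊ ht.1
    unfold avlK at e2
    rw [e2] at e
    exact e)
  have h2 := avl_d hT0 cI0 cI3 (fun t ht => H2 T t2 t ht.1 ht.2)
  have h3 := H3 T t3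
  have h4 : (∫ t0 in T..(2 * T), ((ph (t0 / T) : ℝ) : ℂ) * ((-avlI T 0 t0) +
      ∑ k ∈ Icc 1 ⌊T ^ 4⌋₊, ∑ p ∈ PP T, (La k * ((Real.log p : ℝ) : ℂ)) * avlW T (k * p) t0)) =
      -(∫ t0 in T..(2 * T), ((ph (t0 / T) : ℝ) : ℂ) * avlI T 0 t0) +
      ∑ k ∈ Icc 1 ⌊T ^ 4⌋₊, ∑ p ∈ PP T, (La k * ((Real.log p : ℝ) : ℂ)) * Zt T (k * p) := by
    have e1 : ∀ t0 : ℝ, ((ph (t0 / T) : ℝ) : ℂ) * ((-avlI T 0 t0) +
        ∑ k ∈ Icc 1 ⌊T ^ 4⌋₊, ∑ p ∈ PP T, (La k * ((Real.log p : ℝ) : ℂ)) * avlW T (k * p) t0) =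
        -(((ph (t0 / T) : ℝ) : ℂ) * avlI T 0 t0) + ∑ k ∈ Icc 1 ⌊T ^ 4⌋₊, ∑ p ∈ PP T,
          (La k * ((Real.log p : ℝ) : ℂ)) * (((ph (t0 / T) : ℝ) : ℂ) * avlW T (k * p) t0) := by
      intro t0
      rw [mul_add, mul_neg, Finset.mul_sum]
      congr 1
      refine Finset.sum_congr rfl fun k _ => ?_
      rw [Finset.mul_sum]
      refine Finset.sum_congr rfl fun p _ => ?_
      ring
    simp only [e1]
    have i1 : IntervalIntegrable (fun t0 => -(((ph (t0 / T) : ℝ) : ℂ) * avlI T 0 t0)) volume T (2 * T) := by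
      have := (avl_u hT0 cI0).neg
      simpa only [Pi.neg_def] using this
    have i2 := avl_sum (Icc 1 ⌊T ^ 4⌋₊) (f := fun k t0 => ∑ p ∈ PP T, La k * ((Real.log p : ℝ) : ℂ) *
      (((ph (t0 / T) : ℝ) : ℂ) * avlW T (k * p) t0)) (a := T) (b := 2 * T) fun k hk =>
        avl_sum (PP T) fun p hp => (avl_u hT0 (cW _ (hne k hk p hp))).const_mul _
    rw [intervalIntegral.integral_add i1 i2, intervalIntegral.integral_neg]
    congr 1
    rw [intervalIntegral.integral_finsetSum]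
    · refine Finset.sum_congr rfl fun k hk => ?_
      rw [intervalIntegral.integral_finsetSum]
      · refine Finset.sum_congr rfl fun p hp => ?_
        rw [intervalIntegral.integral_const_mul]
        rfl
      · exact fun p hp => (avl_u hT0 (cW _ (hne k hk p hp))).const_mul _
    · intro k hk
      exact avl_sum _ fun p hp => (avl_u hT0 (cW _ (hne k hk p hp))).const_mul _
  simp only [Pi.neg_apply, Pi.add_apply] at h1
  rw [h4] at h1
  set X := ∫ t0 in T..(2 * T), ((ph (t0 / T) : ℝ) : ℂ) * (starRingEnd ℂ) (JL T (3 / 2) t0) with hX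
  set Y0 := ∫ t0 in T..(2 * T), ((ph (t0 / T) : ℝ) : ℂ) * avlI T 0 t0 with hY0
  set Y3 := ∫ t0 in T..(2 * T), ((ph (t0 / T) : ℝ) : ℂ) * avlI T (3 / 2) t0 with hY3
  set Z := ∑ k ∈ Icc 1 ⌊T ^ 4⌋₊, ∑ p ∈ PP T, (La k * ((Real.log p : ℝ) : ℂ)) * Zt T (k * p) with hZ
  set M : ℂ := ((Real.sqrt Real.pi * T * P0 * Real.log T * ∑ p ∈ PP T, (Real.log p) ^ 2 / p : ℝ) : ℂ) with hM
  have h3' : ‖Y3 + M‖ ≤ C * T * Real.log T := h3
  have h5 : X - M - Z = (X - (-Y0 + Z)) + -(Y0 - Y3) + -(Y3 + M) := by ring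
  rw [h5]
  have h6 : T ≤ T * Real.log T := by nlinarith
  calc ‖(X - (-Y0 + Z)) + -(Y0 - Y3) + -(Y3 + M)‖ ≤ ‖X - (-Y0 + Z)‖ + ‖-(Y0 - Y3)‖ + ‖-(Y3 + M)‖ := norm_add₃_le
    _ ≤ T + T + C * T * Real.log T := by
      rw [norm_neg, norm_neg]
      gcongr
    _ ≤ (C + 2) * T * Real.log T := by
      have : (C + 2) * T * Real.log T = C * T * Real.log T + 2 * (T * Real.log T) := by ring
      linarith

private theorem avl_ple {T : ℝ} (hT : 16 ≤ T) {p : ℕ} (hp : p ∈ PP T) : (p : ℝ) ≤ T ∧ 1 ≤ (p : ℝ) := by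
  obtain ⟨h1, -, h3⟩ := avl_pp hp
  have hs : Real.sqrt T * Real.sqrt T = T := Real.mul_self_sqrt (by linarith)
  have hs4 : 4 ≤ Real.sqrt T := by
    rw [show (4 : ℝ) = Real.sqrt 16 by
      rw [show (16 : ℝ) = 4 ^ 2 by norm_num, Real.sqrt_sq (by norm_num)]]
    exact Real.sqrt_le_sqrt hT
  have h4 : (p : ℝ) ≤ 4 * (⌊Real.sqrt T⌋₊ : ℝ) := by exact_mod_cast h3
  have h5 : (⌊Real.sqrt T⌋₊ : ℝ) ≤ Real.sqrt T := Nat.floor_le (Real.sqrt_nonneg _)
  refine ⟨?_, by exact_mod_cast h1.one_lt.le⟩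
  nlinarith

private theorem avl_card {T : ℝ} : ((PP T).card : ℝ) ≤ 4 * Real.sqrt T := by
  have h1 : (PP T).card ≤ 4 * ⌊Real.sqrt T⌋₊ := by
    refine (Finset.card_filter_le _ _).trans ?_
    rw [Nat.card_Ioc]
    exact Nat.sub_le _ _
  have h2 : ((PP T).card : ℝ) ≤ 4 * (⌊Real.sqrt T⌋₊ : ℝ) := by exact_mod_cast h1
  have h5 : (⌊Real.sqrt T⌋₊ : ℝ) ≤ Real.sqrt T := Nat.floor_le (Real.sqrt_nonneg _)
  linarith

/-- the tiny terms -/
private theorem avl_tiny {T : ℝ} (hT : 16 ≤ T) (hL : 16 * (Real.log T) ^ 2 ≤ T ^ (1 / 2 : ℝ)) :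
    ∑ k ∈ Icc 1 ⌊T ^ 4⌋₊, ∑ p ∈ PP T, ArithmeticFunction.vonMangoldt k * Real.log p * T ^ (-(5 : ℝ)) ≤ 1 := by
  have hT0 : 0 < T := by linarith
  have hL0 : 0 ≤ Real.log T := Real.log_nonneg (by linarith)
  have h5 : T ^ (-(5 : ℝ)) = (T ^ 5)⁻¹ := by
    rw [Real.rpow_neg hT0.le]
    congr 1
    exact_mod_cast Real.rpow_natCast T 5
  have h5p : 0 < T ^ (-(5 : ℝ)) := Real.rpow_pos_of_pos hT0 _
  have hterm : ∀ k ∈ Icc 1 ⌊T ^ 4⌋₊, ∀ p ∈ PP T,
      ArithmeticFunction.vonMangoldt k * Real.log p * T ^ (-(5 : ℝ)) ≤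
        4 * Real.log T * Real.log T * T ^ (-(5 : ℝ)) := by
    intro k hk p hp
    obtain ⟨k1, k2⟩ := Finset.mem_Icc.1 hk
    obtain ⟨p1, p2⟩ := avl_ple hT hp
    have h1 : ArithmeticFunction.vonMangoldt k ≤ 4 * Real.log T := by
      refine ArithmeticFunction.vonMangoldt_le_log.trans ?_
      have h2 : (k : ℝ) ≤ T ^ 4 := (Nat.le_floor_iff (by positivity)).1 k2
      have h3 : (0 : ℝ) < k := by exact_mod_cast k1
      calc Real.log k ≤ Real.log (T ^ 4) := Real.log_le_log h3 h2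
        _ = 4 * Real.log T := by
          rw [Real.log_pow]
          norm_num
    have h2 : Real.log p ≤ Real.log T := Real.log_le_log (by linarith) p1
    have h3 : 0 ≤ Real.log p := Real.log_nonneg p2
    refine mul_le_mul_of_nonneg_right ?_ h5p.le
    exact mul_le_mul h1 h2 h3 (by positivity)
  have h1 : ∑ k ∈ Icc 1 ⌊T ^ 4⌋₊, ∑ p ∈ PP T, ArithmeticFunction.vonMangoldt k * Real.log p * T ^ (-(5 : ℝ)) ≤
      ∑ k ∈ Icc 1 ⌊T ^ 4⌋₊, ∑ p ∈ PP T, 4 * Real.log T * Real.log T * T ^ (-(5 : ℝ)) :=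
    Finset.sum_le_sum fun k hk => Finset.sum_le_sum fun p hp => hterm k hk p hp
  refine h1.trans ?_
  simp only [Finset.sum_const, Nat.card_Icc, nsmul_eq_mul, Nat.add_sub_cancel]
  have hN : (⌊T ^ 4⌋₊ : ℝ) ≤ T ^ 4 := Nat.floor_le (by positivity)
  have hc := avl_card (T := T)
  have hs : Real.sqrt T * Real.sqrt T = T := Real.mul_self_sqrt (by linarith)
  have hs0 : 0 ≤ Real.sqrt T := Real.sqrt_nonneg _
  rw [← Real.sqrt_eq_rpow] at hL
  have hA : 0 ≤ 4 * Real.log T * Real.log T * T ^ (-(5 : ℝ)) := by positivity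
  calc (⌊T ^ 4⌋₊ : ℝ) * (((PP T).card : ℝ) * (4 * Real.log T * Real.log T * T ^ (-(5 : ℝ)))) ≤
      T ^ 4 * ((4 * Real.sqrt T) * (4 * Real.log T * Real.log T * T ^ (-(5 : ℝ)))) := by
        gcongr
    _ = T ^ 4 * Real.sqrt T * (16 * (Real.log T) ^ 2) * (T ^ 5)⁻¹ := by
      rw [h5]
      ring
    _ ≤ T ^ 4 * Real.sqrt T * Real.sqrt T * (T ^ 5)⁻¹ := by gcongr
    _ = T ^ 4 * (Real.sqrt T * Real.sqrt T) * (T ^ 5)⁻¹ := by ring
    _ = 1 := by
      rw [hs]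
      field_simp

private theorem avl_Z : ∃ C : ℝ, 0 < C ∧ ∀ η : ℝ, 0 < η → η ≤ 1 / 4 → ∃ T0 : ℝ, 10 ≤ T0 ∧ ∀ T : ℝ, T0 ≤ T →
    ‖(∑ k ∈ Icc 1 ⌊T ^ 4⌋₊, ∑ p ∈ PP T, (La k * ((Real.log p : ℝ) : ℂ)) * Zt T (k * p)) +
      ((Real.sqrt Real.pi * T * P0 * ∑ p ∈ PP T, ∑ k ∈ Icc 1 ⌊T ^ 4⌋₊,
        (if ((k * p : ℕ) : ℝ) ≤ T ^ (1 - η) then (Real.log p / p) * (ArithmeticFunction.vonMangoldt k / k) *
        Real.log ((k * p : ℕ) : ℝ) else 0) : ℝ) : ℂ)‖ ≤ C * T * Real.log T * (η * Real.log T + 1) := by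
  obtain ⟨C2, T2, hC2, -, H2⟩ := zk2
  obtain ⟨C3, T3, hC3, -, H3⟩ := zk3
  obtain ⟨C4, hC4, H4⟩ := msu2
  obtain ⟨C5, T5, hC5, -, H5⟩ := msu3
  refine ⟨1 + C2 * C4 + C3 * C5, by positivity, fun η hη hη' => ?_⟩
  obtain ⟨T1, h10, H1⟩ := zk1 η hη (by linarith)
  obtain ⟨T4, -, H4⟩ := H4 η hη hη'
  obtain ⟨T6, -, H6⟩ := aux_log 16 (1 / 2) 2 (by norm_num)
  refine ⟨max T1 (max T2 (max T3 (max T4 (max T5 (max T6 16))))), h10.trans (le_max_left _ _), fun T hT => ?_⟩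
  simp only [max_le_iff] at hT
  obtain ⟨t1, t2, t3, t4, t5, t6, t7⟩ := hT
  have hT0 : 0 < T := by linarith
  have hT1 : 1 ≤ T := by linarith
  have hL0 : 1 ≤ Real.log T := by
    rw [Real.le_log_iff_exp_le hT0]
    have := Real.exp_one_lt_d9
    linarith
  have h5p : 0 < T ^ (-(5 : ℝ)) := Real.rpow_pos_of_pos hT0 _
  have h510 : T ^ (-(10 : ℝ)) ≤ T ^ (-(5 : ℝ)) := Real.rpow_le_rpow_of_exponent_le hT1 (by norm_num)
  set N := ⌊T ^ 4⌋₊ with hN
  -- the bound for one pair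
  set bd : ℕ → ℕ → ℝ := fun k p => ArithmeticFunction.vonMangoldt k * Real.log p * T ^ (-(5 : ℝ)) +
    (if T ^ (1 - η) < ((k * p : ℕ) : ℝ) ∧ ((k * p : ℕ) : ℝ) ≤ T then C2 * Real.log T * T *
      ((Real.log p / p) * (ArithmeticFunction.vonMangoldt k / k)) else 0) +
    (if T < ((k * p : ℕ) : ℝ) then C3 * Real.log T * T ^ 2 *
      (Real.log p * ArithmeticFunction.vonMangoldt k / (((k * p : ℕ) : ℝ)) ^ 2) else 0) with hbd
  have key : ∀ k ∈ Icc 1 N, ∀ p ∈ PP T, ‖(La k * ((Real.log p : ℝ) : ℂ)) * Zt T (k * p) +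
      ((Real.sqrt Real.pi * T * P0 * (if ((k * p : ℕ) : ℝ) ≤ T ^ (1 - η) then (Real.log p / p) *
        (ArithmeticFunction.vonMangoldt k / k) * Real.log ((k * p : ℕ) : ℝ) else 0) : ℝ) : ℂ)‖ ≤ bd k p := by
    intro k hk p hp
    obtain ⟨k1, k2⟩ := Finset.mem_Icc.1 hk
    obtain ⟨p1, p2⟩ := avl_ple t7 hp
    have hk0 : (0 : ℝ) < k := by exact_mod_cast k1
    have hp0 : (0 : ℝ) < p := by linarith
    have hK1 : 1 ≤ k * p := Nat.one_le_iff_ne_zero.2 (Nat.mul_ne_zero (by omega) (avl_pp hp).1.ne_zero)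
    have hKc : ((k * p : ℕ) : ℝ) = (k : ℝ) * p := by push_cast; ring
    have hLam : 0 ≤ ArithmeticFunction.vonMangoldt k := ArithmeticFunction.vonMangoldt_nonneg
    have hlp : 0 ≤ Real.log p := Real.log_nonneg p2
    have hw : 0 ≤ ArithmeticFunction.vonMangoldt k * Real.log p := mul_nonneg hLam hlp
    have hwn : La k * ((Real.log p : ℝ) : ℂ) = ((ArithmeticFunction.vonMangoldt k * Real.log p : ℝ) : ℂ) := by
      unfold La
      push_cast
      ring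
    have hwnorm : ‖((ArithmeticFunction.vonMangoldt k * Real.log p : ℝ) : ℂ)‖ =
        ArithmeticFunction.vonMangoldt k * Real.log p := by
      rw [Complex.norm_real, Real.norm_eq_abs, abs_of_nonneg hw]
    have hb0 : 0 ≤ ArithmeticFunction.vonMangoldt k * Real.log p * T ^ (-(5 : ℝ)) := by positivity
    rw [hwn]
    have hKT : T ^ (1 - η) ≤ T := by
      calc T ^ (1 - η) ≤ T ^ (1 : ℝ) := Real.rpow_le_rpow_of_exponent_le hT1 (by linarith)
        _ = T := Real.rpow_one T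
    rcases le_or_gt (((k * p : ℕ) : ℝ)) (T ^ (1 - η)) with c1 | c1
    · rw [if_pos c1]
      have e1 : ((Real.sqrt Real.pi * T * P0 * ((Real.log p / p) * (ArithmeticFunction.vonMangoldt k / k) *
          Real.log ((k * p : ℕ) : ℝ)) : ℝ) : ℂ) = ((ArithmeticFunction.vonMangoldt k * Real.log p : ℝ) : ℂ) *
          ((Real.sqrt Real.pi * T * P0 * (Real.log ((k * p : ℕ) : ℝ) / ((k * p : ℕ) : ℝ)) : ℝ) : ℂ) := by
        rw [← Complex.ofReal_mul]
        congr 1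
        rw [hKc]
        field_simp
      rw [e1, ← mul_add, norm_mul, hwnorm]
      have h1 := mul_le_mul_of_nonneg_left (H1 T t1 (k * p) hK1 c1) hw
      refine h1.trans ?_
      simp only [hbd]
      rw [if_neg (fun h => absurd h.1 (not_lt.2 c1)), if_neg (by linarith)]
      linarith
    · rw [if_neg (not_le.2 c1), mul_zero, Complex.ofReal_zero, add_zero, norm_mul, hwnorm]
      rcases le_or_gt (((k * p : ℕ) : ℝ)) T with c2 | c2
      · have h1 := mul_le_mul_of_nonneg_left (H2 T t2 (k * p) hK1 c2) hw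
        refine h1.trans ?_
        simp only [hbd]
        rw [if_pos ⟨c1, c2⟩, if_neg (not_lt.2 c2)]
        have e1 : ArithmeticFunction.vonMangoldt k * Real.log p * (C2 * Real.log T * (T / ((k * p : ℕ) : ℝ))) =
            C2 * Real.log T * T * ((Real.log p / p) * (ArithmeticFunction.vonMangoldt k / k)) := by
          rw [hKc]
          field_simp
        rw [e1]
        linarith
      · have hK5 : ((k * p : ℕ) : ℝ) ≤ T ^ (5 : ℝ) := by
          have h1 : (k : ℝ) ≤ T ^ 4 := (Nat.le_floor_iff (by positivity)).1 k2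
          rw [hKc]
          calc (k : ℝ) * p ≤ T ^ 4 * T := by gcongr
            _ = T ^ (5 : ℝ) := by
              rw [← pow_succ]
              exact_mod_cast (Real.rpow_natCast T 5).symm
        have h1 := mul_le_mul_of_nonneg_left (H3 T t3 (k * p) c2.le hK5) hw
        refine h1.trans ?_
        simp only [hbd]
        rw [if_neg (fun h => absurd h.2 (not_le.2 c2)), if_pos c2]
        have e1 : ArithmeticFunction.vonMangoldt k * Real.log p * (C3 * Real.log T * (T / ((k * p : ℕ) : ℝ)) ^ 2 +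
            T ^ (-(10 : ℝ))) = C3 * Real.log T * T ^ 2 *
            (Real.log p * ArithmeticFunction.vonMangoldt k / (((k * p : ℕ) : ℝ)) ^ 2) +
            ArithmeticFunction.vonMangoldt k * Real.log p * T ^ (-(10 : ℝ)) := by
          rw [div_pow]
          ring
        rw [e1]
        have h2 := mul_le_mul_of_nonneg_left h510 hw
        linarith
  -- the sum of the bounds
  have hA := avl_tiny t7 (H6 T t6)
  have hB : ∑ k ∈ Icc 1 N, ∑ p ∈ PP T, (if T ^ (1 - η) < ((k * p : ℕ) : ℝ) ∧ ((k * p : ℕ) : ℝ) ≤ T then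
      C2 * Real.log T * T * ((Real.log p / p) * (ArithmeticFunction.vonMangoldt k / k)) else 0) ≤
      C2 * Real.log T * T * (C4 * (η * Real.log T + 1)) := by
    rw [Finset.sum_comm]
    have h1 := mul_le_mul_of_nonneg_left (H4 T t4) (show 0 ≤ C2 * Real.log T * T by positivity)
    refine le_trans ?_ h1
    rw [Finset.mul_sum]
    refine Finset.sum_le_sum fun p hp => ?_
    obtain ⟨p1, p2⟩ := avl_ple t7 hp
    have hp0 : (0 : ℝ) < p := by linarith
    rw [Finset.mul_sum, ← Finset.sum_filter]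
    refine Finset.sum_le_sum_of_subset_of_nonneg ?_ fun k _ _ => ?_
    · intro k hk
      obtain ⟨hk1, hk2, hk3⟩ := Finset.mem_filter.1 hk
      refine Finset.mem_filter.2 ⟨Finset.mem_Icc.2 ⟨(Finset.mem_Icc.1 hk1).1, ?_⟩, hk2⟩
      refine Nat.le_floor ?_
      rw [le_div_iff₀ hp0]
      push_cast at hk3
      exact hk3
    · have h2 : 0 ≤ ArithmeticFunction.vonMangoldt k := ArithmeticFunction.vonMangoldt_nonneg
      have h3 : 0 ≤ Real.log p := Real.log_nonneg p2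
      positivity
  have hD : ∑ k ∈ Icc 1 N, ∑ p ∈ PP T, (if T < ((k * p : ℕ) : ℝ) then C3 * Real.log T * T ^ 2 *
      (Real.log p * ArithmeticFunction.vonMangoldt k / (((k * p : ℕ) : ℝ)) ^ 2) else 0) ≤
      C3 * Real.log T * T ^ 2 * (C5 / T) := by
    rw [Finset.sum_comm]
    have h1 := mul_le_mul_of_nonneg_left (H5 T t5 N) (show 0 ≤ C3 * Real.log T * T ^ 2 by positivity)
    refine le_trans (le_of_eq ?_) h1
    rw [Finset.mul_sum]
    refine Finset.sum_congr rfl fun p _ => ?_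
    rw [Finset.mul_sum, ← Finset.sum_filter]
  -- collect
  have e0 : (∑ k ∈ Icc 1 N, ∑ p ∈ PP T, (La k * ((Real.log p : ℝ) : ℂ)) * Zt T (k * p)) +
      ((Real.sqrt Real.pi * T * P0 * ∑ p ∈ PP T, ∑ k ∈ Icc 1 N,
        (if ((k * p : ℕ) : ℝ) ≤ T ^ (1 - η) then (Real.log p / p) * (ArithmeticFunction.vonMangoldt k / k) *
        Real.log ((k * p : ℕ) : ℝ) else 0) : ℝ) : ℂ) =
      ∑ k ∈ Icc 1 N, ∑ p ∈ PP T, ((La k * ((Real.log p : ℝ) : ℂ)) * Zt T (k * p) +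
      ((Real.sqrt Real.pi * T * P0 * (if ((k * p : ℕ) : ℝ) ≤ T ^ (1 - η) then (Real.log p / p) *
        (ArithmeticFunction.vonMangoldt k / k) * Real.log ((k * p : ℕ) : ℝ) else 0) : ℝ) : ℂ)) := by
    rw [Finset.sum_comm (s := PP T), Finset.mul_sum, Complex.ofReal_sum, ← Finset.sum_add_distrib]
    refine Finset.sum_congr rfl fun k _ => ?_
    rw [Finset.mul_sum, Complex.ofReal_sum, ← Finset.sum_add_distrib]
  rw [e0]
  have e1 : ∑ k ∈ Icc 1 N, ∑ p ∈ PP T, bd k p ≤ 1 + C2 * Real.log T * T * (C4 * (η * Real.log T + 1)) +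
      C3 * Real.log T * T ^ 2 * (C5 / T) := by
    simp only [hbd, Finset.sum_add_distrib]
    exact add_le_add (add_le_add hA hB) hD
  refine (norm_sum_le_of_le _ fun k hk => norm_sum_le_of_le _ fun p hp => key k hk p hp).trans (e1.trans ?_)
  have e2 : C3 * Real.log T * T ^ 2 * (C5 / T) = C3 * C5 * (T * Real.log T) := by
    field_simp
  have e3 : 1 ≤ η * Real.log T + 1 := by
    have : 0 ≤ η * Real.log T := by positivity
    linarith
  have e4 : 1 ≤ T * Real.log T := by nlinarith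
  have e5 : T * Real.log T ≤ T * Real.log T * (η * Real.log T + 1) := le_mul_of_one_le_right (by linarith) e3
  have e6 := mul_le_mul_of_nonneg_left e5 (show 0 ≤ C3 * C5 by positivity)
  rw [e2]
  linarith

private theorem avl_P0 : 0 < P0 := by
  unfold P0
  refine intervalIntegral.intervalIntegral_pos_of_pos_on (ph_contDiff.continuous.intervalIntegrable _ _)
    (fun x hx => ?_) (by norm_num)
  exact mul_pos (Real.smoothTransition.pos_of_pos (by linarith [hx.1]))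
    (Real.smoothTransition.pos_of_pos (by linarith [hx.2]))

theorem avl : ∃ c T0 : ℝ, 0 < c ∧ 10 ≤ T0 ∧ ∀ T : ℝ, T0 ≤ T →
    c * T * (Real.log T) ^ 2 ≤
      ‖∫ t0 in T..(2 * T), ((ph (t0 / T) : ℝ) : ℂ) * (starRingEnd ℂ) (JL T (3 / 2) t0)‖ := by
  obtain ⟨c1, T1, hc1, h10, H1⟩ := msu1
  obtain ⟨C, T2, hC, -, H2⟩ := avl_A
  obtain ⟨D, hD, H3⟩ := avl_Z
  have hP0 := avl_P0
  obtain ⟨κ, hκ⟩ : ∃ κ, κ = Real.sqrt Real.pi * P0 := ⟨_, rfl⟩
  have hκ0 : 0 < κ := by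
    rw [hκ]
    have := Real.sqrt_pos.2 Real.pi_pos
    positivity
  obtain ⟨η, hη⟩ : ∃ η, η = min (1 / 4) (κ * c1 / (4 * D)) := ⟨_, rfl⟩
  have hη0 : 0 < η := by
    rw [hη]
    exact lt_min (by norm_num) (by positivity)
  have hη4 : η ≤ 1 / 4 := by
    rw [hη]
    exact min_le_left _ _
  have hDη : D * η ≤ κ * c1 / 4 := by
    have h1 : η ≤ κ * c1 / (4 * D) := by
      rw [hη]
      exact min_le_right _ _
    calc D * η ≤ D * (κ * c1 / (4 * D)) := mul_le_mul_of_nonneg_left h1 hD.le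
      _ = κ * c1 / 4 := by field_simp
  obtain ⟨T3, -, H3⟩ := H3 η hη0 hη4
  refine ⟨κ * c1 / 2, max T1 (max T2 (max T3 (max 16 (Real.exp (4 * (C + D) / (κ * c1)))))), by positivity,
    h10.trans (le_max_left _ _), fun T hT => ?_⟩
  simp only [max_le_iff] at hT
  obtain ⟨t1, t2, t3, t4, t5⟩ := hT
  have hT0 : 0 < T := by linarith
  have hT1 : 1 ≤ T := by linarith
  have hL : 4 * (C + D) / (κ * c1) ≤ Real.log T := (Real.le_log_iff_exp_le hT0).2 t5
  have hL0 : 0 ≤ Real.log T := Real.log_nonneg hT1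
  have hL' : (C + D) ≤ κ * c1 / 4 * Real.log T := by
    rw [div_le_iff₀ (by positivity)] at hL
    linarith
  have a1 := H1 T t1
  have a2 := H2 T t2
  have a3 := H3 T t3
  -- the two double sums
  have hKT : T ^ (1 - η) ≤ T := by
    calc T ^ (1 - η) ≤ T ^ (1 : ℝ) := Real.rpow_le_rpow_of_exponent_le hT1 (by linarith)
      _ = T := Real.rpow_one T
  have hS : ∑ p ∈ PP T, ∑ k ∈ Icc 1 ⌊T ^ 4⌋₊,
        (if ((k * p : ℕ) : ℝ) ≤ T ^ (1 - η) then (Real.log p / p) * (ArithmeticFunction.vonMangoldt k / k) *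
        Real.log ((k * p : ℕ) : ℝ) else 0) ≤
      ∑ p ∈ PP T, ∑ k ∈ Icc 1 ⌊T / p⌋₊, (Real.log p / p) * (ArithmeticFunction.vonMangoldt k / k) *
        Real.log ((k * p : ℕ) : ℝ) := by
    refine Finset.sum_le_sum fun p hp => ?_
    obtain ⟨p1, p2⟩ := avl_ple t4 hp
    have hp0 : (0 : ℝ) < p := by linarith
    rw [← Finset.sum_filter]
    refine Finset.sum_le_sum_of_subset_of_nonneg ?_ fun k hk _ => ?_
    · intro k hk
      obtain ⟨hk1, hk2⟩ := Finset.mem_filter.1 hk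
      refine Finset.mem_Icc.2 ⟨(Finset.mem_Icc.1 hk1).1, Nat.le_floor ?_⟩
      rw [le_div_iff₀ hp0]
      push_cast at hk2
      linarith
    · have h2 : 0 ≤ ArithmeticFunction.vonMangoldt k := ArithmeticFunction.vonMangoldt_nonneg
      have h3 : 0 ≤ Real.log p := Real.log_nonneg p2
      have h4 : 0 ≤ Real.log ((k * p : ℕ) : ℝ) := by
        refine Real.log_nonneg ?_
        have : 1 ≤ k * p := Nat.one_le_iff_ne_zero.2
          (Nat.mul_ne_zero (by have := (Finset.mem_Icc.1 hk).1; omega) (avl_pp hp).1.ne_zero)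
        exact_mod_cast this
      positivity
  set X := ∫ t0 in T..(2 * T), ((ph (t0 / T) : ℝ) : ℂ) * (starRingEnd ℂ) (JL T (3 / 2) t0) with hX
  set Z := ∑ k ∈ Icc 1 ⌊T ^ 4⌋₊, ∑ p ∈ PP T, (La k * ((Real.log p : ℝ) : ℂ)) * Zt T (k * p) with hZ
  set S1 := ∑ p ∈ PP T, (Real.log p) ^ 2 / p with hS1
  set S2 := ∑ p ∈ PP T, ∑ k ∈ Icc 1 ⌊T ^ 4⌋₊,
        (if ((k * p : ℕ) : ℝ) ≤ T ^ (1 - η) then (Real.log p / p) * (ArithmeticFunction.vonMangoldt k / k) *
        Real.log ((k * p : ℕ) : ℝ) else 0) with hS2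
  have e1 : X = ((κ * T * (Real.log T * S1 - S2) : ℝ) : ℂ) +
      ((X - ((Real.sqrt Real.pi * T * P0 * Real.log T * S1 : ℝ) : ℂ) - Z) +
      (Z + ((Real.sqrt Real.pi * T * P0 * S2 : ℝ) : ℂ))) := by
    rw [hκ]
    push_cast
    ring
  have e2 : κ * T * (Real.log T * S1 - S2) ≤ ‖((κ * T * (Real.log T * S1 - S2) : ℝ) : ℂ)‖ := by
    rw [Complex.norm_real]
    exact le_abs_self _
  have e3 : ‖((κ * T * (Real.log T * S1 - S2) : ℝ) : ℂ)‖ ≤ ‖X‖ + (C * T * Real.log T +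
      D * T * Real.log T * (η * Real.log T + 1)) := by
    have e4 : ((κ * T * (Real.log T * S1 - S2) : ℝ) : ℂ) = X -
      ((X - ((Real.sqrt Real.pi * T * P0 * Real.log T * S1 : ℝ) : ℂ) - Z) +
      (Z + ((Real.sqrt Real.pi * T * P0 * S2 : ℝ) : ℂ))) := by
      rw [eq_sub_iff_add_eq]
      exact e1.symm
    rw [e4]
    refine (norm_sub_le _ _).trans (add_le_add le_rfl ((norm_add_le _ _).trans (add_le_add a2 a3)))
  have e5 : κ * T * (c1 * (Real.log T) ^ 2) ≤ κ * T * (Real.log T * S1 - S2) :=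
    mul_le_mul_of_nonneg_left (by linarith) (by positivity)
  have e6 : D * T * Real.log T * (η * Real.log T + 1) ≤ κ * c1 / 4 * (T * (Real.log T) ^ 2) + D * (T * Real.log T) := by
    have h1 := mul_le_mul_of_nonneg_right hDη (show 0 ≤ T * (Real.log T) ^ 2 by positivity)
    linarith
  have e7 : (C + D) * (T * Real.log T) ≤ κ * c1 / 4 * (T * (Real.log T) ^ 2) := by
    have h1 := mul_le_mul_of_nonneg_right hL' (show 0 ≤ T * Real.log T by positivity)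
    linarith
  linarith

end Pool.Agent.H24.WH
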