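import Pool.Agent.H24.WH.Fdc
import Pool.Agent.H24.WH.Dls
import Pool.Agent.H24.WH.Plo

/-!
# [H24 WH AVR] the average of the right integral

PROOF. On `Re = 2`: `HR(pt (3/2) t) = sum_n sum_p aa(n) log p n^(-2) p (p/n)^(it)` (`dls_aa`, absolutely convergent). So the average is `sum_n sum_p aa(n) log p n^(-2) p · V(log p - log n)`,
`V(x) = (int_{|y|≤L^2} kk (3/2) y e^(ixy) dy)(int_T^(2T) ph(t0/T) e^(i x t0) dt0)`, `|V(x)| ≤ C T (1 + T|x|)^(-A)` (`fdc` for `ph`, `|kk (3/2) y| = e^(9/4 - y^2)`). `aa(p) = 0`; for `n ≠ p`,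
`p ≤ 4 sqrt T`: `|log p - log n| ≥ 1/(n + p) ≥ 1/(9 sqrt T)` for `n ≤ 5 sqrt T`, and `≥ log(5/4)` for `n > 5 sqrt T`. Take `A = 8`: total `≤ C T · T^(-4) · 9^8 · sum_p log p p ≤ 1`.
-/

set_option autoImplicit false

namespace Pool.Agent.H24.WH

open Complex MeasureTheory Finset Pool.Agent.H48.WN

private noncomputable def avr_K (T x : ℝ) : ℂ :=
  ∫ y in (-(Real.log T) ^ 2)..((Real.log T) ^ 2), kk (3 / 2) y * cexp (I * (x : ℂ) * (y : ℂ))

private noncomputable def avr_W (T x : ℝ) : ℂ :=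
  ∫ t0 in T..(2 * T), ((ph (t0 / T) : ℝ) : ℂ) * cexp (I * (x : ℂ) * (t0 : ℂ))

private noncomputable def avr_C (n : ℕ) : ℂ := ((aa n : ℝ) : ℂ) * (n : ℂ) ^ (-(2 : ℂ))

private theorem avr_re0 (x t : ℝ) : (I * (x : ℂ) * (t : ℂ)).re = 0 := by simp

private theorem avr_aa0 : aa 0 = 0 := by
  unfold aa
  simp

private theorem avr_kk_cont (c : ℝ) : Continuous (fun y : ℝ => kk c y) := by
  unfold kk
  fun_prop

private theorem avr_ph_cs : HasCompactSupport ph := by
  refine HasCompactSupport.intro (K := Set.Icc 1 2) isCompact_Icc fun x hx => ?_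
  by_cases h1 : x ≤ 1
  · exact ph_zero_left h1
  · by_cases h2 : 2 ≤ x
    · exact ph_zero_right h2
    · exact absurd ⟨by linarith, by linarith⟩ hx

private theorem avr_ph_cont : Continuous ph := ph_contDiff.continuous

/-- the first factor is bounded -/
private theorem avr_K_le : ∃ C : ℝ, 0 < C ∧ ∀ T x : ℝ, ‖avr_K T x‖ ≤ C := by
  have hint : Integrable (fun y : ℝ => Real.exp (-1 * y ^ 2)) := integrable_exp_neg_mul_sq one_pos
  refine ⟨Real.exp (9 / 4) * (∫ y : ℝ, Real.exp (-1 * y ^ 2)) + 1, ?_, fun T x => ?_⟩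
  · have : 0 ≤ ∫ y : ℝ, Real.exp (-1 * y ^ 2) := integral_nonneg fun y => (Real.exp_pos _).le
    positivity
  · unfold avr_K
    have hle : -(Real.log T) ^ 2 ≤ (Real.log T) ^ 2 := by nlinarith [sq_nonneg (Real.log T)]
    have h1 : ‖∫ y in (-(Real.log T) ^ 2)..((Real.log T) ^ 2), kk (3 / 2) y * cexp (I * (x : ℂ) * (y : ℂ))‖ ≤
        ∫ y in (-(Real.log T) ^ 2)..((Real.log T) ^ 2), ‖kk (3 / 2) y * cexp (I * (x : ℂ) * (y : ℂ))‖ :=
      intervalIntegral.norm_integral_le_integral_norm hle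
    have h2 : ∀ y : ℝ, ‖kk (3 / 2) y * cexp (I * (x : ℂ) * (y : ℂ))‖ = Real.exp (9 / 4) * Real.exp (-1 * y ^ 2) := by
      intro y
      rw [norm_mul, kk_norm, Complex.norm_exp, ← Real.exp_add, ← Real.exp_add]
      congr 1
      have h3 : (I * (x : ℂ) * (y : ℂ)).re = 0 := by simp
      rw [h3]
      ring
    simp_rw [h2] at h1
    refine h1.trans ?_
    rw [intervalIntegral.integral_const_mul, intervalIntegral.integral_of_le hle]
    have h4 : ∫ y in Set.Ioc (-(Real.log T) ^ 2) ((Real.log T) ^ 2), Real.exp (-1 * y ^ 2) ≤ ∫ y : ℝ, Real.exp (-1 * y ^ 2) :=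
      setIntegral_le_integral hint (Filter.Eventually.of_forall fun y => (Real.exp_pos _).le)
    have h5 := mul_le_mul_of_nonneg_left h4 (Real.exp_pos (9 / 4)).le
    linarith

/-- the second factor -/
private theorem avr_W_le : ∃ C : ℝ, 0 < C ∧ ∀ T : ℝ, 0 < T → ∀ x : ℝ,
    ‖avr_W T x‖ ≤ C * T * (1 + T * |x|) ^ (-(8 : ℝ)) := by
  obtain ⟨C, hC, h⟩ := fdc ph ph_contDiff avr_ph_cs 8
  refine ⟨C, hC, fun T hT x => ?_⟩
  have hT' : (T : ℂ) ≠ 0 := by exact_mod_cast hT.ne'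
  have h1 : avr_W T x = (T : ℂ) * ∫ u : ℝ, ((ph u : ℝ) : ℂ) * cexp (I * ((T * x : ℝ) : ℂ) * (u : ℂ)) := by
    unfold avr_W
    have e1 : ∫ t0 in T..(2 * T), ((ph (t0 / T) : ℝ) : ℂ) * cexp (I * (x : ℂ) * (t0 : ℂ)) =
        ∫ t0 in T..(2 * T), (fun u : ℝ => ((ph u : ℝ) : ℂ) * cexp (I * ((T * x : ℝ) : ℂ) * (u : ℂ))) (t0 / T) := by
      refine intervalIntegral.integral_congr fun t0 _ => ?_
      simp only
      congr 2
      push_cast
      field_simp
    have e0 := intervalIntegral.integral_comp_div (a := T) (b := 2 * T)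
      (fun u : ℝ => ((ph u : ℝ) : ℂ) * cexp (I * ((T * x : ℝ) : ℂ) * (u : ℂ))) hT.ne'
    rw [e1]
    refine e0.trans ?_
    have e2 : T / T = 1 := div_self hT.ne'
    have e3 : 2 * T / T = 2 := by field_simp
    rw [e2, e3, Complex.real_smul]
    congr 1
    rw [intervalIntegral.integral_of_le (by norm_num)]
    refine setIntegral_eq_integral_of_forall_compl_eq_zero fun u hu => ?_
    have hu0 : ph u = 0 := by
      by_cases h1 : u ≤ 1
      · exact ph_zero_left h1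
      · exact ph_zero_right (le_of_not_ge fun h2 => hu ⟨lt_of_not_ge h1, h2⟩)
    rw [hu0]
    simp
  rw [h1, norm_mul, Complex.norm_real, Real.norm_of_nonneg hT.le]
  have h2 := h (T * x)
  rw [abs_mul, abs_of_pos hT] at h2
  calc T * _ ≤ T * (C * (1 + T * |x|) ^ (-((8 : ℕ) : ℝ))) := mul_le_mul_of_nonneg_left h2 hT.le
    _ = C * T * (1 + T * |x|) ^ (-(8 : ℝ)) := by
      push_cast
      ring

private theorem avr_ptw (n : ℕ) (T t : ℝ) :
    ((aa n : ℝ) : ℂ) * (n : ℂ) ^ (-(pt (3 / 2) t)) * Bp T (pt (3 / 2) t) =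
      ∑ p ∈ PP T, avr_C n * (((Real.log p : ℝ) : ℂ) * (p : ℂ)) *
        cexp (I * ((Real.log p - Real.log n : ℝ) : ℂ) * (t : ℂ)) := by
  unfold Bp avr_C
  rw [mul_sum]
  refine sum_congr rfl fun p hp => ?_
  have hpp : p.Prime := (mem_filter.mp hp).2
  have hp0 : (p : ℂ) ≠ 0 := by exact_mod_cast hpp.ne_zero
  rcases Nat.eq_zero_or_pos n with hn | hn
  · subst hn
    rw [avr_aa0]
    simp
  · have hn0 : (n : ℂ) ≠ 0 := by exact_mod_cast hn.ne'
    have e1 : pt (3 / 2) t = 2 + (t : ℂ) * I := by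
      unfold pt
      push_cast
      ring
    have e2 : (n : ℂ) ^ (-(pt (3 / 2) t)) = (n : ℂ) ^ (-(2 : ℂ)) * cexp (-((Real.log n : ℝ) : ℂ) * ((t : ℂ) * I)) := by
      rw [e1, neg_add, Complex.cpow_add _ _ hn0]
      congr 1
      rw [Complex.cpow_def_of_ne_zero hn0, Complex.natCast_log]
      congr 1
      ring
    have e3 : (p : ℂ) ^ (pt (3 / 2) t - 1) = (p : ℂ) * cexp (((Real.log p : ℝ) : ℂ) * ((t : ℂ) * I)) := by
      have e4 : pt (3 / 2) t - 1 = 1 + (t : ℂ) * I := by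
        rw [e1]
        ring
      rw [e4, Complex.cpow_add _ _ hp0, Complex.cpow_one]
      congr 1
      rw [Complex.cpow_def_of_ne_zero hp0, Complex.natCast_log]
    have e5 : cexp (I * ((Real.log p - Real.log n : ℝ) : ℂ) * (t : ℂ)) =
        cexp (-((Real.log n : ℝ) : ℂ) * ((t : ℂ) * I)) * cexp (((Real.log p : ℝ) : ℂ) * ((t : ℂ) * I)) := by
      rw [← Complex.exp_add]
      congr 1
      push_cast
      ring
    rw [e2, e3, e5]
    ring

private theorem avr_inner (n : ℕ) (T t0 : ℝ) :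
    ∫ y in (-(Real.log T) ^ 2)..((Real.log T) ^ 2), kk (3 / 2) y *
        (((aa n : ℝ) : ℂ) * (n : ℂ) ^ (-(pt (3 / 2) (t0 + y))) * Bp T (pt (3 / 2) (t0 + y))) =
      ∑ p ∈ PP T, avr_C n * (((Real.log p : ℝ) : ℂ) * (p : ℂ)) *
        cexp (I * ((Real.log p - Real.log n : ℝ) : ℂ) * (t0 : ℂ)) * avr_K T (Real.log p - Real.log n) := by
  have h1 : ∀ y : ℝ, kk (3 / 2) y *
      (((aa n : ℝ) : ℂ) * (n : ℂ) ^ (-(pt (3 / 2) (t0 + y))) * Bp T (pt (3 / 2) (t0 + y))) =
      ∑ p ∈ PP T, avr_C n * (((Real.log p : ℝ) : ℂ) * (p : ℂ)) *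
        cexp (I * ((Real.log p - Real.log n : ℝ) : ℂ) * (t0 : ℂ)) *
        (kk (3 / 2) y * cexp (I * ((Real.log p - Real.log n : ℝ) : ℂ) * (y : ℂ))) := by
    intro y
    rw [avr_ptw, mul_sum]
    refine sum_congr rfl fun p _ => ?_
    have e5 : cexp (I * ((Real.log p - Real.log n : ℝ) : ℂ) * ((t0 + y : ℝ) : ℂ)) =
        cexp (I * ((Real.log p - Real.log n : ℝ) : ℂ) * (t0 : ℂ)) *
          cexp (I * ((Real.log p - Real.log n : ℝ) : ℂ) * (y : ℂ)) := by
      rw [← Complex.exp_add]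
      congr 1
      push_cast
      ring
    rw [e5]
    ring
  simp_rw [h1]
  rw [intervalIntegral.integral_finsetSum]
  · refine sum_congr rfl fun p _ => ?_
    rw [intervalIntegral.integral_const_mul]
    rfl
  · intro p _
    refine Continuous.intervalIntegrable ?_ _ _
    have := avr_kk_cont (3 / 2)
    fun_prop

private theorem avr_outer (n : ℕ) (T : ℝ) :
    ∫ t0 in T..(2 * T), ((ph (t0 / T) : ℝ) : ℂ) *
      (∑ p ∈ PP T, avr_C n * (((Real.log p : ℝ) : ℂ) * (p : ℂ)) *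
        cexp (I * ((Real.log p - Real.log n : ℝ) : ℂ) * (t0 : ℂ)) * avr_K T (Real.log p - Real.log n)) =
      ∑ p ∈ PP T, avr_C n * (((Real.log p : ℝ) : ℂ) * (p : ℂ)) *
        avr_K T (Real.log p - Real.log n) * avr_W T (Real.log p - Real.log n) := by
  have h1 : ∀ t0 : ℝ, ((ph (t0 / T) : ℝ) : ℂ) *
      (∑ p ∈ PP T, avr_C n * (((Real.log p : ℝ) : ℂ) * (p : ℂ)) *
        cexp (I * ((Real.log p - Real.log n : ℝ) : ℂ) * (t0 : ℂ)) * avr_K T (Real.log p - Real.log n)) =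
      ∑ p ∈ PP T, avr_C n * (((Real.log p : ℝ) : ℂ) * (p : ℂ)) * avr_K T (Real.log p - Real.log n) *
        (((ph (t0 / T) : ℝ) : ℂ) * cexp (I * ((Real.log p - Real.log n : ℝ) : ℂ) * (t0 : ℂ))) := by
    intro t0
    rw [mul_sum]
    refine sum_congr rfl fun p _ => ?_
    ring
  simp_rw [h1]
  rw [intervalIntegral.integral_finsetSum]
  · refine sum_congr rfl fun p _ => ?_
    rw [intervalIntegral.integral_const_mul]
    rfl
  · intro p _
    refine Continuous.intervalIntegrable ?_ _ _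
    have := avr_ph_cont
    fun_prop

/-- separation of the logarithms -/
private theorem avr_sep (T : ℝ) (hT : 10 ≤ T) (n p : ℕ) (hn : 0 < n) (hp : 0 < p) (hnp : n ≠ p)
    (hpT : (p : ℝ) ≤ 4 * Real.sqrt T) : 1 / (5 * Real.sqrt T) ≤ |Real.log p - Real.log n| := by
  have hs : 1 ≤ Real.sqrt T := Real.one_le_sqrt.mpr (by linarith)
  have hn' : (0 : ℝ) < n := by exact_mod_cast hn
  have hp' : (0 : ℝ) < p := by exact_mod_cast hp
  rcases lt_or_gt_of_ne hnp with h | h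
  · -- n < p
    have h1 : (n : ℝ) + 1 ≤ p := by exact_mod_cast h
    have h2 : 1 - (p / n : ℝ)⁻¹ ≤ Real.log (p / n) := Real.one_sub_inv_le_log_of_pos (by positivity)
    have h3 : 1 / (p : ℝ) ≤ 1 - (p / n : ℝ)⁻¹ := by
      rw [inv_div, le_sub_iff_add_le, ← add_div, div_le_one hp']
      linarith
    have h4 : 1 / (5 * Real.sqrt T) ≤ 1 / (p : ℝ) := by
      apply one_div_le_one_div_of_le hp'
      linarith
    rw [← Real.log_div hp'.ne' hn'.ne']
    exact (h4.trans (h3.trans h2)).trans (le_abs_self _)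
  · -- p < n
    have h1 : (p : ℝ) + 1 ≤ n := by exact_mod_cast h
    have h2 : 1 - (n / p : ℝ)⁻¹ ≤ Real.log (n / p) := Real.one_sub_inv_le_log_of_pos (by positivity)
    have h3 : 1 / (5 * Real.sqrt T) ≤ 1 - (n / p : ℝ)⁻¹ := by
      rw [inv_div]
      rcases le_or_gt (n : ℝ) (5 * Real.sqrt T) with h5 | h5
      · have h6 : 1 / (5 * Real.sqrt T) ≤ 1 / (n : ℝ) := one_div_le_one_div_of_le hn' h5
        have h7 : 1 / (n : ℝ) ≤ 1 - (p : ℝ) / n := by
          rw [le_sub_iff_add_le, ← add_div, div_le_one hn']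
          linarith
        exact h6.trans h7
      · have h6 : (p : ℝ) / n ≤ 4 / 5 := by
          rw [div_le_iff₀ hn']
          linarith
        have h7 : 1 / (5 * Real.sqrt T) ≤ 1 / 5 := by
          apply one_div_le_one_div_of_le (by norm_num)
          linarith
        linarith
    rw [abs_sub_comm, ← Real.log_div hn'.ne' hp'.ne']
    exact (h3.trans h2).trans (le_abs_self _)

private theorem avr_dec (T x : ℝ) (hT : 10 ≤ T) (hx : 1 / (5 * Real.sqrt T) ≤ |x|) :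
    (1 + T * |x|) ^ (-(8 : ℝ)) ≤ 5 ^ 8 / T ^ 4 := by
  have hT0 : 0 < T := by linarith
  have hs : 0 < Real.sqrt T := Real.sqrt_pos.mpr hT0
  have hss : Real.sqrt T * Real.sqrt T = T := Real.mul_self_sqrt hT0.le
  have h1 : Real.sqrt T / 5 ≤ 1 + T * |x| := by
    have h2 : T * (1 / (5 * Real.sqrt T)) ≤ T * |x| := mul_le_mul_of_nonneg_left hx hT0.le
    have h3 : T * (1 / (5 * Real.sqrt T)) = Real.sqrt T / 5 := by
      rw [mul_one_div, div_eq_div_iff (by positivity) (by norm_num)]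
      nlinarith
    linarith
  have h4 : 0 < Real.sqrt T / 5 := by positivity
  rw [Real.rpow_neg (by positivity)]
  have e8 : (1 + T * |x|) ^ (8 : ℝ) = (1 + T * |x|) ^ (8 : ℕ) := by
    rw [← Real.rpow_natCast]
    norm_num
  rw [e8]
  have h5 : (Real.sqrt T / 5) ^ 8 ≤ (1 + T * |x|) ^ 8 := pow_le_pow_left₀ h4.le h1 8
  have h6 : (Real.sqrt T / 5) ^ 8 = T ^ 4 / 5 ^ 8 := by
    rw [div_pow]
    congr 1
    calc Real.sqrt T ^ 8 = (Real.sqrt T * Real.sqrt T) ^ 4 := by ring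
      _ = T ^ 4 := by rw [hss]
  rw [h6] at h5
  calc ((1 + T * |x|) ^ 8)⁻¹ ≤ (T ^ 4 / 5 ^ 8)⁻¹ := inv_anti₀ (by positivity) h5
    _ = 5 ^ 8 / T ^ 4 := by rw [inv_div]

/-- the sum over the primes -/
private theorem avr_sumPP (T : ℝ) (hT : 10 ≤ T) : ∑ p ∈ PP T, Real.log p * p ≤ 64 * (T * Real.sqrt T) := by
  have hT0 : 0 < T := by linarith
  have hs : 0 < Real.sqrt T := Real.sqrt_pos.mpr hT0
  have hss : Real.sqrt T * Real.sqrt T = T := Real.mul_self_sqrt hT0.le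
  have h1 : ∀ p ∈ PP T, Real.log p * p ≤ 16 * T := by
    intro p hp
    obtain ⟨hpp, _, hp2⟩ := plo_mem T hT p hp
    have hp0 : (0 : ℝ) < p := by exact_mod_cast hpp.pos
    have h2 : Real.log p ≤ p := (Real.log_le_sub_one_of_pos hp0).trans (by linarith)
    calc Real.log p * p ≤ p * p := mul_le_mul_of_nonneg_right h2 hp0.le
      _ ≤ (4 * Real.sqrt T) * (4 * Real.sqrt T) := mul_le_mul hp2 hp2 hp0.le (by positivity)
      _ = 16 * (Real.sqrt T * Real.sqrt T) := by ring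
      _ = 16 * T := by rw [hss]
  have h3 : ((PP T).card : ℝ) ≤ 4 * Real.sqrt T := by
    have h4 : (PP T).card ≤ 4 * ⌊Real.sqrt T⌋₊ := by
      unfold PP
      refine (card_filter_le _ _).trans ?_
      rw [Nat.card_Ioc]
      exact Nat.sub_le _ _
    have h5 : ((4 * ⌊Real.sqrt T⌋₊ : ℕ) : ℝ) ≤ 4 * Real.sqrt T := by
      push_cast
      have := Nat.floor_le hs.le
      linarith
    exact (by exact_mod_cast h4 : ((PP T).card : ℝ) ≤ ((4 * ⌊Real.sqrt T⌋₊ : ℕ) : ℝ)).trans h5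
  calc ∑ p ∈ PP T, Real.log p * p ≤ (PP T).card • (16 * T) := sum_le_card_nsmul _ _ _ h1
    _ = ((PP T).card : ℝ) * (16 * T) := by rw [nsmul_eq_mul]
    _ ≤ 4 * Real.sqrt T * (16 * T) := mul_le_mul_of_nonneg_right h3 (by positivity)
    _ = 64 * (T * Real.sqrt T) := by ring

private theorem avr_summable : Summable (fun n : ℕ => ‖avr_C n‖) := by
  obtain ⟨C, _, h⟩ := dls_tail
  have h1 := (h 2 le_rfl 1 le_rfl (fun n => ((aa n : ℝ) : ℂ)) (fun n => ?_) 2 (by simp)).1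
  · exact h1.norm
  · rw [Complex.norm_real, Real.norm_of_nonneg (aa_nonneg n)]
    refine (aa_le n).trans ?_
    rcases Nat.eq_zero_or_pos n with hn | hn
    · subst hn
      simp
    · have : 0 ≤ Real.log n := Real.log_nonneg (by exact_mod_cast hn)
      nlinarith

/-- one coefficient -/
private theorem avr_coef : ∃ C : ℝ, 0 < C ∧ ∀ T : ℝ, 10 ≤ T → ∀ n : ℕ,
    ‖∑ p ∈ PP T, avr_C n * (((Real.log p : ℝ) : ℂ) * (p : ℂ)) *
        avr_K T (Real.log p - Real.log n) * avr_W T (Real.log p - Real.log n)‖ ≤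
      ‖avr_C n‖ * (C * (Real.sqrt T / T ^ 2)) := by
  obtain ⟨C1, hC1, hK⟩ := avr_K_le
  obtain ⟨C2, hC2, hW⟩ := avr_W_le
  refine ⟨64 * 5 ^ 8 * C1 * C2, by positivity, fun T hT n => ?_⟩
  have hT0 : 0 < T := by linarith
  have hs : 0 < Real.sqrt T := Real.sqrt_pos.mpr hT0
  have h1 : ∀ p ∈ PP T, ‖avr_C n * (((Real.log p : ℝ) : ℂ) * (p : ℂ)) *
        avr_K T (Real.log p - Real.log n) * avr_W T (Real.log p - Real.log n)‖ ≤
      ‖avr_C n‖ * (C1 * (C2 * T * (5 ^ 8 / T ^ 4))) * (Real.log p * p) := by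
    intro p hp
    obtain ⟨hpp, _, hp2⟩ := plo_mem T hT p hp
    have hp1 : (1 : ℝ) ≤ p := by exact_mod_cast hpp.one_le
    have hlog : 0 ≤ Real.log p := Real.log_nonneg hp1
    rcases Nat.eq_zero_or_pos n with hn | hn
    · subst hn
      have : avr_C 0 = 0 := by
        unfold avr_C
        rw [avr_aa0]
        simp
      rw [this]
      simp
    · by_cases hnp : n = p
      · subst hnp
        have : avr_C n = 0 := by
          unfold avr_C
          rw [aa_prime n hpp]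
          simp
        rw [this]
        simp
      · have hsep := avr_sep T hT n p hn hpp.pos hnp hp2
        have hd := avr_dec T (Real.log p - Real.log n) hT hsep
        have hW1 : ‖avr_W T (Real.log p - Real.log n)‖ ≤ C2 * T * (5 ^ 8 / T ^ 4) :=
          (hW T hT0 _).trans (mul_le_mul_of_nonneg_left hd (by positivity))
        rw [norm_mul, norm_mul, norm_mul, norm_mul, Complex.norm_real, Real.norm_of_nonneg hlog, Complex.norm_natCast]
        calc ‖avr_C n‖ * (Real.log p * p) * ‖avr_K T (Real.log p - Real.log n)‖ * ‖avr_W T (Real.log p - Real.log n)‖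
            ≤ ‖avr_C n‖ * (Real.log p * p) * C1 * (C2 * T * (5 ^ 8 / T ^ 4)) := by
              refine mul_le_mul ?_ hW1 (norm_nonneg _) (by positivity)
              exact mul_le_mul_of_nonneg_left (hK T _) (by positivity)
          _ = ‖avr_C n‖ * (C1 * (C2 * T * (5 ^ 8 / T ^ 4))) * (Real.log p * p) := by ring
  refine (norm_sum_le _ _).trans ((sum_le_sum h1).trans ?_)
  rw [← mul_sum]
  calc ‖avr_C n‖ * (C1 * (C2 * T * (5 ^ 8 / T ^ 4))) * ∑ p ∈ PP T, Real.log p * p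
      ≤ ‖avr_C n‖ * (C1 * (C2 * T * (5 ^ 8 / T ^ 4))) * (64 * (T * Real.sqrt T)) :=
        mul_le_mul_of_nonneg_left (avr_sumPP T hT) (by positivity)
    _ = ‖avr_C n‖ * (64 * 5 ^ 8 * C1 * C2 * (Real.sqrt T / T ^ 2)) := by
      field_simp

private theorem avr_PPbd (T t : ℝ) (hT : 10 ≤ T) (n : ℕ) :
    ‖((aa n : ℝ) : ℂ) * (n : ℂ) ^ (-(pt (3 / 2) t)) * Bp T (pt (3 / 2) t)‖ ≤
      ‖avr_C n‖ * (64 * (T * Real.sqrt T)) := by
  rw [avr_ptw]
  refine (norm_sum_le _ _).trans ?_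
  have h1 : ∀ p ∈ PP T, ‖avr_C n * (((Real.log p : ℝ) : ℂ) * (p : ℂ)) *
        cexp (I * ((Real.log p - Real.log n : ℝ) : ℂ) * (t : ℂ))‖ ≤ ‖avr_C n‖ * (Real.log p * p) := by
    intro p hp
    obtain ⟨hpp, _, _⟩ := plo_mem T hT p hp
    have hp1 : (1 : ℝ) ≤ p := by exact_mod_cast hpp.one_le
    have hlog : 0 ≤ Real.log p := Real.log_nonneg hp1
    have h3 := avr_re0 (Real.log p - Real.log n) t
    rw [norm_mul, norm_mul, norm_mul, Complex.norm_real, Real.norm_of_nonneg hlog, Complex.norm_natCast,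
      Complex.norm_exp, h3, Real.exp_zero, mul_one]
  refine (sum_le_sum h1).trans ?_
  rw [← mul_sum]
  exact mul_le_mul_of_nonneg_left (avr_sumPP T hT) (norm_nonneg _)

/-- the inner series -/
private theorem avr_JR (T t0 : ℝ) (hT : 10 ≤ T) :
    HasSum (fun n : ℕ => ∑ p ∈ PP T, avr_C n * (((Real.log p : ℝ) : ℂ) * (p : ℂ)) *
        cexp (I * ((Real.log p - Real.log n : ℝ) : ℂ) * (t0 : ℂ)) * avr_K T (Real.log p - Real.log n))
      (JR T (3 / 2) t0) := by
  have h := intervalIntegral.hasSum_integral_of_dominated_convergence (μ := volume)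
    (a := -(Real.log T) ^ 2) (b := (Real.log T) ^ 2)
    (F := fun (n : ℕ) (y : ℝ) => kk (3 / 2) y *
        (((aa n : ℝ) : ℂ) * (n : ℂ) ^ (-(pt (3 / 2) (t0 + y))) * Bp T (pt (3 / 2) (t0 + y))))
    (f := fun y => kk (3 / 2) y * HR T (pt (3 / 2) (t0 + y)))
    (fun n _ => Real.exp (9 / 4) * (‖avr_C n‖ * (64 * (T * Real.sqrt T)))) ?_ ?_ ?_ ?_ ?_
  · simp_rw [avr_inner] at h
    exact h
  · intro n
    refine Continuous.aestronglyMeasurable ?_
    have := avr_kk_cont (3 / 2)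
    simp_rw [avr_ptw]
    fun_prop
  · intro n
    refine Filter.Eventually.of_forall fun y _ => ?_
    rw [norm_mul, kk_norm]
    refine mul_le_mul ?_ (avr_PPbd T _ hT n) (norm_nonneg _) (Real.exp_pos _).le
    apply Real.exp_le_exp.mpr
    nlinarith [sq_nonneg y]
  · refine Filter.Eventually.of_forall fun y _ => ?_
    exact (avr_summable.mul_right _).mul_left _
  · exact intervalIntegrable_const
  · refine Filter.Eventually.of_forall fun y _ => ?_
    refine HasSum.mul_left _ ?_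
    have hre : 1 < (pt (3 / 2) (t0 + y)).re := by
      rw [pt_re]
      norm_num
    have := (dls_aa (pt (3 / 2) (t0 + y)) hre).mul_right (Bp T (pt (3 / 2) (t0 + y)))
    exact this

private theorem avr_inner_bd (T t0 : ℝ) (hT : 10 ≤ T) (C : ℝ) (hK : ∀ T x : ℝ, ‖avr_K T x‖ ≤ C) (n : ℕ) :
    ‖∑ p ∈ PP T, avr_C n * (((Real.log p : ℝ) : ℂ) * (p : ℂ)) *
        cexp (I * ((Real.log p - Real.log n : ℝ) : ℂ) * (t0 : ℂ)) * avr_K T (Real.log p - Real.log n)‖ ≤
      ‖avr_C n‖ * (64 * (T * Real.sqrt T)) * C := by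
  have hC : 0 ≤ C := (norm_nonneg _).trans (hK 0 0)
  refine (norm_sum_le _ _).trans ?_
  have h1 : ∀ p ∈ PP T, ‖avr_C n * (((Real.log p : ℝ) : ℂ) * (p : ℂ)) *
        cexp (I * ((Real.log p - Real.log n : ℝ) : ℂ) * (t0 : ℂ)) * avr_K T (Real.log p - Real.log n)‖ ≤
        ‖avr_C n‖ * (Real.log p * p) * C := by
    intro p hp
    obtain ⟨hpp, _, _⟩ := plo_mem T hT p hp
    have hp1 : (1 : ℝ) ≤ p := by exact_mod_cast hpp.one_le
    have hlog : 0 ≤ Real.log p := Real.log_nonneg hp1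
    have h3 := avr_re0 (Real.log p - Real.log n) t0
    rw [norm_mul, norm_mul, norm_mul, norm_mul, Complex.norm_real, Real.norm_of_nonneg hlog, Complex.norm_natCast,
      Complex.norm_exp, h3, Real.exp_zero, mul_one]
    exact mul_le_mul_of_nonneg_left (hK _ _) (by positivity)
  refine (sum_le_sum h1).trans ?_
  rw [← sum_mul, ← mul_sum]
  exact mul_le_mul_of_nonneg_right (mul_le_mul_of_nonneg_left (avr_sumPP T hT) (norm_nonneg _)) hC

/-- the double series -/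
private theorem avr_sum (T : ℝ) (hT : 10 ≤ T) :
    HasSum (fun n : ℕ => ∑ p ∈ PP T, avr_C n * (((Real.log p : ℝ) : ℂ) * (p : ℂ)) *
        avr_K T (Real.log p - Real.log n) * avr_W T (Real.log p - Real.log n))
      (∫ t0 in T..(2 * T), ((ph (t0 / T) : ℝ) : ℂ) * JR T (3 / 2) t0) := by
  obtain ⟨C1, hC1, hK⟩ := avr_K_le
  have h := intervalIntegral.hasSum_integral_of_dominated_convergence (μ := volume)
    (a := T) (b := 2 * T)
    (F := fun (n : ℕ) (t0 : ℝ) => ((ph (t0 / T) : ℝ) : ℂ) *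
      (∑ p ∈ PP T, avr_C n * (((Real.log p : ℝ) : ℂ) * (p : ℂ)) *
        cexp (I * ((Real.log p - Real.log n : ℝ) : ℂ) * (t0 : ℂ)) * avr_K T (Real.log p - Real.log n)))
    (f := fun t0 => ((ph (t0 / T) : ℝ) : ℂ) * JR T (3 / 2) t0)
    (fun n _ => ‖avr_C n‖ * (64 * (T * Real.sqrt T)) * C1) ?_ ?_ ?_ ?_ ?_
  · simp_rw [avr_outer] at h
    exact h
  · intro n
    refine Continuous.aestronglyMeasurable ?_
    have := avr_ph_cont
    fun_prop
  · intro n
    refine Filter.Eventually.of_forall fun t0 _ => ?_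
    rw [norm_mul, Complex.norm_real, Real.norm_of_nonneg (ph_nonneg _)]
    refine (mul_le_of_le_one_left (norm_nonneg _) (ph_le _)).trans ?_
    exact avr_inner_bd T t0 hT C1 hK n
  · refine Filter.Eventually.of_forall fun y _ => ?_
    exact (avr_summable.mul_right _).mul_right _
  · exact intervalIntegrable_const
  · refine Filter.Eventually.of_forall fun t0 _ => ?_
    exact (avr_JR T t0 hT).mul_left _

theorem avr : ∃ T0 : ℝ, 10 ≤ T0 ∧ ∀ T : ℝ, T0 ≤ T →
    ‖∫ t0 in T..(2 * T), ((ph (t0 / T) : ℝ) : ℂ) * JR T (3 / 2) t0‖ ≤ 1 := by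
  obtain ⟨C, hC, hcoef⟩ := avr_coef
  set S : ℝ := ∑' n : ℕ, ‖avr_C n‖ with hS
  have hS0 : 0 ≤ S := tsum_nonneg fun n => norm_nonneg _
  refine ⟨max 10 (S * C), le_max_left _ _, fun T hT => ?_⟩
  have hT10 : 10 ≤ T := (le_max_left _ _).trans hT
  have hTS : S * C ≤ T := (le_max_right _ _).trans hT
  have hT0 : 0 < T := by linarith
  have hg : HasSum (fun n : ℕ => ‖avr_C n‖ * (C * (Real.sqrt T / T ^ 2))) (S * (C * (Real.sqrt T / T ^ 2))) :=
    avr_summable.hasSum.mul_right _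
  have h1 := (avr_sum T hT10).norm_le_of_bounded hg (fun n => hcoef T hT10 n)
  refine h1.trans ?_
  have h2 : Real.sqrt T ≤ T := by
    rw [Real.sqrt_le_left hT0.le]
    nlinarith
  have h3 : Real.sqrt T / T ^ 2 ≤ 1 / T := by
    rw [div_le_div_iff₀ (by positivity) hT0]
    nlinarith
  calc S * (C * (Real.sqrt T / T ^ 2)) = S * C * (Real.sqrt T / T ^ 2) := by ring
    _ ≤ S * C * (1 / T) := mul_le_mul_of_nonneg_left h3 (by positivity)
    _ ≤ 1 := by
      rw [mul_one_div, div_le_one hT0]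
      exact hTS

end Pool.Agent.H24.WH
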