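import Pool.Agent.H24.WH.Defs
import Pool.Agent.H43.SI.Mvt

/-!
# [H24 WH BMS] mean square of the test polynomial

PROOF. `Bp T (pt x t) = sum_p log p p^(-1/2+x) p^(it)`; the conjugate is a Dirichlet polynomial of length `4 sqrt T`: `mvt` with `T' = 3T`: `≤ C (T + 4 sqrt T) sum_p log^2 p p^(-1+2x)`,
`p^(2x) ≤ (4 sqrt T)^(2|x|)`, `sum_p log^2 p/p ≤ C L^2` (trivially `sum_{n ≤ 4 sqrt T} 1/n ≤ 2 L`, `log p ≤ L`: gives `L^3`).
-/

set_option autoImplicit false

namespace Pool.Agent.H24.WH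

open Complex MeasureTheory Finset Pool.Agent.H48.WN

private theorem bms_conj (T x t : ℝ) : (starRingEnd ℂ) (Bp T (pt x t)) =
    ∑ n ∈ Icc 1 (4 * ⌊Real.sqrt T⌋₊), (if n ∈ PP T then
      ((Real.log n * (n : ℝ) ^ (x - 1 / 2) : ℝ) : ℂ) else 0) * (n : ℂ) ^ (-((t : ℂ) * I)) := by
  have h1 : PP T ⊆ Icc 1 (4 * ⌊Real.sqrt T⌋₊) := by
    intro n hn
    unfold PP at hn
    rw [mem_filter, mem_Ioc] at hn
    rw [mem_Icc]
    exact ⟨hn.2.one_le, hn.1.2⟩
  rw [← sum_subset h1 (by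
    intro n _ hn
    rw [if_neg hn, zero_mul])]
  unfold Bp
  rw [map_sum]
  refine sum_congr rfl fun p hp => ?_
  rw [if_pos hp, map_mul, Complex.conj_ofReal]
  have hp1 : p.Prime := by
    unfold PP at hp
    exact (mem_filter.1 hp).2
  have hp0 : (0 : ℝ) < p := by exact_mod_cast hp1.pos
  have hp0' : (p : ℂ) ≠ 0 := by exact_mod_cast hp1.ne_zero
  have e1 : pt x t - 1 = ((x - 1 / 2 : ℝ) : ℂ) + (t : ℂ) * I := by
    unfold pt
    push_cast
    ring
  have e2 : (starRingEnd ℂ) ((p : ℂ) ^ (pt x t - 1)) =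
      (p : ℂ) ^ ((starRingEnd ℂ) (pt x t - 1)) := by
    have h := Complex.cpow_conj (p : ℂ) (pt x t - 1) (by
      rw [Complex.natCast_arg]
      exact Real.pi_pos.ne)
    rw [h, Complex.conj_natCast]
  rw [e2, e1, map_add, Complex.conj_ofReal, map_mul, Complex.conj_ofReal, Complex.conj_I,
    Complex.cpow_add _ _ hp0', Complex.ofReal_mul, Complex.ofReal_cpow hp0.le, mul_assoc, mul_neg]
  norm_cast

theorem bms : ∃ C : ℝ, 0 < C ∧ ∀ T : ℝ, 100 ≤ T → ∀ x : ℝ, |x| ≤ 1 / 8 →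
    ∫ t in (T / 2)..(3 * T), ‖Bp T (pt x t)‖ ^ 2 ≤ C * T ^ (1 + |x|) * (Real.log T) ^ 3 := by
  obtain ⟨C, hC, hmvt⟩ := Pool.Agent.H43.SI.mvt
  refine ⟨48 * C, by positivity, ?_⟩
  intro T hT x hx
  have hT0 : 0 < T := by linarith
  set M := ⌊Real.sqrt T⌋₊ with hM
  have hsq : Real.sqrt T ^ 2 = T := Real.sq_sqrt hT0.le
  have hs10 : 10 ≤ Real.sqrt T := by
    have : Real.sqrt 100 ≤ Real.sqrt T := Real.sqrt_le_sqrt hT
    have h2 : Real.sqrt 100 = 10 := by
      rw [show (100 : ℝ) = 10 ^ 2 by norm_num]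
      exact Real.sqrt_sq (by norm_num)
    rwa [h2] at this
  have hM1 : 1 ≤ M := by
    rw [hM]
    apply Nat.le_floor
    push_cast
    linarith
  have hMs : (M : ℝ) ≤ Real.sqrt T := Nat.floor_le (Real.sqrt_nonneg _)
  have hM0 : (0 : ℝ) < M := by exact_mod_cast hM1
  have h4M : 4 * (M : ℝ) ≤ T := by nlinarith
  set a : ℕ → ℂ := fun n => if n ∈ PP T then
      ((Real.log n * (n : ℝ) ^ (x - 1 / 2) : ℝ) : ℂ) else 0 with ha
  have hnorm : ∀ t : ℝ, ‖Bp T (pt x t)‖ =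
      ‖∑ n ∈ Icc 1 (4 * M), a n * (n : ℂ) ^ (-((t : ℂ) * Complex.I))‖ := by
    intro t
    rw [← Complex.norm_conj, bms_conj T x t]
  have hcont : Continuous fun t : ℝ =>
      ‖∑ n ∈ Icc 1 (4 * M), a n * (n : ℂ) ^ (-((t : ℂ) * Complex.I))‖ ^ 2 := by
    refine (Continuous.norm ?_).pow 2
    refine continuous_finsetSum _ fun n hn => ?_
    have hn0 : (n : ℂ) ≠ 0 := by
      rw [mem_Icc] at hn
      have : n ≠ 0 := by omega
      exact_mod_cast this
    refine continuous_const.mul ?_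
    exact Continuous.const_cpow (by fun_prop) (Or.inl hn0)
  have h1 : ∫ t in (T / 2)..(3 * T), ‖Bp T (pt x t)‖ ^ 2 ≤
      ∫ t in (-(3 * T))..(3 * T),
        ‖∑ n ∈ Icc 1 (4 * M), a n * (n : ℂ) ^ (-((t : ℂ) * Complex.I))‖ ^ 2 := by
    simp only [hnorm]
    refine intervalIntegral.integral_mono_interval (by linarith) (by linarith) le_rfl ?_
      (hcont.intervalIntegrable _ _)
    exact Filter.Eventually.of_forall fun t => by positivity
  have h2 := hmvt (4 * M) (3 * T) a (by omega) (by linarith)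
  have hlog0 : 1 ≤ Real.log T := by
    rw [Real.le_log_iff_exp_le hT0]
    have := Real.exp_one_lt_d9
    linarith
  have hTx : 1 ≤ T ^ |x| := Real.one_le_rpow (by linarith) (abs_nonneg x)
  have hterm : ∀ n ∈ PP T, ‖a n‖ ^ 2 ≤ (Real.log T) ^ 2 * (4 * T ^ |x|) * (1 / M) := by
    intro n hn
    have hn' := hn
    unfold PP at hn'
    rw [mem_filter, mem_Ioc] at hn'
    obtain ⟨⟨hn1, hn2⟩, hn3⟩ := hn'
    have hnpos : (0 : ℝ) < n := by exact_mod_cast hn3.pos
    have hn1' : (M : ℝ) ≤ n := by exact_mod_cast hn1.le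
    have hn1'' : (1 : ℝ) ≤ n := by exact_mod_cast hn3.one_le
    have hn2' : (n : ℝ) ≤ 4 * M := by exact_mod_cast hn2
    rw [ha]
    simp only [if_pos hn]
    rw [Complex.norm_real, Real.norm_eq_abs, sq_abs, mul_pow]
    have hl : Real.log n ^ 2 ≤ Real.log T ^ 2 := by
      have e1 : Real.log n ≤ Real.log T := Real.log_le_log hnpos (hn2'.trans h4M)
      have e2 : 0 ≤ Real.log n := Real.log_nonneg hn1''
      exact pow_le_pow_left₀ e2 e1 2
    have hr : ((n : ℝ) ^ (x - 1 / 2)) ^ 2 ≤ 4 * T ^ |x| * (1 / M) := by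
      rw [← Real.rpow_natCast, ← Real.rpow_mul hnpos.le]
      have e1 : (x - 1 / 2) * ((2 : ℕ) : ℝ) = 2 * x + (-1) := by
        push_cast
        ring
      rw [e1, Real.rpow_add hnpos, Real.rpow_neg_one]
      have e2 : (n : ℝ) ^ (2 * x) ≤ (n : ℝ) ^ (2 * |x|) :=
        Real.rpow_le_rpow_of_exponent_le hn1'' (by linarith [le_abs_self x])
      have e3 : (n : ℝ) ^ (2 * |x|) ≤ (4 * Real.sqrt T) ^ (2 * |x|) :=
        Real.rpow_le_rpow hnpos.le (by linarith) (by positivity)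
      have e4 : (4 * Real.sqrt T) ^ (2 * |x|) = (16 : ℝ) ^ |x| * T ^ |x| := by
        rw [Real.rpow_mul (by positivity)]
        have : (4 * Real.sqrt T) ^ (2 : ℝ) = 16 * T := by
          rw [show (2 : ℝ) = ((2 : ℕ) : ℝ) by norm_num, Real.rpow_natCast, mul_pow, hsq]
          norm_num
        rw [this, Real.mul_rpow (by norm_num) hT0.le]
      have e5 : (16 : ℝ) ^ |x| ≤ 4 := by
        have e6 : (16 : ℝ) ^ |x| ≤ (16 : ℝ) ^ (1 / 2 : ℝ) :=
          Real.rpow_le_rpow_of_exponent_le (by norm_num) (by linarith)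
        have e7 : (16 : ℝ) ^ (1 / 2 : ℝ) = 4 := by
          rw [← Real.sqrt_eq_rpow, show (16 : ℝ) = 4 ^ 2 by norm_num]
          exact Real.sqrt_sq (by norm_num)
        rwa [e7] at e6
      have e8 : (n : ℝ) ^ (2 * x) ≤ 4 * T ^ |x| := by
        calc (n : ℝ) ^ (2 * x) ≤ (n : ℝ) ^ (2 * |x|) := e2
          _ ≤ (16 : ℝ) ^ |x| * T ^ |x| := e3.trans e4.le
          _ ≤ 4 * T ^ |x| := mul_le_mul_of_nonneg_right e5 (by positivity)
      have e9 : (n : ℝ)⁻¹ ≤ 1 / M := by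
        rw [one_div]
        exact inv_anti₀ hM0 hn1'
      exact mul_le_mul e8 e9 (by positivity) (by positivity)
    calc Real.log n ^ 2 * ((n : ℝ) ^ (x - 1 / 2)) ^ 2
        ≤ Real.log T ^ 2 * (4 * T ^ |x| * (1 / M)) :=
          mul_le_mul hl hr (by positivity) (by positivity)
      _ = (Real.log T) ^ 2 * (4 * T ^ |x|) * (1 / M) := by ring
  have hPP : PP T ⊆ Icc 1 (4 * M) := by
    intro n hn
    unfold PP at hn
    rw [mem_filter, mem_Ioc] at hn
    rw [mem_Icc]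
    exact ⟨hn.2.one_le, hn.1.2⟩
  have hsum : ∑ n ∈ Icc 1 (4 * M), ‖a n‖ ^ 2 ≤ 12 * (Real.log T) ^ 2 * T ^ |x| := by
    rw [← sum_subset hPP (by
      intro n _ hn
      rw [ha]
      simp only [if_neg hn]
      simp)]
    have h3 := sum_le_card_nsmul (PP T) (fun n => ‖a n‖ ^ 2) _ hterm
    refine h3.trans ?_
    rw [nsmul_eq_mul]
    have h4 : ((PP T).card : ℝ) ≤ 3 * M := by
      have h5 : (PP T).card ≤ 3 * M := by
        unfold PP
        refine (card_filter_le _ _).trans ?_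
        rw [Nat.card_Ioc]
        omega
      exact_mod_cast h5
    calc ((PP T).card : ℝ) * ((Real.log T) ^ 2 * (4 * T ^ |x|) * (1 / M))
        ≤ (3 * M) * ((Real.log T) ^ 2 * (4 * T ^ |x|) * (1 / M)) :=
          mul_le_mul_of_nonneg_right h4 (by positivity)
      _ = 12 * (Real.log T) ^ 2 * T ^ |x| := by
          field_simp
          ring
  refine h1.trans (h2.trans ?_)
  have h5 : (3 * T + ((4 * M : ℕ) : ℝ)) ≤ 4 * T := by
    push_cast
    linarith
  have h6 : T ^ (1 + |x|) = T * T ^ |x| := by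
    rw [Real.rpow_add hT0, Real.rpow_one]
  calc C * (3 * T + ((4 * M : ℕ) : ℝ)) * ∑ n ∈ Icc 1 (4 * M), ‖a n‖ ^ 2
      ≤ C * (4 * T) * (12 * (Real.log T) ^ 2 * T ^ |x|) :=
        mul_le_mul (mul_le_mul_of_nonneg_left h5 hC.le) hsum
          (sum_nonneg fun n _ => by positivity) (by positivity)
    _ = 48 * C * T ^ (1 + |x|) * (Real.log T) ^ 2 := by
        rw [h6]
        ring
    _ ≤ 48 * C * T ^ (1 + |x|) * (Real.log T) ^ 3 := by
        refine mul_le_mul_of_nonneg_left ?_ (by positivity)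
        exact pow_le_pow_right₀ hlog0 (by norm_num)

end Pool.Agent.H24.WH
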