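import Pool.Agent.H24.WH.Ghk
import Pool.Agent.H24.WH.Bas

/-!
# [H24 WH GHB] good heights

PROOF. `ghk` and `H2 ≤ d^2/16` give `|Gm| ≤ 1/2` and `|ζ - Zy| ≤ 1/2` for `1/2 + d ≤ Re s ≤ 2`, `|Im s - t0| ≤ T^κ`. `|ζ M| ≥ 1/2` and
`mo_le`: `|1/ζ| ≤ 2|M| ≤ 4 T^(d/8)`; `|Zy| ≤ sum k^(-1/2) ≤ 2 T^(d/8)`, `|ζ| ≤ 2 T^(d/8) + 1`. Derivative: Cauchy on a disc of radius `d`
around `s`, `1/2 + 2d ≤ Re s ≤ 2 - d`, `|Im s - t0| ≤ T^κ - 1`: `|ζ'| ≤ (2 T^(d/8) + 1)/d`; for `Re s ≥ 2 - d ≥ 3/2` the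
Dirichlet series gives a constant. All are `≤ T^d` for `T ≥ T0(d)`.
-/

set_option autoImplicit false

namespace Pool.Agent.H24.WH

open Complex MeasureTheory Finset Pool.Agent.H48.WN

private theorem ghb_sqrt (K : ℕ) : ∑ k ∈ Icc 1 K, 1 / Real.sqrt k ≤ 2 * Real.sqrt K := by
  induction K with
  | zero => simp
  | succ K ih =>
    rw [Finset.sum_Icc_succ_top (by omega)]
    have h1 : 0 < Real.sqrt ((K + 1 : ℕ) : ℝ) := Real.sqrt_pos.2 (by positivity)
    have h2 : 0 ≤ Real.sqrt (K : ℝ) := Real.sqrt_nonneg _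
    have h3 : Real.sqrt ((K + 1 : ℕ) : ℝ) ^ 2 = K + 1 := by
      rw [Real.sq_sqrt (by positivity)]
      push_cast
      ring
    have h4 : Real.sqrt (K : ℝ) ^ 2 = K := Real.sq_sqrt (by positivity)
    have h5 : 1 / Real.sqrt ((K + 1 : ℕ) : ℝ) ≤
        2 * (Real.sqrt ((K + 1 : ℕ) : ℝ) - Real.sqrt (K : ℝ)) := by
      rw [div_le_iff₀ h1]
      nlinarith [sq_nonneg (Real.sqrt ((K + 1 : ℕ) : ℝ) - Real.sqrt (K : ℝ))]
    linarith

/-- the short sum -/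
private theorem zy_le (d T : ℝ) (hT : 1 ≤ T) (s : ℂ) (hs : 1 / 2 ≤ s.re) :
    ‖Zy d T s‖ ≤ 2 * T ^ (d / 8) := by
  unfold Zy
  have hT0 : 0 < T := by linarith
  refine (norm_sum_le _ _).trans ?_
  have h1 : ∀ k ∈ Icc 1 ⌊T ^ (d / 4)⌋₊, ‖(k : ℂ) ^ (-s)‖ ≤ 1 / Real.sqrt k := by
    intro k hk
    have hk1 : 1 ≤ k := (Finset.mem_Icc.1 hk).1
    have hk0 : (0 : ℝ) < k := by exact_mod_cast hk1
    have hk1' : (1 : ℝ) ≤ k := by exact_mod_cast hk1
    rw [Complex.norm_natCast_cpow_of_pos (by omega)]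
    rw [Complex.neg_re, Real.sqrt_eq_rpow, one_div, ← Real.rpow_neg hk0.le]
    apply Real.rpow_le_rpow_of_exponent_le hk1'
    linarith
  refine (Finset.sum_le_sum h1).trans ?_
  refine (ghb_sqrt _).trans ?_
  have h4 : Real.sqrt ((⌊T ^ (d / 4)⌋₊ : ℕ) : ℝ) ≤ Real.sqrt (T ^ (d / 4)) :=
    Real.sqrt_le_sqrt (Nat.floor_le (by positivity))
  have h5 : Real.sqrt (T ^ (d / 4)) = T ^ (d / 8) := by
    rw [Real.sqrt_eq_rpow, ← Real.rpow_mul hT0.le]
    congr 1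
    ring
  rw [h5] at h4
  linarith

/-- zeta to the right of `3/2` -/
private theorem zr_bd : ∃ C : ℝ, 0 ≤ C ∧ ∀ s : ℂ, 3 / 2 ≤ s.re → ‖riemannZeta s‖ ≤ C := by
  have hsum : Summable (fun n : ℕ => 1 / ((n : ℝ) + 1) ^ (3 / 2 : ℝ)) := by
    have h1 : Summable (fun n : ℕ => 1 / (n : ℝ) ^ (3 / 2 : ℝ)) :=
      Real.summable_one_div_nat_rpow.2 (by norm_num)
    have h2 := (summable_nat_add_iff 1).2 h1
    simpa using h2
  refine ⟨∑' n : ℕ, 1 / ((n : ℝ) + 1) ^ (3 / 2 : ℝ), tsum_nonneg fun n => by positivity, fun s hs => ?_⟩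
  have hs1 : 1 < s.re := by linarith
  rw [zeta_eq_tsum_one_div_nat_add_one_cpow hs1]
  refine tsum_of_norm_bounded hsum.hasSum fun n => ?_
  have h0 : (0 : ℝ) < (n : ℝ) + 1 := by positivity
  have h3 : ‖((n : ℂ) + 1) ^ s‖ = ((n : ℝ) + 1) ^ s.re := by
    have h4 : ((n : ℂ) + 1) = (((n : ℝ) + 1 : ℝ) : ℂ) := by push_cast; rfl
    rw [h4, Complex.norm_cpow_eq_rpow_re_of_pos h0]
  rw [norm_div, norm_one, h3]
  apply one_div_le_one_div_of_le (Real.rpow_pos_of_pos h0 _)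
  exact Real.rpow_le_rpow_of_exponent_le (by linarith [(Nat.cast_nonneg n : (0 : ℝ) ≤ n)]) hs

private theorem half_bd {x : ℝ} (h : x ^ 2 ≤ 1 / 4) : x ≤ 1 / 2 := by
  by_contra hcon
  push Not at hcon
  nlinarith

/-- a power beats another power with a constant -/
private theorem pw_bd (C d : ℝ) (hC : 0 ≤ C) (hd : 0 < d) : ∃ T0 : ℝ, 10 ≤ T0 ∧ ∀ T : ℝ, T0 ≤ T →
    C * (T ^ (d / 8) + 1) ≤ T ^ d := by
  obtain ⟨T1, h1, H1⟩ := aux_pow (2 * C) (7 * d / 8) (by positivity)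
  refine ⟨T1, h1, fun T hT => ?_⟩
  have hT10 : 10 ≤ T := h1.trans hT
  have hT0 : 0 < T := by linarith
  have h2 := H1 T hT
  have h3 : (1 : ℝ) ≤ T ^ (d / 8) := Real.one_le_rpow (by linarith) (by positivity)
  have h4 : T ^ d = T ^ (d / 8) * T ^ (7 * d / 8) := by
    rw [← Real.rpow_add hT0]
    congr 1
    ring
  rw [h4]
  calc C * (T ^ (d / 8) + 1) ≤ C * (T ^ (d / 8) + T ^ (d / 8)) := by
        refine mul_le_mul_of_nonneg_left ?_ hC
        linarith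
    _ = T ^ (d / 8) * (2 * C) := by ring
    _ ≤ T ^ (d / 8) * T ^ (7 * d / 8) := mul_le_mul_of_nonneg_left h2 (by positivity)

theorem ghb (d κ : ℝ) (hd : 0 < d) (hd1 : d ≤ 1 / 8) (hκ : 0 < κ) (hκ1 : κ ≤ d ^ 2 / 32) :
    ∃ T0 : ℝ, 10 ≤ T0 ∧ ∀ T : ℝ, T0 ≤ T → ∀ t0 : ℝ, T ≤ t0 → t0 ≤ 2 * T → H2 d κ T t0 ≤ d ^ 2 / 16 →
      GH d κ T t0 := by
  obtain ⟨C0, hC0, HC0⟩ := zr_bd
  obtain ⟨T1, hT1, H1⟩ := ghk d κ hd hd1 hκ hκ1
  obtain ⟨T2, hT2, H2'⟩ := pw_bd ((C0 + 4) / d) d (by positivity) hd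
  refine ⟨max T1 T2, hT1.trans (le_max_left _ _), fun T hT t0 ht0 ht1 hH => ?_⟩
  have hTa : T1 ≤ T := (le_max_left _ _).trans hT
  have hTb : T2 ≤ T := (le_max_right _ _).trans hT
  have hT10 : 10 ≤ T := hT1.trans hTa
  have hT0 : 0 < T := by linarith
  obtain ⟨-, -, h3⟩ := H1 T hTa
  obtain ⟨-, h4⟩ := h3 t0 ht0 ht1
  have hbig := H2' T hTb
  have hp1 : (1 : ℝ) ≤ T ^ (d / 8) := Real.one_le_rpow (by linarith) (by positivity)
  -- consequences of the local mean square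
  have hsq : (4 / d ^ 2) * H2 d κ T t0 ≤ 1 / 4 := by
    have h5 : (4 / d ^ 2) * H2 d κ T t0 ≤ (4 / d ^ 2) * (d ^ 2 / 16) :=
      mul_le_mul_of_nonneg_left hH (by positivity)
    have h6 : (4 / d ^ 2) * (d ^ 2 / 16) = 1 / 4 := by
      field_simp
      norm_num
    linarith
  have hreg : ∀ s : ℂ, 1 / 2 + d ≤ s.re → s.re ≤ 2 → |s.im - t0| ≤ T ^ κ →
      ‖Gm d T s‖ ≤ 1 / 2 ∧ ‖riemannZeta s‖ ≤ 2 * T ^ (d / 8) + 1 := by
    intro s hs1 hs2 hs3
    obtain ⟨h5, h6⟩ := h4 s hs1 hs2 hs3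
    have h7 : ‖Gm d T s‖ ≤ 1 / 2 := by
      exact half_bd (h5.trans hsq)
    have h8 : ‖riemannZeta s - Zy d T s‖ ≤ 1 / 2 := by
      exact half_bd (h6.trans hsq)
    refine ⟨h7, ?_⟩
    have h9 := zy_le d T (by linarith) s (by linarith)
    have h10 : ‖riemannZeta s‖ ≤ ‖riemannZeta s - Zy d T s‖ + ‖Zy d T s‖ := by
      have := norm_add_le (riemannZeta s - Zy d T s) (Zy d T s)
      rwa [sub_add_cancel] at this
    linarith
  have hdle : 1 / d ≥ 8 := by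
    rw [ge_iff_le, le_div_iff₀ hd]
    linarith
  have hone : (C0 + 4) ≤ (C0 + 4) / d := by
    rw [le_div_iff₀ hd]
    nlinarith
  have hfour : 4 * (T ^ (d / 8) + 1) ≤ T ^ d := by
    have h5 : 4 * (T ^ (d / 8) + 1) ≤ (C0 + 4) / d * (T ^ (d / 8) + 1) :=
      mul_le_mul_of_nonneg_right (by linarith) (by linarith)
    linarith
  have hκ2 : T ^ κ ≤ T / 2 := by
    have h5 : κ ≤ 1 / 2 := by nlinarith
    have h6 : T ^ κ ≤ T ^ (1 / 2 : ℝ) := Real.rpow_le_rpow_of_exponent_le (by linarith) h5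
    rw [← Real.sqrt_eq_rpow] at h6
    have h7 : Real.sqrt T ≤ T / 2 := by
      rw [Real.sqrt_le_left (by linarith)]
      nlinarith
    exact h6.trans h7
  intro s hs1 hs2 hs3
  have hs3' : |s.im - t0| ≤ T ^ κ := by linarith
  obtain ⟨h5, h6⟩ := hreg s (by linarith) hs2 hs3'
  have hmo := mo_le d T hd (by linarith) s (by linarith)
  have hzm : 1 / 2 ≤ ‖riemannZeta s‖ * ‖Mo d T s‖ := by
    rw [← norm_mul]
    have h7 : riemannZeta s * Mo d T s = 1 + Gm d T s := by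
      unfold Gm
      ring
    rw [h7]
    have h8 : ‖(1 : ℂ)‖ ≤ ‖1 + Gm d T s‖ + ‖Gm d T s‖ := by
      have := norm_sub_le (1 + Gm d T s) (Gm d T s)
      rwa [add_sub_cancel_right] at this
    rw [norm_one] at h8
    linarith
  have hz0 : riemannZeta s ≠ 0 := by
    intro h7
    rw [h7, norm_zero, zero_mul] at hzm
    linarith
  have hzn : 0 < ‖riemannZeta s‖ := norm_pos_iff.2 hz0
  refine ⟨hz0, by linarith, ?_, ?_⟩
  · rw [norm_inv, inv_eq_one_div, div_le_iff₀ hzn]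
    have h7 : 1 / 2 ≤ ‖riemannZeta s‖ * (2 * T ^ (d / 8)) :=
      hzm.trans (mul_le_mul_of_nonneg_left hmo hzn.le)
    have h8 : ‖riemannZeta s‖ * (4 * (T ^ (d / 8) + 1)) ≤ ‖riemannZeta s‖ * T ^ d :=
      mul_le_mul_of_nonneg_left hfour hzn.le
    nlinarith
  · -- the derivative
    have hball : ∀ z ∈ Metric.closedBall s d, |z.re - s.re| ≤ d ∧ |z.im - s.im| ≤ d := by
      intro z hz
      rw [Metric.mem_closedBall, dist_eq_norm] at hz
      refine ⟨?_, ?_⟩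
      · have := Complex.abs_re_le_norm (z - s)
        rw [Complex.sub_re] at this
        linarith
      · have := Complex.abs_im_le_norm (z - s)
        rw [Complex.sub_im] at this
        linarith
    have hdiff : DifferentiableOn ℂ riemannZeta (Metric.closedBall s d) := by
      intro z hz
      have h7 := (hball z hz).2
      have h8 : z ≠ 1 := by
        intro h9
        rw [h9, Complex.one_im] at h7
        have h10 := abs_le.1 h7
        have h11 := abs_le.1 hs3'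
        linarith [h10.1, h10.2, h11.1, h11.2]
      exact (differentiableAt_riemannZeta h8).differentiableWithinAt
    have hsph : ∀ z ∈ Metric.sphere s d, ‖riemannZeta z‖ ≤ (C0 + 4) * (T ^ (d / 8) + 1) := by
      intro z hz
      obtain ⟨h7, h8⟩ := hball z (Metric.sphere_subset_closedBall hz)
      have h9 := abs_le.1 h7
      rcases le_total z.re 2 with h10 | h10
      · have h11 : |z.im - t0| ≤ T ^ κ := by
          have h12 : |z.im - t0| ≤ |z.im - s.im| + |s.im - t0| := by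
            have := abs_add_le (z.im - s.im) (s.im - t0)
            rwa [sub_add_sub_cancel] at this
          linarith
        have h12 := (hreg z (by linarith [h9.1]) h10 h11).2
        nlinarith
      · have h12 := HC0 z (by linarith)
        nlinarith
    have h7 := Complex.norm_deriv_le_of_forall_mem_sphere_norm_le hd
      (hdiff.diffContOnCl_ball subset_rfl) hsph
    refine h7.trans (le_trans (le_of_eq ?_) hbig)
    ring

end Pool.Agent.H24.WH
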