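import Pool.Agent.H24.WH.Defs

/-!
# [H24 WH KLM] averages with the Gaussian kernel

PROOF. (1) Tonelli / `intervalIntegral` swap: for each `y`, `int_T^(2T) g(t0+y) dt0 ≤ int_{T/2}^{3T} g` as `|y| ≤ L^2 ≤ T/2` (`T ≥ T0`: `(log T)^2 ≤ T/2` for `T ≥ 100`, say),
and `int e^(-y^2) ≤ sqrt π ≤ 2`. (2) Cauchy-Schwarz: `‖int kk 0 y G‖^2 ≤ (int e^(-y^2)) (int e^(-y^2) ‖G‖^2) ≤ 2 int e^(-y^2)‖G‖^2`, then (1).
-/

set_option autoImplicit false

namespace Pool.Agent.H24.WH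

open Complex MeasureTheory Finset Pool.Agent.H48.WN

private theorem klm_io (f : ℝ → ℝ → ℝ) (hf : Continuous (Function.uncurry f)) (a b c d : ℝ) :
    IntegrableOn (Function.uncurry f) (Set.uIoc a b ×ˢ Set.uIoc c d) := by
  have h1 : IsCompact (Set.uIcc a b ×ˢ Set.uIcc c d) := isCompact_uIcc.prod isCompact_uIcc
  exact (hf.continuousOn.integrableOn_compact h1).mono_set (Set.prod_mono Set.uIoc_subset_uIcc Set.uIoc_subset_uIcc)

private theorem klm_log {T : ℝ} (hT : 1000 ≤ T) : (Real.log T) ^ 2 ≤ T / 2 := by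
  have hT0 : 0 < T := by linarith
  obtain ⟨u, hu⟩ : ∃ u : ℝ, u = T ^ ((1 : ℝ) / 4) := ⟨_, rfl⟩
  have hu0 : 0 < u := by rw [hu]; positivity
  have hu4 : u ^ 4 = T := by
    rw [hu, ← Real.rpow_natCast, ← Real.rpow_mul hT0.le]
    norm_num
  have hu5 : 5 ≤ u := by
    by_contra h
    have h1 : u ^ 4 < 5 ^ 4 := pow_lt_pow_left₀ (not_le.1 h) hu0.le (by norm_num)
    rw [hu4] at h1
    norm_num at h1
    linarith
  have hlog : Real.log T = 4 * Real.log u := by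
    rw [← hu4, Real.log_pow]
    norm_num
  have h1 : Real.log u ≤ u - 1 := Real.log_le_sub_one_of_pos hu0
  have h2 : 0 ≤ Real.log u := Real.log_nonneg (by linarith)
  have h3 : (Real.log u) ^ 2 ≤ (u - 1) ^ 2 := pow_le_pow_left₀ h2 h1 2
  have h4 : 6 * (u - 1) ≤ u ^ 2 := by nlinarith
  have h5 : (6 * (u - 1)) ^ 2 ≤ (u ^ 2) ^ 2 := pow_le_pow_left₀ (by linarith) h4 2
  rw [hlog, ← hu4]
  nlinarith

private theorem klm_gauss (R : ℝ) (hR : 0 ≤ R) : ∫ y in (-R)..R, Real.exp (-y ^ 2) ≤ 2 := by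
  rw [intervalIntegral.integral_of_le (by linarith)]
  have hi : Integrable (fun y : ℝ => Real.exp (-y ^ 2)) := by
    have := integrable_exp_neg_mul_sq (b := 1) one_pos
    simpa using this
  refine (setIntegral_le_integral hi (Filter.Eventually.of_forall fun y => (Real.exp_pos _).le)).trans ?_
  have h1 := integral_gaussian 1
  simp only [neg_mul, one_mul, div_one] at h1
  rw [h1]
  rw [Real.sqrt_le_left (by norm_num)]
  have := Real.pi_lt_four
  linarith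

private theorem klm_c {T R : ℝ} (hT : 0 < T) (hR : 0 ≤ R) (hRT : R ≤ T / 2) {g : ℝ → ℝ} (hg : Continuous g)
    (h0 : ∀ t, 0 ≤ g t) :
    (∫ t0 in T..(2 * T), ∫ y in (-R)..R, Real.exp (-y ^ 2) * g (t0 + y)) ≤ 2 * ∫ t in (T / 2)..(3 * T), g t := by
  have e1 : ∫ t0 in T..(2 * T), ∫ y in (-R)..R, Real.exp (-y ^ 2) * g (t0 + y) =
      ∫ y in (-R)..R, ∫ t0 in T..(2 * T), Real.exp (-y ^ 2) * g (t0 + y) := by
    apply intervalIntegral_intervalIntegral_swap
    exact klm_io (fun t0 y => Real.exp (-y ^ 2) * g (t0 + y)) (by fun_prop) _ _ _ _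
  obtain ⟨J, hJ⟩ : ∃ J, J = ∫ t in (T / 2)..(3 * T), g t := ⟨_, rfl⟩
  have hJ0 : 0 ≤ J := by
    rw [hJ]
    exact intervalIntegral.integral_nonneg (by linarith) fun t _ => h0 t
  have e2 : ∀ y ∈ Set.Icc (-R) R, ∫ t0 in T..(2 * T), Real.exp (-y ^ 2) * g (t0 + y) ≤ Real.exp (-y ^ 2) * J := by
    intro y hy
    rw [intervalIntegral.integral_const_mul]
    refine mul_le_mul_of_nonneg_left ?_ (Real.exp_pos _).le
    rw [hJ, intervalIntegral.integral_comp_add_right (fun t => g t) y]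
    apply intervalIntegral.integral_mono_interval (by linarith [hy.1]) (by linarith) (by linarith [hy.2])
    · exact Filter.Eventually.of_forall fun t => h0 t
    · exact hg.intervalIntegrable _ _
  rw [e1, ← hJ]
  have hc : Continuous (fun y : ℝ => ∫ t0 in T..(2 * T), Real.exp (-y ^ 2) * g (t0 + y)) := by
    apply intervalIntegral.continuous_parametric_intervalIntegral_of_continuous'
    fun_prop
  refine (intervalIntegral.integral_mono_on (by linarith) (hc.intervalIntegrable _ _)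
    ((by fun_prop : Continuous fun y : ℝ => Real.exp (-y ^ 2) * J).intervalIntegrable _ _) e2).trans ?_
  rw [intervalIntegral.integral_mul_const]
  exact mul_le_mul_of_nonneg_right (klm_gauss R hR) hJ0

theorem klm1 : ∀ T : ℝ, 1000 ≤ T → ∀ g : ℝ → ℝ, ContinuousOn g (Set.Icc (T / 2) (3 * T)) → (∀ t, 0 ≤ g t) →
    (∫ t0 in T..(2 * T), ∫ y in (-(Real.log T) ^ 2)..((Real.log T) ^ 2), Real.exp (-y ^ 2) * g (t0 + y)) ≤
      2 * ∫ t in (T / 2)..(3 * T), g t := by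
  intro T hT g hg h0
  have hR := klm_log hT
  obtain ⟨R, hRe⟩ : ∃ R, R = (Real.log T) ^ 2 := ⟨_, rfl⟩
  have hR0 : 0 ≤ R := by rw [hRe]; positivity
  rw [← hRe] at hR ⊢
  obtain ⟨g', hg'⟩ : ∃ g' : ℝ → ℝ, ∀ t, g' t = g (max (T / 2) (min t (3 * T))) := ⟨_, fun _ => rfl⟩
  have hgc : Continuous g' := by
    have h1 : Continuous fun t : ℝ => g (max (T / 2) (min t (3 * T))) :=
      hg.comp_continuous (by fun_prop) fun t => ⟨le_max_left _ _, max_le (by linarith) (min_le_right _ _)⟩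
    exact h1.congr fun t => (hg' t).symm
  have hgg : ∀ t ∈ Set.Icc (T / 2) (3 * T), g' t = g t := by
    intro t ht
    rw [hg', min_eq_left ht.2, max_eq_right ht.1]
  have h1 := klm_c (by linarith) hR0 hR hgc (fun t => by rw [hg']; exact h0 _)
  have e1 : ∫ t in (T / 2)..(3 * T), g' t = ∫ t in (T / 2)..(3 * T), g t := by
    apply intervalIntegral.integral_congr
    intro t ht
    rw [Set.uIcc_of_le (by linarith)] at ht
    exact hgg t ht
  have e2 : (∫ t0 in T..(2 * T), ∫ y in (-R)..R, Real.exp (-y ^ 2) * g' (t0 + y)) =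
      ∫ t0 in T..(2 * T), ∫ y in (-R)..R, Real.exp (-y ^ 2) * g (t0 + y) := by
    apply intervalIntegral.integral_congr
    intro t ht
    rw [Set.uIcc_of_le (by linarith)] at ht
    apply intervalIntegral.integral_congr
    intro y hy
    rw [Set.uIcc_of_le (by linarith)] at hy
    show Real.exp (-y ^ 2) * g' (t + y) = Real.exp (-y ^ 2) * g (t + y)
    rw [hgg (t + y) ⟨by linarith [ht.1, hy.1], by linarith [ht.2, hy.2]⟩]
  rw [e1, e2] at h1
  exact h1

/-- Cauchy-Schwarz with the Gaussian weight -/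
private theorem klm_cs {R : ℝ} (hR : 0 ≤ R) {f : ℝ → ℂ} (hf : ContinuousOn f (Set.Icc (-R) R)) :
    ‖∫ y in (-R)..R, kk 0 y * f y‖ ^ 2 ≤ 2 * ∫ y in (-R)..R, Real.exp (-y ^ 2) * ‖f y‖ ^ 2 := by
  have hu : Set.uIcc (-R) R = Set.Icc (-R) R := Set.uIcc_of_le (by linarith)
  have hn : ContinuousOn (fun y => ‖f y‖) (Set.uIcc (-R) R) := by rw [hu]; exact hf.norm
  have he : ContinuousOn (fun y : ℝ => Real.exp (-y ^ 2)) (Set.uIcc (-R) R) := by fun_prop
  obtain ⟨A, hA⟩ : ∃ A, A = ∫ y in (-R)..R, Real.exp (-y ^ 2) * ‖f y‖ := ⟨_, rfl⟩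
  obtain ⟨S, hS⟩ : ∃ S, S = ∫ y in (-R)..R, Real.exp (-y ^ 2) * ‖f y‖ ^ 2 := ⟨_, rfl⟩
  have hA0 : 0 ≤ A := by
    rw [hA]
    exact intervalIntegral.integral_nonneg (by linarith) fun y _ => by positivity
  have h1 : ‖∫ y in (-R)..R, kk 0 y * f y‖ ≤ A := by
    rw [hA]
    refine (intervalIntegral.norm_integral_le_integral_norm (by linarith)).trans (le_of_eq ?_)
    apply intervalIntegral.integral_congr
    intro y _
    show ‖kk 0 y * f y‖ = Real.exp (-y ^ 2) * ‖f y‖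
    rw [norm_mul, kk_norm]
    congr 2
    ring
  have h2 : 0 ≤ ∫ y in (-R)..R, Real.exp (-y ^ 2) * (‖f y‖ - A / 2) ^ 2 :=
    intervalIntegral.integral_nonneg (by linarith) fun y _ => by positivity
  have h3 : ∫ y in (-R)..R, Real.exp (-y ^ 2) * (‖f y‖ - A / 2) ^ 2 =
      S - A * A + (A / 2) ^ 2 * ∫ y in (-R)..R, Real.exp (-y ^ 2) := by
    have i1 : IntervalIntegrable (fun y => Real.exp (-y ^ 2) * ‖f y‖ ^ 2) volume (-R) R :=
      (he.mul (hn.pow 2)).intervalIntegrable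
    have i2 : IntervalIntegrable (fun y => A * (Real.exp (-y ^ 2) * ‖f y‖)) volume (-R) R :=
      (continuousOn_const.mul (he.mul hn)).intervalIntegrable
    have i3 : IntervalIntegrable (fun y : ℝ => (A / 2) ^ 2 * Real.exp (-y ^ 2)) volume (-R) R :=
      (continuousOn_const.mul he).intervalIntegrable
    have h4 : ∫ y in (-R)..R, Real.exp (-y ^ 2) * (‖f y‖ - A / 2) ^ 2 =
        ∫ y in (-R)..R, (Real.exp (-y ^ 2) * ‖f y‖ ^ 2 - A * (Real.exp (-y ^ 2) * ‖f y‖) +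
          (A / 2) ^ 2 * Real.exp (-y ^ 2)) := by
      apply intervalIntegral.integral_congr
      intro y _
      show Real.exp (-y ^ 2) * (‖f y‖ - A / 2) ^ 2 = Real.exp (-y ^ 2) * ‖f y‖ ^ 2 -
        A * (Real.exp (-y ^ 2) * ‖f y‖) + (A / 2) ^ 2 * Real.exp (-y ^ 2)
      ring
    rw [h4, intervalIntegral.integral_add (i1.sub i2) i3, intervalIntegral.integral_sub i1 i2,
      intervalIntegral.integral_const_mul, intervalIntegral.integral_const_mul, ← hA, ← hS]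
  have h4 := klm_gauss R hR
  have h5 : (A / 2) ^ 2 * ∫ y in (-R)..R, Real.exp (-y ^ 2) ≤ (A / 2) ^ 2 * 2 :=
    mul_le_mul_of_nonneg_left h4 (by positivity)
  have h6 : ‖∫ y in (-R)..R, kk 0 y * f y‖ ^ 2 ≤ A ^ 2 := pow_le_pow_left₀ (norm_nonneg _) h1 2
  rw [← hS]
  nlinarith

theorem klm2 : ∀ T : ℝ, 1000 ≤ T → ∀ G : ℝ → ℂ, ContinuousOn G (Set.Icc (T / 2) (3 * T)) →
    (∫ t0 in T..(2 * T), ‖∫ y in (-(Real.log T) ^ 2)..((Real.log T) ^ 2), kk 0 y * G (t0 + y)‖ ^ 2) ≤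
      4 * ∫ t in (T / 2)..(3 * T), ‖G t‖ ^ 2 := by
  intro T hT G hG
  have hR := klm_log hT
  have h1 := klm1 T hT (fun t => ‖G t‖ ^ 2) (hG.norm.pow 2) (fun t => by positivity)
  obtain ⟨R, hRe⟩ : ∃ R, R = (Real.log T) ^ 2 := ⟨_, rfl⟩
  have hR0 : 0 ≤ R := by rw [hRe]; positivity
  rw [← hRe] at hR h1 ⊢
  obtain ⟨G', hG'⟩ : ∃ G' : ℝ → ℂ, ∀ t, G' t = G (max (T / 2) (min t (3 * T))) := ⟨_, fun _ => rfl⟩
  have hgc : Continuous G' := by
    have h1 : Continuous fun t : ℝ => G (max (T / 2) (min t (3 * T))) :=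
      hG.comp_continuous (by fun_prop) fun t => ⟨le_max_left _ _, max_le (by linarith) (min_le_right _ _)⟩
    exact h1.congr fun t => (hG' t).symm
  have hgg : ∀ t ∈ Set.Icc (T / 2) (3 * T), G' t = G t := by
    intro t ht
    rw [hG', min_eq_left ht.2, max_eq_right ht.1]
  have hin : ∀ t ∈ Set.Icc T (2 * T), ∀ y ∈ Set.Icc (-R) R, t + y ∈ Set.Icc (T / 2) (3 * T) := fun t ht y hy =>
    ⟨by linarith [ht.1, hy.1], by linarith [ht.2, hy.2]⟩
  have hc1 : Continuous fun t0 : ℝ => ‖∫ y in (-R)..R, kk 0 y * G' (t0 + y)‖ ^ 2 := by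
    refine (Continuous.norm ?_).pow 2
    apply intervalIntegral.continuous_parametric_intervalIntegral_of_continuous'
    unfold kk
    fun_prop
  have hc2 : Continuous fun t0 : ℝ => 2 * ∫ y in (-R)..R, Real.exp (-y ^ 2) * ‖G' (t0 + y)‖ ^ 2 := by
    refine continuous_const.mul ?_
    apply intervalIntegral.continuous_parametric_intervalIntegral_of_continuous'
    fun_prop
  have e1 : (∫ t0 in T..(2 * T), ‖∫ y in (-R)..R, kk 0 y * G (t0 + y)‖ ^ 2) =
      ∫ t0 in T..(2 * T), ‖∫ y in (-R)..R, kk 0 y * G' (t0 + y)‖ ^ 2 := by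
    apply intervalIntegral.integral_congr
    intro t ht
    rw [Set.uIcc_of_le (by linarith)] at ht
    show ‖∫ y in (-R)..R, kk 0 y * G (t + y)‖ ^ 2 = ‖∫ y in (-R)..R, kk 0 y * G' (t + y)‖ ^ 2
    congr 2
    apply intervalIntegral.integral_congr
    intro y hy
    rw [Set.uIcc_of_le (by linarith)] at hy
    show kk 0 y * G (t + y) = kk 0 y * G' (t + y)
    rw [hgg _ (hin t ht y hy)]
  have e2 : (∫ t0 in T..(2 * T), ∫ y in (-R)..R, Real.exp (-y ^ 2) * ‖G (t0 + y)‖ ^ 2) =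
      ∫ t0 in T..(2 * T), ∫ y in (-R)..R, Real.exp (-y ^ 2) * ‖G' (t0 + y)‖ ^ 2 := by
    apply intervalIntegral.integral_congr
    intro t ht
    rw [Set.uIcc_of_le (by linarith)] at ht
    apply intervalIntegral.integral_congr
    intro y hy
    rw [Set.uIcc_of_le (by linarith)] at hy
    show Real.exp (-y ^ 2) * ‖G (t + y)‖ ^ 2 = Real.exp (-y ^ 2) * ‖G' (t + y)‖ ^ 2
    rw [hgg _ (hin t ht y hy)]
  rw [e1]
  rw [e2] at h1
  have h2 : (∫ t0 in T..(2 * T), ‖∫ y in (-R)..R, kk 0 y * G' (t0 + y)‖ ^ 2) ≤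
      ∫ t0 in T..(2 * T), 2 * ∫ y in (-R)..R, Real.exp (-y ^ 2) * ‖G' (t0 + y)‖ ^ 2 :=
    intervalIntegral.integral_mono_on (by linarith) (hc1.intervalIntegrable _ _) (hc2.intervalIntegrable _ _)
      fun t0 _ => klm_cs hR0 (hgc.comp (by fun_prop : Continuous fun y : ℝ => t0 + y)).continuousOn
  rw [intervalIntegral.integral_const_mul] at h2
  linarith

end Pool.Agent.H24.WH
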