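import Pool.Agent.H24.WH.Plo
import Pool.Agent.H43.SI.Mvt

/-!
# [H24 WH PMS] mean square of a product of two polynomials of length `T^(1/2)`

PROOF. At `s = 1/2 + it`: `Bp T s = sum_p log p p^(-1/2+it)` has the same absolute value as `sum_p log p p^(-1/2-it)` (conjugate). So the integrand is
`‖sum_m c_m m^(-1/2-it)‖^2`, `c_m = sum_{np = m} α(n) log p`, `m ≤ M = ⌊T^(1/2+η)⌋ 4 ⌊sqrt T⌋ ≤ 4 T^(1+η)`. At most `2` primes `p ≥ sqrt T` divide `m ≤ 4 T^(5/4)`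
(`p1 p2 p3 ≥ T^(3/2) > m`), so `|c_m| ≤ 2 (1 + 2L)^2 L`. `mvt` with `T' = 3T`: `≤ C (3T + M) sum_{m≤M} |c_m|^2/m ≤ C T^(1+η) L^7 ≤ T^(1+2η)`.
-/

set_option autoImplicit false

namespace Pool.Agent.H24.WH

open Complex MeasureTheory Finset Pool.Agent.H48.WN

/-- the pairs `(n, p)` with `n p = m` -/
private noncomputable def pms_S (T : ℝ) (N1 m : ℕ) : Finset (ℕ × ℕ) :=
  (Icc 1 N1 ×ˢ PP T).filter fun x => x.1 * x.2 = m

private theorem pms_mem {T : ℝ} {N1 m : ℕ} {x : ℕ × ℕ} (hx : x ∈ pms_S T N1 m) :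
    1 ≤ x.1 ∧ x.1 ≤ N1 ∧ x.2 ∈ PP T ∧ x.1 * x.2 = m := by
  unfold pms_S at hx
  rw [mem_filter, mem_product, mem_Icc] at hx
  exact ⟨hx.1.1.1, hx.1.1.2, hx.1.2, hx.2⟩

private theorem pms_card {T : ℝ} (hT : 256 < T) {η : ℝ} (hη1 : η ≤ 1 / 4) {N1 m : ℕ}
    (hN1 : (N1 : ℝ) ≤ T ^ (1 / 2 + η)) : (pms_S T N1 m).card ≤ 2 := by
  by_contra hcon
  push Not at hcon
  have hT0 : 0 < T := by linarith
  have hT10 : 10 ≤ T := by linarith
  obtain ⟨S', hS', hc⟩ := Finset.exists_subset_card_eq (show 3 ≤ (pms_S T N1 m).card by omega)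
  have hinj : Set.InjOn Prod.snd (S' : Set (ℕ × ℕ)) := by
    intro x hx y hy hxy
    have h1 := pms_mem (hS' hx)
    have h2 := pms_mem (hS' hy)
    have hp := (plo_mem T hT10 x.2 h1.2.2.1).1.pos
    refine Prod.ext ?_ hxy
    have h3 : x.1 * x.2 = y.1 * x.2 := by rw [h1.2.2.2, hxy, h2.2.2.2]
    exact Nat.eq_of_mul_eq_mul_right hp h3
  have hci : (S'.image Prod.snd).card = 3 := by
    rw [Finset.card_image_of_injOn hinj, hc]
  have hq : ∀ p ∈ S'.image Prod.snd, p.Prime ∧ Real.sqrt T ≤ p ∧ p ∣ m := by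
    intro p hp
    obtain ⟨x, hx, rfl⟩ := Finset.mem_image.1 hp
    have h1 := pms_mem (hS' hx)
    obtain ⟨h2, h3, -⟩ := plo_mem T hT10 x.2 h1.2.2.1
    exact ⟨h2, h3, ⟨x.1, by rw [← h1.2.2.2, Nat.mul_comm]⟩⟩
  have hdvd : ∏ p ∈ S'.image Prod.snd, p ∣ m :=
    Finset.prod_primes_dvd m (fun p hp => (hq p hp).1.prime) fun p hp => (hq p hp).2.2
  obtain ⟨x, hx⟩ : S'.Nonempty := by
    rw [← Finset.card_pos, hc]
    norm_num
  have hx1 := pms_mem (hS' hx)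
  obtain ⟨x2, x3, x4⟩ := plo_mem T hT10 x.2 hx1.2.2.1
  have hm0 : 0 < m := by
    rw [← hx1.2.2.2]
    exact Nat.mul_pos hx1.1 x2.pos
  have hle : (∏ p ∈ S'.image Prod.snd, p : ℕ) ≤ m := Nat.le_of_dvd hm0 hdvd
  have hle' : ((∏ p ∈ S'.image Prod.snd, p : ℕ) : ℝ) ≤ (m : ℝ) := by exact_mod_cast hle
  have hs0 : 0 < Real.sqrt T := Real.sqrt_pos.2 hT0
  have h5 : Real.sqrt T ^ 3 ≤ ((∏ p ∈ S'.image Prod.snd, p : ℕ) : ℝ) := by
    push_cast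
    rw [← hci, ← Finset.prod_const]
    exact Finset.prod_le_prod (fun _ _ => hs0.le) fun p hp => (hq p hp).2.1
  have h6 : (m : ℝ) ≤ T ^ (1 / 2 + η) * (4 * Real.sqrt T) := by
    rw [← hx1.2.2.2]
    push_cast
    have h7 : (x.1 : ℝ) ≤ T ^ (1 / 2 + η) := le_trans (by exact_mod_cast hx1.2.1) hN1
    exact mul_le_mul h7 x4 (by positivity) (by positivity)
  have h7 : T ^ (1 / 2 + η) ≤ T ^ (3 / 4 : ℝ) := Real.rpow_le_rpow_of_exponent_le (by linarith) (by linarith)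
  have hss : Real.sqrt T ^ 2 = T := Real.sq_sqrt hT0.le
  have h8 : T * Real.sqrt T ≤ T ^ (3 / 4 : ℝ) * (4 * Real.sqrt T) := by
    calc T * Real.sqrt T = Real.sqrt T ^ 3 := by rw [pow_succ, hss]
      _ ≤ T ^ (1 / 2 + η) * (4 * Real.sqrt T) := h5.trans (hle'.trans h6)
      _ ≤ _ := mul_le_mul_of_nonneg_right h7 (by positivity)
  have h9 : T ≤ 4 * T ^ (3 / 4 : ℝ) := by
    have h10 : T * Real.sqrt T ≤ (4 * T ^ (3 / 4 : ℝ)) * Real.sqrt T := by linarith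
    exact le_of_mul_le_mul_right h10 hs0
  have h10 : T = T ^ (1 / 4 : ℝ) * T ^ (3 / 4 : ℝ) := by
    rw [← Real.rpow_add hT0]
    norm_num
  have h11 : 0 < T ^ (3 / 4 : ℝ) := by positivity
  have h12 : T ^ (1 / 4 : ℝ) ≤ 4 := by
    have h13 : T ^ (1 / 4 : ℝ) * T ^ (3 / 4 : ℝ) ≤ 4 * T ^ (3 / 4 : ℝ) := h10 ▸ h9
    exact le_of_mul_le_mul_right h13 h11
  have h13 : T = (T ^ (1 / 4 : ℝ)) ^ 4 := by
    rw [← Real.rpow_natCast, ← Real.rpow_mul hT0.le]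
    norm_num
  have h14 : (T ^ (1 / 4 : ℝ)) ^ 4 ≤ 4 ^ 4 := pow_le_pow_left₀ (by positivity) h12 4
  rw [← h13] at h14
  norm_num at h14
  linarith

/-- the absolute value of `Bp` on the line `Re s = 1/2` -/
private theorem pms_bp (T t : ℝ) :
    ‖Bp T (pt 0 t)‖ = ‖∑ p ∈ PP T, ((Real.log p : ℝ) : ℂ) * (p : ℂ) ^ (-pt 0 t)‖ := by
  rw [← Complex.norm_conj (Bp T (pt 0 t))]
  congr 1
  unfold Bp
  rw [map_sum]
  refine Finset.sum_congr rfl fun p _ => ?_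
  rw [map_mul, Complex.conj_ofReal]
  have h1 : (starRingEnd ℂ) (pt 0 t - 1) = -pt 0 t := by
    unfold pt
    rw [map_sub, map_add, map_mul, Complex.conj_ofReal, Complex.conj_ofReal, Complex.conj_I, map_one]
    push_cast
    ring
  have h2 : (p : ℂ).arg ≠ Real.pi := by
    rw [Complex.natCast_arg]
    exact Real.pi_ne_zero.symm
  have h3 := Complex.cpow_conj (p : ℂ) (pt 0 t - 1) h2
  rw [h1, Complex.conj_natCast] at h3
  rw [← h3]

/-- the product -/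
private theorem pms_prod (T : ℝ) (hT : 10 ≤ T) (N1 Mm : ℕ) (hM : ∀ n ≤ N1, ∀ p ∈ PP T, n * p ≤ Mm) (α : ℕ → ℂ) (s : ℂ) :
    (∑ n ∈ Icc 1 N1, α n * (n : ℂ) ^ (-s)) * (∑ p ∈ PP T, ((Real.log p : ℝ) : ℂ) * (p : ℂ) ^ (-s)) =
      ∑ m ∈ Icc 1 Mm, (∑ x ∈ pms_S T N1 m, α x.1 * ((Real.log x.2 : ℝ) : ℂ)) * (m : ℂ) ^ (-s) := by
  rw [Finset.sum_mul_sum, ← Finset.sum_product']
  rw [← Finset.sum_fiberwise_of_maps_to (s := Icc 1 N1 ×ˢ PP T) (t := Icc 1 Mm) (g := fun x : ℕ × ℕ => x.1 * x.2)]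
  · refine Finset.sum_congr rfl fun m _ => ?_
    rw [Finset.sum_mul]
    refine Finset.sum_congr rfl fun x hx => ?_
    have h1 := pms_mem hx
    rw [← h1.2.2.2]
    push_cast
    rw [Complex.natCast_mul_natCast_cpow]
    ring
  · intro x hx
    rw [mem_product, mem_Icc] at hx
    rw [mem_Icc]
    exact ⟨Nat.mul_pos hx.1.1 (plo_mem T hT x.2 hx.2).1.pos, hM _ hx.1.2 _ hx.2⟩

/-- the sum of the coefficients -/
private theorem pms_coef {T : ℝ} (hT : 257 ≤ T) {η : ℝ} (hη : 0 < η) (hη1 : η ≤ 1 / 4) {N1 Mm : ℕ}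
    (hN1 : (N1 : ℝ) ≤ T ^ (1 / 2 + η)) (hMm : (Mm : ℝ) ≤ 4 * T ^ (1 + η)) (hMm1 : 1 ≤ Mm) {α : ℕ → ℂ}
    (hα : ∀ n, ‖α n‖ ≤ (1 + Real.log n) ^ 2) :
    ∑ m ∈ Icc 1 Mm, ‖∑ x ∈ pms_S T N1 m, α x.1 * ((Real.log x.2 : ℝ) : ℂ)‖ ^ 2 * (m : ℝ)⁻¹ ≤
      256 * Real.log T ^ 7 := by
  have hT0 : 0 < T := by linarith
  have hT10 : 10 ≤ T := by linarith
  obtain ⟨L, hL⟩ : ∃ L : ℝ, L = Real.log T := ⟨_, rfl⟩
  have hL3 : 3 ≤ L := by
    rw [hL, Real.le_log_iff_exp_le hT0]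
    have h1 : Real.exp 1 < 2.7182818286 := Real.exp_one_lt_d9
    have h2 : Real.exp 3 = Real.exp 1 ^ 3 := by
      rw [← Real.exp_nat_mul]
      norm_num
    rw [h2]
    have h3 : Real.exp 1 ^ 3 ≤ (2.7182818286 : ℝ) ^ 3 := pow_le_pow_left₀ (Real.exp_pos 1).le h1.le 3
    have h4 : (2.7182818286 : ℝ) ^ 3 ≤ 257 := by norm_num
    linarith
  have hlog4 : Real.log 4 ≤ L / 2 := by
    have h1 : Real.log 4 = 2 * Real.log 2 := by
      rw [show (4 : ℝ) = 2 ^ 2 by norm_num, Real.log_pow]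
      norm_num
    have h2 := Real.log_two_lt_d9
    rw [h1]
    linarith
  have hpow : Real.log (T ^ (1 / 2 + η)) ≤ L := by
    rw [Real.log_rpow hT0, ← hL]
    nlinarith
  -- the coefficients
  have hc : ∀ m ∈ Icc 1 Mm, ‖∑ x ∈ pms_S T N1 m, α x.1 * ((Real.log x.2 : ℝ) : ℂ)‖ ≤ 8 * L ^ 3 := by
    intro m hm
    have h1 : ∀ x ∈ pms_S T N1 m, ‖α x.1 * ((Real.log x.2 : ℝ) : ℂ)‖ ≤ (2 * L) ^ 2 * L := by
      intro x hx
      have h2 := pms_mem hx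
      obtain ⟨h3, h4, h5⟩ := plo_mem T hT10 x.2 h2.2.2.1
      have hx1 : (1 : ℝ) ≤ x.1 := by exact_mod_cast h2.1
      have hx2 : (1 : ℝ) ≤ x.2 := by exact_mod_cast h3.one_lt.le
      rw [norm_mul, Complex.norm_real, Real.norm_eq_abs, abs_of_nonneg (Real.log_nonneg hx2)]
      have h6 : Real.log x.1 ≤ L := by
        refine le_trans (Real.log_le_log (by linarith) ?_) hpow
        exact le_trans (by exact_mod_cast h2.2.1) hN1
      have h7 : 0 ≤ Real.log x.1 := Real.log_nonneg hx1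
      have h8 : (1 + Real.log x.1) ^ 2 ≤ (2 * L) ^ 2 := pow_le_pow_left₀ (by linarith) (by linarith) 2
      have h9 : Real.log x.2 ≤ L := by
        have h10 := Real.log_le_log (by linarith) h5
        rw [Real.log_mul (by norm_num) (Real.sqrt_pos.2 hT0).ne', Real.log_sqrt hT0.le, ← hL] at h10
        linarith
      exact mul_le_mul ((hα x.1).trans h8) h9 (Real.log_nonneg hx2) (by positivity)
    refine (Finset.sum_le_card_nsmul _ _ _ h1 |> (norm_sum_le _ _).trans).trans ?_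
    have h2 : ((pms_S T N1 m).card : ℝ) ≤ 2 := by exact_mod_cast pms_card (by linarith) hη1 hN1
    rw [nsmul_eq_mul]
    have h3 : 0 ≤ (2 * L) ^ 2 * L := by positivity
    nlinarith
  have hc2 : ∀ m ∈ Icc 1 Mm, ‖∑ x ∈ pms_S T N1 m, α x.1 * ((Real.log x.2 : ℝ) : ℂ)‖ ^ 2 * (m : ℝ)⁻¹ ≤
      64 * L ^ 6 * (m : ℝ)⁻¹ := by
    intro m hm
    refine mul_le_mul_of_nonneg_right ?_ (by positivity)
    calc _ ≤ (8 * L ^ 3) ^ 2 := pow_le_pow_left₀ (norm_nonneg _) (hc m hm) 2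
      _ = 64 * L ^ 6 := by ring
  refine (Finset.sum_le_sum hc2).trans ?_
  rw [← Finset.mul_sum, ← hL]
  have hharm : ∑ m ∈ Icc 1 Mm, (m : ℝ)⁻¹ ≤ 1 + Real.log Mm := by
    have h1 := harmonic_le_one_add_log Mm
    rw [harmonic_eq_sum_Icc] at h1
    push_cast at h1
    exact h1
  have hlogM : Real.log Mm ≤ 3 * L := by
    have h1 : (0 : ℝ) < Mm := by exact_mod_cast hMm1
    have h2 := Real.log_le_log h1 hMm
    rw [Real.log_mul (by norm_num) (by positivity), Real.log_rpow hT0, ← hL] at h2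
    nlinarith
  have hL0 : 0 ≤ L := by linarith
  calc 64 * L ^ 6 * ∑ m ∈ Icc 1 Mm, (m : ℝ)⁻¹ ≤ 64 * L ^ 6 * (4 * L) :=
        mul_le_mul_of_nonneg_left (by linarith) (by positivity)
    _ = 256 * L ^ 7 := by ring

theorem pms (η : ℝ) (hη : 0 < η) (hη1 : η ≤ 1 / 4) : ∃ T0 : ℝ, 10 ≤ T0 ∧ ∀ T : ℝ, T0 ≤ T → ∀ α : ℕ → ℂ,
    (∀ n, ‖α n‖ ≤ (1 + Real.log n) ^ 2) →
    ∫ t in (T / 2)..(3 * T), ‖(∑ n ∈ Icc 1 ⌊T ^ (1 / 2 + η)⌋₊, α n * (n : ℂ) ^ (-pt 0 t)) * Bp T (pt 0 t)‖ ^ 2 ≤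
      T ^ (1 + 2 * η) := by
  obtain ⟨C, hC, hmvt⟩ := Pool.Agent.H43.SI.mvt
  have hev : ∀ᶠ T : ℝ in Filter.atTop, C * 7 * 256 * Real.log T ^ 7 ≤ T ^ η := by
    have h1 := (isLittleO_log_rpow_rpow_atTop (7 : ℝ) hη).bound (c := 1 / (C * 7 * 256)) (by positivity)
    filter_upwards [h1, Filter.eventually_ge_atTop (1 : ℝ)] with T h2 h3
    have h4 : 0 ≤ Real.log T := Real.log_nonneg h3
    have h5 : Real.log T ^ (7 : ℝ) = Real.log T ^ 7 := by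
      rw [← Real.rpow_natCast]
      norm_num
    rw [h5, Real.norm_of_nonneg (by positivity), Real.norm_of_nonneg (by positivity)] at h2
    rw [one_div, inv_mul_eq_div, le_div_iff₀ (by positivity)] at h2
    linarith
  obtain ⟨T1, hT1⟩ := Filter.eventually_atTop.1 hev
  refine ⟨max T1 257, le_trans (by norm_num) (le_max_right _ _), fun T hT α hα => ?_⟩
  have hTT1 : T1 ≤ T := (le_max_left _ _).trans hT
  have hT257 : 257 ≤ T := (le_max_right _ _).trans hT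
  have hT0 : 0 < T := by linarith
  have hT10 : 10 ≤ T := by linarith
  obtain ⟨N1, hN1d⟩ : ∃ N1 : ℕ, N1 = ⌊T ^ (1 / 2 + η)⌋₊ := ⟨_, rfl⟩
  obtain ⟨N, hNd⟩ : ∃ N : ℕ, N = ⌊Real.sqrt T⌋₊ := ⟨_, rfl⟩
  obtain ⟨Mm, hMmd⟩ : ∃ Mm : ℕ, Mm = N1 * (4 * N) := ⟨_, rfl⟩
  rw [← hN1d]
  have hN1 : (N1 : ℝ) ≤ T ^ (1 / 2 + η) := by
    rw [hN1d]
    exact Nat.floor_le (by positivity)
  have hN : (N : ℝ) ≤ Real.sqrt T := by
    rw [hNd]
    exact Nat.floor_le (Real.sqrt_nonneg _)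
  have hN11 : 1 ≤ N1 := by
    rw [hN1d]
    exact Nat.le_floor (by exact_mod_cast Real.one_le_rpow (by linarith) (by linarith))
  have hN1' : 1 ≤ N := by
    rw [hNd]
    refine Nat.le_floor ?_
    rw [Nat.cast_one, Real.one_le_sqrt]
    linarith
  have hMm1 : 1 ≤ Mm := by
    rw [hMmd]
    exact Nat.mul_pos hN11 (by omega)
  have hMm : (Mm : ℝ) ≤ 4 * T ^ (1 + η) := by
    rw [hMmd]
    push_cast
    have h1 : T ^ (1 + η) = T ^ (1 / 2 + η) * Real.sqrt T := by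
      rw [Real.sqrt_eq_rpow, ← Real.rpow_add hT0]
      congr 1
      ring
    rw [h1]
    calc (N1 : ℝ) * (4 * N) ≤ T ^ (1 / 2 + η) * (4 * Real.sqrt T) :=
          mul_le_mul hN1 (by linarith) (by positivity) (by positivity)
      _ = 4 * (T ^ (1 / 2 + η) * Real.sqrt T) := by ring
  have hMp : ∀ n ≤ N1, ∀ p ∈ PP T, n * p ≤ Mm := by
    intro n hn p hp
    unfold PP at hp
    rw [mem_filter, mem_Ioc, ← hNd] at hp
    rw [hMmd]
    exact Nat.mul_le_mul hn hp.1.2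
  -- the coefficients
  obtain ⟨a, ha⟩ : ∃ a : ℕ → ℂ, ∀ m, a m = (∑ x ∈ pms_S T N1 m, α x.1 * ((Real.log x.2 : ℝ) : ℂ)) * (m : ℂ) ^ (-(1 / 2) : ℂ) :=
    ⟨_, fun _ => rfl⟩
  have hint : ∀ t : ℝ, ‖(∑ n ∈ Icc 1 N1, α n * (n : ℂ) ^ (-pt 0 t)) * Bp T (pt 0 t)‖ ^ 2 =
      ‖∑ m ∈ Icc 1 Mm, a m * (m : ℂ) ^ (-((t : ℂ) * Complex.I))‖ ^ 2 := by
    intro t
    rw [norm_mul, pms_bp, ← norm_mul, pms_prod T hT10 N1 Mm hMp]
    congr 2
    refine Finset.sum_congr rfl fun m hm => ?_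
    have hm0 : (m : ℂ) ≠ 0 := by
      rw [mem_Icc] at hm
      exact_mod_cast (by omega : m ≠ 0)
    rw [ha, mul_assoc, ← Complex.cpow_add _ _ hm0]
    congr 2
    unfold pt
    push_cast
    ring
  simp only [hint]
  have hcont : Continuous fun t : ℝ => ‖∑ m ∈ Icc 1 Mm, a m * (m : ℂ) ^ (-((t : ℂ) * Complex.I))‖ ^ 2 := by
    refine (continuous_finsetSum _ fun m hm => continuous_const.mul ?_).norm.pow 2
    have hm0 : (m : ℂ) ≠ 0 := by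
      rw [mem_Icc] at hm
      exact_mod_cast (by omega : m ≠ 0)
    exact Continuous.const_cpow (by fun_prop) (Or.inl hm0)
  have h1 : ∫ t in (T / 2)..(3 * T), ‖∑ m ∈ Icc 1 Mm, a m * (m : ℂ) ^ (-((t : ℂ) * Complex.I))‖ ^ 2 ≤
      ∫ t in (-(3 * T))..(3 * T), ‖∑ m ∈ Icc 1 Mm, a m * (m : ℂ) ^ (-((t : ℂ) * Complex.I))‖ ^ 2 := by
    refine intervalIntegral.integral_mono_interval (by linarith) (by linarith) le_rfl ?_ (hcont.intervalIntegrable _ _)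
    exact Filter.Eventually.of_forall fun t => by positivity
  have h2 := hmvt Mm (3 * T) a hMm1 (by linarith)
  have h3 : ∑ n ∈ Icc 1 Mm, ‖a n‖ ^ 2 ≤ 256 * Real.log T ^ 7 := by
    refine le_trans (le_of_eq (Finset.sum_congr rfl fun m hm => ?_)) (pms_coef hT257 hη hη1 hN1 hMm hMm1 hα)
    have hm1 : 0 < m := by
      rw [mem_Icc] at hm
      omega
    have hmr : (0 : ℝ) < m := by exact_mod_cast hm1
    rw [ha, norm_mul, Complex.norm_natCast_cpow_of_pos hm1, mul_pow]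
    congr 1
    have h4 : (-(1 / 2) : ℂ).re = -(1 / 2) := by norm_num
    rw [h4, ← Real.rpow_natCast, ← Real.rpow_mul hmr.le]
    norm_num
    rw [Real.rpow_neg_one]
  have h4 : T ≤ T ^ (1 + η) := by
    conv_lhs => rw [← Real.rpow_one T]
    exact Real.rpow_le_rpow_of_exponent_le (by linarith) (by linarith)
  have hL0 : 0 ≤ Real.log T := Real.log_nonneg (by linarith)
  have h5 : T ^ (1 + 2 * η) = T ^ (1 + η) * T ^ η := by
    rw [← Real.rpow_add hT0]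
    congr 1
    ring
  have h6 : 3 * T + Mm ≤ 7 * T ^ (1 + η) := by linarith
  calc _ ≤ C * (3 * T + Mm) * ∑ n ∈ Icc 1 Mm, ‖a n‖ ^ 2 := h1.trans h2
    _ ≤ C * (7 * T ^ (1 + η)) * (256 * Real.log T ^ 7) :=
        mul_le_mul (mul_le_mul_of_nonneg_left h6 hC.le) h3 (by positivity) (by positivity)
    _ = T ^ (1 + η) * (C * 7 * 256 * Real.log T ^ 7) := by ring
    _ ≤ T ^ (1 + η) * T ^ η := mul_le_mul_of_nonneg_left (hT1 T hTT1) (by positivity)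
    _ = T ^ (1 + 2 * η) := h5.symm

end Pool.Agent.H24.WH
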