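import Pool.Agent.H24.WH.Rcg
import Pool.Agent.H24.WH.Dls
import Pool.Agent.H24.WH.Grw
import Pool.Agent.H24.WH.Klm
import Pool.Agent.H24.WH.Pms
import Pool.Agent.H24.WH.Jco

/-!
# [H24 WH JML] mean square of the left integral, all heights

PROOF. `y0 = T^(1/2+η')`, `η' = η/8`. For `Re z > 1`: `(lam ζ + ζ')^2/ζ = lam^2 ζ + 2 lam ζ' + ζ'^2/ζ`, each of `ζ, -ζ', ζ'^2/ζ` is (sum over `n ≤ y0`) + tail, `D = lam^2 D0 - 2 lam D1 + D2`,
`HL = GG D Bp(1-z) + GG (tail) Bp(1-z)`. Tail: `rcg`, `x1 = 3/2`, `x2 = c - 1/2`: at `Re z = c`: `|GG| ≤ C t^(c-1/2)`, `|tail| ≤ C L^4 y0^(1-c)`, `|Bp(1-z)| ≤ C 2^c T^((1-c)/2)`: exponent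
`c - 1/2 + (1/2+η')(1-c) + (1-c)/2 = 1/2 + η' - η' c ≤ -1` for `c = 4/η'`. Main: `rcg` with `q = GG D Bp(1-z)`, `x1 = 0`, `x2 = 3/2`: analytic for `Im ≥ T/2`, `≤ T^6`. On `Re z = 1/2`: `|GG| = 1`, `|lam| ≤ 2L`,
`|Bp(1-z)| = |Bp(z)|` (`conj (1-z) = z`): `‖GG D Bp(1-z)‖ ≤ 4L^2 (‖D0 Bp‖ + ‖D1 Bp‖ + ‖D2 Bp‖)`; `klm2`, `pms`.
-/

set_option autoImplicit false

namespace Pool.Agent.H24.WH

open Complex MeasureTheory Finset Pool.Agent.H48.WN

/-- partial sum -/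
private noncomputable def jmlD (α : ℕ → ℂ) (N : ℕ) (z : ℂ) : ℂ := ∑ n ∈ Icc 1 N, α n * (n : ℂ) ^ (-z)

private theorem jml_tail {α : ℕ → ℂ} {S s : ℂ} (hS : HasSum (fun n : ℕ => α n * (n : ℂ) ^ (-s)) S) (hs : s ≠ 0) (y : ℝ)
    (hy : 0 ≤ y) :
    S - jmlD α ⌊y⌋₊ s = ∑' n : ℕ, (if y < n then α n * (n : ℂ) ^ (-s) else 0) := by
  have h1 : HasSum (fun n : ℕ => if n ∈ Icc 1 ⌊y⌋₊ then α n * (n : ℂ) ^ (-s) else 0) (jmlD α ⌊y⌋₊ s) := by
    have h := hasSum_sum_of_ne_finset_zero (L := SummationFilter.unconditional ℕ) (f := fun n : ℕ => if n ∈ Icc 1 ⌊y⌋₊ then α n * (n : ℂ) ^ (-s) else 0)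
      (s := Icc 1 ⌊y⌋₊) (fun b hb => if_neg hb)
    have e : ∑ n ∈ Icc 1 ⌊y⌋₊, (if n ∈ Icc 1 ⌊y⌋₊ then α n * (n : ℂ) ^ (-s) else 0) = jmlD α ⌊y⌋₊ s :=
      sum_congr rfl fun n hn => if_pos hn
    rwa [e] at h
  have h2 := hS.sub h1
  have h3 : (fun n : ℕ => α n * (n : ℂ) ^ (-s) - if n ∈ Icc 1 ⌊y⌋₊ then α n * (n : ℂ) ^ (-s) else 0) =
      fun n : ℕ => if y < n then α n * (n : ℂ) ^ (-s) else 0 := by
    funext n
    rcases Nat.eq_zero_or_pos n with h0 | h0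
    · subst h0
      have hz : ((0 : ℕ) : ℂ) ^ (-s) = 0 := by
        rw [Nat.cast_zero]
        exact Complex.zero_cpow (neg_ne_zero.2 hs)
      rw [hz]
      simp
    · by_cases hn : y < n
      · rw [if_pos hn, if_neg, sub_zero]
        rw [mem_Icc, Nat.le_floor_iff hy]
        rintro ⟨-, h⟩
        exact absurd h (not_le.2 hn)
      · rw [if_neg hn, if_pos, sub_self]
        rw [mem_Icc, Nat.le_floor_iff hy]
        exact ⟨h0, not_lt.1 hn⟩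
  rw [h3] at h2
  exact h2.tsum_eq.symm

private theorem jml_D_norm {α : ℕ → ℂ} (hα : ∀ n, ‖α n‖ ≤ (1 + Real.log n) ^ 2) (N : ℕ) {z : ℂ} (hz : 0 ≤ z.re) :
    ‖jmlD α N z‖ ≤ N * (1 + Real.log N) ^ 2 := by
  unfold jmlD
  have h1 : ∀ n ∈ Icc 1 N, ‖α n * (n : ℂ) ^ (-z)‖ ≤ (1 + Real.log N) ^ 2 := by
    intro n hn
    obtain ⟨hn1, hn2⟩ := mem_Icc.1 hn
    have hn0 : (0 : ℝ) < n := by exact_mod_cast hn1
    have hn1' : (1 : ℝ) ≤ n := by exact_mod_cast hn1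
    rw [norm_mul, Complex.norm_natCast_cpow_of_pos (by omega)]
    have h2 : (n : ℝ) ^ (-z).re ≤ 1 := Real.rpow_le_one_of_one_le_of_nonpos hn1' (by simpa using hz)
    have h3 : Real.log n ≤ Real.log N := Real.log_le_log hn0 (by exact_mod_cast hn2)
    have h4 : 0 ≤ Real.log n := Real.log_nonneg hn1'
    calc ‖α n‖ * (n : ℝ) ^ (-z).re ≤ (1 + Real.log n) ^ 2 * 1 :=
          mul_le_mul (hα n) h2 (Real.rpow_nonneg hn0.le _) (by positivity)
      _ ≤ (1 + Real.log N) ^ 2 := by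
          rw [mul_one]
          exact pow_le_pow_left₀ (by linarith) (by linarith) 2
  refine (norm_sum_le_of_le _ h1).trans ?_
  rw [sum_const, nsmul_eq_mul, Nat.card_Icc, Nat.add_sub_cancel]

private theorem jml_D_diff (α : ℕ → ℂ) (N : ℕ) (z : ℂ) : DifferentiableAt ℂ (fun z => jmlD α N z) z := by
  unfold jmlD
  refine DifferentiableAt.fun_sum fun n hn => ?_
  have hn0 : (n : ℂ) ≠ 0 := by
    have := (mem_Icc.1 hn).1
    exact Nat.cast_ne_zero.2 (by omega)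
  exact (differentiableAt_id.neg.const_cpow (Or.inl hn0)).const_mul _

private theorem jml_B_diff (T : ℝ) (z : ℂ) : DifferentiableAt ℂ (fun z => Bp T (1 - z)) z := by
  unfold Bp
  refine DifferentiableAt.fun_sum fun p hp => ?_
  have hn0 : (p : ℂ) ≠ 0 := Nat.cast_ne_zero.2 ((mem_filter.1 hp).2.ne_zero)
  refine (DifferentiableAt.const_cpow ?_ (Or.inl hn0)).const_mul _
  fun_prop

private theorem jml_B_norm (T : ℝ) {z : ℂ} (hz : z.re = 1 / 2) : ‖Bp T (1 - z)‖ = ‖Bp T z‖ := by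
  have h : (1 : ℂ) - z = (starRingEnd ℂ) z := by
    apply Complex.ext
    · simp [hz]; norm_num
    · simp
  rw [h, bp_conj, Complex.norm_conj]

/-- the coefficients -/
private noncomputable def jmlα (j : ℕ) (n : ℕ) : ℂ := if j = 0 then 1 else if j = 1 then ((Real.log n : ℝ) : ℂ) else ((aa n : ℝ) : ℂ)

private theorem jml_α_norm (j n : ℕ) : ‖jmlα j n‖ ≤ (1 + Real.log n) ^ 2 := by
  have h0 : 0 ≤ Real.log n := Real.log_natCast_nonneg n
  unfold jmlα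
  split_ifs
  · rw [norm_one]
    nlinarith
  · rw [Complex.norm_real, Real.norm_of_nonneg h0]
    nlinarith
  · rw [Complex.norm_real, Real.norm_of_nonneg (aa_nonneg n)]
    have := aa_le n
    nlinarith

/-- the sums -/
private noncomputable def jmlS (j : ℕ) (z : ℂ) : ℂ :=
  if j = 0 then riemannZeta z else if j = 1 then -deriv riemannZeta z else (deriv riemannZeta z) ^ 2 / riemannZeta z

private theorem jml_hasSum (j : ℕ) {z : ℂ} (hz : 1 < z.re) :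
    HasSum (fun n : ℕ => jmlα j n * (n : ℂ) ^ (-z)) (jmlS j z) := by
  unfold jmlα jmlS
  split_ifs with h h1
  · have h2 := zeta_eq_tsum_one_div_nat_cpow hz
    have h3 : Summable (fun n : ℕ => 1 / (n : ℂ) ^ z) := Complex.summable_one_div_nat_cpow.2 hz
    have h4 := h3.hasSum
    rw [← h2] at h4
    have h5 : (fun n : ℕ => (1 : ℂ) * (n : ℂ) ^ (-z)) = fun n : ℕ => 1 / (n : ℂ) ^ z := by
      funext n
      rw [Complex.cpow_neg, one_mul, one_div]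
    rw [h5]
    exact h4
  · exact dls_log z hz
  · exact dls_aa z hz

/-- main part -/
private noncomputable def jmlM (T : ℝ) (N : ℕ) (z : ℂ) : ℂ :=
  GG z * (lam z ^ 2 * jmlD (jmlα 0) N z - 2 * lam z * jmlD (jmlα 1) N z + jmlD (jmlα 2) N z) * Bp T (1 - z)

/-- tail part -/
private noncomputable def jmlT (T : ℝ) (N : ℕ) (z : ℂ) : ℂ :=
  GG z * (lam z ^ 2 * (jmlS 0 z - jmlD (jmlα 0) N z) - 2 * lam z * (jmlS 1 z - jmlD (jmlα 1) N z) +
    (jmlS 2 z - jmlD (jmlα 2) N z)) * Bp T (1 - z)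

private theorem jml_split (T : ℝ) (N : ℕ) {z : ℂ} (hz : riemannZeta z ≠ 0) : HL T z = jmlM T N z + jmlT T N z := by
  unfold HL jmlM jmlT
  have h0 : jmlS 0 z = riemannZeta z := rfl
  have h1 : jmlS 1 z = -deriv riemannZeta z := rfl
  have h2 : jmlS 2 z = (deriv riemannZeta z) ^ 2 / riemannZeta z := rfl
  rw [h0, h1, h2]
  field_simp
  ring

private theorem jml_S_diff (j : ℕ) {z : ℂ} (hz : 1 < z.re) : DifferentiableAt ℂ (jmlS j) z := by
  have hz1 : z ≠ 1 := by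
    rintro rfl
    simp at hz
  have h0 : DifferentiableAt ℂ riemannZeta z := differentiableAt_riemannZeta hz1
  have hne : riemannZeta z ≠ 0 := riemannZeta_ne_zero_of_one_le_re hz.le
  have h1 : DifferentiableAt ℂ (deriv riemannZeta) z := by
    have hd : DifferentiableOn ℂ riemannZeta {s : ℂ | s ≠ 1} := fun s hs => (differentiableAt_riemannZeta hs).differentiableWithinAt
    have ho : IsOpen {s : ℂ | s ≠ 1} := isOpen_ne
    exact (hd.deriv ho).differentiableAt (ho.mem_nhds hz1)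
  unfold jmlS
  split_ifs
  · exact h0
  · exact h1.neg
  · exact (h1.pow 2).div h0 hne

private theorem jml_basic (c : ℝ) (hc : 2 ≤ c) : ∃ C T0 : ℝ, 1 ≤ C ∧ 10 ≤ T0 ∧ ∀ T : ℝ, T0 ≤ T → ∀ z : ℂ, 1 / 2 ≤ z.re →
    z.re ≤ c → T / 2 ≤ z.im → z.im ≤ 3 * T →
    (DifferentiableAt ℂ GG z ∧ DifferentiableAt ℂ lam z) ∧ ‖lam z‖ ≤ 2 * Real.log T ∧
      ‖GG z‖ ≤ C * (3 * T) ^ (z.re - 1 / 2) ∧ (z.re = 1 / 2 → ‖GG z‖ = 1) := by
  obtain ⟨C1, T1, hC1, hT1, h1⟩ := stl c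
  obtain ⟨C2, T2, hC2, hT2, h2⟩ := ggn c (by linarith)
  refine ⟨max C2 1, 2 * max (max T1 T2) C1 + 10, le_max_right _ _, ?_, fun T hT z z1 z2 z3 z4 => ?_⟩
  · have : 0 ≤ max (max T1 T2) C1 := le_max_of_le_right hC1.le
    linarith
  have e1 : T1 ≤ max (max T1 T2) C1 := (le_max_left _ _).trans (le_max_left _ _)
  have e2 : T2 ≤ max (max T1 T2) C1 := (le_max_right _ _).trans (le_max_left _ _)
  have e3 : C1 ≤ max (max T1 T2) C1 := le_max_right _ _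
  have hT10 : 20 ≤ T := by linarith
  have hre : |z.re| ≤ c := by
    rw [abs_of_nonneg (by linarith)]
    exact z2
  obtain ⟨-, -, g3, g4, g5⟩ := h1 z hre (by linarith)
  obtain ⟨k1, k2⟩ := h2 z z1 z2 (by linarith)
  have him : 0 < z.im := by linarith
  refine ⟨⟨g3, g4⟩, ?_, ?_, k2⟩
  · have q1 : C1 / z.im ≤ 1 := by
      rw [div_le_one him]
      linarith
    have hpi : 3 < Real.pi := Real.pi_gt_three
    have hpi4 : Real.pi ≤ 4 := Real.pi_le_four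
    have q2 : 0 ≤ Real.log (z.im / (2 * Real.pi)) := by
      apply Real.log_nonneg
      rw [one_le_div (by positivity)]
      linarith
    have q3 : Real.log (z.im / (2 * Real.pi)) ≤ Real.log T := by
      apply Real.log_le_log (by positivity)
      rw [div_le_iff₀ (by positivity)]
      nlinarith
    have q4 : ‖lam z‖ ≤ ‖lam z - ((Real.log (z.im / (2 * Real.pi)) : ℝ) : ℂ)‖ + ‖((Real.log (z.im / (2 * Real.pi)) : ℝ) : ℂ)‖ := by
      have := norm_add_le (lam z - ((Real.log (z.im / (2 * Real.pi)) : ℝ) : ℂ)) ((Real.log (z.im / (2 * Real.pi)) : ℝ) : ℂ)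
      rwa [sub_add_cancel] at this
    rw [Complex.norm_real, Real.norm_of_nonneg q2] at q4
    have q5 : 1 ≤ Real.log T := by
      rw [Real.le_log_iff_exp_le (by linarith)]
      have := Real.exp_one_lt_d9
      linarith
    linarith
  · refine k1.trans ?_
    refine mul_le_mul (le_max_left _ _) (Real.rpow_le_rpow him.le z4 (by linarith)) (Real.rpow_nonneg him.le _) ?_
    exact le_max_of_le_right zero_le_one

private theorem jml_one_add_log {T : ℝ} (hT : 1 ≤ T) : 1 + Real.log T ≤ T := by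
  have := Real.log_le_sub_one_of_pos (show 0 < T by linarith)
  linarith

private theorem jml_comb {l a b c : ℂ} {L M : ℝ} (hl : ‖l‖ ≤ 2 * L) (hL : 0 ≤ L) (ha : ‖a‖ ≤ M) (hb : ‖b‖ ≤ M) (hc : ‖c‖ ≤ M) :
    ‖l ^ 2 * a - 2 * l * b + c‖ ≤ (2 * L + 1) ^ 2 * M := by
  have hM : 0 ≤ M := (norm_nonneg _).trans ha
  have h1 : ‖l ^ 2 * a‖ ≤ (2 * L) ^ 2 * M := by
    rw [norm_mul, norm_pow]
    exact mul_le_mul (pow_le_pow_left₀ (norm_nonneg _) hl 2) ha (norm_nonneg _) (by positivity)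
  have h2 : ‖2 * l * b‖ ≤ 2 * (2 * L) * M := by
    rw [norm_mul, norm_mul]
    have h3 : ‖(2 : ℂ)‖ = 2 := by simp
    rw [h3]
    exact mul_le_mul (mul_le_mul_of_nonneg_left hl (by norm_num)) hb (norm_nonneg _) (by positivity)
  calc ‖l ^ 2 * a - 2 * l * b + c‖ ≤ ‖l ^ 2 * a - 2 * l * b‖ + ‖c‖ := norm_add_le _ _
    _ ≤ ‖l ^ 2 * a‖ + ‖2 * l * b‖ + ‖c‖ := by gcongr; exact norm_sub_le _ _
    _ ≤ (2 * L) ^ 2 * M + 2 * (2 * L) * M + M := by gcongr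
    _ = (2 * L + 1) ^ 2 * M := by ring

private theorem jml_M_bd : ∃ C T0 : ℝ, 1 ≤ C ∧ 10 ≤ T0 ∧ ∀ T : ℝ, T0 ≤ T → ∀ N : ℕ, (N : ℝ) ≤ T → ∀ z : ℂ, 1 / 2 ≤ z.re →
    z.re ≤ 2 → T / 2 ≤ z.im → z.im ≤ 3 * T →
    DifferentiableAt ℂ (jmlM T N) z ∧ ‖jmlM T N z‖ ≤ C * T ^ (8 : ℝ) := by
  obtain ⟨C1, T1, hC1, hT1, h1⟩ := jml_basic 2 le_rfl
  obtain ⟨C2, hC2, h2⟩ := dls_bp
  refine ⟨72 * C1 * (C2 + 1), T1, ?_, hT1, fun T hT N hN z z1 z2 z3 z4 => ?_⟩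
  · nlinarith
  have hT10 : 10 ≤ T := by linarith
  have hT0 : 0 < T := by linarith
  obtain ⟨⟨g1, g2⟩, g3, g4, -⟩ := h1 T hT z z1 z2 z3 z4
  refine ⟨?_, ?_⟩
  · unfold jmlM
    exact (g1.mul ((((g2.pow 2).mul (jml_D_diff _ _ _)).sub ((g2.const_mul 2).mul (jml_D_diff _ _ _))).add
      (jml_D_diff _ _ _))).mul (jml_B_diff T z)
  · have hL0 : 0 ≤ Real.log T := Real.log_nonneg (by linarith)
    have hD : ∀ j, ‖jmlD (jmlα j) N z‖ ≤ T * T ^ 2 := by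
      intro j
      refine (jml_D_norm (jml_α_norm j) N (by linarith)).trans ?_
      rcases Nat.eq_zero_or_pos N with h0 | h0
      · subst h0
        simp
        positivity
      · have hN1 : (1 : ℝ) ≤ N := by exact_mod_cast h0
        have hlog : 1 + Real.log N ≤ T := (jml_one_add_log hN1).trans hN
        have : 0 ≤ Real.log N := Real.log_nonneg hN1
        exact mul_le_mul hN (pow_le_pow_left₀ (by linarith) hlog 2) (by positivity) hT0.le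
    have hC : ‖lam z ^ 2 * jmlD (jmlα 0) N z - 2 * lam z * jmlD (jmlα 1) N z + jmlD (jmlα 2) N z‖ ≤
        (2 * Real.log T + 1) ^ 2 * (T * T ^ 2) := jml_comb g3 hL0 (hD 0) (hD 1) (hD 2)
    have hl : 2 * Real.log T + 1 ≤ 2 * T := by
      have := jml_one_add_log (show 1 ≤ T by linarith)
      linarith
    have hC' : (2 * Real.log T + 1) ^ 2 * (T * T ^ 2) ≤ (2 * T) ^ 2 * (T * T ^ 2) := by
      gcongr
    have hG : ‖GG z‖ ≤ C1 * (3 * T) ^ (2 : ℝ) := by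
      refine g4.trans ?_
      gcongr
      · linarith
      · linarith
    have hB : ‖Bp T (1 - z)‖ ≤ (C2 + 1) * 2 * T := by
      obtain ⟨b1, b2⟩ := h2 T hT10 (1 - z)
      have hr : (1 - z).re = 1 - z.re := by simp
      rw [hr] at b1 b2
      rcases le_total 0 (1 - z.re) with h | h
      · refine (b1 h).trans ?_
        have e1 : (4 : ℝ) ^ (1 - z.re) ≤ 2 := by
          calc (4 : ℝ) ^ (1 - z.re) ≤ (4 : ℝ) ^ (1 / 2 : ℝ) := Real.rpow_le_rpow_of_exponent_le (by norm_num) (by linarith)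
            _ = 2 := by
              rw [show (4 : ℝ) = 2 ^ (2 : ℝ) by norm_num, ← Real.rpow_mul (by norm_num)]
              norm_num
        have e2 : T ^ ((1 - z.re) / 2) ≤ T := by
          calc T ^ ((1 - z.re) / 2) ≤ T ^ (1 : ℝ) := Real.rpow_le_rpow_of_exponent_le (by linarith) (by linarith)
            _ = T := Real.rpow_one T
        calc C2 * 4 ^ (1 - z.re) * T ^ ((1 - z.re) / 2) ≤ C2 * 2 * T := by gcongr
          _ ≤ (C2 + 1) * 2 * T := by gcongr; linarith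
      · refine (b2 h).trans ?_
        have e1 : (2 : ℝ) ^ (-(1 - z.re)) ≤ 2 := by
          calc (2 : ℝ) ^ (-(1 - z.re)) ≤ (2 : ℝ) ^ (1 : ℝ) := Real.rpow_le_rpow_of_exponent_le (by norm_num) (by linarith)
            _ = 2 := Real.rpow_one 2
        have e2 : T ^ ((1 - z.re) / 2) ≤ T := by
          calc T ^ ((1 - z.re) / 2) ≤ T ^ (1 : ℝ) := Real.rpow_le_rpow_of_exponent_le (by linarith) (by linarith)
            _ = T := Real.rpow_one T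
        calc C2 * 2 ^ (-(1 - z.re)) * T ^ ((1 - z.re) / 2) ≤ C2 * 2 * T := by gcongr
          _ ≤ (C2 + 1) * 2 * T := by gcongr; linarith
    unfold jmlM
    rw [norm_mul, norm_mul]
    calc _ ≤ C1 * (3 * T) ^ (2 : ℝ) * ((2 * T) ^ 2 * (T * T ^ 2)) * ((C2 + 1) * 2 * T) := by
          refine mul_le_mul (mul_le_mul hG (hC.trans hC') (norm_nonneg _) (by positivity)) hB (norm_nonneg _) (by positivity)
      _ = 72 * C1 * (C2 + 1) * T ^ (8 : ℝ) := by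
          rw [show (2 : ℝ) = ((2 : ℕ) : ℝ) by norm_num, show (8 : ℝ) = ((8 : ℕ) : ℝ) by norm_num, Real.rpow_natCast,
            Real.rpow_natCast]
          push_cast
          ring

private theorem jml_T_bd (c : ℝ) (hc : 2 ≤ c) : ∃ C T0 : ℝ, 1 ≤ C ∧ 10 ≤ T0 ∧ ∀ T : ℝ, T0 ≤ T → ∀ y : ℝ, 1 ≤ y → y ≤ T →
    ∀ z : ℂ, 2 ≤ z.re → z.re ≤ c → T / 2 ≤ z.im → z.im ≤ 3 * T →
    DifferentiableAt ℂ (jmlT T ⌊y⌋₊) z ∧
      ‖jmlT T ⌊y⌋₊ z‖ ≤ C * (1 + Real.log T) ^ 4 * (T ^ (z.re - 1 / 2) * y ^ (1 - z.re) * T ^ ((1 - z.re) / 2)) := by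
  obtain ⟨C1, T1, hC1, hT1, h1⟩ := jml_basic c hc
  obtain ⟨C2, hC2, h2⟩ := dls_bp
  obtain ⟨C3, hC3, h3⟩ := dls_tail
  refine ⟨max 1 (C1 * 3 ^ c * (4 * C3) * (C2 * 2 ^ c)), T1, le_max_left _ _, hT1, fun T hT y hy1 hyT z z1 z2 z3 z4 => ?_⟩
  have hT10 : 10 ≤ T := by linarith
  have hT0 : 0 < T := by linarith
  have hy0 : 0 < y := by linarith
  have hz0 : z ≠ 0 := by
    rintro rfl
    simp at z1
    linarith
  obtain ⟨⟨g1, g2⟩, g3, g4, -⟩ := h1 T hT z (by linarith) z2 z3 z4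
  have hS : ∀ j, DifferentiableAt ℂ (fun z => jmlS j z - jmlD (jmlα j) ⌊y⌋₊ z) z := fun j =>
    (jml_S_diff j (by linarith)).sub (jml_D_diff _ _ _)
  refine ⟨?_, ?_⟩
  · unfold jmlT
    exact (g1.mul ((((g2.pow 2).mul (hS 0)).sub ((g2.const_mul 2).mul (hS 1))).add (hS 2))).mul (jml_B_diff T z)
  · have hL0 : 0 ≤ Real.log T := Real.log_nonneg (by linarith)
    have hly0 : 0 ≤ Real.log y := Real.log_nonneg hy1
    have hly : Real.log y ≤ Real.log T := Real.log_le_log hy0 hyT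
    have hD : ∀ j, ‖jmlS j z - jmlD (jmlα j) ⌊y⌋₊ z‖ ≤ C3 * y ^ (1 - z.re) * (1 + Real.log T) ^ 2 := by
      intro j
      rw [jml_tail (jml_hasSum j (by linarith)) hz0 y hy0.le]
      refine ((h3 z.re z1 y hy1 (jmlα j) (jml_α_norm j) z rfl).2).trans ?_
      gcongr
    have hC : ‖lam z ^ 2 * (jmlS 0 z - jmlD (jmlα 0) ⌊y⌋₊ z) - 2 * lam z * (jmlS 1 z - jmlD (jmlα 1) ⌊y⌋₊ z) +
        (jmlS 2 z - jmlD (jmlα 2) ⌊y⌋₊ z)‖ ≤ (2 * Real.log T + 1) ^ 2 * (C3 * y ^ (1 - z.re) * (1 + Real.log T) ^ 2) :=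
      jml_comb g3 hL0 (hD 0) (hD 1) (hD 2)
    have hC' : (2 * Real.log T + 1) ^ 2 * (C3 * y ^ (1 - z.re) * (1 + Real.log T) ^ 2) ≤
        4 * C3 * (1 + Real.log T) ^ 4 * y ^ (1 - z.re) := by
      have e : (2 * Real.log T + 1) ^ 2 ≤ (2 * (1 + Real.log T)) ^ 2 := by
        apply pow_le_pow_left₀ (by linarith)
        linarith
      have ey : 0 ≤ y ^ (1 - z.re) := Real.rpow_nonneg hy0.le _
      calc (2 * Real.log T + 1) ^ 2 * (C3 * y ^ (1 - z.re) * (1 + Real.log T) ^ 2) ≤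
            (2 * (1 + Real.log T)) ^ 2 * (C3 * y ^ (1 - z.re) * (1 + Real.log T) ^ 2) := by gcongr
        _ = 4 * C3 * (1 + Real.log T) ^ 4 * y ^ (1 - z.re) := by ring
    have hG : ‖GG z‖ ≤ C1 * 3 ^ c * T ^ (z.re - 1 / 2) := by
      refine g4.trans ?_
      rw [Real.mul_rpow (by norm_num) hT0.le, ← mul_assoc]
      gcongr
      · norm_num
      · linarith
    have hB : ‖Bp T (1 - z)‖ ≤ C2 * 2 ^ c * T ^ ((1 - z.re) / 2) := by
      obtain ⟨-, b2⟩ := h2 T hT10 (1 - z)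
      have hr : (1 - z).re = 1 - z.re := by simp
      rw [hr] at b2
      refine (b2 (by linarith)).trans ?_
      gcongr
      · norm_num
      · linarith
    unfold jmlT
    rw [norm_mul, norm_mul]
    have ey : 0 ≤ y ^ (1 - z.re) := Real.rpow_nonneg hy0.le _
    calc _ ≤ C1 * 3 ^ c * T ^ (z.re - 1 / 2) * (4 * C3 * (1 + Real.log T) ^ 4 * y ^ (1 - z.re)) *
          (C2 * 2 ^ c * T ^ ((1 - z.re) / 2)) :=
          mul_le_mul (mul_le_mul hG (hC.trans hC') (norm_nonneg _) (by positivity)) hB (norm_nonneg _) (by positivity)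
      _ = C1 * 3 ^ c * (4 * C3) * (C2 * 2 ^ c) * (1 + Real.log T) ^ 4 *
          (T ^ (z.re - 1 / 2) * y ^ (1 - z.re) * T ^ ((1 - z.re) / 2)) := by ring
      _ ≤ _ := by
        gcongr
        exact le_max_right _ _

/-- powers of the logarithm -/
private theorem jml_ev (K : ℝ) (hK : 0 < K) (m : ℕ) (ε : ℝ) (hε : 0 < ε) :
    ∀ᶠ T : ℝ in Filter.atTop, K * (1 + Real.log T) ^ m ≤ T ^ ε := by
  have h1 := (isLittleO_log_rpow_rpow_atTop (m : ℝ) hε).bound (c := 1 / (K * 2 ^ m)) (by positivity)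
  filter_upwards [h1, Filter.eventually_ge_atTop (Real.exp 1)] with T h2 h3
  have hT0 : 0 < T := (Real.exp_pos 1).trans_le h3
  have hL : 1 ≤ Real.log T := by rwa [Real.le_log_iff_exp_le hT0]
  rw [Real.rpow_natCast, Real.norm_of_nonneg (by positivity), Real.norm_of_nonneg (by positivity)] at h2
  have h4 : (1 + Real.log T) ^ m ≤ 2 ^ m * Real.log T ^ m := by
    rw [← mul_pow]
    apply pow_le_pow_left₀ (by linarith)
    linarith
  calc K * (1 + Real.log T) ^ m ≤ K * (2 ^ m * Real.log T ^ m) := by gcongr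
    _ = K * 2 ^ m * Real.log T ^ m := by ring
    _ ≤ K * 2 ^ m * (1 / (K * 2 ^ m) * T ^ ε) := by gcongr
    _ = T ^ ε := by field_simp

private theorem jml_ev2 (K P : ℝ) (hK : 0 < K) :
    ∀ᶠ T : ℝ in Filter.atTop, K * T ^ P * Real.exp (-((Real.log T) ^ 2) ^ 2) ≤ 1 := by
  have h := Real.tendsto_log_atTop.eventually (Filter.eventually_ge_atTop (max 1 (|Real.log K| + |P|)))
  filter_upwards [h, Filter.eventually_gt_atTop (1 : ℝ)] with T h2 h3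
  have hT0 : 0 < T := by linarith
  obtain ⟨L, hL⟩ : ∃ L, L = Real.log T := ⟨_, rfl⟩
  have e1 : T ^ P = Real.exp (L * P) := by rw [Real.rpow_def_of_pos hT0, hL]
  rw [e1, ← hL]
  rw [← hL] at h2
  have h4 : 1 ≤ L := (le_max_left _ _).trans h2
  have h5 : |Real.log K| + |P| ≤ L := (le_max_right _ _).trans h2
  have e2 : K = Real.exp (Real.log K) := (Real.exp_log hK).symm
  rw [e2, ← Real.exp_add, ← Real.exp_add, Real.exp_le_one_iff]
  have h6 : Real.log K ≤ L * |Real.log K| := by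
    have := le_abs_self (Real.log K)
    nlinarith [abs_nonneg (Real.log K)]
  have h7 : L * P ≤ L * |P| := mul_le_mul_of_nonneg_left (le_abs_self P) (by linarith)
  have h8 : L * (|Real.log K| + |P|) ≤ L * L := mul_le_mul_of_nonneg_left h5 (by linarith)
  have h9 : L ^ 2 ≤ (L ^ 2) ^ 2 := by
    have : 1 ≤ L ^ 2 := by nlinarith
    nlinarith
  nlinarith

private theorem jml_kk_cont (x : ℝ) : Continuous (kk x) := by
  unfold kk
  fun_prop

private theorem jml_pt_cont (x t0 : ℝ) : Continuous (fun y : ℝ => pt x (t0 + y)) := by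
  unfold pt
  fun_prop

private theorem jml_co {q : ℂ → ℂ} {x t0 R : ℝ} (hq : ∀ y ∈ Set.Icc (-R) R, DifferentiableAt ℂ q (pt x (t0 + y))) :
    ContinuousOn (fun y => kk x y * q (pt x (t0 + y))) (Set.Icc (-R) R) := by
  intro y hy
  exact (((jml_kk_cont x).continuousAt).mul (ContinuousAt.comp (f := fun y : ℝ => pt x (t0 + y)) (hq y hy).continuousAt
    (jml_pt_cont x t0).continuousAt)).continuousWithinAt

private theorem jml_ii {q : ℂ → ℂ} {x t0 R : ℝ} (hR : 0 ≤ R)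
    (hq : ∀ y ∈ Set.Icc (-R) R, DifferentiableAt ℂ q (pt x (t0 + y))) :
    IntervalIntegrable (fun y => kk x y * q (pt x (t0 + y))) volume (-R) R :=
  ContinuousOn.intervalIntegrable_of_Icc (by linarith) (jml_co hq)

private theorem jml_pt (η' : ℝ) (h0 : 0 < η') (h1 : η' ≤ 1 / 8) : ∃ T0 : ℝ, 10 ≤ T0 ∧ ∀ T : ℝ, T0 ≤ T →
    (Real.log T) ^ 2 ≤ T / 2 ∧ 1 ≤ Real.log T ∧
    (∀ t ∈ Set.Icc (T / 2) (3 * T), DifferentiableAt ℂ (jmlM T ⌊T ^ (1 / 2 + η')⌋₊) (pt 0 t)) ∧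
    ∀ t0 ∈ Set.Icc T (2 * T), ‖JL T (3 / 2) t0‖ ≤
      ‖∫ y in (-(Real.log T) ^ 2)..((Real.log T) ^ 2), kk 0 y * jmlM T ⌊T ^ (1 / 2 + η')⌋₊ (pt 0 (t0 + y))‖ + 3 := by
  obtain ⟨c, hc⟩ : ∃ c, c = 4 / η' := ⟨_, rfl⟩
  have hcη : η' * c = 4 := by rw [hc]; field_simp
  have hc32 : 32 ≤ c := by
    rw [hc, le_div_iff₀ h0]
    linarith
  obtain ⟨C1, T1, hC1, hT1, b1⟩ := jml_M_bd
  obtain ⟨C2, T2, hC2, hT2, b2⟩ := jml_T_bd c (by linarith)
  obtain ⟨E, hE⟩ : ∃ E, E = Real.exp ((c - 1 / 2) ^ 2) := ⟨_, rfl⟩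
  obtain ⟨E1, hE1⟩ : ∃ E, E = Real.exp (max ((0 : ℝ) ^ 2) ((3 / 2 : ℝ) ^ 2)) := ⟨_, rfl⟩
  obtain ⟨E2, hE2⟩ : ∃ E, E = Real.exp (max ((3 / 2 : ℝ) ^ 2) ((c - 1 / 2) ^ 2)) := ⟨_, rfl⟩
  have hEp : 0 < E := by rw [hE]; positivity
  have hE1p : 0 < E1 := by rw [hE1]; positivity
  have hE2p : 0 < E2 := by rw [hE2]; positivity
  have ev1 := jml_ev 2 (by norm_num) 2 1 one_pos
  have ev2 := jml_ev2 (2 * (3 / 2 - 0) * E1 * C1) 8 (by positivity)
  have ev3 := jml_ev2 (2 * (c - 1 / 2 - 3 / 2) * E2 * C2) (c + 4) (by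
    have : 0 < c - 1 / 2 - 3 / 2 := by linarith
    positivity)
  have ev4 := jml_ev (2 * E * C2) (by positivity) 6 3 (by norm_num)
  obtain ⟨T3, hT3⟩ := Filter.eventually_atTop.1 (ev1.and (ev2.and (ev3.and ev4)))
  refine ⟨max 10 (max T3 (max T1 T2)), le_max_left _ _, fun T hT => ?_⟩
  have hT10 : 10 ≤ T := (le_max_left _ _).trans hT
  have hTT3 : T3 ≤ T := ((le_max_left _ _).trans (le_max_right _ _)).trans hT
  have hTT1 : T1 ≤ T := ((le_max_left _ _).trans ((le_max_right _ _).trans (le_max_right _ _))).trans hT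
  have hTT2 : T2 ≤ T := ((le_max_right _ _).trans ((le_max_right _ _).trans (le_max_right _ _))).trans hT
  obtain ⟨q1, q2, q3, q4⟩ := hT3 T hTT3
  have hT0 : 0 < T := by linarith
  obtain ⟨L, hL⟩ : ∃ L, L = Real.log T := ⟨_, rfl⟩
  have hL1 : 1 ≤ L := by
    rw [hL, Real.le_log_iff_exp_le hT0]
    have := Real.exp_one_lt_d9
    linarith
  rw [← hL] at q1 q2 q3 q4 ⊢
  rw [Real.rpow_one] at q1
  obtain ⟨R, hR⟩ : ∃ R, R = L ^ 2 := ⟨_, rfl⟩
  have hRT : R ≤ T / 2 := by rw [hR]; nlinarith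
  have hR1 : 1 ≤ R := by rw [hR]; nlinarith
  obtain ⟨Y, hY⟩ : ∃ Y, Y = T ^ (1 / 2 + η') := ⟨_, rfl⟩
  have hY1 : 1 ≤ Y := by
    rw [hY]
    exact Real.one_le_rpow (by linarith) (by linarith)
  have hYT : Y ≤ T := by
    rw [hY]
    calc T ^ (1 / 2 + η') ≤ T ^ (1 : ℝ) := Real.rpow_le_rpow_of_exponent_le (by linarith) (by linarith)
      _ = T := Real.rpow_one T
  have hN : ((⌊Y⌋₊ : ℕ) : ℝ) ≤ T := (Nat.floor_le (by linarith)).trans hYT
  rw [← hR, ← hY]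
  have mM : ∀ z : ℂ, 1 / 2 ≤ z.re → z.re ≤ 2 → T / 2 ≤ z.im → z.im ≤ 3 * T →
    DifferentiableAt ℂ (jmlM T ⌊Y⌋₊) z ∧ ‖jmlM T ⌊Y⌋₊ z‖ ≤ C1 * T ^ (8 : ℝ) := b1 T hTT1 _ hN
  refine ⟨hRT, hL1, fun t ht => ?_, fun t0 ht0 => ?_⟩
  · exact (mM _ (by rw [pt_re]; norm_num) (by rw [pt_re]; norm_num) (by rw [pt_im]; exact ht.1) (by rw [pt_im]; exact ht.2)).1
  obtain ⟨t1, t2⟩ := ht0
  have him : ∀ s : ℂ, |s.im - t0| ≤ R → T / 2 ≤ s.im ∧ s.im ≤ 3 * T := by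
    intro s hs
    obtain ⟨a, b⟩ := abs_le.1 hs
    exact ⟨by linarith, by linarith⟩
  have hsub : -L ^ 2 = -R := by rw [hR]
  have r1 := rcg (jmlM T ⌊Y⌋₊) t0 R 0 (3 / 2) (C1 * T ^ (8 : ℝ)) (by linarith) (by norm_num) (fun s s1 s2 s3 =>
    mM s (by linarith) (by linarith) (him s s3).1 (him s s3).2)
  have mT : ∀ s : ℂ, 1 / 2 + 3 / 2 ≤ s.re → s.re ≤ 1 / 2 + (c - 1 / 2) → |s.im - t0| ≤ R →
      DifferentiableAt ℂ (jmlT T ⌊Y⌋₊) s ∧ ‖jmlT T ⌊Y⌋₊ s‖ ≤ C2 * T ^ (c + 4) := by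
    intro s s1 s2 s3
    obtain ⟨k1, k2⟩ := b2 T hTT2 Y hY1 hYT s (by linarith) (by linarith) (him s s3).1 (him s s3).2
    refine ⟨k1, k2.trans ?_⟩
    rw [← hL]
    have e1 : (1 + L) ^ 4 ≤ T ^ 4 := pow_le_pow_left₀ (by linarith) (by rw [hL]; exact jml_one_add_log (by linarith)) 4
    have e2 : T ^ (s.re - 1 / 2) ≤ T ^ c := Real.rpow_le_rpow_of_exponent_le (by linarith) (by linarith)
    have e3 : Y ^ (1 - s.re) ≤ 1 := Real.rpow_le_one_of_one_le_of_nonpos hY1 (by linarith)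
    have e4 : T ^ ((1 - s.re) / 2) ≤ 1 := Real.rpow_le_one_of_one_le_of_nonpos (by linarith) (by linarith)
    have p1 : 0 ≤ T ^ ((1 - s.re) / 2) := Real.rpow_nonneg hT0.le _
    have p2 : 0 ≤ Y ^ (1 - s.re) := Real.rpow_nonneg (by linarith) _
    have p3 : 0 ≤ T ^ (s.re - 1 / 2) := Real.rpow_nonneg hT0.le _
    calc C2 * (1 + L) ^ 4 * (T ^ (s.re - 1 / 2) * Y ^ (1 - s.re) * T ^ ((1 - s.re) / 2)) ≤
          C2 * T ^ 4 * (T ^ c * 1 * 1) := by gcongr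
      _ = C2 * T ^ (c + 4) := by
        rw [Real.rpow_add hT0, show (4 : ℝ) = ((4 : ℕ) : ℝ) by norm_num, Real.rpow_natCast]
        ring
  have r2 := rcg (jmlT T ⌊Y⌋₊) t0 R (3 / 2) (c - 1 / 2) (C2 * T ^ (c + 4)) (by linarith) (by linarith) mT
  rw [← hE1] at r1
  rw [← hE2] at r2
  have hyim : ∀ x : ℝ, ∀ y ∈ Set.Icc (-R) R, T / 2 ≤ (pt x (t0 + y)).im ∧ (pt x (t0 + y)).im ≤ 3 * T := by
    intro x y hy
    rw [pt_im]
    exact ⟨by linarith [hy.1], by linarith [hy.2]⟩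
  have hyab : ∀ x : ℝ, ∀ y ∈ Set.Icc (-R) R, |(pt x (t0 + y)).im - t0| ≤ R := by
    intro x y hy
    rw [pt_im, abs_le]
    exact ⟨by linarith [hy.1], by linarith [hy.2]⟩
  have hsplit : JL T (3 / 2) t0 = (∫ y in (-R)..R, kk (3 / 2) y * jmlM T ⌊Y⌋₊ (pt (3 / 2) (t0 + y))) +
      ∫ y in (-R)..R, kk (3 / 2) y * jmlT T ⌊Y⌋₊ (pt (3 / 2) (t0 + y)) := by
    unfold JL
    rw [← hL, ← hR]
    rw [← intervalIntegral.integral_add]
    · apply intervalIntegral.integral_congr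
      intro y hy
      simp only
      rw [← mul_add, jml_split]
      apply riemannZeta_ne_zero_of_one_le_re
      rw [pt_re]
      norm_num
    · apply jml_ii (by linarith)
      intro y hy
      exact (mM _ (by rw [pt_re]; norm_num) (by rw [pt_re]; norm_num) (hyim _ y hy).1 (hyim _ y hy).2).1
    · apply jml_ii (by linarith)
      intro y hy
      exact (mT _ (by rw [pt_re]) (by rw [pt_re]; linarith) (hyab _ y hy)).1
  have hfar : ‖∫ y in (-R)..R, kk (c - 1 / 2) y * jmlT T ⌊Y⌋₊ (pt (c - 1 / 2) (t0 + y))‖ ≤ 1 := by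
    have hb : ∀ y ∈ Set.uIoc (-R) R, ‖kk (c - 1 / 2) y * jmlT T ⌊Y⌋₊ (pt (c - 1 / 2) (t0 + y))‖ ≤
        E * (C2 * (1 + L) ^ 4 * T ^ (-3 : ℝ)) := by
      intro y hy
      rw [Set.uIoc_of_le (by linarith)] at hy
      have hy' : y ∈ Set.Icc (-R) R := ⟨hy.1.le, hy.2⟩
      have hre : (pt (c - 1 / 2) (t0 + y)).re = c := by rw [pt_re]; ring
      rw [norm_mul, kk_norm]
      obtain ⟨-, k2⟩ := b2 T hTT2 Y hY1 hYT (pt (c - 1 / 2) (t0 + y)) (by rw [hre]; linarith) (by rw [hre])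
        (hyim _ y hy').1 (hyim _ y hy').2
      rw [hre, ← hL] at k2
      have e1 : Real.exp ((c - 1 / 2) ^ 2 - y ^ 2) ≤ E := by
        rw [hE]
        apply Real.exp_le_exp.2
        nlinarith [sq_nonneg y]
      have e2 : T ^ (c - 1 / 2) * Y ^ (1 - c) * T ^ ((1 - c) / 2) ≤ T ^ (-3 : ℝ) := by
        rw [hY, ← Real.rpow_mul hT0.le, ← Real.rpow_add hT0, ← Real.rpow_add hT0]
        apply Real.rpow_le_rpow_of_exponent_le (by linarith)
        nlinarith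
      refine mul_le_mul e1 (k2.trans ?_) (norm_nonneg _) hEp.le
      gcongr
    have h := intervalIntegral.norm_integral_le_of_norm_le_const hb
    refine h.trans ?_
    have e3 : |R - -R| = 2 * R := by
      rw [abs_of_nonneg (by linarith)]
      ring
    rw [e3, Real.rpow_neg hT0.le]
    have e4 : 0 < T ^ (3 : ℝ) := Real.rpow_pos_of_pos hT0 _
    have e5 : E * (C2 * (1 + L) ^ 4 * (T ^ (3 : ℝ))⁻¹) * (2 * R) ≤ (2 * E * C2 * (1 + L) ^ 6) * (T ^ (3 : ℝ))⁻¹ := by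
      have e6 : R ≤ (1 + L) ^ 2 := by rw [hR]; nlinarith
      calc E * (C2 * (1 + L) ^ 4 * (T ^ (3 : ℝ))⁻¹) * (2 * R) ≤ E * (C2 * (1 + L) ^ 4 * (T ^ (3 : ℝ))⁻¹) * (2 * (1 + L) ^ 2) := by
            gcongr
        _ = (2 * E * C2 * (1 + L) ^ 6) * (T ^ (3 : ℝ))⁻¹ := by ring
    refine e5.trans ?_
    rw [mul_inv_le_iff₀ e4, one_mul]
    exact q4
  have eR : -R ^ 2 = -(L ^ 2) ^ 2 := by rw [hR]
  have r1' : 2 * (3 / 2 - 0) * E1 * Real.exp (-R ^ 2) * (C1 * T ^ (8 : ℝ)) ≤ 1 := by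
    rw [eR]
    calc _ = 2 * (3 / 2 - 0) * E1 * C1 * T ^ (8 : ℝ) * Real.exp (-(L ^ 2) ^ 2) := by ring
      _ ≤ 1 := q2
  have r2' : 2 * (c - 1 / 2 - 3 / 2) * E2 * Real.exp (-R ^ 2) * (C2 * T ^ (c + 4)) ≤ 1 := by
    rw [eR]
    calc _ = 2 * (c - 1 / 2 - 3 / 2) * E2 * C2 * T ^ (c + 4) * Real.exp (-(L ^ 2) ^ 2) := by ring
      _ ≤ 1 := q3
  have r1'' := r1.trans r1'
  have r2'' := r2.trans r2'
  rw [hsplit]
  have n1 := norm_sub_norm_le (∫ y in (-R)..R, kk (3 / 2) y * jmlM T ⌊Y⌋₊ (pt (3 / 2) (t0 + y)))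
    (∫ y in (-R)..R, kk 0 y * jmlM T ⌊Y⌋₊ (pt 0 (t0 + y)))
  rw [norm_sub_rev (∫ y in (-R)..R, kk (3 / 2) y * jmlM T ⌊Y⌋₊ (pt (3 / 2) (t0 + y)))
    (∫ y in (-R)..R, kk 0 y * jmlM T ⌊Y⌋₊ (pt 0 (t0 + y)))] at n1
  have n2 := norm_sub_norm_le (∫ y in (-R)..R, kk (3 / 2) y * jmlT T ⌊Y⌋₊ (pt (3 / 2) (t0 + y)))
    (∫ y in (-R)..R, kk (c - 1 / 2) y * jmlT T ⌊Y⌋₊ (pt (c - 1 / 2) (t0 + y)))
  have n3 := norm_add_le (∫ y in (-R)..R, kk (3 / 2) y * jmlM T ⌊Y⌋₊ (pt (3 / 2) (t0 + y)))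
    (∫ y in (-R)..R, kk (3 / 2) y * jmlT T ⌊Y⌋₊ (pt (3 / 2) (t0 + y)))
  linarith

/-- continuity of the smoothed integral -/
private theorem jml_int_co {T R : ℝ} (hR : 0 ≤ R) (hRT : R ≤ T / 2) {G : ℝ → ℂ} (hG : ContinuousOn G (Set.Icc (T / 2) (3 * T))) :
    ContinuousOn (fun t0 => ∫ y in (-R)..R, kk 0 y * G (t0 + y)) (Set.Icc T (2 * T)) := by
  have hT : 0 ≤ T := by linarith
  obtain ⟨G', hG'⟩ : ∃ G' : ℝ → ℂ, ∀ t, G' t = G (max (T / 2) (min t (3 * T))) := ⟨_, fun _ => rfl⟩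
  have hc : Continuous G' := by
    have e : G' = fun t => G (max (T / 2) (min t (3 * T))) := funext hG'
    rw [e]
    refine hG.comp_continuous (by fun_prop) fun t => ⟨le_max_left _ _, max_le (by linarith) (min_le_right _ _)⟩
  have h1 : Continuous (fun t0 => ∫ y in (-R)..R, kk 0 y * G' (t0 + y)) := by
    apply intervalIntegral.continuous_parametric_intervalIntegral_of_continuous'
    have := jml_kk_cont 0
    fun_prop
  refine h1.continuousOn.congr fun t0 ht0 => ?_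
  apply intervalIntegral.integral_congr
  intro y hy
  rw [Set.uIcc_of_le (by linarith)] at hy
  simp only
  rw [hG']
  congr 2
  rw [min_eq_left (by linarith [ht0.2, hy.2]), max_eq_right (by linarith [ht0.1, hy.1])]

private theorem jml_M_norm {T : ℝ} {N : ℕ} {t : ℝ} {L : ℝ} (hL : 1 ≤ L) (hl : ‖lam (pt 0 t)‖ ≤ 2 * L) (hG : ‖GG (pt 0 t)‖ = 1) :
    ‖jmlM T N (pt 0 t)‖ ^ 2 ≤ 48 * L ^ 4 * (‖jmlD (jmlα 0) N (pt 0 t) * Bp T (pt 0 t)‖ ^ 2 +
      ‖jmlD (jmlα 1) N (pt 0 t) * Bp T (pt 0 t)‖ ^ 2 + ‖jmlD (jmlα 2) N (pt 0 t) * Bp T (pt 0 t)‖ ^ 2) := by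
  obtain ⟨d0, e0⟩ : ∃ d, d = ‖jmlD (jmlα 0) N (pt 0 t)‖ := ⟨_, rfl⟩
  obtain ⟨d1, e1⟩ : ∃ d, d = ‖jmlD (jmlα 1) N (pt 0 t)‖ := ⟨_, rfl⟩
  obtain ⟨d2, e2⟩ : ∃ d, d = ‖jmlD (jmlα 2) N (pt 0 t)‖ := ⟨_, rfl⟩
  obtain ⟨b, eb⟩ : ∃ d, d = ‖Bp T (pt 0 t)‖ := ⟨_, rfl⟩
  have p0 : 0 ≤ d0 := by rw [e0]; positivity
  have p1 : 0 ≤ d1 := by rw [e1]; positivity
  have p2 : 0 ≤ d2 := by rw [e2]; positivity
  have pb : 0 ≤ b := by rw [eb]; positivity
  have hre : (pt 0 t).re = 1 / 2 := by rw [pt_re]; norm_num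
  have h1 : ‖lam (pt 0 t) ^ 2 * jmlD (jmlα 0) N (pt 0 t)‖ ≤ (2 * L) ^ 2 * d0 := by
    rw [norm_mul, norm_pow, ← e0]
    exact mul_le_mul_of_nonneg_right (pow_le_pow_left₀ (norm_nonneg _) hl 2) p0
  have h2 : ‖2 * lam (pt 0 t) * jmlD (jmlα 1) N (pt 0 t)‖ ≤ 2 * (2 * L) * d1 := by
    rw [norm_mul, norm_mul, ← e1]
    have h3 : ‖(2 : ℂ)‖ = 2 := by simp
    rw [h3]
    exact mul_le_mul_of_nonneg_right (mul_le_mul_of_nonneg_left hl (by norm_num)) p1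
  have h3 : ‖lam (pt 0 t) ^ 2 * jmlD (jmlα 0) N (pt 0 t) - 2 * lam (pt 0 t) * jmlD (jmlα 1) N (pt 0 t) +
      jmlD (jmlα 2) N (pt 0 t)‖ ≤ 4 * L ^ 2 * (d0 + d1 + d2) := by
    have h4 := norm_add_le (lam (pt 0 t) ^ 2 * jmlD (jmlα 0) N (pt 0 t) - 2 * lam (pt 0 t) * jmlD (jmlα 1) N (pt 0 t))
      (jmlD (jmlα 2) N (pt 0 t))
    have h5 := norm_sub_le (lam (pt 0 t) ^ 2 * jmlD (jmlα 0) N (pt 0 t)) (2 * lam (pt 0 t) * jmlD (jmlα 1) N (pt 0 t))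
    rw [← e2] at h4
    have h6 : L ≤ L ^ 2 := by nlinarith
    have h7 : 2 * (2 * L) * d1 ≤ 4 * L ^ 2 * d1 := by nlinarith
    have h8 : d2 ≤ 4 * L ^ 2 * d2 := by nlinarith
    nlinarith
  have h4 : ‖jmlM T N (pt 0 t)‖ ≤ 4 * L ^ 2 * (d0 + d1 + d2) * b := by
    unfold jmlM
    rw [norm_mul, norm_mul, hG, one_mul, jml_B_norm T hre, ← eb]
    exact mul_le_mul_of_nonneg_right h3 pb
  rw [norm_mul, norm_mul, norm_mul, ← e0, ← e1, ← e2, ← eb]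
  calc ‖jmlM T N (pt 0 t)‖ ^ 2 ≤ (4 * L ^ 2 * (d0 + d1 + d2) * b) ^ 2 := pow_le_pow_left₀ (norm_nonneg _) h4 2
    _ = 16 * L ^ 4 * b ^ 2 * (d0 + d1 + d2) ^ 2 := by ring
    _ ≤ 16 * L ^ 4 * b ^ 2 * (3 * (d0 ^ 2 + d1 ^ 2 + d2 ^ 2)) := by
      gcongr
      nlinarith [sq_nonneg (d0 - d1), sq_nonneg (d0 - d2), sq_nonneg (d1 - d2)]
    _ = _ := by ring

theorem jml (η : ℝ) (hη : 0 < η) (hη1 : η ≤ 1) : ∃ T0 : ℝ, 10 ≤ T0 ∧ ∀ T : ℝ, T0 ≤ T →
    ∫ t0 in T..(2 * T), ‖JL T (3 / 2) t0‖ ^ 2 ≤ T ^ (1 + η) := by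
  obtain ⟨η', hη'⟩ : ∃ η', η' = η / 8 := ⟨_, rfl⟩
  have h0 : 0 < η' := by rw [hη']; positivity
  have h1 : η' ≤ 1 / 8 := by rw [hη']; linarith
  obtain ⟨T1, hT1, b1⟩ := jml_pt η' h0 h1
  obtain ⟨T2, hT2, b2⟩ := pms η' h0 (by linarith)
  obtain ⟨T3, hT3, b3⟩ := jco
  obtain ⟨C4, T4, hC4, hT4, b4⟩ := jml_basic 2 le_rfl
  have ev1 := jml_ev (1152 + 18) (by norm_num) 4 (3 * η / 4) (by positivity)
  obtain ⟨T5, hT5⟩ := Filter.eventually_atTop.1 ev1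
  refine ⟨max 1000 (max (max T1 T2) (max (max T3 T4) T5)), (by norm_num : (10 : ℝ) ≤ 1000).trans (le_max_left _ _), fun T hT => ?_⟩
  have hT1000 : 1000 ≤ T := (le_max_left _ _).trans hT
  have hTr : max (max T1 T2) (max (max T3 T4) T5) ≤ T := (le_max_right _ _).trans hT
  have hTT1 : T1 ≤ T := ((le_max_left _ _).trans (le_max_left _ _)).trans hTr
  have hTT2 : T2 ≤ T := ((le_max_right _ _).trans (le_max_left _ _)).trans hTr
  have hTT3 : T3 ≤ T := ((le_max_left _ _).trans ((le_max_left _ _).trans (le_max_right _ _))).trans hTr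
  have hTT4 : T4 ≤ T := ((le_max_right _ _).trans ((le_max_left _ _).trans (le_max_right _ _))).trans hTr
  have hTT5 : T5 ≤ T := ((le_max_right _ _).trans (le_max_right _ _)).trans hTr
  have hT0 : 0 < T := by linarith
  obtain ⟨m1, m2, m3, m4⟩ := b1 T hTT1
  have mk := klm2 T hT1000
  have m5 := hT5 T hTT5
  obtain ⟨L, hL⟩ : ∃ L, L = Real.log T := ⟨_, rfl⟩
  rw [← hL] at m1 m2 m4 mk m5
  obtain ⟨R, hR⟩ : ∃ R, R = L ^ 2 := ⟨_, rfl⟩
  have hR0 : 0 ≤ R := by rw [hR]; positivity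
  rw [← hR] at m1 m4 mk
  obtain ⟨N, hN⟩ : ∃ N, N = ⌊T ^ (1 / 2 + η')⌋₊ := ⟨_, rfl⟩
  rw [← hN] at m3 m4
  have hGc : ContinuousOn (fun t => jmlM T N (pt 0 t)) (Set.Icc (T / 2) (3 * T)) := by
    intro t ht
    have h := (m3 t ht).continuousAt
    have hp : Continuous (fun t : ℝ => pt 0 t) := by
      unfold pt
      fun_prop
    exact (ContinuousAt.comp (f := fun t : ℝ => pt 0 t) h hp.continuousAt).continuousWithinAt
  have k1 := mk (fun t => jmlM T N (pt 0 t)) hGc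
  have hHc := jml_int_co hR0 m1 hGc
  -- the mean square of G
  have k2 : ∫ t in (T / 2)..(3 * T), ‖jmlM T N (pt 0 t)‖ ^ 2 ≤ 144 * L ^ 4 * T ^ (1 + 2 * η') := by
    have hDc : ∀ j, Continuous (fun t => ‖jmlD (jmlα j) N (pt 0 t) * Bp T (pt 0 t)‖ ^ 2) := by
      intro j
      have hp : Continuous (fun t : ℝ => pt 0 t) := by
        unfold pt
        fun_prop
      have hD : Continuous (fun z => jmlD (jmlα j) N z) :=
        continuous_iff_continuousAt.2 fun z => (jml_D_diff _ _ z).continuousAt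
      have hB : Continuous (fun z => Bp T z) := by
        have hB1 : Continuous (fun z => Bp T (1 - z)) :=
          continuous_iff_continuousAt.2 fun z => (jml_B_diff _ z).continuousAt
        have hB2 := hB1.comp (show Continuous (fun z : ℂ => 1 - z) by fun_prop)
        have e : ((fun z => Bp T (1 - z)) ∘ fun z : ℂ => 1 - z) = fun z => Bp T z := by
          funext z
          simp
        rwa [e] at hB2
      exact (((hD.comp hp).mul (hB.comp hp)).norm).pow 2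
    have hI : ∀ j, ∫ t in (T / 2)..(3 * T), ‖jmlD (jmlα j) N (pt 0 t) * Bp T (pt 0 t)‖ ^ 2 ≤ T ^ (1 + 2 * η') := by
      intro j
      have := b2 T hTT2 (jmlα j) (jml_α_norm j)
      rw [← hN] at this
      exact this
    have hle : T / 2 ≤ 3 * T := by linarith
    have k3 : ∫ t in (T / 2)..(3 * T), ‖jmlM T N (pt 0 t)‖ ^ 2 ≤ ∫ t in (T / 2)..(3 * T), 48 * L ^ 4 *
        (‖jmlD (jmlα 0) N (pt 0 t) * Bp T (pt 0 t)‖ ^ 2 + ‖jmlD (jmlα 1) N (pt 0 t) * Bp T (pt 0 t)‖ ^ 2 +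
          ‖jmlD (jmlα 2) N (pt 0 t) * Bp T (pt 0 t)‖ ^ 2) := by
      apply intervalIntegral.integral_mono_on hle
      · exact (hGc.norm.pow 2).intervalIntegrable_of_Icc hle
      · exact (continuous_const.mul (((hDc 0).add (hDc 1)).add (hDc 2))).intervalIntegrable _ _
      · intro t ht
        obtain ⟨-, l1, -, l3⟩ := b4 T hTT4 (pt 0 t) (by rw [pt_re]; norm_num) (by rw [pt_re]; norm_num)
          (by rw [pt_im]; exact ht.1) (by rw [pt_im]; exact ht.2)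
        rw [← hL] at l1
        exact jml_M_norm m2 l1 (l3 (by rw [pt_re]; norm_num))
    refine k3.trans ?_
    rw [intervalIntegral.integral_const_mul, intervalIntegral.integral_add, intervalIntegral.integral_add]
    · have i0 := hI 0
      have i1 := hI 1
      have i2 := hI 2
      have hL4 : 0 ≤ 48 * L ^ 4 := by positivity
      nlinarith
    · exact (hDc 0).intervalIntegrable _ _
    · exact (hDc 1).intervalIntegrable _ _
    · exact ((hDc 0).add (hDc 1)).intervalIntegrable _ _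
    · exact (hDc 2).intervalIntegrable _ _
  have hTle : T ≤ 2 * T := by linarith
  have k4 : ∫ t0 in T..(2 * T), ‖JL T (3 / 2) t0‖ ^ 2 ≤
      ∫ t0 in T..(2 * T), (2 * ‖∫ y in (-R)..R, kk 0 y * jmlM T N (pt 0 (t0 + y))‖ ^ 2 + 18) := by
    apply intervalIntegral.integral_mono_on hTle
    · exact (((b3 T hTT3).2).norm.pow 2).intervalIntegrable_of_Icc hTle
    · exact (((hHc.norm.pow 2).const_smul (2 : ℝ)).add continuousOn_const).intervalIntegrable_of_Icc hTle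
    · intro t0 ht0
      have h := m4 t0 ht0
      have h' := pow_le_pow_left₀ (norm_nonneg _) h 2
      nlinarith [sq_nonneg (‖∫ y in (-R)..R, kk 0 y * jmlM T N (pt 0 (t0 + y))‖ - 3)]
  have k5 : ∫ t0 in T..(2 * T), (2 * ‖∫ y in (-R)..R, kk 0 y * jmlM T N (pt 0 (t0 + y))‖ ^ 2 + 18) =
      2 * (∫ t0 in T..(2 * T), ‖∫ y in (-R)..R, kk 0 y * jmlM T N (pt 0 (t0 + y))‖ ^ 2) + 18 * T := by
    rw [intervalIntegral.integral_add, intervalIntegral.integral_const_mul, intervalIntegral.integral_const]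
    · rw [smul_eq_mul]
      ring
    · exact ((hHc.norm.pow 2).const_smul (2 : ℝ)).intervalIntegrable_of_Icc hTle
    · exact intervalIntegrable_const
  have k6 : ∫ t0 in T..(2 * T), ‖JL T (3 / 2) t0‖ ^ 2 ≤ 1152 * L ^ 4 * T ^ (1 + 2 * η') + 18 * T := by
    rw [k5] at k4
    linarith
  refine k6.trans ?_
  have e1 : T ^ (1 + 2 * η') = T * T ^ (η / 4) := by
    rw [Real.rpow_add hT0, Real.rpow_one]
    congr 2
    rw [hη']
    ring
  have e2 : T ^ (1 + η) = T * (T ^ (η / 4) * T ^ (3 * η / 4)) := by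
    rw [Real.rpow_add hT0, Real.rpow_one, ← Real.rpow_add hT0]
    congr 2
    ring
  have e3 : 1 ≤ T ^ (η / 4) := Real.one_le_rpow (by linarith) (by positivity)
  rw [e1, e2]
  have e4 : L ^ 4 ≤ (1 + L) ^ 4 := pow_le_pow_left₀ (by linarith) (by linarith) 4
  have e5 : 1 ≤ (1 + L) ^ 4 := one_le_pow₀ (by linarith)
  calc 1152 * L ^ 4 * (T * T ^ (η / 4)) + 18 * T ≤ 1152 * (1 + L) ^ 4 * (T * T ^ (η / 4)) + 18 * ((1 + L) ^ 4 * (T * T ^ (η / 4))) := by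
        have e6 : 1 * T ≤ T * T ^ (η / 4) := by nlinarith
        have e7 : 1 * (1 * T) ≤ (1 + L) ^ 4 * (T * T ^ (η / 4)) := mul_le_mul e5 e6 (by linarith) (by positivity)
        have e8 : 1152 * L ^ 4 * (T * T ^ (η / 4)) ≤ 1152 * (1 + L) ^ 4 * (T * T ^ (η / 4)) := by gcongr
        linarith
    _ = T * (T ^ (η / 4) * ((1152 + 18) * (1 + L) ^ 4)) := by ring
    _ ≤ T * (T ^ (η / 4) * T ^ (3 * η / 4)) := by gcongr

end Pool.Agent.H24.WH
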