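import Pool.Agent.H24.WH.Rcg
import Pool.Agent.H24.WH.Dls
import Pool.Agent.H24.WH.Grw
import Pool.Agent.H24.WH.Klm
import Pool.Agent.H24.WH.Pms

/-!
# [H24 WH JMR] mean square of the right integral, all heights

PROOF. `y0 = T^(1/2+η')`, `η' = η/4`, `R = L^2`. On `Re s > 1`: `HR = A Bp`, `A = sum aa(n) n^(-s) = A_y + tail` (`n ≤ ⌊y0⌋` and the rest). Tail: `rcg` with `q = tail · Bp`, `x1 = 3/2`, `x2 = c - 1/2`
(`tail = ζ'^2/ζ - A_y` is analytic for `Re > 1`; bounds `dls_tail`, `dls_bp`), at `Re = c`: `≤ C y0^(1-c) L^2 4^c T^(c/2) = C T^((1/2+η')(1-c) + c/2) ..`, exponent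
`1/2 + η' - η' c ≤ -1` for `c = 4/η'`. Main: `rcg` with `q = A_y Bp`, `x1 = 0`, `x2 = 3/2` (entire, `≤ T^5`). So `‖JR T (3/2) t0‖ ≤ ‖int kk 0 y (A_y Bp)(pt 0 (t0+y))‖ + 1`, then
`klm2` and `pms` (`aa_le`).
-/

set_option autoImplicit false

namespace Pool.Agent.H24.WH

open Complex MeasureTheory Finset Pool.Agent.H48.WN

private noncomputable def jmrA (y : ℝ) (s : ℂ) : ℂ := ∑ n ∈ Icc 1 ⌊y⌋₊, ((aa n : ℝ) : ℂ) * (n : ℂ) ^ (-s)

private noncomputable def jmrZ (s : ℂ) : ℂ := (deriv riemannZeta s) ^ 2 / riemannZeta s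

private theorem jmr_A_diff (y : ℝ) (s : ℂ) : DifferentiableAt ℂ (jmrA y) s := by
  unfold jmrA
  refine DifferentiableAt.fun_sum fun n hn => ?_
  have hn0 : (n : ℂ) ≠ 0 := by
    have := (mem_Icc.mp hn).1
    exact Nat.cast_ne_zero.mpr (by omega)
  exact (differentiableAt_const _).mul (differentiableAt_id.neg.const_cpow (Or.inl hn0))

private theorem jmr_B_diff (T : ℝ) (s : ℂ) : DifferentiableAt ℂ (Bp T) s := by
  unfold Bp
  refine DifferentiableAt.fun_sum fun p hp => ?_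
  have hp0 : (p : ℂ) ≠ 0 := by
    have := (mem_filter.mp hp).2.pos
    exact Nat.cast_ne_zero.mpr (by omega)
  exact (differentiableAt_const _).mul ((differentiableAt_id.sub_const 1).const_cpow (Or.inl hp0))

private theorem jmr_Z_diff {s : ℂ} (hs : 1 < s.re) : DifferentiableAt ℂ jmrZ s := by
  have hs1 : s ≠ 1 := by
    intro h
    rw [h] at hs
    simp at hs
  have hd : DifferentiableOn ℂ riemannZeta {(1 : ℂ)}ᶜ := fun z hz =>
    (differentiableAt_riemannZeta hz).differentiableWithinAt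
  have han : AnalyticAt ℂ riemannZeta s := hd.analyticAt (isOpen_compl_singleton.mem_nhds hs1)
  exact (han.deriv.differentiableAt.pow 2).div han.differentiableAt (riemannZeta_ne_zero_of_one_le_re hs.le)

private theorem jmr_tail_eq {y : ℝ} (hy : 1 ≤ y) {s : ℂ} (hs : 1 < s.re) :
    jmrZ s - jmrA y s = ∑' n : ℕ, (if y < n then ((aa n : ℝ) : ℂ) * (n : ℂ) ^ (-s) else 0) := by
  have h1 := dls_aa s hs
  have h2 : HasSum (fun n : ℕ => if n ∈ Icc 1 ⌊y⌋₊ then ((aa n : ℝ) : ℂ) * (n : ℂ) ^ (-s) else 0) (jmrA y s) := by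
    have h3 : HasSum (fun n : ℕ => if n ∈ Icc 1 ⌊y⌋₊ then ((aa n : ℝ) : ℂ) * (n : ℂ) ^ (-s) else 0)
        (∑ n ∈ Icc 1 ⌊y⌋₊, if n ∈ Icc 1 ⌊y⌋₊ then ((aa n : ℝ) : ℂ) * (n : ℂ) ^ (-s) else 0) :=
      hasSum_sum_of_ne_finset_zero fun n hn => if_neg hn
    have h4 : (∑ n ∈ Icc 1 ⌊y⌋₊, if n ∈ Icc 1 ⌊y⌋₊ then ((aa n : ℝ) : ℂ) * (n : ℂ) ^ (-s) else 0) = jmrA y s := by
      unfold jmrA
      exact sum_congr rfl fun n hn => if_pos hn
    rwa [h4] at h3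
  have h5 := (h1.sub h2).tsum_eq
  unfold jmrZ
  rw [← h5]
  refine tsum_congr fun n => ?_
  by_cases hn : y < n
  · have hn' : n ∉ Icc 1 ⌊y⌋₊ := by
      intro h
      have h6 := (mem_Icc.mp h).2
      have h7 : (n : ℝ) ≤ y := (Nat.le_floor_iff (by linarith)).mp h6
      linarith
    rw [if_pos hn, if_neg hn', sub_zero]
  · rw [if_neg hn]
    rw [not_lt] at hn
    rcases Nat.eq_zero_or_pos n with h0 | h0
    · subst h0
      simp [aa]
    · have hn' : n ∈ Icc 1 ⌊y⌋₊ := mem_Icc.mpr ⟨h0, Nat.le_floor hn⟩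
      rw [if_pos hn', sub_self]

private theorem jmr_log0 (n : ℕ) : 0 ≤ Real.log n := Real.log_natCast_nonneg n

private theorem jmr_aa_norm (n : ℕ) : ‖((aa n : ℝ) : ℂ)‖ ≤ (1 + Real.log n) ^ 2 := by
  rw [Complex.norm_real, Real.norm_eq_abs, abs_of_nonneg (aa_nonneg n)]
  refine (aa_le n).trans ?_
  have := jmr_log0 n
  nlinarith

/-- crude bound for the head -/
private theorem jmr_A_norm {y : ℝ} (hy : 1 ≤ y) {s : ℂ} (hs : 0 ≤ s.re) :
    ‖jmrA y s‖ ≤ y * (Real.log y) ^ 2 := by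
  unfold jmrA
  have hb : ∀ n ∈ Icc 1 ⌊y⌋₊, ‖((aa n : ℝ) : ℂ) * (n : ℂ) ^ (-s)‖ ≤ (Real.log y) ^ 2 := by
    intro n hn
    obtain ⟨hn1, hn2⟩ := mem_Icc.mp hn
    have hny : (n : ℝ) ≤ y := (Nat.le_floor_iff (by linarith)).mp hn2
    have hn0 : (0 : ℝ) < n := by exact_mod_cast hn1
    have hn1' : (1 : ℝ) ≤ n := by exact_mod_cast hn1
    rw [norm_mul, Complex.norm_real, Real.norm_eq_abs, abs_of_nonneg (aa_nonneg n), Complex.norm_natCast_cpow_of_pos hn1]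
    have h1 : (n : ℝ) ^ (-s).re ≤ 1 := Real.rpow_le_one_of_one_le_of_nonpos hn1' (by simpa using hs)
    have h2 : Real.log n ≤ Real.log y := Real.log_le_log hn0 hny
    have h3 : aa n ≤ (Real.log y) ^ 2 := (aa_le n).trans (pow_le_pow_left₀ (jmr_log0 n) h2 2)
    calc aa n * (n : ℝ) ^ (-s).re ≤ (Real.log y) ^ 2 * 1 :=
          mul_le_mul h3 h1 (Real.rpow_nonneg hn0.le _) (sq_nonneg _)
      _ = (Real.log y) ^ 2 := mul_one _
  refine (norm_sum_le _ _).trans ((sum_le_sum hb).trans ?_)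
  rw [sum_const, Nat.card_Icc, Nat.add_sub_cancel, nsmul_eq_mul]
  exact mul_le_mul_of_nonneg_right (Nat.floor_le (by linarith)) (sq_nonneg _)

private theorem jmr_exp {m K T : ℝ} (hm : 0 ≤ m) (hK : 0 ≤ K) (hT1 : Real.exp (m + 1) ≤ T) (hT2 : 8 * K ≤ T) :
    Real.exp (-((Real.log T) ^ 2) ^ 2) * (K * T ^ m) ≤ 1 / 8 := by
  have hT0 : 0 < T := lt_of_lt_of_le (Real.exp_pos _) hT1
  have hL : m + 1 ≤ Real.log T := (Real.le_log_iff_exp_le hT0).mpr hT1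
  have h1 : Real.exp (-((Real.log T) ^ 2) ^ 2) ≤ T ^ (-(m + 1)) := by
    rw [Real.rpow_def_of_pos hT0]
    refine Real.exp_le_exp.mpr ?_
    have hL1 : 1 ≤ Real.log T := by linarith
    have h2 : (m + 1) * Real.log T ≤ (Real.log T) ^ 2 := by nlinarith
    have h0 : 1 ≤ (Real.log T) ^ 2 := one_le_pow₀ hL1
    have h3 : (Real.log T) ^ 2 ≤ ((Real.log T) ^ 2) ^ 2 := by nlinarith
    linarith
  have h4 : T ^ (-(m + 1)) * (K * T ^ m) = K / T := by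
    have h5 : T ^ (-(m + 1)) * T ^ m = T⁻¹ := by
      rw [← Real.rpow_add hT0, ← Real.rpow_neg_one]
      congr 1
      ring
    calc T ^ (-(m + 1)) * (K * T ^ m) = K * (T ^ (-(m + 1)) * T ^ m) := by ring
      _ = K / T := by rw [h5, div_eq_mul_inv]
  calc Real.exp (-((Real.log T) ^ 2) ^ 2) * (K * T ^ m) ≤ T ^ (-(m + 1)) * (K * T ^ m) :=
        mul_le_mul_of_nonneg_right h1 (mul_nonneg hK (Real.rpow_nonneg hT0.le _))
    _ = K / T := h4
    _ ≤ 1 / 8 := by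
        rw [div_le_iff₀ hT0]
        linarith


private theorem jmr_pt_cont (x t0 : ℝ) : Continuous fun y : ℝ => pt x (t0 + y) := by
  unfold pt
  fun_prop

private theorem jmr_kk_cont (x : ℝ) : Continuous fun y : ℝ => kk x y := by
  unfold kk
  fun_prop

/-- the right end of the tail -/
private theorem jmr_right {q : ℂ → ℂ} {x2 t0 R B : ℝ} (hR : 0 ≤ R)
    (hq : ∀ y : ℝ, ‖q (pt x2 (t0 + y))‖ ≤ B) :
    ‖∫ y in (-R)..R, kk x2 y * q (pt x2 (t0 + y))‖ ≤ Real.exp (x2 ^ 2) * B * (2 * R) := by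
  have h := intervalIntegral.norm_integral_le_of_norm_le_const (a := -R) (b := R) (C := Real.exp (x2 ^ 2) * B)
    (f := fun y => kk x2 y * q (pt x2 (t0 + y))) (fun y _ => by
      rw [norm_mul, kk_norm]
      refine mul_le_mul (Real.exp_le_exp.mpr ?_) (hq y) (norm_nonneg _) (Real.exp_nonneg _)
      nlinarith [sq_nonneg y])
  refine h.trans (le_of_eq ?_)
  rw [sub_neg_eq_add, abs_of_nonneg (by linarith)]
  ring


private theorem jmr_q_cont {q : ℂ → ℂ} (x t0 : ℝ) (hq : ∀ y : ℝ, DifferentiableAt ℂ q (pt x (t0 + y))) :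
    Continuous fun y : ℝ => kk x y * q (pt x (t0 + y)) := by
  refine (jmr_kk_cont x).mul (continuous_iff_continuousAt.mpr fun y => ?_)
  exact ContinuousAt.comp (f := fun y : ℝ => pt x (t0 + y)) (g := q) (hq y).continuousAt (jmr_pt_cont x t0).continuousAt

private theorem jmr_pw (η' : ℝ) (h0 : 0 < η') (h1 : η' ≤ 1 / 4) : ∃ T0 : ℝ, 1000 ≤ T0 ∧ ∀ T : ℝ, T0 ≤ T → ∀ t0 : ℝ,
    ‖JR T (3 / 2) t0‖ ≤ ‖∫ y in (-(Real.log T) ^ 2)..((Real.log T) ^ 2), kk 0 y *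
      (jmrA (T ^ (1 / 2 + η')) (pt 0 (t0 + y)) * Bp T (pt 0 (t0 + y)))‖ + 1 := by
  obtain ⟨Ct, hCt, htail⟩ := dls_tail
  obtain ⟨Cb, hCb, hbp⟩ := dls_bp
  obtain ⟨c, hc⟩ : ∃ c : ℝ, c = 4 / η' := ⟨_, rfl⟩
  have hc16 : 16 ≤ c := by
    rw [hc, le_div_iff₀ h0]
    linarith
  have hηc : η' * c = 4 := by
    rw [hc]
    field_simp
  obtain ⟨x2, hx2⟩ : ∃ x2 : ℝ, x2 = c - 1 / 2 := ⟨_, rfl⟩
  obtain ⟨K1, hK1⟩ : ∃ K1 : ℝ, K1 = Ct * 16 * (Cb * 4 ^ c) := ⟨_, rfl⟩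
  obtain ⟨K2, hK2⟩ : ∃ K2 : ℝ, K2 = 2 * (x2 - 3 / 2) * Real.exp (max ((3 / 2) ^ 2) (x2 ^ 2)) * K1 := ⟨_, rfl⟩
  obtain ⟨K3, hK3⟩ : ∃ K3 : ℝ, K3 = 2 * (3 / 2 - 0) * Real.exp (max (0 ^ 2) ((3 / 2) ^ 2)) * (64 * Cb) := ⟨_, rfl⟩
  obtain ⟨K4, hK4⟩ : ∃ K4 : ℝ, K4 = 8 * Real.exp (x2 ^ 2) * K1 := ⟨_, rfl⟩
  have h4c : (0 : ℝ) < 4 ^ c := Real.rpow_pos_of_pos (by norm_num) _
  have hK1p : 0 < K1 := by
    rw [hK1]
    positivity
  have hK2p : 0 ≤ K2 := by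
    rw [hK2]
    exact mul_nonneg (mul_nonneg (by linarith) (Real.exp_nonneg _)) hK1p.le
  have hK3p : 0 ≤ K3 := by
    rw [hK3]
    positivity
  have hK4p : 0 ≤ K4 := by
    rw [hK4]
    positivity
  refine ⟨max 1000 (max (Real.exp (1 + c / 2 + 1)) (max (Real.exp (3 + 1)) (max (8 * K2) (max (8 * K3) (8 * K4))))),
    le_max_left _ _, fun T hT t0 => ?_⟩
  simp only [max_le_iff] at hT
  obtain ⟨hT1000, hTe1, hTe2, hTK2, hTK3, hTK4⟩ := hT
  have hT0 : 0 < T := by linarith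
  have hT1 : 1 ≤ T := by linarith
  have hT10 : 10 ≤ T := by linarith
  obtain ⟨L, hL⟩ : ∃ L : ℝ, L = Real.log T := ⟨_, rfl⟩
  have hL1 : 4 ≤ L := by
    rw [hL, Real.le_log_iff_exp_le hT0]
    refine le_trans ?_ hTe2
    norm_num
  have hLT : L ^ 2 ≤ 4 * T := by
    have h2 : Real.log T ≤ T ^ (1 / 2 : ℝ) / (1 / 2) := Real.log_le_rpow_div hT0.le (by norm_num)
    have h3 : (T ^ (1 / 2 : ℝ)) ^ 2 = T := by
      rw [← Real.rpow_natCast, ← Real.rpow_mul hT0.le]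
      norm_num
    have h4 : L ≤ 2 * T ^ (1 / 2 : ℝ) := by
      rw [hL]
      linarith
    calc L ^ 2 ≤ (2 * T ^ (1 / 2 : ℝ)) ^ 2 := pow_le_pow_left₀ (by linarith) h4 2
      _ = 4 * T := by
          rw [mul_pow, h3]
          norm_num
  obtain ⟨y0, hy0⟩ : ∃ y0 : ℝ, y0 = T ^ (1 / 2 + η') := ⟨_, rfl⟩
  have hy01 : 1 ≤ y0 := by
    rw [hy0]
    exact Real.one_le_rpow hT1 (by linarith)
  have hy0p : 0 < y0 := by linarith
  have hy0T : y0 ≤ T := by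
    rw [hy0]
    calc T ^ (1 / 2 + η') ≤ T ^ (1 : ℝ) := Real.rpow_le_rpow_of_exponent_le hT1 (by linarith)
      _ = T := Real.rpow_one T
  have hly0 : 0 ≤ Real.log y0 := Real.log_nonneg hy01
  have hlyL : Real.log y0 ≤ L := by
    rw [hL]
    exact Real.log_le_log hy0p hy0T
  have hly2 : (1 + Real.log y0) ^ 2 ≤ 16 * T := by
    have h2 : 1 + Real.log y0 ≤ 2 * L := by linarith
    have h3 : (1 + Real.log y0) ^ 2 ≤ (2 * L) ^ 2 := pow_le_pow_left₀ (by linarith) h2 2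
    nlinarith
  -- bounds of the test polynomial
  have hbpc : ∀ s : ℂ, 0 ≤ s.re → s.re ≤ c → ‖Bp T s‖ ≤ Cb * 4 ^ c * T ^ (c / 2) := by
    intro s hs1 hs2
    refine ((hbp T hT10 s).1 hs1).trans ?_
    refine mul_le_mul (mul_le_mul_of_nonneg_left ?_ hCb.le) ?_ (Real.rpow_nonneg hT0.le _) (by positivity)
    · exact Real.rpow_le_rpow_of_exponent_le (by norm_num) hs2
    · exact Real.rpow_le_rpow_of_exponent_le hT1 (by linarith)
  have htl : ∀ s : ℂ, 2 ≤ s.re → ‖jmrZ s - jmrA y0 s‖ ≤ Ct * y0 ^ (1 - s.re) * (16 * T) := by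
    intro s hs
    rw [jmr_tail_eq hy01 (by linarith)]
    refine ((htail s.re hs y0 hy01 (fun n => ((aa n : ℝ) : ℂ)) jmr_aa_norm s rfl).2).trans ?_
    exact mul_le_mul_of_nonneg_left hly2 (mul_nonneg hCt.le (Real.rpow_nonneg hy0p.le _))
  -- the tail
  obtain ⟨q, hq⟩ : ∃ q : ℂ → ℂ, q = fun s => (jmrZ s - jmrA y0 s) * Bp T s := ⟨_, rfl⟩
  have hqd : ∀ s : ℂ, 1 < s.re → DifferentiableAt ℂ q s := by
    intro s hs
    rw [hq]
    exact ((jmr_Z_diff hs).sub (jmr_A_diff y0 s)).mul (jmr_B_diff T s)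
  have hqb : ∀ s : ℂ, 1 / 2 + 3 / 2 ≤ s.re → s.re ≤ 1 / 2 + x2 → ‖q s‖ ≤ K1 * T ^ (1 + c / 2) := by
    intro s hs1 hs2
    rw [hx2] at hs2
    rw [hq]
    simp only
    rw [norm_mul]
    have h2 := htl s (by linarith)
    have h3 : y0 ^ (1 - s.re) ≤ 1 := Real.rpow_le_one_of_one_le_of_nonpos hy01 (by linarith)
    have h4 := hbpc s (by linarith) (by linarith)
    calc ‖jmrZ s - jmrA y0 s‖ * ‖Bp T s‖ ≤ (Ct * 1 * (16 * T)) * (Cb * 4 ^ c * T ^ (c / 2)) := by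
          refine mul_le_mul (h2.trans ?_) h4 (norm_nonneg _) (by positivity)
          exact mul_le_mul_of_nonneg_right (mul_le_mul_of_nonneg_left h3 hCt.le) (by positivity)
      _ = K1 * (T * T ^ (c / 2)) := by
          rw [hK1]
          ring
      _ = K1 * T ^ (1 + c / 2) := by
          rw [Real.rpow_add hT0, Real.rpow_one]
  have hRpos : 0 < L ^ 2 := by positivity
  have hI1 := rcg q t0 (L ^ 2) (3 / 2) x2 (K1 * T ^ (1 + c / 2)) hRpos (by linarith)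
    (fun s hs1 hs2 _ => ⟨hqd s (by linarith), hqb s hs1 hs2⟩)
  have hI1' : 2 * (x2 - 3 / 2) * Real.exp (max ((3 / 2) ^ 2) (x2 ^ 2)) * Real.exp (-(L ^ 2) ^ 2) * (K1 * T ^ (1 + c / 2)) ≤ 1 / 8 := by
    have h2 := jmr_exp (m := 1 + c / 2) (K := K2) (by linarith) hK2p hTe1 hTK2
    rw [← hL] at h2
    refine le_trans (le_of_eq ?_) h2
    rw [hK2]
    ring
  have hI2 : ‖∫ y in (-(L ^ 2))..(L ^ 2), kk x2 y * q (pt x2 (t0 + y))‖ ≤ 1 / 8 := by
    have hb : ∀ y : ℝ, ‖q (pt x2 (t0 + y))‖ ≤ K1 * T ^ (-2 : ℝ) := by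
      intro y
      have hre : (pt x2 (t0 + y)).re = c := by
        rw [pt_re, hx2]
        ring
      rw [hq]
      simp only
      rw [norm_mul]
      have h2 := htl (pt x2 (t0 + y)) (by rw [hre]; linarith)
      have h4 := hbpc (pt x2 (t0 + y)) (by rw [hre]; linarith) (by rw [hre])
      rw [hre] at h2
      have h5 : y0 ^ (1 - c) = T ^ ((1 / 2 + η') * (1 - c)) := by
        rw [hy0, ← Real.rpow_mul hT0.le]
      calc ‖jmrZ (pt x2 (t0 + y)) - jmrA y0 (pt x2 (t0 + y))‖ * ‖Bp T (pt x2 (t0 + y))‖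
          ≤ (Ct * y0 ^ (1 - c) * (16 * T)) * (Cb * 4 ^ c * T ^ (c / 2)) :=
            mul_le_mul h2 h4 (norm_nonneg _) (by positivity)
        _ = K1 * (T ^ ((1 / 2 + η') * (1 - c)) * T ^ (1 : ℝ) * T ^ (c / 2)) := by
            rw [hK1, h5, Real.rpow_one]
            ring
        _ = K1 * T ^ ((1 / 2 + η') * (1 - c) + 1 + c / 2) := by
            rw [Real.rpow_add hT0, Real.rpow_add hT0]
        _ ≤ K1 * T ^ (-2 : ℝ) := by
            refine mul_le_mul_of_nonneg_left (Real.rpow_le_rpow_of_exponent_le hT1 ?_) hK1p.le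
            have : (1 / 2 + η') * (1 - c) + 1 + c / 2 = 3 / 2 + η' - η' * c := by ring
            rw [this, hηc]
            linarith
    refine (jmr_right hRpos.le hb).trans ?_
    have hT2 : T ^ (-2 : ℝ) = (T ^ 2)⁻¹ := by
      rw [Real.rpow_neg hT0.le]
      norm_num
    rw [hT2]
    calc Real.exp (x2 ^ 2) * (K1 * (T ^ 2)⁻¹) * (2 * L ^ 2) ≤ Real.exp (x2 ^ 2) * (K1 * (T ^ 2)⁻¹) * (2 * (4 * T)) := by
          refine mul_le_mul_of_nonneg_left (by linarith) (by positivity)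
      _ = K4 / T := by
          rw [hK4]
          field_simp
          ring
      _ ≤ 1 / 8 := by
          rw [div_le_iff₀ hT0]
          linarith
  -- the head
  have hAb : ∀ s : ℂ, 1 / 2 + 0 ≤ s.re → s.re ≤ 1 / 2 + 3 / 2 → ‖jmrA y0 s * Bp T s‖ ≤ 64 * Cb * T ^ (3 : ℝ) := by
    intro s hs1 hs2
    rw [norm_mul]
    have h2 := jmr_A_norm hy01 (s := s) (by linarith)
    have h3 := (hbp T hT10 s).1 (by linarith)
    have h5 : (Real.log y0) ^ 2 ≤ 4 * T := (pow_le_pow_left₀ hly0 hlyL 2).trans hLT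
    have h6 : y0 * (Real.log y0) ^ 2 ≤ T * (4 * T) := mul_le_mul hy0T h5 (sq_nonneg _) hT0.le
    have h7 : (4 : ℝ) ^ s.re ≤ 16 := by
      calc (4 : ℝ) ^ s.re ≤ 4 ^ (2 : ℝ) := Real.rpow_le_rpow_of_exponent_le (by norm_num) (by linarith)
        _ = 16 := by norm_num
    have h8 : T ^ (s.re / 2) ≤ T := by
      calc T ^ (s.re / 2) ≤ T ^ (1 : ℝ) := Real.rpow_le_rpow_of_exponent_le hT1 (by linarith)
        _ = T := Real.rpow_one T
    calc ‖jmrA y0 s‖ * ‖Bp T s‖ ≤ (T * (4 * T)) * (Cb * 16 * T) := by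
          refine mul_le_mul (h2.trans h6) (h3.trans ?_) (norm_nonneg _) (by positivity)
          exact mul_le_mul (mul_le_mul_of_nonneg_left h7 hCb.le) h8 (Real.rpow_nonneg hT0.le _) (by positivity)
      _ = 64 * Cb * T ^ (3 : ℝ) := by
          have : T ^ (3 : ℝ) = T ^ 3 := by
            exact_mod_cast Real.rpow_natCast T 3
          rw [this]
          ring
  have hI3 := rcg (fun s => jmrA y0 s * Bp T s) t0 (L ^ 2) 0 (3 / 2) (64 * Cb * T ^ (3 : ℝ)) hRpos (by norm_num)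
    (fun s hs1 hs2 _ => ⟨(jmr_A_diff y0 s).mul (jmr_B_diff T s), hAb s hs1 hs2⟩)
  have hI3' : 2 * (3 / 2 - 0) * Real.exp (max (0 ^ 2) ((3 / 2) ^ 2)) * Real.exp (-(L ^ 2) ^ 2) * (64 * Cb * T ^ (3 : ℝ)) ≤ 1 / 8 := by
    have h2 := jmr_exp (m := 3) (K := K3) (by norm_num) hK3p hTe2 hTK3
    rw [← hL] at h2
    refine le_trans (le_of_eq ?_) h2
    rw [hK3]
    ring
  have hsplit : JR T (3 / 2) t0 = (∫ y in (-(L ^ 2))..(L ^ 2), kk (3 / 2) y * q (pt (3 / 2) (t0 + y))) +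
      ∫ y in (-(L ^ 2))..(L ^ 2), kk (3 / 2) y * (jmrA y0 (pt (3 / 2) (t0 + y)) * Bp T (pt (3 / 2) (t0 + y))) := by
    rw [← intervalIntegral.integral_add]
    · unfold JR
      rw [← hL]
      refine intervalIntegral.integral_congr fun y _ => ?_
      rw [hq]
      unfold HR jmrZ
      ring
    · refine (jmr_q_cont (3 / 2) t0 fun y => hqd _ ?_).intervalIntegrable _ _
      rw [pt_re]
      norm_num
    · exact (jmr_q_cont (q := fun s => jmrA y0 s * Bp T s) (3 / 2) t0 fun y =>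
        (jmr_A_diff y0 _).mul (jmr_B_diff T _)).intervalIntegrable _ _
  rw [hsplit, ← hL, ← hy0]
  have e1 := norm_sub_norm_le (∫ y in (-(L ^ 2))..(L ^ 2), kk (3 / 2) y * q (pt (3 / 2) (t0 + y)))
    (∫ y in (-(L ^ 2))..(L ^ 2), kk x2 y * q (pt x2 (t0 + y)))
  have e2 := norm_sub_norm_le
    (∫ y in (-(L ^ 2))..(L ^ 2), kk (3 / 2) y * (jmrA y0 (pt (3 / 2) (t0 + y)) * Bp T (pt (3 / 2) (t0 + y))))
    (∫ y in (-(L ^ 2))..(L ^ 2), kk 0 y * (jmrA y0 (pt 0 (t0 + y)) * Bp T (pt 0 (t0 + y))))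
  rw [norm_sub_rev] at hI3
  refine (norm_add_le _ _).trans ?_
  linarith

theorem jmr (η : ℝ) (hη : 0 < η) (hη1 : η ≤ 1) : ∃ T0 : ℝ, 10 ≤ T0 ∧ ∀ T : ℝ, T0 ≤ T →
    ∫ t0 in T..(2 * T), ‖JR T (3 / 2) t0‖ ^ 2 ≤ T ^ (1 + η) := by
  have h4 : 0 < η / 4 := by linarith
  obtain ⟨T1, hT1, h1⟩ := jmr_pw (η / 4) h4 (by linarith)
  obtain ⟨T2, hT2, h2⟩ := pms (η / 4) h4 (by linarith)
  refine ⟨max T1 (max T2 (10 ^ (2 / η))), (by linarith : (10 : ℝ) ≤ T1).trans (le_max_left _ _), fun T hT => ?_⟩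
  simp only [max_le_iff] at hT
  obtain ⟨hTa, hTb, hTc⟩ := hT
  have hT0 : 0 < T := by linarith
  have hT1' : 1 ≤ T := by linarith
  obtain ⟨y0, hy0⟩ : ∃ y0 : ℝ, y0 = T ^ (1 / 2 + η / 4) := ⟨_, rfl⟩
  obtain ⟨G, hG⟩ : ∃ G : ℝ → ℂ, G = fun t => jmrA y0 (pt 0 t) * Bp T (pt 0 t) := ⟨_, rfl⟩
  obtain ⟨F, hF⟩ : ∃ F : ℝ → ℂ, F = fun t0 => ∫ y in (-(Real.log T) ^ 2)..((Real.log T) ^ 2), kk 0 y * G (t0 + y) := ⟨_, rfl⟩
  have hGc : Continuous G := by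
    rw [hG]
    refine continuous_iff_continuousAt.mpr fun t => ?_
    have hc : Continuous fun t : ℝ => pt 0 t := by
      unfold pt
      fun_prop
    exact ContinuousAt.comp (f := fun t : ℝ => pt 0 t) (g := fun s => jmrA y0 s * Bp T s)
      ((jmr_A_diff y0 _).mul (jmr_B_diff T _)).continuousAt hc.continuousAt
  have hFc : Continuous F := by
    rw [hF]
    refine intervalIntegral.continuous_parametric_intervalIntegral_of_continuous' ?_ _ _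
    exact ((jmr_kk_cont 0).comp continuous_snd).mul (hGc.comp (continuous_fst.add continuous_snd))
  have hpw : ∀ t0 : ℝ, ‖JR T (3 / 2) t0‖ ^ 2 ≤ 2 * ‖F t0‖ ^ 2 + 2 := by
    intro t0
    have h3 := h1 T hTa t0
    have h5 : ‖JR T (3 / 2) t0‖ ≤ ‖F t0‖ + 1 := by
      rw [hF, hG, hy0]
      exact h3
    have h6 : ‖JR T (3 / 2) t0‖ ^ 2 ≤ (‖F t0‖ + 1) ^ 2 := pow_le_pow_left₀ (norm_nonneg _) h5 2
    nlinarith [sq_nonneg (‖F t0‖ - 1)]
  have hTT : T ≤ 2 * T := by linarith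
  have hint : IntervalIntegrable (fun t0 => 2 * ‖F t0‖ ^ 2 + 2) volume T (2 * T) :=
    (((hFc.norm.pow 2).const_mul 2).add continuous_const).intervalIntegrable _ _
  have hmono : ∫ t0 in T..(2 * T), ‖JR T (3 / 2) t0‖ ^ 2 ≤ ∫ t0 in T..(2 * T), (2 * ‖F t0‖ ^ 2 + 2) := by
    rw [intervalIntegral.integral_of_le hTT, intervalIntegral.integral_of_le hTT]
    refine integral_mono_of_nonneg (Filter.Eventually.of_forall fun t0 => sq_nonneg _) ?_
      (Filter.Eventually.of_forall hpw)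
    exact (intervalIntegrable_iff_integrableOn_Ioc_of_le hTT).mp hint
  have hk := klm2 T (by linarith) G hGc.continuousOn
  have hp := h2 T hTb (fun n => ((aa n : ℝ) : ℂ)) jmr_aa_norm
  have hk' : ∫ t0 in T..(2 * T), ‖F t0‖ ^ 2 ≤ 4 * T ^ (1 + η / 2) := by
    have h7 : (1 + 2 * (η / 4)) = 1 + η / 2 := by ring
    rw [h7] at hp
    have h8 : ∫ t in (T / 2)..(3 * T), ‖G t‖ ^ 2 ≤ T ^ (1 + η / 2) := by
      rw [hG, hy0]
      exact hp
    rw [hF]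
    linarith
  have hsum : ∫ t0 in T..(2 * T), (2 * ‖F t0‖ ^ 2 + 2) = 2 * (∫ t0 in T..(2 * T), ‖F t0‖ ^ 2) + 2 * T := by
    have i0 : Continuous fun t0 : ℝ => 2 * ‖F t0‖ ^ 2 := (hFc.norm.pow 2).const_mul 2
    have i1 : IntervalIntegrable (fun t0 : ℝ => 2 * ‖F t0‖ ^ 2) volume T (2 * T) := i0.intervalIntegrable _ _
    have i2 : IntervalIntegrable (fun _ : ℝ => (2 : ℝ)) volume T (2 * T) := continuous_const.intervalIntegrable _ _
    rw [intervalIntegral.integral_add i1 i2, intervalIntegral.integral_const_mul, intervalIntegral.integral_const]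
    simp only [smul_eq_mul]
    ring
  have hTpow : T ≤ T ^ (1 + η / 2) := by
    calc T = T ^ (1 : ℝ) := (Real.rpow_one T).symm
      _ ≤ T ^ (1 + η / 2) := Real.rpow_le_rpow_of_exponent_le hT1' (by linarith)
  have h10 : 10 ≤ T ^ (η / 2) := by
    have h11 : ((10 : ℝ) ^ (2 / η)) ^ (η / 2) = 10 := by
      rw [← Real.rpow_mul (by norm_num)]
      have : 2 / η * (η / 2) = 1 := by
        field_simp
      rw [this, Real.rpow_one]
    calc (10 : ℝ) = ((10 : ℝ) ^ (2 / η)) ^ (η / 2) := h11.symm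
      _ ≤ T ^ (η / 2) := Real.rpow_le_rpow (Real.rpow_nonneg (by norm_num) _) hTc (by linarith)
  have hfin : T ^ (1 + η) = T ^ (1 + η / 2) * T ^ (η / 2) := by
    rw [← Real.rpow_add hT0]
    congr 1
    ring
  have hpos : 0 < T ^ (1 + η / 2) := Real.rpow_pos_of_pos hT0 _
  calc ∫ t0 in T..(2 * T), ‖JR T (3 / 2) t0‖ ^ 2 ≤ 2 * (∫ t0 in T..(2 * T), ‖F t0‖ ^ 2) + 2 * T := by
        rw [← hsum]
        exact hmono
    _ ≤ T ^ (1 + η / 2) * 10 := by linarith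
    _ ≤ T ^ (1 + η / 2) * T ^ (η / 2) := mul_le_mul_of_nonneg_left h10 hpos.le
    _ = T ^ (1 + η) := hfin.symm

end Pool.Agent.H24.WH
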