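import Pool.Agent.H24.WH.Dif
import Pool.Agent.H24.WH.Avl
import Pool.Agent.H24.WH.Avr
import Pool.Agent.H24.WH.Jmr
import Pool.Agent.H24.WH.Jml
import Pool.Agent.H24.WH.Jco
import Pool.Agent.H24.WH.Ghb
import Pool.Agent.H24.WH.Klm
import Pool.Agent.H24.WH.Bms
import Pool.Agent.H24.WH.Bas

/-!
# [H24 WH RLH] the window polynomial is large in mean square

PROOF. `d` small: `10 d (b+3) + 2d ≤ ε/8`, `2d (b+2) ≤ ..`, `κ = d^2/32`, `e = 2d`. Suppose the integral is `< T^(1-ε)`. For `t0 ∈ [T,2T]`: `X(t0) = ‖JR - conj JL‖ ≤ S(t0) + (16 H2/d^2)^(1/2) X(t0)` (if `H2 ≤ d^2/16` then `ghb`, `dif` give `X ≤ S`;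
otherwise the second term is `≥ X`), `S` = the right side of `dif`. `avl`, `avr`: `c T L^2 ≤ ‖int ph conj JL‖ ≤ 1 + int X`. `int S ≤ T^(1 - h/4) + T^(ε/8) · 2 · int_{T/2}^{3T} (‖Rh+‖ + ‖Rh-‖)‖Bp-‖` (`klm1`), Cauchy-Schwarz with `bms`:
`≤ T^(1-h/4) + 4 T^(ε/8) (T^(1-ε))^(1/2) (C T^(1+2d) L^3)^(1/2)`. `int (16 H2/d^2)^(1/2) X ≤ (16/d^2 int H2)^(1/2) (int X^2)^(1/2) ≤ C T^((1 - d^2/16)/2) (4 T^(1+η))^(1/2)`, `η = d^2/32` (`ghk`, `jmr`, `jml`). All are `o(T L^2)`: contradiction.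
-/

set_option autoImplicit false

namespace Pool.Agent.H24.WH

open Complex MeasureTheory Finset Pool.Agent.H48.WN

/-- the continuous function under the integral of `dif` -/
private noncomputable def rlh_g (b h d T t : ℝ) : ℝ :=
  (‖Rh b h T (pt (2 * d) t)‖ + ‖Rh b h T (pt (-(2 * d)) t)‖) * ‖Bp T (pt (-(2 * d)) t)‖

private theorem rlh_c1 (b h c T : ℝ) : Continuous fun t : ℝ => ‖Rh b h T (pt c t)‖ :=
  ((aux_rh b h T).continuous.comp (aux_pt c)).norm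

private theorem rlh_c2 (c T : ℝ) : Continuous fun t : ℝ => ‖Bp T (pt c t)‖ :=
  ((aux_bp T).continuous.comp (aux_pt c)).norm

private theorem rlh_gc (b h d T : ℝ) : Continuous (rlh_g b h d T) := by
  unfold rlh_g
  exact ((rlh_c1 _ _ _ _).add (rlh_c1 _ _ _ _)).mul (rlh_c2 _ _)

private theorem rlh_g0 (b h d T t : ℝ) : 0 ≤ rlh_g b h d T t := by
  unfold rlh_g
  positivity

/-- the inner integral is continuous -/
private theorem rlh_sc (b h d T : ℝ) : Continuous fun t0 : ℝ =>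
    ∫ y in (-(Real.log T) ^ 2)..((Real.log T) ^ 2), Real.exp (-y ^ 2) * rlh_g b h d T (t0 + y) := by
  apply intervalIntegral.continuous_parametric_intervalIntegral_of_continuous'
  have h1 : Continuous fun p : ℝ × ℝ => rlh_g b h d T (p.1 + p.2) :=
    (rlh_gc b h d T).comp (by fun_prop)
  have h2 : Continuous fun p : ℝ × ℝ => Real.exp (-p.2 ^ 2) := by fun_prop
  exact h2.mul h1

private theorem rlh_s0 (b h d T t0 : ℝ) :
    0 ≤ ∫ y in (-(Real.log T) ^ 2)..((Real.log T) ^ 2), Real.exp (-y ^ 2) * rlh_g b h d T (t0 + y) := by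
  apply intervalIntegral.integral_nonneg
  · nlinarith [sq_nonneg (Real.log T)]
  · intro y _
    exact mul_nonneg (Real.exp_pos _).le (rlh_g0 _ _ _ _ _)

/-- the integral of `g` -/
private theorem rlh_gi (b h d T m I C E : ℝ) (hT : 0 < T) (hm : 0 < m)
    (hI : (∫ t in (T / 4)..(4 * T), (‖Rh b h T (pt (2 * d) t)‖ ^ 2 + ‖Rh b h T (pt (-(2 * d)) t)‖ ^ 2)) ≤ I)
    (hB : ∫ t in (T / 2)..(3 * T), ‖Bp T (pt (-(2 * d)) t)‖ ^ 2 ≤ C) (hE : m * I + C / (2 * m) ≤ E) :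
    ∫ t in (T / 2)..(3 * T), rlh_g b h d T t ≤ E := by
  have hc1 : Continuous fun t : ℝ => ‖Rh b h T (pt (2 * d) t)‖ ^ 2 + ‖Rh b h T (pt (-(2 * d)) t)‖ ^ 2 :=
    ((rlh_c1 _ _ _ _).pow 2).add ((rlh_c1 _ _ _ _).pow 2)
  have hc2 : Continuous fun t : ℝ => ‖Bp T (pt (-(2 * d)) t)‖ ^ 2 := (rlh_c2 _ _).pow 2
  have h1 : ∫ t in (T / 2)..(3 * T), rlh_g b h d T t ≤
      ∫ t in (T / 2)..(3 * T), (m * (‖Rh b h T (pt (2 * d) t)‖ ^ 2 + ‖Rh b h T (pt (-(2 * d)) t)‖ ^ 2) +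
        1 / (2 * m) * ‖Bp T (pt (-(2 * d)) t)‖ ^ 2) := by
    apply intervalIntegral.integral_mono_on (by linarith)
    · exact (rlh_gc b h d T).intervalIntegrable _ _
    · exact ((hc1.const_mul m).add (hc2.const_mul _)).intervalIntegrable _ _
    · intro t _
      unfold rlh_g
      obtain ⟨x, hx⟩ : ∃ x, x = ‖Rh b h T (pt (2 * d) t)‖ := ⟨_, rfl⟩
      obtain ⟨y, hy⟩ : ∃ y, y = ‖Rh b h T (pt (-(2 * d)) t)‖ := ⟨_, rfl⟩
      obtain ⟨z, hz⟩ : ∃ z, z = ‖Bp T (pt (-(2 * d)) t)‖ := ⟨_, rfl⟩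
      rw [← hx, ← hy, ← hz]
      have h2 : 0 ≤ 1 / (2 * m) * ((m * (x + y) - z) ^ 2 + m ^ 2 * (x - y) ^ 2) := by positivity
      have h3 : 1 / (2 * m) * ((m * (x + y) - z) ^ 2 + m ^ 2 * (x - y) ^ 2) =
          m * (x ^ 2 + y ^ 2) + 1 / (2 * m) * z ^ 2 - (x + y) * z := by
        field_simp
        ring
      linarith
  have h2 : ∫ t in (T / 2)..(3 * T), (m * (‖Rh b h T (pt (2 * d) t)‖ ^ 2 + ‖Rh b h T (pt (-(2 * d)) t)‖ ^ 2) +
        1 / (2 * m) * ‖Bp T (pt (-(2 * d)) t)‖ ^ 2) =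
      m * (∫ t in (T / 2)..(3 * T), (‖Rh b h T (pt (2 * d) t)‖ ^ 2 + ‖Rh b h T (pt (-(2 * d)) t)‖ ^ 2)) +
        1 / (2 * m) * ∫ t in (T / 2)..(3 * T), ‖Bp T (pt (-(2 * d)) t)‖ ^ 2 := by
    rw [intervalIntegral.integral_add ((hc1.const_mul m).intervalIntegrable _ _)
      ((hc2.const_mul _).intervalIntegrable _ _), intervalIntegral.integral_const_mul,
      intervalIntegral.integral_const_mul]
  have h3 : (∫ t in (T / 2)..(3 * T), (‖Rh b h T (pt (2 * d) t)‖ ^ 2 + ‖Rh b h T (pt (-(2 * d)) t)‖ ^ 2)) ≤ I := by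
    refine le_trans ?_ hI
    apply intervalIntegral.integral_mono_interval (by linarith) (by linarith) (by linarith)
    · exact Filter.Eventually.of_forall fun t => by positivity
    · exact hc1.intervalIntegrable _ _
  rw [h2] at h1
  refine h1.trans (le_trans ?_ hE)
  have h4 : m * (∫ t in (T / 2)..(3 * T), (‖Rh b h T (pt (2 * d) t)‖ ^ 2 + ‖Rh b h T (pt (-(2 * d)) t)‖ ^ 2)) ≤ m * I :=
    mul_le_mul_of_nonneg_left h3 hm.le
  have h5 : 1 / (2 * m) * (∫ t in (T / 2)..(3 * T), ‖Bp T (pt (-(2 * d)) t)‖ ^ 2) ≤ 1 / (2 * m) * C :=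
    mul_le_mul_of_nonneg_left hB (by positivity)
  have h6 : 1 / (2 * m) * C = C / (2 * m) := by ring
  linarith

private theorem rlh_ab {T : ℝ} (A B : ℝ) {f : ℝ → ℝ} (hf : Continuous f) :
    ∫ t in T..(2 * T), (A + B * f t) = T * A + B * ∫ t in T..(2 * T), f t := by
  have h1 : IntervalIntegrable (fun _ : ℝ => A) volume T (2 * T) := continuous_const.intervalIntegrable _ _
  have h2 : IntervalIntegrable (fun t => B * f t) volume T (2 * T) := (hf.const_mul B).intervalIntegrable _ _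
  rw [intervalIntegral.integral_add h1 h2, intervalIntegral.integral_const_mul, intervalIntegral.integral_const,
    smul_eq_mul]
  ring

private theorem rlh_sq (a b : ℂ) : ‖a - (starRingEnd ℂ) b‖ ^ 2 ≤ 2 * ‖a‖ ^ 2 + 2 * ‖b‖ ^ 2 := by
  have h2 := norm_sub_le a ((starRingEnd ℂ) b)
  rw [RCLike.norm_conj] at h2
  have h4 : ‖a - (starRingEnd ℂ) b‖ ^ 2 ≤ (‖a‖ + ‖b‖) ^ 2 := pow_le_pow_left₀ (norm_nonneg _) h2 2
  have h5 : (‖a‖ + ‖b‖) ^ 2 = 2 * ‖a‖ ^ 2 + 2 * ‖b‖ ^ 2 - (‖a‖ - ‖b‖) ^ 2 := by ring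
  have h6 := sq_nonneg (‖a‖ - ‖b‖)
  linarith

theorem rlh (b h ε : ℝ) (hb : 1 ≤ b) (hh : 0 < h) (hh1 : h ≤ 1 / 100) (hε : 0 < ε) (hε1 : ε ≤ 1) :
    ∃ e : ℝ, 0 < e ∧ e ≤ 1 / 16 ∧ 2 * e * (b + 2) ≤ ε / 100 ∧ ∃ T0 : ℝ, 10 ≤ T0 ∧ ∀ T : ℝ, T0 ≤ T → T ^ (1 - ε) ≤
      ∫ t in (T / 4)..(4 * T),
        (‖Rh b h T ((1 / 2 + e : ℝ) + (t : ℂ) * I)‖ ^ 2 + ‖Rh b h T ((1 / 2 - e : ℝ) + (t : ℂ) * I)‖ ^ 2) := by
  obtain ⟨d, hd⟩ : ∃ d : ℝ, d = ε / (1000 * (b + 3)) := ⟨_, rfl⟩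
  have hb3 : 0 < b + 3 := by linarith
  have hdb : d * (b + 3) = ε / 1000 := by
    rw [hd]
    field_simp
  have hd0 : 0 < d := by
    rw [hd]
    positivity
  have hd4 : 4 * d ≤ ε / 1000 := by nlinarith
  have hd1 : d ≤ 1 / 4000 := by linarith
  refine ⟨2 * d, by linarith, by linarith, by nlinarith, ?_⟩
  -- the constants
  obtain ⟨κ, hκ⟩ : ∃ κ : ℝ, κ = d ^ 2 / 32 := ⟨_, rfl⟩
  have hd2 : 0 < d ^ 2 := by positivity
  have hd2' : d ^ 2 ≤ 1 := by nlinarith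
  have hκ0 : 0 < κ := by linarith
  have hκ1 : κ ≤ d ^ 2 / 32 := hκ.le
  obtain ⟨Ta, ha, Ha⟩ := dif b h d κ hb hh hh1 hd0 (by linarith) hκ0 (by linarith)
  obtain ⟨c, Tb, hc0, hTb, Hb⟩ := avl
  obtain ⟨Tc, hTc, Hc⟩ := avr
  obtain ⟨Td, hTd, Hd⟩ := jmr κ hκ0 (by linarith)
  obtain ⟨Te, hTe, He⟩ := jml κ hκ0 (by linarith)
  obtain ⟨Tf, hTf, Hf⟩ := jco
  obtain ⟨Tg, hTg, Hg⟩ := ghb d κ hd0 (by linarith) hκ0 hκ1
  obtain ⟨Th, hTh, Hh⟩ := ghk d κ hd0 (by linarith) hκ0 hκ1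
  obtain ⟨C, hC0, HC⟩ := bms
  obtain ⟨Ti, hTi, Hi⟩ := aux_log (2 + C) (ε / 4) 3 (by linarith)
  obtain ⟨Tj, hTj, Hj⟩ := aux_pow (8 / d ^ 2 + 2) (d ^ 2 / 64) (by linarith)
  obtain ⟨Tk, hTk, Hk⟩ := aux_pow (Real.exp (5 / c + 1)) 1 one_pos
  obtain ⟨T0, hT0⟩ : ∃ T0 : ℝ, T0 = 1000 + Ta + Tb + Tc + Td + Te + Tf + Tg + Th + Ti + Tj + Tk := ⟨_, rfl⟩
  refine ⟨T0, by linarith, fun T hT => ?_⟩
  have hT1000 : 1000 ≤ T := by linarith
  have hTp : 0 < T := by linarith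
  have hT1 : 1 ≤ T := by linarith
  have Ha' := Ha T (by linarith)
  have Hb' := Hb T (by linarith)
  have Hc' := Hc T (by linarith)
  have Hd' := Hd T (by linarith)
  have He' := He T (by linarith)
  obtain ⟨Hf1, Hf2⟩ := Hf T (by linarith)
  have Hg' := Hg T (by linarith)
  obtain ⟨Hh1, Hh2, Hh3⟩ := Hh T (by linarith)
  have HC' := HC T (by linarith) (-(2 * d)) (by
    rw [abs_neg, abs_of_pos (by linarith)]
    linarith)
  rw [abs_neg, abs_of_pos (by linarith : 0 < 2 * d)] at HC'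
  have Hi' := Hi T (by linarith)
  have Hj' := Hj T (by linarith)
  have Hk' := Hk T (by linarith)
  obtain ⟨L, hL⟩ : ∃ L : ℝ, L = Real.log T := ⟨_, rfl⟩
  have hLc : 5 / c + 1 ≤ L := by
    rw [hL, Real.le_log_iff_exp_le hTp]
    rwa [Real.rpow_one] at Hk'
  have h5c : 0 < 5 / c := by positivity
  have hL1 : 1 ≤ L := by linarith
  have hcL : 5 < c * L ^ 2 := by
    have h1 : 5 / c < L := by linarith
    have h2 : 5 < c * L := by
      rw [div_lt_iff₀ hc0] at h1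
      linarith
    nlinarith
  by_contra hcon
  push Not at hcon
  -- rewriting of the integral
  have hcon' : (∫ t in (T / 4)..(4 * T), (‖Rh b h T (pt (2 * d) t)‖ ^ 2 + ‖Rh b h T (pt (-(2 * d)) t)‖ ^ 2)) <
      T ^ (1 - ε) := by
    have h1 : ∀ t : ℝ, pt (-(2 * d)) t = ((1 / 2 - 2 * d : ℝ) : ℂ) + (t : ℂ) * I := by
      intro t
      unfold pt
      rw [← sub_eq_add_neg]
    have h2 : ∀ t : ℝ, pt (2 * d) t = ((1 / 2 + 2 * d : ℝ) : ℂ) + (t : ℂ) * I := fun t => rfl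
    simp only [h1, h2]
    exact hcon
  -- the local quantities
  obtain ⟨X, hX⟩ : ∃ X : ℝ → ℝ, ∀ t0, X t0 = ‖JR T (3 / 2) t0 - (starRingEnd ℂ) (JL T (3 / 2) t0)‖ :=
    ⟨_, fun t0 => rfl⟩
  obtain ⟨S, hS⟩ : ∃ S : ℝ → ℝ, ∀ t0, S t0 = T ^ (-h / 4) + T ^ (10 * d * (b + 3)) *
      ∫ y in (-(Real.log T) ^ 2)..((Real.log T) ^ 2), Real.exp (-y ^ 2) * rlh_g b h d T (t0 + y) :=
    ⟨_, fun t0 => rfl⟩
  have hXc : ContinuousOn X (Set.Icc T (2 * T)) := by
    have h1 : ContinuousOn (fun t0 => ‖JR T (3 / 2) t0 - (starRingEnd ℂ) (JL T (3 / 2) t0)‖) (Set.Icc T (2 * T)) :=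
      (Hf1.sub (Complex.continuous_conj.comp_continuousOn Hf2)).norm
    exact h1.congr fun t _ => hX t
  have hSc : Continuous S := by
    have h1 : S = fun t0 => T ^ (-h / 4) + T ^ (10 * d * (b + 3)) *
        ∫ y in (-(Real.log T) ^ 2)..((Real.log T) ^ 2), Real.exp (-y ^ 2) * rlh_g b h d T (t0 + y) := funext hS
    rw [h1]
    exact continuous_const.add (continuous_const.mul (rlh_sc b h d T))
  have hX0 : ∀ t0, 0 ≤ X t0 := fun t0 => by
    rw [hX]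
    positivity
  have hS0 : ∀ t0, 0 ≤ S t0 := fun t0 => by
    rw [hS]
    have := rlh_s0 b h d T t0
    positivity
  obtain ⟨l, hl⟩ : ∃ l : ℝ, l = T ^ (3 * d ^ 2 / 64) := ⟨_, rfl⟩
  have hl0 : 0 < l := by
    rw [hl]
    positivity
  -- the pointwise bound
  have hpt : ∀ t0 ∈ Set.Icc T (2 * T), X t0 ≤ S t0 + (8 / d ^ 2 * l * H2 d κ T t0 + 1 / (2 * l) * X t0 ^ 2) := by
    intro t0 ht0
    have hH := (Hh3 t0 ht0.1 ht0.2).1
    have hx2 : 0 ≤ 1 / (2 * l) * X t0 ^ 2 := by positivity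
    by_cases hle : H2 d κ T t0 ≤ d ^ 2 / 16
    · have h1 := Ha' t0 ht0.1 ht0.2 (Hg' t0 ht0.1 ht0.2 hle)
      have h2 : X t0 ≤ S t0 := by
        rw [hX, hS]
        exact h1
      have h3 : 0 ≤ 8 / d ^ 2 * l * H2 d κ T t0 := by positivity
      linarith
    · push Not at hle
      have h1 : l / 2 ≤ 8 / d ^ 2 * l * H2 d κ T t0 := by
        have h2 : 8 / d ^ 2 * l * (d ^ 2 / 16) ≤ 8 / d ^ 2 * l * H2 d κ T t0 :=
          mul_le_mul_of_nonneg_left hle.le (by positivity)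
        have h3 : 8 / d ^ 2 * l * (d ^ 2 / 16) = l / 2 := by
          field_simp
          ring
        linarith
      have h2 : X t0 ≤ l / 2 + 1 / (2 * l) * X t0 ^ 2 := by
        have h3 : 0 ≤ 1 / (2 * l) * (l - X t0) ^ 2 := by positivity
        have h4 : 1 / (2 * l) * (l - X t0) ^ 2 = l / 2 + 1 / (2 * l) * X t0 ^ 2 - X t0 := by
          field_simp
          ring
        linarith
      have := hS0 t0
      linarith
  -- integrability
  have hT2 : T ≤ 2 * T := by linarith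
  have hXi : IntervalIntegrable X volume T (2 * T) := hXc.intervalIntegrable_of_Icc hT2
  have hX2i : IntervalIntegrable (fun t => X t ^ 2) volume T (2 * T) := (hXc.pow 2).intervalIntegrable_of_Icc hT2
  have hHi : IntervalIntegrable (fun t0 => H2 d κ T t0) volume T (2 * T) := Hh1.intervalIntegrable_of_Icc hT2
  have hSi : IntervalIntegrable S volume T (2 * T) := hSc.intervalIntegrable _ _
  -- the integral of X
  have hint : ∫ t in T..(2 * T), X t ≤ (∫ t in T..(2 * T), S t) +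
      (8 / d ^ 2 * l * (∫ t in T..(2 * T), H2 d κ T t) + 1 / (2 * l) * ∫ t in T..(2 * T), X t ^ 2) := by
    have h1 := intervalIntegral.integral_mono_on hT2 hXi
      (hSi.add ((hHi.const_mul (8 / d ^ 2 * l)).add (hX2i.const_mul (1 / (2 * l))))) hpt
    rw [intervalIntegral.integral_add hSi ((hHi.const_mul _).add (hX2i.const_mul _)),
      intervalIntegral.integral_add (hHi.const_mul _) (hX2i.const_mul _), intervalIntegral.integral_const_mul,
      intervalIntegral.integral_const_mul] at h1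
    exact h1
  -- the mean square of X
  have hX2 : ∫ t in T..(2 * T), X t ^ 2 ≤ 4 * T ^ (1 + κ) := by
    have hR : IntervalIntegrable (fun t => ‖JR T (3 / 2) t‖ ^ 2) volume T (2 * T) :=
      (Hf1.norm.pow 2).intervalIntegrable_of_Icc hT2
    have hLi : IntervalIntegrable (fun t => ‖JL T (3 / 2) t‖ ^ 2) volume T (2 * T) :=
      (Hf2.norm.pow 2).intervalIntegrable_of_Icc hT2
    have h1 : ∫ t in T..(2 * T), X t ^ 2 ≤
        ∫ t in T..(2 * T), (2 * ‖JR T (3 / 2) t‖ ^ 2 + 2 * ‖JL T (3 / 2) t‖ ^ 2) := by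
      refine intervalIntegral.integral_mono_on hT2 hX2i ((hR.const_mul 2).add (hLi.const_mul 2)) ?_
      intro t _
      rw [hX]
      exact rlh_sq _ _
    rw [intervalIntegral.integral_add (hR.const_mul 2) (hLi.const_mul 2), intervalIntegral.integral_const_mul,
      intervalIntegral.integral_const_mul] at h1
    linarith
  -- powers
  have hpw : ∀ x y : ℝ, T ^ x * T ^ y = T ^ (x + y) := fun x y => (Real.rpow_add hTp x y).symm
  have hpm : ∀ {x y : ℝ}, x ≤ y → T ^ x ≤ T ^ y := fun hxy => Real.rpow_le_rpow_of_exponent_le hT1 hxy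
  have hpp : ∀ x : ℝ, 0 < T ^ x := fun x => Real.rpow_pos_of_pos hTp x
  have hlinv : 1 / (2 * l) = 1 / 2 * T ^ (-(3 * d ^ 2 / 64)) := by
    rw [hl, Real.rpow_neg hTp.le]
    field_simp
  have hterm2 : 8 / d ^ 2 * l * (∫ t in T..(2 * T), H2 d κ T t) + 1 / (2 * l) * (∫ t in T..(2 * T), X t ^ 2) ≤ T := by
    have h1 : 8 / d ^ 2 * l * (∫ t in T..(2 * T), H2 d κ T t) ≤ 8 / d ^ 2 * T ^ (1 - d ^ 2 / 64) := by
      calc 8 / d ^ 2 * l * (∫ t in T..(2 * T), H2 d κ T t) ≤ 8 / d ^ 2 * l * T ^ (1 - d ^ 2 / 16) :=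
            mul_le_mul_of_nonneg_left Hh2 (by positivity)
        _ = 8 / d ^ 2 * (T ^ (3 * d ^ 2 / 64) * T ^ (1 - d ^ 2 / 16)) := by
            rw [hl]
            ring
        _ = 8 / d ^ 2 * T ^ (1 - d ^ 2 / 64) := by
            rw [hpw]
            congr 2
            ring
    have h2 : 1 / (2 * l) * (∫ t in T..(2 * T), X t ^ 2) ≤ 2 * T ^ (1 - d ^ 2 / 64) := by
      calc 1 / (2 * l) * (∫ t in T..(2 * T), X t ^ 2) ≤ 1 / (2 * l) * (4 * T ^ (1 + κ)) :=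
            mul_le_mul_of_nonneg_left hX2 (by positivity)
        _ = 2 * (T ^ (-(3 * d ^ 2 / 64)) * T ^ (1 + κ)) := by
            rw [hlinv]
            ring
        _ = 2 * T ^ (1 - d ^ 2 / 64) := by
            rw [hpw, hκ]
            congr 2
            ring
    have h3 : (8 / d ^ 2 + 2) * T ^ (1 - d ^ 2 / 64) ≤ T := by
      calc (8 / d ^ 2 + 2) * T ^ (1 - d ^ 2 / 64) ≤ T ^ (d ^ 2 / 64) * T ^ (1 - d ^ 2 / 64) :=
            mul_le_mul_of_nonneg_right Hj' (hpp _).le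
        _ = T := by
            rw [hpw]
            have h4 : d ^ 2 / 64 + (1 - d ^ 2 / 64) = 1 := by ring
            rw [h4, Real.rpow_one]
    linarith
  -- the integral of S
  have hgi : ∫ t in (T / 2)..(3 * T), rlh_g b h d T t ≤ (1 + C / 2) * T ^ (1 - ε / 2 + 2 * d) * L ^ 3 := by
    refine rlh_gi b h d T (T ^ (ε / 2)) (T ^ (1 - ε)) (C * T ^ (1 + 2 * d) * L ^ 3) _ hTp (hpp _) hcon'.le
      (by rw [hL]; exact HC') ?_
    have h1 : T ^ (ε / 2) * T ^ (1 - ε) ≤ T ^ (1 - ε / 2 + 2 * d) * L ^ 3 := by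
      have h2 : T ^ (ε / 2) * T ^ (1 - ε) ≤ T ^ (1 - ε / 2 + 2 * d) := by
        rw [hpw]
        exact hpm (by linarith)
      have h3 : T ^ (1 - ε / 2 + 2 * d) ≤ T ^ (1 - ε / 2 + 2 * d) * L ^ 3 :=
        le_mul_of_one_le_right (hpp _).le (one_le_pow₀ hL1)
      linarith
    have h2 : C * T ^ (1 + 2 * d) * L ^ 3 / (2 * T ^ (ε / 2)) = C / 2 * T ^ (1 - ε / 2 + 2 * d) * L ^ 3 := by
      have h3 : T ^ (1 + 2 * d) = T ^ (1 - ε / 2 + 2 * d) * T ^ (ε / 2) := by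
        rw [hpw]
        congr 1
        ring
      have h4 : T ^ (ε / 2) ≠ 0 := (hpp _).ne'
      rw [h3]
      field_simp
    rw [h2]
    linarith
  have hSint : ∫ t in T..(2 * T), S t ≤ 2 * T := by
    have h1 : ∫ t in T..(2 * T), S t = T * T ^ (-h / 4) + T ^ (10 * d * (b + 3)) *
        ∫ t0 in T..(2 * T), ∫ y in (-(Real.log T) ^ 2)..((Real.log T) ^ 2),
          Real.exp (-y ^ 2) * rlh_g b h d T (t0 + y) := by
      simp only [hS]
      exact rlh_ab _ _ (rlh_sc b h d T)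
    have h2 := klm1 T hT1000 (rlh_g b h d T) (rlh_gc b h d T).continuousOn (rlh_g0 b h d T)
    have h3 : T * T ^ (-h / 4) ≤ T := by
      refine mul_le_of_le_one_right hTp.le ?_
      exact Real.rpow_le_one_of_one_le_of_nonpos hT1 (by linarith)
    have h4 : T ^ (10 * d * (b + 3)) * (∫ t0 in T..(2 * T), ∫ y in (-(Real.log T) ^ 2)..((Real.log T) ^ 2),
          Real.exp (-y ^ 2) * rlh_g b h d T (t0 + y)) ≤ T := by
      calc T ^ (10 * d * (b + 3)) * (∫ t0 in T..(2 * T), ∫ y in (-(Real.log T) ^ 2)..((Real.log T) ^ 2),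
            Real.exp (-y ^ 2) * rlh_g b h d T (t0 + y))
          ≤ T ^ (10 * d * (b + 3)) * (2 * ((1 + C / 2) * T ^ (1 - ε / 2 + 2 * d) * L ^ 3)) := by
            refine mul_le_mul_of_nonneg_left ?_ (hpp _).le
            linarith
        _ = (2 + C) * L ^ 3 * (T ^ (10 * d * (b + 3)) * T ^ (1 - ε / 2 + 2 * d)) := by ring
        _ ≤ (2 + C) * L ^ 3 * T ^ (1 - ε / 4) := by
            refine mul_le_mul_of_nonneg_left ?_ (by positivity)
            rw [hpw]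
            refine hpm ?_
            nlinarith
        _ ≤ T ^ (ε / 4) * T ^ (1 - ε / 4) := by
            refine mul_le_mul_of_nonneg_right ?_ (hpp _).le
            rw [hL]
            exact Hi'
        _ = T := by
            rw [hpw]
            have h5 : ε / 4 + (1 - ε / 4) = 1 := by ring
            rw [h5, Real.rpow_one]
    rw [h1]
    linarith
  -- the lower bound
  have hlow : c * T * L ^ 2 ≤ 1 + ∫ t in T..(2 * T), X t := by
    rw [hL]
    refine Hb'.trans ?_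
    have hphc : Continuous fun t0 : ℝ => ((ph (t0 / T) : ℝ) : ℂ) :=
      Complex.continuous_ofReal.comp (ph_contDiff.continuous.comp (by fun_prop))
    have hi1 : IntervalIntegrable (fun t0 => ((ph (t0 / T) : ℝ) : ℂ) * JR T (3 / 2) t0) volume T (2 * T) :=
      (hphc.continuousOn.mul Hf1).intervalIntegrable_of_Icc hT2
    have hi2 : IntervalIntegrable (fun t0 => ((ph (t0 / T) : ℝ) : ℂ) * (starRingEnd ℂ) (JL T (3 / 2) t0))
        volume T (2 * T) :=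
      (hphc.continuousOn.mul (Complex.continuous_conj.comp_continuousOn Hf2)).intervalIntegrable_of_Icc hT2
    have h1 : (∫ t0 in T..(2 * T), ((ph (t0 / T) : ℝ) : ℂ) * (starRingEnd ℂ) (JL T (3 / 2) t0)) =
        (∫ t0 in T..(2 * T), ((ph (t0 / T) : ℝ) : ℂ) * JR T (3 / 2) t0) -
          ∫ t0 in T..(2 * T), (((ph (t0 / T) : ℝ) : ℂ) * JR T (3 / 2) t0 -
            ((ph (t0 / T) : ℝ) : ℂ) * (starRingEnd ℂ) (JL T (3 / 2) t0)) := by
      rw [intervalIntegral.integral_sub hi1 hi2]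
      ring
    rw [h1]
    refine (norm_sub_le _ _).trans (add_le_add Hc' ?_)
    refine (intervalIntegral.norm_integral_le_integral_norm hT2).trans ?_
    refine intervalIntegral.integral_mono_on hT2 (hi1.sub hi2).norm hXi ?_
    intro t _
    rw [hX, ← mul_sub, norm_mul, Complex.norm_real, Real.norm_of_nonneg (ph_nonneg _)]
    exact mul_le_of_le_one_left (norm_nonneg _) (ph_le _)
  have hfin : T * (c * L ^ 2) ≤ T * 4 := by nlinarith
  have := le_of_mul_le_mul_left hfin hTp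
  linarith

end Pool.Agent.H24.WH
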