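import Pool.Agent.H48.WN.Defs
import Pool.Agent.H48.WN.Gfe

/-!
# Windows of length 1/2 (MP_31d0eb_nt, theorem WH; think 1963): definitions

`L = log T`. Everything is on top of `Pool/Agent/H48/WN` (`st`, `Dp`, `La`, `NN`, `Qp`, `Gm`, `GG`, `EI`, `Ps`).
`ζ(1-s) = GG(s) ζ(s)`, `lam = logDeriv GG`. `Qp b h T` = head (weights `st (b+h) h`), `Qb` = long head (weights
`st (b+1/2+3h) h`), `Rh = Qb - Qp` = window, `Fa = Qp + ζ'/ζ`, `Fb = Qb + ζ'/ζ`, `fa = ζ Qp + ζ'`, `fb = ζ Qb + ζ'`.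
`PP T` = primes in `(√T, 4√T]`, `Bp T s = sum_{p in PP T} log p p^(s-1)`.
`HR = ζ'^2/ζ Bp`; `HL z = HR(1-z)` (for `Im z` large), written with `GG`, `lam`.
`pt c t = 1/2 + c + it`, `kk c y = exp((c+iy)^2)`, `JR T c t0 = int_{|y| <= L^2} kk c y HR(pt c (t0+y)) dy`, `JL` with `HL`.
`H2 d κ T t0` = local mean square of `ζM - 1` and `ζ - Zy` near height `t0` (window `T^κ + 1`); `GH d κ T t0` = good height.
-/

set_option autoImplicit false

namespace Pool.Agent.H24.WH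

open Complex MeasureTheory Finset Pool.Agent.H48.WN

/-- logarithmic derivative of the factor of the functional equation -/
noncomputable def lam (s : ℂ) : ℂ := logDeriv GG s

/-- Gaussian kernel -/
noncomputable def kk (c y : ℝ) : ℂ := cexp (((c : ℂ) + (y : ℂ) * I) ^ 2)

/-- the point `1/2 + c + it` -/
noncomputable def pt (c t : ℝ) : ℂ := ((1 / 2 + c : ℝ) : ℂ) + (t : ℂ) * I

/-- the window function -/
noncomputable def rh (b h u : ℝ) : ℝ := st (b + 1 / 2 + 3 * h) h u - st (b + h) h u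

/-- the window polynomial, `T^(b+h) ≤ n ≤ T^(b+1/2+4h)` -/
noncomputable def Rh (b h T : ℝ) (s : ℂ) : ℂ := Dp La (rh b h) T (NN b T) s

/-- the long head -/
noncomputable def Qb (b h T : ℝ) (s : ℂ) : ℂ := Dp La (st (b + 1 / 2 + 3 * h) h) T (NN b T) s

noncomputable def Fa (b h T : ℝ) (s : ℂ) : ℂ := Qp b h T s + deriv riemannZeta s / riemannZeta s

noncomputable def Fb (b h T : ℝ) (s : ℂ) : ℂ := Qb b h T s + deriv riemannZeta s / riemannZeta s

noncomputable def fa (b h T : ℝ) (s : ℂ) : ℂ := riemannZeta s * Qp b h T s + deriv riemannZeta s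

noncomputable def fb (b h T : ℝ) (s : ℂ) : ℂ := riemannZeta s * Qb b h T s + deriv riemannZeta s

/-- the primes of the test polynomial -/
noncomputable def PP (T : ℝ) : Finset ℕ := (Ioc ⌊Real.sqrt T⌋₊ (4 * ⌊Real.sqrt T⌋₊)).filter Nat.Prime

/-- the test polynomial (frequencies of the opposite sign) -/
noncomputable def Bp (T : ℝ) (s : ℂ) : ℂ := ∑ p ∈ PP T, ((Real.log p : ℝ) : ℂ) * (p : ℂ) ^ (s - 1)

/-- the integrand on the right -/
noncomputable def HR (T : ℝ) (s : ℂ) : ℂ :=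
  (deriv riemannZeta s) ^ 2 / riemannZeta s * Bp T s

/-- the integrand on the left, `z = 1 - s` -/
noncomputable def HL (T : ℝ) (z : ℂ) : ℂ :=
  GG z * (lam z * riemannZeta z + deriv riemannZeta z) ^ 2 / riemannZeta z * Bp T (1 - z)

noncomputable def JR (T c t0 : ℝ) : ℂ :=
  ∫ y in (-(Real.log T) ^ 2)..((Real.log T) ^ 2), kk c y * HR T (pt c (t0 + y))

noncomputable def JL (T c t0 : ℝ) : ℂ :=
  ∫ y in (-(Real.log T) ^ 2)..((Real.log T) ^ 2), kk c y * HL T (pt c (t0 + y))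

/-- short partial sum of zeta -/
noncomputable def Zy (d T : ℝ) (s : ℂ) : ℂ := ∑ k ∈ Icc 1 ⌊T ^ (d / 4)⌋₊, (k : ℂ) ^ (-s)

/-- local mean square -/
noncomputable def H2 (d κ T t0 : ℝ) : ℝ :=
  ∫ x in (1 / 2 + d / 2)..3, ∫ t in (t0 - (T ^ κ + 1))..(t0 + (T ^ κ + 1)),
    (‖Gm d T ((x : ℂ) + (t : ℂ) * I)‖ ^ 2 +
      ‖riemannZeta ((x : ℂ) + (t : ℂ) * I) - Zy d T ((x : ℂ) + (t : ℂ) * I)‖ ^ 2)

/-- good heights -/
def GH (d κ T t0 : ℝ) : Prop := ∀ s : ℂ, 1 / 2 + 2 * d ≤ s.re → s.re ≤ 2 → |s.im - t0| ≤ T ^ κ - 1 →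
  riemannZeta s ≠ 0 ∧ ‖riemannZeta s‖ ≤ T ^ d ∧ ‖(riemannZeta s)⁻¹‖ ≤ T ^ d ∧ ‖deriv riemannZeta s‖ ≤ T ^ d

/-- the weight for `t0/T`: `0` outside `[1,2]`, `1` on `[5/4,7/4]` -/
noncomputable def ph (u : ℝ) : ℝ := Real.smoothTransition (4 * (u - 1)) * Real.smoothTransition (4 * (2 - u))

/-- `Lam * log`: `ζ'^2/ζ = sum aa(n) n^(-s)` -/
noncomputable def aa (n : ℕ) : ℝ := ∑ k ∈ n.divisors, ArithmeticFunction.vonMangoldt k * Real.log ((n / k : ℕ) : ℝ)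

/-- the smooth average of `ζ'(s) K^(s-1)` -/
noncomputable def Zt (T : ℝ) (K : ℕ) : ℂ :=
  ∫ t0 in T..(2 * T), ((ph (t0 / T) : ℝ) : ℂ) *
    ∫ y in (-(Real.log T) ^ 2)..((Real.log T) ^ 2), kk 0 y *
      (deriv riemannZeta (pt 0 (t0 + y)) * (K : ℂ) ^ (pt 0 (t0 + y) - 1))

/-- `int ph` -/
noncomputable def P0 : ℝ := ∫ u in (1 : ℝ)..2, ph u

theorem pt_re (c t : ℝ) : (pt c t).re = 1 / 2 + c := by
  unfold pt
  simp

theorem pt_im (c t : ℝ) : (pt c t).im = t := by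
  unfold pt
  simp

theorem kk_norm (c y : ℝ) : ‖kk c y‖ = Real.exp (c ^ 2 - y ^ 2) := by
  unfold kk
  rw [Complex.norm_exp]
  congr 1
  have h : ((c : ℂ) + (y : ℂ) * I) ^ 2 = ((c ^ 2 - y ^ 2 : ℝ) : ℂ) + ((2 * c * y : ℝ) : ℂ) * I := by
    push_cast
    have hI : I ^ 2 = -1 := Complex.I_sq
    linear_combination (y : ℂ) ^ 2 * hI
  rw [h, Complex.add_re, Complex.ofReal_re, Complex.re_ofReal_mul, Complex.I_re]
  ring

theorem kk_conj (c y : ℝ) : (starRingEnd ℂ) (kk c y) = kk (-c) y := by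
  unfold kk
  rw [← Complex.exp_conj]
  congr 1
  rw [map_pow, map_add, map_mul, conj_ofReal, conj_ofReal, conj_I]
  push_cast
  ring

theorem kk_zero (y : ℝ) : kk 0 y = ((Real.exp (-y ^ 2) : ℝ) : ℂ) := by
  unfold kk
  rw [Complex.ofReal_exp]
  congr 1
  push_cast
  have hI : I ^ 2 = -1 := Complex.I_sq
  linear_combination (y : ℂ) ^ 2 * hI

theorem dp_sub (c : ℕ → ℂ) (w w' : ℝ → ℝ) (T : ℝ) (N : ℕ) (s : ℂ) :
    Dp c (fun u => w u - w' u) T N s = Dp c w T N s - Dp c w' T N s := by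
  unfold Dp
  rw [← sum_sub_distrib]
  refine sum_congr rfl fun n _ => ?_
  push_cast
  ring

theorem rh_eq (b h T : ℝ) (s : ℂ) : Rh b h T s = Qb b h T s - Qp b h T s := dp_sub _ _ _ _ _ _

theorem fb_sub (b h T : ℝ) (s : ℂ) : Fb b h T s = Fa b h T s + Rh b h T s := by
  rw [rh_eq]
  unfold Fa Fb
  ring

theorem fa_sub (b h T : ℝ) (s : ℂ) : fa b h T s = fb b h T s - riemannZeta s * Rh b h T s := by
  rw [rh_eq]
  unfold fa fb
  ring

theorem ph_nonneg (u : ℝ) : 0 ≤ ph u :=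
  mul_nonneg (Real.smoothTransition.nonneg _) (Real.smoothTransition.nonneg _)

theorem ph_le (u : ℝ) : ph u ≤ 1 :=
  mul_le_one₀ (Real.smoothTransition.le_one _) (Real.smoothTransition.nonneg _) (Real.smoothTransition.le_one _)

theorem ph_zero_left {u : ℝ} (hu : u ≤ 1) : ph u = 0 := by
  unfold ph
  rw [Real.smoothTransition.zero_of_nonpos (by linarith), zero_mul]

theorem ph_zero_right {u : ℝ} (hu : 2 ≤ u) : ph u = 0 := by
  unfold ph
  rw [Real.smoothTransition.zero_of_nonpos (x := 4 * (2 - u)) (by linarith), mul_zero]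

theorem ph_contDiff : ContDiff ℝ (⊤ : ℕ∞) ph := by
  unfold ph
  exact (Real.smoothTransition.contDiff.comp (by fun_prop)).mul
    (Real.smoothTransition.contDiff.comp (by fun_prop))

end Pool.Agent.H24.WH
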