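import Pool.Agent.H24.WH.Rcg
import Pool.Agent.H24.WH.Dls
import Pool.Agent.H24.WH.Grw

/-!
# [H24 WH ENT] the entire part is the same on both sides

PROOF. `rcg` with `q = ζ' Qp Bp`, `x1 = -2d`, `x2 = 2d`: analytic for `Im > 0`, bounded by `T^(4b+20)` (`zeta_bd` for `Re ≥ 1/8`, `dls_crude`, `dls_bp`).
-/

set_option autoImplicit false

namespace Pool.Agent.H24.WH

open Complex MeasureTheory Finset Pool.Agent.H48.WN

private theorem ent_dp (c : ℕ → ℂ) (w : ℝ → ℝ) (T : ℝ) (N : ℕ) : Differentiable ℂ (Dp c w T N) := by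
  intro s
  unfold Dp
  apply DifferentiableAt.fun_sum
  intro n hn
  apply DifferentiableAt.const_mul
  apply DifferentiableAt.const_cpow differentiableAt_id.neg
  left
  have := (mem_Icc.1 hn).1
  exact Nat.cast_ne_zero.2 (by omega)

private theorem ent_bp (T : ℝ) : Differentiable ℂ (Bp T) := by
  intro s
  unfold Bp
  apply DifferentiableAt.fun_sum
  intro p hp
  apply DifferentiableAt.const_mul
  apply DifferentiableAt.const_cpow (differentiableAt_id.sub_const 1)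
  left
  have : p.Prime := (mem_filter.1 hp).2
  exact Nat.cast_ne_zero.2 this.ne_zero

private theorem ent_dz (s : ℂ) (hs : s ≠ 1) : DifferentiableAt ℂ (deriv riemannZeta) s := by
  have hd : DifferentiableOn ℂ riemannZeta ({1}ᶜ : Set ℂ) := fun z hz =>
    (differentiableAt_riemannZeta hz).differentiableWithinAt
  exact (hd.analyticAt (isOpen_compl_singleton.mem_nhds hs)).deriv.differentiableAt

private theorem ent_num (K a : ℝ) (hK : 1 ≤ K) (ha : 1 ≤ a) : ∃ T0 : ℝ, 1100 ≤ T0 ∧ ∀ T : ℝ, T0 ≤ T →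
    K * T ^ a * Real.exp (-((Real.log T) ^ 2) ^ 2) ≤ T ^ (-(1 : ℝ)) ∧ (Real.log T) ^ 2 ≤ T / 2 := by
  refine ⟨max 1100 (Real.exp (a + 1 + Real.log K)), le_max_left _ _, fun T hT => ?_⟩
  have hT1 : 1100 ≤ T := (le_max_left _ _).trans hT
  have hT2 : Real.exp (a + 1 + Real.log K) ≤ T := (le_max_right _ _).trans hT
  have hT0 : 0 < T := by linarith
  have hK0 : 0 ≤ Real.log K := Real.log_nonneg hK
  have hL : a + 1 + Real.log K ≤ Real.log T := by
    rw [← Real.log_exp (a + 1 + Real.log K)]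
    exact Real.log_le_log (Real.exp_pos _) hT2
  set L := Real.log T with hLd
  have hL1 : 1 ≤ L := by linarith
  constructor
  · have e1 : K = Real.exp (Real.log K) := (Real.exp_log (by linarith)).symm
    have e2 : T ^ a = Real.exp (L * a) := by rw [Real.rpow_def_of_pos hT0]
    have e3 : T ^ (-(1 : ℝ)) = Real.exp (L * (-1)) := by rw [Real.rpow_def_of_pos hT0]
    rw [e2, e3]
    have e4 : K * Real.exp (L * a) * Real.exp (-(L ^ 2) ^ 2) =
        Real.exp (Real.log K + L * a + -(L ^ 2) ^ 2) := by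
      rw [Real.exp_add, Real.exp_add, ← e1]
    rw [e4]
    apply Real.exp_le_exp.2
    have h1 : Real.log K + (a + 1) * L ≤ L ^ 2 := by nlinarith
    have h0 : 1 ≤ L ^ 2 := one_le_pow₀ hL1
    have h2 : L ^ 2 ≤ (L ^ 2) ^ 2 := by nlinarith
    linarith
  · have h1 := Real.log_le_rpow_div hT0.le (show (0 : ℝ) < 1 / 4 by norm_num)
    have h2 : (T ^ ((1 : ℝ) / 4)) ^ 4 = T := by
      rw [← Real.rpow_natCast, ← Real.rpow_mul hT0.le]
      norm_num
    set u := T ^ ((1 : ℝ) / 4) with hu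
    have hu0 : 0 ≤ u := Real.rpow_nonneg hT0.le _
    have h3 : L ≤ 4 * u := by
      have : u / (1 / 4) = 4 * u := by ring
      rw [← this]
      exact h1
    have h4 : L ^ 2 ≤ 16 * u ^ 2 := by nlinarith
    have h5 : 32 ≤ u ^ 2 := by
      by_contra h
      push Not at h
      have : u ^ 4 = (u ^ 2) ^ 2 := by ring
      nlinarith [sq_nonneg u]
    nlinarith [h2, h4, h5]

theorem ent (b h d : ℝ) (hb : 1 ≤ b) (hh : 0 < h) (hh1 : h ≤ 1 / 100) (hd : 0 < d) (hd1 : d ≤ 1 / 32) :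
    ∃ T0 : ℝ, 10 ≤ T0 ∧ ∀ T : ℝ, T0 ≤ T → ∀ t0 : ℝ, T ≤ t0 → t0 ≤ 2 * T →
      ‖(∫ y in (-(Real.log T) ^ 2)..((Real.log T) ^ 2), kk (-(2 * d)) y *
        (deriv riemannZeta (pt (-(2 * d)) (t0 + y)) * Qp b h T (pt (-(2 * d)) (t0 + y)) * Bp T (pt (-(2 * d)) (t0 + y)))) -
      ∫ y in (-(Real.log T) ^ 2)..((Real.log T) ^ 2), kk (2 * d) y *
        (deriv riemannZeta (pt (2 * d) (t0 + y)) * Qp b h T (pt (2 * d) (t0 + y)) * Bp T (pt (2 * d) (t0 + y)))‖ ≤
        T ^ (-(1 : ℝ)) := by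
  obtain ⟨C1, hC1, hz⟩ := zeta_bd
  obtain ⟨C2, hC2, hbp⟩ := dls_bp
  obtain ⟨T0, hT0, hnum⟩ := ent_num (36 * C1 * (C2 + 1) * (b + 1)) (b + 4)
    (by nlinarith [mul_pos (show (0 : ℝ) < C1 by linarith) (show 0 < C2 + 1 by linarith)]) (by linarith)
  refine ⟨T0, by linarith, fun T hT t0 ht1 ht2 => ?_⟩
  obtain ⟨hn1, hn2⟩ := hnum T hT
  have hT1100 : 1100 ≤ T := hT0.trans hT
  have hTpos : 0 < T := by linarith
  have hL : 1 ≤ Real.log T := by
    rw [← Real.log_exp 1]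
    apply Real.log_le_log (Real.exp_pos 1)
    have := Real.exp_one_lt_d9
    linarith
  have hR : 0 < (Real.log T) ^ 2 := by positivity
  have key := rcg (fun s => deriv riemannZeta s * Qp b h T s * Bp T s) t0 ((Real.log T) ^ 2)
    (-(2 * d)) (2 * d) (12 * C1 * (C2 + 1) * (b + 1) * T ^ (b + 4)) hR (by linarith) ?_
  · refine key.trans ?_
    have e1 : max ((-(2 * d)) ^ 2) ((2 * d) ^ 2) = (2 * d) ^ 2 := by
      rw [neg_sq, max_self]
    rw [e1]
    have e2 : Real.exp ((2 * d) ^ 2) ≤ 3 := by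
      have h1 : (2 * d) ^ 2 ≤ 1 := by nlinarith
      have h2 := Real.exp_le_exp.2 h1
      have h3 := Real.exp_one_lt_d9
      linarith
    have e3 : 2 * (2 * d - -(2 * d)) ≤ 1 := by linarith
    have e4 : 0 ≤ 2 * (2 * d - -(2 * d)) := by linarith
    refine le_trans ?_ hn1
    have e5 : 2 * (2 * d - -(2 * d)) * Real.exp ((2 * d) ^ 2) ≤ 3 := by
      have := mul_le_mul e3 e2 (Real.exp_pos _).le zero_le_one
      linarith
    have e6 : 0 ≤ Real.exp (-((Real.log T) ^ 2) ^ 2) * (12 * C1 * (C2 + 1) * (b + 1) * T ^ (b + 4)) := by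
      have : 0 ≤ T ^ (b + 4) := Real.rpow_nonneg hTpos.le _
      positivity
    calc 2 * (2 * d - -(2 * d)) * Real.exp ((2 * d) ^ 2) * Real.exp (-((Real.log T) ^ 2) ^ 2) *
          (12 * C1 * (C2 + 1) * (b + 1) * T ^ (b + 4))
        = (2 * (2 * d - -(2 * d)) * Real.exp ((2 * d) ^ 2)) *
          (Real.exp (-((Real.log T) ^ 2) ^ 2) * (12 * C1 * (C2 + 1) * (b + 1) * T ^ (b + 4))) := by ring
      _ ≤ 3 * (Real.exp (-((Real.log T) ^ 2) ^ 2) * (12 * C1 * (C2 + 1) * (b + 1) * T ^ (b + 4))) :=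
          mul_le_mul_of_nonneg_right e5 e6
      _ = 36 * C1 * (C2 + 1) * (b + 1) * T ^ (b + 4) * Real.exp (-((Real.log T) ^ 2) ^ 2) := by ring
  · intro s hs1 hs2 hs3
    rw [abs_le] at hs3
    have him1 : 3 ≤ s.im := by linarith [hs3.1]
    have him2 : s.im ≤ 3 * T := by linarith [hs3.2]
    have hs1' : 1 / 4 ≤ s.re := by linarith
    have hs2' : s.re ≤ 1 := by linarith
    have hne : s ≠ 1 := by
      intro h
      rw [h, one_im] at him1
      linarith
    refine ⟨((ent_dz s hne).mul ((ent_dp _ _ _ _) s)).mul ((ent_bp T) s), ?_⟩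
    have b1 : ‖deriv riemannZeta s‖ ≤ C1 * (3 * T) :=
      ((hz s (by linarith) (by linarith) him1).2).trans (mul_le_mul_of_nonneg_left him2 (by linarith))
    have b2 : ‖Qp b h T s‖ ≤ T ^ (b + 1) * (b + 1) * T := by
      have h1 := (dls_crude b h hb hh hh1 T (by linarith) s 0 le_rfl (by linarith)).1
      refine h1.trans ?_
      have h2 : T ^ ((b + 2 * h) * (0 + 1)) ≤ T ^ (b + 1) :=
        Real.rpow_le_rpow_of_exponent_le (by linarith) (by linarith)
      have h3 : Real.log T ≤ T := (Real.log_le_sub_one_of_pos hTpos).trans (by linarith)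
      have h4 : 0 ≤ T ^ (b + 1) := Real.rpow_nonneg hTpos.le _
      have h5 : 0 ≤ T ^ ((b + 2 * h) * (0 + 1)) := Real.rpow_nonneg hTpos.le _
      have h6 : T ^ ((b + 2 * h) * (0 + 1)) * (b + 1) ≤ T ^ (b + 1) * (b + 1) :=
        mul_le_mul_of_nonneg_right h2 (by linarith)
      exact mul_le_mul h6 h3 (by linarith) (by positivity)
    have b3 : ‖Bp T s‖ ≤ (C2 + 1) * 4 * T := by
      have h1 := (hbp T (by linarith) s).1 (by linarith)
      refine h1.trans ?_
      have h2 : (4 : ℝ) ^ s.re ≤ 4 := by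
        calc (4 : ℝ) ^ s.re ≤ 4 ^ (1 : ℝ) := Real.rpow_le_rpow_of_exponent_le (by norm_num) hs2'
          _ = 4 := Real.rpow_one 4
      have h3 : T ^ (s.re / 2) ≤ T := by
        calc T ^ (s.re / 2) ≤ T ^ (1 : ℝ) := Real.rpow_le_rpow_of_exponent_le (by linarith) (by linarith)
          _ = T := Real.rpow_one T
      have h4 : 0 ≤ (4 : ℝ) ^ s.re := Real.rpow_nonneg (by norm_num) _
      have h5 : C2 * 4 ^ s.re ≤ (C2 + 1) * 4 := by
        have := mul_le_mul (show C2 ≤ C2 + 1 by linarith) h2 h4 (by linarith)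
        exact this
      exact mul_le_mul h5 h3 (Real.rpow_nonneg hTpos.le _) (by positivity)
    rw [norm_mul, norm_mul]
    have hTb : 0 ≤ T ^ (b + 1) := Real.rpow_nonneg hTpos.le _
    have c1 := mul_le_mul b1 b2 (norm_nonneg _) (by positivity)
    have c2 := mul_le_mul c1 b3 (norm_nonneg _) (by positivity)
    refine c2.trans (le_of_eq ?_)
    have e1 : T ^ (b + 4) = T ^ (b + 1) * T ^ 3 := by
      rw [show b + 4 = (b + 1) + ((3 : ℕ) : ℝ) by push_cast; ring, Real.rpow_add hTpos, Real.rpow_natCast]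
    rw [e1]
    ring

end Pool.Agent.H24.WH
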