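import Pool.Agent.H24.WH.Mel

/-!
# [H24 WH QGB] the head at good heights

PROOF. `L = log T`. `φ(u) = st (b+h) h u · smoothTransition(u+1)`: smooth, `0` for `u ≤ -1` and for `u ≥ B := b + 2h`, equal to the weight of `Qp` for
`u = log n/L ≥ 0`. `mel_inv` with `c = 3L/2`, `u = log n/L`, `exp(-(log n/L)(3L/2 + iy)) = n^(-3/2 - iy/L)`: summing over `n` (`n ≤ NN`,
`φ(log n/L) = 0` beyond, so the sum over all `n` is the same; absolutely convergent since `Re s + 3/2 ≥ 2 - 2d > 1`):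
`Qp(s) = int_ℝ KK φ (3L/2 + iy) (-ζ'/ζ)(s + 3/2 + iy/L) dy` (Mathlib: `ArithmeticFunction.LSeries_vonMangoldt_eq_deriv_riemannZeta_div`).
Split at `|y| = L V`, `V = T^κ/2`. Tails: `KK` is `≤ C_A exp(3BL/2)(1+|y|)^(-A)`, `|ζ'/ζ| ≤ C` on `Re ≥ 3/2`: `≤ T^(3B/2) (V)^(1-A) C ≤ T^(-1)` for `A κ ≥ 3B + 10`
(fix `A = A(b,κ)`). Middle: Cauchy's theorem on the rectangle `c' ≤ Re w ≤ 3/2`, `|Im w| ≤ V`, `c' = 1/2 + 2d - Re s ∈ [0, 4d]`, function
`KK φ (L w) (-ζ'/ζ)(s + w)`: analytic by `GH` (for `Re(s+w) ≤ 2`, and beyond always; `|Im(s+w) - t0| ≤ L^2 + V ≤ T^κ - 1`).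
Horizontal sides: `≤ C_A T^(3B/2)(LV)^(-A) T^(2d) ≤ T^(-1)`. Left side: `int L |KK φ(L(c'+iv))| |ζ'/ζ| dv ≤ C exp(B L c') T^(2d) ≤ C T^(4dB + 2d)`,
`B ≤ b + 1/50`. So `|Qp| ≤ C T^(4d(b+1/50) + 2d) + 2 ≤ T^(6d(b+1))` for `T ≥ T0`.
-/

set_option autoImplicit false

namespace Pool.Agent.H24.WH

open Complex MeasureTheory Finset Pool.Agent.H48.WN

/-- the weight -/
private noncomputable def qgb_phi (b h u : ℝ) : ℝ := st (b + h) h u * Real.smoothTransition (u + 1)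

private theorem qgb_smooth (b h : ℝ) : ContDiff ℝ (⊤ : ℕ∞) (qgb_phi b h) :=
  (st_contDiff _ _).mul (Real.smoothTransition.contDiff.comp (by fun_prop))

private theorem qgb_left (b h : ℝ) : ∀ u ≤ -1, qgb_phi b h u = 0 := by
  intro u hu
  unfold qgb_phi
  rw [Real.smoothTransition.zero_of_nonpos (by linarith), mul_zero]

private theorem qgb_right {b h : ℝ} (hh : 0 < h) : ∀ u, b + 2 * h ≤ u → qgb_phi b h u = 0 := by
  intro u hu
  unfold qgb_phi
  rw [st_zero hh (by linarith), zero_mul]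

private theorem qgb_eq (b h : ℝ) {u : ℝ} (hu : 0 ≤ u) : qgb_phi b h u = st (b + h) h u := by
  unfold qgb_phi
  rw [Real.smoothTransition.one_of_one_le (by linarith), mul_one]

/-- minus the logarithmic derivative of zeta -/
private noncomputable def qgb_Z (z : ℂ) : ℂ := -deriv riemannZeta z / riemannZeta z

private theorem qgb_La0 : La 0 = 0 := by
  unfold La
  simp

private theorem qgb_series {z : ℂ} (hz : 1 < z.re) :
    ∑' n, LSeries.term La z n = qgb_Z z :=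
  ArithmeticFunction.LSeries_vonMangoldt_eq_deriv_riemannZeta_div hz

private theorem qgb_summ {z : ℂ} (hz : 1 < z.re) : Summable (fun n => ‖LSeries.term La z n‖) :=
  (ArithmeticFunction.LSeriesSummable_vonMangoldt hz).norm

/-- bound to the right of 3/2 -/
private theorem qgb_Zb : ∃ C : ℝ, 0 < C ∧ ∀ z : ℂ, 3 / 2 ≤ z.re → ‖qgb_Z z‖ ≤ C := by
  have h32 : 1 < ((3 / 2 : ℝ) : ℂ).re := by
    rw [Complex.ofReal_re]
    norm_num
  have hs := qgb_summ h32
  refine ⟨∑' n, ‖LSeries.term La ((3 / 2 : ℝ) : ℂ) n‖ + 1, ?_, fun z hz => ?_⟩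
  · have : 0 ≤ ∑' n, ‖LSeries.term La ((3 / 2 : ℝ) : ℂ) n‖ := tsum_nonneg fun _ => norm_nonneg _
    linarith
  · have hz1 : 1 < z.re := by linarith
    rw [← qgb_series hz1]
    have h1 : ∀ n, ‖LSeries.term La z n‖ ≤ ‖LSeries.term La ((3 / 2 : ℝ) : ℂ) n‖ := fun n =>
      LSeries.norm_term_le_of_re_le_re La (by rw [Complex.ofReal_re]; exact hz) n
    have h2 := norm_tsum_le_tsum_norm (qgb_summ hz1)
    have h3 := (qgb_summ hz1).tsum_le_tsum h1 hs
    linarith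

/-- the head as an integral -/
private theorem qgb_rep {b h T : ℝ} (hh : 0 < h) (hh1 : h ≤ 1 / 100) (hT : 10 ≤ T) (s : ℂ)
    (hs : -(1 / 2) < s.re) :
    Qp b h T s = ∫ y : ℝ, KK (qgb_phi b h) (((3 / 2 * Real.log T : ℝ) : ℂ) + (y : ℂ) * I) *
      qgb_Z (s + (((3 / 2 * Real.log T : ℝ) : ℂ) + (y : ℂ) * I) / ((Real.log T : ℝ) : ℂ)) := by
  obtain ⟨L, hLd⟩ : ∃ L, L = Real.log T := ⟨_, rfl⟩
  have hL : 0 < L := by
    rw [hLd]
    exact Real.log_pos (by linarith)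
  have hLc : (L : ℂ) ≠ 0 := by exact_mod_cast hL.ne'
  obtain ⟨φ, hφ⟩ : ∃ φ, φ = qgb_phi b h := ⟨_, rfl⟩
  rw [← hLd, ← hφ]
  obtain ⟨c, hc⟩ : ∃ c : ℝ, c = 3 / 2 * L := ⟨_, rfl⟩
  rw [← hc]
  have hinv := mel_inv φ (by rw [hφ]; exact qgb_smooth b h) (b + 2 * h)
    (by rw [hφ]; exact qgb_left b h) (by rw [hφ]; exact qgb_right hh) c
  have hint : Integrable (fun y : ℝ => KK φ ((c : ℂ) + (y : ℂ) * I)) := (hinv 0).1
  have hre : ∀ y : ℝ, (s + ((c : ℂ) + (y : ℂ) * I) / (L : ℂ)).re = s.re + 3 / 2 := by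
    intro y
    have h1 : ((c : ℂ) + (y : ℂ) * I) / (L : ℂ) = ((3 / 2 : ℝ) : ℂ) + ((y / L : ℝ) : ℂ) * I := by
      rw [hc]
      push_cast
      field_simp
    rw [h1, Complex.add_re, Complex.add_re, Complex.ofReal_re, Complex.re_ofReal_mul, Complex.I_re,
      mul_zero, add_zero]
  have hnorm : ∀ (n : ℕ) (y : ℝ), ‖LSeries.term La (s + ((c : ℂ) + (y : ℂ) * I) / (L : ℂ)) n‖ =
      ‖LSeries.term La (s + ((3 / 2 : ℝ) : ℂ)) n‖ := by
    intro n y
    rw [LSeries.norm_term_eq, LSeries.norm_term_eq, hre, Complex.add_re, Complex.ofReal_re]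
  have hterm : ∀ (n : ℕ) (y : ℝ), n ≠ 0 →
      LSeries.term La (s + ((c : ℂ) + (y : ℂ) * I) / (L : ℂ)) n =
        La n * (n : ℂ) ^ (-s) * cexp (-(((Real.log n / L : ℝ) : ℂ) * ((c : ℂ) + (y : ℂ) * I))) := by
    intro n y hn
    have hn0 : (n : ℂ) ≠ 0 := by exact_mod_cast hn
    rw [LSeries.term_def₀ qgb_La0, neg_add, Complex.cpow_add _ _ hn0, mul_assoc]
    congr 2
    rw [Complex.cpow_def_of_ne_zero hn0, ← Complex.natCast_log]
    congr 1
    push_cast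
    field_simp
  let F : ℕ → ℝ → ℂ := fun n y => KK φ ((c : ℂ) + (y : ℂ) * I) *
    LSeries.term La (s + ((c : ℂ) + (y : ℂ) * I) / (L : ℂ)) n
  have hFi : ∀ n, Integrable (F n) := by
    intro n
    by_cases hn : n = 0
    · have h0 : F n = fun _ => 0 := by
        funext y
        change KK φ _ * LSeries.term La _ n = 0
        rw [hn, LSeries.term_zero, mul_zero]
      rw [h0]
      exact integrable_zero _ _ _
    · refine Integrable.mono' (hint.norm.mul_const ‖LSeries.term La (s + ((3 / 2 : ℝ) : ℂ)) n‖) ?_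
        (Filter.Eventually.of_forall fun y => ?_)
      · refine hint.aestronglyMeasurable.mul ?_
        have h1 : (fun y : ℝ => LSeries.term La (s + ((c : ℂ) + (y : ℂ) * I) / (L : ℂ)) n) =
            fun y : ℝ => La n * (n : ℂ) ^ (-s) *
              cexp (-(((Real.log n / L : ℝ) : ℂ) * ((c : ℂ) + (y : ℂ) * I))) := by
          funext y
          exact hterm n y hn
        rw [h1]
        exact Continuous.aestronglyMeasurable (by fun_prop)
      · change ‖KK φ _ * LSeries.term La _ n‖ ≤ _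
        rw [norm_mul, hnorm]
  have hFn : ∀ n, ∫ y, ‖F n y‖ = (∫ y : ℝ, ‖KK φ ((c : ℂ) + (y : ℂ) * I)‖) *
      ‖LSeries.term La (s + ((3 / 2 : ℝ) : ℂ)) n‖ := by
    intro n
    rw [← integral_mul_const]
    refine integral_congr_ae (Filter.Eventually.of_forall fun y => ?_)
    change ‖KK φ _ * LSeries.term La _ n‖ = _
    rw [norm_mul, hnorm]
  have h1s : 1 < (s + ((3 / 2 : ℝ) : ℂ)).re := by
    rw [Complex.add_re, Complex.ofReal_re]
    linarith
  have hFs : Summable fun n => ∫ y, ‖F n y‖ := by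
    have h1 : (fun n => ∫ y, ‖F n y‖) = fun n => (∫ y : ℝ, ‖KK φ ((c : ℂ) + (y : ℂ) * I)‖) *
        ‖LSeries.term La (s + ((3 / 2 : ℝ) : ℂ)) n‖ := funext hFn
    rw [h1]
    exact (qgb_summ h1s).mul_left _
  have hsum := hasSum_integral_of_summable_integral_norm hFi hFs
  have hrhs : (∫ y, ∑' n, F n y) = ∫ y : ℝ, KK φ ((c : ℂ) + (y : ℂ) * I) *
      qgb_Z (s + ((c : ℂ) + (y : ℂ) * I) / (L : ℂ)) := by
    refine integral_congr_ae (Filter.Eventually.of_forall fun y => ?_)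
    change ∑' n, KK φ _ * LSeries.term La _ n = _
    rw [tsum_mul_left, qgb_series (by rw [hre]; linarith)]
  rw [← hrhs, ← hsum.tsum_eq]
  have hFv : ∀ n, ∫ y, F n y = if n = 0 then 0 else
      La n * ((φ (Real.log n / L) : ℝ) : ℂ) * (n : ℂ) ^ (-s) := by
    intro n
    by_cases hn : n = 0
    · rw [if_pos hn]
      have h0 : F n = fun _ => 0 := by
        funext y
        change KK φ _ * LSeries.term La _ n = 0
        rw [hn, LSeries.term_zero, mul_zero]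
      rw [h0, integral_zero]
    · rw [if_neg hn, (hinv (Real.log n / L)).2]
      have h1 : ∀ y : ℝ, F n y = La n * (n : ℂ) ^ (-s) * (KK φ ((c : ℂ) + (y : ℂ) * I) *
          cexp (-(((Real.log n / L : ℝ) : ℂ) * ((c : ℂ) + (y : ℂ) * I)))) := by
        intro y
        change KK φ _ * LSeries.term La _ n = _
        rw [hterm n y hn]
        ring
      rw [integral_congr_ae (Filter.Eventually.of_forall h1), integral_const_mul]
      ring
  rw [tsum_congr hFv, tsum_eq_sum (s := Icc 1 (NN b T))]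
  · unfold Qp Dp
    refine sum_congr rfl fun n hn => ?_
    have hn1 := (Finset.mem_Icc.1 hn).1
    rw [if_neg (by omega), hφ, qgb_eq, ← hLd]
    refine div_nonneg (Real.log_nonneg ?_) hL.le
    exact_mod_cast hn1
  · intro n hn
    rw [Finset.mem_Icc, not_and_or] at hn
    by_cases hn0 : n = 0
    · rw [if_pos hn0]
    · rw [if_neg hn0]
      have hn1 : NN b T < n := by
        rcases hn with hn | hn
        · omega
        · omega
      have h2 : T ^ (b + 3) < n := by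
        unfold NN at hn1
        exact (Nat.floor_lt (by positivity)).1 hn1
      have h3 : (b + 3) * L ≤ Real.log n := by
        rw [hLd, ← Real.log_rpow (by linarith)]
        exact Real.log_le_log (by positivity) h2.le
      have h4 : φ (Real.log n / L) = 0 := by
        rw [hφ]
        apply qgb_right hh
        rw [le_div_iff₀ hL]
        have : (b + 2 * h) * L ≤ (b + 3) * L := mul_le_mul_of_nonneg_right (by linarith) hL.le
        linarith
      rw [h4]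
      simp

/-- rectangle -/
private theorem qgb_rect (q : ℂ → ℂ) (x1 x2 R B : ℝ) (hR : 0 < R) (h12 : x1 ≤ x2)
    (hq : ∀ w : ℂ, x1 ≤ w.re → w.re ≤ x2 → |w.im| ≤ R → DifferentiableAt ℂ q w)
    (hB : ∀ w : ℂ, x1 ≤ w.re → w.re ≤ x2 → |w.im| = R → ‖q w‖ ≤ B) :
    ‖∫ y in (-R)..R, q ((x2 : ℂ) + (y : ℂ) * I)‖ ≤
      ‖∫ y in (-R)..R, q ((x1 : ℂ) + (y : ℂ) * I)‖ + 2 * (B * (x2 - x1)) := by
  have hd : DifferentiableOn ℂ q (Set.uIcc ((x1 : ℂ) + ((-R : ℝ) : ℂ) * I).re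
      ((x2 : ℂ) + ((R : ℝ) : ℂ) * I).re ×ℂ
      Set.uIcc ((x1 : ℂ) + ((-R : ℝ) : ℂ) * I).im ((x2 : ℂ) + ((R : ℝ) : ℂ) * I).im) := by
    intro w hw
    rw [Complex.mem_reProdIm] at hw
    simp only [Complex.add_re, Complex.ofReal_re, Complex.re_ofReal_mul, Complex.I_re, mul_zero,
      add_zero, Complex.add_im, Complex.ofReal_im, Complex.im_ofReal_mul, Complex.I_im, mul_one,
      zero_add] at hw
    rw [Set.uIcc_of_le h12, Set.uIcc_of_le (by linarith)] at hw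
    exact (hq w hw.1.1 hw.1.2 (abs_le.2 ⟨hw.2.1, hw.2.2⟩)).differentiableWithinAt
  have key := Complex.integral_boundary_rect_eq_zero_of_differentiableOn q _ _ hd
  simp only [Complex.add_re, Complex.ofReal_re, Complex.re_ofReal_mul, Complex.I_re, mul_zero,
    add_zero, Complex.add_im, Complex.ofReal_im, Complex.im_ofReal_mul, Complex.I_im, mul_one,
    zero_add] at key
  have hor : ∀ c : ℝ, |c| = R →
      ‖∫ x in x1..x2, q ((x : ℂ) + (c : ℂ) * I)‖ ≤ B * (x2 - x1) := by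
    intro c hc
    have hb : ∀ x ∈ Set.uIoc x1 x2, ‖q ((x : ℂ) + (c : ℂ) * I)‖ ≤ B := by
      intro x hx
      rw [Set.uIoc_of_le h12] at hx
      refine hB _ ?_ ?_ ?_
      · simpa using hx.1.le
      · simpa using hx.2
      · simpa using hc
    have h1 := intervalIntegral.norm_integral_le_of_norm_le_const hb
    rwa [abs_of_nonneg (by linarith : 0 ≤ x2 - x1)] at h1
  have hbot := hor (-R) (by rw [abs_neg, abs_of_pos hR])
  have htop := hor R (abs_of_pos hR)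
  obtain ⟨P, hP⟩ : ∃ P, P = ∫ x in x1..x2, q ((x : ℂ) + ((-R : ℝ) : ℂ) * I) := ⟨_, rfl⟩
  obtain ⟨Q, hQ⟩ : ∃ Q, Q = ∫ x in x1..x2, q ((x : ℂ) + (R : ℂ) * I) := ⟨_, rfl⟩
  obtain ⟨U, hU⟩ : ∃ U, U = ∫ y in (-R)..R, q ((x2 : ℂ) + (y : ℂ) * I) := ⟨_, rfl⟩
  obtain ⟨V, hV⟩ : ∃ V, V = ∫ y in (-R)..R, q ((x1 : ℂ) + (y : ℂ) * I) := ⟨_, rfl⟩
  rw [← hP] at hbot
  rw [← hQ] at htop
  rw [← hU, ← hV]
  rw [← hP, ← hQ, ← hU, ← hV] at key
  simp only [smul_eq_mul] at key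
  have e : I * U = I * V + (Q - P) := by
    linear_combination key
  have e1 : ‖U‖ = ‖I * U‖ := by rw [norm_mul, Complex.norm_I, one_mul]
  have e2 : ‖V‖ = ‖I * V‖ := by rw [norm_mul, Complex.norm_I, one_mul]
  rw [e1, e, e2]
  have h1 := norm_add_le (I * V) (Q - P)
  have h2 := norm_sub_le Q P
  linarith

private theorem qgb_zdiff {z : ℂ} (hz : z ≠ 1) (h0 : riemannZeta z ≠ 0) :
    DifferentiableAt ℂ qgb_Z z := by
  have h1 : DifferentiableOn ℂ riemannZeta {1}ᶜ := fun w hw =>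
    (differentiableAt_riemannZeta hw).differentiableWithinAt
  have h2 : AnalyticAt ℂ riemannZeta z :=
    h1.analyticAt (isOpen_compl_singleton.mem_nhds hz)
  unfold qgb_Z
  exact h2.deriv.differentiableAt.neg.div h2.differentiableAt h0

private theorem qgb_pw {M a T : ℝ} (hM : 0 < M) (ha : 0 < a) (hT : M ^ (1 / a) ≤ T) : M ≤ T ^ a := by
  have h1 : (M ^ (1 / a)) ^ a ≤ T ^ a := Real.rpow_le_rpow (by positivity) hT ha.le
  rwa [← Real.rpow_mul hM.le, one_div, inv_mul_cancel₀ ha.ne', Real.rpow_one] at h1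

/-- `L ^ 2 + 1 ≤ T ^ κ / 2` -/
private theorem qgb_log {κ T : ℝ} (hκ : 0 < κ) (hT : 10 ≤ T)
    (h : (32 / κ ^ 2 + 2) ^ (1 / (κ / 2)) ≤ T) : (Real.log T) ^ 2 + 1 ≤ T ^ κ / 2 := by
  have hT0 : 0 < T := by linarith
  have h1 := qgb_pw (by positivity) (by positivity : 0 < κ / 2) h
  have h2 := Real.log_le_rpow_div hT0.le (by positivity : 0 < κ / 4)
  have hL : 0 ≤ Real.log T := Real.log_nonneg (by linarith)
  have h3 : T ^ κ = T ^ (κ / 2) * T ^ (κ / 2) := by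
    rw [← Real.rpow_add hT0]
    ring_nf
  have h4 : T ^ (κ / 2) = T ^ (κ / 4) * T ^ (κ / 4) := by
    rw [← Real.rpow_add hT0]
    ring_nf
  have h5 : (Real.log T) ^ 2 ≤ 16 / κ ^ 2 * T ^ (κ / 2) := by
    calc (Real.log T) ^ 2 ≤ (T ^ (κ / 4) / (κ / 4)) ^ 2 := pow_le_pow_left₀ hL h2 2
      _ = 16 / κ ^ 2 * T ^ (κ / 2) := by
          rw [h4]
          field_simp
          ring
  rw [h3]
  have h6 : 0 < 16 / κ ^ 2 := by positivity
  have h7 : 2 * (16 / κ ^ 2) + 2 ≤ T ^ (κ / 2) := by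
    have : 32 / κ ^ 2 = 2 * (16 / κ ^ 2) := by ring
    linarith
  nlinarith

theorem qgb (b h d κ : ℝ) (hb : 1 ≤ b) (hh : 0 < h) (hh1 : h ≤ 1 / 100) (hd : 0 < d) (hd1 : d ≤ 1 / 32) (hκ : 0 < κ)
    (hκ1 : κ ≤ 1 / 4) :
    ∃ T0 : ℝ, 10 ≤ T0 ∧ ∀ T : ℝ, T0 ≤ T → ∀ t0 : ℝ, T ≤ t0 → t0 ≤ 2 * T → GH d κ T t0 →
      ∀ s : ℂ, 1 / 2 - 2 * d ≤ s.re → s.re ≤ 1 / 2 + 2 * d → |s.im - t0| ≤ (Real.log T) ^ 2 →
        ‖Qp b h T s‖ ≤ T ^ (6 * d * (b + 1)) := by
  obtain ⟨B, hBd⟩ : ∃ B, B = b + 2 * h := ⟨_, rfl⟩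
  have hB0 : 0 ≤ B := by rw [hBd]; positivity
  obtain ⟨φ, hφd⟩ : ∃ φ, φ = qgb_phi b h := ⟨_, rfl⟩
  have hφ : ContDiff ℝ (⊤ : ℕ∞) φ := by rw [hφd]; exact qgb_smooth b h
  have hφ1 : ∀ u ≤ -1, φ u = 0 := by rw [hφd]; exact qgb_left b h
  have hφ2 : ∀ u, B ≤ u → φ u = 0 := by rw [hφd, hBd]; exact qgb_right hh
  obtain ⟨C1, hC1, hZb⟩ := qgb_Zb
  obtain ⟨A, hA⟩ : ∃ A : ℕ, (3 / 2 * B + 2) / κ + 2 ≤ A := ⟨_, Nat.le_ceil _⟩
  have hA1 : 3 / 2 * B + 2 ≤ κ * ((A : ℝ) - 2) := by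
    have h1 : (3 / 2 * B + 2) / κ ≤ (A : ℝ) - 2 := by linarith
    rw [div_le_iff₀ hκ] at h1
    linarith
  obtain ⟨CA, hCA, hdA⟩ := mel_dec φ hφ B hB0 hφ1 hφ2 A
  obtain ⟨C2, hC2, hd2⟩ := mel_dec φ hφ B hB0 hφ1 hφ2 2
  have hg : Integrable (fun y : ℝ => (1 + ‖y‖) ^ (-(2 : ℝ))) :=
    integrable_one_add_norm (by rw [Module.finrank_self]; norm_num)
  obtain ⟨I2, hI2⟩ : ∃ I2, I2 = ∫ y : ℝ, (1 + ‖y‖) ^ (-(2 : ℝ)) := ⟨_, rfl⟩
  have hg0 : ∀ y : ℝ, 0 ≤ (1 + ‖y‖) ^ (-(2 : ℝ)) := fun y => by positivity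
  have hI0 : 0 ≤ I2 := by
    rw [hI2]
    exact integral_nonneg hg0
  obtain ⟨δ, hδd⟩ : ∃ δ, δ = 6 * d * (b + 1) - (4 * d * B + 2 * d) := ⟨_, rfl⟩
  have hδ : 0 < δ := by
    rw [hδd, hBd]
    nlinarith [mul_pos hd hh, mul_le_mul_of_nonneg_left hh1 hd.le, mul_le_mul_of_nonneg_left hb hd.le]
  obtain ⟨K, hKd⟩ : ∃ K, K = C2 * I2 + 3 * CA + CA * C1 * I2 := ⟨_, rfl⟩
  have hK : 0 < K := by
    have h1 : 0 ≤ C2 * I2 := by positivity
    have h2 : 0 ≤ CA * C1 * I2 := by positivity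
    rw [hKd]
    linarith
  refine ⟨max 10 (max (K ^ (1 / δ)) (max ((32 / κ ^ 2 + 2) ^ (1 / (κ / 2))) (C1 ^ (1 / (2 * d))))),
    le_max_left _ _, ?_⟩
  intro T hT t0 ht1 ht2 hGH s hs1 hs2 hs3
  have hT10 : 10 ≤ T := (le_max_left _ _).trans hT
  have hT1 := (le_max_right _ _).trans hT
  have hTK : K ≤ T ^ δ := qgb_pw hK hδ ((le_max_left _ _).trans hT1)
  have hT2 := (le_max_right _ _).trans hT1
  have hlog := qgb_log hκ hT10 ((le_max_left _ _).trans hT2)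
  have hTC : C1 ≤ T ^ (2 * d) := qgb_pw hC1 (by positivity) ((le_max_right _ _).trans hT2)
  have hT0 : 0 < T := by linarith
  have hTge : 1 ≤ T := by linarith
  obtain ⟨L, hLd⟩ : ∃ L, L = Real.log T := ⟨_, rfl⟩
  have hL2 : 2 ≤ L := by
    rw [hLd, Real.le_log_iff_exp_le hT0]
    have h1 := Real.exp_one_lt_d9
    have h2 : Real.exp 2 = Real.exp 1 * Real.exp 1 := by
      rw [← Real.exp_add]
      norm_num
    have h3 := Real.exp_pos 1
    rw [h2]
    nlinarith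
  have hL : 0 < L := by linarith
  have hLT : L ≤ T := by
    rw [hLd]
    have := Real.log_le_sub_one_of_pos hT0
    linarith
  have hLc : (L : ℂ) ≠ 0 := by exact_mod_cast hL.ne'
  have hexp : ∀ x : ℝ, Real.exp (x * L) = T ^ x := fun x => by
    rw [hLd, Real.rpow_def_of_pos hT0, mul_comm]
  have hTk : 0 < T ^ κ := by positivity
  rw [← hLd] at hs3 hlog
  obtain ⟨R, hRd⟩ : ∃ R, R = L * (T ^ κ / 2) := ⟨_, rfl⟩
  have hRk : T ^ κ ≤ R := by
    rw [hRd]
    nlinarith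
  have hR : 0 < R := lt_of_lt_of_le hTk hRk
  have hTkT : T ^ κ ≤ T := by
    calc T ^ κ ≤ T ^ (1 : ℝ) := Real.rpow_le_rpow_of_exponent_le hTge (by linarith)
      _ = T := Real.rpow_one T
  obtain ⟨c', hc'd⟩ : ∃ c', c' = 1 / 2 + 2 * d - s.re := ⟨_, rfl⟩
  have hc0 : 0 ≤ c' := by rw [hc'd]; linarith
  have hc4 : c' ≤ 4 * d := by rw [hc'd]; linarith
  -- the point `s + w / L`
  have hzre : ∀ w : ℂ, (s + w / (L : ℂ)).re = s.re + w.re / L := by
    intro w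
    rw [Complex.add_re, Complex.div_ofReal_re]
  have hzim : ∀ w : ℂ, (s + w / (L : ℂ)).im = s.im + w.im / L := by
    intro w
    rw [Complex.add_im, Complex.div_ofReal_im]
  have hgood : ∀ w : ℂ, L * c' ≤ w.re → |w.im| ≤ R → s + w / (L : ℂ) ≠ 1 ∧
      riemannZeta (s + w / (L : ℂ)) ≠ 0 ∧ ‖qgb_Z (s + w / (L : ℂ))‖ ≤ T ^ (2 * d) := by
    intro w hw1 hw2
    have h1 : 1 / 2 + 2 * d ≤ (s + w / (L : ℂ)).re := by
      rw [hzre]
      have : c' ≤ w.re / L := by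
        rw [le_div_iff₀ hL]
        linarith
      rw [hc'd] at this
      linarith
    have h2 : |(s + w / (L : ℂ)).im - t0| ≤ T ^ κ - 1 := by
      rw [hzim]
      have h3 : |w.im / L| ≤ T ^ κ / 2 := by
        rw [abs_div, abs_of_pos hL, div_le_iff₀ hL, mul_comm, ← hRd]
        exact hw2
      have h4 : s.im + w.im / L - t0 = (s.im - t0) + w.im / L := by ring
      rw [h4]
      have := abs_add_le (s.im - t0) (w.im / L)
      linarith
    have hne : s + w / (L : ℂ) ≠ 1 := by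
      intro h3
      rw [h3, Complex.one_im, zero_sub, abs_neg, abs_of_pos (by linarith)] at h2
      linarith
    refine ⟨hne, ?_⟩
    rcases le_or_gt (s + w / (L : ℂ)).re 2 with h3 | h3
    · obtain ⟨g1, -, g3, g4⟩ := hGH _ h1 h3 h2
      refine ⟨g1, ?_⟩
      unfold qgb_Z
      rw [div_eq_mul_inv, norm_mul, norm_neg]
      calc ‖deriv riemannZeta (s + w / (L : ℂ))‖ * ‖(riemannZeta (s + w / (L : ℂ)))⁻¹‖ ≤
            T ^ d * T ^ d := mul_le_mul g4 g3 (norm_nonneg _) (by positivity)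
        _ = T ^ (2 * d) := by
            rw [← Real.rpow_add hT0]
            ring_nf
    · exact ⟨riemannZeta_ne_zero_of_one_lt_re (by linarith), (hZb _ (by linarith)).trans hTC⟩
  obtain ⟨q, hqd⟩ : ∃ q : ℂ → ℂ, q = fun w => KK φ w * qgb_Z (s + w / (L : ℂ)) := ⟨_, rfl⟩
  have hqw : ∀ w, q w = KK φ w * qgb_Z (s + w / (L : ℂ)) := fun w => by rw [hqd]
  have hdiff : ∀ w : ℂ, L * c' ≤ w.re → |w.im| ≤ R → DifferentiableAt ℂ q w := by
    intro w hw1 hw2
    obtain ⟨g1, g2, -⟩ := hgood w hw1 hw2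
    rw [hqd]
    refine DifferentiableAt.mul (mel_diff φ hφ B hφ1 hφ2 w) ?_
    have h1 : DifferentiableAt ℂ (fun w : ℂ => s + w / (L : ℂ)) w := by fun_prop
    exact DifferentiableAt.comp w (qgb_zdiff g1 g2) h1
  have him : ∀ x y : ℝ, ((x : ℂ) + (y : ℂ) * I).re = x ∧ ((x : ℂ) + (y : ℂ) * I).im = y := by
    intro x y
    constructor <;> simp
  have hTd : 0 < T ^ (2 * d) := by positivity
  -- horizontal sides
  have hhor : ∀ w : ℂ, L * c' ≤ w.re → w.re ≤ 3 / 2 * L → |w.im| = R → ‖q w‖ ≤ CA * T ^ (-(1 : ℝ)) := by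
    intro w hw1 hw2 hw3
    obtain ⟨-, -, g3⟩ := hgood w hw1 hw3.le
    have h0 : 0 ≤ w.re := le_trans (by positivity) hw1
    have h1 := hdA w h0
    have h2 : Real.exp (B * w.re) ≤ T ^ (3 / 2 * B) := by
      rw [← hexp]
      apply Real.exp_le_exp.2
      nlinarith
    have h3 : (1 + ‖w‖) ^ (-(A : ℝ)) ≤ (T ^ κ) ^ (-(A : ℝ)) := by
      apply Real.rpow_le_rpow_of_nonpos hTk
      · have := Complex.abs_im_le_norm w
        linarith
      · have : (0 : ℝ) ≤ A := Nat.cast_nonneg A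
        linarith
    have h4 : (T ^ κ) ^ (-(A : ℝ)) = T ^ (-(κ * A)) := by
      rw [← Real.rpow_mul hT0.le]
      ring_nf
    rw [hqw, norm_mul]
    calc ‖KK φ w‖ * ‖qgb_Z (s + w / (L : ℂ))‖ ≤
          (CA * T ^ (3 / 2 * B) * T ^ (-(κ * A))) * T ^ (2 * d) := by
          refine mul_le_mul ?_ g3 (norm_nonneg _) (by positivity)
          refine h1.trans ?_
          rw [← h4]
          exact mul_le_mul (mul_le_mul_of_nonneg_left h2 hCA.le) h3 (by positivity) (by positivity)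
      _ = CA * T ^ (3 / 2 * B + -(κ * A) + 2 * d) := by
          rw [Real.rpow_add hT0, Real.rpow_add hT0]
          ring
      _ ≤ CA * T ^ (-(1 : ℝ)) := by
          refine mul_le_mul_of_nonneg_left (Real.rpow_le_rpow_of_exponent_le hTge ?_) hCA.le
          nlinarith
  have hrect := qgb_rect q (L * c') (3 / 2 * L) R (CA * T ^ (-(1 : ℝ))) hR (by nlinarith)
    (fun w a _ e => hdiff w a e) hhor
  have hhor2 : 2 * (CA * T ^ (-(1 : ℝ)) * (3 / 2 * L - L * c')) ≤ 3 * CA := by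
    have h1 : T ^ (-(1 : ℝ)) * T = 1 := by
      rw [Real.rpow_neg_one, inv_mul_cancel₀ hT0.ne']
    have h2 : 0 < T ^ (-(1 : ℝ)) := by positivity
    have h3 : 0 ≤ L * c' := by positivity
    calc 2 * (CA * T ^ (-(1 : ℝ)) * (3 / 2 * L - L * c')) ≤
          2 * (CA * T ^ (-(1 : ℝ)) * (3 / 2 * T)) := by
          refine mul_le_mul_of_nonneg_left (mul_le_mul_of_nonneg_left ?_ (by positivity)) (by norm_num)
          linarith
      _ = 3 * CA * (T ^ (-(1 : ℝ)) * T) := by ring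
      _ = 3 * CA := by rw [h1, mul_one]
  -- left side
  have hleft : ‖∫ y in (-R)..R, q (((L * c' : ℝ) : ℂ) + (y : ℂ) * I)‖ ≤
      C2 * T ^ (4 * d * B + 2 * d) * I2 := by
    have h1 : ∀ y : ℝ, y ∈ Set.Ioc (-R) R → ‖q (((L * c' : ℝ) : ℂ) + (y : ℂ) * I)‖ ≤
        C2 * T ^ (4 * d * B + 2 * d) * (1 + ‖y‖) ^ (-(2 : ℝ)) := by
      intro y hy
      obtain ⟨e1, e2⟩ := him (L * c') y
      have hyR : |(((L * c' : ℝ) : ℂ) + (y : ℂ) * I).im| ≤ R := by
        rw [e2, abs_le]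
        exact ⟨hy.1.le, hy.2⟩
      obtain ⟨-, -, g3⟩ := hgood _ e1.ge hyR
      have h0 : 0 ≤ (((L * c' : ℝ) : ℂ) + (y : ℂ) * I).re := by
        rw [e1]
        positivity
      have h2 := hd2 _ h0
      have h3 : Real.exp (B * (((L * c' : ℝ) : ℂ) + (y : ℂ) * I).re) ≤ T ^ (4 * d * B) := by
        rw [e1, ← hexp]
        apply Real.exp_le_exp.2
        have : B * L * c' ≤ B * L * (4 * d) := mul_le_mul_of_nonneg_left hc4 (by positivity)
        linarith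
      have h4 : (1 + ‖((L * c' : ℝ) : ℂ) + (y : ℂ) * I‖) ^ (-((2 : ℕ) : ℝ)) ≤
          (1 + ‖y‖) ^ (-(2 : ℝ)) := by
        have h5 := Complex.abs_im_le_norm (((L * c' : ℝ) : ℂ) + (y : ℂ) * I)
        rw [e2] at h5
        have h6 : (-((2 : ℕ) : ℝ)) = -(2 : ℝ) := by norm_num
        rw [h6]
        refine Real.rpow_le_rpow_of_nonpos (by positivity) ?_ (by norm_num)
        rw [Real.norm_eq_abs]
        linarith
      rw [hqw, norm_mul]
      calc ‖KK φ (((L * c' : ℝ) : ℂ) + (y : ℂ) * I)‖ *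
            ‖qgb_Z (s + (((L * c' : ℝ) : ℂ) + (y : ℂ) * I) / (L : ℂ))‖ ≤
            (C2 * T ^ (4 * d * B) * (1 + ‖y‖) ^ (-(2 : ℝ))) * T ^ (2 * d) := by
            refine mul_le_mul ?_ g3 (norm_nonneg _) (by positivity)
            refine h2.trans ?_
            exact mul_le_mul (mul_le_mul_of_nonneg_left h3 hC2.le) h4 (by positivity) (by positivity)
        _ = C2 * T ^ (4 * d * B + 2 * d) * (1 + ‖y‖) ^ (-(2 : ℝ)) := by
            rw [Real.rpow_add hT0]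
            ring
    have hgi : Integrable (fun y : ℝ => C2 * T ^ (4 * d * B + 2 * d) * (1 + ‖y‖) ^ (-(2 : ℝ))) :=
      hg.const_mul _
    have h2 := intervalIntegral.norm_integral_le_of_norm_le (by linarith : -R ≤ R)
      (Filter.Eventually.of_forall h1) hgi.intervalIntegrable
    refine h2.trans ?_
    rw [intervalIntegral.integral_of_le (by linarith)]
    have h3 := setIntegral_le_integral (s := Set.Ioc (-R) R) hgi
      (Filter.Eventually.of_forall fun y => mul_nonneg (by positivity) (hg0 y))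
    refine h3.trans ?_
    rw [integral_const_mul, ← hI2]
  -- the integrand on the line
  obtain ⟨G, hGd⟩ : ∃ G : ℝ → ℂ, G = fun y : ℝ => q (((3 / 2 * L : ℝ) : ℂ) + (y : ℂ) * I) := ⟨_, rfl⟩
  have hGy : ∀ y, G y = q (((3 / 2 * L : ℝ) : ℂ) + (y : ℂ) * I) := fun y => by rw [hGd]
  have hrep : Qp b h T s = ∫ y, G y := by
    have h1 := qgb_rep (b := b) hh hh1 hT10 s (by linarith)
    rw [← hLd, ← hφd] at h1
    rw [h1]
    refine integral_congr_ae (Filter.Eventually.of_forall fun y => ?_)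
    rw [hGy, hqw]
  have hline : ∀ y : ℝ, 3 / 2 ≤ (s + (((3 / 2 * L : ℝ) : ℂ) + (y : ℂ) * I) / (L : ℂ)).re := by
    intro y
    rw [hzre, (him _ _).1, mul_div_cancel_right₀ _ hL.ne']
    linarith
  have hGi : Integrable G := by
    have hk := (mel_inv φ hφ B hφ1 hφ2 (3 / 2 * L) 0).1
    refine Integrable.mono' (hk.norm.mul_const C1) ?_ (Filter.Eventually.of_forall fun y => ?_)
    · have h1 : G = fun y : ℝ => KK φ (((3 / 2 * L : ℝ) : ℂ) + (y : ℂ) * I) *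
          qgb_Z (s + (((3 / 2 * L : ℝ) : ℂ) + (y : ℂ) * I) / (L : ℂ)) := by
        funext y
        rw [hGy, hqw]
      rw [h1]
      refine hk.aestronglyMeasurable.mul (Continuous.aestronglyMeasurable ?_)
      rw [continuous_iff_continuousAt]
      intro y
      have h2 := hline y
      have h3 : s + (((3 / 2 * L : ℝ) : ℂ) + (y : ℂ) * I) / (L : ℂ) ≠ 1 := by
        intro h4
        rw [h4, Complex.one_re] at h2
        linarith
      have h4 := (qgb_zdiff h3 (riemannZeta_ne_zero_of_one_lt_re (by linarith))).continuousAt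
      have h5 : ContinuousAt (fun y : ℝ => s + (((3 / 2 * L : ℝ) : ℂ) + (y : ℂ) * I) / (L : ℂ)) y := by
        fun_prop
      exact ContinuousAt.comp (f := fun y : ℝ => s + (((3 / 2 * L : ℝ) : ℂ) + (y : ℂ) * I) / (L : ℂ))
        h4 h5
    · rw [hGy, hqw, norm_mul]
      exact mul_le_mul_of_nonneg_left (hZb _ (hline y)) (norm_nonneg _)
  -- tails
  have htail : ‖∫ y in (Set.Ioc (-R) R)ᶜ, G y‖ ≤ CA * C1 * I2 := by
    have h1 : ∀ y ∈ (Set.Ioc (-R) R)ᶜ, ‖G y‖ ≤ CA * C1 * (1 + ‖y‖) ^ (-(2 : ℝ)) := by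
      intro y hy
      have hyR : R ≤ |y| := by
        by_contra hcon
        push Not at hcon
        apply hy
        have := abs_lt.1 hcon
        exact ⟨this.1, this.2.le⟩
      obtain ⟨e1, e2⟩ := him (3 / 2 * L) y
      have h0 : 0 ≤ (((3 / 2 * L : ℝ) : ℂ) + (y : ℂ) * I).re := by
        rw [e1]
        positivity
      have h2 := hdA _ h0
      have h3 : Real.exp (B * (((3 / 2 * L : ℝ) : ℂ) + (y : ℂ) * I).re) = T ^ (3 / 2 * B) := by
        rw [e1, ← hexp]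
        ring_nf
      have h4 : (1 + ‖((3 / 2 * L : ℝ) : ℂ) + (y : ℂ) * I‖) ^ (-(A : ℝ)) ≤
          (1 + ‖y‖) ^ (-(2 : ℝ)) * T ^ (-(κ * ((A : ℝ) - 2))) := by
        have h5 := Complex.abs_im_le_norm (((3 / 2 * L : ℝ) : ℂ) + (y : ℂ) * I)
        rw [e2] at h5
        have hA0 : (0 : ℝ) ≤ A := Nat.cast_nonneg A
        have hA2 : 0 ≤ (A : ℝ) - 2 := by
          by_contra hcon
          push Not at hcon
          nlinarith
        have h6 : (1 + ‖((3 / 2 * L : ℝ) : ℂ) + (y : ℂ) * I‖) ^ (-(A : ℝ)) ≤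
            (1 + ‖y‖) ^ (-(A : ℝ)) := by
          refine Real.rpow_le_rpow_of_nonpos (by positivity) ?_ (by linarith)
          rw [Real.norm_eq_abs y]
          linarith
        have h7 : (1 + ‖y‖) ^ (-(A : ℝ)) =
            (1 + ‖y‖) ^ (-(2 : ℝ)) * (1 + ‖y‖) ^ (-((A : ℝ) - 2)) := by
          rw [← Real.rpow_add (by positivity)]
          ring_nf
        have h8 : (1 + ‖y‖) ^ (-((A : ℝ) - 2)) ≤ (T ^ κ) ^ (-((A : ℝ) - 2)) := by
          refine Real.rpow_le_rpow_of_nonpos hTk ?_ (by linarith)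
          rw [Real.norm_eq_abs y]
          linarith
        have h9 : (T ^ κ) ^ (-((A : ℝ) - 2)) = T ^ (-(κ * ((A : ℝ) - 2))) := by
          rw [← Real.rpow_mul hT0.le]
          ring_nf
        rw [← h9]
        refine h6.trans ?_
        rw [h7]
        exact mul_le_mul_of_nonneg_left h8 (hg0 y)
      have h10 : T ^ (3 / 2 * B) * T ^ (-(κ * ((A : ℝ) - 2))) ≤ 1 := by
        rw [← Real.rpow_add hT0]
        exact Real.rpow_le_one_of_one_le_of_nonpos hTge (by linarith)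
      rw [hGy, hqw, norm_mul]
      calc ‖KK φ (((3 / 2 * L : ℝ) : ℂ) + (y : ℂ) * I)‖ *
            ‖qgb_Z (s + (((3 / 2 * L : ℝ) : ℂ) + (y : ℂ) * I) / (L : ℂ))‖ ≤
            (CA * T ^ (3 / 2 * B) * ((1 + ‖y‖) ^ (-(2 : ℝ)) * T ^ (-(κ * ((A : ℝ) - 2))))) * C1 := by
            refine mul_le_mul ?_ (hZb _ (hline y)) (norm_nonneg _) (by positivity)
            rw [← h3]
            exact h2.trans (mul_le_mul_of_nonneg_left h4 (by positivity))
        _ = CA * C1 * (1 + ‖y‖) ^ (-(2 : ℝ)) *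
            (T ^ (3 / 2 * B) * T ^ (-(κ * ((A : ℝ) - 2)))) := by ring
        _ ≤ CA * C1 * (1 + ‖y‖) ^ (-(2 : ℝ)) * 1 :=
            mul_le_mul_of_nonneg_left h10 (mul_nonneg (by positivity) (hg0 y))
        _ = CA * C1 * (1 + ‖y‖) ^ (-(2 : ℝ)) := mul_one _
    have hgi : Integrable (fun y : ℝ => CA * C1 * (1 + ‖y‖) ^ (-(2 : ℝ))) := hg.const_mul _
    have h2 : ‖∫ y in (Set.Ioc (-R) R)ᶜ, G y‖ ≤
        ∫ y in (Set.Ioc (-R) R)ᶜ, CA * C1 * (1 + ‖y‖) ^ (-(2 : ℝ)) := by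
      refine norm_integral_le_of_norm_le hgi.integrableOn ?_
      exact (ae_restrict_iff' measurableSet_Ioc.compl).2 (Filter.Eventually.of_forall h1)
    refine h2.trans ?_
    have h3 := setIntegral_le_integral (s := (Set.Ioc (-R) R)ᶜ) hgi
      (Filter.Eventually.of_forall fun y => mul_nonneg (by positivity) (hg0 y))
    refine h3.trans ?_
    rw [integral_const_mul, ← hI2]
  have hmid : ∫ y in (-R)..R, q (((3 / 2 * L : ℝ) : ℂ) + (y : ℂ) * I) =
      ∫ y in Set.Ioc (-R) R, G y := by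
    rw [intervalIntegral.integral_of_le (by linarith), hGd]
  rw [hmid] at hrect
  have hsplit := integral_add_compl (measurableSet_Ioc (a := -R) (b := R)) hGi
  have hone : 1 ≤ T ^ (4 * d * B + 2 * d) := Real.one_le_rpow hTge (by positivity)
  rw [hrep, ← hsplit]
  calc ‖(∫ y in Set.Ioc (-R) R, G y) + ∫ y in (Set.Ioc (-R) R)ᶜ, G y‖ ≤
        ‖∫ y in Set.Ioc (-R) R, G y‖ + ‖∫ y in (Set.Ioc (-R) R)ᶜ, G y‖ := norm_add_le _ _
    _ ≤ (C2 * T ^ (4 * d * B + 2 * d) * I2 + 3 * CA) + CA * C1 * I2 := by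
        have h1 := hrect
        linarith
    _ ≤ K * T ^ (4 * d * B + 2 * d) := by
        rw [hKd]
        have h1 : 0 ≤ 3 * CA + CA * C1 * I2 := by positivity
        nlinarith
    _ ≤ T ^ δ * T ^ (4 * d * B + 2 * d) := mul_le_mul_of_nonneg_right hTK (by positivity)
    _ = T ^ (6 * d * (b + 1)) := by
        rw [← Real.rpow_add hT0, hδd]
        ring_nf

end Pool.Agent.H24.WH
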