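import Pool.Agent.H24.WH.Rcg
import Pool.Agent.H24.WH.Dls
import Pool.Agent.H24.WH.Grw

/-!
# [H24 WH RTN] the right side: the tail against the test polynomial

PROOF. `rcg` with `q = ζ' Fa Bp`, `x1 = 2d`, `x2 = 3/2` (analytic and `≤ T^(4b+10)` by `GH`, `dls_crude`): `|int at 2d| ≤ |int at 3/2| + T^(-1)`. On `Re = 2`:
`|ζ'| ≤ C`, `|Fa| ≤ C T^(-(b+h)) L^2` (`dls_F`), `|Bp| ≤ C T` (`dls_bp`), `|kk| ≤ e^(9/4) e^(-y^2)`: `≤ C T^(1-b-h) L^2 ≤ T^(-h/2)/2`.
-/

set_option autoImplicit false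

namespace Pool.Agent.H24.WH

open Complex MeasureTheory Finset Pool.Agent.H48.WN

private theorem rtn_zd : ∃ C : ℝ, 0 ≤ C ∧ ∀ s : ℂ, s.re = 2 → ‖deriv riemannZeta s‖ ≤ C := by
  refine ⟨∑' n : ℕ, ‖((Real.log n : ℝ) : ℂ) * (n : ℂ) ^ (-(2 : ℂ))‖, tsum_nonneg fun n => norm_nonneg _, ?_⟩
  intro s hs
  have h1 := dls_log s (by rw [hs]; norm_num)
  have hterm : ∀ n : ℕ, ‖((Real.log n : ℝ) : ℂ) * (n : ℂ) ^ (-s)‖ =
      ‖((Real.log n : ℝ) : ℂ) * (n : ℂ) ^ (-(2 : ℂ))‖ := by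
    intro n
    rcases Nat.eq_zero_or_pos n with hn | hn
    · subst hn
      simp
    · rw [norm_mul, norm_mul, Complex.norm_natCast_cpow_of_pos hn, Complex.norm_natCast_cpow_of_pos hn]
      simp [hs]
  have h2 : Summable (fun n : ℕ => ‖((Real.log n : ℝ) : ℂ) * (n : ℂ) ^ (-s)‖) := h1.summable.norm
  rw [← norm_neg, ← h1.tsum_eq]
  refine (norm_tsum_le_tsum_norm h2).trans (le_of_eq ?_)
  exact tsum_congr hterm

private theorem rtn_dz (s : ℂ) (hs : s ≠ 1) : DifferentiableAt ℂ (deriv riemannZeta) s := by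
  have hd : DifferentiableOn ℂ riemannZeta {1}ᶜ := fun z hz =>
    (differentiableAt_riemannZeta hz).differentiableWithinAt
  have ho : IsOpen ({1}ᶜ : Set ℂ) := isOpen_compl_singleton
  exact ((hd.deriv ho) s hs).differentiableAt (ho.mem_nhds hs)

private theorem rtn_dQ (b h T : ℝ) (s : ℂ) : DifferentiableAt ℂ (Qp b h T) s := by
  unfold Qp Dp
  apply DifferentiableAt.fun_sum
  intro n hn
  have hn1 : (n : ℂ) ≠ 0 := by
    have := (mem_Icc.mp hn).1
    exact_mod_cast (by omega : n ≠ 0)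
  apply DifferentiableAt.const_mul
  exact DifferentiableAt.const_cpow (differentiable_neg.differentiableAt) (Or.inl hn1)

private theorem rtn_dB (T : ℝ) (s : ℂ) : DifferentiableAt ℂ (Bp T) s := by
  unfold Bp
  apply DifferentiableAt.fun_sum
  intro p hp
  have hp1 : (p : ℂ) ≠ 0 := by
    have := (mem_filter.mp hp).2.ne_zero
    exact_mod_cast this
  apply DifferentiableAt.const_mul
  exact DifferentiableAt.const_cpow (by fun_prop) (Or.inl hp1)

private theorem rtn_as1 (κ : ℝ) (hκ : 0 < κ) :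
    ∀ᶠ T : ℝ in Filter.atTop, (Real.log T) ^ 2 ≤ T ^ κ - 1 := by
  have h1 := (isLittleO_log_rpow_rpow_atTop (2 : ℝ) hκ).bound (show (0 : ℝ) < 1 / 2 by norm_num)
  have h2 := (tendsto_rpow_atTop hκ).eventually_ge_atTop 2
  filter_upwards [h1, h2, Filter.eventually_ge_atTop 1] with T hT1 hT2 hT3
  have hL : 0 ≤ Real.log T := Real.log_nonneg hT3
  rw [Real.rpow_two, Real.norm_of_nonneg (by positivity), Real.norm_of_nonneg (by positivity)] at hT1
  linarith

private theorem rtn_as2 (K h : ℝ) (hK : 0 ≤ K) (hh : 0 < h) :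
    ∀ᶠ T : ℝ in Filter.atTop, K * (Real.log T) ^ 4 * T ^ (-h) ≤ T ^ (-h / 2) / 2 := by
  have h1 := (isLittleO_log_rpow_rpow_atTop (4 : ℝ) (half_pos hh)).bound
    (show (0 : ℝ) < 1 / (2 * (K + 1)) by positivity)
  filter_upwards [h1, Filter.eventually_ge_atTop 1] with T hT1 hT3
  have hT0 : 0 < T := by linarith
  have hL : 0 ≤ Real.log T := Real.log_nonneg hT3
  have e4 : (Real.log T) ^ (4 : ℝ) = (Real.log T) ^ 4 := by
    rw [show (4 : ℝ) = ((4 : ℕ) : ℝ) by norm_num, Real.rpow_natCast]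
  rw [e4, Real.norm_of_nonneg (by positivity), Real.norm_of_nonneg (by positivity)] at hT1
  have h2 : K * (Real.log T) ^ 4 ≤ T ^ (h / 2) / 2 := by
    calc K * (Real.log T) ^ 4 ≤ (K + 1) * (Real.log T) ^ 4 := by
          apply mul_le_mul_of_nonneg_right (by linarith) (by positivity)
      _ ≤ (K + 1) * (1 / (2 * (K + 1)) * T ^ (h / 2)) := by
          apply mul_le_mul_of_nonneg_left hT1 (by positivity)
      _ = T ^ (h / 2) / 2 := by
          field_simp
  calc K * (Real.log T) ^ 4 * T ^ (-h) ≤ T ^ (h / 2) / 2 * T ^ (-h) :=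
        mul_le_mul_of_nonneg_right h2 (by positivity)
    _ = T ^ (h / 2) * T ^ (-h) / 2 := by ring
    _ = T ^ (-h / 2) / 2 := by
        rw [← Real.rpow_add hT0]
        congr 2
        ring

private theorem rtn_as3 (K M h : ℝ) (hK : 0 ≤ K) (hh1 : h ≤ 1 / 100) :
    ∀ᶠ T : ℝ in Filter.atTop, K * Real.exp (-((Real.log T) ^ 2) ^ 2) * T ^ M ≤ T ^ (-h / 2) / 2 := by
  have h2 := (Real.tendsto_log_atTop).eventually_ge_atTop (|M| + 2 * K + 3)
  filter_upwards [h2, Filter.eventually_ge_atTop 1] with T hT2 hT3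
  have hT0 : 0 < T := by linarith
  set L := Real.log T with hL
  have hM0 := abs_nonneg M
  have hM1 := le_abs_self M
  have hL1 : 1 ≤ L := by linarith
  have e1 : ((L ^ 2) ^ 2) = L * L ^ 3 := by ring
  have h3 : |M| + 2 * K + 3 ≤ L ^ 3 := by
    calc |M| + 2 * K + 3 ≤ L := hT2
      _ = L * 1 := by ring
      _ ≤ L * L ^ 2 := by
          apply mul_le_mul_of_nonneg_left (one_le_pow₀ hL1) (by linarith)
      _ = L ^ 3 := by ring
  have h4 : L * (|M| + 2 * K + 3) ≤ (L ^ 2) ^ 2 := by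
    rw [e1]
    exact mul_le_mul_of_nonneg_left h3 (by linarith)
  have h5 : Real.exp (-(L ^ 2) ^ 2) ≤ Real.exp (-(L * (|M| + 2 * K + 3))) :=
    Real.exp_le_exp.mpr (by linarith)
  have h6 : T ^ M = Real.exp (L * M) := Real.rpow_def_of_pos hT0 M
  have h7 : T ^ (-h / 2) = Real.exp (L * (-h / 2)) := Real.rpow_def_of_pos hT0 _
  rw [h6, h7]
  have h8 : K ≤ Real.exp (2 * K) / 2 := by
    have := Real.add_one_le_exp (2 * K)
    linarith
  calc K * Real.exp (-(L ^ 2) ^ 2) * Real.exp (L * M)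
      ≤ Real.exp (2 * K) / 2 * Real.exp (-(L * (|M| + 2 * K + 3))) * Real.exp (L * M) := by
        gcongr
    _ = Real.exp (2 * K + -(L * (|M| + 2 * K + 3)) + L * M) / 2 := by
        rw [Real.exp_add, Real.exp_add]
        ring
    _ ≤ Real.exp (L * (-h / 2)) / 2 := by
        apply div_le_div_of_nonneg_right _ (by norm_num)
        apply Real.exp_le_exp.mpr
        have a1 : L * M ≤ L * |M| := mul_le_mul_of_nonneg_left hM1 (by linarith)
        have a2 : 2 * K ≤ L * (2 * K) := by nlinarith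
        nlinarith

theorem rtn (b h d κ : ℝ) (hb : 1 ≤ b) (hh : 0 < h) (hh1 : h ≤ 1 / 100) (hd : 0 < d) (hd1 : d ≤ 1 / 32) (hκ : 0 < κ)
    (hκ1 : κ ≤ 1 / 4) :
    ∃ T0 : ℝ, 10 ≤ T0 ∧ ∀ T : ℝ, T0 ≤ T → ∀ t0 : ℝ, T ≤ t0 → t0 ≤ 2 * T → GH d κ T t0 →
      ‖∫ y in (-(Real.log T) ^ 2)..((Real.log T) ^ 2), kk (2 * d) y *
        (deriv riemannZeta (pt (2 * d) (t0 + y)) * Fa b h T (pt (2 * d) (t0 + y)) * Bp T (pt (2 * d) (t0 + y)))‖ ≤
        T ^ (-h / 2) := by
  obtain ⟨CB, hCB, hBp⟩ := dls_bp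
  obtain ⟨CF, hCF, hF⟩ := dls_F b h hb hh hh1
  obtain ⟨CZ, hCZ, hZ⟩ := rtn_zd
  have hA1 := rtn_as1 κ hκ
  have hA2 := rtn_as2 (2 * (Real.exp (9 / 4) * (CZ * CF * (CB * 16)))) h (by positivity) hh
  have hA3 := rtn_as3 (2 * (3 / 2 - 2 * d) * Real.exp (9 / 4) * ((b + 2) * (CB * 16))) (b + 2 * h + d + 2) h
    (by
      have : 0 ≤ 3 / 2 - 2 * d := by linarith
      positivity) hh1
  have hA4 : ∀ᶠ T : ℝ in Filter.atTop, (Real.log T) ^ 2 < T := by
    have h1 := (isLittleO_log_rpow_rpow_atTop (2 : ℝ) (show (0 : ℝ) < 1 by norm_num)).bound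
      (show (0 : ℝ) < 1 / 2 by norm_num)
    filter_upwards [h1, Filter.eventually_ge_atTop 1] with T hT1 hT3
    have hL : 0 ≤ Real.log T := Real.log_nonneg hT3
    rw [Real.rpow_two, Real.rpow_one, Real.norm_of_nonneg (by positivity), Real.norm_of_nonneg (by positivity)] at hT1
    linarith
  obtain ⟨T1, hT1⟩ := Filter.eventually_atTop.mp (hA1.and (hA2.and (hA3.and hA4)))
  refine ⟨max 10 T1, le_max_left _ _, ?_⟩
  intro T hT t0 ht0 ht1 hG
  have hT10 : 10 ≤ T := (le_max_left _ _).trans hT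
  obtain ⟨hE1, hE2, hE3, hE4⟩ := hT1 T ((le_max_right _ _).trans hT)
  have hT0 : 0 < T := by linarith
  have hTone : 1 ≤ T := by linarith
  have hL0 : 0 < Real.log T := Real.log_pos (by linarith)
  set L := Real.log T with hL
  have hR : 0 < L ^ 2 := by positivity
  set q : ℂ → ℂ := fun s => deriv riemannZeta s * Fa b h T s * Bp T s with hq
  have hlogT : L ≤ T := (Real.log_le_sub_one_of_pos hT0).trans (by linarith)
  have him : ∀ s : ℂ, |s.im - t0| ≤ L ^ 2 → s ≠ 1 := by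
    intro s hs h1
    rw [h1, Complex.one_im, abs_le] at hs
    linarith [hs.1]
  -- bounds on the strip
  have hqb : ∀ s : ℂ, 1 / 2 + 2 * d ≤ s.re → s.re ≤ 1 / 2 + 3 / 2 → |s.im - t0| ≤ L ^ 2 →
      DifferentiableAt ℂ q s ∧ ‖q s‖ ≤ (b + 2) * (CB * 16) * T ^ (b + 2 * h + d + 2) := by
    intro s h1 h2 h3
    obtain ⟨g1, g2, g3, g4⟩ := hG s h1 (by linarith) (h3.trans hE1)
    have hs1 := him s h3
    refine ⟨?_, ?_⟩
    · have a1 := rtn_dz s hs1
      have a2 : DifferentiableAt ℂ (Fa b h T) s := by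
        have a3 : DifferentiableAt ℂ (fun z => Qp b h T z + deriv riemannZeta z / riemannZeta z) s :=
          (rtn_dQ b h T s).add (a1.div (differentiableAt_riemannZeta hs1) g1)
        exact a3
      exact (a1.mul a2).mul (rtn_dB T s)
    · have b1 := (dls_crude b h hb hh hh1 T hT10 s 0 le_rfl (by linarith)).1
      have b2 := (hBp T hT10 s).1 (by linarith)
      have b3 : ‖Bp T s‖ ≤ CB * 16 * T := by
        refine b2.trans ?_
        have c1 : (4 : ℝ) ^ s.re ≤ 16 := by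
          calc (4 : ℝ) ^ s.re ≤ (4 : ℝ) ^ (2 : ℝ) := Real.rpow_le_rpow_of_exponent_le (by norm_num) (by linarith)
            _ = 16 := by norm_num
        have c2 : T ^ (s.re / 2) ≤ T := by
          calc T ^ (s.re / 2) ≤ T ^ (1 : ℝ) := Real.rpow_le_rpow_of_exponent_le hTone (by linarith)
            _ = T := Real.rpow_one T
        gcongr
      have b4 : ‖Fa b h T s‖ ≤ (b + 2) * T ^ (b + 2 * h + 1) := by
        unfold Fa
        refine (norm_add_le _ _).trans ?_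
        rw [zero_add, mul_one] at b1
        have c3 : ‖deriv riemannZeta s / riemannZeta s‖ ≤ T ^ (b + 2 * h + 1) := by
          rw [div_eq_mul_inv, norm_mul]
          calc ‖deriv riemannZeta s‖ * ‖(riemannZeta s)⁻¹‖ ≤ T ^ d * T ^ d := by gcongr
            _ = T ^ (d + d) := (Real.rpow_add hT0 _ _).symm
            _ ≤ T ^ (b + 2 * h + 1) := Real.rpow_le_rpow_of_exponent_le hTone (by linarith)
        have c4 : T ^ (b + 2 * h) * (b + 1) * Real.log T ≤ (b + 1) * T ^ (b + 2 * h + 1) := by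
          rw [Real.rpow_add hT0 (b + 2 * h) 1, Real.rpow_one]
          calc T ^ (b + 2 * h) * (b + 1) * Real.log T ≤ T ^ (b + 2 * h) * (b + 1) * T := by
                apply mul_le_mul_of_nonneg_left hlogT (by positivity)
            _ = (b + 1) * (T ^ (b + 2 * h) * T) := by ring
        calc ‖Qp b h T s‖ + ‖deriv riemannZeta s / riemannZeta s‖
            ≤ (b + 1) * T ^ (b + 2 * h + 1) + T ^ (b + 2 * h + 1) := add_le_add (b1.trans c4) c3
          _ = (b + 2) * T ^ (b + 2 * h + 1) := by ring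
      calc ‖q s‖ = ‖deriv riemannZeta s‖ * ‖Fa b h T s‖ * ‖Bp T s‖ := by
            rw [hq]
            simp only [norm_mul]
        _ ≤ T ^ d * ((b + 2) * T ^ (b + 2 * h + 1)) * (CB * 16 * T) := by gcongr
        _ = (b + 2) * (CB * 16) * (T ^ d * T ^ (b + 2 * h + 1) * T ^ (1 : ℝ)) := by
            rw [Real.rpow_one]
            ring
        _ = (b + 2) * (CB * 16) * T ^ (b + 2 * h + d + 2) := by
            rw [← Real.rpow_add hT0, ← Real.rpow_add hT0]
            congr 2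
            ring
  have key := rcg q t0 (L ^ 2) (2 * d) (3 / 2) _ hR (by linarith) hqb
  have hmax : max ((2 * d) ^ 2) ((3 / 2 : ℝ) ^ 2) = 9 / 4 := by
    rw [max_eq_right]
    · norm_num
    · nlinarith
  rw [hmax] at key
  -- the far line
  have hfar : ‖∫ y in (-(L ^ 2))..(L ^ 2), kk (3 / 2) y * q (pt (3 / 2) (t0 + y))‖ ≤ T ^ (-h / 2) / 2 := by
    have hc : ∀ y ∈ Set.uIoc (-(L ^ 2)) (L ^ 2), ‖kk (3 / 2) y * q (pt (3 / 2) (t0 + y))‖ ≤
        Real.exp (9 / 4) * (CZ * CF * (CB * 16)) * (L ^ 2 * T ^ (-h)) := by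
      intro y hy
      have hre : (pt (3 / 2) (t0 + y)).re = 2 := by
        rw [pt_re]
        norm_num
      have d1 := hZ _ hre
      have d2 := (hF T hT10 (pt (3 / 2) (t0 + y)) (by rw [hre])).1
      have d3 := (hBp T hT10 (pt (3 / 2) (t0 + y))).1 (by rw [hre]; norm_num)
      rw [hre] at d2 d3
      have d4 : ‖Bp T (pt (3 / 2) (t0 + y))‖ ≤ CB * 16 * T := by
        refine d3.trans (le_of_eq ?_)
        have : (4 : ℝ) ^ (2 : ℝ) = 16 := by norm_num
        rw [this, show (2 : ℝ) / 2 = 1 by norm_num, Real.rpow_one]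
      have d5 : ‖kk (3 / 2) y‖ ≤ Real.exp (9 / 4) := by
        rw [kk_norm]
        apply Real.exp_le_exp.mpr
        nlinarith [sq_nonneg y]
      have d6 : T ^ ((b + h) * (1 - 2)) * T ≤ T ^ (-h) := by
        calc T ^ ((b + h) * (1 - 2)) * T = T ^ ((b + h) * (1 - 2)) * T ^ (1 : ℝ) := by rw [Real.rpow_one]
          _ = T ^ ((b + h) * (1 - 2) + 1) := (Real.rpow_add hT0 _ _).symm
          _ ≤ T ^ (-h) := Real.rpow_le_rpow_of_exponent_le hTone (by linarith)
      calc ‖kk (3 / 2) y * q (pt (3 / 2) (t0 + y))‖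
          = ‖kk (3 / 2) y‖ * (‖deriv riemannZeta (pt (3 / 2) (t0 + y))‖ * ‖Fa b h T (pt (3 / 2) (t0 + y))‖ *
            ‖Bp T (pt (3 / 2) (t0 + y))‖) := by
            rw [hq]
            simp only [norm_mul]
        _ ≤ Real.exp (9 / 4) * (CZ * (CF * T ^ ((b + h) * (1 - 2)) * L ^ 2) * (CB * 16 * T)) := by gcongr
        _ = Real.exp (9 / 4) * (CZ * CF * (CB * 16)) * (L ^ 2 * (T ^ ((b + h) * (1 - 2)) * T)) := by ring
        _ ≤ Real.exp (9 / 4) * (CZ * CF * (CB * 16)) * (L ^ 2 * T ^ (-h)) := by gcongr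
    refine (intervalIntegral.norm_integral_le_of_norm_le_const hc).trans ?_
    rw [sub_neg_eq_add, abs_of_pos (by positivity)]
    refine le_trans (le_of_eq ?_) hE2
    ring
  have herr : 2 * (3 / 2 - 2 * d) * Real.exp (9 / 4) * Real.exp (-(L ^ 2) ^ 2) *
      ((b + 2) * (CB * 16) * T ^ (b + 2 * h + d + 2)) ≤ T ^ (-h / 2) / 2 := by
    refine le_trans (le_of_eq ?_) hE3
    ring
  have hfin := norm_sub_norm_le (∫ y in (-(L ^ 2))..(L ^ 2), kk (2 * d) y * q (pt (2 * d) (t0 + y)))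
    (∫ y in (-(L ^ 2))..(L ^ 2), kk (3 / 2) y * q (pt (3 / 2) (t0 + y)))
  have hgoal : ‖∫ y in (-(L ^ 2))..(L ^ 2), kk (2 * d) y * q (pt (2 * d) (t0 + y))‖ ≤ T ^ (-h / 2) := by
    linarith
  exact hgoal

end Pool.Agent.H24.WH
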