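import Pool.Agent.H24.WH.Rcg
import Pool.Agent.H24.WH.Dls
import Pool.Agent.H24.WH.Grw
import Pool.Agent.H24.WH.Bas

/-!
# [H24 WH SHL] the left integral, from `Re = 2` to `Re = 1/2 + 2d`

PROOF. `rcg` with `q = HL T`, `x1 = 2d`, `x2 = 3/2`: analytic by `stl`, `GH`; crude bounds: `|GG| ≤ C T^2` (`ggn`), `|lam| ≤ 2 L`, `|ζ|, |ζ'|, |1/ζ| ≤ T^d`,
`|Bp(1 - z)| ≤ C` times a power; so the difference is `≤ C e^(-L^4) T^4 ≤ T^(-1)`.
-/

set_option autoImplicit false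

namespace Pool.Agent.H24.WH

open Complex MeasureTheory Finset Pool.Agent.H48.WN

/-- `e^(-L^4) ≤ T^(-4)` -/
private lemma shl_exp {T : ℝ} (hT : 10 ≤ T) : Real.exp (-((Real.log T) ^ 2) ^ 2) ≤ T ^ (-(4 : ℝ)) := by
  have hl : 2 ≤ Real.log T := by
    rw [Real.le_log_iff_exp_le (by linarith)]
    have h1 : Real.exp 1 < 2.7182818286 := Real.exp_one_lt_d9
    have h2 : Real.exp 2 = Real.exp 1 * Real.exp 1 := by
      rw [← Real.exp_add]
      norm_num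
    have h3 : 0 < Real.exp 1 := Real.exp_pos 1
    rw [h2]
    nlinarith
  rw [Real.rpow_def_of_pos (by linarith)]
  apply Real.exp_le_exp.2
  have h3 : 4 * Real.log T ≤ (Real.log T ^ 2) ^ 2 := by
    have : (4 : ℝ) ≤ Real.log T ^ 3 := by nlinarith [sq_nonneg (Real.log T)]
    nlinarith
  nlinarith

private lemma shl_bp {C T : ℝ} (hC : 0 < C) (hT : 10 ≤ T) {s : ℂ}
    (h1 : 0 ≤ s.re → ‖Bp T s‖ ≤ C * 4 ^ s.re * T ^ (s.re / 2))
    (h2 : s.re ≤ 0 → ‖Bp T s‖ ≤ C * 2 ^ (-s.re) * T ^ (s.re / 2)) (hs1 : -1 ≤ s.re) (hs2 : s.re ≤ 1 / 2) :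
    ‖Bp T s‖ ≤ 4 * C * T ^ ((1 : ℝ) / 4) := by
  have hT1 : 1 ≤ T := by linarith
  rcases le_total 0 s.re with h | h
  · refine (h1 h).trans ?_
    have e1 : (4 : ℝ) ^ s.re ≤ 4 ^ (1 : ℝ) := Real.rpow_le_rpow_of_exponent_le (by norm_num) (by linarith)
    rw [Real.rpow_one] at e1
    have e2 : T ^ (s.re / 2) ≤ T ^ ((1 : ℝ) / 4) := Real.rpow_le_rpow_of_exponent_le hT1 (by linarith)
    calc C * 4 ^ s.re * T ^ (s.re / 2) ≤ C * 4 * T ^ ((1 : ℝ) / 4) := by gcongr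
      _ = 4 * C * T ^ ((1 : ℝ) / 4) := by ring
  · refine (h2 h).trans ?_
    have e1 : (2 : ℝ) ^ (-s.re) ≤ 2 ^ (1 : ℝ) := Real.rpow_le_rpow_of_exponent_le (by norm_num) (by linarith)
    rw [Real.rpow_one] at e1
    have e2 : T ^ (s.re / 2) ≤ T ^ ((1 : ℝ) / 4) := Real.rpow_le_rpow_of_exponent_le hT1 (by linarith)
    calc C * 2 ^ (-s.re) * T ^ (s.re / 2) ≤ C * 4 * T ^ ((1 : ℝ) / 4) := by
          gcongr
          linarith
      _ = 4 * C * T ^ ((1 : ℝ) / 4) := by ring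

theorem shl (d κ : ℝ) (hd : 0 < d) (hd1 : d ≤ 1 / 32) (hκ : 0 < κ) (hκ1 : κ ≤ 1 / 4) :
    ∃ T0 : ℝ, 10 ≤ T0 ∧ ∀ T : ℝ, T0 ≤ T → ∀ t0 : ℝ, T ≤ t0 → t0 ≤ 2 * T → GH d κ T t0 →
      ‖JL T (3 / 2) t0 - JL T (2 * d) t0‖ ≤ T ^ (-(1 : ℝ)) := by
  obtain ⟨C1, T1, hC1, hT1, G1⟩ := ggn 2 (by norm_num)
  obtain ⟨C2, T2, hC2, hT2, G2⟩ := stl 2
  obtain ⟨C3, hC3, G3⟩ := dls_bp
  obtain ⟨T4, hT4, W⟩ := aux_win κ hκ
  obtain ⟨T5, hT5, P5⟩ := aux_log 1 (1 / 16) 2 (by norm_num)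
  -- total constant
  set K : ℝ := 2 * (3 / 2) * Real.exp (9 / 4) * (C1 * 3 ^ ((3 : ℝ) / 2) * (3 * 3) * (4 * C3)) with hK
  obtain ⟨T6, hT6, P6⟩ := aux_pow K 1 one_pos
  obtain ⟨T0, hT0⟩ : ∃ T0 : ℝ, T0 = max (max (2 * T1) (2 * T2)) (max (max T4 T5) (max T6 (2 * C2 + 14))) := ⟨_, rfl⟩
  have b1 : 2 * T1 ≤ T0 := by rw [hT0]; exact (le_max_left _ _).trans (le_max_left _ _)
  have b2 : 2 * T2 ≤ T0 := by rw [hT0]; exact (le_max_right _ _).trans (le_max_left _ _)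
  have b4 : T4 ≤ T0 := by rw [hT0]; exact ((le_max_left _ _).trans (le_max_left _ _)).trans (le_max_right _ _)
  have b5 : T5 ≤ T0 := by rw [hT0]; exact ((le_max_right _ _).trans (le_max_left _ _)).trans (le_max_right _ _)
  have b6 : T6 ≤ T0 := by rw [hT0]; exact ((le_max_left _ _).trans (le_max_right _ _)).trans (le_max_right _ _)
  have b7 : 2 * C2 + 14 ≤ T0 := by rw [hT0]; exact ((le_max_right _ _).trans (le_max_right _ _)).trans (le_max_right _ _)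
  refine ⟨T0, by linarith, fun T hT t0 ht1 ht2 hg => ?_⟩
  have h10 : 10 ≤ T := by linarith
  have hTp : 0 < T := by linarith
  have hT1' : 1 ≤ T := by linarith
  obtain ⟨w1, w2, w3⟩ := W T (b4.trans hT)
  have p5 := P5 T (b5.trans hT)
  have p6 := P6 T (b6.trans hT)
  rw [one_mul] at p5
  rw [Real.rpow_one] at p6
  set L := Real.log T with hL
  have hL0 : 0 ≤ L := by linarith
  set R := L ^ 2 with hR
  have hRp : 0 < R := by positivity
  -- the bound of the integrand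
  set B : ℝ := C1 * (3 * T) ^ ((3 : ℝ) / 2) * (3 * L * T ^ d) ^ 2 * T ^ d * (4 * C3 * T ^ ((1 : ℝ) / 4)) with hB
  have hq : ∀ s : ℂ, 1 / 2 + 2 * d ≤ s.re → s.re ≤ 1 / 2 + 3 / 2 → |s.im - t0| ≤ R →
      DifferentiableAt ℂ (HL T) s ∧ ‖HL T s‖ ≤ B := by
    intro s hs1 hs2 hs3
    have hs2' : s.re ≤ 2 := by linarith
    obtain ⟨z0, z1, z2, z3⟩ := hg s hs1 hs2' (hs3.trans (by linarith))
    obtain ⟨i1, i2⟩ := abs_le.1 hs3
    have im1 : T / 2 ≤ s.im := by linarith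
    have im2 : s.im ≤ 3 * T := by linarith
    have imp : 0 < s.im := by linarith
    obtain ⟨g1, -⟩ := G1 s (by linarith) hs2' (by linarith)
    obtain ⟨-, g2, g3, g4, g5⟩ := G2 s (abs_le.2 ⟨by linarith, hs2'⟩) (by linarith)
    have hs1' : s ≠ 1 := aux_ne imp.ne'
    refine ⟨?_, ?_⟩
    · unfold HL
      refine ((g3.mul (((g4.mul (aux_z hs1')).add (aux_dz hs1')).pow 2)).div (aux_z hs1') z0).mul ?_
      exact ((aux_bp T) (1 - s)).comp s (differentiableAt_id.const_sub 1)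
    · -- the factor GG
      have e1 : ‖GG s‖ ≤ C1 * (3 * T) ^ ((3 : ℝ) / 2) := by
        refine g1.trans ?_
        have : s.im ^ (s.re - 1 / 2) ≤ (3 * T) ^ ((3 : ℝ) / 2) :=
          calc s.im ^ (s.re - 1 / 2) ≤ (3 * T) ^ (s.re - 1 / 2) :=
                Real.rpow_le_rpow imp.le im2 (by linarith)
            _ ≤ (3 * T) ^ ((3 : ℝ) / 2) := Real.rpow_le_rpow_of_exponent_le (by linarith) (by linarith)
        exact mul_le_mul_of_nonneg_left this hC1.le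
      -- lam
      have e2 : ‖lam s‖ ≤ 2 * L := by
        have hpi : 3 < Real.pi := Real.pi_gt_three
        have l1 : 0 ≤ Real.log (s.im / (2 * Real.pi)) := by
          apply Real.log_nonneg
          rw [le_div_iff₀ (by positivity)]
          have : Real.pi < 3.15 := Real.pi_lt_d2
          linarith
        have l2 : Real.log (s.im / (2 * Real.pi)) ≤ L := by
          apply Real.log_le_log (by positivity)
          rw [div_le_iff₀ (by positivity)]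
          nlinarith
        have l3 : ‖((Real.log (s.im / (2 * Real.pi)) : ℝ) : ℂ)‖ ≤ L := by
          rw [Complex.norm_real, Real.norm_of_nonneg l1]
          exact l2
        have l4 : C2 / s.im ≤ 1 := by
          rw [div_le_one imp]
          linarith
        calc ‖lam s‖ = ‖(lam s - ((Real.log (s.im / (2 * Real.pi)) : ℝ) : ℂ)) +
              ((Real.log (s.im / (2 * Real.pi)) : ℝ) : ℂ)‖ := by rw [sub_add_cancel]
          _ ≤ ‖lam s - ((Real.log (s.im / (2 * Real.pi)) : ℝ) : ℂ)‖ +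
              ‖((Real.log (s.im / (2 * Real.pi)) : ℝ) : ℂ)‖ := norm_add_le _ _
          _ ≤ 1 + L := add_le_add (g5.trans l4) l3
          _ ≤ 2 * L := by linarith
      have hTd : 0 < T ^ d := Real.rpow_pos_of_pos hTp _
      have e3 : ‖lam s * riemannZeta s + deriv riemannZeta s‖ ≤ 3 * L * T ^ d := by
        calc ‖lam s * riemannZeta s + deriv riemannZeta s‖ ≤ ‖lam s‖ * ‖riemannZeta s‖ + ‖deriv riemannZeta s‖ := by
              refine (norm_add_le _ _).trans ?_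
              rw [norm_mul]
          _ ≤ 2 * L * T ^ d + 1 * T ^ d := by
              rw [one_mul]
              gcongr
          _ ≤ 2 * L * T ^ d + L * T ^ d := by gcongr
          _ = 3 * L * T ^ d := by ring
      have e4 : ‖Bp T (1 - s)‖ ≤ 4 * C3 * T ^ ((1 : ℝ) / 4) := by
        have hre : (1 - s).re = 1 - s.re := by simp
        refine shl_bp hC3 h10 (G3 T h10 (1 - s)).1 (G3 T h10 (1 - s)).2 ?_ ?_
        · rw [hre]
          linarith
        · rw [hre]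
          linarith
      unfold HL
      rw [div_eq_mul_inv, norm_mul, norm_mul, norm_mul, norm_pow]
      rw [hB]
      gcongr
  have key := rcg (HL T) t0 R (2 * d) (3 / 2) B hRp (by linarith) hq
  have hJ : ‖JL T (3 / 2) t0 - JL T (2 * d) t0‖ ≤
      2 * (3 / 2 - 2 * d) * Real.exp (max ((2 * d) ^ 2) ((3 / 2) ^ 2)) * Real.exp (-R ^ 2) * B := by
    rw [norm_sub_rev]
    exact key
  refine hJ.trans ?_
  have hB0 : 0 ≤ B := by positivity
  have m1 : Real.exp (max ((2 * d) ^ 2) ((3 / 2) ^ 2)) = Real.exp (9 / 4) := by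
    congr 1
    rw [max_eq_right (by nlinarith)]
    norm_num
  have m2 := shl_exp h10
  rw [← hL, ← hR] at m2
  -- the size of B
  have m3 : B ≤ (C1 * 3 ^ ((3 : ℝ) / 2) * (3 * 3) * (4 * C3)) * T ^ (2 : ℝ) := by
    have a1 : (3 * T) ^ ((3 : ℝ) / 2) = 3 ^ ((3 : ℝ) / 2) * T ^ ((3 : ℝ) / 2) := Real.mul_rpow (by norm_num) hTp.le
    have a2 : L ^ 2 ≤ T ^ ((1 : ℝ) / 16) := p5
    have a3 : T ^ ((3 : ℝ) / 2) * T ^ ((1 : ℝ) / 16) * T ^ d ^ 1 * T ^ d * T ^ d * T ^ ((1 : ℝ) / 4) ≤ T ^ (2 : ℝ) := by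
      rw [pow_one, ← Real.rpow_add hTp, ← Real.rpow_add hTp, ← Real.rpow_add hTp, ← Real.rpow_add hTp,
        ← Real.rpow_add hTp]
      exact Real.rpow_le_rpow_of_exponent_le hT1' (by linarith)
    rw [pow_one] at a3
    calc B = (C1 * 3 ^ ((3 : ℝ) / 2) * (3 * 3) * (4 * C3)) *
          (T ^ ((3 : ℝ) / 2) * L ^ 2 * T ^ d * T ^ d * T ^ d * T ^ ((1 : ℝ) / 4)) := by
          rw [hB, a1]
          ring
      _ ≤ (C1 * 3 ^ ((3 : ℝ) / 2) * (3 * 3) * (4 * C3)) *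
          (T ^ ((3 : ℝ) / 2) * T ^ ((1 : ℝ) / 16) * T ^ d * T ^ d * T ^ d * T ^ ((1 : ℝ) / 4)) := by gcongr
      _ ≤ _ := mul_le_mul_of_nonneg_left a3 (by positivity)
  have m4 : T ^ (-(4 : ℝ)) * T ^ (2 : ℝ) * T = T ^ (-(1 : ℝ)) := by
    rw [← Real.rpow_add hTp]
    nth_rewrite 2 [← Real.rpow_one T]
    rw [← Real.rpow_add hTp]
    norm_num
  rw [m1]
  calc 2 * (3 / 2 - 2 * d) * Real.exp (9 / 4) * Real.exp (-R ^ 2) * B
      ≤ 2 * (3 / 2) * Real.exp (9 / 4) * T ^ (-(4 : ℝ)) *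
        ((C1 * 3 ^ ((3 : ℝ) / 2) * (3 * 3) * (4 * C3)) * T ^ (2 : ℝ)) := by
        gcongr
        linarith
    _ = T ^ (-(4 : ℝ)) * T ^ (2 : ℝ) * K := by
        rw [hK]
        ring
    _ ≤ T ^ (-(4 : ℝ)) * T ^ (2 : ℝ) * T := by gcongr
    _ = T ^ (-(1 : ℝ)) := m4

end Pool.Agent.H24.WH
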