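import Pool.Agent.H24.WH.Defs

/-!
# [H24 WH RCG] contour shift with the Gaussian kernel, general lines

PROOF. As `Pool/Agent/H48/WN/Rct.lean` (`rct`): Cauchy's theorem on the rectangle `1/2 + x1 ≤ Re ≤ 1/2 + x2`, `|Im - t0| ≤ R` for
`exp((s - 1/2 - i t0)^2) q(s)`. On the horizontal sides `|exp(..)| = exp(x^2 - R^2) ≤ exp(max(x1^2, x2^2)) exp(-R^2)`.
-/

set_option autoImplicit false

namespace Pool.Agent.H24.WH

open Complex MeasureTheory Finset Pool.Agent.H48.WN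

private lemma rcg_sq {x1 x2 u : ℝ} (h1 : x1 ≤ u) (h2 : u ≤ x2) : u ^ 2 ≤ max (x1 ^ 2) (x2 ^ 2) := by
  rcases le_total 0 u with h | h
  · exact le_max_of_le_right (by nlinarith)
  · exact le_max_of_le_left (by nlinarith)

private lemma rcg_hor (q : ℂ → ℂ) (t0 R x1 x2 B c : ℝ) (h12 : x1 ≤ x2)
    (hB : 0 ≤ B) (hc : c ^ 2 = R ^ 2)
    (hq : ∀ s : ℂ, 1 / 2 + x1 ≤ s.re → s.re ≤ 1 / 2 + x2 → s.im = t0 + c → ‖q s‖ ≤ B) :
    ‖∫ x in (1 / 2 + x1)..(1 / 2 + x2), cexp (((x : ℂ) + ((t0 + c : ℝ) : ℂ) * I - ((1 / 2 : ℝ) + (t0 : ℂ) * I)) ^ 2) *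
      q ((x : ℂ) + ((t0 + c : ℝ) : ℂ) * I)‖ ≤
      (x2 - x1) * Real.exp (max (x1 ^ 2) (x2 ^ 2)) * Real.exp (-R ^ 2) * B := by
  have hb : ∀ x ∈ Set.uIoc (1 / 2 + x1) (1 / 2 + x2),
      ‖cexp (((x : ℂ) + ((t0 + c : ℝ) : ℂ) * I - ((1 / 2 : ℝ) + (t0 : ℂ) * I)) ^ 2) *
      q ((x : ℂ) + ((t0 + c : ℝ) : ℂ) * I)‖ ≤ Real.exp (max (x1 ^ 2) (x2 ^ 2)) * Real.exp (-R ^ 2) * B := by
    intro x hx
    rw [Set.uIoc_of_le (by linarith)] at hx
    rw [norm_mul]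
    have e1 : ((x : ℂ) + ((t0 + c : ℝ) : ℂ) * I - ((1 / 2 : ℝ) + (t0 : ℂ) * I)) =
        ((x - 1 / 2 : ℝ) : ℂ) + (c : ℂ) * I := by
      push_cast
      ring
    have e2 : ((((x - 1 / 2 : ℝ) : ℂ) + (c : ℂ) * I) ^ 2).re = (x - 1 / 2) ^ 2 - c ^ 2 := by
      have : (((x - 1 / 2 : ℝ) : ℂ) + (c : ℂ) * I) ^ 2 =
          (((x - 1 / 2) ^ 2 - c ^ 2 : ℝ) : ℂ) + ((2 * (x - 1 / 2) * c : ℝ) : ℂ) * I := by
        push_cast
        have hI : I ^ 2 = -1 := Complex.I_sq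
        linear_combination (c : ℂ) ^ 2 * hI
      rw [this, Complex.add_re, Complex.ofReal_re, Complex.re_ofReal_mul, Complex.I_re]
      ring
    have e3 : ‖cexp (((x : ℂ) + ((t0 + c : ℝ) : ℂ) * I - ((1 / 2 : ℝ) + (t0 : ℂ) * I)) ^ 2)‖ ≤
        Real.exp (max (x1 ^ 2) (x2 ^ 2)) * Real.exp (-R ^ 2) := by
      rw [e1, Complex.norm_exp, e2, hc, ← Real.exp_add]
      have h3 : (x - 1 / 2) ^ 2 ≤ max (x1 ^ 2) (x2 ^ 2) := rcg_sq (by linarith [hx.1]) (by linarith [hx.2])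
      apply Real.exp_le_exp.mpr
      linarith
    have e4 : ‖q ((x : ℂ) + ((t0 + c : ℝ) : ℂ) * I)‖ ≤ B := by
      apply hq
      · simp only [Complex.add_re, Complex.ofReal_re, Complex.re_ofReal_mul, Complex.I_re, mul_zero, add_zero]
        exact hx.1.le
      · simp only [Complex.add_re, Complex.ofReal_re, Complex.re_ofReal_mul, Complex.I_re, mul_zero, add_zero]
        exact hx.2
      · simp only [Complex.add_im, Complex.ofReal_im, Complex.im_ofReal_mul, Complex.I_im, mul_one, zero_add]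
    exact mul_le_mul e3 e4 (norm_nonneg _) (by positivity)
  have := intervalIntegral.norm_integral_le_of_norm_le_const hb
  refine this.trans (le_of_eq ?_)
  rw [abs_of_nonneg (by linarith : 0 ≤ 1 / 2 + x2 - (1 / 2 + x1))]
  ring

private lemma rcg_ver (q : ℂ → ℂ) (t0 R x : ℝ) :
    (∫ y in (t0 - R)..(t0 + R), cexp ((((1 / 2 + x : ℝ) : ℂ) + (y : ℂ) * I - ((1 / 2 : ℝ) + (t0 : ℂ) * I)) ^ 2) *
      q (((1 / 2 + x : ℝ) : ℂ) + (y : ℂ) * I)) =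
    ∫ y in (-R)..R, kk x y * q (pt x (t0 + y)) := by
  have key := intervalIntegral.integral_comp_add_left (a := -R) (b := R)
    (fun y : ℝ => cexp ((((1 / 2 + x : ℝ) : ℂ) + (y : ℂ) * I - ((1 / 2 : ℝ) + (t0 : ℂ) * I)) ^ 2) *
      q (((1 / 2 + x : ℝ) : ℂ) + (y : ℂ) * I)) t0
  rw [show t0 + -R = t0 - R by ring] at key
  rw [← key]
  apply intervalIntegral.integral_congr
  intro y _
  simp only [kk, pt]
  congr 3
  push_cast
  ring

theorem rcg (q : ℂ → ℂ) (t0 R x1 x2 B : ℝ) (hR : 0 < R) (h12 : x1 ≤ x2)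
    (hq : ∀ s : ℂ, 1 / 2 + x1 ≤ s.re → s.re ≤ 1 / 2 + x2 → |s.im - t0| ≤ R → DifferentiableAt ℂ q s ∧ ‖q s‖ ≤ B) :
    ‖(∫ y in (-R)..R, kk x1 y * q (pt x1 (t0 + y))) - ∫ y in (-R)..R, kk x2 y * q (pt x2 (t0 + y))‖ ≤
      2 * (x2 - x1) * Real.exp (max (x1 ^ 2) (x2 ^ 2)) * Real.exp (-R ^ 2) * B := by
  have hB : 0 ≤ B := by
    have := (hq (((1 / 2 + x1 : ℝ) : ℂ) + (t0 : ℂ) * I)
      (by simp only [Complex.add_re, Complex.ofReal_re, Complex.re_ofReal_mul, Complex.I_re, mul_zero, add_zero]; exact le_rfl)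
      (by simp only [Complex.add_re, Complex.ofReal_re, Complex.re_ofReal_mul, Complex.I_re, mul_zero, add_zero]; linarith)
      (by
        simp only [Complex.add_im, Complex.ofReal_im, Complex.im_ofReal_mul, Complex.I_im, mul_one, zero_add, sub_self,
          abs_zero]
        exact hR.le)).2
    exact (norm_nonneg _).trans this
  set F : ℂ → ℂ := fun s => cexp ((s - ((1 / 2 : ℝ) + (t0 : ℂ) * I)) ^ 2) * q s with hF
  have hd : DifferentiableOn ℂ F (Set.uIcc (((1 / 2 + x1 : ℝ) : ℂ) + ((t0 - R : ℝ) : ℂ) * I).re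
      (((1 / 2 + x2 : ℝ) : ℂ) + ((t0 + R : ℝ) : ℂ) * I).re ×ℂ
      Set.uIcc (((1 / 2 + x1 : ℝ) : ℂ) + ((t0 - R : ℝ) : ℂ) * I).im (((1 / 2 + x2 : ℝ) : ℂ) + ((t0 + R : ℝ) : ℂ) * I).im) := by
    intro s hs
    rw [Complex.mem_reProdIm] at hs
    simp only [Complex.add_re, Complex.ofReal_re, Complex.re_ofReal_mul, Complex.I_re, mul_zero, add_zero,
      Complex.add_im, Complex.ofReal_im, Complex.im_ofReal_mul, Complex.I_im, mul_one, zero_add] at hs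
    rw [Set.uIcc_of_le (by linarith), Set.uIcc_of_le (by linarith)] at hs
    have hq' := (hq s hs.1.1 hs.1.2 (by rw [abs_le]; constructor <;> linarith [hs.2.1, hs.2.2])).1
    apply DifferentiableAt.differentiableWithinAt
    apply DifferentiableAt.mul _ hq'
    fun_prop
  have key := Complex.integral_boundary_rect_eq_zero_of_differentiableOn F _ _ hd
  simp only [Complex.add_re, Complex.ofReal_re, Complex.re_ofReal_mul, Complex.I_re, mul_zero, add_zero,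
      Complex.add_im, Complex.ofReal_im, Complex.im_ofReal_mul, Complex.I_im, mul_one, zero_add] at key
  have hl := rcg_ver q t0 R x1
  have hr := rcg_ver q t0 R x2
  have hbot := rcg_hor q t0 R x1 x2 B (-R) h12 hB (by ring) (fun s a b c => (hq s a b (by
    rw [c]
    rw [show t0 + -R - t0 = -R by ring, abs_neg, abs_of_pos hR])).2)
  have htop := rcg_hor q t0 R x1 x2 B R h12 hB (by ring) (fun s a b c => (hq s a b (by
    rw [c]
    rw [show t0 + R - t0 = R by ring, abs_of_pos hR])).2)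
  rw [← hl, ← hr]
  rw [show t0 + -R = t0 - R by ring] at hbot
  simp only [hF] at key
  set P := ∫ x in (1 / 2 + x1)..(1 / 2 + x2), cexp (((x : ℂ) + ((t0 - R : ℝ) : ℂ) * I - ((1 / 2 : ℝ) + (t0 : ℂ) * I)) ^ 2) *
      q ((x : ℂ) + ((t0 - R : ℝ) : ℂ) * I) with hP
  set Q := ∫ x in (1 / 2 + x1)..(1 / 2 + x2), cexp (((x : ℂ) + ((t0 + R : ℝ) : ℂ) * I - ((1 / 2 : ℝ) + (t0 : ℂ) * I)) ^ 2) *
      q ((x : ℂ) + ((t0 + R : ℝ) : ℂ) * I) with hQ
  set U := ∫ y in (t0 - R)..(t0 + R), cexp ((((1 / 2 + x2 : ℝ) : ℂ) + (y : ℂ) * I - ((1 / 2 : ℝ) + (t0 : ℂ) * I)) ^ 2) *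
      q (((1 / 2 + x2 : ℝ) : ℂ) + (y : ℂ) * I) with hU
  set V := ∫ y in (t0 - R)..(t0 + R), cexp ((((1 / 2 + x1 : ℝ) : ℂ) + (y : ℂ) * I - ((1 / 2 : ℝ) + (t0 : ℂ) * I)) ^ 2) *
      q (((1 / 2 + x1 : ℝ) : ℂ) + (y : ℂ) * I) with hV
  have e : I * (V - U) = P - Q := by
    simp only [smul_eq_mul] at key
    linear_combination -key
  have e2 : ‖V - U‖ = ‖P - Q‖ := by
    rw [← e, norm_mul, Complex.norm_I, one_mul]
  rw [e2]
  calc ‖P - Q‖ ≤ ‖P‖ + ‖Q‖ := norm_sub_le _ _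
    _ ≤ (x2 - x1) * Real.exp (max (x1 ^ 2) (x2 ^ 2)) * Real.exp (-R ^ 2) * B +
        (x2 - x1) * Real.exp (max (x1 ^ 2) (x2 ^ 2)) * Real.exp (-R ^ 2) * B := add_le_add hbot htop
    _ = 2 * (x2 - x1) * Real.exp (max (x1 ^ 2) (x2 ^ 2)) * Real.exp (-R ^ 2) * B := by ring

end Pool.Agent.H24.WH
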