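import Pool.Agent.H24.WH.Bas
import Pool.Agent.H24.WH.Rcg
import Pool.Agent.H24.WH.Dls
import Pool.Agent.H24.WH.Grw

/-!
# [H24 WH TT1] the far right shift

PROOF. Take conjugates (`kk_conj`; `z = pt (2d) t`, `conj(1 - z) = pt (-2d) t =: s`, `lsy`): the integral is the conjugate of
`int kk (-2d) y · fb(s) (-lam s + Qp(1-s)) Bp(s) dy`, `s = pt (-2d) (t0+y)` (`conj(lam z) = lam s`, `conj (Qp z) = Qp (conj z) = Qp (1 - s)`).
`rcg` with `q(s) = fb(s)(-lam s + Qp(1-s)) Bp(s)`, `x1 = -2d`, `x2 = c - 1/2`, `c = (b + 4)/h`: analytic for `Im s ≥ T/2` (`stl` with `A = c`), crude bounds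
`T^(C(c,b))` times `e^(-L^4)`. On `Re s = c`: `fb = ζ Fb`, `|ζ| ≤ 2`, `|Fb| ≤ C T^((b+1/2+3h)(1-c)) L^2`, `|lam| ≤ 2L`, `|Qp(1-s)| ≤ T^((b+2h)c)(b+1) L`,
`|Bp| ≤ C 4^c T^(c/2)`; exponents: `(b+1/2+3h)(1-c) + (b+2h)c + c/2 = b + 1/2 + 3h - hc ≤ -2`.
-/

set_option autoImplicit false

namespace Pool.Agent.H24.WH

open Complex MeasureTheory Finset Pool.Agent.H48.WN

private noncomputable def tt1q (b h T : ℝ) (s : ℂ) : ℂ :=
  fb b h T s * (-lam s + Qp b h T (1 - s)) * Bp T s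

private theorem tt1_z (c : ℝ) (hc : 3 ≤ c) : ∃ C T0 : ℝ, 1 ≤ C ∧ 10 ≤ T0 ∧ ∀ s : ℂ, 1 / 8 ≤ s.re → s.re ≤ c →
    T0 ≤ s.im → ‖riemannZeta s‖ ≤ C * s.im ∧ ‖deriv riemannZeta s‖ ≤ C * s.im := by
  obtain ⟨C₁, hC₁, h₁⟩ := zeta_bd
  obtain ⟨C₂, T₂, hC₂, hT₂, h₂⟩ := grw c (by linarith)
  refine ⟨max C₁ C₂, T₂, hC₁.trans (le_max_left _ _), hT₂, fun s hs1 hs2 hs3 => ?_⟩
  have h0 : 0 ≤ s.im := by linarith
  rcases le_total s.re 3 with h3 | h3
  · obtain ⟨a, a'⟩ := h₁ s hs1 h3 (by linarith)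
    exact ⟨a.trans (mul_le_mul_of_nonneg_right (le_max_left _ _) h0),
      a'.trans (mul_le_mul_of_nonneg_right (le_max_left _ _) h0)⟩
  · obtain ⟨a, a', -, -⟩ := h₂ s (by linarith) hs2 hs3
    exact ⟨a.trans (mul_le_mul_of_nonneg_right (le_max_right _ _) h0),
      a'.trans (mul_le_mul_of_nonneg_right (le_max_right _ _) h0)⟩

private theorem tt1_lam (A : ℝ) : ∃ C T0 : ℝ, 1 ≤ C ∧ 10 ≤ T0 ∧ ∀ s : ℂ, |s.re| ≤ A → T0 ≤ s.im →
    DifferentiableAt ℂ lam s ∧ ‖lam s‖ ≤ C * s.im := by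
  obtain ⟨C₃, T₃, hC₃, hT₃, h₃⟩ := stl A
  refine ⟨C₃ + 1, T₃, by linarith, hT₃, fun z habs hT3 => ?_⟩
  obtain ⟨-, -, -, c1, c2⟩ := h₃ z habs hT3
  refine ⟨c1, ?_⟩
  have h10 : 10 ≤ z.im := hT₃.trans hT3
  have h0 : 0 < z.im := by linarith
  have h1 : 1 ≤ z.im := by linarith
  have e1 : ‖lam z‖ ≤ ‖lam z - ((Real.log (z.im / (2 * Real.pi)) : ℝ) : ℂ)‖ +
      ‖((Real.log (z.im / (2 * Real.pi)) : ℝ) : ℂ)‖ := by
    have h := norm_add_le (lam z - ((Real.log (z.im / (2 * Real.pi)) : ℝ) : ℂ))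
      ((Real.log (z.im / (2 * Real.pi)) : ℝ) : ℂ)
    rwa [sub_add_cancel] at h
  have hpi : 0 < 2 * Real.pi := by positivity
  have hpi7 : 2 * Real.pi < 10 := by nlinarith [Real.pi_lt_four]
  have e2 : 1 ≤ z.im / (2 * Real.pi) := (one_le_div hpi).2 (by linarith)
  have e3 : ‖((Real.log (z.im / (2 * Real.pi)) : ℝ) : ℂ)‖ ≤ z.im := by
    rw [Complex.norm_real, Real.norm_eq_abs, abs_of_nonneg (Real.log_nonneg e2)]
    have e4 := Real.log_le_sub_one_of_pos (x := z.im / (2 * Real.pi)) (by positivity)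
    have e5 : z.im / (2 * Real.pi) ≤ z.im :=
      div_le_self h0.le (by nlinarith [Real.pi_gt_three])
    linarith
  have e6 : C₃ / z.im ≤ C₃ * z.im := by
    rw [div_le_iff₀ h0]
    nlinarith [mul_le_mul h1 h1 zero_le_one h0.le, hC₃]
  nlinarith [e1, c2, e3, e6]

private theorem tt1_qp (b h T : ℝ) (z : ℂ) :
    Qp b h T ((starRingEnd ℂ) z) = (starRingEnd ℂ) (Qp b h T z) :=
  dp_conj (fun n => (ArithmeticFunction.vonMangoldt n : ℝ)) _ _ _ _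

private theorem tt1_qb (b h T : ℝ) (z : ℂ) :
    Qb b h T ((starRingEnd ℂ) z) = (starRingEnd ℂ) (Qb b h T z) :=
  dp_conj (fun n => (ArithmeticFunction.vonMangoldt n : ℝ)) _ _ _ _

private theorem tt1_fb (b h T : ℝ) (z : ℂ) :
    fb b h T ((starRingEnd ℂ) z) = (starRingEnd ℂ) (fb b h T z) := by
  unfold fb
  rw [map_add, map_mul, zeta_conj, dzeta_conj, tt1_qb]

private theorem tt1_conj (b h T c y t : ℝ) (ht : t ≠ 0) :
    kk c y * (fb b h T (1 - pt c t) * (-lam (pt c t) + Qp b h T (pt c t)) * Bp T (1 - pt c t)) =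
      (starRingEnd ℂ) (kk (-c) y * tt1q b h T (pt (-c) t)) := by
  have e1 : (starRingEnd ℂ) (pt (-c) t) = 1 - pt c t := by
    rw [← aux_refl' c t, Complex.conj_conj]
  have e2 : (starRingEnd ℂ) (1 - pt (-c) t) = pt c t := by
    rw [map_sub, map_one, e1, sub_sub_cancel]
  have e3 : (starRingEnd ℂ) (lam (pt (-c) t)) = lam (pt c t) := by
    rw [← lam_sym _ (by rw [pt_im]; exact ht), e1, sub_sub_cancel]
  unfold tt1q
  rw [map_mul, kk_conj, neg_neg, map_mul, map_mul, map_add, map_neg, ← tt1_fb, ← tt1_qp, ← bp_conj, e1, e2, e3]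

private theorem tt1_reg (b h c : ℝ) (hb : 1 ≤ b) (hh : 0 < h) (hh1 : h ≤ 1 / 100) (hc : 3 ≤ c) :
    ∃ C K T1 : ℝ, 0 < C ∧ 0 ≤ K ∧ 10 ≤ T1 ∧ ∀ T : ℝ, T1 ≤ T → ∀ s : ℂ, 1 / 8 ≤ s.re → s.re ≤ c →
      T / 2 ≤ s.im → s.im ≤ 3 * T → DifferentiableAt ℂ (tt1q b h T) s ∧ ‖tt1q b h T s‖ ≤ C * T ^ K := by
  obtain ⟨C₁, T₁, hC₁, hT₁, H₁⟩ := tt1_z c hc
  obtain ⟨C₂, T₂, hC₂, hT₂, H₂⟩ := tt1_lam c
  obtain ⟨C₃, hC₃, H₃⟩ := dls_bp
  have H₄ := dls_crude b h hb hh hh1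
  refine ⟨(3 * C₁ * (b + 2)) * (3 * C₂ + b + 1) * (C₃ * 4 ^ c), (b + 3) + ((b + 2 * h) * c + 1) + c / 2,
    2 * (T₁ + T₂), by positivity, by positivity, by linarith, fun T hT s hs1 hs2 hs3 hs4 => ?_⟩
  have h10 : 10 ≤ T := by linarith
  have hTp : 0 < T := by linarith
  have h1T : 1 ≤ T := by linarith
  have him : 0 < s.im := by linarith
  have hs' : s.im ≠ 0 := him.ne'
  have habs : |s.re| ≤ c := abs_le.2 ⟨by linarith, hs2⟩
  obtain ⟨a1, a2⟩ := H₁ s hs1 hs2 (by linarith)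
  obtain ⟨b1, b2⟩ := H₂ s habs (by linarith)
  obtain ⟨c1, -⟩ := H₃ T h10 s
  have c1 := c1 (by linarith)
  obtain ⟨-, d1⟩ := H₄ T h10 s 0 le_rfl (by linarith)
  obtain ⟨d2, -⟩ := H₄ T h10 (1 - s) (c - 1) (by linarith) (by
    rw [Complex.sub_re, Complex.one_re]
    linarith)
  rw [sub_add_cancel] at d2
  rw [zero_add, mul_one] at d1
  have hlog : Real.log T ≤ T := (Real.log_le_sub_one_of_pos hTp).trans (by linarith)
  have hlog0 : 0 ≤ Real.log T := Real.log_nonneg h1T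
  constructor
  · unfold tt1q fb
    refine DifferentiableAt.mul (DifferentiableAt.mul ?_ ?_) (aux_bp T s)
    · exact ((aux_z (aux_ne hs')).mul (aux_qb b h T s)).add (aux_dz (aux_ne hs'))
    · exact b1.neg.add (DifferentiableAt.comp s (aux_qp b h T (1 - s)) ((differentiableAt_const _).sub differentiableAt_id))
  · have f1 : ‖fb b h T s‖ ≤ (3 * C₁ * (b + 2)) * T ^ (b + 3) := by
      unfold fb
      have e1 : ‖riemannZeta s‖ ≤ 3 * C₁ * T := a1.trans (by nlinarith)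
      have e2 : ‖deriv riemannZeta s‖ ≤ 3 * C₁ * T := a2.trans (by nlinarith)
      have e3 : ‖Qb b h T s‖ ≤ (b + 1) * T ^ (b + 2) := by
        refine d1.trans ?_
        have g1 : T ^ (b + 1 / 2 + 4 * h) ≤ T ^ (b + 1) := Real.rpow_le_rpow_of_exponent_le h1T (by linarith)
        have g2 : T ^ (b + 2) = T ^ (b + 1) * T := by
          rw [← Real.rpow_add_one hTp.ne']
          congr 1
          ring
        rw [g2]
        have g3 : 0 < T ^ (b + 1) := Real.rpow_pos_of_pos hTp _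
        calc T ^ (b + 1 / 2 + 4 * h) * (b + 1) * Real.log T ≤ T ^ (b + 1) * (b + 1) * T :=
              mul_le_mul (mul_le_mul_of_nonneg_right g1 (by linarith)) hlog hlog0 (by positivity)
          _ = (b + 1) * (T ^ (b + 1) * T) := by ring
      have g2 : T ^ (b + 3) = T ^ (b + 2) * T := by
        rw [← Real.rpow_add_one hTp.ne']
        congr 1
        ring
      have g3 : 1 ≤ T ^ (b + 2) := Real.one_le_rpow h1T (by linarith)
      calc ‖riemannZeta s * Qb b h T s + deriv riemannZeta s‖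
          ≤ ‖riemannZeta s‖ * ‖Qb b h T s‖ + ‖deriv riemannZeta s‖ := by
            rw [← norm_mul]
            exact norm_add_le _ _
        _ ≤ (3 * C₁ * T) * ((b + 1) * T ^ (b + 2)) + (3 * C₁ * T) * T ^ (b + 2) := by
            refine add_le_add (mul_le_mul e1 e3 (norm_nonneg _) (by positivity)) (e2.trans ?_)
            exact le_mul_of_one_le_right (by positivity) g3
        _ = (3 * C₁ * (b + 2)) * T ^ (b + 3) := by rw [g2]; ring
    have f2 : ‖-lam s + Qp b h T (1 - s)‖ ≤ (3 * C₂ + b + 1) * T ^ ((b + 2 * h) * c + 1) := by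
      have g2 : T ^ ((b + 2 * h) * c + 1) = T ^ ((b + 2 * h) * c) * T := Real.rpow_add_one hTp.ne' _
      have g3 : 1 ≤ T ^ ((b + 2 * h) * c) := Real.one_le_rpow h1T (by positivity)
      calc ‖-lam s + Qp b h T (1 - s)‖ ≤ ‖lam s‖ + ‖Qp b h T (1 - s)‖ := by
            rw [← norm_neg (lam s)]
            exact norm_add_le _ _
        _ ≤ (3 * C₂) * (T ^ ((b + 2 * h) * c) * T) + (b + 1) * (T ^ ((b + 2 * h) * c) * T) := by
            refine add_le_add ?_ ?_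
            · refine (b2.trans (by nlinarith : C₂ * s.im ≤ (3 * C₂) * T)).trans ?_
              exact mul_le_mul_of_nonneg_left (le_mul_of_one_le_left hTp.le g3) (by positivity)
            · calc ‖Qp b h T (1 - s)‖ ≤ T ^ ((b + 2 * h) * c) * (b + 1) * Real.log T := d2
                _ ≤ T ^ ((b + 2 * h) * c) * (b + 1) * T := mul_le_mul_of_nonneg_left hlog (by positivity)
                _ = _ := by ring
        _ = _ := by rw [g2]; ring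
    have f3 : ‖Bp T s‖ ≤ (C₃ * 4 ^ c) * T ^ (c / 2) := by
      refine c1.trans ?_
      have g1 : (4 : ℝ) ^ s.re ≤ 4 ^ c := Real.rpow_le_rpow_of_exponent_le (by norm_num) hs2
      have g2 : T ^ (s.re / 2) ≤ T ^ (c / 2) := Real.rpow_le_rpow_of_exponent_le h1T (by linarith)
      exact mul_le_mul (mul_le_mul_of_nonneg_left g1 hC₃.le) g2 (by positivity) (by positivity)
    unfold tt1q
    rw [norm_mul, norm_mul]
    calc ‖fb b h T s‖ * ‖-lam s + Qp b h T (1 - s)‖ * ‖Bp T s‖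
        ≤ ((3 * C₁ * (b + 2)) * T ^ (b + 3)) * ((3 * C₂ + b + 1) * T ^ ((b + 2 * h) * c + 1)) *
            ((C₃ * 4 ^ c) * T ^ (c / 2)) :=
          mul_le_mul (mul_le_mul f1 f2 (norm_nonneg _) (by positivity)) f3 (norm_nonneg _) (by positivity)
      _ = (3 * C₁ * (b + 2)) * (3 * C₂ + b + 1) * (C₃ * 4 ^ c) *
            (T ^ (b + 3) * T ^ ((b + 2 * h) * c + 1) * T ^ (c / 2)) := by ring
      _ = _ := by rw [← Real.rpow_add hTp, ← Real.rpow_add hTp]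

private theorem tt1_line (b h c : ℝ) (hb : 1 ≤ b) (hh : 0 < h) (hh1 : h ≤ 1 / 100) (hc : 3 ≤ c)
    (hhc : h * c = b + 4) :
    ∃ C T1 : ℝ, 0 < C ∧ 10 ≤ T1 ∧ ∀ T : ℝ, T1 ≤ T → ∀ s : ℂ, s.re = c →
      T / 2 ≤ s.im → s.im ≤ 3 * T → ‖tt1q b h T s‖ ≤ C * T ^ (-(12 / 5) : ℝ) * (Real.log T) ^ 3 := by
  obtain ⟨C₁, T₁, hC₁, hT₁, H₁⟩ := tt1_z c hc
  obtain ⟨C₂, T₂, hC₂, hT₂, H₂⟩ := tt1_lam c
  obtain ⟨C₃, hC₃, H₃⟩ := dls_bp
  have H₄ := dls_crude b h hb hh hh1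
  obtain ⟨C₅, hC₅, H₅⟩ := dls_F b h hb hh hh1
  refine ⟨(3 * C₁ * C₅) * (3 * C₂ + b + 1) * (C₃ * 4 ^ c), 2 * (T₁ + T₂), by positivity, by linarith,
    fun T hT s hs1 hs3 hs4 => ?_⟩
  have h10 : 10 ≤ T := by linarith
  have hTp : 0 < T := by linarith
  have h1T : 1 ≤ T := by linarith
  have him : 0 < s.im := by linarith
  have hs2 : s.re ≤ c := hs1.le
  have habs : |s.re| ≤ c := abs_le.2 ⟨by linarith, hs2⟩
  obtain ⟨a1, a2⟩ := H₁ s (by linarith) hs2 (by linarith)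
  obtain ⟨b1, b2⟩ := H₂ s habs (by linarith)
  obtain ⟨c1, -⟩ := H₃ T h10 s
  have c1 := c1 (by linarith)
  obtain ⟨-, d1⟩ := H₅ T h10 s (by linarith)
  obtain ⟨d2, -⟩ := H₄ T h10 (1 - s) (c - 1) (by linarith) (by
    rw [Complex.sub_re, Complex.one_re]
    linarith)
  rw [sub_add_cancel] at d2
  rw [hs1] at d1 c1
  have hL1 : 1 ≤ Real.log T := by
    rw [Real.le_log_iff_exp_le hTp]
    have := Real.exp_one_lt_d9
    linarith
  have hL0 : 0 ≤ Real.log T := by linarith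
  have hz : riemannZeta s ≠ 0 := riemannZeta_ne_zero_of_one_le_re (by linarith)
  have f1 : ‖fb b h T s‖ ≤ (3 * C₁ * C₅) * (T * T ^ ((b + 1 / 2 + 3 * h) * (1 - c))) * (Real.log T) ^ 2 := by
    have e1 : ‖riemannZeta s‖ ≤ 3 * C₁ * T := a1.trans (by nlinarith)
    have e2 : fb b h T s = riemannZeta s * Fb b h T s := by
      unfold fb Fb
      field_simp
    rw [e2, norm_mul]
    calc ‖riemannZeta s‖ * ‖Fb b h T s‖ ≤ (3 * C₁ * T) *
          (C₅ * T ^ ((b + 1 / 2 + 3 * h) * (1 - c)) * (Real.log T) ^ 2) :=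
          mul_le_mul e1 d1 (norm_nonneg _) (by positivity)
      _ = _ := by ring
  have f2 : ‖-lam s + Qp b h T (1 - s)‖ ≤ (3 * C₂ + b + 1) * T ^ ((b + 2 * h) * c) * Real.log T := by
    have g3 : T ≤ T ^ ((b + 2 * h) * c) := by
      have : (1 : ℝ) ≤ (b + 2 * h) * c := by nlinarith
      calc T = T ^ (1 : ℝ) := (Real.rpow_one T).symm
        _ ≤ _ := Real.rpow_le_rpow_of_exponent_le h1T this
    calc ‖-lam s + Qp b h T (1 - s)‖ ≤ ‖lam s‖ + ‖Qp b h T (1 - s)‖ := by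
          rw [← norm_neg (lam s)]
          exact norm_add_le _ _
      _ ≤ (3 * C₂) * (T ^ ((b + 2 * h) * c) * Real.log T) + T ^ ((b + 2 * h) * c) * (b + 1) * Real.log T := by
          refine add_le_add ?_ d2
          refine (b2.trans (by nlinarith : C₂ * s.im ≤ (3 * C₂) * T)).trans ?_
          refine mul_le_mul_of_nonneg_left (g3.trans ?_) (by positivity)
          exact le_mul_of_one_le_right (by positivity) hL1
      _ = _ := by ring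
  unfold tt1q
  rw [norm_mul, norm_mul]
  have hexp : T * T ^ ((b + 1 / 2 + 3 * h) * (1 - c)) * T ^ ((b + 2 * h) * c) * T ^ (c / 2) ≤
      T ^ (-(12 / 5) : ℝ) := by
    have e1 : T * T ^ ((b + 1 / 2 + 3 * h) * (1 - c)) * T ^ ((b + 2 * h) * c) * T ^ (c / 2) =
        T ^ (1 + (b + 1 / 2 + 3 * h) * (1 - c) + (b + 2 * h) * c + c / 2) := by
      rw [Real.rpow_add hTp, Real.rpow_add hTp, Real.rpow_add hTp, Real.rpow_one]
    rw [e1]
    apply Real.rpow_le_rpow_of_exponent_le h1T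
    nlinarith
  have hC : 0 ≤ (3 * C₁ * C₅) * (3 * C₂ + b + 1) * (C₃ * 4 ^ c) := by positivity
  calc ‖fb b h T s‖ * ‖-lam s + Qp b h T (1 - s)‖ * ‖Bp T s‖
      ≤ ((3 * C₁ * C₅) * (T * T ^ ((b + 1 / 2 + 3 * h) * (1 - c))) * (Real.log T) ^ 2) *
          ((3 * C₂ + b + 1) * T ^ ((b + 2 * h) * c) * Real.log T) * (C₃ * 4 ^ c * T ^ (c / 2)) :=
        mul_le_mul (mul_le_mul f1 f2 (norm_nonneg _) (by positivity)) c1 (norm_nonneg _) (by positivity)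
    _ = (3 * C₁ * C₅) * (3 * C₂ + b + 1) * (C₃ * 4 ^ c) *
          (T * T ^ ((b + 1 / 2 + 3 * h) * (1 - c)) * T ^ ((b + 2 * h) * c) * T ^ (c / 2)) * (Real.log T) ^ 3 := by
        ring
    _ ≤ _ := mul_le_mul_of_nonneg_right (mul_le_mul_of_nonneg_left hexp hC) (by positivity)

theorem tt1 (b h d : ℝ) (hb : 1 ≤ b) (hh : 0 < h) (hh1 : h ≤ 1 / 100) (hd : 0 < d) (hd1 : d ≤ 1 / 32) :
    ∃ T0 : ℝ, 10 ≤ T0 ∧ ∀ T : ℝ, T0 ≤ T → ∀ t0 : ℝ, T ≤ t0 → t0 ≤ 2 * T →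
      ‖∫ y in (-(Real.log T) ^ 2)..((Real.log T) ^ 2), kk (2 * d) y *
        (fb b h T (1 - pt (2 * d) (t0 + y)) * (-lam (pt (2 * d) (t0 + y)) + Qp b h T (pt (2 * d) (t0 + y))) *
          Bp T (1 - pt (2 * d) (t0 + y)))‖ ≤ T ^ (-(1 : ℝ)) := by
  obtain ⟨c, hc⟩ : ∃ c, c = (b + 4) / h := ⟨_, rfl⟩
  have hhc : h * c = b + 4 := by
    rw [hc]
    field_simp
  have hc3 : 3 ≤ c := by
    rw [hc, le_div_iff₀ hh]
    nlinarith
  obtain ⟨C₁, K, T₁, hC₁, hK, hT₁, H₁⟩ := tt1_reg b h c hb hh hh1 hc3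
  obtain ⟨C₂, T₂, hC₂, hT₂, H₂⟩ := tt1_line b h c hb hh hh1 hc3 hhc
  obtain ⟨T₃, hT₃, H₃⟩ := aux_win 1 one_pos
  obtain ⟨T₄, hT₄, H₄⟩ := aux_log (4 * Real.exp ((c - 1 / 2) ^ 2) * C₂) (1 / 5) 5 (by norm_num)
  obtain ⟨E, hE⟩ : ∃ E, E = 2 * ((c - 1 / 2) - (-(2 * d))) *
    Real.exp (max ((-(2 * d)) ^ 2) ((c - 1 / 2) ^ 2)) * C₁ := ⟨_, rfl⟩
  refine ⟨T₁ + T₂ + T₃ + T₄ + 2 * |E| + Real.exp (K + 3), ?_, fun T hT t0 ht1 ht2 => ?_⟩
  · have := Real.exp_pos (K + 3)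
    have := abs_nonneg E
    linarith
  have hexp := Real.exp_pos (K + 3)
  have habsE := abs_nonneg E
  have h10 : 10 ≤ T := by linarith
  have hTp : 0 < T := by linarith
  have h1T : 1 ≤ T := by linarith
  obtain ⟨hL1, -, hW⟩ := H₃ T (by linarith)
  have hL4 := H₄ T (by linarith)
  have hLK : K + 3 ≤ Real.log T := by
    rw [Real.le_log_iff_exp_le hTp]
    linarith
  obtain ⟨L, hL⟩ : ∃ L, L = Real.log T := ⟨_, rfl⟩
  rw [← hL] at hL1 hW hL4 hLK ⊢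
  have hR : 0 < L ^ 2 := by positivity
  have hyT : ∀ y : ℝ, |y| ≤ L ^ 2 → T / 2 ≤ t0 + y ∧ t0 + y ≤ 3 * T := by
    intro y hy
    rw [abs_le] at hy
    constructor <;> linarith [hy.1, hy.2]
  have hconj : (∫ y in (-L ^ 2)..(L ^ 2), kk (2 * d) y *
        (fb b h T (1 - pt (2 * d) (t0 + y)) * (-lam (pt (2 * d) (t0 + y)) + Qp b h T (pt (2 * d) (t0 + y))) *
          Bp T (1 - pt (2 * d) (t0 + y)))) =
      (starRingEnd ℂ) (∫ y in (-L ^ 2)..(L ^ 2), kk (-(2 * d)) y * tt1q b h T (pt (-(2 * d)) (t0 + y))) := by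
    rw [← intervalIntegral.intervalIntegral_conj]
    apply intervalIntegral.integral_congr
    intro y hy
    rw [Set.uIcc_of_le (by linarith)] at hy
    dsimp only
    have h1 := hyT y (abs_le.2 hy)
    exact tt1_conj b h T (2 * d) y (t0 + y) (by linarith [h1.1] : t0 + y > 0).ne'
  rw [hconj, RCLike.norm_conj]
  have hreg : ∀ s : ℂ, 1 / 2 + -(2 * d) ≤ s.re → s.re ≤ 1 / 2 + (c - 1 / 2) → |s.im - t0| ≤ L ^ 2 →
      DifferentiableAt ℂ (tt1q b h T) s ∧ ‖tt1q b h T s‖ ≤ C₁ * T ^ K := by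
    intro s h1 h2 h3
    have h4 := hyT (s.im - t0) h3
    rw [add_sub_cancel] at h4
    exact H₁ T (by linarith) s (by linarith) (by linarith) h4.1 h4.2
  have key := rcg (tt1q b h T) t0 (L ^ 2) (-(2 * d)) (c - 1 / 2) (C₁ * T ^ K) hR (by linarith) hreg
  have hfar : ‖∫ y in (-L ^ 2)..(L ^ 2), kk (c - 1 / 2) y * tt1q b h T (pt (c - 1 / 2) (t0 + y))‖ ≤
      T ^ (-(2 : ℝ)) / 2 := by
    have hb1 : ∀ y ∈ Set.uIoc (-L ^ 2) (L ^ 2), ‖kk (c - 1 / 2) y * tt1q b h T (pt (c - 1 / 2) (t0 + y))‖ ≤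
        Real.exp ((c - 1 / 2) ^ 2) * (C₂ * T ^ (-(12 / 5) : ℝ) * L ^ 3) := by
      intro y hy
      rw [Set.uIoc_of_le (by linarith)] at hy
      have h1 := hyT y (abs_le.2 ⟨hy.1.le, hy.2⟩)
      rw [norm_mul, kk_norm, hL]
      refine mul_le_mul ?_ ?_ (norm_nonneg _) (Real.exp_pos _).le
      · apply Real.exp_le_exp.2
        nlinarith [sq_nonneg y]
      · refine H₂ T (by linarith) _ ?_ ?_ ?_
        · rw [pt_re]
          ring
        · rw [pt_im]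
          exact h1.1
        · rw [pt_im]
          exact h1.2
    have h2 := intervalIntegral.norm_integral_le_of_norm_le_const hb1
    refine h2.trans ?_
    rw [show L ^ 2 - -L ^ 2 = 2 * L ^ 2 by ring, abs_of_pos (by positivity)]
    have h3 : T ^ (-(2 : ℝ)) = T ^ (-(12 / 5) : ℝ) * (T ^ (1 / 5 : ℝ) * T ^ (1 / 5 : ℝ)) := by
      rw [← Real.rpow_add hTp, ← Real.rpow_add hTp]
      congr 1
      norm_num
    have h4 : 1 ≤ T ^ (1 / 5 : ℝ) := Real.one_le_rpow h1T (by norm_num)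
    have h5 : 0 < T ^ (-(12 / 5) : ℝ) := Real.rpow_pos_of_pos hTp _
    have h6 : 4 * Real.exp ((c - 1 / 2) ^ 2) * C₂ * L ^ 5 ≤ T ^ (1 / 5 : ℝ) * T ^ (1 / 5 : ℝ) :=
      hL4.trans (le_mul_of_one_le_right (by positivity) h4)
    rw [h3]
    calc Real.exp ((c - 1 / 2) ^ 2) * (C₂ * T ^ (-(12 / 5) : ℝ) * L ^ 3) * (2 * L ^ 2)
        = T ^ (-(12 / 5) : ℝ) * (4 * Real.exp ((c - 1 / 2) ^ 2) * C₂ * L ^ 5) / 2 := by ring
      _ ≤ _ := by
        have := mul_le_mul_of_nonneg_left h6 h5.le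
        linarith
  have hnear : 2 * ((c - 1 / 2) - (-(2 * d))) * Real.exp (max ((-(2 * d)) ^ 2) ((c - 1 / 2) ^ 2)) *
      Real.exp (-(L ^ 2) ^ 2) * (C₁ * T ^ K) ≤ T ^ (-(2 : ℝ)) / 2 := by
    have h1 : Real.exp (-(L ^ 2) ^ 2) * T ^ K ≤ T ^ (-(3 : ℝ)) := by
      rw [Real.rpow_def_of_pos hTp, Real.rpow_def_of_pos hTp, ← Real.exp_add, ← hL]
      apply Real.exp_le_exp.2
      have e1 : L ≤ L ^ 3 := by nlinarith [mul_le_mul hL1 hL1 zero_le_one (by linarith : 0 ≤ L)]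
      have e2 : (K + 3) * L ≤ L ^ 4 := by
        calc (K + 3) * L ≤ L ^ 3 * L := mul_le_mul_of_nonneg_right (hLK.trans e1) (by linarith)
          _ = L ^ 4 := by ring
      have e3 : (L ^ 2) ^ 2 = L ^ 4 := by ring
      rw [e3]
      linarith
    have h2 : T ^ (-(2 : ℝ)) = T ^ (-(3 : ℝ)) * T := by
      rw [← Real.rpow_add_one hTp.ne']
      congr 1
      norm_num
    have h3 : 0 < T ^ (-(3 : ℝ)) := Real.rpow_pos_of_pos hTp _
    have h4 : 2 * |E| ≤ T := by linarith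
    calc 2 * ((c - 1 / 2) - (-(2 * d))) * Real.exp (max ((-(2 * d)) ^ 2) ((c - 1 / 2) ^ 2)) *
          Real.exp (-(L ^ 2) ^ 2) * (C₁ * T ^ K) = E * (Real.exp (-(L ^ 2) ^ 2) * T ^ K) := by
          rw [hE]
          ring
      _ ≤ |E| * T ^ (-(3 : ℝ)) := mul_le_mul (le_abs_self E) h1 (by positivity) habsE
      _ ≤ T ^ (-(3 : ℝ)) * T / 2 := by nlinarith
      _ = _ := by rw [h2]
  have h21 : T ^ (-(2 : ℝ)) ≤ T ^ (-(1 : ℝ)) := Real.rpow_le_rpow_of_exponent_le h1T (by norm_num)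
  have htri := norm_add_le ((∫ y in (-L ^ 2)..(L ^ 2), kk (-(2 * d)) y * tt1q b h T (pt (-(2 * d)) (t0 + y))) -
    ∫ y in (-L ^ 2)..(L ^ 2), kk (c - 1 / 2) y * tt1q b h T (pt (c - 1 / 2) (t0 + y)))
    (∫ y in (-L ^ 2)..(L ^ 2), kk (c - 1 / 2) y * tt1q b h T (pt (c - 1 / 2) (t0 + y)))
  rw [sub_add_cancel] at htri
  linarith [key.trans hnear]

end Pool.Agent.H24.WH
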