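import Pool.Agent.H24.WH.Rcg
import Pool.Agent.H24.WH.Dls
import Pool.Agent.H24.WH.Grw
import Pool.Agent.H24.WH.Bas

/-!
# [H24 WH TT3] the far left shift

PROOF. `rcg` with `q(z) = fa(1-z) Fb(z) Bp(1-z)`, `x1 = 2d`, `x2 = c - 1/2`, `c = (b + 10)/h`: `Fb` is analytic on the rectangle by `GH` for `Re z ≤ 2` (there `|ζ'/ζ| ≤ T^(2d)`) and
always for `Re z > 1`. `fa(1-z) = ζ(1-z) Qp(1-z) + ζ'(1-z)`, bounds by `grw` (`A = c`) and `dls_crude`. On `Re z = c`: `|ζ(1-z)|, |ζ'(1-z)| ≤ C (3T)^(c+2)` (`grw`),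
`|Qp(1-z)| ≤ T^((b+2h)c)(b+1)L`, `|Fb| ≤ C T^((b+1/2+3h)(1-c)) L^2`, `|Bp(1-z)| ≤ C 2^c T^((1-c)/2)`:
exponent `c + 2 + (b+2h)c + (b+1/2+3h)(1-c) + (1-c)/2 = b + 3 + 3h - hc = -7 + 3h`.
-/

set_option autoImplicit false

namespace Pool.Agent.H24.WH

open Complex MeasureTheory Finset Pool.Agent.H48.WN

/-- the integrand of the shift -/
private noncomputable def t3q (b h T : ℝ) (z : ℂ) : ℂ := fa b h T (1 - z) * Fb b h T z * Bp T (1 - z)

private lemma t3_diff (b h T : ℝ) {z : ℂ} (hz : z.im ≠ 0) (h0 : riemannZeta z ≠ 0) :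
    DifferentiableAt ℂ (t3q b h T) z := by
  have h1 : DifferentiableAt ℂ (fun z : ℂ => 1 - z) z := by fun_prop
  have hz1 := aux_ne hz
  have hz2 := aux_ne' hz
  have hfa : DifferentiableAt ℂ (fa b h T) (1 - z) := by
    unfold fa
    exact ((aux_z hz2).mul (aux_qp b h T).differentiableAt).add (aux_dz hz2)
  have hFb : DifferentiableAt ℂ (Fb b h T) z := by
    unfold Fb
    exact ((aux_qb b h T).differentiableAt).add ((aux_dz hz1).div (aux_z hz1) h0)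
  have hBp : DifferentiableAt ℂ (Bp T) (1 - z) := (aux_bp T).differentiableAt
  have c1 : DifferentiableAt ℂ (fun w : ℂ => fa b h T (1 - w)) z := DifferentiableAt.comp z hfa h1
  have c2 : DifferentiableAt ℂ (fun w : ℂ => Bp T (1 - w)) z :=
    DifferentiableAt.comp (f := fun w : ℂ => 1 - w) (g := Bp T) z hBp h1
  exact (c1.mul hFb).mul c2

private lemma t3_fa {Cg Tg c : ℝ} (hCg : 1 ≤ Cg) (hc : 1 ≤ c)
    (hg : ∀ z : ℂ, 1 / 2 ≤ z.re → z.re ≤ c → Tg ≤ z.im →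
      ‖riemannZeta z‖ ≤ Cg * z.im ∧ ‖deriv riemannZeta z‖ ≤ Cg * z.im ∧ ‖riemannZeta (1 - z)‖ ≤ Cg * z.im ^ (c + 1) ∧
      ‖deriv riemannZeta (1 - z)‖ ≤ Cg * z.im ^ (c + 2))
    {b h T : ℝ} (hb : 1 ≤ b) (hh : 0 < h) (hh1 : h ≤ 1 / 100) (hT : 10 ≤ T) (hL : 1 ≤ Real.log T) {z : ℂ}
    (h1 : 1 / 2 ≤ z.re) (h2 : z.re ≤ c) (h3 : Tg ≤ z.im) (h4 : z.im ≤ 3 * T) (h5 : 0 ≤ z.im) {A : ℝ}
    (hA : 0 ≤ A) (hA2 : z.re ≤ 1 + A) :
    ‖fa b h T (1 - z)‖ ≤ Cg * (3 * T) ^ (c + 2) * (T ^ ((b + 2 * h) * (A + 1)) * ((b + 2) * Real.log T)) := by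
  obtain ⟨-, -, g1, g2⟩ := hg z h1 h2 h3
  have hq := (dls_crude b h hb hh hh1 T hT (1 - z) A hA (by rw [sub_re, one_re]; linarith)).1
  have a1 : ‖riemannZeta (1 - z)‖ ≤ Cg * (3 * T) ^ (c + 2) := by
    refine g1.trans (mul_le_mul_of_nonneg_left ?_ (by linarith))
    refine (Real.rpow_le_rpow h5 h4 (by linarith)).trans ?_
    exact Real.rpow_le_rpow_of_exponent_le (by linarith) (by linarith)
  have a2 : ‖deriv riemannZeta (1 - z)‖ ≤ Cg * (3 * T) ^ (c + 2) :=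
    g2.trans (mul_le_mul_of_nonneg_left (Real.rpow_le_rpow h5 h4 (by linarith)) (by linarith))
  have hP : 1 ≤ T ^ ((b + 2 * h) * (A + 1)) := Real.one_le_rpow (by linarith) (by positivity)
  set W := Cg * (3 * T) ^ (c + 2) with hW
  have hW0 : 0 ≤ W := by rw [hW]; positivity
  set P := T ^ ((b + 2 * h) * (A + 1)) with hPd
  unfold fa
  have n1 : ‖riemannZeta (1 - z) * Qp b h T (1 - z)‖ ≤ W * (P * (b + 1) * Real.log T) := by
    rw [norm_mul]
    exact mul_le_mul a1 hq (norm_nonneg _) hW0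
  refine (norm_add_le _ _).trans ?_
  have hPL : 1 ≤ P * Real.log T := by nlinarith
  have : W * (P * ((b + 2) * Real.log T)) = W * (P * (b + 1) * Real.log T) + W * (P * Real.log T) := by ring
  rw [this]
  have h6 : W ≤ W * (P * Real.log T) := by nlinarith
  linarith

private lemma t3_fb {CF : ℝ} {b h d κ T t0 : ℝ} (hb : 1 ≤ b) (hh : 0 < h) (hh1 : h ≤ 1 / 100) (hd : 0 < d)
    (hd1 : d ≤ 1 / 32)
    (hF : ∀ s : ℂ, 2 ≤ s.re → ‖Fb b h T s‖ ≤ CF * T ^ ((b + 1 / 2 + 3 * h) * (1 - s.re)) * (Real.log T) ^ 2)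
    (hT : 10 ≤ T) (hL : 1 ≤ Real.log T) (hCF : 0 < CF) (hCFT : CF ≤ T) (hbT : b + 1 ≤ T)
    (hG : GH d κ T t0) {z : ℂ} (h1 : 1 / 2 + 2 * d ≤ z.re) (h2 : |z.im - t0| ≤ T ^ κ - 1) :
    riemannZeta z ≠ 0 ∧ ‖Fb b h T z‖ ≤ T ^ (b + 1 / 2 + 4 * h + 3) := by
  have hLT : Real.log T ≤ T := (Real.log_le_sub_one_of_pos (by linarith)).trans (by linarith)
  have hT3 : T * (T * T) ≤ T ^ (b + 1 / 2 + 4 * h + 3) := by
    have : T * (T * T) = T ^ (3 : ℝ) := by
      rw [show (3 : ℝ) = ((3 : ℕ) : ℝ) by norm_num, Real.rpow_natCast]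
      ring
    rw [this]
    exact Real.rpow_le_rpow_of_exponent_le (by linarith) (by linarith)
  rcases le_total z.re 2 with hz | hz
  · obtain ⟨g0, -, g2, g3⟩ := hG z h1 hz h2
    refine ⟨g0, ?_⟩
    have hTd : T ^ d ≤ T := by
      conv_rhs => rw [← Real.rpow_one T]
      exact Real.rpow_le_rpow_of_exponent_le (by linarith) (by linarith)
    have hq := (dls_crude b h hb hh hh1 T hT z 0 le_rfl (by linarith)).2
    rw [zero_add, mul_one] at hq
    unfold Fb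
    refine (norm_add_le _ _).trans ?_
    have n1 : ‖deriv riemannZeta z / riemannZeta z‖ ≤ T * T := by
      rw [div_eq_mul_inv, norm_mul]
      exact mul_le_mul (g3.trans hTd) (g2.trans hTd) (norm_nonneg _) (by linarith)
    set P := T ^ (b + 1 / 2 + 4 * h) with hP
    have hP1 : 1 ≤ P := Real.one_le_rpow (by linarith) (by linarith)
    have e : T ^ (b + 1 / 2 + 4 * h + 3) = P * (T * T * T) := by
      rw [hP, Real.rpow_add (by linarith), show (3 : ℝ) = ((3 : ℕ) : ℝ) by norm_num, Real.rpow_natCast]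
      ring
    rw [e]
    have n2 : ‖Qb b h T z‖ ≤ P * (T * T) := by
      refine hq.trans ?_
      rw [mul_assoc]
      exact mul_le_mul_of_nonneg_left (mul_le_mul hbT hLT (by linarith) (by linarith)) (by linarith)
    have hTT : 0 ≤ T * T := by positivity
    have h7 : T * T ≤ P * (T * T) := by nlinarith
    have h8 : 0 ≤ P * (T * T) := by positivity
    have h9 : P * (T * T * T) = P * (T * T) * T := by ring
    rw [h9]
    nlinarith
  · refine ⟨riemannZeta_ne_zero_of_one_lt_re (by linarith), ?_⟩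
    refine (hF z hz).trans ?_
    refine le_trans ?_ hT3
    have hp : T ^ ((b + 1 / 2 + 3 * h) * (1 - z.re)) ≤ 1 := by
      apply Real.rpow_le_one_of_one_le_of_nonpos (by linarith)
      have : 0 < b + 1 / 2 + 3 * h := by linarith
      nlinarith
    have hp0 : 0 ≤ T ^ ((b + 1 / 2 + 3 * h) * (1 - z.re)) := Real.rpow_nonneg (by linarith) _
    have h6 : CF * T ^ ((b + 1 / 2 + 3 * h) * (1 - z.re)) ≤ T := by nlinarith
    rw [sq]
    exact mul_le_mul h6 (mul_le_mul hLT hLT (by linarith) (by linarith)) (by positivity) (by linarith)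

private lemma t3_bp {CB c T : ℝ}
    (hB : ∀ s : ℂ, (0 ≤ s.re → ‖Bp T s‖ ≤ CB * 4 ^ s.re * T ^ (s.re / 2)) ∧
      (s.re ≤ 0 → ‖Bp T s‖ ≤ CB * 2 ^ (-s.re) * T ^ (s.re / 2)))
    (hT : 10 ≤ T) (hCBT : CB ≤ T) (hcT : (2 : ℝ) ^ c ≤ T) {z : ℂ} (h1 : 1 / 2 ≤ z.re) (h2 : z.re ≤ c) :
    ‖Bp T (1 - z)‖ ≤ T ^ (3 : ℝ) := by
  have e : T ^ (3 : ℝ) = T * T * T := by
    rw [show (3 : ℝ) = ((3 : ℕ) : ℝ) by norm_num, Real.rpow_natCast]
    ring
  rw [e]
  have hre : (1 - z).re = 1 - z.re := by simp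
  obtain ⟨b1, b2⟩ := hB (1 - z)
  rw [hre] at b1 b2
  rcases le_total 0 (1 - z.re) with h0 | h0
  · refine (b1 h0).trans ?_
    have p1 : (4 : ℝ) ^ (1 - z.re) ≤ T := by
      have : (4 : ℝ) ^ (1 - z.re) ≤ 4 ^ (1 : ℝ) := Real.rpow_le_rpow_of_exponent_le (by norm_num) (by linarith)
      rw [Real.rpow_one] at this
      linarith
    have p2 : T ^ ((1 - z.re) / 2) ≤ T := by
      conv_rhs => rw [← Real.rpow_one T]
      exact Real.rpow_le_rpow_of_exponent_le (by linarith) (by linarith)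
    exact mul_le_mul (mul_le_mul hCBT p1 (by positivity) (by linarith)) p2 (by positivity) (by positivity)
  · refine (b2 h0).trans ?_
    have p1 : (2 : ℝ) ^ (-(1 - z.re)) ≤ T := by
      have : (2 : ℝ) ^ (-(1 - z.re)) ≤ 2 ^ c := Real.rpow_le_rpow_of_exponent_le (by norm_num) (by linarith)
      linarith
    have p2 : T ^ ((1 - z.re) / 2) ≤ T := by
      have : T ^ ((1 - z.re) / 2) ≤ 1 := Real.rpow_le_one_of_one_le_of_nonpos (by linarith) (by linarith)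
      linarith
    exact mul_le_mul (mul_le_mul hCBT p1 (by positivity) (by linarith)) p2 (by positivity) (by positivity)

theorem tt3 (b h d κ : ℝ) (hb : 1 ≤ b) (hh : 0 < h) (hh1 : h ≤ 1 / 100) (hd : 0 < d) (hd1 : d ≤ 1 / 32) (hκ : 0 < κ)
    (hκ1 : κ ≤ 1 / 4) :
    ∃ T0 : ℝ, 10 ≤ T0 ∧ ∀ T : ℝ, T0 ≤ T → ∀ t0 : ℝ, T ≤ t0 → t0 ≤ 2 * T → GH d κ T t0 →
      ‖∫ y in (-(Real.log T) ^ 2)..((Real.log T) ^ 2), kk (2 * d) y *
        (fa b h T (1 - pt (2 * d) (t0 + y)) * Fb b h T (pt (2 * d) (t0 + y)) * Bp T (1 - pt (2 * d) (t0 + y)))‖ ≤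
        T ^ (-(1 : ℝ)) := by
  obtain ⟨c, hcd⟩ : ∃ c : ℝ, c = (b + 10) / h := ⟨_, rfl⟩
  have hch : h * c = b + 10 := by
    rw [hcd]
    field_simp
  have hc : 1000 ≤ c := by
    rw [hcd, le_div_iff₀ hh]
    linarith
  obtain ⟨Cg, Tg, hCg, hTg, hg⟩ := grw c (by linarith)
  obtain ⟨CF, hCF, hF⟩ := dls_F b h hb hh hh1
  obtain ⟨CB, hCB, hB⟩ := dls_bp
  obtain ⟨Tw, hTw, hw⟩ := aux_win κ hκ
  -- the exponent on the rectangle
  obtain ⟨K, hK⟩ : ∃ K : ℝ, K = (1 + 2 * (c + 2) + (b + 2 * h) * (c + 1) + 2) + (b + 1 / 2 + 4 * h + 3) + 3 := ⟨_, rfl⟩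
  -- constants
  obtain ⟨M1, hM1⟩ : ∃ M1 : ℝ, M1 = 2 * (c - 1 / 2 - 2 * d) * Real.exp (max ((2 * d) ^ 2) ((c - 1 / 2) ^ 2)) := ⟨_, rfl⟩
  have hM1p : 0 ≤ M1 := by
    rw [hM1]
    have : 0 ≤ c - 1 / 2 - 2 * d := by linarith
    positivity
  obtain ⟨M2, hM2⟩ : ∃ M2 : ℝ, M2 = 2 * (Real.exp ((c - 1 / 2) ^ 2) * (Cg * 3 ^ (c + 2) * (b + 2) * CF *
    (CB * 2 ^ (-(1 - c))))) := ⟨_, rfl⟩
  obtain ⟨T5, hT5, h5⟩ := aux_log M2 1 5 one_pos
  obtain ⟨T0, hT0⟩ : ∃ T0 : ℝ, T0 = Tw + T5 + 2 * Tg + Cg + CF + CB + b + 3 + 2 ^ c + M1 + Real.exp (|K| + 3) := ⟨_, rfl⟩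
  have h2c : 0 ≤ (2 : ℝ) ^ c := by positivity
  have hex : 0 ≤ Real.exp (|K| + 3) := (Real.exp_pos _).le
  refine ⟨T0, by rw [hT0]; linarith, ?_⟩
  intro T hT t0 ht1 ht2 hG
  rw [hT0] at hT
  have hT10 : 10 ≤ T := by linarith
  have hTp : 0 < T := by linarith
  obtain ⟨hL, hw1, hw2⟩ := hw T (by linarith)
  have hLT : Real.log T ≤ T := (Real.log_le_sub_one_of_pos hTp).trans (by linarith)
  have hL5 := h5 T (by linarith)
  rw [Real.rpow_one] at hL5
  set L := Real.log T with hLd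
  have hL2 : 1 ≤ L ^ 2 := one_le_pow₀ hL
  have hKL : |K| + 3 ≤ L := by
    rw [hLd, Real.le_log_iff_exp_le hTp]
    linarith
  -- the shift
  have hrect := rcg (t3q b h T) t0 (L ^ 2) (2 * d) (c - 1 / 2) (T ^ K) (by linarith) (by linarith) (by
    intro s hs1 hs2 hs3
    have hs2' : s.re ≤ c := by linarith
    have him := abs_le.1 hs3
    have hi1 : T / 2 ≤ s.im := by linarith [him.1]
    have hi2 : s.im ≤ 3 * T := by linarith [him.2]
    obtain ⟨hz0, hFb⟩ := t3_fb (κ := κ) (t0 := t0) hb hh hh1 hd hd1 (fun s hs => (hF T hT10 s hs).2) hT10 hL hCF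
      (by linarith) (by linarith) hG hs1 (by linarith [hs3])
    have hfa := t3_fa hCg (by linarith) hg hb hh hh1 hT10 hL (z := s) (by linarith) hs2' (by linarith) hi2
      (by linarith) (A := c) (by linarith) (by linarith)
    have hBp := t3_bp (fun s => hB T hT10 s) hT10 (by linarith) (by linarith : (2 : ℝ) ^ c ≤ T) (z := s)
      (by linarith) hs2'
    refine ⟨t3_diff b h T (by linarith) hz0, ?_⟩
    have hfa2 : ‖fa b h T (1 - s)‖ ≤ T ^ (1 + 2 * (c + 2) + (b + 2 * h) * (c + 1) + 2) := by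
      refine hfa.trans ?_
      have q1 : (3 * T) ^ (c + 2) ≤ T ^ (2 * (c + 2)) := by
        have : 3 * T ≤ T ^ (2 : ℝ) := by
          rw [show T ^ (2 : ℝ) = T * T by
            rw [show (2 : ℝ) = ((2 : ℕ) : ℝ) by norm_num, Real.rpow_natCast]
            ring]
          exact mul_le_mul_of_nonneg_right (by linarith only [hT10]) hTp.le
        refine (Real.rpow_le_rpow (by linarith) this (by linarith)).trans ?_
        rw [← Real.rpow_mul hTp.le]
      have e2 : T ^ (2 : ℝ) = T * T := by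
        rw [show (2 : ℝ) = ((2 : ℕ) : ℝ) by norm_num, Real.rpow_natCast]
        ring
      have q2 : (b + 2) * L ≤ T ^ (2 : ℝ) := by
        rw [e2]
        exact mul_le_mul (by linarith) hLT (by linarith) (by linarith)
      have q3 : Cg ≤ T ^ (1 : ℝ) := by
        rw [Real.rpow_one]
        linarith
      have e : T ^ (1 + 2 * (c + 2) + (b + 2 * h) * (c + 1) + 2) =
          T ^ (1 : ℝ) * T ^ (2 * (c + 2)) * (T ^ ((b + 2 * h) * (c + 1)) * T ^ (2 : ℝ)) := by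
        rw [← Real.rpow_add hTp, ← Real.rpow_add hTp, ← Real.rpow_add hTp]
        congr 1
        ring
      rw [e]
      exact mul_le_mul (mul_le_mul q3 q1 (by positivity) (by positivity))
        (mul_le_mul_of_nonneg_left q2 (by positivity)) (by positivity) (by positivity)
    unfold t3q
    rw [norm_mul, norm_mul, hK, Real.rpow_add hTp, Real.rpow_add hTp]
    exact mul_le_mul (mul_le_mul hfa2 hFb (norm_nonneg _) (by positivity)) hBp (norm_nonneg _) (by positivity))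
  -- the error of the shift
  have herr : 2 * (c - 1 / 2 - 2 * d) * Real.exp (max ((2 * d) ^ 2) ((c - 1 / 2) ^ 2)) * Real.exp (-(L ^ 2) ^ 2) *
      T ^ K ≤ T ^ (-(2 : ℝ)) := by
    rw [← hM1]
    have e1 : Real.exp (-(L ^ 2) ^ 2) ≤ T ^ (-(|K| + 3)) := by
      rw [Real.rpow_def_of_pos hTp, ← hLd]
      apply Real.exp_le_exp.2
      have h3 : |K| + 3 ≤ L ^ 3 := hKL.trans (le_self_pow₀ hL (by norm_num))
      have h4 : (|K| + 3) * L ≤ L ^ 3 * L := mul_le_mul_of_nonneg_right h3 (by linarith)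
      have h6 : (L ^ 2) ^ 2 = L ^ 3 * L := by ring
      have h7 : L * -(|K| + 3) = -((|K| + 3) * L) := by ring
      rw [h6, h7]
      linarith only [h4]
    have e2 : T ^ K ≤ T ^ |K| := Real.rpow_le_rpow_of_exponent_le (by linarith) (le_abs_self K)
    have e3 : M1 ≤ T ^ (1 : ℝ) := by
      rw [Real.rpow_one]
      linarith [abs_nonneg K]
    have e4 : T ^ (-(2 : ℝ)) = T ^ (1 : ℝ) * T ^ (-(|K| + 3)) * T ^ |K| := by
      rw [← Real.rpow_add hTp, ← Real.rpow_add hTp]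
      congr 1
      ring
    rw [e4]
    exact mul_le_mul (mul_le_mul e3 e1 (by positivity) (by positivity)) e2 (by positivity) (by positivity)
  -- the line Re z = c
  have hline : ‖∫ y in (-L ^ 2)..(L ^ 2), kk (c - 1 / 2) y * t3q b h T (pt (c - 1 / 2) (t0 + y))‖ ≤ T ^ (-(2 : ℝ)) := by
    set D := Real.exp ((c - 1 / 2) ^ 2) * ((Cg * (3 * T) ^ (c + 2) * (T ^ ((b + 2 * h) * (c - 1 + 1)) * ((b + 2) * L))) *
      (CF * T ^ ((b + 1 / 2 + 3 * h) * (1 - c)) * L ^ 2) * (CB * 2 ^ (-(1 - c)) * T ^ ((1 - c) / 2))) with hD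
    have hb1 : ∀ y ∈ Set.uIoc (-L ^ 2) (L ^ 2), ‖kk (c - 1 / 2) y * t3q b h T (pt (c - 1 / 2) (t0 + y))‖ ≤ D := by
      intro y hy
      rw [Set.uIoc_of_le (by linarith)] at hy
      have hre : (pt (c - 1 / 2) (t0 + y)).re = c := by
        rw [pt_re]
        ring
      have him : (pt (c - 1 / 2) (t0 + y)).im = t0 + y := pt_im _ _
      have hi1 : T / 2 ≤ t0 + y := by linarith [hy.1]
      have hi2 : t0 + y ≤ 3 * T := by linarith [hy.2]
      have hfa := t3_fa hCg (by linarith) hg hb hh hh1 hT10 hL (z := pt (c - 1 / 2) (t0 + y)) (by rw [hre]; linarith)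
        (by rw [hre]) (by rw [him]; linarith) (by rw [him]; linarith)
        (by rw [him]; linarith) (A := c - 1) (by linarith) (by rw [hre]; linarith)
      have hFb := (hF T hT10 (pt (c - 1 / 2) (t0 + y)) (by rw [hre]; linarith)).2
      rw [hre, ← hLd] at hFb
      have hBp := (hB T hT10 (1 - pt (c - 1 / 2) (t0 + y))).2 (by rw [sub_re, one_re, hre]; linarith)
      rw [sub_re, one_re, hre] at hBp
      rw [norm_mul, kk_norm, hD]
      refine mul_le_mul ?_ ?_ (norm_nonneg _) (Real.exp_pos _).le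
      · apply Real.exp_le_exp.2
        linarith only [sq_nonneg y]
      · unfold t3q
        rw [norm_mul, norm_mul]
        exact mul_le_mul (mul_le_mul hfa hFb (norm_nonneg _) (by positivity)) hBp (norm_nonneg _) (by positivity)
    refine (intervalIntegral.norm_integral_le_of_norm_le_const hb1).trans ?_
    have hab : |L ^ 2 - -L ^ 2| = 2 * L ^ 2 := by
      rw [abs_of_nonneg (by linarith)]
      ring
    rw [hab]
    have e3 : (3 * T) ^ (c + 2) = 3 ^ (c + 2) * T ^ (c + 2) := Real.mul_rpow (by norm_num) hTp.le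
    have e4 : D * (2 * L ^ 2) = M2 * L ^ 5 * T ^ (-7 + 3 * h) := by
      have e5 : T ^ (-7 + 3 * h) = T ^ (c + 2) * T ^ ((b + 2 * h) * (c - 1 + 1)) *
          T ^ ((b + 1 / 2 + 3 * h) * (1 - c)) * T ^ ((1 - c) / 2) := by
        rw [← Real.rpow_add hTp, ← Real.rpow_add hTp, ← Real.rpow_add hTp]
        congr 1
        linear_combination hch
      rw [e5, hD, e3, hM2]
      ring
    rw [e4]
    have e6 : T ^ (-(2 : ℝ)) = T * T ^ (-(3 : ℝ)) := by
      nth_rewrite 2 [← Real.rpow_one T]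
      rw [← Real.rpow_add hTp]
      norm_num
    rw [e6]
    refine mul_le_mul hL5 ?_ (by positivity) hTp.le
    exact Real.rpow_le_rpow_of_exponent_le (by linarith) (by linarith)
  -- conclusion
  have h1 : (∫ y in (-L ^ 2)..(L ^ 2), kk (2 * d) y *
        (fa b h T (1 - pt (2 * d) (t0 + y)) * Fb b h T (pt (2 * d) (t0 + y)) * Bp T (1 - pt (2 * d) (t0 + y)))) =
      ∫ y in (-L ^ 2)..(L ^ 2), kk (2 * d) y * t3q b h T (pt (2 * d) (t0 + y)) := rfl
  rw [h1]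
  have h2 := hrect.trans herr
  have h3 := norm_le_norm_add_norm_sub' (∫ y in (-L ^ 2)..(L ^ 2), kk (2 * d) y * t3q b h T (pt (2 * d) (t0 + y)))
    (∫ y in (-L ^ 2)..(L ^ 2), kk (c - 1 / 2) y * t3q b h T (pt (c - 1 / 2) (t0 + y)))
  have h4 : T ^ (-(1 : ℝ)) = T * T ^ (-(2 : ℝ)) := by
    nth_rewrite 2 [← Real.rpow_one T]
    rw [← Real.rpow_add hTp]
    norm_num
  have h5 : 0 ≤ T ^ (-(2 : ℝ)) := by positivity
  rw [h4]
  have h6 : 2 * T ^ (-(2 : ℝ)) ≤ T * T ^ (-(2 : ℝ)) := mul_le_mul_of_nonneg_right (by linarith only [hT10]) h5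
  linarith only [h6, h2, h3, hline]

end Pool.Agent.H24.WH
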