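import Pool.Agent.H24.WH.Shr
import Pool.Agent.H24.WH.Shl
import Pool.Agent.H24.WH.Rtn
import Pool.Agent.H24.WH.Ent
import Pool.Agent.H24.WH.Tt1
import Pool.Agent.H24.WH.Tt3
import Pool.Agent.H24.WH.Qgb
import Pool.Agent.H24.WH.Bas

/-!
# [H24 WH DIF] at a good height the residue sum is controlled by the window

PROOF. `J_R(3/2) = J_R(2d) + O(1/T)`, `J_L(3/2) = J_L(2d) + O(1/T)` (`shr`, `shl`).
RIGHT (`s = pt (2d) ..`): `HR = ζ' Fa Bp - ζ' Qp Bp`. LEFT (`z = pt (2d) ..`): by `hl_eq` `HL z = ζ'(1-z) (ζ'/ζ)(1-z) Bp(1-z)`,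
`(ζ'/ζ)(1-z) = -lam z - (ζ'/ζ)(z)`, and with `Fa(1-z)~ := Qp(1-z) + (ζ'/ζ)(1-z)`, `ζ(1-z) Fa(1-z)~ = fa(1-z)`:
`HL z = (ζ'/ζ)(1-z) fa(1-z) Bp(1-z) - ζ'(1-z) Qp(1-z) Bp(1-z)`, and
`(ζ'/ζ)(1-z) = -lam z + Qp z - Fa z = -lam z + Qp z - Fb z + Rh z` (`fb_sub`), `fa(1-z) = fb(1-z) - ζ(1-z) Rh(1-z)` (`fa_sub`):
`(ζ'/ζ)(1-z) fa(1-z) = fb(1-z)(-lam z + Qp z) - ζ(1-z)Rh(1-z)(-lam z + Qp z) - fa(1-z) Fb z + fa(1-z) Rh z`.
The terms `-ζ' Qp Bp` on the right and the conjugate of `-ζ'(1-z)Qp(1-z)Bp(1-z)` (`= ` value at `conj(1-z) = pt (-2d) ..`) cancel up to `1/T`: `ent`.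
`rtn`, `tt1`, `tt3` for three terms. The two terms with `Rh`: with `u = T^d`, `q = T^(6d(b+1))`: `|GG| ≤ u^3`, `|ζ(1-z)| ≤ u^4`, `|ζ'(1-z)| ≤ u^5`,
`|fa(1-z)| ≤ u^6 q`, `|ζ(1-z)|(|lam| + |Qp|) ≤ u^6 q`, `|kk| ≤ u e^(-y^2)`.
-/

set_option autoImplicit false

namespace Pool.Agent.H24.WH

open Complex MeasureTheory Finset Pool.Agent.H48.WN

private lemma dif_alg (b h T : ℝ) (z : ℂ)
    (h1 : HL T z = -(deriv riemannZeta (1 - z) * (lam z + deriv riemannZeta z / riemannZeta z) * Bp T (1 - z)))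
    (h2 : deriv riemannZeta (1 - z) = -((lam z + deriv riemannZeta z / riemannZeta z) * riemannZeta (1 - z))) :
    HL T z = fb b h T (1 - z) * (-lam z + Qp b h T z) * Bp T (1 - z) -
      riemannZeta (1 - z) * Rh b h T (1 - z) * (-lam z + Qp b h T z) * Bp T (1 - z) -
      fa b h T (1 - z) * Fb b h T z * Bp T (1 - z) +
      fa b h T (1 - z) * Rh b h T z * Bp T (1 - z) -
      deriv riemannZeta (1 - z) * Qp b h T (1 - z) * Bp T (1 - z) := by
  rw [h1, rh_eq, rh_eq]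
  unfold fb fa Fb
  linear_combination (Qp b h T (1 - z) * Bp T (1 - z)) * h2

private lemma dif_conj_int (R : ℝ) (hR : 0 ≤ R) (f : ℝ → ℂ) :
    (starRingEnd ℂ) (∫ y in (-R)..R, f y) = ∫ y in (-R)..R, (starRingEnd ℂ) (f y) := by
  rw [intervalIntegral.integral_of_le (by linarith), intervalIntegral.integral_of_le (by linarith)]
  exact integral_conj.symm

private lemma qp_conj (b h T : ℝ) (z : ℂ) :
    Qp b h T ((starRingEnd ℂ) z) = (starRingEnd ℂ) (Qp b h T z) := dp_conj _ _ _ _ _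

private lemma rh_conj (b h T : ℝ) (z : ℂ) :
    Rh b h T ((starRingEnd ℂ) z) = (starRingEnd ℂ) (Rh b h T z) := dp_conj _ _ _ _ _

private lemma dif_norm_refl {F : ℂ → ℂ} (hF : ∀ z, F ((starRingEnd ℂ) z) = (starRingEnd ℂ) (F z)) (c t : ℝ) :
    ‖F (1 - pt c t)‖ = ‖F (pt (-c) t)‖ := by
  rw [← aux_refl', hF, Complex.norm_conj]

theorem dif (b h d κ : ℝ) (hb : 1 ≤ b) (hh : 0 < h) (hh1 : h ≤ 1 / 100) (hd : 0 < d) (hd1 : d ≤ 1 / 32) (hκ : 0 < κ)
    (hκ1 : κ ≤ 1 / 4) :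
    ∃ T0 : ℝ, 10 ≤ T0 ∧ ∀ T : ℝ, T0 ≤ T → ∀ t0 : ℝ, T ≤ t0 → t0 ≤ 2 * T → GH d κ T t0 →
      ‖JR T (3 / 2) t0 - (starRingEnd ℂ) (JL T (3 / 2) t0)‖ ≤ T ^ (-h / 4) + T ^ (10 * d * (b + 3)) *
        ∫ y in (-(Real.log T) ^ 2)..((Real.log T) ^ 2), Real.exp (-y ^ 2) *
          ((‖Rh b h T (pt (2 * d) (t0 + y))‖ + ‖Rh b h T (pt (-(2 * d)) (t0 + y))‖) *
            ‖Bp T (pt (-(2 * d)) (t0 + y))‖) := by
  obtain ⟨Ta, hTa, ha⟩ := shr d κ hd hd1 hκ hκ1
  obtain ⟨Tb, hTb, hbb⟩ := shl d κ hd hd1 hκ hκ1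
  obtain ⟨Tc, hTc, hc⟩ := rtn b h d κ hb hh hh1 hd hd1 hκ hκ1
  obtain ⟨Td, hTd, hdd⟩ := ent b h d hb hh hh1 hd hd1
  obtain ⟨Te, hTe, he⟩ := tt1 b h d hb hh hh1 hd hd1
  obtain ⟨Tf, hTf, hf⟩ := tt3 b h d κ hb hh hh1 hd hd1 hκ hκ1
  obtain ⟨Tg, hTg, hg⟩ := qgb b h d κ hb hh hh1 hd hd1 hκ hκ1
  obtain ⟨C1, Th, hC1, hTh, hgg⟩ := ggn 1 (by norm_num)
  obtain ⟨C2, Ti, hC2, hTi, hst⟩ := stl 1
  obtain ⟨Tj, hTj, hhl⟩ := hl_eq 1
  obtain ⟨Tk, hTk, hfd⟩ := fe_deriv 1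
  obtain ⟨Tl, hTl, hwin⟩ := aux_win κ hκ
  obtain ⟨Tm, hTm, hpw⟩ := aux_pow (3 * C1 + 2) d hd
  obtain ⟨Tn, hTn, hlg⟩ := aux_log (C2 + 4) d 1 hd
  obtain ⟨To, hTo, hp6⟩ := aux_pow 6 (h / 4) (by positivity)
  obtain ⟨T0, hT0⟩ : ∃ T0 : ℝ, T0 = Ta + Tb + Tc + Td + Te + Tf + Tg + 2 * Th + 2 * Ti + 2 * Tj + 2 * Tk + Tl + Tm + Tn + To :=
    ⟨_, rfl⟩
  refine ⟨T0, by linarith, fun T hT t0 ht1 ht2 hG => ?_⟩
  have gT : 10 ≤ T := by linarith
  have hTpos : 0 < T := by linarith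
  obtain ⟨hL1, hL2, hL3⟩ := hwin T (by linarith)
  have a1 := ha T (by linarith) t0 ht1 ht2 hG
  have a2 := hbb T (by linarith) t0 ht1 ht2 hG
  have a3 := hc T (by linarith) t0 ht1 ht2 hG
  have a4 := hdd T (by linarith) t0 ht1 ht2
  have a5 := he T (by linarith) t0 ht1 ht2
  have a6 := hf T (by linarith) t0 ht1 ht2 hG
  have a7 := hg T (by linarith) t0 ht1 ht2 hG
  obtain ⟨R, hR⟩ : ∃ R : ℝ, R = (Real.log T) ^ 2 := ⟨_, rfl⟩
  rw [← hR] at a3 a4 a5 a6 hL2 hL3 ⊢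
  have hR0 : 0 ≤ R := by rw [hR]; positivity
  -- heights
  have him : ∀ y : ℝ, |y| ≤ R → T / 2 ≤ t0 + y ∧ t0 + y ≤ 3 * T := by
    intro y hy
    rw [abs_le] at hy
    constructor <;> linarith [hy.1, hy.2]
  have hgood : ∀ y : ℝ, |y| ≤ R → |(t0 + y) - t0| ≤ T ^ κ - 1 := by
    intro y hy
    have : t0 + y - t0 = y := by ring
    rw [this]
    linarith
  have hζ0 : ∀ y : ℝ, |y| ≤ R → riemannZeta (pt (2 * d) (t0 + y)) ≠ 0 ∧ ‖riemannZeta (pt (2 * d) (t0 + y))‖ ≤ T ^ d ∧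
      ‖deriv riemannZeta (pt (2 * d) (t0 + y))‖ ≤ T ^ d := by
    intro y hy
    have := hG (pt (2 * d) (t0 + y)) (by rw [pt_re]) (by rw [pt_re]; linarith) (by rw [pt_im]; exact hgood y hy)
    exact ⟨this.1, this.2.1, this.2.2.2⟩
  -- algebra on the right
  have eR : ∀ y : ℝ, HR T (pt (2 * d) (t0 + y)) =
      deriv riemannZeta (pt (2 * d) (t0 + y)) * Fa b h T (pt (2 * d) (t0 + y)) * Bp T (pt (2 * d) (t0 + y)) -
      deriv riemannZeta (pt (2 * d) (t0 + y)) * Qp b h T (pt (2 * d) (t0 + y)) * Bp T (pt (2 * d) (t0 + y)) := by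
    intro y
    unfold HR Fa
    rw [sq, mul_div_assoc]
    ring
  -- algebra on the left
  have eL : ∀ y : ℝ, |y| ≤ R → HL T (pt (2 * d) (t0 + y)) =
      fb b h T (1 - pt (2 * d) (t0 + y)) * (-lam (pt (2 * d) (t0 + y)) + Qp b h T (pt (2 * d) (t0 + y))) *
        Bp T (1 - pt (2 * d) (t0 + y)) -
      riemannZeta (1 - pt (2 * d) (t0 + y)) * Rh b h T (1 - pt (2 * d) (t0 + y)) *
        (-lam (pt (2 * d) (t0 + y)) + Qp b h T (pt (2 * d) (t0 + y))) * Bp T (1 - pt (2 * d) (t0 + y)) -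
      fa b h T (1 - pt (2 * d) (t0 + y)) * Fb b h T (pt (2 * d) (t0 + y)) * Bp T (1 - pt (2 * d) (t0 + y)) +
      fa b h T (1 - pt (2 * d) (t0 + y)) * Rh b h T (pt (2 * d) (t0 + y)) * Bp T (1 - pt (2 * d) (t0 + y)) -
      deriv riemannZeta (1 - pt (2 * d) (t0 + y)) * Qp b h T (1 - pt (2 * d) (t0 + y)) *
        Bp T (1 - pt (2 * d) (t0 + y)) := by
    intro y hy
    have hh1 := him y hy
    have hre : |(pt (2 * d) (t0 + y)).re| ≤ 1 := by
      rw [pt_re, abs_of_pos (by linarith)]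
      linarith
    have h1 := (hhl T (pt (2 * d) (t0 + y)) hre (by rw [pt_im]; linarith) (hζ0 y hy).1).2
    have h3 := hst (pt (2 * d) (t0 + y)) hre (by rw [pt_im]; linarith)
    have h4 := hfd (pt (2 * d) (t0 + y)) hre (by rw [pt_im]; linarith)
    refine dif_alg b h T _ h1 ?_
    rw [h4, h3.1]
    have h5 := (hζ0 y hy).1
    field_simp
  -- continuity
  have hkc : ∀ c : ℝ, ContinuousOn (kk c) (Set.Icc (-R) R) := fun c => (aux_kk c).continuousOn
  have hne : ∀ c : ℝ, ∀ y : ℝ, |y| ≤ R → pt c (t0 + y) ≠ 1 := fun c y hy => by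
    apply aux_ne
    rw [pt_im]
    linarith [(him y hy).1]
  have hne' : ∀ c : ℝ, ∀ y : ℝ, |y| ≤ R → 1 - pt c (t0 + y) ≠ 1 := fun c y hy => by
    apply aux_ne'
    rw [pt_im]
    linarith [(him y hy).1]
  have cZ : ContinuousOn (fun y : ℝ => riemannZeta (pt (2 * d) (t0 + y))) (Set.Icc (-R) R) :=
    aux_line fun y hy => aux_z (hne _ y hy)
  have cD : ContinuousOn (fun y : ℝ => deriv riemannZeta (pt (2 * d) (t0 + y))) (Set.Icc (-R) R) :=
    aux_line fun y hy => aux_dz (hne _ y hy)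
  have cZ' : ContinuousOn (fun y : ℝ => riemannZeta (1 - pt (2 * d) (t0 + y))) (Set.Icc (-R) R) :=
    aux_line' fun y hy => aux_z (hne' _ y hy)
  have cD' : ContinuousOn (fun y : ℝ => deriv riemannZeta (1 - pt (2 * d) (t0 + y))) (Set.Icc (-R) R) :=
    aux_line' fun y hy => aux_dz (hne' _ y hy)
  have cl : ContinuousOn (fun y : ℝ => lam (pt (2 * d) (t0 + y))) (Set.Icc (-R) R) := by
    refine aux_line fun y hy => ?_
    have hre : |(pt (2 * d) (t0 + y)).re| ≤ 1 := by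
      rw [pt_re, abs_of_pos (by linarith)]
      linarith
    exact (hst (pt (2 * d) (t0 + y)) hre (by rw [pt_im]; linarith [(him y hy).1])).2.2.2.1
  have cE : ∀ F : ℂ → ℂ, Differentiable ℂ F → ContinuousOn (fun y : ℝ => F (pt (2 * d) (t0 + y))) (Set.Icc (-R) R) :=
    fun F hF => aux_line fun y _ => hF _
  have cE' : ∀ F : ℂ → ℂ, Differentiable ℂ F → ContinuousOn (fun y : ℝ => F (1 - pt (2 * d) (t0 + y))) (Set.Icc (-R) R) :=
    fun F hF => aux_line' fun y _ => hF _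
  have cF : ContinuousOn (fun y : ℝ => Fa b h T (pt (2 * d) (t0 + y))) (Set.Icc (-R) R) := by
    unfold Fa
    exact (cE _ (aux_qp b h T)).add (cD.div cZ fun y hy => (hζ0 y (abs_le.2 hy)).1)
  have cFb : ContinuousOn (fun y : ℝ => Fb b h T (pt (2 * d) (t0 + y))) (Set.Icc (-R) R) := by
    unfold Fb
    exact (cE _ (aux_qb b h T)).add (cD.div cZ fun y hy => (hζ0 y (abs_le.2 hy)).1)
  have cfa : ContinuousOn (fun y : ℝ => fa b h T (1 - pt (2 * d) (t0 + y))) (Set.Icc (-R) R) := by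
    unfold fa
    exact (cZ'.mul (cE' _ (aux_qp b h T))).add cD'
  have cfb : ContinuousOn (fun y : ℝ => fb b h T (1 - pt (2 * d) (t0 + y))) (Set.Icc (-R) R) := by
    unfold fb
    exact (cZ'.mul (cE' _ (aux_qb b h T))).add cD'
  have cQ := cE _ (aux_qp b h T)
  have cQ' := cE' _ (aux_qp b h T)
  have cRh := cE _ (aux_rh b h T)
  have cRh' := cE' _ (aux_rh b h T)
  have cB := cE _ (aux_bp T)
  have cB' := cE' _ (aux_bp T)
  -- the integrals
  have i1 : IntervalIntegrable (fun y : ℝ => kk (2 * d) y *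
    (fb b h T (1 - pt (2 * d) (t0 + y)) * (-lam (pt (2 * d) (t0 + y)) + Qp b h T (pt (2 * d) (t0 + y))) *
        Bp T (1 - pt (2 * d) (t0 + y)))) volume (-R) R :=
    aux_ii hR0 ((hkc (2 * d)).mul ((cfb.mul (cl.neg.add cQ)).mul cB'))
  have i2 : IntervalIntegrable (fun y : ℝ => kk (2 * d) y *
    (riemannZeta (1 - pt (2 * d) (t0 + y)) * Rh b h T (1 - pt (2 * d) (t0 + y)) *
        (-lam (pt (2 * d) (t0 + y)) + Qp b h T (pt (2 * d) (t0 + y))) * Bp T (1 - pt (2 * d) (t0 + y))))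
        volume (-R) R :=
    aux_ii hR0 ((hkc (2 * d)).mul (((cZ'.mul cRh').mul (cl.neg.add cQ)).mul cB'))
  have i3 : IntervalIntegrable (fun y : ℝ => kk (2 * d) y *
    (fa b h T (1 - pt (2 * d) (t0 + y)) * Fb b h T (pt (2 * d) (t0 + y)) * Bp T (1 - pt (2 * d) (t0 + y))))
        volume (-R) R :=
    aux_ii hR0 ((hkc (2 * d)).mul ((cfa.mul cFb).mul cB'))
  have i4 : IntervalIntegrable (fun y : ℝ => kk (2 * d) y *
    (fa b h T (1 - pt (2 * d) (t0 + y)) * Rh b h T (pt (2 * d) (t0 + y)) * Bp T (1 - pt (2 * d) (t0 + y))))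
        volume (-R) R :=
    aux_ii hR0 ((hkc (2 * d)).mul ((cfa.mul cRh).mul cB'))
  have i5 : IntervalIntegrable (fun y : ℝ => kk (2 * d) y *
    (deriv riemannZeta (1 - pt (2 * d) (t0 + y)) * Qp b h T (1 - pt (2 * d) (t0 + y)) *
        Bp T (1 - pt (2 * d) (t0 + y)))) volume (-R) R :=
    aux_ii hR0 ((hkc (2 * d)).mul ((cD'.mul cQ').mul cB'))
  have j1 : IntervalIntegrable (fun y : ℝ => kk (2 * d) y *
    (deriv riemannZeta (pt (2 * d) (t0 + y)) * Fa b h T (pt (2 * d) (t0 + y)) * Bp T (pt (2 * d) (t0 + y))))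
        volume (-R) R :=
    aux_ii hR0 ((hkc (2 * d)).mul ((cD.mul cF).mul cB))
  have j2 : IntervalIntegrable (fun y : ℝ => kk (2 * d) y *
    (deriv riemannZeta (pt (2 * d) (t0 + y)) * Qp b h T (pt (2 * d) (t0 + y)) * Bp T (pt (2 * d) (t0 + y))))
        volume (-R) R :=
    aux_ii hR0 ((hkc (2 * d)).mul ((cD.mul cQ).mul cB))
  obtain ⟨I1, hI1⟩ : ∃ I1 : ℂ, I1 = ∫ y in (-R)..R, kk (2 * d) y *
    (fb b h T (1 - pt (2 * d) (t0 + y)) * (-lam (pt (2 * d) (t0 + y)) + Qp b h T (pt (2 * d) (t0 + y))) *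
        Bp T (1 - pt (2 * d) (t0 + y))) := ⟨_, rfl⟩
  obtain ⟨I2, hI2⟩ : ∃ I2 : ℂ, I2 = ∫ y in (-R)..R, kk (2 * d) y *
    (riemannZeta (1 - pt (2 * d) (t0 + y)) * Rh b h T (1 - pt (2 * d) (t0 + y)) *
        (-lam (pt (2 * d) (t0 + y)) + Qp b h T (pt (2 * d) (t0 + y))) * Bp T (1 - pt (2 * d) (t0 + y))) := ⟨_, rfl⟩
  obtain ⟨I3, hI3⟩ : ∃ I3 : ℂ, I3 = ∫ y in (-R)..R, kk (2 * d) y *
    (fa b h T (1 - pt (2 * d) (t0 + y)) * Fb b h T (pt (2 * d) (t0 + y)) * Bp T (1 - pt (2 * d) (t0 + y))) := ⟨_, rfl⟩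
  obtain ⟨I4, hI4⟩ : ∃ I4 : ℂ, I4 = ∫ y in (-R)..R, kk (2 * d) y *
    (fa b h T (1 - pt (2 * d) (t0 + y)) * Rh b h T (pt (2 * d) (t0 + y)) * Bp T (1 - pt (2 * d) (t0 + y))) := ⟨_, rfl⟩
  obtain ⟨I5, hI5⟩ : ∃ I5 : ℂ, I5 = ∫ y in (-R)..R, kk (2 * d) y *
    (deriv riemannZeta (1 - pt (2 * d) (t0 + y)) * Qp b h T (1 - pt (2 * d) (t0 + y)) *
        Bp T (1 - pt (2 * d) (t0 + y))) := ⟨_, rfl⟩
  have hJL : JL T (2 * d) t0 = I1 - I2 - I3 + I4 - I5 := by
    rw [hI1, hI2, hI3, hI4, hI5, ← intervalIntegral.integral_sub i1 i2,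
      ← intervalIntegral.integral_sub (i1.sub i2) i3,
      ← intervalIntegral.integral_add ((i1.sub i2).sub i3) i4,
      ← intervalIntegral.integral_sub (((i1.sub i2).sub i3).add i4) i5]
    unfold JL
    rw [← hR]
    apply intervalIntegral.integral_congr
    intro y hy
    rw [Set.uIcc_of_le (by linarith)] at hy
    show kk (2 * d) y * HL T (pt (2 * d) (t0 + y)) = _
    rw [eL y (abs_le.2 hy)]
    ring
  obtain ⟨J1, hJ1⟩ : ∃ J1 : ℂ, J1 = ∫ y in (-R)..R, kk (2 * d) y *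
    (deriv riemannZeta (pt (2 * d) (t0 + y)) * Fa b h T (pt (2 * d) (t0 + y)) * Bp T (pt (2 * d) (t0 + y))) := ⟨_, rfl⟩
  obtain ⟨J2, hJ2⟩ : ∃ J2 : ℂ, J2 = ∫ y in (-R)..R, kk (2 * d) y *
    (deriv riemannZeta (pt (2 * d) (t0 + y)) * Qp b h T (pt (2 * d) (t0 + y)) * Bp T (pt (2 * d) (t0 + y))) := ⟨_, rfl⟩
  have hJR : JR T (2 * d) t0 = J1 - J2 := by
    rw [hJ1, hJ2, ← intervalIntegral.integral_sub j1 j2]
    unfold JR
    rw [← hR]
    apply intervalIntegral.integral_congr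
    intro y hy
    show kk (2 * d) y * HR T (pt (2 * d) (t0 + y)) = _
    rw [eR y]
    ring
  -- the entire part
  have hI5c : (starRingEnd ℂ) I5 = ∫ y in (-R)..R, kk (-(2 * d)) y *
      (deriv riemannZeta (pt (-(2 * d)) (t0 + y)) * Qp b h T (pt (-(2 * d)) (t0 + y)) *
        Bp T (pt (-(2 * d)) (t0 + y))) := by
    rw [hI5, dif_conj_int R hR0]
    apply intervalIntegral.integral_congr
    intro y hy
    show (starRingEnd ℂ) (kk (2 * d) y * (deriv riemannZeta (1 - pt (2 * d) (t0 + y)) *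
      Qp b h T (1 - pt (2 * d) (t0 + y)) * Bp T (1 - pt (2 * d) (t0 + y)))) = _
    rw [map_mul, map_mul, map_mul, kk_conj, ← dzeta_conj, ← qp_conj, ← bp_conj, aux_refl']
  rw [← hI5c, ← hJ2] at a4
  rw [← hI1] at a5
  rw [← hI3] at a6
  rw [← hJ1] at a3
  -- sizes
  have hu2 := hpw T (by linarith)
  have hl2 := hlg T (by linarith)
  rw [pow_one] at hl2
  obtain ⟨u, hu⟩ : ∃ u : ℝ, u = T ^ d := ⟨_, rfl⟩
  obtain ⟨q, hq⟩ : ∃ q : ℝ, q = T ^ (6 * d * (b + 1)) := ⟨_, rfl⟩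
  rw [← hu] at hu2 hl2
  rw [← hq] at a7
  have hu3 : 2 ≤ u := by linarith
  have hu0 : 0 < u := by linarith
  have hq1 : 1 ≤ q := by
    rw [hq]
    exact Real.one_le_rpow (by linarith) (by positivity)
  have hlu : 2 * Real.log T + C2 + 1 ≤ u := by nlinarith
  have hsz : ∀ y : ℝ, |y| ≤ R → ‖riemannZeta (1 - pt (2 * d) (t0 + y))‖ ≤ u ^ 4 ∧
      ‖deriv riemannZeta (1 - pt (2 * d) (t0 + y))‖ ≤ u ^ 5 ∧ ‖lam (pt (2 * d) (t0 + y))‖ ≤ u ∧
      ‖Qp b h T (pt (2 * d) (t0 + y))‖ ≤ q ∧ ‖Qp b h T (1 - pt (2 * d) (t0 + y))‖ ≤ q := by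
    intro y hy
    obtain ⟨m1, m2⟩ := him y hy
    obtain ⟨z0, z1, z2⟩ := hζ0 y hy
    rw [← hu] at z1 z2
    have hre : |(pt (2 * d) (t0 + y)).re| ≤ 1 := by
      rw [pt_re, abs_of_pos (by linarith)]
      linarith
    have s1 := hst (pt (2 * d) (t0 + y)) hre (by rw [pt_im]; linarith)
    have s2 := hfd (pt (2 * d) (t0 + y)) hre (by rw [pt_im]; linarith)
    have s3 := (hgg (pt (2 * d) (t0 + y)) (by rw [pt_re]; linarith) (by rw [pt_re]; linarith)
      (by rw [pt_im]; linarith)).1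
    rw [pt_re, pt_im] at s3
    have s3' : (t0 + y) ^ (1 / 2 + 2 * d - 1 / 2 : ℝ) ≤ 3 * u ^ 2 := by
      have e1 : (1 / 2 + 2 * d - 1 / 2 : ℝ) = 2 * d := by ring
      rw [e1]
      have e2 : (t0 + y) ^ (2 * d) ≤ (3 * T) ^ (2 * d) :=
        Real.rpow_le_rpow (by linarith) m2 (by linarith)
      have e3 : (3 * T) ^ (2 * d) = 3 ^ (2 * d) * T ^ (2 * d) := Real.mul_rpow (by norm_num) hTpos.le
      have e4 : (3 : ℝ) ^ (2 * d) ≤ 3 := by
        calc (3 : ℝ) ^ (2 * d) ≤ 3 ^ (1 : ℝ) := Real.rpow_le_rpow_of_exponent_le (by norm_num) (by linarith)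
          _ = 3 := Real.rpow_one 3
      have e5 : T ^ (2 * d) = u ^ 2 := by
        rw [hu, ← Real.rpow_natCast, ← Real.rpow_mul hTpos.le]
        congr 1
        push_cast
        ring
      rw [e3, e5] at e2
      have : 3 ^ (2 * d) * u ^ 2 ≤ 3 * u ^ 2 := mul_le_mul_of_nonneg_right e4 (by positivity)
      linarith
    have hGG : ‖GG (pt (2 * d) (t0 + y))‖ ≤ u ^ 3 := by
      have : C1 * (3 * u ^ 2) ≤ u * u ^ 2 := by
        have : C1 * 3 ≤ u := by linarith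
        nlinarith [sq_nonneg u]
      have h4 := mul_le_mul_of_nonneg_left s3' hC1.le
      calc _ ≤ _ := s3
        _ ≤ C1 * (3 * u ^ 2) := h4
        _ ≤ u * u ^ 2 := this
        _ = u ^ 3 := by ring
    have hlam : ‖lam (pt (2 * d) (t0 + y))‖ ≤ 2 * Real.log T + C2 := by
      have h1 := s1.2.2.2.2
      rw [pt_im] at h1
      have h2 : |Real.log ((t0 + y) / (2 * Real.pi))| ≤ 2 * Real.log T := by
        have hpi := Real.pi_gt_three
        have hpi4 := Real.pi_le_four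
        have hlT0 : 0 ≤ Real.log T := by linarith
        rw [abs_le]
        constructor
        · have : Real.log (1 / T) ≤ Real.log ((t0 + y) / (2 * Real.pi)) := by
            apply Real.log_le_log (by positivity)
            rw [div_le_div_iff₀ hTpos (by positivity)]
            have q1 : (5 : ℝ) * 10 ≤ (t0 + y) * T := mul_le_mul (by linarith) gT (by norm_num) (by linarith)
            linarith
          rw [one_div, Real.log_inv] at this
          linarith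
        · have h3 : Real.log ((t0 + y) / (2 * Real.pi)) ≤ Real.log T := by
            apply Real.log_le_log (by
              have : 0 < t0 + y := by linarith
              positivity)
            rw [div_le_iff₀ (by positivity)]
            have q1 : T * 3 ≤ T * (2 * Real.pi) := mul_le_mul_of_nonneg_left (by linarith) hTpos.le
            linarith
          linarith
      have h3 : C2 / (t0 + y) ≤ C2 := div_le_self hC2.le (by linarith)
      calc ‖lam (pt (2 * d) (t0 + y))‖ = ‖(lam (pt (2 * d) (t0 + y)) -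
            ((Real.log ((t0 + y) / (2 * Real.pi)) : ℝ) : ℂ)) + ((Real.log ((t0 + y) / (2 * Real.pi)) : ℝ) : ℂ)‖ := by
            congr 1
            ring
        _ ≤ C2 / (t0 + y) + |Real.log ((t0 + y) / (2 * Real.pi))| := by
            refine (norm_add_le _ _).trans (add_le_add h1 ?_)
            rw [Complex.norm_real, Real.norm_eq_abs]
        _ ≤ _ := by linarith
    refine ⟨?_, ?_, by linarith, ?_, ?_⟩
    · rw [s1.1, norm_mul]
      calc _ ≤ u ^ 3 * u := mul_le_mul hGG z1 (norm_nonneg _) (by positivity)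
        _ = u ^ 4 := by ring
    · rw [s2, norm_neg, norm_mul]
      have h1 : ‖lam (pt (2 * d) (t0 + y)) * riemannZeta (pt (2 * d) (t0 + y)) +
          deriv riemannZeta (pt (2 * d) (t0 + y))‖ ≤ u ^ 2 := by
        refine (norm_add_le _ _).trans ?_
        rw [norm_mul]
        have h2 := mul_le_mul hlam z1 (norm_nonneg _) (by linarith [norm_nonneg (lam (pt (2 * d) (t0 + y)))])
        nlinarith
      calc _ ≤ u ^ 3 * u ^ 2 := mul_le_mul hGG h1 (norm_nonneg _) (by positivity)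
        _ = u ^ 5 := by ring
    · apply a7 _ (by rw [pt_re]; linarith) (by rw [pt_re])
      rw [pt_im, ← hR]
      have : t0 + y - t0 = y := by ring
      rw [this]
      exact hy
    · rw [dif_norm_refl (qp_conj b h T)]
      apply a7 _ (by rw [pt_re]; linarith) (by rw [pt_re]; linarith)
      rw [pt_im, ← hR]
      have : t0 + y - t0 = y := by ring
      rw [this]
      exact hy
  -- the kernel
  have hkk : ∀ y : ℝ, ‖kk (2 * d) y‖ ≤ u * Real.exp (-y ^ 2) := by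
    intro y
    rw [kk_norm, show (2 * d) ^ 2 - y ^ 2 = (2 * d) ^ 2 + (-y ^ 2) by ring, Real.exp_add]
    apply mul_le_mul_of_nonneg_right _ (Real.exp_pos _).le
    have h1 : (2 * d) ^ 2 ≤ 1 / 2 := by nlinarith
    have h2 : Real.exp ((2 * d) ^ 2) ≤ Real.exp (1 / 2) := Real.exp_le_exp.2 h1
    have h3 : Real.exp (1 / 2) ^ 2 = Real.exp 1 := by
      rw [← Real.exp_nat_mul]
      norm_num
    have h4 := Real.exp_one_lt_d9
    have h5 := Real.exp_pos (1 / 2 : ℝ)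
    have h6 : Real.exp (1 / 2) ≤ 2 := by nlinarith
    linarith
  obtain ⟨E, hE⟩ : ∃ E : ℝ, E = T ^ (10 * d * (b + 3)) := ⟨_, rfl⟩
  have hEu : u ^ 7 * q ≤ E := by
    have e1 : u ^ 7 = T ^ (7 * d) := by
      rw [hu, ← Real.rpow_natCast, ← Real.rpow_mul hTpos.le]
      congr 1
      push_cast
      ring
    rw [e1, hq, hE, ← Real.rpow_add hTpos]
    apply Real.rpow_le_rpow_of_exponent_le (by linarith)
    nlinarith
  have hE0 : 0 ≤ E := by rw [hE]; positivity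
  -- the window terms
  have n2 : ‖I2‖ ≤ ∫ y in (-R)..R, E * (Real.exp (-y ^ 2) *
      (‖Rh b h T (pt (-(2 * d)) (t0 + y))‖ * ‖Bp T (pt (-(2 * d)) (t0 + y))‖)) := by
    rw [hI2]
    refine (intervalIntegral.norm_integral_le_integral_norm (by linarith)).trans ?_
    apply intervalIntegral.integral_mono_on (by linarith) i2.norm
    · apply Continuous.intervalIntegrable
      have c1 : Continuous (fun y : ℝ => Rh b h T (pt (-(2 * d)) (t0 + y))) :=
        (aux_rh b h T).continuous.comp (aux_pt' _ _)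
      have c2 : Continuous (fun y : ℝ => Bp T (pt (-(2 * d)) (t0 + y))) :=
        (aux_bp T).continuous.comp (aux_pt' _ _)
      fun_prop
    · intro y hy
      obtain ⟨w1, w2, w3, w4, w5⟩ := hsz y (abs_le.2 hy)
      rw [norm_mul, norm_mul, norm_mul, norm_mul, dif_norm_refl (rh_conj b h T), dif_norm_refl (bp_conj T)]
      have h1 : ‖-lam (pt (2 * d) (t0 + y)) + Qp b h T (pt (2 * d) (t0 + y))‖ ≤ u ^ 2 * q := by
        refine (norm_add_le _ _).trans ?_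
        rw [norm_neg]
        have r1 : u ≤ u * q := le_mul_of_one_le_right hu0.le hq1
        have r2 : q ≤ u * q := le_mul_of_one_le_left (by linarith) (by linarith)
        have r3 : 2 * (u * q) ≤ u ^ 2 * q := by
          have : u ^ 2 * q = u * (u * q) := by ring
          rw [this]
          exact mul_le_mul_of_nonneg_right hu3 (by positivity)
        linarith
      have h2 := hkk y
      calc ‖kk (2 * d) y‖ * (‖riemannZeta (1 - pt (2 * d) (t0 + y))‖ * ‖Rh b h T (pt (-(2 * d)) (t0 + y))‖ *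
            ‖-lam (pt (2 * d) (t0 + y)) + Qp b h T (pt (2 * d) (t0 + y))‖ * ‖Bp T (pt (-(2 * d)) (t0 + y))‖)
          ≤ (u * Real.exp (-y ^ 2)) * (u ^ 4 * ‖Rh b h T (pt (-(2 * d)) (t0 + y))‖ *
            (u ^ 2 * q) * ‖Bp T (pt (-(2 * d)) (t0 + y))‖) := by gcongr
        _ = (u ^ 7 * q) * (Real.exp (-y ^ 2) *
            (‖Rh b h T (pt (-(2 * d)) (t0 + y))‖ * ‖Bp T (pt (-(2 * d)) (t0 + y))‖)) := by ring
        _ ≤ _ := by gcongr
  have n4 : ‖I4‖ ≤ ∫ y in (-R)..R, E * (Real.exp (-y ^ 2) *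
      (‖Rh b h T (pt (2 * d) (t0 + y))‖ * ‖Bp T (pt (-(2 * d)) (t0 + y))‖)) := by
    rw [hI4]
    refine (intervalIntegral.norm_integral_le_integral_norm (by linarith)).trans ?_
    apply intervalIntegral.integral_mono_on (by linarith) i4.norm
    · apply Continuous.intervalIntegrable
      have c1 : Continuous (fun y : ℝ => Rh b h T (pt (2 * d) (t0 + y))) :=
        (aux_rh b h T).continuous.comp (aux_pt' _ _)
      have c2 : Continuous (fun y : ℝ => Bp T (pt (-(2 * d)) (t0 + y))) :=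
        (aux_bp T).continuous.comp (aux_pt' _ _)
      fun_prop
    · intro y hy
      obtain ⟨w1, w2, w3, w4, w5⟩ := hsz y (abs_le.2 hy)
      rw [norm_mul, norm_mul, norm_mul, dif_norm_refl (bp_conj T)]
      have h1 : ‖fa b h T (1 - pt (2 * d) (t0 + y))‖ ≤ u ^ 6 * q := by
        unfold fa
        refine (norm_add_le _ _).trans ?_
        rw [norm_mul]
        have h3 := mul_le_mul w1 w5 (norm_nonneg _) (by positivity)
        have h4 : u ^ 5 ≤ u ^ 5 * q := le_mul_of_one_le_right (by positivity) hq1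
        have h5 : u ^ 4 * q ≤ u ^ 5 * q := by
          apply mul_le_mul_of_nonneg_right _ (by linarith)
          exact pow_le_pow_right₀ (by linarith) (by norm_num)
        have h6 : 2 * (u ^ 5 * q) ≤ u ^ 6 * q := by
          have : u ^ 6 * q = u * (u ^ 5 * q) := by ring
          rw [this]
          apply mul_le_mul_of_nonneg_right hu3 (by positivity)
        linarith
      have h2 := hkk y
      calc ‖kk (2 * d) y‖ * (‖fa b h T (1 - pt (2 * d) (t0 + y))‖ * ‖Rh b h T (pt (2 * d) (t0 + y))‖ *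
            ‖Bp T (pt (-(2 * d)) (t0 + y))‖)
          ≤ (u * Real.exp (-y ^ 2)) * (u ^ 6 * q * ‖Rh b h T (pt (2 * d) (t0 + y))‖ *
            ‖Bp T (pt (-(2 * d)) (t0 + y))‖) := by gcongr
        _ = (u ^ 7 * q) * (Real.exp (-y ^ 2) *
            (‖Rh b h T (pt (2 * d) (t0 + y))‖ * ‖Bp T (pt (-(2 * d)) (t0 + y))‖)) := by ring
        _ ≤ _ := by gcongr
  have n24 : ‖I2‖ + ‖I4‖ ≤ E * ∫ y in (-R)..R, Real.exp (-y ^ 2) *
          ((‖Rh b h T (pt (2 * d) (t0 + y))‖ + ‖Rh b h T (pt (-(2 * d)) (t0 + y))‖) *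
            ‖Bp T (pt (-(2 * d)) (t0 + y))‖) := by
    refine (add_le_add n2 n4).trans (le_of_eq ?_)
    have c1 : Continuous (fun y : ℝ => Rh b h T (pt (2 * d) (t0 + y))) :=
      (aux_rh b h T).continuous.comp (aux_pt' _ _)
    have c1' : Continuous (fun y : ℝ => Rh b h T (pt (-(2 * d)) (t0 + y))) :=
      (aux_rh b h T).continuous.comp (aux_pt' _ _)
    have c2 : Continuous (fun y : ℝ => Bp T (pt (-(2 * d)) (t0 + y))) :=
      (aux_bp T).continuous.comp (aux_pt' _ _)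
    rw [← intervalIntegral.integral_add (Continuous.intervalIntegrable (by fun_prop) _ _)
      (Continuous.intervalIntegrable (by fun_prop) _ _), ← intervalIntegral.integral_const_mul]
    apply intervalIntegral.integral_congr
    intro y _
    simp only
    ring
  -- powers
  have hTm : T ^ (-(1 : ℝ)) ≤ T ^ (-h / 2) := Real.rpow_le_rpow_of_exponent_le (by linarith) (by linarith)
  have h6T := hp6 T (by linarith)
  have hsum : 6 * T ^ (-h / 2) ≤ T ^ (-h / 4) := by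
    have e1 : T ^ (-h / 4) = T ^ (h / 4) * T ^ (-h / 2) := by
      rw [← Real.rpow_add hTpos]
      congr 1
      ring
    rw [e1]
    exact mul_le_mul_of_nonneg_right h6T (Real.rpow_nonneg hTpos.le _)
  -- conclusion
  have key : JR T (3 / 2) t0 - (starRingEnd ℂ) (JL T (3 / 2) t0) =
      (JR T (3 / 2) t0 - JR T (2 * d) t0) - (starRingEnd ℂ) (JL T (3 / 2) t0 - JL T (2 * d) t0) +
        J1 + ((starRingEnd ℂ) I5 - J2) - (starRingEnd ℂ) I1 + (starRingEnd ℂ) I2 + (starRingEnd ℂ) I3 -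
        (starRingEnd ℂ) I4 := by
    rw [map_sub, hJR]
    have : (starRingEnd ℂ) (JL T (2 * d) t0) = (starRingEnd ℂ) I1 - (starRingEnd ℂ) I2 - (starRingEnd ℂ) I3 +
        (starRingEnd ℂ) I4 - (starRingEnd ℂ) I5 := by
      rw [hJL, map_sub, map_add, map_sub, map_sub]
    rw [this]
    ring
  rw [key, ← hE]
  have f1 := Complex.norm_conj (JL T (3 / 2) t0 - JL T (2 * d) t0)
  have f2 := Complex.norm_conj I1
  have f3 := Complex.norm_conj I2
  have f4 := Complex.norm_conj I3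
  have f5 := Complex.norm_conj I4
  have g1 := norm_sub_le ((JR T (3 / 2) t0 - JR T (2 * d) t0) - (starRingEnd ℂ) (JL T (3 / 2) t0 - JL T (2 * d) t0) +
        J1 + ((starRingEnd ℂ) I5 - J2) - (starRingEnd ℂ) I1 + (starRingEnd ℂ) I2 + (starRingEnd ℂ) I3)
        ((starRingEnd ℂ) I4)
  have g2 := norm_add_le ((JR T (3 / 2) t0 - JR T (2 * d) t0) - (starRingEnd ℂ) (JL T (3 / 2) t0 - JL T (2 * d) t0) +
        J1 + ((starRingEnd ℂ) I5 - J2) - (starRingEnd ℂ) I1 + (starRingEnd ℂ) I2) ((starRingEnd ℂ) I3)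
  have g3 := norm_add_le ((JR T (3 / 2) t0 - JR T (2 * d) t0) - (starRingEnd ℂ) (JL T (3 / 2) t0 - JL T (2 * d) t0) +
        J1 + ((starRingEnd ℂ) I5 - J2) - (starRingEnd ℂ) I1) ((starRingEnd ℂ) I2)
  have g4 := norm_sub_le ((JR T (3 / 2) t0 - JR T (2 * d) t0) - (starRingEnd ℂ) (JL T (3 / 2) t0 - JL T (2 * d) t0) +
        J1 + ((starRingEnd ℂ) I5 - J2)) ((starRingEnd ℂ) I1)
  have g5 := norm_add_le ((JR T (3 / 2) t0 - JR T (2 * d) t0) - (starRingEnd ℂ) (JL T (3 / 2) t0 - JL T (2 * d) t0) +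
        J1) ((starRingEnd ℂ) I5 - J2)
  have g6 := norm_add_le ((JR T (3 / 2) t0 - JR T (2 * d) t0) -
    (starRingEnd ℂ) (JL T (3 / 2) t0 - JL T (2 * d) t0)) J1
  have g7 := norm_sub_le (JR T (3 / 2) t0 - JR T (2 * d) t0) ((starRingEnd ℂ) (JL T (3 / 2) t0 - JL T (2 * d) t0))
  linarith

end Pool.Agent.H24.WH
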