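import Pool.Agent.H24.WH.Defs

/-!
# [H24 WH FDC] Fourier transforms of smooth weights; the function `Uu`

`Uu T x = (int_{|y| ≤ L^2} e^(-y^2) e^(ixy) dy)(int_T^(2T) ph(t0/T) e^(i x t0) dt0)`.
PROOF. (1) `fdc`: for smooth `g` with compact support, integrate by parts `A` times (see `Pool/Agent/H48/WN/Ker.lean`: Schwartz). (2) `int_T^(2T) ph(t0/T) e^(ixt0) dt0 = T · int ph(u) e^(i(Tx)u) du`; derivatives
in `x` bring down factors `i t0 = i T u` or `i y`: use `fdc` for `u^j ph(u)`, `j ≤ 2`, and `|int y^j e^(-y^2) ..| ≤ C`. (3) `Uu T 0 = (sqrt π - O(e^(-L^4))) T P0`.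
-/

set_option autoImplicit false

namespace Pool.Agent.H24.WH

open Complex MeasureTheory Finset Pool.Agent.H48.WN

noncomputable def Uu (T x : ℝ) : ℂ :=
  (∫ y in (-(Real.log T) ^ 2)..((Real.log T) ^ 2), kk 0 y * cexp (I * (x : ℂ) * (y : ℂ))) *
    ∫ t0 in T..(2 * T), ((ph (t0 / T) : ℝ) : ℂ) * cexp (I * (x : ℂ) * (t0 : ℂ))

open scoped FourierTransform SchwartzMap in
theorem fdc (g : ℝ → ℝ) (hg : ContDiff ℝ (⊤ : ℕ∞) g) (hc : HasCompactSupport g) (A : ℕ) :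
    ∃ C : ℝ, 0 < C ∧ ∀ ξ : ℝ, ‖∫ u : ℝ, ((g u : ℝ) : ℂ) * cexp (I * (ξ : ℂ) * (u : ℂ))‖ ≤ C * (1 + |ξ|) ^ (-(A : ℝ)) := by
  have hc' : HasCompactSupport (fun u => ((g u : ℝ) : ℂ)) := hc.comp_left Complex.ofReal_zero
  have hg' : ContDiff ℝ (⊤ : ℕ∞) (fun u => ((g u : ℝ) : ℂ)) := Complex.ofRealCLM.contDiff.comp hg
  obtain ⟨f, hf⟩ : ∃ f : 𝓢(ℝ, ℂ), ∀ u, f u = ((g u : ℝ) : ℂ) := ⟨hc'.toSchwartzMap hg', fun _ => rfl⟩
  obtain ⟨F, hF⟩ : ∃ F : 𝓢(ℝ, ℂ), F = 𝓕 f := ⟨𝓕 f, rfl⟩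
  have hpi : 0 < 2 * Real.pi := Real.two_pi_pos
  have key : ∀ ξ : ℝ, (∫ u : ℝ, ((g u : ℝ) : ℂ) * cexp (I * (ξ : ℂ) * (u : ℂ))) = F (-ξ / (2 * Real.pi)) := by
    intro ξ
    rw [hF]
    show _ = 𝓕 (f : ℝ → ℂ) (-ξ / (2 * Real.pi))
    rw [Real.fourier_real_eq_integral_exp_smul]
    refine integral_congr_ae (Filter.Eventually.of_forall fun u => ?_)
    have h3 : ((-2 * Real.pi * u * (-ξ / (2 * Real.pi)) : ℝ) : ℂ) * I = I * (ξ : ℂ) * (u : ℂ) := by
      have h4 : (-2 * Real.pi * u * (-ξ / (2 * Real.pi)) : ℝ) = ξ * u := by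
        field_simp
      rw [h4]
      push_cast
      ring
    show ((g u : ℝ) : ℂ) * cexp (I * (ξ : ℂ) * (u : ℂ)) =
      cexp (((-2 * Real.pi * u * (-ξ / (2 * Real.pi)) : ℝ) : ℂ) * I) • f u
    rw [h3, smul_eq_mul, hf]
    ring
  obtain ⟨C, hC⟩ : ∃ C : ℝ, ∀ x : ℝ, (1 + |x|) ^ A * ‖F x‖ ≤ C := by
    refine ⟨2 ^ A * (Finset.Iic ((A, 0) : ℕ × ℕ)).sup (fun m => SchwartzMap.seminorm ℝ m.1 m.2) F,
      fun x => ?_⟩
    have h1 := SchwartzMap.one_add_le_sup_seminorm_apply (𝕜 := ℝ) (m := (A, 0)) (k := A) (n := 0)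
      le_rfl le_rfl F x
    rw [norm_iteratedFDeriv_zero, Real.norm_eq_abs] at h1
    exact h1
  have hC0 : 0 ≤ C := le_trans (by positivity) (hC 0)
  refine ⟨(2 * Real.pi) ^ A * C + 1, by positivity, fun ξ => ?_⟩
  rw [key ξ]
  have h1 := hC (-ξ / (2 * Real.pi))
  have hy : 0 < 1 + |ξ| := by positivity
  have h2 : (1 + |ξ|) ^ A ≤ (2 * Real.pi) ^ A * (1 + |-ξ / (2 * Real.pi)|) ^ A := by
    rw [← mul_pow]
    apply pow_le_pow_left₀ hy.le
    rw [abs_div, abs_neg, abs_of_pos hpi, mul_add, mul_div_cancel₀ _ hpi.ne']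
    have := Real.pi_gt_three
    linarith
  have h3 : ‖F (-ξ / (2 * Real.pi))‖ * (1 + |ξ|) ^ A ≤ (2 * Real.pi) ^ A * C := by
    calc ‖F (-ξ / (2 * Real.pi))‖ * (1 + |ξ|) ^ A
        ≤ ‖F (-ξ / (2 * Real.pi))‖ * ((2 * Real.pi) ^ A * (1 + |-ξ / (2 * Real.pi)|) ^ A) := by
          gcongr
      _ = (2 * Real.pi) ^ A * ((1 + |-ξ / (2 * Real.pi)|) ^ A * ‖F (-ξ / (2 * Real.pi))‖) := by ring
      _ ≤ (2 * Real.pi) ^ A * C := by gcongr
  rw [Real.rpow_neg hy.le, Real.rpow_natCast, ← div_eq_mul_inv, le_div_iff₀ (by positivity)]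
  linarith

/-! ### integrals over a bounded interval -/

private noncomputable def fdcJ (a b : ℝ) (φ : ℝ → ℂ) (j : ℕ) (x : ℝ) : ℂ :=
  ∫ y in a..b, φ y * (I * (y : ℂ)) ^ j * cexp (I * (x : ℂ) * (y : ℂ))

private theorem fdc_norm_exp (x y : ℝ) : ‖cexp (I * (x : ℂ) * (y : ℂ))‖ = 1 := by
  have : I * (x : ℂ) * (y : ℂ) = ((x * y : ℝ) : ℂ) * I := by
    push_cast
    ring
  rw [this, Complex.norm_exp_ofReal_mul_I]

private theorem fdcJ_hasDeriv (a b : ℝ) (φ : ℝ → ℂ) (hφ : Continuous φ) (j : ℕ) (x : ℝ) :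
    HasDerivAt (fdcJ a b φ j) (fdcJ a b φ (j + 1) x) x := by
  have hc : ∀ (i : ℕ) (x : ℝ),
      Continuous (fun y : ℝ => φ y * (I * (y : ℂ)) ^ i * cexp (I * (x : ℂ) * (y : ℂ))) := by
    intro i x
    fun_prop
  have h := intervalIntegral.hasDerivAt_integral_of_dominated_loc_of_deriv_le
    (μ := volume) (a := a) (b := b) (s := Set.univ) (x₀ := x)
    (F := fun (x : ℝ) (y : ℝ) => φ y * (I * (y : ℂ)) ^ j * cexp (I * (x : ℂ) * (y : ℂ)))
    (F' := fun (x : ℝ) (y : ℝ) => φ y * (I * (y : ℂ)) ^ (j + 1) * cexp (I * (x : ℂ) * (y : ℂ)))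
    (bound := fun y : ℝ => ‖φ y * (I * (y : ℂ)) ^ (j + 1)‖)
    Filter.univ_mem
    (Filter.Eventually.of_forall fun x' => ((hc j x').aestronglyMeasurable))
    ((hc j x).intervalIntegrable _ _)
    ((hc (j + 1) x).aestronglyMeasurable)
    (Filter.Eventually.of_forall fun y _ x' _ => by
      show ‖φ y * (I * (y : ℂ)) ^ (j + 1) * cexp (I * (x' : ℂ) * (y : ℂ))‖ ≤ _
      rw [norm_mul, fdc_norm_exp, mul_one])
    ((by fun_prop : Continuous fun y : ℝ => ‖φ y * (I * (y : ℂ)) ^ (j + 1)‖).intervalIntegrable _ _)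
    (Filter.Eventually.of_forall fun y _ x' _ => by
      have h1 : HasDerivAt (fun x : ℝ => I * (x : ℂ) * (y : ℂ)) (I * (y : ℂ)) x' := by
        have h2 := ((Complex.ofRealCLM.hasDerivAt (x := x')).const_mul I).mul_const (y : ℂ)
        simpa using h2
      have h3 := (h1.cexp).const_mul (φ y * (I * (y : ℂ)) ^ j)
      have h4 : φ y * (I * (y : ℂ)) ^ j * (cexp (I * (x' : ℂ) * (y : ℂ)) * (I * (y : ℂ)))
          = φ y * (I * (y : ℂ)) ^ (j + 1) * cexp (I * (x' : ℂ) * (y : ℂ)) := by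
        ring
      rw [h4] at h3
      exact h3)
  exact h.2

private theorem fdcJ_contDiff (a b : ℝ) (φ : ℝ → ℂ) (hφ : Continuous φ) (n : ℕ) :
    ∀ j : ℕ, ContDiff ℝ n (fdcJ a b φ j) := by
  induction n with
  | zero =>
    intro j
    rw [Nat.cast_zero, contDiff_zero]
    exact continuous_iff_continuousAt.mpr fun x => (fdcJ_hasDeriv a b φ hφ j x).continuousAt
  | succ n ih =>
    intro j
    rw [Nat.cast_succ, contDiff_succ_iff_deriv]
    refine ⟨fun x => (fdcJ_hasDeriv a b φ hφ j x).differentiableAt, fun h => ?_, ?_⟩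
    · exact absurd h (by simp)
    · have : deriv (fdcJ a b φ j) = fdcJ a b φ (j + 1) :=
        funext fun x => (fdcJ_hasDeriv a b φ hφ j x).deriv
      rw [this]
      exact ih (j + 1)

private theorem fdc_kk_cont : Continuous (kk 0) := by
  unfold kk
  fun_prop

private theorem fdc_ph_cont (T : ℝ) : Continuous (fun t0 : ℝ => ((ph (t0 / T) : ℝ) : ℂ)) := by
  have h := ph_contDiff.continuous
  exact Complex.continuous_ofReal.comp (h.comp (continuous_id.div_const T))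

private theorem uu_eq (T : ℝ) : Uu T = fun x =>
    fdcJ (-(Real.log T) ^ 2) ((Real.log T) ^ 2) (kk 0) 0 x *
      fdcJ T (2 * T) (fun t0 : ℝ => ((ph (t0 / T) : ℝ) : ℂ)) 0 x := by
  funext x
  unfold Uu fdcJ
  simp only [pow_zero, mul_one]

theorem uu_smooth (T : ℝ) (hT : 10 ≤ T) : ContDiff ℝ (⊤ : ℕ∞) (Uu T) := by
  rw [uu_eq]
  apply contDiff_infty.mpr
  intro n
  exact (fdcJ_contDiff _ _ _ fdc_kk_cont n 0).mul (fdcJ_contDiff _ _ _ (fdc_ph_cont T) n 0)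

/-! ### the Gaussian factor -/

private theorem fdc_gauss_pt (j : ℕ) (hj : j ≤ 2) (y : ℝ) :
    |y| ^ j * Real.exp (-y ^ 2) ≤ 2 * Real.exp (-(1 / 2) * y ^ 2) := by
  have h1 : Real.exp (-y ^ 2) = Real.exp (-(1 / 2) * y ^ 2) * Real.exp (-(1 / 2) * y ^ 2) := by
    rw [← Real.exp_add]
    congr 1
    ring
  have h2 : |y| ^ j * Real.exp (-(1 / 2) * y ^ 2) ≤ 2 := by
    have h3 : |y| ^ j ≤ 2 * Real.exp ((1 / 2) * y ^ 2) := by
      have h4 : (1 / 2) * y ^ 2 + 1 ≤ Real.exp ((1 / 2) * y ^ 2) := Real.add_one_le_exp _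
      have h5 : |y| ^ 2 = y ^ 2 := sq_abs y
      have h6 : 0 ≤ |y| := abs_nonneg y
      interval_cases j
      · nlinarith
      · nlinarith [sq_nonneg (|y| - 1)]
      · rw [h5]
        linarith
    have h7 : Real.exp ((1 / 2) * y ^ 2) * Real.exp (-(1 / 2) * y ^ 2) = 1 := by
      rw [← Real.exp_add]
      have : (1 / 2) * y ^ 2 + -(1 / 2) * y ^ 2 = 0 := by ring
      rw [this, Real.exp_zero]
    calc |y| ^ j * Real.exp (-(1 / 2) * y ^ 2)
        ≤ 2 * Real.exp ((1 / 2) * y ^ 2) * Real.exp (-(1 / 2) * y ^ 2) := by gcongr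
      _ = 2 := by rw [mul_assoc, h7, mul_one]
  rw [h1, ← mul_assoc]
  exact mul_le_mul_of_nonneg_right h2 (Real.exp_pos _).le

private theorem fdc_K_bound (j : ℕ) (hj : j ≤ 2) (R x : ℝ) (hR : 0 ≤ R) :
    ‖fdcJ (-R) R (kk 0) j x‖ ≤ ∫ y : ℝ, 2 * Real.exp (-(1 / 2) * y ^ 2) := by
  have hint : Integrable (fun y : ℝ => 2 * Real.exp (-(1 / 2) * y ^ 2)) :=
    (integrable_exp_neg_mul_sq (by norm_num)).const_mul 2
  unfold fdcJ
  calc ‖∫ y in (-R)..R, kk 0 y * (I * (y : ℂ)) ^ j * cexp (I * (x : ℂ) * (y : ℂ))‖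
      ≤ ∫ y in (-R)..R, 2 * Real.exp (-(1 / 2) * y ^ 2) := by
        apply intervalIntegral.norm_integral_le_of_norm_le (by linarith)
        · refine Filter.Eventually.of_forall fun y _ => ?_
          rw [norm_mul, fdc_norm_exp, mul_one, norm_mul, kk_norm, norm_pow, norm_mul, Complex.norm_I,
            one_mul, Complex.norm_real, Real.norm_eq_abs]
          have h1 := fdc_gauss_pt j hj y
          have h2 : (0 : ℝ) ^ 2 - y ^ 2 = -y ^ 2 := by ring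
          rw [h2, mul_comm]
          exact h1
        · exact hint.intervalIntegrable
    _ ≤ ∫ y : ℝ, 2 * Real.exp (-(1 / 2) * y ^ 2) := by
        rw [intervalIntegral.integral_of_le (by linarith)]
        exact setIntegral_le_integral hint (Filter.Eventually.of_forall fun y => by positivity)

/-! ### the factor with `ph` -/

private theorem fdc_ph_supp : HasCompactSupport ph := by
  refine HasCompactSupport.intro (isCompact_Icc (a := (1 : ℝ)) (b := 2)) fun u hu => ?_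
  rw [Set.mem_Icc, not_and_or, not_le, not_le] at hu
  rcases hu with h | h
  · exact ph_zero_left h.le
  · exact ph_zero_right h.le

private theorem fdc_W (j A : ℕ) : ∃ C : ℝ, 0 < C ∧ ∀ T : ℝ, 10 ≤ T → ∀ x : ℝ,
    ‖fdcJ T (2 * T) (fun t0 : ℝ => ((ph (t0 / T) : ℝ) : ℂ)) j x‖ ≤
      C * T ^ (j + 1) * (1 + T * |x|) ^ (-(A : ℝ)) := by
  obtain ⟨C, hC, hb⟩ := fdc (fun u => u ^ j * ph u) ((contDiff_id.pow j).mul ph_contDiff)
    (fdc_ph_supp.mul_left) A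
  refine ⟨C, hC, fun T hT x => ?_⟩
  have hT0 : 0 < T := by linarith
  have h1 : fdcJ T (2 * T) (fun t0 : ℝ => ((ph (t0 / T) : ℝ) : ℂ)) j x =
      ((T ^ (j + 1) : ℝ) : ℂ) * (I ^ j *
        ∫ u : ℝ, ((u ^ j * ph u : ℝ) : ℂ) * cexp (I * ((T * x : ℝ) : ℂ) * (u : ℂ))) := by
    unfold fdcJ
    obtain ⟨G, hG⟩ : ∃ G : ℝ → ℂ, ∀ u : ℝ, G u = ((T ^ j : ℝ) : ℂ) * (I ^ j *
        (((u ^ j * ph u : ℝ) : ℂ) * cexp (I * ((T * x : ℝ) : ℂ) * (u : ℂ)))) := ⟨_, fun _ => rfl⟩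
    have e1 : ∀ t0 : ℝ, ((ph (t0 / T) : ℝ) : ℂ) * (I * (t0 : ℂ)) ^ j * cexp (I * (x : ℂ) * (t0 : ℂ)) =
        G (t0 / T) := by
      intro t0
      rw [hG]
      have e2 : (t0 : ℂ) = ((T : ℝ) : ℂ) * ((t0 / T : ℝ) : ℂ) := by
        rw [← Complex.ofReal_mul]
        congr 1
        field_simp
      show ((ph (t0 / T) : ℝ) : ℂ) * (I * (t0 : ℂ)) ^ j * cexp (I * (x : ℂ) * (t0 : ℂ)) =
        ((T ^ j : ℝ) : ℂ) * (I ^ j * ((((t0 / T) ^ j * ph (t0 / T) : ℝ) : ℂ) *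
          cexp (I * ((T * x : ℝ) : ℂ) * ((t0 / T : ℝ) : ℂ))))
      have e3 : I * (x : ℂ) * (t0 : ℂ) = I * ((T * x : ℝ) : ℂ) * ((t0 / T : ℝ) : ℂ) := by
        rw [e2]
        push_cast
        have : (T : ℂ) ≠ 0 := by exact_mod_cast hT0.ne'
        field_simp
      rw [e3]
      have e4 : (I * (t0 : ℂ)) ^ j = I ^ j * (((T : ℝ) : ℂ) ^ j * ((t0 / T : ℝ) : ℂ) ^ j) := by
        rw [e2, mul_pow, mul_pow]
      rw [e4]
      push_cast
      ring
    simp only [e1]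
    rw [intervalIntegral.integral_comp_div G hT0.ne', div_self hT0.ne', mul_div_assoc, div_self hT0.ne',
      mul_one]
    simp only [hG]
    rw [intervalIntegral.integral_const_mul, intervalIntegral.integral_const_mul]
    have e5 : (∫ u in (1 : ℝ)..2, ((u ^ j * ph u : ℝ) : ℂ) * cexp (I * ((T * x : ℝ) : ℂ) * (u : ℂ))) =
        ∫ u : ℝ, ((u ^ j * ph u : ℝ) : ℂ) * cexp (I * ((T * x : ℝ) : ℂ) * (u : ℂ)) := by
      rw [intervalIntegral.integral_of_le (by norm_num)]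
      apply setIntegral_eq_integral_of_forall_compl_eq_zero
      intro u hu
      have : ph u = 0 := by
        rw [Set.mem_Ioc, not_and_or, not_lt, not_le] at hu
        rcases hu with h | h
        · exact ph_zero_left h
        · exact ph_zero_right h.le
      rw [this, mul_zero, Complex.ofReal_zero, zero_mul]
    rw [e5, Complex.real_smul, pow_succ]
    push_cast
    ring
  rw [h1, norm_mul, Complex.norm_real, Real.norm_eq_abs, abs_of_pos (by positivity), norm_mul, norm_pow,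
    Complex.norm_I, one_pow, one_mul]
  have h2 := hb (T * x)
  have h3 : |T * x| = T * |x| := by rw [abs_mul, abs_of_pos hT0]
  rw [h3] at h2
  calc T ^ (j + 1) * ‖∫ u : ℝ, ((u ^ j * ph u : ℝ) : ℂ) * cexp (I * ((T * x : ℝ) : ℂ) * (u : ℂ))‖
      ≤ T ^ (j + 1) * (C * (1 + T * |x|) ^ (-(A : ℝ))) := by gcongr
    _ = C * T ^ (j + 1) * (1 + T * |x|) ^ (-(A : ℝ)) := by ring

theorem uu_dec (A : ℕ) : ∃ C : ℝ, 0 < C ∧ ∀ T : ℝ, 10 ≤ T → ∀ x : ℝ,
    ‖Uu T x‖ ≤ C * T * (1 + T * |x|) ^ (-(A : ℝ)) ∧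
    ‖deriv (Uu T) x‖ ≤ C * T ^ 2 * (1 + T * |x|) ^ (-(A : ℝ)) ∧
    ‖deriv (deriv (Uu T)) x‖ ≤ C * T ^ 3 * (1 + T * |x|) ^ (-(A : ℝ)) := by
  obtain ⟨C0, hC0, hb0⟩ := fdc_W 0 A
  obtain ⟨C1, hC1, hb1⟩ := fdc_W 1 A
  obtain ⟨C2, hC2, hb2⟩ := fdc_W 2 A
  obtain ⟨M, hM, hMK⟩ : ∃ M : ℝ, 0 < M ∧ ∀ (j : ℕ), j ≤ 2 → ∀ (R x : ℝ), 0 ≤ R →
      ‖fdcJ (-R) R (kk 0) j x‖ ≤ M := by
    refine ⟨(∫ y : ℝ, 2 * Real.exp (-(1 / 2) * y ^ 2)) + 1, ?_, fun j hj R x hR => ?_⟩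
    · have : 0 ≤ ∫ y : ℝ, 2 * Real.exp (-(1 / 2) * y ^ 2) :=
        integral_nonneg fun y => by positivity
      linarith
    · have := fdc_K_bound j hj R x hR
      linarith
  set S := C0 + C1 + C2 with hS
  refine ⟨4 * M * S, by positivity, fun T hT x => ?_⟩
  have hT0 : 0 < T := by linarith
  have hR : 0 ≤ (Real.log T) ^ 2 := sq_nonneg _
  set K : ℕ → ℝ → ℂ := fun j => fdcJ (-(Real.log T) ^ 2) ((Real.log T) ^ 2) (kk 0) j with hK
  set W : ℕ → ℝ → ℂ := fun j => fdcJ T (2 * T) (fun t0 : ℝ => ((ph (t0 / T) : ℝ) : ℂ)) j with hW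
  have dK : ∀ j x, HasDerivAt (K j) (K (j + 1) x) x := fun j x => fdcJ_hasDeriv _ _ _ fdc_kk_cont j x
  have dW : ∀ j x, HasDerivAt (W j) (W (j + 1) x) x := fun j x =>
    fdcJ_hasDeriv _ _ _ (fdc_ph_cont T) j x
  have u0 : Uu T = fun x => K 0 x * W 0 x := uu_eq T
  have u1 : deriv (Uu T) = fun x => K 1 x * W 0 x + K 0 x * W 1 x := by
    funext x
    rw [u0]
    exact ((dK 0 x).mul (dW 0 x)).deriv
  have u2 : deriv (deriv (Uu T)) = fun x => (K 2 x * W 0 x + K 1 x * W 1 x) +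
      (K 1 x * W 1 x + K 0 x * W 2 x) := by
    funext x
    rw [u1]
    exact (((dK 1 x).mul (dW 0 x)).add ((dK 0 x).mul (dW 1 x))).deriv
  set D := (1 + T * |x|) ^ (-(A : ℝ)) with hD
  have hD0 : 0 ≤ D := by positivity
  have k0 : ‖K 0 x‖ ≤ M := hMK 0 (by norm_num) _ x hR
  have k1 : ‖K 1 x‖ ≤ M := hMK 1 (by norm_num) _ x hR
  have k2 : ‖K 2 x‖ ≤ M := hMK 2 (by norm_num) _ x hR
  have w0 : ‖W 0 x‖ ≤ S * T * D := by
    have h := hb0 T hT x
    rw [zero_add, pow_one] at h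
    refine h.trans ?_
    have : C0 ≤ S := by rw [hS]; linarith
    gcongr
  have w1 : ‖W 1 x‖ ≤ S * T ^ 2 * D := by
    have h := hb1 T hT x
    refine h.trans ?_
    have : C1 ≤ S := by rw [hS]; linarith
    gcongr
  have w2 : ‖W 2 x‖ ≤ S * T ^ 3 * D := by
    have h := hb2 T hT x
    refine h.trans ?_
    have : C2 ≤ S := by rw [hS]; linarith
    gcongr
  have hS0 : 0 < S := by positivity
  have hSD : 0 ≤ S * D := by positivity
  have t12 : T ≤ T ^ 2 := by nlinarith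
  have t23 : T ^ 2 ≤ T ^ 3 := by nlinarith [sq_nonneg T]
  have p : ∀ a b : ℂ, ∀ c : ℝ, ‖a‖ ≤ M → ‖b‖ ≤ c → ‖a * b‖ ≤ M * c := by
    intro a b c ha hb
    rw [norm_mul]
    exact mul_le_mul ha hb (norm_nonneg _) hM.le
  have e1 : S * T * D ≤ S * T ^ 2 * D := by gcongr
  have e2 : S * T ^ 2 * D ≤ S * T ^ 3 * D := by gcongr
  refine ⟨?_, ?_, ?_⟩
  · rw [u0]
    have h := p _ _ _ k0 w0
    have h0 : 0 ≤ M * (S * T * D) := by positivity
    calc ‖K 0 x * W 0 x‖ ≤ M * (S * T * D) := h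
      _ ≤ 4 * (M * (S * T * D)) := by linarith
      _ = 4 * M * S * T * D := by ring
  · rw [u1]
    have ha := p _ _ _ k1 (w0.trans e1)
    have hb := p _ _ _ k0 w1
    have h0 : 0 ≤ M * (S * T ^ 2 * D) := by positivity
    calc ‖K 1 x * W 0 x + K 0 x * W 1 x‖ ≤ ‖K 1 x * W 0 x‖ + ‖K 0 x * W 1 x‖ := norm_add_le _ _
      _ ≤ 4 * (M * (S * T ^ 2 * D)) := by linarith
      _ = 4 * M * S * T ^ 2 * D := by ring
  · rw [u2]
    have ha := p _ _ _ k2 (w0.trans (e1.trans e2))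
    have hb := p _ _ _ k1 (w1.trans e2)
    have hc := p _ _ _ k0 w2
    calc ‖(K 2 x * W 0 x + K 1 x * W 1 x) + (K 1 x * W 1 x + K 0 x * W 2 x)‖
        ≤ ‖K 2 x * W 0 x + K 1 x * W 1 x‖ + ‖K 1 x * W 1 x + K 0 x * W 2 x‖ := norm_add_le _ _
      _ ≤ (‖K 2 x * W 0 x‖ + ‖K 1 x * W 1 x‖) + (‖K 1 x * W 1 x‖ + ‖K 0 x * W 2 x‖) :=
          add_le_add (norm_add_le _ _) (norm_add_le _ _)
      _ ≤ 4 * (M * (S * T ^ 3 * D)) := by linarith
      _ = 4 * M * S * T ^ 3 * D := by ring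

/-! ### the value at `0` -/

private theorem fdc_ph_integrable (a b : ℝ) : IntervalIntegrable ph volume a b :=
  ph_contDiff.continuous.intervalIntegrable _ _

theorem p0_bd : 1 / 2 ≤ P0 ∧ P0 ≤ 1 := by
  constructor
  · have h1 : (∫ u in (5 / 4 : ℝ)..(7 / 4), ph u) ≤ P0 := by
      unfold P0
      apply intervalIntegral.integral_mono_interval (by norm_num) (by norm_num) (by norm_num)
      · exact Filter.Eventually.of_forall fun u => ph_nonneg u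
      · exact fdc_ph_integrable _ _
    have h2 : (∫ u in (5 / 4 : ℝ)..(7 / 4), (1 : ℝ)) ≤ ∫ u in (5 / 4 : ℝ)..(7 / 4), ph u := by
      apply intervalIntegral.integral_mono_on (by norm_num) (by simp) (fdc_ph_integrable _ _)
      intro u hu
      rw [Set.mem_Icc] at hu
      unfold ph
      rw [Real.smoothTransition.one_of_one_le (by linarith [hu.1]),
        Real.smoothTransition.one_of_one_le (by linarith [hu.2]), mul_one]
    rw [intervalIntegral.integral_const, smul_eq_mul, mul_one] at h2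
    linarith
  · have h2 : P0 ≤ ∫ u in (1 : ℝ)..2, (1 : ℝ) := by
      unfold P0
      apply intervalIntegral.integral_mono_on (by norm_num) (fdc_ph_integrable _ _) (by simp)
      intro u _
      exact ph_le u
    rw [intervalIntegral.integral_const, smul_eq_mul, mul_one] at h2
    linarith

private theorem fdc_tail (R : ℝ) (hR : 0 ≤ R) :
    |(∫ y in (-R)..R, Real.exp (-y ^ 2)) - Real.sqrt Real.pi| ≤ 3 * Real.exp (-(R ^ 2 / 2)) := by
  have hi : Integrable (fun y : ℝ => Real.exp (-y ^ 2)) := by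
    have h := integrable_exp_neg_mul_sq (b := (1 : ℝ)) one_pos
    refine h.congr (Filter.Eventually.of_forall fun y => ?_)
    show Real.exp (-1 * y ^ 2) = Real.exp (-y ^ 2)
    rw [neg_one_mul]
  have hg : (∫ y : ℝ, Real.exp (-y ^ 2)) = Real.sqrt Real.pi := by
    have h := integral_gaussian 1
    rw [div_one] at h
    rw [← h]
    congr 1
    funext y
    rw [neg_one_mul]
  have hs : MeasurableSet (Set.Ioc (-R) R) := measurableSet_Ioc
  have h1 : (∫ y in (-R)..R, Real.exp (-y ^ 2)) - Real.sqrt Real.pi =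
      -∫ y in (Set.Ioc (-R) R)ᶜ, Real.exp (-y ^ 2) := by
    rw [intervalIntegral.integral_of_le (by linarith), ← hg, ← integral_add_compl hs hi]
    ring
  have hi2 : Integrable (fun y : ℝ => Real.exp (-(R ^ 2 / 2)) * Real.exp (-(1 / 2) * y ^ 2)) :=
    (integrable_exp_neg_mul_sq (by norm_num)).const_mul _
  have h2 : (∫ y in (Set.Ioc (-R) R)ᶜ, Real.exp (-y ^ 2)) ≤
      ∫ y in (Set.Ioc (-R) R)ᶜ, Real.exp (-(R ^ 2 / 2)) * Real.exp (-(1 / 2) * y ^ 2) := by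
    apply setIntegral_mono_on hi.integrableOn hi2.integrableOn hs.compl
    intro y hy
    rw [← Real.exp_add]
    apply Real.exp_le_exp.mpr
    rw [Set.mem_compl_iff, Set.mem_Ioc, not_and_or, not_lt, not_le] at hy
    have : R ^ 2 ≤ y ^ 2 := by
      rcases hy with h | h <;> nlinarith
    linarith
  have h3 : (∫ y in (Set.Ioc (-R) R)ᶜ, Real.exp (-(R ^ 2 / 2)) * Real.exp (-(1 / 2) * y ^ 2)) ≤
      ∫ y : ℝ, Real.exp (-(R ^ 2 / 2)) * Real.exp (-(1 / 2) * y ^ 2) :=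
    setIntegral_le_integral hi2 (Filter.Eventually.of_forall fun y => by positivity)
  have h4 : (∫ y : ℝ, Real.exp (-(R ^ 2 / 2)) * Real.exp (-(1 / 2) * y ^ 2)) ≤
      3 * Real.exp (-(R ^ 2 / 2)) := by
    rw [integral_const_mul, integral_gaussian, mul_comm]
    have h5 : Real.sqrt (Real.pi / (1 / 2)) ≤ 3 := by
      rw [Real.sqrt_le_left (by norm_num)]
      have := Real.pi_lt_four
      linarith
    exact mul_le_mul_of_nonneg_right h5 (Real.exp_pos _).le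
  have h0 : 0 ≤ ∫ y in (Set.Ioc (-R) R)ᶜ, Real.exp (-y ^ 2) :=
    integral_nonneg fun y => (Real.exp_pos _).le
  rw [h1, abs_neg, abs_of_nonneg h0]
  linarith

theorem uu_zero : ∃ T0 : ℝ, 10 ≤ T0 ∧ ∀ T : ℝ, T0 ≤ T →
    ‖Uu T 0 - ((Real.sqrt Real.pi * T * P0 : ℝ) : ℂ)‖ ≤ T ^ (-(10 : ℝ)) := by
  have he : (10 : ℝ) ≤ Real.exp 4 := by
    have h1 : (2 : ℝ) ≤ Real.exp 1 := by
      have := Real.add_one_le_exp (1 : ℝ)
      linarith
    have h2 : Real.exp 4 = Real.exp 1 ^ 4 := by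
      rw [← Real.exp_nat_mul]
      norm_num
    rw [h2]
    have h3 : (2 : ℝ) ^ 4 ≤ Real.exp 1 ^ 4 := pow_le_pow_left₀ (by norm_num) h1 4
    linarith [h3]
  refine ⟨Real.exp 4, he, fun T hT => ?_⟩
  have hT10 : 10 ≤ T := he.trans hT
  have hT0 : 0 < T := by linarith
  have hL : 4 ≤ Real.log T := by
    rw [Real.le_log_iff_exp_le hT0]
    exact hT
  set L := Real.log T with hLdef
  have hK : (∫ y in (-L ^ 2)..(L ^ 2), kk 0 y * cexp (I * ((0 : ℝ) : ℂ) * (y : ℂ))) =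
      ((∫ y in (-L ^ 2)..(L ^ 2), Real.exp (-y ^ 2) : ℝ) : ℂ) := by
    rw [← intervalIntegral.integral_ofReal]
    apply intervalIntegral.integral_congr
    intro y _
    show kk 0 y * cexp (I * ((0 : ℝ) : ℂ) * (y : ℂ)) = ((Real.exp (-y ^ 2) : ℝ) : ℂ)
    rw [kk_zero, Complex.ofReal_zero, mul_zero, zero_mul, Complex.exp_zero, mul_one]
  have hW : (∫ t0 in T..(2 * T), ((ph (t0 / T) : ℝ) : ℂ) * cexp (I * ((0 : ℝ) : ℂ) * (t0 : ℂ))) =
      ((T * P0 : ℝ) : ℂ) := by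
    have e1 : ∀ t0 : ℝ, ((ph (t0 / T) : ℝ) : ℂ) * cexp (I * ((0 : ℝ) : ℂ) * (t0 : ℂ)) =
        (fun u : ℝ => ((ph u : ℝ) : ℂ)) (t0 / T) := by
      intro t0
      rw [Complex.ofReal_zero, mul_zero, zero_mul, Complex.exp_zero, mul_one]
    simp only [e1]
    rw [intervalIntegral.integral_comp_div (fun u : ℝ => ((ph u : ℝ) : ℂ)) hT0.ne', div_self hT0.ne',
      mul_div_assoc, div_self hT0.ne', mul_one, intervalIntegral.integral_ofReal, Complex.real_smul]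
    unfold P0
    push_cast
    ring
  have hU : Uu T 0 = (((∫ y in (-L ^ 2)..(L ^ 2), Real.exp (-y ^ 2)) * (T * P0) : ℝ) : ℂ) := by
    unfold Uu
    rw [hK, hW]
    push_cast
    ring
  rw [hU, ← Complex.ofReal_sub, Complex.norm_real, Real.norm_eq_abs]
  have h1 := fdc_tail (L ^ 2) (sq_nonneg L)
  have hP := p0_bd
  have e3 : (∫ y in (-L ^ 2)..(L ^ 2), Real.exp (-y ^ 2)) * (T * P0) - Real.sqrt Real.pi * T * P0 =
      ((∫ y in (-L ^ 2)..(L ^ 2), Real.exp (-y ^ 2)) - Real.sqrt Real.pi) * (T * P0) := by ring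
  rw [e3, abs_mul, abs_of_nonneg (by nlinarith [hP.1] : (0 : ℝ) ≤ T * P0)]
  have hTP : T * P0 ≤ T := by nlinarith [hP.2]
  have hTL : T = Real.exp L := by rw [hLdef, Real.exp_log hT0]
  have h5 : |(∫ y in (-L ^ 2)..(L ^ 2), Real.exp (-y ^ 2)) - Real.sqrt Real.pi| * (T * P0) ≤
      3 * Real.exp (-((L ^ 2) ^ 2 / 2)) * T := by
    apply mul_le_mul h1 hTP (by nlinarith [hP.1]) (by positivity)
  refine h5.trans ?_
  have h6 : T ^ (-(10 : ℝ)) = Real.exp (-(10 * L)) := by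
    rw [Real.rpow_def_of_pos hT0]
    congr 1
    ring
  have h7 : (3 : ℝ) ≤ Real.exp 2 := by
    have := Real.add_one_le_exp (2 : ℝ)
    linarith
  rw [h6]
  calc 3 * Real.exp (-((L ^ 2) ^ 2 / 2)) * T
      ≤ Real.exp 2 * Real.exp (-((L ^ 2) ^ 2 / 2)) * Real.exp L := by
        rw [← hTL]
        gcongr
    _ = Real.exp (2 + -((L ^ 2) ^ 2 / 2) + L) := by rw [Real.exp_add, Real.exp_add]
    _ ≤ Real.exp (-(10 * L)) := by
        apply Real.exp_le_exp.mpr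
        have h8 : 64 ≤ L ^ 3 := by
          have : (4 : ℝ) ^ 3 ≤ L ^ 3 := pow_le_pow_left₀ (by norm_num) hL 3
          linarith
        have h9 : (L ^ 2) ^ 2 = L * L ^ 3 := by ring
        rw [h9]
        nlinarith

end Pool.Agent.H24.WH
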