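import Pool.Agent.H24.WH.Mai
import Pool.Agent.H48.WN.Tra

/-!
# [H24 WH FIH] the final theorem

PROOF. Copy `Pool/Agent/H48/WN/Fin.lean` (`fin_half`, `fin_one` private: copy): `b = 1/(1-θ0)`, `T = Y^(1-θ0)`, `mai b ε1`: `X ≤ T^(b+1/2+ε1) = Y^(1 + (1-θ0)/2 + ..)`; `β = log T/log X ≥ 1/(b+1/2+ε1)`, `1 - β ≤ 1 - 1/(b+1/2) + ε1'`,
`1 - 1/(b+1/2) = (1+θ0)/(3-θ0)`; `ϑ = min (1-β) ((1+θ0)/(3-θ0))`.
-/

set_option autoImplicit false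

namespace Pool.Agent.H24.WH

open Complex MeasureTheory Finset Pool.Agent.H48.WN

/-- both halves of `(X, 4X]` -/
private lemma fin_half (X X' H : ℕ) (h : X' = X ∨ X' = 2 * X) :
    ∑ n ∈ Ioc X' (2 * X'), (EI n H) ^ 2 ≤ ∑ n ∈ Ioc X (4 * X), (EI n H) ^ 2 := by
  refine sum_le_sum_of_subset_of_nonneg ?_ (fun n _ _ => sq_nonneg _)
  intro n hn
  rw [mem_Ioc] at hn ⊢
  rcases h with h | h <;> omega

/-- from one length to all lengths -/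
private lemma fin_one (X H0 : ℕ) (β ϑ ε1 ε : ℝ) (hX : 2 ≤ X) (hε1 : 0 < ε1)
    (hbig : (512 : ℝ) ≤ (X : ℝ) ^ (ε - 2 * ε1)) (hHX : H0 ≤ X)
    (hlo : (X : ℝ) ^ (1 - β) ≤ H0) (hhi : (H0 : ℝ) ≤ 64 * (X : ℝ) ^ (1 - β))
    (hϑ : ϑ ≤ 1 - β) (hϑ' : 1 - β ≤ ϑ + ε1)
    (hS : (X : ℝ) * H0 * (X : ℝ) ^ (-ε1) ≤ ∑ n ∈ Ioc X (2 * X), (EI n H0) ^ 2)
    (θ : ℝ) (hθ : 0 ≤ θ) (hθ1 : θ ≤ 1) :
    ∃ H : ℕ, (X : ℝ) ^ θ / 2 ≤ H ∧ (H : ℝ) ≤ 2 * (X : ℝ) ^ θ ∧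
      (X : ℝ) ^ (1 + θ - |θ - ϑ| - ε) ≤ ∑ n ∈ Ioc X (4 * X), (EI n H) ^ 2 := by
  have hX1 : (1 : ℝ) ≤ X := by exact_mod_cast (by omega : 1 ≤ X)
  have hX0 : (0 : ℝ) < X := by linarith
  have hy1 : (1 : ℝ) ≤ (X : ℝ) ^ θ := Real.one_le_rpow hX1 hθ
  obtain ⟨M, hM⟩ : ∃ M : ℕ, M = ⌊(X : ℝ) ^ θ⌋₊ := ⟨_, rfl⟩
  have hMle : (M : ℝ) ≤ (X : ℝ) ^ θ := by rw [hM]; exact Nat.floor_le (by linarith)
  have hM1 : 1 ≤ M := by rw [hM]; exact (Nat.one_le_floor_iff _).mpr hy1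
  have hMr : (1 : ℝ) ≤ M := by exact_mod_cast hM1
  have hMge : (X : ℝ) ^ θ / 2 ≤ M := by
    have := Nat.lt_floor_add_one ((X : ℝ) ^ θ)
    rw [← hM] at this
    linarith
  have hMX : M ≤ X := by
    have h1 : (X : ℝ) ^ θ ≤ (X : ℝ) ^ (1 : ℝ) := Real.rpow_le_rpow_of_exponent_le hX1 hθ1
    rw [Real.rpow_one] at h1
    exact_mod_cast hMle.trans h1
  rcases le_or_gt H0 M with hc | hc
  · obtain ⟨X', H, h1, h2, h3, h4⟩ := tra_up X H0 M hX hc hMX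
    refine ⟨H, hMge.trans (by exact_mod_cast h2), ?_, ?_⟩
    · have : (H : ℝ) ≤ 2 * M := by exact_mod_cast h3
      linarith
    · refine le_trans ?_ (h4.trans (fin_half X X' H h1))
      have e1 : (X : ℝ) ^ (1 + ϑ - ε) * 8 ≤ (X : ℝ) * H0 * (X : ℝ) ^ (-ε1) := by
        have e2 : (X : ℝ) ^ (1 + ϑ - ε) * (X : ℝ) ^ (ε - 2 * ε1) ≤ (X : ℝ) * (X : ℝ) ^ (1 - β) * (X : ℝ) ^ (-ε1) := by
          have e3 : (X : ℝ) * (X : ℝ) ^ (1 - β) * (X : ℝ) ^ (-ε1) = (X : ℝ) ^ (1 + (1 - β) + (-ε1)) := by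
            rw [Real.rpow_add hX0, Real.rpow_add hX0, Real.rpow_one]
          rw [e3, ← Real.rpow_add hX0]
          exact Real.rpow_le_rpow_of_exponent_le hX1 (by linarith)
        have e4 : (X : ℝ) ^ (1 + ϑ - ε) * 8 ≤ (X : ℝ) ^ (1 + ϑ - ε) * (X : ℝ) ^ (ε - 2 * ε1) := by
          apply mul_le_mul_of_nonneg_left _ (by positivity)
          linarith
        have e5 : (X : ℝ) * (X : ℝ) ^ (1 - β) * (X : ℝ) ^ (-ε1) ≤ (X : ℝ) * H0 * (X : ℝ) ^ (-ε1) := by gcongr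
        linarith
      have e6 : (X : ℝ) ^ (1 + θ - |θ - ϑ| - ε) ≤ (X : ℝ) ^ (1 + ϑ - ε) := by
        apply Real.rpow_le_rpow_of_exponent_le hX1
        have := le_abs_self (θ - ϑ)
        linarith
      linarith
  · obtain ⟨X', H, h1, h2, h3, h4⟩ := tra_down X H0 M hX hM1 hc.le hHX
    refine ⟨H, hMge.trans (by exact_mod_cast h2), ?_, ?_⟩
    · have : (H : ℝ) ≤ 2 * M := by exact_mod_cast h3
      linarith
    · refine le_trans ?_ (h4.trans (fin_half X X' H h1))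
      have hH0 : (0 : ℝ) < H0 := by
        have : (M : ℝ) < H0 := by exact_mod_cast hc
        linarith
      have hM0 : (0 : ℝ) < M := by linarith
      rw [le_div_iff₀ (by positivity)]
      refine le_trans ?_ hS
      have e1 : (X : ℝ) ^ (1 + θ - |θ - ϑ| - ε) ≤ (X : ℝ) ^ (1 + 2 * θ - ϑ - ε) := by
        apply Real.rpow_le_rpow_of_exponent_le hX1
        have := neg_abs_le (θ - ϑ)
        linarith
      -- `X^(1+2θ-ϑ-ε) * 512 <= X^(1 + 2θ - ϑ - 2 ε1) <= X^(1-ε1) X^(2θ) X^(-(1-β))`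
      have e2 : (X : ℝ) ^ (1 + 2 * θ - ϑ - ε) * 512 * (X : ℝ) ^ (1 - β) ≤
          (X : ℝ) * ((X : ℝ) ^ θ) ^ 2 * (X : ℝ) ^ (-ε1) := by
        have e3 : (X : ℝ) * ((X : ℝ) ^ θ) ^ 2 * (X : ℝ) ^ (-ε1) = (X : ℝ) ^ (1 + (θ + θ) + (-ε1)) := by
          rw [Real.rpow_add hX0, Real.rpow_add hX0, Real.rpow_add hX0, Real.rpow_one, sq]
        have e4 : (X : ℝ) ^ (1 + 2 * θ - ϑ - ε) * 512 * (X : ℝ) ^ (1 - β) ≤
            (X : ℝ) ^ (1 + 2 * θ - ϑ - ε) * (X : ℝ) ^ (ε - 2 * ε1) * (X : ℝ) ^ (1 - β) := by gcongr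
        refine e4.trans ?_
        rw [e3, ← Real.rpow_add hX0, ← Real.rpow_add hX0]
        exact Real.rpow_le_rpow_of_exponent_le hX1 (by linarith)
      have e7 : (2 : ℝ) * ((H0 : ℝ) / M) ^ 2 * ((M : ℝ) ^ 2) = 2 * (H0 : ℝ) ^ 2 := by
        field_simp
      have e8 : ((X : ℝ) ^ θ) ^ 2 ≤ 4 * (M : ℝ) ^ 2 := by
        have : (X : ℝ) ^ θ ≤ 2 * M := by linarith
        calc ((X : ℝ) ^ θ) ^ 2 ≤ (2 * (M : ℝ)) ^ 2 := pow_le_pow_left₀ (by linarith) this 2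
          _ = _ := by ring
      have hM2 : (0 : ℝ) < (M : ℝ) ^ 2 := by positivity
      have hA0 : (0 : ℝ) < (X : ℝ) ^ (1 + 2 * θ - ϑ - ε) := Real.rpow_pos_of_pos hX0 _
      have hB0 : (0 : ℝ) < (X : ℝ) ^ (-ε1) := Real.rpow_pos_of_pos hX0 _
      -- multiply by M^2
      refine le_of_mul_le_mul_right ?_ hM2
      rw [mul_assoc, e7]
      have f1 : (X : ℝ) ^ (1 + θ - |θ - ϑ| - ε) * (2 * (H0 : ℝ) ^ 2) ≤
          (X : ℝ) ^ (1 + 2 * θ - ϑ - ε) * (2 * (H0 : ℝ) ^ 2) := by gcongr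
      have f2 : (X : ℝ) ^ (1 + 2 * θ - ϑ - ε) * (2 * (H0 : ℝ) ^ 2) ≤
          (X : ℝ) ^ (1 + 2 * θ - ϑ - ε) * (2 * (H0 : ℝ)) * (64 * (X : ℝ) ^ (1 - β)) := by
        have : (X : ℝ) ^ (1 + 2 * θ - ϑ - ε) * (2 * (H0 : ℝ) ^ 2) =
          (X : ℝ) ^ (1 + 2 * θ - ϑ - ε) * (2 * (H0 : ℝ)) * H0 := by ring
        rw [this]
        gcongr
      have f3 : (X : ℝ) ^ (1 + 2 * θ - ϑ - ε) * (2 * (H0 : ℝ)) * (64 * (X : ℝ) ^ (1 - β)) =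
          (H0 : ℝ) / 4 * ((X : ℝ) ^ (1 + 2 * θ - ϑ - ε) * 512 * (X : ℝ) ^ (1 - β)) := by ring
      have f4 : (H0 : ℝ) / 4 * ((X : ℝ) ^ (1 + 2 * θ - ϑ - ε) * 512 * (X : ℝ) ^ (1 - β)) ≤
          (H0 : ℝ) / 4 * ((X : ℝ) * ((X : ℝ) ^ θ) ^ 2 * (X : ℝ) ^ (-ε1)) := by gcongr
      have f5 : (H0 : ℝ) / 4 * ((X : ℝ) * ((X : ℝ) ^ θ) ^ 2 * (X : ℝ) ^ (-ε1)) ≤
          (H0 : ℝ) / 4 * ((X : ℝ) * (4 * (M : ℝ) ^ 2) * (X : ℝ) ^ (-ε1)) := by gcongr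
      have f6 : (H0 : ℝ) / 4 * ((X : ℝ) * (4 * (M : ℝ) ^ 2) * (X : ℝ) ^ (-ε1)) =
          (X : ℝ) * H0 * (X : ℝ) ^ (-ε1) * (M : ℝ) ^ 2 := by ring
      linarith

theorem fih (θ0 : ℝ) (h0 : 0 ≤ θ0) (h1 : θ0 < 1) (ε : ℝ) (hε : 0 < ε) :
    ∃ Y0 : ℝ, ∀ Y : ℝ, Y0 ≤ Y → ∃ (X : ℕ) (ϑ : ℝ), Y ≤ X ∧ (X : ℝ) ≤ Y ^ ((3 - θ0) / 2 + ε) ∧
      θ0 ≤ ϑ ∧ ϑ ≤ (1 + θ0) / (3 - θ0) ∧ ∀ θ : ℝ, 0 ≤ θ → θ ≤ 1 → ∃ H : ℕ,
        (X : ℝ) ^ θ / 2 ≤ H ∧ (H : ℝ) ≤ 2 * (X : ℝ) ^ θ ∧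
        (X : ℝ) ^ (1 + θ - |θ - ϑ| - ε) ≤ ∑ n ∈ Ioc X (4 * X), (EI n H) ^ 2 := by
  have hl : 0 < 1 - θ0 := by linarith
  have hl1 : 1 - θ0 ≤ 1 := by linarith
  obtain ⟨b, hb⟩ : ∃ b : ℝ, b = 1 / (1 - θ0) := ⟨_, rfl⟩
  have hb1 : 1 ≤ b := by rw [hb, le_div_iff₀ hl]; linarith
  have hbl : b * (1 - θ0) = 1 := by rw [hb]; field_simp
  obtain ⟨ε1, hε1, hε1e⟩ : ∃ ε1 : ℝ, 0 < ε1 ∧ ε1 ≤ ε / 4 := ⟨ε / 4, by linarith, le_rfl⟩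
  obtain ⟨T0, hT0, hm⟩ := mai b ε1 hb1 hε1
  -- thresholds
  refine ⟨max 2 (max ((max T0 64) ^ b) ((512 : ℝ) ^ (1 / (ε - 2 * ε1)))), fun Y hY => ?_⟩
  have hY2 : 2 ≤ Y := (le_max_left _ _).trans hY
  have hY0 : 0 < Y := by linarith
  have hYT : (max T0 64) ^ b ≤ Y := (le_max_left _ _).trans ((le_max_right _ _).trans hY)
  have hYe : (512 : ℝ) ^ (1 / (ε - 2 * ε1)) ≤ Y := (le_max_right _ _).trans ((le_max_right _ _).trans hY)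
  have hd : 0 < ε - 2 * ε1 := by linarith
  have hbig0 : (512 : ℝ) ≤ Y ^ (ε - 2 * ε1) := by
    calc (512 : ℝ) = ((512 : ℝ) ^ (1 / (ε - 2 * ε1))) ^ (ε - 2 * ε1) := by
          rw [← Real.rpow_mul (by norm_num), one_div_mul_cancel hd.ne', Real.rpow_one]
      _ ≤ _ := Real.rpow_le_rpow (by positivity) hYe hd.le
  obtain ⟨T, hT⟩ : ∃ T : ℝ, T = Y ^ (1 - θ0) := ⟨_, rfl⟩
  have hTm : max T0 64 ≤ T := by
    have hm0 : (0 : ℝ) ≤ max T0 64 := (by norm_num : (0 : ℝ) ≤ 64).trans (le_max_right _ _)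
    calc max T0 64 = ((max T0 64) ^ b) ^ (1 - θ0) := by
          rw [← Real.rpow_mul hm0, hbl, Real.rpow_one]
      _ ≤ _ := by rw [hT]; exact Real.rpow_le_rpow (by positivity) hYT hl.le
  have hT64 : 64 ≤ T := (le_max_right _ _).trans hTm
  have hT1 : 1 ≤ T := by linarith
  have hTpos : 0 < T := by linarith
  obtain ⟨X, H0, g1, g2, g3, g4, g5⟩ := hm T ((le_max_left _ _).trans hTm)
  have hTb : T ^ b = Y := by rw [hT, ← Real.rpow_mul hY0.le, mul_comm, hbl, Real.rpow_one]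
  rw [hTb] at g1
  have hXr : 2 ≤ (X : ℝ) := hY2.trans g1
  have hX2 : 2 ≤ X := by exact_mod_cast hXr
  have hX0 : (0 : ℝ) < X := by linarith
  have hX1 : (1 : ℝ) ≤ X := by linarith
  have hlX : 0 < Real.log X := Real.log_pos (by linarith)
  have hlT : 0 < Real.log T := Real.log_pos (by linarith)
  obtain ⟨β, hβ⟩ : ∃ β : ℝ, β = Real.log T / Real.log X := ⟨_, rfl⟩
  have hTX : (X : ℝ) ^ β = T := by
    rw [Real.rpow_def_of_pos hX0, hβ, mul_div_cancel₀ _ hlX.ne', Real.exp_log hTpos]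
  -- `b <= 1/β <= b + 1/2 + ε1`
  have k1 : b * Real.log T ≤ Real.log X := by
    rw [← Real.log_rpow hTpos, hTb]
    exact Real.log_le_log hY0 g1
  have k2 : Real.log X ≤ (b + 1 / 2 + ε1) * Real.log T := by
    rw [← Real.log_rpow hTpos]
    exact Real.log_le_log hX0 g2
  have hb0 : 0 < b := by linarith
  have k3 : β ≤ 1 - θ0 := by
    rw [hβ, div_le_iff₀ hlX]
    calc Real.log T = (1 - θ0) * (b * Real.log T) := by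
          rw [← mul_assoc, mul_comm (1 - θ0) b, hbl, one_mul]
      _ ≤ _ := by gcongr
  have k4 : 1 / (b + 1 / 2 + ε1) ≤ β := by
    rw [hβ, div_le_div_iff₀ (by linarith) hlX]
    linarith
  obtain ⟨ϑ, hϑd⟩ : ∃ ϑ : ℝ, ϑ = min (1 - β) ((1 + θ0) / (3 - θ0)) := ⟨_, rfl⟩
  have hb2 : (1 + θ0) / (3 - θ0) = 1 - 1 / (b + 1 / 2) := by
    have : b + 1 / 2 = (3 - θ0) / (2 * (1 - θ0)) := by
      rw [hb]
      field_simp
      ring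
    rw [this]
    have h2 : 3 - θ0 ≠ 0 := by linarith
    field_simp
    ring
  have k5 : 1 - β ≤ ϑ + ε1 := by
    rw [hϑd]
    rcases min_choice (1 - β) ((1 + θ0) / (3 - θ0)) with h | h <;> rw [h]
    · linarith
    · rw [hb2]
      have e1 : 1 / (b + 1 / 2) - 1 / (b + 1 / 2 + ε1) ≤ ε1 := by
        rw [div_sub_div _ _ (by linarith) (by linarith), div_le_iff₀ (by positivity)]
        nlinarith [mul_pos hb0 hb0, mul_pos hb0 hε1, mul_pos hε1 hε1]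
      linarith
  refine ⟨X, ϑ, g1, ?_, ?_, ?_, ?_⟩
  · refine g2.trans ?_
    rw [hT, ← Real.rpow_mul hY0.le]
    apply Real.rpow_le_rpow_of_exponent_le (by linarith)
    nlinarith
  · rw [hϑd, le_min_iff]
    refine ⟨by linarith, ?_⟩
    rw [le_div_iff₀ (by linarith)]
    nlinarith
  · rw [hϑd]
    exact min_le_right _ _
  · have hXe : (512 : ℝ) ≤ (X : ℝ) ^ (ε - 2 * ε1) := hbig0.trans (Real.rpow_le_rpow hY0.le g1 hd.le)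
    have hXT : (X : ℝ) ^ (1 - β) * T = X := by
      rw [← hTX, ← Real.rpow_add hX0, sub_add_cancel, Real.rpow_one]
    have hlo : (X : ℝ) ^ (1 - β) ≤ H0 := by
      refine le_of_mul_le_mul_right ?_ hTpos
      rw [hXT]
      exact g3
    have hhi : (H0 : ℝ) ≤ 64 * (X : ℝ) ^ (1 - β) := by
      refine le_of_mul_le_mul_right ?_ hTpos
      rw [mul_assoc, hXT]
      exact g4
    have hHX : H0 ≤ X := by
      have : (H0 : ℝ) * 64 ≤ 64 * X := le_trans (by gcongr) g4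
      exact_mod_cast (by linarith : (H0 : ℝ) ≤ X)
    have hS : (X : ℝ) * H0 * (X : ℝ) ^ (-ε1) ≤ ∑ n ∈ Ioc X (2 * X), (EI n H0) ^ 2 := by
      refine le_trans ?_ g5
      have hTleX : T ≤ X := by
        rw [← hTX]
        calc (X : ℝ) ^ β ≤ (X : ℝ) ^ (1 : ℝ) := Real.rpow_le_rpow_of_exponent_le hX1 (by linarith)
          _ = X := Real.rpow_one _
      apply mul_le_mul_of_nonneg_left _ (by positivity)
      exact Real.rpow_le_rpow_of_nonpos hTpos hTleX (by linarith)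
    intro θ hθ hθ1
    exact fin_one X H0 β ϑ ε1 ε hX2 hε1 hXe hHX hlo hhi (by rw [hϑd]; exact min_le_left _ _) k5 hS θ hθ hθ1

end Pool.Agent.H24.WH
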