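import Pool.Agent.H24.WH.Stl
import Pool.Agent.H73.WH.Ggb

/-!
# [H24 WH GGN] size of the factor of the functional equation

PROOF. `|GG(1/2+it)| = 1`: `norm_gg_half` in `Pool/Agent/H48/WN/Gfe.lean` (private, copy). For `1/2 ≤ x ≤ A`: `x ↦ log |GG(x+it)|` has the
derivative `Re lam(x+it) ≤ log(t/2π) + C/t` (`stl`; `t ≥ T0`), so `|GG(σ+it)| ≤ exp((σ - 1/2)(log(t/2π) + C/t)) ≤ C' t^(σ-1/2)`.
(E.g. `x ↦ ‖GG‖^2 exp(-2 (x-1/2)(log(t/2π)+C/t))` is antitone; see the monotonicity argument in `gfe`.)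
-/

set_option autoImplicit false

namespace Pool.Agent.H24.WH

open Complex MeasureTheory Finset Pool.Agent.H48.WN

theorem ggn (A : ℝ) (hA : 1 / 2 ≤ A) : ∃ C T0 : ℝ, 0 < C ∧ 10 ≤ T0 ∧ ∀ s : ℂ, 1 / 2 ≤ s.re → s.re ≤ A → T0 ≤ s.im →
    ‖GG s‖ ≤ C * s.im ^ (s.re - 1 / 2) ∧ (s.re = 1 / 2 → ‖GG s‖ = 1) := by
  obtain ⟨C, T0, hC, hT0, H⟩ := Pool.Agent.H73.WH.gg_bd A
  refine ⟨C, T0, by linarith, hT0, fun s hs1 hs2 hs3 => ?_⟩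
  have hp : 0 < s.im := by linarith
  have hab : |s.im| = s.im := abs_of_pos hp
  have h1 := H s (abs_le.2 ⟨by linarith, hs2⟩) (by rw [hab]; exact hs3)
  rw [hab] at h1
  exact ⟨h1.1, fun h => Pool.Agent.H73.WH.gg_half h hp.ne'⟩

end Pool.Agent.H24.WH
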