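import Pool.Agent.H24.WH.Msz
import Pool.Agent.H48.WN.Sub

/-!
# [H24 WH GHK] the local mean square `H2`

PROOF. As `gdh` (`Pool/Agent/H48/WN/Gdh.lean`) with the window `T^κ + 1` instead of `L^2 + 1` and the two functions `Gm d T` and
`ζ - Zy d T`: `int_T^(2T) H2 = int_x int_{|u| ≤ T^κ+1} int_{T+u}^{2T+u} ≤ 3 · 2 (T^κ + 1) · 2 T^(1 - d^2/8) ≤ T^(1 - d^2/16)` as
`κ ≤ d^2/32` (`msg`, `msz`); pointwise by `sub_sq` with `r = d/2` (the square is inside `[1/2 + d/2, 3] × [t0 ± (T^κ + 1)]`).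
-/

set_option autoImplicit false

namespace Pool.Agent.H24.WH

open Complex MeasureTheory Finset Pool.Agent.H48.WN

private theorem ghk_diff (d T : ℝ) (s : ℂ) (hs : s ≠ 1) : DifferentiableAt ℂ (Gm d T) s := by
  have h1 : DifferentiableAt ℂ (Mo d T) s := by
    unfold Mo
    apply DifferentiableAt.fun_sum
    intro k hk
    apply DifferentiableAt.const_mul
    apply DifferentiableAt.const_cpow differentiableAt_id.neg
    left
    have : 1 ≤ k := (Finset.mem_Icc.1 hk).1
    exact_mod_cast (by omega : k ≠ 0)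
  have h2 : DifferentiableAt ℂ (fun z => riemannZeta z * Mo d T z - 1) s :=
    ((differentiableAt_riemannZeta hs).mul h1).sub_const 1
  exact h2

private theorem ghk_diff2 (d T : ℝ) (s : ℂ) (hs : s ≠ 1) :
    DifferentiableAt ℂ (fun s => riemannZeta s - Zy d T s) s := by
  refine (differentiableAt_riemannZeta hs).sub ?_
  unfold Zy
  apply DifferentiableAt.fun_sum
  intro k hk
  apply DifferentiableAt.const_cpow differentiableAt_id.neg
  left
  have : 1 ≤ k := (Finset.mem_Icc.1 hk).1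
  exact_mod_cast (by omega : k ≠ 0)

private noncomputable def ghk0 (F : ℂ → ℂ) (x t : ℝ) : ℝ :=
  ‖F ((x : ℂ) + ((max t 1 : ℝ) : ℂ) * I)‖ ^ 2

private theorem ghk0_cont {F : ℂ → ℂ} (hF : ∀ s, s ≠ 1 → DifferentiableAt ℂ F s) :
    Continuous (Function.uncurry (ghk0 F)) := by
  rw [continuous_iff_continuousAt]
  rintro ⟨x, t⟩
  have hne : ((x : ℂ) + ((max t 1 : ℝ) : ℂ) * I) ≠ 1 := by
    intro h
    have := congrArg Complex.im h
    simp at this
    have h1 : (1 : ℝ) ≤ max t 1 := le_max_right _ _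
    linarith
  have h1 : ContinuousAt F ((x : ℂ) + ((max t 1 : ℝ) : ℂ) * I) := (hF _ hne).continuousAt
  have h2 : ContinuousAt (fun q : ℝ × ℝ => (q.1 : ℂ) + ((max q.2 1 : ℝ) : ℂ) * I) (x, t) := by
    fun_prop
  have h3 : ContinuousAt (fun q : ℝ × ℝ => F ((q.1 : ℂ) + ((max q.2 1 : ℝ) : ℂ) * I)) (x, t) :=
    ContinuousAt.comp (f := fun q : ℝ × ℝ => (q.1 : ℂ) + ((max q.2 1 : ℝ) : ℂ) * I)
      (g := F) h1 h2
  exact h3.norm.pow 2

private theorem ghk0_nonneg (F : ℂ → ℂ) (x t : ℝ) : 0 ≤ ghk0 F x t := by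
  unfold ghk0
  positivity

private theorem ghk0_eq (F : ℂ → ℂ) (x t : ℝ) (ht : 1 ≤ t) :
    ‖F ((x : ℂ) + (t : ℂ) * I)‖ ^ 2 = ghk0 F x t := by
  unfold ghk0
  rw [max_eq_left ht]

private theorem ghk_io (F : ℝ → ℝ → ℝ) (hF : Continuous (Function.uncurry F)) (a b c e : ℝ) :
    IntegrableOn (Function.uncurry F) (Set.uIoc a b ×ˢ Set.uIoc c e) := by
  have h : IntegrableOn (Function.uncurry F) (Set.uIcc a b ×ˢ Set.uIcc c e) :=
    hF.continuousOn.integrableOn_compact (isCompact_uIcc.prod isCompact_uIcc)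
  exact h.mono_set (Set.prod_mono Set.uIoc_subset_uIcc Set.uIoc_subset_uIcc)

private theorem ghk_pt {F : ℂ → ℂ} (hF : ∀ s, s ≠ 1 → DifferentiableAt ℂ F s) (g : ℝ → ℝ → ℝ)
    (hcont : Continuous (Function.uncurry g)) (gnn : ∀ x t, 0 ≤ g x t) (hle : ∀ x t, ghk0 F x t ≤ g x t)
    {d R S t0 : ℝ} {s : ℂ} (hd : 0 < d) (hd1 : d ≤ 1 / 8) (hs1 : 1 / 2 + d ≤ s.re) (hs2 : s.re ≤ 2)
    (hs3 : |s.im - t0| ≤ S) (hR : S + 1 ≤ R) (ht0 : R + 1 ≤ t0) :
    ‖F s‖ ^ 2 ≤ (4 / d ^ 2) * ∫ x in (1 / 2 + d / 2)..3, ∫ t in (t0 - R)..(t0 + R), g x t := by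
  rw [abs_le] at hs3
  have hsq := sub_sq F s (d / 2) (by linarith) (by
    intro w _ hw
    apply hF
    rintro rfl
    rw [Complex.one_im] at hw
    rw [abs_le] at hw
    linarith [hw.1, hw.2, hs3.1, hs3.2])
  have e0 : 1 / (d / 2) ^ 2 = 4 / d ^ 2 := by
    field_simp
    norm_num
  rw [e0] at hsq
  refine hsq.trans ?_
  apply mul_le_mul_of_nonneg_left _ (by positivity)
  have f1 : ∫ x in (s.re - d / 2)..(s.re + d / 2), ∫ t in (s.im - d / 2)..(s.im + d / 2),
      ‖F ((x : ℂ) + (t : ℂ) * I)‖ ^ 2 = ∫ x in (s.re - d / 2)..(s.re + d / 2),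
      ∫ t in (s.im - d / 2)..(s.im + d / 2), ghk0 F x t := by
    apply intervalIntegral.integral_congr
    intro x _
    apply intervalIntegral.integral_congr
    intro t ht
    rw [Set.uIcc_of_le (by linarith)] at ht
    exact ghk0_eq F x t (by linarith [ht.1, hs3.1])
  rw [f1]
  have hc1 : ∀ a b : ℝ, Continuous (fun x : ℝ => ∫ t in a..b, g x t) := by
    intro a b
    apply intervalIntegral.continuous_parametric_intervalIntegral_of_continuous'
    exact hcont
  have hc2 : ∀ a b : ℝ, Continuous (fun x : ℝ => ∫ t in a..b, ghk0 F x t) := by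
    intro a b
    apply intervalIntegral.continuous_parametric_intervalIntegral_of_continuous'
    exact ghk0_cont hF
  have hcx : ∀ x : ℝ, Continuous (fun t : ℝ => g x t) := by
    intro x
    have : Continuous (fun t : ℝ => (x, t)) := by fun_prop
    exact hcont.comp this
  have hcx2 : ∀ x : ℝ, Continuous (fun t : ℝ => ghk0 F x t) := by
    intro x
    have : Continuous (fun t : ℝ => (x, t)) := by fun_prop
    exact (ghk0_cont hF).comp this
  calc ∫ x in (s.re - d / 2)..(s.re + d / 2), ∫ t in (s.im - d / 2)..(s.im + d / 2), ghk0 F x t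
      ≤ ∫ x in (s.re - d / 2)..(s.re + d / 2), ∫ t in (s.im - d / 2)..(s.im + d / 2), g x t := by
        apply intervalIntegral.integral_mono_on (by linarith)
          ((hc2 _ _).intervalIntegrable _ _) ((hc1 _ _).intervalIntegrable _ _)
        intro x _
        apply intervalIntegral.integral_mono_on (by linarith)
          ((hcx2 x).intervalIntegrable _ _) ((hcx x).intervalIntegrable _ _)
        intro t _
        exact hle x t
    _ ≤ ∫ x in (s.re - d / 2)..(s.re + d / 2), ∫ t in (t0 - R)..(t0 + R), g x t := by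
        apply intervalIntegral.integral_mono_on (by linarith)
          ((hc1 _ _).intervalIntegrable _ _) ((hc1 _ _).intervalIntegrable _ _)
        intro x _
        apply intervalIntegral.integral_mono_interval (by linarith [hs3.1]) (by linarith)
          (by linarith [hs3.2])
        · exact Filter.Eventually.of_forall fun t => gnn x t
        · exact (hcx x).intervalIntegrable _ _
    _ ≤ ∫ x in (1 / 2 + d / 2)..3, ∫ t in (t0 - R)..(t0 + R), g x t := by
        apply intervalIntegral.integral_mono_interval (by linarith) (by linarith) (by linarith)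
        · refine Filter.Eventually.of_forall fun x => ?_
          apply intervalIntegral.integral_nonneg (by linarith)
          intro t _
          exact gnn x t
        · exact (hc1 _ _).intervalIntegrable _ _

/-- growth facts -/
private theorem ghk_grow (d κ : ℝ) (hd : 0 < d) (hd1 : d ≤ 1 / 8) (hκ1 : κ ≤ d ^ 2 / 32) :
    ∃ T0 : ℝ, 10 ≤ T0 ∧ ∀ T : ℝ, T0 ≤ T →
    T ^ κ + 2 ≤ T / 4 ∧ 12 * (T ^ κ + 1) ≤ T ^ (d ^ 2 / 16) := by
  have h3 : Filter.Tendsto (fun T : ℝ => T ^ (d ^ 2 / 32)) Filter.atTop Filter.atTop :=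
    tendsto_rpow_atTop (by positivity)
  obtain ⟨A, hA⟩ := Filter.eventually_atTop.1 (h3.eventually_ge_atTop 24)
  refine ⟨max A 100, by linarith [le_max_right A 100], fun T hT => ?_⟩
  have f1 := hA T ((le_max_left _ _).trans hT)
  have hT1 : 100 ≤ T := (le_max_right _ _).trans hT
  have hT0 : 0 < T := by linarith
  have h4 : T ^ κ ≤ T ^ (d ^ 2 / 32) := Real.rpow_le_rpow_of_exponent_le (by linarith) hκ1
  have h5 : T ^ (d ^ 2 / 32) ≤ T ^ (1 / 2 : ℝ) :=
    Real.rpow_le_rpow_of_exponent_le (by linarith) (by nlinarith)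
  have h6 : T ^ (d ^ 2 / 16) = T ^ (d ^ 2 / 32) * T ^ (d ^ 2 / 32) := by
    rw [← Real.rpow_add hT0]
    congr 1
    ring
  constructor
  · rw [← Real.sqrt_eq_rpow] at h5
    have h7 : Real.sqrt T * Real.sqrt T = T := Real.mul_self_sqrt hT0.le
    have h8 : 10 ≤ Real.sqrt T := by
      apply Real.le_sqrt_of_sq_le
      norm_num
      exact hT1
    nlinarith
  · rw [h6]
    nlinarith

theorem ghk (d κ : ℝ) (hd : 0 < d) (hd1 : d ≤ 1 / 8) (hκ : 0 < κ) (hκ1 : κ ≤ d ^ 2 / 32) :
    ∃ T0 : ℝ, 10 ≤ T0 ∧ ∀ T : ℝ, T0 ≤ T →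
    ContinuousOn (fun t0 => H2 d κ T t0) (Set.Icc T (2 * T)) ∧
    (∫ t0 in T..(2 * T), H2 d κ T t0 ≤ T ^ (1 - d ^ 2 / 16)) ∧
    ∀ t0 : ℝ, T ≤ t0 → t0 ≤ 2 * T → 0 ≤ H2 d κ T t0 ∧
      ∀ s : ℂ, 1 / 2 + d ≤ s.re → s.re ≤ 2 → |s.im - t0| ≤ T ^ κ →
        ‖Gm d T s‖ ^ 2 ≤ (4 / d ^ 2) * H2 d κ T t0 ∧
        ‖riemannZeta s - Zy d T s‖ ^ 2 ≤ (4 / d ^ 2) * H2 d κ T t0 := by
  obtain ⟨T1, hT1, hmsg⟩ := msg d hd hd1
  obtain ⟨T3, hT3, hmsz⟩ := msz d hd hd1
  obtain ⟨T2, hT2, hgr⟩ := ghk_grow d κ hd hd1 hκ1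
  refine ⟨max (max T1 T3) T2, le_max_of_le_left (le_max_of_le_left hT1), fun T hT => ?_⟩
  have hTa : T1 ≤ T := (le_max_left _ _).trans ((le_max_left _ _).trans hT)
  have hTc : T3 ≤ T := (le_max_right _ _).trans ((le_max_left _ _).trans hT)
  have hTb : T2 ≤ T := (le_max_right _ _).trans hT
  obtain ⟨g1, g2⟩ := hgr T hTb
  have hT10 : 10 ≤ T := by linarith
  obtain ⟨R, hR⟩ : ∃ R : ℝ, R = T ^ κ + 1 := ⟨_, rfl⟩
  have hκT : 0 < T ^ κ := Real.rpow_pos_of_pos (by linarith) _
  have hR1 : 1 ≤ R := by rw [hR]; linarith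
  have hRT : R + 1 ≤ T / 4 := by rw [hR]; linarith
  obtain ⟨ga, hga⟩ : ∃ ga : ℝ → ℝ → ℝ, ga = ghk0 (Gm d T) := ⟨_, rfl⟩
  obtain ⟨gb, hgb⟩ : ∃ gb : ℝ → ℝ → ℝ, gb = ghk0 (fun s => riemannZeta s - Zy d T s) := ⟨_, rfl⟩
  have hca : Continuous (Function.uncurry ga) := by rw [hga]; exact ghk0_cont (ghk_diff d T)
  have hcb : Continuous (Function.uncurry gb) := by rw [hgb]; exact ghk0_cont (ghk_diff2 d T)
  have hna : ∀ x t, 0 ≤ ga x t := by rw [hga]; exact ghk0_nonneg _
  have hnb : ∀ x t, 0 ≤ gb x t := by rw [hgb]; exact ghk0_nonneg _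
  have hea : ∀ x t : ℝ, 1 ≤ t → ‖Gm d T ((x : ℂ) + (t : ℂ) * I)‖ ^ 2 = ga x t := by
    rw [hga]; exact ghk0_eq _
  have heb : ∀ x t : ℝ, 1 ≤ t →
      ‖riemannZeta ((x : ℂ) + (t : ℂ) * I) - Zy d T ((x : ℂ) + (t : ℂ) * I)‖ ^ 2 = gb x t := by
    rw [hgb]; exact ghk0_eq (fun s => riemannZeta s - Zy d T s)
  obtain ⟨g, hg⟩ : ∃ g : ℝ → ℝ → ℝ, g = fun x t => ga x t + gb x t := ⟨_, rfl⟩
  have hcont : Continuous (Function.uncurry g) := by
    rw [hg]
    exact hca.add hcb
  have gnn : ∀ x t, 0 ≤ g x t := by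
    intro x t
    rw [hg]
    exact add_nonneg (hna x t) (hnb x t)
  have geq : ∀ x t : ℝ, 1 ≤ t → ‖Gm d T ((x : ℂ) + (t : ℂ) * I)‖ ^ 2 +
      ‖riemannZeta ((x : ℂ) + (t : ℂ) * I) - Zy d T ((x : ℂ) + (t : ℂ) * I)‖ ^ 2 = g x t := by
    intro x t ht
    rw [hea x t ht, heb x t ht, hg]
  have hHH : ∀ t0 : ℝ, T ≤ t0 → H2 d κ T t0 =
      ∫ x in (1 / 2 + d / 2)..3, ∫ u in (-R)..R, g x (t0 + u) := by
    intro t0 ht0
    unfold H2
    rw [← hR]
    apply intervalIntegral.integral_congr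
    intro x _
    simp only
    have h1 : ∫ u in (-R)..R, g x (t0 + u) = ∫ t in (t0 + -R)..(t0 + R), g x t :=
      intervalIntegral.integral_comp_add_left (fun t => g x t) t0
    rw [h1, ← sub_eq_add_neg]
    apply intervalIntegral.integral_congr
    intro t ht
    rw [Set.uIcc_of_le (by linarith)] at ht
    exact geq x t (by linarith [ht.1])
  have hin : Continuous (fun p : ℝ × ℝ => ∫ u in (-R)..R, g p.2 (p.1 + u)) := by
    apply intervalIntegral.continuous_parametric_intervalIntegral_of_continuous'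
    have : Continuous (fun q : (ℝ × ℝ) × ℝ => (q.1.2, q.1.1 + q.2)) := by fun_prop
    exact hcont.comp this
  have hco : Continuous (fun t0 : ℝ => ∫ x in (1 / 2 + d / 2)..3, ∫ u in (-R)..R, g x (t0 + u)) := by
    apply intervalIntegral.continuous_parametric_intervalIntegral_of_continuous'
    exact hin
  have hcx : ∀ x : ℝ, Continuous (fun t : ℝ => g x t) := by
    intro x
    have : Continuous (fun t : ℝ => (x, t)) := by fun_prop
    exact hcont.comp this
  have hcax : ∀ x : ℝ, Continuous (fun t : ℝ => ga x t) := by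
    intro x
    have : Continuous (fun t : ℝ => (x, t)) := by fun_prop
    exact hca.comp this
  have hcbx : ∀ x : ℝ, Continuous (fun t : ℝ => gb x t) := by
    intro x
    have : Continuous (fun t : ℝ => (x, t)) := by fun_prop
    exact hcb.comp this
  refine ⟨?_, ?_, ?_⟩
  · apply hco.continuousOn.congr
    intro t0 ht0
    exact hHH t0 ht0.1
  · have e1 : ∫ t0 in T..(2 * T), H2 d κ T t0 = ∫ t0 in T..(2 * T),
        ∫ x in (1 / 2 + d / 2)..3, ∫ u in (-R)..R, g x (t0 + u) := by
      apply intervalIntegral.integral_congr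
      intro t0 ht0
      rw [Set.uIcc_of_le (by linarith)] at ht0
      exact hHH t0 ht0.1
    have e2 : ∫ t0 in T..(2 * T), ∫ x in (1 / 2 + d / 2)..3, ∫ u in (-R)..R, g x (t0 + u) =
        ∫ x in (1 / 2 + d / 2)..3, ∫ t0 in T..(2 * T), ∫ u in (-R)..R, g x (t0 + u) := by
      apply intervalIntegral_intervalIntegral_swap
      exact ghk_io (fun t0 x => ∫ u in (-R)..R, g x (t0 + u)) hin _ _ _ _
    have e3 : ∀ x : ℝ, ∫ t0 in T..(2 * T), ∫ u in (-R)..R, g x (t0 + u) =
        ∫ u in (-R)..R, ∫ t0 in T..(2 * T), g x (t0 + u) := by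
      intro x
      apply intervalIntegral_intervalIntegral_swap
      have hc : Continuous (Function.uncurry fun t0 u : ℝ => g x (t0 + u)) := by
        have : Continuous (fun q : ℝ × ℝ => (x, q.1 + q.2)) := by fun_prop
        exact hcont.comp this
      exact ghk_io _ hc _ _ _ _
    have e4 : ∀ x : ℝ, ∀ u ∈ Set.Icc (-R) R, ∫ t0 in T..(2 * T), g x (t0 + u) ≤
        ∫ t in (T / 4)..(4 * T), g x t := by
      intro x u hu
      rw [intervalIntegral.integral_comp_add_right (fun t => g x t) u]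
      apply intervalIntegral.integral_mono_interval (by linarith [hu.1]) (by linarith)
        (by linarith [hu.2])
      · exact Filter.Eventually.of_forall fun t => gnn x t
      · exact (hcx x).intervalIntegrable _ _
    have e5 : ∀ x ∈ Set.Icc (1 / 2 + d / 2) 3, ∫ t in (T / 4)..(4 * T), g x t ≤
        2 * T ^ (1 - d ^ 2 / 8) := by
      intro x hx
      have ha := hmsg T hTa x hx.1 hx.2
      have hb := hmsz T hTc x hx.1 hx.2
      have ha' : ∫ t in (T / 4)..(4 * T), ga x t = ∫ t in (T / 4)..(4 * T),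
          ‖Gm d T ((x : ℂ) + (t : ℂ) * I)‖ ^ 2 := by
        apply intervalIntegral.integral_congr
        intro t ht
        rw [Set.uIcc_of_le (by linarith)] at ht
        exact (hea x t (by linarith [ht.1])).symm
      have hb' : ∫ t in (T / 4)..(4 * T), gb x t = ∫ t in (T / 4)..(4 * T),
          ‖riemannZeta ((x : ℂ) + (t : ℂ) * I) - Zy d T ((x : ℂ) + (t : ℂ) * I)‖ ^ 2 := by
        apply intervalIntegral.integral_congr
        intro t ht
        rw [Set.uIcc_of_le (by linarith)] at ht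
        exact (heb x t (by linarith [ht.1])).symm
      have hs : ∫ t in (T / 4)..(4 * T), g x t =
          (∫ t in (T / 4)..(4 * T), ga x t) + ∫ t in (T / 4)..(4 * T), gb x t := by
        rw [hg]
        exact intervalIntegral.integral_add ((hcax x).intervalIntegrable _ _)
          ((hcbx x).intervalIntegrable _ _)
      rw [hs, ha', hb']
      linarith
    have e6 : ∀ x ∈ Set.Icc (1 / 2 + d / 2) 3,
        ∫ t0 in T..(2 * T), ∫ u in (-R)..R, g x (t0 + u) ≤ 2 * R * (2 * T ^ (1 - d ^ 2 / 8)) := by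
      intro x hx
      rw [e3 x]
      have hcu : Continuous (fun u : ℝ => ∫ t0 in T..(2 * T), g x (t0 + u)) := by
        apply intervalIntegral.continuous_parametric_intervalIntegral_of_continuous'
        have : Continuous (fun q : ℝ × ℝ => (x, q.2 + q.1)) := by fun_prop
        exact hcont.comp this
      calc ∫ u in (-R)..R, ∫ t0 in T..(2 * T), g x (t0 + u)
          ≤ ∫ _u in (-R)..R, 2 * T ^ (1 - d ^ 2 / 8) := by
            apply intervalIntegral.integral_mono_on (by linarith)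
              (hcu.intervalIntegrable _ _) (intervalIntegrable_const)
            intro u hu
            exact (e4 x u hu).trans (e5 x hx)
        _ = 2 * R * (2 * T ^ (1 - d ^ 2 / 8)) := by
            rw [intervalIntegral.integral_const, smul_eq_mul]
            ring
    rw [e1, e2]
    have hTp : 0 < T ^ (1 - d ^ 2 / 8) := Real.rpow_pos_of_pos (by linarith) _
    have hcx2 : Continuous (fun x : ℝ => ∫ t0 in T..(2 * T), ∫ u in (-R)..R, g x (t0 + u)) := by
      apply intervalIntegral.continuous_parametric_intervalIntegral_of_continuous'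
      have : Continuous (fun q : ℝ × ℝ => (q.2, q.1)) := by fun_prop
      exact hin.comp this
    calc ∫ x in (1 / 2 + d / 2)..3, ∫ t0 in T..(2 * T), ∫ u in (-R)..R, g x (t0 + u)
        ≤ ∫ _x in (1 / 2 + d / 2)..3, 2 * R * (2 * T ^ (1 - d ^ 2 / 8)) := by
          apply intervalIntegral.integral_mono_on (by linarith)
            (hcx2.intervalIntegrable _ _) (intervalIntegrable_const)
          exact e6
      _ = (3 - (1 / 2 + d / 2)) * (2 * R * (2 * T ^ (1 - d ^ 2 / 8))) := by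
          rw [intervalIntegral.integral_const, smul_eq_mul]
      _ ≤ 3 * (2 * R * (2 * T ^ (1 - d ^ 2 / 8))) := by
          apply mul_le_mul_of_nonneg_right (by linarith)
          positivity
      _ = (12 * R) * T ^ (1 - d ^ 2 / 8) := by ring
      _ ≤ T ^ (d ^ 2 / 16) * T ^ (1 - d ^ 2 / 8) := by
          apply mul_le_mul_of_nonneg_right _ hTp.le
          rw [hR]
          exact g2
      _ = T ^ (1 - d ^ 2 / 16) := by
          rw [← Real.rpow_add (by linarith)]
          congr 1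
          ring
  · intro t0 ht0 ht0'
    have hnn : 0 ≤ H2 d κ T t0 := by
      rw [hHH t0 ht0]
      apply intervalIntegral.integral_nonneg (by linarith)
      intro x _
      apply intervalIntegral.integral_nonneg (by linarith)
      intro u _
      exact gnn x _
    have f2 : H2 d κ T t0 = ∫ x in (1 / 2 + d / 2)..3, ∫ t in (t0 - R)..(t0 + R), g x t := by
      unfold H2
      rw [← hR]
      apply intervalIntegral.integral_congr
      intro x _
      apply intervalIntegral.integral_congr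
      intro t ht
      rw [Set.uIcc_of_le (by linarith)] at ht
      exact geq x t (by linarith [ht.1])
    refine ⟨hnn, ?_⟩
    intro s hs1 hs2 hs3
    rw [f2]
    constructor
    · exact ghk_pt (ghk_diff d T) g hcont gnn (fun x t => by
        rw [hg]
        have h1 := hnb x t
        have h2 : ghk0 (Gm d T) x t = ga x t := by rw [hga]
        rw [h2]
        linarith) hd hd1 hs1 hs2 hs3 (by rw [hR]) (by linarith)
    · exact ghk_pt (F := fun s => riemannZeta s - Zy d T s) (ghk_diff2 d T) g hcont gnn (fun x t => by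
        rw [hg]
        have h1 := hna x t
        have h2 : ghk0 (fun s => riemannZeta s - Zy d T s) x t = gb x t := by rw [hgb]
        rw [h2]
        linarith) hd hd1 hs1 hs2 hs3 (by rw [hR]) (by linarith)

end Pool.Agent.H24.WH
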