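import Pool.Agent.H24.WH.Rcg
import Pool.Agent.H24.WH.Dls
import Pool.Agent.H24.WH.Grw
import Pool.Agent.H24.WH.Bas

/-!
# [H24 WH KSH] the left integral as a sum over `k`, on the critical line

PROOF. `z = pt (3/2) (t0+y)`, `Re z = 2`. `hl_eq`, `dls_lam`: `HL z = ζ'(1-z)(-lam z + sum_k La k k^(-z)) Bp(1-z)`. The terms `k > T^4`: `|ζ'(1-z)| ≤ C T^4`.. better: `ggn`, `fe_deriv`: `≤ C T^(3/2) L`, `sum_{k > T^4} Lam(k) k^(-2) ≤ C T^(-4) L`
(`dls_tail`), `|Bp(1-z)| ≤ C`: negligible. The rest: `rcg` with `q(z) = ζ'(1-z)(-lam z + sum_{k ≤ T^4} La k k^(-z)) Bp(1-z)`, `x1 = 0`, `x2 = 3/2`, analytic, `≤ T^12` (`grw` with `A = 2`, `stl`). On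
`Re z = 1/2`: `conj(1-z) = z`, so the conjugate of `q(z)` is `ζ'(z)(-lam z + sum La k k^(z-1)) Bp(z)` (`lsy`; `conj (k^(-z)) = k^(-conj z) = k^(z-1)`), `kk 0 y` is real.
-/

set_option autoImplicit false

namespace Pool.Agent.H24.WH

open Complex MeasureTheory Finset Pool.Agent.H48.WN

/-- the Dirichlet polynomial of length `T^4` -/
private noncomputable def kshP (T : ℝ) (z : ℂ) : ℂ :=
  ∑ k ∈ Icc 1 ⌊T ^ 4⌋₊, La k * (k : ℂ) ^ (-z)

private noncomputable def kshq (T : ℝ) (z : ℂ) : ℂ :=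
  deriv riemannZeta (1 - z) * (-lam z + kshP T z) * Bp T (1 - z)

private lemma ksh_conj (T : ℝ) (z : ℂ) (hz : z.re = 1 / 2) (hi : z.im ≠ 0) :
    (starRingEnd ℂ) (kshq T z) = (-lam z + ∑ k ∈ Icc 1 ⌊T ^ 4⌋₊, La k * (k : ℂ) ^ (z - 1)) *
      deriv riemannZeta z * Bp T z := by
  have e1 : (starRingEnd ℂ) (1 - z) = z := by
    apply Complex.ext
    · simp [hz]
      norm_num
    · simp
  have e2 : 1 - (starRingEnd ℂ) z = z := by
    have h := e1
    rw [map_sub, map_one] at h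
    exact h
  have e3 : (starRingEnd ℂ) (lam z) = lam z := by
    rw [← lam_sym z hi, e2]
  have e4 : (starRingEnd ℂ) (kshP T z) = ∑ k ∈ Icc 1 ⌊T ^ 4⌋₊, La k * (k : ℂ) ^ (z - 1) := by
    unfold kshP
    rw [map_sum]
    refine sum_congr rfl fun k _ => ?_
    rw [map_mul]
    congr 1
    · unfold La
      rw [conj_ofReal]
    · have h1 : ((k : ℂ)).arg ≠ Real.pi := by
        rw [natCast_arg]
        exact Real.pi_pos.ne
      have h2 := conj_cpow (k : ℂ) ((starRingEnd ℂ) (-z)) h1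
      rw [conj_conj, conj_natCast] at h2
      rw [← h2]
      congr 1
      have h3 : (starRingEnd ℂ) z = 1 - z := by
        linear_combination -e2
      rw [map_neg, h3]
      ring
  unfold kshq
  rw [map_mul, map_mul, map_add, map_neg, e3, e4, ← dzeta_conj, ← bp_conj, e1]
  ring

private lemma ksh_La (n : ℕ) : ‖La n‖ ≤ Real.log n := by
  unfold La
  rw [Complex.norm_of_nonneg ArithmeticFunction.vonMangoldt_nonneg]
  exact ArithmeticFunction.vonMangoldt_le_log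

private lemma ksh_log_nn (n : ℕ) : 0 ≤ Real.log n := by
  rcases Nat.eq_zero_or_pos n with h | h
  · simp [h]
  · exact Real.log_nonneg (by exact_mod_cast h)

private lemma ksh_tail : ∃ C : ℝ, 0 < C ∧ ∀ T : ℝ, 10 ≤ T → ∀ z : ℂ, z.re = 2 →
    ‖kshP T z + deriv riemannZeta z / riemannZeta z‖ ≤ C * (1 + 4 * Real.log T) ^ 2 / T ^ 4 := by
  obtain ⟨C, hC, H⟩ := dls_tail
  refine ⟨C, hC, fun T hT z hz => ?_⟩
  have hTp : 0 < T := by linarith
  have hy1 : 1 ≤ T ^ 4 := one_le_pow₀ (by linarith)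
  obtain ⟨hs, hb⟩ := H 2 le_rfl (T ^ 4) hy1 La (fun n => by
    have h1 := ksh_La n
    have h2 := ksh_log_nn n
    nlinarith) z hz
  have h0 := (dls_lam z (by rw [hz]; norm_num)).tsum_eq
  set f : ℕ → ℂ := fun n => La n * (n : ℂ) ^ (-z) with hf
  set g : ℕ → ℂ := fun n => if T ^ 4 < n then 0 else f n with hg
  have hg0 : ∀ n ∉ Icc 1 ⌊T ^ 4⌋₊, g n = 0 := by
    intro n hn
    rw [hg]
    dsimp only
    split_ifs with h
    · rfl
    · rw [Finset.mem_Icc, not_and_or] at hn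
      rcases hn with hn | hn
      · have hn0 : n = 0 := by omega
        rw [hf]
        dsimp only
        have hL0 : La 0 = 0 := by
          unfold La
          simp
        rw [hn0, hL0, zero_mul]
      · exfalso
        apply h
        push Not at hn
        exact (Nat.floor_lt (by positivity)).1 hn
  have hgs : Summable g := summable_of_ne_finset_zero hg0
  have hgt : ∑' n, g n = kshP T z := by
    rw [tsum_eq_sum hg0]
    unfold kshP
    refine sum_congr rfl fun n hn => ?_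
    rw [hg]
    dsimp only
    rw [if_neg]
    have h1 := (Finset.mem_Icc.1 hn).2
    rw [not_lt]
    exact (Nat.le_floor_iff (by positivity)).1 h1
  have hsub : (fun n : ℕ => if T ^ 4 < (n : ℝ) then La n * (n : ℂ) ^ (-z) else 0) =
      fun n => f n - g n := by
    funext n
    rw [hg]
    dsimp only
    split_ifs with h
    · rw [sub_zero]
    · rw [sub_self]
  rw [hsub, hs.tsum_sub hgs, h0, hgt] at hb
  have e1 : kshP T z + deriv riemannZeta z / riemannZeta z =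
      -(-(deriv riemannZeta z / riemannZeta z) - kshP T z) := by ring
  rw [e1, norm_neg]
  refine hb.trans (le_of_eq ?_)
  rw [show (1 : ℝ) - 2 = -1 by norm_num, Real.rpow_neg_one, Real.log_pow]
  push_cast
  field_simp

private lemma ksh_P (T : ℝ) (hT : 10 ≤ T) (z : ℂ) (hz : 0 ≤ z.re) :
    ‖kshP T z‖ ≤ 4 * Real.log T * T ^ 4 := by
  have hTp : 0 < T := by linarith
  have hL : 0 ≤ Real.log T := Real.log_nonneg (by linarith)
  unfold kshP
  have h1 : ∀ k ∈ Icc 1 ⌊T ^ 4⌋₊, ‖La k * (k : ℂ) ^ (-z)‖ ≤ 4 * Real.log T := by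
    intro k hk
    obtain ⟨hk1, hk2⟩ := Finset.mem_Icc.1 hk
    have hk0 : (0 : ℝ) < k := by exact_mod_cast hk1
    have hk3 : (k : ℝ) ≤ T ^ 4 := (Nat.le_floor_iff (by positivity)).1 hk2
    rw [norm_mul, Complex.norm_natCast_cpow_of_pos hk1]
    have h2 : Real.log k ≤ 4 * Real.log T := by
      have := Real.log_le_log hk0 hk3
      rw [Real.log_pow] at this
      exact_mod_cast this
    have h3 : (k : ℝ) ^ (-z).re ≤ 1 := by
      apply Real.rpow_le_one_of_one_le_of_nonpos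
      · exact_mod_cast hk1
      · rw [Complex.neg_re]
        linarith
    have h4 := ksh_La k
    have h5 := norm_nonneg (La k)
    calc ‖La k‖ * (k : ℝ) ^ (-z).re ≤ ‖La k‖ * 1 := mul_le_mul_of_nonneg_left h3 h5
      _ ≤ 4 * Real.log T := by linarith
  refine (norm_sum_le_of_le _ h1).trans ?_
  rw [Finset.sum_const, Nat.card_Icc, Nat.add_sub_cancel, nsmul_eq_mul, mul_comm]
  exact mul_le_mul_of_nonneg_left (Nat.floor_le (by positivity)) (by positivity)

private lemma ksh_Pd (T : ℝ) : Differentiable ℂ (kshP T) := by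
  unfold kshP
  refine Differentiable.fun_sum fun n hn => ?_
  have hn0 : (n : ℂ) ≠ 0 := by
    have := (Finset.mem_Icc.1 hn).1
    exact_mod_cast (by omega : n ≠ 0)
  exact (differentiable_const _).mul ((differentiable_id.neg).const_cpow (Or.inl hn0))

private lemma ksh_qd (T : ℝ) (s : ℂ) (hs : s.im ≠ 0) (hl : DifferentiableAt ℂ lam s) :
    DifferentiableAt ℂ (kshq T) s := by
  unfold kshq
  have h1 : DifferentiableAt ℂ (fun z : ℂ => 1 - z) s := by fun_prop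
  have h2 : DifferentiableAt ℂ (fun z : ℂ => deriv riemannZeta (1 - z)) s :=
    DifferentiableAt.comp s (aux_dz (aux_ne' hs)) h1
  have h3 : DifferentiableAt ℂ (fun z : ℂ => Bp T (1 - z)) s :=
    DifferentiableAt.comp (g := Bp T) (f := fun z : ℂ => 1 - z) s ((aux_bp T) (1 - s)) h1
  exact (h2.mul (hl.neg.add (ksh_Pd T s))).mul h3

private lemma ksh_exp : Real.exp (9 / 4) ≤ 27 := by
  have h1 : Real.exp (9 / 4) ≤ Real.exp 3 := Real.exp_le_exp.2 (by norm_num)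
  have h2 : Real.exp 3 = (Real.exp 1) ^ 3 := by
    rw [← Real.exp_nat_mul]
    norm_num
  have h3 : Real.exp 1 < 3 := by
    have := Real.exp_one_lt_d9
    linarith
  have h4 : (Real.exp 1) ^ 3 ≤ 3 ^ 3 := pow_le_pow_left₀ (Real.exp_pos 1).le h3.le 3
  rw [h2] at h1
  linarith

/-- the size of `lam` -/
private lemma ksh_lam : ∃ C T0 : ℝ, 1 ≤ C ∧ 10 ≤ T0 ∧ ∀ T : ℝ, T0 ≤ T → ∀ s : ℂ, |s.re| ≤ 2 →
    T / 2 ≤ s.im → s.im ≤ 3 * T → DifferentiableAt ℂ GG s ∧ DifferentiableAt ℂ lam s ∧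
      ‖lam s‖ ≤ C * Real.log T := by
  obtain ⟨C, T0, hC, hT0, H⟩ := stl 2
  refine ⟨C + 3, max (2 * T0) 10, by linarith, le_max_right _ _, fun T hT s hs h1 h2 => ?_⟩
  have hT1 : 2 * T0 ≤ T := (le_max_left _ _).trans hT
  have hT2 : 10 ≤ T := (le_max_right _ _).trans hT
  obtain ⟨-, -, h3, h4, h5⟩ := H s hs (by linarith)
  refine ⟨h3, h4, ?_⟩
  have hL : 1 ≤ Real.log T := by
    rw [Real.le_log_iff_exp_le (by linarith)]
    have := Real.exp_one_lt_d9
    linarith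
  have hv : 1 ≤ s.im := by linarith
  have h6 : C / s.im ≤ C := div_le_self hC.le hv
  have hpi := Real.pi_gt_three
  have hpi4 := Real.pi_lt_four
  have h7 : Real.log (s.im / (2 * Real.pi)) ≤ Real.log T := by
    apply Real.log_le_log (by positivity)
    rw [div_le_iff₀ (by positivity)]
    nlinarith
  have h8 : -(3 * Real.log T) ≤ Real.log (s.im / (2 * Real.pi)) := by
    have h9 : (1 : ℝ) / 2 ≤ s.im / (2 * Real.pi) := by
      rw [le_div_iff₀ (by positivity)]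
      linarith
    have h10 : Real.log ((1 : ℝ) / 2) ≤ Real.log (s.im / (2 * Real.pi)) :=
      Real.log_le_log (by norm_num) h9
    have h11 : -(1 : ℝ) ≤ Real.log ((1 : ℝ) / 2) := by
      rw [one_div, Real.log_inv]
      have := Real.log_two_lt_d9
      linarith
    linarith
  have h12 : ‖((Real.log (s.im / (2 * Real.pi)) : ℝ) : ℂ)‖ ≤ 3 * Real.log T := by
    rw [Complex.norm_real, Real.norm_eq_abs, abs_le]
    constructor <;> linarith
  have h13 : ‖lam s‖ ≤ ‖lam s - ((Real.log (s.im / (2 * Real.pi)) : ℝ) : ℂ)‖ +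
      ‖((Real.log (s.im / (2 * Real.pi)) : ℝ) : ℂ)‖ := by
    have := norm_add_le (lam s - ((Real.log (s.im / (2 * Real.pi)) : ℝ) : ℂ))
      ((Real.log (s.im / (2 * Real.pi)) : ℝ) : ℂ)
    rwa [sub_add_cancel] at this
  nlinarith

/-- the difference on the line `Re = 2` -/
private lemma ksh_step1 : ∃ K T0 : ℝ, 0 < K ∧ 10 ≤ T0 ∧ ∀ T : ℝ, T0 ≤ T → ∀ z : ℂ, z.re = 2 →
    T / 2 ≤ z.im → z.im ≤ 3 * T → DifferentiableAt ℂ (HL T) z ∧ DifferentiableAt ℂ (kshq T) z ∧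
      ‖HL T z - kshq T z‖ ≤ K * Real.log T ^ 3 / T := by
  obtain ⟨C1, T1, hC1, hT1, H1⟩ := ggn 2 (by norm_num)
  obtain ⟨C2, T2, hC2, hT2, H2⟩ := ksh_lam
  obtain ⟨C3, T3, hC3, hT3, H3⟩ := grw 2 (by norm_num)
  obtain ⟨T4, hT4, H4⟩ := fe_deriv 2
  obtain ⟨C5, hC5, H5⟩ := dls_bp
  obtain ⟨T6, hT6, H6⟩ := hl_eq 2
  obtain ⟨C7, hC7, H7⟩ := ksh_tail
  refine ⟨C1 * 9 * (C3 * 3 * (C2 + 1)) * (C7 * 25) * (C5 * 2),
    max (max (2 * T1) T2) (max (max (2 * T3) (2 * T4)) (max (2 * T6) 10)), by positivity,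
    (le_max_right _ _).trans ((le_max_right _ _).trans (le_max_right _ _)),
    fun T hT z hz h1 h2 => ?_⟩
  have hA1 : 2 * T1 ≤ T := (le_max_left _ _).trans ((le_max_left _ _).trans hT)
  have hA2 : T2 ≤ T := (le_max_right _ _).trans ((le_max_left _ _).trans hT)
  have hA3 : 2 * T3 ≤ T := (le_max_left _ _).trans ((le_max_left _ _).trans ((le_max_right _ _).trans hT))
  have hA4 : 2 * T4 ≤ T := (le_max_right _ _).trans ((le_max_left _ _).trans ((le_max_right _ _).trans hT))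
  have hA6 : 2 * T6 ≤ T := (le_max_left _ _).trans ((le_max_right _ _).trans ((le_max_right _ _).trans hT))
  have h10 : 10 ≤ T := (le_max_right _ _).trans ((le_max_right _ _).trans ((le_max_right _ _).trans hT))
  have hTp : 0 < T := by linarith
  have hL : 1 ≤ Real.log T := by
    rw [Real.le_log_iff_exp_le (by linarith)]
    have := Real.exp_one_lt_d9
    linarith
  have hv : 1 ≤ z.im := by linarith
  have hi : z.im ≠ 0 := by linarith
  have hre : |z.re| ≤ 2 := by rw [hz]; norm_num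
  have hz0 : riemannZeta z ≠ 0 := riemannZeta_ne_zero_of_one_le_re (by rw [hz]; norm_num)
  obtain ⟨hGd, hLd, hlam⟩ := H2 T hA2 z hre h1 h2
  have hqd := ksh_qd T z hi hLd
  have hHd : DifferentiableAt ℂ (HL T) z := by
    unfold HL
    have g1 : DifferentiableAt ℂ (fun z : ℂ => 1 - z) z := by fun_prop
    have g3 : DifferentiableAt ℂ (fun z : ℂ => Bp T (1 - z)) z :=
      DifferentiableAt.comp (g := Bp T) (f := fun z : ℂ => 1 - z) z ((aux_bp T) (1 - z)) g1
    exact ((hGd.mul (((hLd.mul (aux_z (aux_ne hi))).add (aux_dz (aux_ne hi))).pow 2)).div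
      (aux_z (aux_ne hi)) hz0).mul g3
  refine ⟨hHd, hqd, ?_⟩
  have e1 : HL T z - kshq T z = -(deriv riemannZeta (1 - z) *
      (kshP T z + deriv riemannZeta z / riemannZeta z) * Bp T (1 - z)) := by
    rw [(H6 T z hre (by linarith) hz0).2]
    unfold kshq
    ring
  rw [e1, norm_neg, norm_mul, norm_mul]
  have b1 : ‖deriv riemannZeta (1 - z)‖ ≤ C1 * 9 * (C3 * 3 * (C2 + 1)) * Real.log T * T ^ 3 := by
    rw [H4 z hre (by linarith), norm_neg, norm_mul]
    have g1 : ‖GG z‖ ≤ C1 * 9 * T ^ 2 := by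
      have a1 := (H1 z (by rw [hz]; norm_num) (by rw [hz]) (by linarith)).1
      have a2 : z.im ^ (z.re - 1 / 2) ≤ z.im ^ (2 : ℝ) :=
        Real.rpow_le_rpow_of_exponent_le hv (by rw [hz]; norm_num)
      rw [Real.rpow_two] at a2
      have a3 : z.im ^ 2 ≤ 9 * T ^ 2 := by nlinarith
      calc ‖GG z‖ ≤ C1 * z.im ^ (z.re - 1 / 2) := a1
        _ ≤ C1 * (9 * T ^ 2) := mul_le_mul_of_nonneg_left (a2.trans a3) hC1.le
        _ = C1 * 9 * T ^ 2 := by ring
    obtain ⟨a4, a5, -, -⟩ := H3 z (by rw [hz]; norm_num) (by rw [hz]) (by linarith)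
    have g2 : ‖lam z * riemannZeta z + deriv riemannZeta z‖ ≤ C3 * 3 * (C2 + 1) * Real.log T * T := by
      refine (norm_add_le _ _).trans ?_
      rw [norm_mul]
      have a6 : ‖riemannZeta z‖ ≤ C3 * (3 * T) :=
        a4.trans (mul_le_mul_of_nonneg_left h2 (by linarith))
      have a7 : ‖deriv riemannZeta z‖ ≤ C3 * (3 * T) :=
        a5.trans (mul_le_mul_of_nonneg_left h2 (by linarith))
      have a8 : ‖lam z‖ * ‖riemannZeta z‖ ≤ (C2 * Real.log T) * (C3 * (3 * T)) :=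
        mul_le_mul hlam a6 (norm_nonneg _) (by positivity)
      have a9 : C3 * (3 * T) ≤ C3 * (3 * T) * Real.log T := le_mul_of_one_le_right (by positivity) hL
      calc ‖lam z‖ * ‖riemannZeta z‖ + ‖deriv riemannZeta z‖
          ≤ (C2 * Real.log T) * (C3 * (3 * T)) + C3 * (3 * T) * Real.log T :=
            add_le_add a8 (a7.trans a9)
        _ = C3 * 3 * (C2 + 1) * Real.log T * T := by ring
    calc ‖GG z‖ * ‖lam z * riemannZeta z + deriv riemannZeta z‖
        ≤ (C1 * 9 * T ^ 2) * (C3 * 3 * (C2 + 1) * Real.log T * T) :=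
          mul_le_mul g1 g2 (norm_nonneg _) (by positivity)
      _ = C1 * 9 * (C3 * 3 * (C2 + 1)) * Real.log T * T ^ 3 := by ring
  have b2 : ‖kshP T z + deriv riemannZeta z / riemannZeta z‖ ≤ C7 * 25 * Real.log T ^ 2 / T ^ 4 := by
    refine (H7 T h10 z hz).trans ?_
    apply div_le_div_of_nonneg_right _ (by positivity)
    have : (1 + 4 * Real.log T) ^ 2 ≤ 25 * Real.log T ^ 2 := by nlinarith
    calc C7 * (1 + 4 * Real.log T) ^ 2 ≤ C7 * (25 * Real.log T ^ 2) :=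
          mul_le_mul_of_nonneg_left this hC7.le
      _ = C7 * 25 * Real.log T ^ 2 := by ring
  have b3 : ‖Bp T (1 - z)‖ ≤ C5 * 2 := by
    have a1 : (1 - z).re = -1 := by
      rw [Complex.sub_re, Complex.one_re, hz]
      norm_num
    have a2 := (H5 T h10 (1 - z)).2 (by rw [a1]; norm_num)
    rw [a1] at a2
    have a3 : T ^ ((-1 : ℝ) / 2) ≤ 1 := Real.rpow_le_one_of_one_le_of_nonpos (by linarith) (by norm_num)
    have a4 : (2 : ℝ) ^ (-(-1 : ℝ)) = 2 := by norm_num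
    rw [a4] at a2
    calc ‖Bp T (1 - z)‖ ≤ C5 * 2 * T ^ ((-1 : ℝ) / 2) := a2
      _ ≤ C5 * 2 * 1 := mul_le_mul_of_nonneg_left a3 (by positivity)
      _ = C5 * 2 := mul_one _
  have hL0 : 0 ≤ Real.log T := by linarith
  calc ‖deriv riemannZeta (1 - z)‖ * ‖kshP T z + deriv riemannZeta z / riemannZeta z‖ *
        ‖Bp T (1 - z)‖
      ≤ (C1 * 9 * (C3 * 3 * (C2 + 1)) * Real.log T * T ^ 3) * (C7 * 25 * Real.log T ^ 2 / T ^ 4) *
        (C5 * 2) := mul_le_mul (mul_le_mul b1 b2 (norm_nonneg _) (by positivity)) b3 (norm_nonneg _)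
          (by positivity)
    _ = C1 * 9 * (C3 * 3 * (C2 + 1)) * (C7 * 25) * (C5 * 2) * Real.log T ^ 3 / T := by
        field_simp

/-- the bound in the strip -/
private lemma ksh_step2 : ∃ T0 : ℝ, 10 ≤ T0 ∧ ∀ T : ℝ, T0 ≤ T → ∀ z : ℂ, 1 / 2 ≤ z.re → z.re ≤ 2 →
    T / 2 ≤ z.im → z.im ≤ 3 * T → DifferentiableAt ℂ (kshq T) z ∧ ‖kshq T z‖ ≤ T ^ 10 := by
  obtain ⟨C2, T2, hC2, hT2, H2⟩ := ksh_lam
  obtain ⟨C3, T3, hC3, hT3, H3⟩ := grw 2 (by norm_num)
  obtain ⟨C5, hC5, H5⟩ := dls_bp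
  obtain ⟨T8, hT8, H8⟩ := aux_log (C3 * 81 * (C2 + 4) * (C5 * 2)) 1 1 one_pos
  refine ⟨max (max T8 T2) (max (2 * T3) 10), (le_max_right _ _).trans (le_max_right _ _),
    fun T hT z hz1 hz2 h1 h2 => ?_⟩
  have hA8 : T8 ≤ T := (le_max_left _ _).trans ((le_max_left _ _).trans hT)
  have hA2 : T2 ≤ T := (le_max_right _ _).trans ((le_max_left _ _).trans hT)
  have hA3 : 2 * T3 ≤ T := (le_max_left _ _).trans ((le_max_right _ _).trans hT)
  have h10 : 10 ≤ T := (le_max_right _ _).trans ((le_max_right _ _).trans hT)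
  have hTp : 0 < T := by linarith
  have hL : 1 ≤ Real.log T := by
    rw [Real.le_log_iff_exp_le (by linarith)]
    have := Real.exp_one_lt_d9
    linarith
  have hL0 : 0 ≤ Real.log T := by linarith
  have hv : 1 ≤ z.im := by linarith
  have hi : z.im ≠ 0 := by linarith
  have hre : |z.re| ≤ 2 := by rw [abs_le]; constructor <;> linarith
  obtain ⟨-, hLd, hlam⟩ := H2 T hA2 z hre h1 h2
  refine ⟨ksh_qd T z hi hLd, ?_⟩
  unfold kshq
  rw [norm_mul, norm_mul]
  have b1 : ‖deriv riemannZeta (1 - z)‖ ≤ C3 * 81 * T ^ 4 := by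
    have a1 := (H3 z hz1 hz2 (by linarith)).2.2.2
    have a2 : z.im ^ ((2 : ℝ) + 2) = z.im ^ 4 := by
      rw [show (2 : ℝ) + 2 = ((4 : ℕ) : ℝ) by norm_num, Real.rpow_natCast]
    rw [a2] at a1
    have a3 : z.im ^ 4 ≤ (3 * T) ^ 4 := pow_le_pow_left₀ (by linarith) h2 4
    calc ‖deriv riemannZeta (1 - z)‖ ≤ C3 * z.im ^ 4 := a1
      _ ≤ C3 * (3 * T) ^ 4 := mul_le_mul_of_nonneg_left a3 (by linarith)
      _ = C3 * 81 * T ^ 4 := by ring
  have b2 : ‖-lam z + kshP T z‖ ≤ (C2 + 4) * Real.log T * T ^ 4 := by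
    refine (norm_add_le _ _).trans ?_
    rw [norm_neg]
    have a1 := ksh_P T h10 z (by linarith)
    have a2 : (1 : ℝ) ≤ T ^ 4 := one_le_pow₀ (by linarith)
    have a3 : C2 * Real.log T ≤ C2 * Real.log T * T ^ 4 :=
      le_mul_of_one_le_right (by positivity) a2
    calc ‖lam z‖ + ‖kshP T z‖ ≤ C2 * Real.log T * T ^ 4 + 4 * Real.log T * T ^ 4 :=
          add_le_add (hlam.trans a3) a1
      _ = (C2 + 4) * Real.log T * T ^ 4 := by ring
  have b3 : ‖Bp T (1 - z)‖ ≤ C5 * 2 * T := by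
    have a0 : (1 - z).re = 1 - z.re := by
      rw [Complex.sub_re, Complex.one_re]
    rcases le_total 0 (1 - z).re with hp | hp
    · have a2 := (H5 T h10 (1 - z)).1 hp
      have a3 : (4 : ℝ) ^ (1 - z).re ≤ 4 ^ ((1 : ℝ) / 2) :=
        Real.rpow_le_rpow_of_exponent_le (by norm_num) (by rw [a0]; linarith)
      have a4 : (4 : ℝ) ^ ((1 : ℝ) / 2) = 2 := by
        rw [show (4 : ℝ) = 2 ^ (2 : ℝ) by norm_num, ← Real.rpow_mul (by norm_num)]
        norm_num
      rw [a4] at a3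
      have a5 : T ^ ((1 - z).re / 2) ≤ T ^ (1 : ℝ) :=
        Real.rpow_le_rpow_of_exponent_le (by linarith) (by rw [a0]; linarith)
      rw [Real.rpow_one] at a5
      calc ‖Bp T (1 - z)‖ ≤ C5 * 4 ^ (1 - z).re * T ^ ((1 - z).re / 2) := a2
        _ ≤ C5 * 2 * T := mul_le_mul (mul_le_mul_of_nonneg_left a3 hC5.le) a5
            (Real.rpow_nonneg hTp.le _) (by positivity)
    · have a2 := (H5 T h10 (1 - z)).2 hp
      have a3 : (2 : ℝ) ^ (-(1 - z).re) ≤ 2 ^ (1 : ℝ) :=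
        Real.rpow_le_rpow_of_exponent_le (by norm_num) (by rw [a0]; linarith)
      rw [Real.rpow_one] at a3
      have a5 : T ^ ((1 - z).re / 2) ≤ T ^ (1 : ℝ) :=
        Real.rpow_le_rpow_of_exponent_le (by linarith) (by linarith)
      rw [Real.rpow_one] at a5
      calc ‖Bp T (1 - z)‖ ≤ C5 * 2 ^ (-(1 - z).re) * T ^ ((1 - z).re / 2) := a2
        _ ≤ C5 * 2 * T := mul_le_mul (mul_le_mul_of_nonneg_left a3 hC5.le) a5
            (Real.rpow_nonneg hTp.le _) (by positivity)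
  have b4 := H8 T hA8
  rw [pow_one, Real.rpow_one] at b4
  calc ‖deriv riemannZeta (1 - z)‖ * ‖-lam z + kshP T z‖ * ‖Bp T (1 - z)‖
      ≤ (C3 * 81 * T ^ 4) * ((C2 + 4) * Real.log T * T ^ 4) * (C5 * 2 * T) :=
        mul_le_mul (mul_le_mul b1 b2 (norm_nonneg _) (by positivity)) b3 (norm_nonneg _) (by positivity)
    _ = (C3 * 81 * (C2 + 4) * (C5 * 2) * Real.log T) * T ^ 9 := by ring
    _ ≤ T * T ^ 9 := mul_le_mul_of_nonneg_right b4 (by positivity)
    _ = T ^ 10 := by ring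

theorem ksh : ∃ T0 : ℝ, 10 ≤ T0 ∧ ∀ T : ℝ, T0 ≤ T → ∀ t0 : ℝ, T ≤ t0 → t0 ≤ 2 * T →
    ‖(starRingEnd ℂ) (JL T (3 / 2) t0) - ∫ y in (-(Real.log T) ^ 2)..((Real.log T) ^ 2), kk 0 y *
      ((-lam (pt 0 (t0 + y)) + ∑ k ∈ Icc 1 ⌊T ^ 4⌋₊, La k * (k : ℂ) ^ (pt 0 (t0 + y) - 1)) *
        deriv riemannZeta (pt 0 (t0 + y)) * Bp T (pt 0 (t0 + y)))‖ ≤ 1 := by
  obtain ⟨K, T1, hK, hT1, H1⟩ := ksh_step1
  obtain ⟨T2, hT2, H2⟩ := ksh_step2
  obtain ⟨T3, hT3, H3⟩ := aux_win 1 one_pos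
  obtain ⟨T4, hT4, H4⟩ := aux_log (108 * K) 1 5 one_pos
  refine ⟨max (max T1 T2) (max (max T3 T4) 1000), by
    exact le_trans (by norm_num) ((le_max_right _ _).trans (le_max_right _ _)), fun T hT t0 ht1 ht2 => ?_⟩
  have hA1 : T1 ≤ T := (le_max_left _ _).trans ((le_max_left _ _).trans hT)
  have hA2 : T2 ≤ T := (le_max_right _ _).trans ((le_max_left _ _).trans hT)
  have hA3 : T3 ≤ T := (le_max_left _ _).trans ((le_max_left _ _).trans ((le_max_right _ _).trans hT))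
  have hA4 : T4 ≤ T := (le_max_right _ _).trans ((le_max_left _ _).trans ((le_max_right _ _).trans hT))
  have h1000 : 1000 ≤ T := (le_max_right _ _).trans ((le_max_right _ _).trans hT)
  have hTp : 0 < T := by linarith
  obtain ⟨hL, -, hW⟩ := H3 T hA3
  set L := Real.log T with hLdef
  have hR : 0 < L ^ 2 := by positivity
  have hyT : ∀ y : ℝ, |y| ≤ L ^ 2 → T / 2 ≤ t0 + y ∧ t0 + y ≤ 3 * T := by
    intro y hy
    rw [abs_le] at hy
    constructor <;> linarith [hy.1, hy.2]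
  set I' := ∫ y in (-L ^ 2)..(L ^ 2), kk 0 y * kshq T (pt 0 (t0 + y)) with hI'
  set J' := ∫ y in (-L ^ 2)..(L ^ 2), kk (3 / 2) y * kshq T (pt (3 / 2) (t0 + y)) with hJ'
  have hconj : ∫ y in (-L ^ 2)..(L ^ 2), kk 0 y *
      ((-lam (pt 0 (t0 + y)) + ∑ k ∈ Icc 1 ⌊T ^ 4⌋₊, La k * (k : ℂ) ^ (pt 0 (t0 + y) - 1)) *
        deriv riemannZeta (pt 0 (t0 + y)) * Bp T (pt 0 (t0 + y))) = (starRingEnd ℂ) I' := by
    rw [hI', ← intervalIntegral.intervalIntegral_conj]
    apply intervalIntegral.integral_congr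
    intro y hy
    rw [Set.uIcc_of_le (by linarith)] at hy
    dsimp only
    have h1 := hyT y (abs_le.2 hy)
    rw [map_mul, kk_conj, neg_zero, ksh_conj T (pt 0 (t0 + y)) (by rw [pt_re]; norm_num)
      (by rw [pt_im]; linarith [h1.1])]
  rw [hconj, ← map_sub, RCLike.norm_conj]
  have hs2 : ∀ s : ℂ, 1 / 2 + 0 ≤ s.re → s.re ≤ 1 / 2 + 3 / 2 → |s.im - t0| ≤ L ^ 2 →
      DifferentiableAt ℂ (kshq T) s ∧ ‖kshq T s‖ ≤ T ^ 10 := by
    intro s h1 h2 h3
    have h4 := hyT (s.im - t0) h3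
    rw [add_sub_cancel] at h4
    exact H2 T hA2 s (by linarith) (by linarith) h4.1 h4.2
  have hrc := rcg (kshq T) t0 (L ^ 2) 0 (3 / 2) (T ^ 10) hR (by norm_num) hs2
  have hrc2 : ‖I' - J'‖ ≤ 1 / 2 := by
    refine hrc.trans ?_
    have e1 : max ((0 : ℝ) ^ 2) ((3 / 2 : ℝ) ^ 2) = 9 / 4 := by norm_num
    rw [e1]
    have hL3 : 3 ≤ L := by
      rw [hLdef, Real.le_log_iff_exp_le hTp]
      have h2 : Real.exp 3 = (Real.exp 1) ^ 3 := by
        rw [← Real.exp_nat_mul]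
        norm_num
      have h3 : Real.exp 1 < 3 := by
        have := Real.exp_one_lt_d9
        linarith
      have h4 : (Real.exp 1) ^ 3 ≤ 3 ^ 3 := pow_le_pow_left₀ (Real.exp_pos 1).le h3.le 3
      rw [h2]
      linarith
    have e2 : T ^ 10 = Real.exp (10 * L) := by
      rw [hLdef, mul_comm, Real.exp_mul, Real.exp_log hTp]
      exact_mod_cast rfl
    have e3 : Real.exp (-(L ^ 2) ^ 2) * T ^ 10 ≤ Real.exp (-L) := by
      rw [e2, ← Real.exp_add]
      apply Real.exp_le_exp.2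
      have : 27 * L ≤ L ^ 4 := by
        have h5 : 27 ≤ L ^ 3 := by
          have := pow_le_pow_left₀ (by norm_num : (0 : ℝ) ≤ 3) hL3 3
          linarith
        nlinarith
      nlinarith
    have e4 : Real.exp (-L) = T⁻¹ := by
      rw [hLdef, Real.exp_neg, Real.exp_log hTp]
    rw [e4] at e3
    have e5 : T⁻¹ ≤ 1 / 1000 := by
      rw [inv_eq_one_div]
      exact one_div_le_one_div_of_le (by norm_num) h1000
    have e6 := ksh_exp
    have e7 : 0 ≤ Real.exp (-(L ^ 2) ^ 2) * T ^ 10 := by positivity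
    calc 2 * (3 / 2 - 0) * Real.exp (9 / 4) * Real.exp (-(L ^ 2) ^ 2) * T ^ 10
        = 3 * Real.exp (9 / 4) * (Real.exp (-(L ^ 2) ^ 2) * T ^ 10) := by ring
      _ ≤ 3 * 27 * (1 / 1000) := mul_le_mul (by linarith) (e3.trans e5) e7 (by norm_num)
      _ ≤ 1 / 2 := by norm_num
  have hpt : ∀ y : ℝ, |y| ≤ L ^ 2 → DifferentiableAt ℂ (HL T) (pt (3 / 2) (t0 + y)) ∧
      DifferentiableAt ℂ (kshq T) (pt (3 / 2) (t0 + y)) ∧
      ‖HL T (pt (3 / 2) (t0 + y)) - kshq T (pt (3 / 2) (t0 + y))‖ ≤ K * L ^ 3 / T := by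
    intro y hy
    have h1 := hyT y hy
    exact H1 T hA1 _ (by rw [pt_re]; norm_num) (by rw [pt_im]; exact h1.1) (by rw [pt_im]; exact h1.2)
  have hst1 : ‖JL T (3 / 2) t0 - J'‖ ≤ 1 / 2 := by
    have i1 : IntervalIntegrable (fun y : ℝ => kk (3 / 2) y * HL T (pt (3 / 2) (t0 + y))) volume
        (-L ^ 2) (L ^ 2) := by
      have h1 := (aux_kk (3 / 2)).continuousOn.mul (aux_line (F := HL T) fun y hy => (hpt y hy).1)
      exact aux_ii hR.le h1
    have i2 : IntervalIntegrable (fun y : ℝ => kk (3 / 2) y * kshq T (pt (3 / 2) (t0 + y))) volume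
        (-L ^ 2) (L ^ 2) := by
      have h1 := (aux_kk (3 / 2)).continuousOn.mul (aux_line (F := kshq T) fun y hy => (hpt y hy).2.1)
      exact aux_ii hR.le h1
    have e1 : JL T (3 / 2) t0 - J' = ∫ y in (-L ^ 2)..(L ^ 2),
        (kk (3 / 2) y * HL T (pt (3 / 2) (t0 + y)) - kk (3 / 2) y * kshq T (pt (3 / 2) (t0 + y))) := by
      rw [intervalIntegral.integral_sub i1 i2]
      rfl
    rw [e1]
    have hb : ∀ y ∈ Set.uIoc (-L ^ 2) (L ^ 2),
        ‖kk (3 / 2) y * HL T (pt (3 / 2) (t0 + y)) - kk (3 / 2) y * kshq T (pt (3 / 2) (t0 + y))‖ ≤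
          27 * (K * L ^ 3 / T) := by
      intro y hy
      rw [Set.uIoc_of_le (by linarith)] at hy
      rw [← mul_sub, norm_mul, kk_norm]
      have h1 : Real.exp ((3 / 2) ^ 2 - y ^ 2) ≤ 27 := by
        refine le_trans (Real.exp_le_exp.2 ?_) ksh_exp
        nlinarith [sq_nonneg y]
      exact mul_le_mul h1 (hpt y (abs_le.2 ⟨hy.1.le, hy.2⟩)).2.2 (norm_nonneg _) (by norm_num)
    refine (intervalIntegral.norm_integral_le_of_norm_le_const hb).trans ?_
    rw [abs_of_nonneg (by linarith : 0 ≤ L ^ 2 - -L ^ 2)]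
    have h4 := H4 T hA4
    rw [Real.rpow_one] at h4
    have e2 : 27 * (K * L ^ 3 / T) * (L ^ 2 - -L ^ 2) = (108 * K * L ^ 5) / T / 2 := by
      field_simp
      ring
    rw [e2]
    have h5 : 108 * K * L ^ 5 / T ≤ 1 := by
      rw [div_le_one hTp]
      exact h4
    linarith
  have e9 : JL T (3 / 2) t0 - I' = (JL T (3 / 2) t0 - J') - (I' - J') := by ring
  rw [e9]
  refine (norm_sub_le _ _).trans ?_
  linarith

end Pool.Agent.H24.WH
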