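import Pool.Agent.H24.WH.Defs

/-!
# [H24 WH MEL] Mellin inversion of a smooth cut-off

`φ` smooth with compact support in `[-1, B]`. `KK φ w = (1/2π) int φ(u) exp(u w) du` (entire in `w`; here `w` stands for `L w` of think 1963).
PROOF. (1) `|KK φ w| ≤ C_A exp(B max(Re w, 0)) (1 + |w|)^(-A)` for `Re w ≥ 0`: integrate by parts `A` times (all derivatives have
support in `[-1,B]`), `|exp(uw)| ≤ exp(B Re w)` for `u ≤ B`, `Re w ≥ 0`. (2) Entire: differentiate under the integral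
(`hasDerivAt_integral_of_dominated_loc_of_deriv_le`), or as in Mathlib `Differentiable` for integrals over compact sets. (3) Fourier inversion for
`u ↦ φ(u) exp(c u)` (Schwartz; see `Pool/Agent/H48/WN/Ker.lean`): `φ(u) exp(cu) = int_ℝ KK φ (c + iy) exp(-iuy) dy`, that is
`φ(u) = int_ℝ KK φ (c + iy) exp(-u(c + iy)) dy`.
-/

set_option autoImplicit false

namespace Pool.Agent.H24.WH

open Complex MeasureTheory Finset Pool.Agent.H48.WN

noncomputable def KK (φ : ℝ → ℝ) (w : ℂ) : ℂ := (1 / (2 * Real.pi) : ℝ) * ∫ u : ℝ, ((φ u : ℝ) : ℂ) * cexp ((u : ℂ) * w)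

private lemma mel_cs (φ : ℝ → ℝ) (B : ℝ) (h1 : ∀ u ≤ -1, φ u = 0) (h2 : ∀ u, B ≤ u → φ u = 0) :
    HasCompactSupport (fun u => ((φ u : ℝ) : ℂ)) := by
  refine HasCompactSupport.intro (K := Set.Icc (-1) B) isCompact_Icc fun u hu => ?_
  rw [Set.mem_Icc, not_and_or, not_le, not_le] at hu
  rcases hu with hu | hu
  · rw [h1 u hu.le, ofReal_zero]
  · rw [h2 u hu.le, ofReal_zero]

private lemma mel_sm (φ : ℝ → ℝ) (hφ : ContDiff ℝ (⊤ : ℕ∞) φ) :
    ContDiff ℝ (⊤ : ℕ∞) (fun u => ((φ u : ℝ) : ℂ)) := Complex.ofRealCLM.contDiff.comp hφ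

private lemma mel_int (f : ℝ → ℂ) (hf : Continuous f) (hc : HasCompactSupport f) (w : ℂ) :
    Integrable (fun u : ℝ => f u * cexp ((u : ℂ) * w)) := by
  refine Continuous.integrable_of_hasCompactSupport (by fun_prop) ?_
  exact hc.mul_right

private lemma mel_parts (f : ℝ → ℂ) (hf : ContDiff ℝ (⊤ : ℕ∞) f) (hc : HasCompactSupport f)
    (w : ℂ) :
    w * ∫ u : ℝ, f u * cexp ((u : ℂ) * w) = -∫ u : ℝ, deriv f u * cexp ((u : ℂ) * w) := by
  have hd : Continuous (deriv f) := hf.continuous_deriv (by simp)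
  have hv : ∀ u : ℝ, HasDerivAt (fun u : ℝ => cexp ((u : ℂ) * w)) (w * cexp ((u : ℂ) * w)) u := by
    intro u
    have h := ((Complex.ofRealCLM.hasDerivAt (x := u)).mul_const w).cexp
    simpa [mul_comm] using h
  have hu : ∀ u : ℝ, HasDerivAt f (deriv f u) u := fun u =>
    (hf.differentiable (by simp) u).hasDerivAt
  have key := integral_mul_deriv_eq_deriv_mul_of_integrable (u := f) (u' := deriv f)
    (v := fun u : ℝ => cexp ((u : ℂ) * w)) (v' := fun u : ℝ => w * cexp ((u : ℂ) * w))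
    (fun u _ => hu u) (fun u _ => hv u) ?_ ?_ ?_
  · rw [← key, ← integral_const_mul]
    refine integral_congr_ae (Filter.Eventually.of_forall fun u => ?_)
    show w * (f u * cexp ((u : ℂ) * w)) = f u * (w * cexp ((u : ℂ) * w))
    ring
  · have h := (mel_int f hf.continuous hc w).const_mul w
    refine h.congr (Filter.Eventually.of_forall fun u => ?_)
    show w * (f u * cexp ((u : ℂ) * w)) = f u * (w * cexp ((u : ℂ) * w))
    ring
  · exact mel_int _ hd hc.deriv w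
  · exact mel_int f hf.continuous hc w

private lemma mel_bd0 (f : ℝ → ℂ) (hf : Continuous f) (hc : HasCompactSupport f) (B : ℝ)
    (h2 : ∀ u, B < u → f u = 0) (w : ℂ) (hw : 0 ≤ w.re) :
    ‖∫ u : ℝ, f u * cexp ((u : ℂ) * w)‖ ≤ (∫ u : ℝ, ‖f u‖) * Real.exp (B * w.re) := by
  rw [← integral_mul_const]
  refine norm_integral_le_of_norm_le ?_ (Filter.Eventually.of_forall fun u => ?_)
  · exact (hf.norm.integrable_of_hasCompactSupport hc.norm).mul_const _
  · rw [norm_mul, Complex.norm_exp]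
    rcases le_or_gt u B with hu | hu
    · refine mul_le_mul_of_nonneg_left (Real.exp_le_exp.2 ?_) (norm_nonneg _)
      rw [re_ofReal_mul]
      exact mul_le_mul_of_nonneg_right hu hw
    · rw [h2 u hu, norm_zero, zero_mul, zero_mul]

private lemma mel_bdA (A : ℕ) (B : ℝ) : ∀ f : ℝ → ℂ, ContDiff ℝ (⊤ : ℕ∞) f →
    HasCompactSupport f → (∀ u, B < u → f u = 0) →
    ∃ C : ℝ, 0 < C ∧ ∀ w : ℂ, 0 ≤ w.re →
      ‖w‖ ^ A * ‖∫ u : ℝ, f u * cexp ((u : ℂ) * w)‖ ≤ C * Real.exp (B * w.re) := by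
  induction A with
  | zero =>
    intro f hf hc h2
    refine ⟨(∫ u : ℝ, ‖f u‖) + 1, ?_, fun w hw => ?_⟩
    · have : 0 ≤ ∫ u : ℝ, ‖f u‖ := integral_nonneg fun _ => norm_nonneg _
      linarith
    · rw [pow_zero, one_mul, add_mul, one_mul]
      have h := mel_bd0 f hf.continuous hc B h2 w hw
      have := Real.exp_pos (B * w.re)
      linarith
  | succ A ih =>
    intro f hf hc h2
    have hf' : ContDiff ℝ (⊤ : ℕ∞) (deriv f) := by
      have h3 : ContDiff ℝ (((⊤ : ℕ∞) : WithTop ℕ∞) + 1) f := by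
        exact hf
      exact ((contDiff_succ_iff_deriv).1 h3).2.2
    obtain ⟨C, hC, hb⟩ := ih (deriv f) hf' hc.deriv (by
      intro u hu
      have h3 : f =ᶠ[nhds u] fun _ => (0 : ℂ) := by
        filter_upwards [lt_mem_nhds hu] with v hv
        exact h2 v hv
      rw [h3.deriv_eq, deriv_const])
    refine ⟨C, hC, fun w hw => ?_⟩
    have h4 := hb w hw
    have h5 : ‖∫ u : ℝ, deriv f u * cexp ((u : ℂ) * w)‖ =
        ‖w‖ * ‖∫ u : ℝ, f u * cexp ((u : ℂ) * w)‖ := by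
      rw [← norm_mul, mel_parts f hf hc w, norm_neg]
    rw [h5] at h4
    calc ‖w‖ ^ (A + 1) * ‖∫ u : ℝ, f u * cexp ((u : ℂ) * w)‖
        = ‖w‖ ^ A * (‖w‖ * ‖∫ u : ℝ, f u * cexp ((u : ℂ) * w)‖) := by ring
      _ ≤ _ := h4

theorem mel_dec (φ : ℝ → ℝ) (hφ : ContDiff ℝ (⊤ : ℕ∞) φ) (B : ℝ) (hB0 : 0 ≤ B) (h1 : ∀ u ≤ -1, φ u = 0)
    (h2 : ∀ u, B ≤ u → φ u = 0) (A : ℕ) :
    ∃ C : ℝ, 0 < C ∧ ∀ w : ℂ, 0 ≤ w.re → ‖KK φ w‖ ≤ C * Real.exp (B * w.re) * (1 + ‖w‖) ^ (-(A : ℝ)) := by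
  have hs : ∀ u, B < u → ((φ u : ℝ) : ℂ) = 0 := fun u hu => by rw [h2 u hu.le, ofReal_zero]
  obtain ⟨C₀, hC₀, hb₀⟩ := mel_bdA 0 B _ (mel_sm φ hφ) (mel_cs φ B h1 h2) hs
  obtain ⟨C₁, hC₁, hb₁⟩ := mel_bdA A B _ (mel_sm φ hφ) (mel_cs φ B h1 h2) hs
  have hpi : 0 < 1 / (2 * Real.pi) := by positivity
  refine ⟨1 / (2 * Real.pi) * (2 ^ A * (C₀ + C₁)), by positivity, fun w hw => ?_⟩
  have e0 := hb₀ w hw
  have e1 := hb₁ w hw
  rw [pow_zero, one_mul] at e0
  unfold KK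
  rw [norm_mul, Complex.norm_real, Real.norm_eq_abs, abs_of_pos hpi]
  generalize ‖∫ u : ℝ, ((φ u : ℝ) : ℂ) * cexp ((u : ℂ) * w)‖ = J at *
  have hw1 : 0 < 1 + ‖w‖ := by positivity
  rw [Real.rpow_neg hw1.le, Real.rpow_natCast, ← div_eq_mul_inv, le_div_iff₀ (by positivity)]
  have hJ : (1 + ‖w‖) ^ A * J ≤ 2 ^ A * (C₀ + C₁) * Real.exp (B * w.re) := by
    have hE := Real.exp_pos (B * w.re)
    rcases le_total ‖w‖ 1 with hle | hge
    · have hp : (1 + ‖w‖) ^ A ≤ 2 ^ A := pow_le_pow_left₀ hw1.le (by linarith) A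
      calc (1 + ‖w‖) ^ A * J ≤ 2 ^ A * (C₀ * Real.exp (B * w.re)) := by
            rcases le_total 0 J with hJ0 | hJ0
            · exact mul_le_mul hp e0 hJ0 (by positivity)
            · exact (mul_nonpos_of_nonneg_of_nonpos (by positivity) hJ0).trans (by positivity)
        _ ≤ 2 ^ A * (C₀ + C₁) * Real.exp (B * w.re) := by
            have : 0 ≤ 2 ^ A * (C₁ * Real.exp (B * w.re)) := by positivity
            nlinarith
    · have hp : (1 + ‖w‖) ^ A ≤ 2 ^ A * ‖w‖ ^ A := by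
        rw [← mul_pow]
        exact pow_le_pow_left₀ hw1.le (by linarith) A
      calc (1 + ‖w‖) ^ A * J ≤ 2 ^ A * (C₁ * Real.exp (B * w.re)) := by
            rcases le_total 0 J with hJ0 | hJ0
            · calc (1 + ‖w‖) ^ A * J ≤ (2 ^ A * ‖w‖ ^ A) * J :=
                    mul_le_mul_of_nonneg_right hp hJ0
                _ = 2 ^ A * (‖w‖ ^ A * J) := by ring
                _ ≤ _ := mul_le_mul_of_nonneg_left e1 (by positivity)
            · exact (mul_nonpos_of_nonneg_of_nonpos (by positivity) hJ0).trans (by positivity)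
        _ ≤ 2 ^ A * (C₀ + C₁) * Real.exp (B * w.re) := by
            have : 0 ≤ 2 ^ A * (C₀ * Real.exp (B * w.re)) := by positivity
            nlinarith
  calc 1 / (2 * Real.pi) * J * (1 + ‖w‖) ^ A = 1 / (2 * Real.pi) * ((1 + ‖w‖) ^ A * J) := by ring
    _ ≤ 1 / (2 * Real.pi) * (2 ^ A * (C₀ + C₁) * Real.exp (B * w.re)) :=
        mul_le_mul_of_nonneg_left hJ hpi.le
    _ = 1 / (2 * Real.pi) * (2 ^ A * (C₀ + C₁)) * Real.exp (B * w.re) := by ring

theorem mel_diff (φ : ℝ → ℝ) (hφ : ContDiff ℝ (⊤ : ℕ∞) φ) (B : ℝ) (h1 : ∀ u ≤ -1, φ u = 0)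
    (h2 : ∀ u, B ≤ u → φ u = 0) : Differentiable ℂ (KK φ) := by
  have hc := mel_cs φ B h1 h2
  have hf := (mel_sm φ hφ).continuous
  unfold KK
  refine Differentiable.const_mul (fun w₀ => ?_) _
  have key := hasDerivAt_integral_of_dominated_loc_of_deriv_le (μ := volume)
    (F := fun (w : ℂ) (u : ℝ) => ((φ u : ℝ) : ℂ) * cexp ((u : ℂ) * w))
    (F' := fun (w : ℂ) (u : ℝ) => ((φ u : ℝ) : ℂ) * ((u : ℂ) * cexp ((u : ℂ) * w)))
    (x₀ := w₀) (s := Metric.ball w₀ 1)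
    (bound := fun u : ℝ => ‖((φ u : ℝ) : ℂ)‖ * (|u| * Real.exp (|u| * (‖w₀‖ + 1))))
    (Metric.ball_mem_nhds w₀ one_pos) ?_ ?_ ?_ ?_ ?_ ?_
  · exact key.2.differentiableAt
  · exact Filter.Eventually.of_forall fun w => (mel_int _ hf hc w).aestronglyMeasurable
  · exact mel_int _ hf hc w₀
  · have : Continuous (fun u : ℝ => ((φ u : ℝ) : ℂ) * ((u : ℂ) * cexp ((u : ℂ) * w₀))) := by
      fun_prop
    exact this.aestronglyMeasurable
  · refine Filter.Eventually.of_forall fun u w hw => ?_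
    rw [norm_mul, norm_mul, Complex.norm_real, Complex.norm_real, Real.norm_eq_abs u]
    refine mul_le_mul_of_nonneg_left (mul_le_mul_of_nonneg_left ?_ (abs_nonneg _)) (norm_nonneg _)
    rw [Complex.norm_exp]
    refine Real.exp_le_exp.2 ?_
    rw [re_ofReal_mul]
    have hw' : ‖w‖ ≤ ‖w₀‖ + 1 := by
      have h3 : ‖w - w₀‖ < 1 := by simpa [dist_eq_norm] using hw
      have h4 := norm_le_norm_add_norm_sub' w w₀
      linarith
    calc u * w.re ≤ |u * w.re| := le_abs_self _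
      _ = |u| * |w.re| := abs_mul _ _
      _ ≤ |u| * (‖w₀‖ + 1) :=
          mul_le_mul_of_nonneg_left ((abs_re_le_norm w).trans hw') (abs_nonneg _)
  · refine Continuous.integrable_of_hasCompactSupport (by fun_prop) ?_
    exact hc.norm.mul_right
  · refine Filter.Eventually.of_forall fun u w _ => ?_
    have h3 : HasDerivAt (fun w : ℂ => cexp ((u : ℂ) * w)) ((u : ℂ) * cexp ((u : ℂ) * w)) w := by
      have h4 := ((hasDerivAt_id w).const_mul (u : ℂ)).cexp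
      simpa [mul_comm] using h4
    exact h3.const_mul _

open scoped FourierTransform SchwartzMap in
theorem mel_inv (φ : ℝ → ℝ) (hφ : ContDiff ℝ (⊤ : ℕ∞) φ) (B : ℝ) (h1 : ∀ u ≤ -1, φ u = 0)
    (h2 : ∀ u, B ≤ u → φ u = 0) (c u : ℝ) :
    Integrable (fun y : ℝ => KK φ ((c : ℂ) + (y : ℂ) * I)) ∧
    ((φ u : ℝ) : ℂ) = ∫ y : ℝ, KK φ ((c : ℂ) + (y : ℂ) * I) * cexp (-((u : ℂ) * ((c : ℂ) + (y : ℂ) * I))) := by
  have hc' : HasCompactSupport (fun u : ℝ => ((φ u : ℝ) : ℂ) * cexp ((u : ℂ) * (c : ℂ))) :=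
    (mel_cs φ B h1 h2).mul_right
  have hφ' : ContDiff ℝ (⊤ : ℕ∞) (fun u : ℝ => ((φ u : ℝ) : ℂ) * cexp ((u : ℂ) * (c : ℂ))) := by
    refine (mel_sm φ hφ).mul ?_
    have h3 : ContDiff ℝ (⊤ : ℕ∞) (fun u : ℝ => ((u : ℝ) : ℂ) * (c : ℂ)) :=
      (Complex.ofRealCLM.contDiff).mul contDiff_const
    exact h3.cexp
  obtain ⟨f, hf⟩ : ∃ f : 𝓢(ℝ, ℂ), ∀ u, f u = ((φ u : ℝ) : ℂ) * cexp ((u : ℂ) * (c : ℂ)) :=
    ⟨hc'.toSchwartzMap hφ', fun _ => rfl⟩
  obtain ⟨g, hg0⟩ : ∃ g : 𝓢(ℝ, ℂ), g = 𝓕⁻ f := ⟨_, rfl⟩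
  have hg : 𝓕 g = f := by rw [hg0]; exact FourierTransform.fourier_fourierInv_eq f
  have hpi : 0 < 2 * Real.pi := Real.two_pi_pos
  have hKK : ∀ y : ℝ, KK φ ((c : ℂ) + (y : ℂ) * I) =
      ((2 * Real.pi : ℝ) : ℂ)⁻¹ * g (y / (2 * Real.pi)) := by
    intro y
    have h4 : g (y / (2 * Real.pi)) = ∫ v : ℝ, ((φ v : ℝ) : ℂ) *
        cexp ((v : ℂ) * ((c : ℂ) + (y : ℂ) * I)) := by
      rw [hg0, SchwartzMap.fourierInv_coe, Real.fourierInv_eq']
      refine integral_congr_ae (Filter.Eventually.of_forall fun v => ?_)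
      have h5 : ((2 * Real.pi * inner ℝ v (y / (2 * Real.pi)) : ℝ) : ℂ) * I =
          (v : ℂ) * ((y : ℂ) * I) := by
        have h6 : 2 * Real.pi * inner ℝ v (y / (2 * Real.pi)) = v * y := by
          rw [show inner ℝ v (y / (2 * Real.pi)) = (y / (2 * Real.pi)) * v from by
            simp [mul_comm]]
          field_simp
        rw [h6]
        push_cast
        ring
      show cexp (((2 * Real.pi * inner ℝ v (y / (2 * Real.pi)) : ℝ) : ℂ) * I) • f v =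
        ((φ v : ℝ) : ℂ) * cexp ((v : ℂ) * ((c : ℂ) + (y : ℂ) * I))
      rw [h5, hf v, smul_eq_mul, mul_add, Complex.exp_add]
      ring
    rw [h4]
    unfold KK
    push_cast
    rw [one_div]
  constructor
  · have h7 : (fun y : ℝ => KK φ ((c : ℂ) + (y : ℂ) * I)) =
        fun y : ℝ => ((2 * Real.pi : ℝ) : ℂ)⁻¹ * g (y / (2 * Real.pi)) := funext hKK
    rw [h7]
    exact (g.integrable.comp_div hpi.ne').const_mul _
  · have hfu : f u = ∫ y : ℝ, KK φ ((c : ℂ) + (y : ℂ) * I) * cexp (-(I * (u : ℂ) * (y : ℂ))) := by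
      rw [← hg]
      show 𝓕 (g : ℝ → ℂ) u = _
      rw [Real.fourier_real_eq_integral_exp_smul]
      have h1 := Measure.integral_comp_div
        (fun v : ℝ => cexp (((-2 * Real.pi * v * u : ℝ) : ℂ) * I) • g v) (2 * Real.pi)
      have h2 : (∫ v : ℝ, cexp (((-2 * Real.pi * v * u : ℝ) : ℂ) * I) • g v) =
          ((2 * Real.pi : ℝ) : ℂ)⁻¹ * ∫ x : ℝ, (fun v : ℝ =>
            cexp (((-2 * Real.pi * v * u : ℝ) : ℂ) * I) • g v) (x / (2 * Real.pi)) := by
        rw [h1, abs_of_pos hpi, Complex.real_smul, ← mul_assoc, inv_mul_cancel₀, one_mul]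
        exact_mod_cast hpi.ne'
      rw [h2, ← integral_const_mul]
      refine integral_congr_ae (Filter.Eventually.of_forall fun y => ?_)
      have h3 : ((-2 * Real.pi * (y / (2 * Real.pi)) * u : ℝ) : ℂ) * I =
          -(I * (u : ℂ) * (y : ℂ)) := by
        have h4 : (-2 * Real.pi * (y / (2 * Real.pi)) * u : ℝ) = -(y * u) := by
          field_simp
        rw [h4]
        push_cast
        ring
      show ((2 * Real.pi : ℝ) : ℂ)⁻¹ * (cexp (((-2 * Real.pi * (y / (2 * Real.pi)) * u : ℝ) : ℂ) * I) •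
        g (y / (2 * Real.pi))) = KK φ ((c : ℂ) + (y : ℂ) * I) * cexp (-(I * (u : ℂ) * (y : ℂ)))
      rw [h3, smul_eq_mul, hKK]
      ring
    have h8 : ((φ u : ℝ) : ℂ) = f u * cexp (-((u : ℂ) * (c : ℂ))) := by
      rw [hf u, mul_assoc, ← Complex.exp_add, add_neg_cancel, Complex.exp_zero, mul_one]
    rw [h8, hfu, ← integral_mul_const]
    refine integral_congr_ae (Filter.Eventually.of_forall fun y => ?_)
    show KK φ ((c : ℂ) + (y : ℂ) * I) * cexp (-(I * (u : ℂ) * (y : ℂ))) *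
      cexp (-((u : ℂ) * (c : ℂ))) =
      KK φ ((c : ℂ) + (y : ℂ) * I) * cexp (-((u : ℂ) * ((c : ℂ) + (y : ℂ) * I)))
    rw [mul_assoc, ← Complex.exp_add]
    congr 2
    ring

end Pool.Agent.H24.WH
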