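import Pool.Agent.H24.WH.Defs
import Pool.Agent.H48.WN.Msg

/-!
# [H24 WH MSZ] mean square of `ζ - Zy` to the right of the critical line

PROOF. As `msg` (`Pool/Agent/H48/WN/Msg.lean`), but simpler (no divisor bound): `zap` with `φ = st (1 + d/8) (d/8)` gives
`ζ(s) = P(s) + O(T^(-2))`, `P - Zy = sum_{K < n ≤ N} φ(log n/L) n^(-s)`, `K = ⌊T^(d/4)⌋`; dyadic blocks (`≤ 5L` of them, Cauchy-Schwarz) and `mvt`:
each block `n ~ Y`, `K ≤ Y ≤ T^(1+d/4)`: `≤ C (T + Y) Y^(1-2σ) ≤ C (T + Y) Y^(-d)`, `T Y^(-d) ≤ C T^(1 - d^2/4)`,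
`Y^(1-d) ≤ T^((1+d/4)(1-d)) ≤ T^(1 - d/2)`. (There may be reusable lemmas in `Msg`: `msg_dy`, `msg_grow`; copy the private ones.)
-/

set_option autoImplicit false

namespace Pool.Agent.H24.WH

open Complex MeasureTheory Finset Pool.Agent.H48.WN

private theorem msz_split {M : Type*} [AddCommMonoid M] (J : ℕ) (f : ℕ → M) :
    ∑ n ∈ Ico 1 (2 ^ J), f n = ∑ j ∈ range J, ∑ n ∈ Ico (2 ^ j) (2 ^ (j + 1)), f n := by
  induction J with
  | zero => simp
  | succ J ih =>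
    rw [Finset.sum_range_succ, ← ih]
    rw [Finset.sum_Ico_consecutive]
    · exact Nat.one_le_two_pow
    · exact Nat.pow_le_pow_right (by norm_num) (by omega)

private theorem msz_dy : ∃ C : ℝ, 0 < C ∧ ∀ (J : ℕ) (T : ℝ) (a : ℕ → ℂ), 1 ≤ T →
    ∫ t in (-T)..T, ‖∑ n ∈ Ico 1 (2 ^ J), a n * (n : ℂ) ^ (-((t : ℂ) * Complex.I))‖ ^ 2 ≤
      C * J * ∑ n ∈ Ico 1 (2 ^ J), (T + n) * ‖a n‖ ^ 2 := by
  obtain ⟨C, hC, hmv⟩ := Pool.Agent.H43.SI.mvt
  refine ⟨2 * C, by positivity, fun J T a hT => ?_⟩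
  have hcont : ∀ s : Finset ℕ, (∀ n ∈ s, 1 ≤ n) →
      Continuous (fun t : ℝ => ‖∑ n ∈ s, a n * (n : ℂ) ^ (-((t : ℂ) * Complex.I))‖ ^ 2) := by
    intro s hs
    apply Continuous.pow
    apply Continuous.norm
    apply continuous_finsetSum
    intro n hn
    apply Continuous.mul continuous_const
    have hn0 : (n : ℂ) ≠ 0 := by
      have := hs n hn
      exact_mod_cast (by omega : n ≠ 0)
    apply Continuous.const_cpow
    · fun_prop
    · left
      exact hn0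
  have hpt : ∀ t : ℝ, ‖∑ n ∈ Ico 1 (2 ^ J), a n * (n : ℂ) ^ (-((t : ℂ) * Complex.I))‖ ^ 2 ≤
      J * ∑ j ∈ range J,
        ‖∑ n ∈ Ico (2 ^ j) (2 ^ (j + 1)), a n * (n : ℂ) ^ (-((t : ℂ) * Complex.I))‖ ^ 2 := by
    intro t
    rw [msz_split]
    have h1 := norm_sum_le (range J) (fun j => ∑ n ∈ Ico (2 ^ j) (2 ^ (j + 1)),
      a n * (n : ℂ) ^ (-((t : ℂ) * Complex.I)))
    have h2 := sq_sum_le_card_mul_sum_sq (s := range J) (f := fun j =>
      ‖∑ n ∈ Ico (2 ^ j) (2 ^ (j + 1)), a n * (n : ℂ) ^ (-((t : ℂ) * Complex.I))‖)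
    rw [card_range] at h2
    exact (pow_le_pow_left₀ (norm_nonneg _) h1 2).trans h2
  have hpow1 : ∀ j : ℕ, 1 ≤ 2 ^ j := fun j => Nat.one_le_two_pow
  have hB : ∀ j : ℕ, ∀ n ∈ Ico (2 ^ j) (2 ^ (j + 1)), 1 ≤ n := by
    intro j n hn
    have := (Finset.mem_Ico.1 hn).1
    have := hpow1 j
    omega
  have hint : ∀ j : ℕ, IntervalIntegrable (fun t : ℝ =>
      ‖∑ n ∈ Ico (2 ^ j) (2 ^ (j + 1)), a n * (n : ℂ) ^ (-((t : ℂ) * Complex.I))‖ ^ 2)
        volume (-T) T := fun j => (hcont _ (hB j)).intervalIntegrable _ _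
  have hblk : ∀ j : ℕ, ∫ t in (-T)..T,
      ‖∑ n ∈ Ico (2 ^ j) (2 ^ (j + 1)), a n * (n : ℂ) ^ (-((t : ℂ) * Complex.I))‖ ^ 2 ≤
        2 * C * ∑ n ∈ Ico (2 ^ j) (2 ^ (j + 1)), (T + n) * ‖a n‖ ^ 2 := by
    intro j
    have hsub : Ico (2 ^ j) (2 ^ (j + 1)) = (Icc 1 (2 ^ (j + 1))).filter
        (fun n => n ∈ Ico (2 ^ j) (2 ^ (j + 1))) := by
      ext n
      simp only [Finset.mem_filter, Finset.mem_Icc, Finset.mem_Ico]
      have := hpow1 j
      constructor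
      · rintro ⟨h1, h2⟩
        exact ⟨⟨by omega, by omega⟩, h1, h2⟩
      · rintro ⟨_, h⟩
        exact h
    have h := hmv (2 ^ (j + 1)) T (fun n => if n ∈ Ico (2 ^ j) (2 ^ (j + 1)) then a n else 0)
      (hpow1 _) hT
    have e1 : ∀ t : ℝ, ∑ n ∈ Icc 1 (2 ^ (j + 1)), (if n ∈ Ico (2 ^ j) (2 ^ (j + 1)) then a n else 0) *
        (n : ℂ) ^ (-((t : ℂ) * Complex.I)) =
        ∑ n ∈ Ico (2 ^ j) (2 ^ (j + 1)), a n * (n : ℂ) ^ (-((t : ℂ) * Complex.I)) := by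
      intro t
      conv_rhs => rw [hsub, Finset.sum_filter]
      apply Finset.sum_congr rfl
      intro n _
      split_ifs <;> simp
    have e2 : ∑ n ∈ Icc 1 (2 ^ (j + 1)), ‖(if n ∈ Ico (2 ^ j) (2 ^ (j + 1)) then a n else 0)‖ ^ 2 =
        ∑ n ∈ Ico (2 ^ j) (2 ^ (j + 1)), ‖a n‖ ^ 2 := by
      conv_rhs => rw [hsub, Finset.sum_filter]
      apply Finset.sum_congr rfl
      intro n _
      split_ifs <;> simp
    simp only [e1, e2] at h
    refine h.trans ?_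
    have h2 : (T + ((2 ^ (j + 1) : ℕ) : ℝ)) * ∑ n ∈ Ico (2 ^ j) (2 ^ (j + 1)), ‖a n‖ ^ 2 ≤
        2 * ∑ n ∈ Ico (2 ^ j) (2 ^ (j + 1)), (T + n) * ‖a n‖ ^ 2 := by
      rw [mul_sum, mul_sum]
      apply Finset.sum_le_sum
      intro n hn
      rw [← mul_assoc]
      apply mul_le_mul_of_nonneg_right _ (by positivity)
      have hn1 : (2 : ℝ) ^ j ≤ n := by exact_mod_cast (Finset.mem_Ico.1 hn).1
      push_cast
      rw [pow_succ]
      linarith
    calc _ = C * ((T + ((2 ^ (j + 1) : ℕ) : ℝ)) * ∑ n ∈ Ico (2 ^ j) (2 ^ (j + 1)), ‖a n‖ ^ 2) := by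
          ring
      _ ≤ C * (2 * ∑ n ∈ Ico (2 ^ j) (2 ^ (j + 1)), (T + n) * ‖a n‖ ^ 2) :=
          mul_le_mul_of_nonneg_left h2 hC.le
      _ = _ := by ring
  have hsumint : IntervalIntegrable (fun t : ℝ => (J : ℝ) * ∑ j ∈ range J,
      ‖∑ n ∈ Ico (2 ^ j) (2 ^ (j + 1)), a n * (n : ℂ) ^ (-((t : ℂ) * Complex.I))‖ ^ 2)
      volume (-T) T := by
    apply IntervalIntegrable.const_mul
    apply Continuous.intervalIntegrable
    apply continuous_finsetSum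
    intro j _
    exact hcont _ (hB j)
  calc _ ≤ ∫ t in (-T)..T, (J : ℝ) * ∑ j ∈ range J,
        ‖∑ n ∈ Ico (2 ^ j) (2 ^ (j + 1)), a n * (n : ℂ) ^ (-((t : ℂ) * Complex.I))‖ ^ 2 := by
        apply intervalIntegral.integral_mono_on (by linarith) _ hsumint
        · intro t _
          exact hpt t
        · apply Continuous.intervalIntegrable
          apply hcont
          intro n hn
          exact (Finset.mem_Ico.1 hn).1
    _ = (J : ℝ) * ∑ j ∈ range J, ∫ t in (-T)..T,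
        ‖∑ n ∈ Ico (2 ^ j) (2 ^ (j + 1)), a n * (n : ℂ) ^ (-((t : ℂ) * Complex.I))‖ ^ 2 := by
        rw [intervalIntegral.integral_const_mul, intervalIntegral.integral_finsetSum]
        intro j _
        exact hint j
    _ ≤ (J : ℝ) * ∑ j ∈ range J, (2 * C * ∑ n ∈ Ico (2 ^ j) (2 ^ (j + 1)), (T + n) * ‖a n‖ ^ 2) := by
        apply mul_le_mul_of_nonneg_left _ (by positivity)
        apply Finset.sum_le_sum
        intro j _
        exact hblk j
    _ = 2 * C * J * ∑ n ∈ Ico 1 (2 ^ J), (T + n) * ‖a n‖ ^ 2 := by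
        rw [msz_split J (fun n => (T + n) * ‖a n‖ ^ 2), ← mul_sum]
        ring

/-- the weighted coefficient sum -/
private theorem msz_coef (d : ℝ) (hd : 0 < d) (hd1 : d ≤ 1 / 8) : ∃ A : ℝ, 0 < A ∧
    ∀ T : ℝ, 10 ≤ T → ∀ σ : ℝ, 1 / 2 + d / 2 ≤ σ → ∀ (a' : ℕ → ℂ) (J : ℕ),
    (∀ n : ℕ, 1 ≤ n → (n : ℝ) ≤ T ^ (d / 4) → a' n = 0) →
    (∀ n : ℕ, 2 * T ^ (1 + d / 2) < n → a' n = 0) →
    (∀ n : ℕ, 1 < n → ‖a' n‖ ≤ (n.divisors.card : ℝ)) →
    ∑ n ∈ Ico 1 (2 ^ J), (4 * T + n) * ‖a' n * (n : ℂ) ^ (-(σ : ℂ))‖ ^ 2 ≤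
      A * T ^ (1 - 5 * d ^ 2 / 32) := by
  obtain ⟨C, hC, hdiv⟩ := Pool.Agent.H5.W.divisor_bound (d / 8) (by positivity)
  have hsum : Summable (fun n : ℕ => (n : ℝ) ^ (-1 - d / 8)) := by
    rw [Real.summable_nat_rpow]
    linarith
  obtain ⟨S, hS⟩ : ∃ S : ℝ, S = ∑' n : ℕ, (n : ℝ) ^ (-1 - d / 8) := ⟨_, rfl⟩
  have hS0 : 0 ≤ S := by
    rw [hS]
    exact tsum_nonneg fun n => by positivity
  refine ⟨6 * C ^ 2 * S + 1, by positivity, ?_⟩
  intro T hT σ hσ a' J h1 h2 h3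
  have hT0 : 0 < T := by linarith
  have hT1 : 1 ≤ T := by linarith
  have hTp : 0 < T ^ (1 - 5 * d ^ 2 / 32) := by positivity
  have hterm : ∀ n ∈ Ico 1 (2 ^ J), (4 * T + n) * ‖a' n * (n : ℂ) ^ (-(σ : ℂ))‖ ^ 2 ≤
      6 * C ^ 2 * T ^ (1 - 5 * d ^ 2 / 32) * (n : ℝ) ^ (-1 - d / 8) := by
    intro n hn
    have hn1 : 1 ≤ n := (Finset.mem_Ico.1 hn).1
    have hn0 : (0 : ℝ) < n := by exact_mod_cast hn1
    have hn1' : (1 : ℝ) ≤ n := by exact_mod_cast hn1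
    by_cases c1 : (n : ℝ) ≤ T ^ (d / 4)
    · rw [h1 n hn1 c1]
      simp only [zero_mul, norm_zero]
      rw [zero_pow (by norm_num), mul_zero]
      positivity
    by_cases c2 : 2 * T ^ (1 + d / 2) < n
    · rw [h2 n c2]
      simp only [zero_mul, norm_zero]
      rw [zero_pow (by norm_num), mul_zero]
      positivity
    push Not at c1 c2
    have hTd : 1 ≤ T ^ (d / 4) := Real.one_le_rpow hT1 (by positivity)
    have hn2 : 1 < n := by
      have : (1 : ℝ) < n := by linarith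
      exact_mod_cast this
    have e1 : ‖a' n * (n : ℂ) ^ (-(σ : ℂ))‖ ^ 2 ≤ C ^ 2 * (n : ℝ) ^ (-1 - 3 * d / 4) := by
      rw [norm_mul, Complex.norm_natCast_cpow_of_pos (by omega), mul_pow]
      have f1 : ‖a' n‖ ≤ C * (n : ℝ) ^ (d / 8) := (h3 n hn2).trans (hdiv n hn1)
      have f2 : ‖a' n‖ ^ 2 ≤ C ^ 2 * (n : ℝ) ^ (d / 4) := by
        calc ‖a' n‖ ^ 2 ≤ (C * (n : ℝ) ^ (d / 8)) ^ 2 := pow_le_pow_left₀ (norm_nonneg _) f1 2
          _ = C ^ 2 * (n : ℝ) ^ (d / 4) := by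
              rw [mul_pow, ← Real.rpow_natCast, ← Real.rpow_natCast, ← Real.rpow_mul hn0.le]
              congr 2
              push_cast
              ring
      have f3 : ((n : ℝ) ^ (-(σ : ℂ)).re) ^ 2 ≤ (n : ℝ) ^ (-1 - d) := by
        rw [← Real.rpow_natCast, ← Real.rpow_mul hn0.le]
        apply Real.rpow_le_rpow_of_exponent_le hn1'
        rw [Complex.neg_re, Complex.ofReal_re]
        push_cast
        linarith
      calc _ ≤ (C ^ 2 * (n : ℝ) ^ (d / 4)) * (n : ℝ) ^ (-1 - d) :=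
            mul_le_mul f2 f3 (by positivity) (by positivity)
        _ = C ^ 2 * (n : ℝ) ^ (-1 - 3 * d / 4) := by
            rw [mul_assoc, ← Real.rpow_add hn0]
            congr 2
            ring
    have e2 : (n : ℝ) ^ (-(5 * d / 8)) ≤ T ^ (-(5 * d ^ 2 / 32)) := by
      calc (n : ℝ) ^ (-(5 * d / 8)) ≤ (T ^ (d / 4)) ^ (-(5 * d / 8)) := by
            apply Real.rpow_le_rpow_of_nonpos (by positivity) c1.le
            have : 0 ≤ 5 * d / 8 := by positivity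
            linarith
        _ = T ^ (-(5 * d ^ 2 / 32)) := by
            rw [← Real.rpow_mul hT0.le]
            congr 1
            ring
    have e3 : (n : ℝ) ^ (1 - 5 * d / 8) ≤ 2 * T ^ (1 - 5 * d ^ 2 / 32) := by
      have g1 : 0 ≤ 1 - 5 * d / 8 := by linarith
      calc (n : ℝ) ^ (1 - 5 * d / 8) ≤ (2 * T ^ (1 + d / 2)) ^ (1 - 5 * d / 8) :=
            Real.rpow_le_rpow hn0.le c2 g1
        _ = 2 ^ (1 - 5 * d / 8) * T ^ ((1 + d / 2) * (1 - 5 * d / 8)) := by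
            rw [Real.mul_rpow (by norm_num) (by positivity), ← Real.rpow_mul hT0.le]
        _ ≤ 2 * T ^ (1 - 5 * d ^ 2 / 32) := by
            apply mul_le_mul _ _ (by positivity) (by norm_num)
            · calc (2 : ℝ) ^ (1 - 5 * d / 8) ≤ 2 ^ (1 : ℝ) := by
                    apply Real.rpow_le_rpow_of_exponent_le (by norm_num)
                    linarith
                _ = 2 := Real.rpow_one 2
            · apply Real.rpow_le_rpow_of_exponent_le hT1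
              nlinarith [sq_nonneg d]
    have e4 : (4 * T + n) * (n : ℝ) ^ (-1 - 3 * d / 4) =
        (4 * (T * (n : ℝ) ^ (-(5 * d / 8))) + (n : ℝ) ^ (1 - 5 * d / 8)) * (n : ℝ) ^ (-1 - d / 8) := by
      have g1 : (n : ℝ) ^ (-1 - 3 * d / 4) = (n : ℝ) ^ (-(5 * d / 8)) * (n : ℝ) ^ (-1 - d / 8) := by
        rw [← Real.rpow_add hn0]
        congr 1
        ring
      have g2 : (n : ℝ) ^ (1 - 5 * d / 8) = n * (n : ℝ) ^ (-(5 * d / 8)) := by
        nth_rewrite 2 [← Real.rpow_one (n : ℝ)]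
        rw [← Real.rpow_add hn0]
        congr 1
      rw [g1, g2]
      ring
    have e5 : T * (n : ℝ) ^ (-(5 * d / 8)) ≤ T ^ (1 - 5 * d ^ 2 / 32) := by
      calc T * (n : ℝ) ^ (-(5 * d / 8)) ≤ T * T ^ (-(5 * d ^ 2 / 32)) :=
            mul_le_mul_of_nonneg_left e2 hT0.le
        _ = T ^ (1 - 5 * d ^ 2 / 32) := by
            nth_rewrite 1 [← Real.rpow_one T]
            rw [← Real.rpow_add hT0]
            congr 1
    calc (4 * T + n) * ‖a' n * (n : ℂ) ^ (-(σ : ℂ))‖ ^ 2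
        ≤ (4 * T + n) * (C ^ 2 * (n : ℝ) ^ (-1 - 3 * d / 4)) :=
          mul_le_mul_of_nonneg_left e1 (by positivity)
      _ = C ^ 2 * ((4 * T + n) * (n : ℝ) ^ (-1 - 3 * d / 4)) := by ring
      _ = C ^ 2 * ((4 * (T * (n : ℝ) ^ (-(5 * d / 8))) + (n : ℝ) ^ (1 - 5 * d / 8)) *
            (n : ℝ) ^ (-1 - d / 8)) := by rw [e4]
      _ ≤ C ^ 2 * ((4 * T ^ (1 - 5 * d ^ 2 / 32) + 2 * T ^ (1 - 5 * d ^ 2 / 32)) *
            (n : ℝ) ^ (-1 - d / 8)) := by
          apply mul_le_mul_of_nonneg_left _ (by positivity)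
          apply mul_le_mul_of_nonneg_right _ (by positivity)
          linarith
      _ = _ := by ring
  refine (Finset.sum_le_sum hterm).trans ?_
  rw [← mul_sum]
  have hle : ∑ n ∈ Ico (1 : ℕ) (2 ^ J), (n : ℝ) ^ (-1 - d / 8) ≤ S := by
    rw [hS]
    exact hsum.sum_le_tsum _ fun n _ => by positivity
  calc 6 * C ^ 2 * T ^ (1 - 5 * d ^ 2 / 32) * ∑ n ∈ Ico (1 : ℕ) (2 ^ J), (n : ℝ) ^ (-1 - d / 8)
      ≤ 6 * C ^ 2 * T ^ (1 - 5 * d ^ 2 / 32) * S := mul_le_mul_of_nonneg_left hle (by positivity)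
    _ = (6 * C ^ 2 * S) * T ^ (1 - 5 * d ^ 2 / 32) := by ring
    _ ≤ (6 * C ^ 2 * S + 1) * T ^ (1 - 5 * d ^ 2 / 32) := by
        apply mul_le_mul_of_nonneg_right _ hTp.le
        linarith

/-- growth -/
private theorem msz_grow (d A : ℝ) (hd : 0 < d) : ∃ T0 : ℝ, ∀ T : ℝ, T0 ≤ T →
    A * Real.log T + 32 ≤ T ^ (d ^ 2 / 32) := by
  have h2 : Filter.Tendsto (fun T : ℝ => A * (Real.log T / T ^ (d ^ 2 / 32)))
      Filter.atTop (nhds (A * 0)) := by
    apply Filter.Tendsto.const_mul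
    have := isLittleO_log_rpow_atTop (show 0 < d ^ 2 / 32 by positivity)
    exact this.tendsto_div_nhds_zero
  rw [mul_zero] at h2
  have h3 : Filter.Tendsto (fun T : ℝ => T ^ (d ^ 2 / 32)) Filter.atTop Filter.atTop :=
    tendsto_rpow_atTop (by positivity)
  have e2 := h2.eventually (gt_mem_nhds (show (0 : ℝ) < 1 / 2 by norm_num))
  have e3 := h3.eventually_ge_atTop 64
  obtain ⟨B, hB⟩ := Filter.eventually_atTop.1 (e2.and (e3.and (Filter.eventually_gt_atTop (0 : ℝ))))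
  refine ⟨B, fun T hT => ?_⟩
  obtain ⟨f1, f2, f3⟩ := hB T hT
  have hp : 0 < T ^ (d ^ 2 / 32) := by positivity
  rw [← mul_div_assoc, div_lt_iff₀ hp] at f1
  linarith

theorem msz (d : ℝ) (hd : 0 < d) (hd1 : d ≤ 1 / 8) : ∃ T0 : ℝ, 10 ≤ T0 ∧ ∀ T : ℝ, T0 ≤ T → ∀ σ : ℝ,
    1 / 2 + d / 2 ≤ σ → σ ≤ 3 →
    ∫ t in (T / 4)..(4 * T), ‖riemannZeta ((σ : ℂ) + (t : ℂ) * I) - Zy d T ((σ : ℂ) + (t : ℂ) * I)‖ ^ 2 ≤
      T ^ (1 - d ^ 2 / 8) := by
  obtain ⟨T1, hT1, hz⟩ := zap (st (1 + d / 8) (d / 8)) (st_contDiff _ _) (1 + d / 8) (1 + d / 4) 0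
    le_rfl (by linarith) (fun u hu => st_one (by positivity) hu)
    (fun u hu => st_zero (by positivity) (by linarith)) 2
  obtain ⟨C, hC, hdy⟩ := msz_dy
  obtain ⟨A, hA, hcoef⟩ := msz_coef d hd hd1
  obtain ⟨T2, hgr⟩ := msz_grow d (2 * (C * (5 * A))) hd
  refine ⟨max (max T1 T2) 10, le_max_right _ _, ?_⟩
  intro T hT σ hσ1 hσ2
  have hTa : T1 ≤ T := le_trans (le_trans (le_max_left _ _) (le_max_left _ _)) hT
  have hTb : T2 ≤ T := le_trans (le_trans (le_max_right _ _) (le_max_left _ _)) hT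
  have hT10 : 10 ≤ T := le_trans (le_max_right _ _) hT
  have hT0 : 0 < T := by linarith
  have hT1' : 1 ≤ T := by linarith
  have hg := hgr T hTb
  have hL : 0 < Real.log T := Real.log_pos (by linarith)
  have hL2 : 2 ≤ Real.log T := by
    rw [Real.le_log_iff_exp_le hT0]
    have := Real.exp_one_lt_d9
    have h2 : Real.exp 2 = Real.exp 1 ^ 2 := by rw [← Real.exp_nat_mul]; norm_num
    rw [h2]
    nlinarith [Real.exp_pos 1]
  obtain ⟨K, hK⟩ : ∃ K : ℕ, K = ⌊T ^ (d / 4)⌋₊ := ⟨_, rfl⟩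
  obtain ⟨N, hN⟩ : ∃ N : ℕ, N = ⌈T ^ (1 + d / 4)⌉₊ := ⟨_, rfl⟩
  have hKle : (K : ℝ) ≤ T ^ (d / 4) := by rw [hK]; exact Nat.floor_le (by positivity)
  have hK1 : 1 ≤ K := by
    rw [hK, Nat.one_le_floor_iff]
    exact Real.one_le_rpow hT1' (by positivity)
  have hNge : T ^ (1 + d / 4) ≤ N := by rw [hN]; exact Nat.le_ceil _
  have hNle : (N : ℝ) ≤ 2 * T ^ (1 + d / 4) := by
    have h1 : (N : ℝ) < T ^ (1 + d / 4) + 1 := by rw [hN]; exact Nat.ceil_lt_add_one (by positivity)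
    have h2 : 1 ≤ T ^ (1 + d / 4) := Real.one_le_rpow hT1' (by positivity)
    linarith
  have hKN : K ≤ N := by
    have h1 : (K : ℝ) ≤ N := by
      refine hKle.trans (le_trans ?_ hNge)
      apply Real.rpow_le_rpow_of_exponent_le hT1'
      linarith
    exact_mod_cast h1
  have hX : (N : ℝ) ≤ 2 * T ^ (1 + d / 2) := by
    refine hNle.trans (mul_le_mul_of_nonneg_left ?_ (by norm_num))
    apply Real.rpow_le_rpow_of_exponent_le hT1'
    linarith
  obtain ⟨J, hJ⟩ : ∃ J : ℕ, J = Nat.log 2 N + 1 := ⟨_, rfl⟩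
  have hXJ : N < 2 ^ J := by
    rw [hJ]
    exact Nat.lt_pow_succ_log_self (by norm_num) _
  have hKN1 : 1 ≤ N := by omega
  have hJ1 : 1 < 2 ^ J := by
    rw [hJ]
    exact Nat.one_lt_two_pow (by omega)
  have hJle : (J : ℝ) ≤ 5 * Real.log T := by
    have h1 : 2 ^ Nat.log 2 N ≤ N := Nat.pow_log_le_self 2 (by omega)
    have h2 : ((2 : ℝ) ^ Nat.log 2 N) ≤ 2 * T ^ (1 + d / 2) := by
      refine le_trans ?_ hX
      exact_mod_cast h1
    have h3 := Real.log_le_log (by positivity) h2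
    rw [Real.log_pow, Real.log_mul (by norm_num) (by positivity), Real.log_rpow hT0] at h3
    have h4 : 0.6931471803 < Real.log 2 := Real.log_two_gt_d9
    have h5 : (Nat.log 2 N : ℝ) * Real.log 2 ≤ Real.log 2 + 2 * Real.log T := by
      refine h3.trans ?_
      nlinarith
    have h6 : (Nat.log 2 N : ℝ) ≤ 1 + 3 * Real.log T := by
      by_contra h
      push Not at h
      nlinarith
    rw [hJ]
    push_cast
    linarith
  obtain ⟨w, hw⟩ : ∃ w : ℕ → ℝ, w = fun m : ℕ => st (1 + d / 8) (d / 8) (Real.log m / Real.log T + 0) :=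
    ⟨_, rfl⟩
  have hw1 : ∀ m, |w m| ≤ 1 := by
    intro m
    rw [hw, abs_of_nonneg (st_nonneg _ _ _)]
    exact st_le_one _ _ _
  have hwK : ∀ m, 1 ≤ m → m ≤ K → w m = 1 := by
    intro m hm hmK
    rw [hw]
    apply st_one (by positivity)
    have hm0 : (0 : ℝ) < m := by exact_mod_cast hm
    have h1 : (m : ℝ) ≤ T ^ (d / 4) := le_trans (by exact_mod_cast hmK) hKle
    have h2 := Real.log_le_log hm0 h1
    rw [Real.log_rpow hT0] at h2
    have h3 : Real.log m / Real.log T ≤ d / 4 := by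
      rw [div_le_iff₀ hL]
      exact h2
    linarith
  obtain ⟨a', ha'⟩ : ∃ a' : ℕ → ℂ, a' = fun n : ℕ => if K < n ∧ n ≤ N then ((w n : ℝ) : ℂ) else 0 := ⟨_, rfl⟩
  have hprod : ∀ s : ℂ, Dp (fun _ => 1) (fun u => st (1 + d / 8) (d / 8) (u + 0)) T N s - Zy d T s =
      ∑ n ∈ Ico 1 (2 ^ J), a' n * (n : ℂ) ^ (-s) := by
    intro s
    have e1 : ∑ n ∈ Ico 1 (2 ^ J), a' n * (n : ℂ) ^ (-s) = ∑ n ∈ Icc 1 N, a' n * (n : ℂ) ^ (-s) := by
      symm
      apply Finset.sum_subset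
      · intro n hn
        rw [Finset.mem_Icc] at hn
        rw [Finset.mem_Ico]
        exact ⟨hn.1, by omega⟩
      · intro n hn1 hn2
        rw [Finset.mem_Ico] at hn1
        rw [Finset.mem_Icc] at hn2
        rw [ha']
        dsimp only
        rw [if_neg (by omega), zero_mul]
    have e2 : Zy d T s = ∑ n ∈ Icc 1 N, (if n ≤ K then ((w n : ℝ) : ℂ) else 0) * (n : ℂ) ^ (-s) := by
      unfold Zy
      rw [← hK]
      have e3 : ∑ n ∈ Icc 1 K, (n : ℂ) ^ (-s) =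
          ∑ n ∈ Icc 1 K, (if n ≤ K then ((w n : ℝ) : ℂ) else 0) * (n : ℂ) ^ (-s) := by
        apply Finset.sum_congr rfl
        intro n hn
        rw [Finset.mem_Icc] at hn
        rw [if_pos hn.2, hwK n hn.1 hn.2, Complex.ofReal_one, one_mul]
      rw [e3]
      apply Finset.sum_subset
      · intro n hn
        rw [Finset.mem_Icc] at hn ⊢
        exact ⟨hn.1, by omega⟩
      · intro n hn1 hn2
        rw [Finset.mem_Icc] at hn1 hn2
        rw [if_neg (by omega), zero_mul]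
    rw [e1, e2]
    unfold Dp
    rw [← Finset.sum_sub_distrib]
    apply Finset.sum_congr rfl
    intro n hn
    rw [Finset.mem_Icc] at hn
    have e4 : ((st (1 + d / 8) (d / 8) (Real.log n / Real.log T + 0) : ℝ) : ℂ) = ((w n : ℝ) : ℂ) := by
      rw [hw]
    rw [e4, ha']
    dsimp only
    by_cases h : n ≤ K
    · rw [if_pos h, if_neg (by omega)]
      ring
    · rw [if_neg h, if_pos ⟨by omega, hn.2⟩]
      ring
  have ha1 : ∀ n : ℕ, 1 ≤ n → (n : ℝ) ≤ T ^ (d / 4) → a' n = 0 := by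
    intro n hn hn2
    have h1 : n ≤ K := by
      rw [hK]
      exact Nat.le_floor hn2
    rw [ha']
    dsimp only
    rw [if_neg (by omega)]
  have ha2 : ∀ n : ℕ, 2 * T ^ (1 + d / 2) < n → a' n = 0 := by
    intro n hn
    have h1 : N < n := by
      have : (N : ℝ) < n := lt_of_le_of_lt hX hn
      exact_mod_cast this
    rw [ha']
    dsimp only
    rw [if_neg (by omega)]
  have ha3 : ∀ n : ℕ, 1 < n → ‖a' n‖ ≤ (n.divisors.card : ℝ) := by
    intro n hn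
    have h1 : 1 ≤ n.divisors.card := Finset.card_pos.2 ⟨n, Nat.mem_divisors_self n (by omega)⟩
    have h2 : (1 : ℝ) ≤ (n.divisors.card : ℝ) := by exact_mod_cast h1
    rw [ha']
    dsimp only
    split_ifs with h3
    · rw [Complex.norm_real]
      exact (hw1 n).trans h2
    · rw [norm_zero]
      linarith
  have hc := hcoef T hT10 σ hσ1 a' J ha1 ha2 ha3
  have hd4 := hdy J (4 * T) (fun n => a' n * (n : ℂ) ^ (-(σ : ℂ))) (by linarith)
  have hfun : ∀ t : ℝ, ∑ n ∈ Ico 1 (2 ^ J), a' n * (n : ℂ) ^ (-((σ : ℂ) + (t : ℂ) * I)) =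
      ∑ n ∈ Ico 1 (2 ^ J), a' n * (n : ℂ) ^ (-(σ : ℂ)) * (n : ℂ) ^ (-((t : ℂ) * I)) := by
    intro t
    apply Finset.sum_congr rfl
    intro n hn
    have hn0 : (n : ℂ) ≠ 0 := by
      have := (Finset.mem_Ico.1 hn).1
      exact_mod_cast (by omega : n ≠ 0)
    rw [neg_add, Complex.cpow_add _ _ hn0, mul_assoc]
  obtain ⟨P, hP⟩ : ∃ P : ℝ → ℝ, P = fun t : ℝ => ‖∑ n ∈ Ico 1 (2 ^ J), a' n * (n : ℂ) ^ (-(σ : ℂ)) *
    (n : ℂ) ^ (-((t : ℂ) * I))‖ ^ 2 := ⟨_, rfl⟩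
  have hPc : Continuous P := by
    rw [hP]
    apply Continuous.pow
    apply Continuous.norm
    apply continuous_finsetSum
    intro n hn
    apply Continuous.mul continuous_const
    have hn0 : (n : ℂ) ≠ 0 := by
      have := (Finset.mem_Ico.1 hn).1
      exact_mod_cast (by omega : n ≠ 0)
    apply Continuous.const_cpow
    · fun_prop
    · left
      exact hn0
  have hP0 : ∀ t, 0 ≤ P t := by
    intro t
    rw [hP]
    positivity
  have hPint : ∫ t in (-(4 * T))..(4 * T), P t ≤ C * J * (A * T ^ (1 - 5 * d ^ 2 / 32)) := by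
    rw [hP]
    refine hd4.trans ?_
    apply mul_le_mul_of_nonneg_left hc (by positivity)
  have hpt : ∀ t ∈ Set.Icc (T / 4) (4 * T), ‖riemannZeta ((σ : ℂ) + (t : ℂ) * I) - Zy d T ((σ : ℂ) + (t : ℂ) * I)‖ ^ 2 ≤
      2 * P t + 8 * T ^ (-2 : ℝ) := by
    intro t ht
    have hre : ((σ : ℂ) + (t : ℂ) * I).re = σ := by simp
    have him : ((σ : ℂ) + (t : ℂ) * I).im = t := by simp
    have h1 := hz T hTa 0 le_rfl le_rfl N hNge ((σ : ℂ) + (t : ℂ) * I) (by rw [hre]; linarith)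
      (by rw [hre]; linarith) (by rw [him]; linarith [ht.1]) (by rw [him]; linarith [ht.2])
    have h3 : riemannZeta ((σ : ℂ) + (t : ℂ) * I) - Zy d T ((σ : ℂ) + (t : ℂ) * I) =
        (Dp (fun _ => 1) (fun u => st (1 + d / 8) (d / 8) (u + 0)) T N ((σ : ℂ) + (t : ℂ) * I) -
          Zy d T ((σ : ℂ) + (t : ℂ) * I)) +
        (riemannZeta ((σ : ℂ) + (t : ℂ) * I) -
          Dp (fun _ => 1) (fun u => st (1 + d / 8) (d / 8) (u + 0)) T N ((σ : ℂ) + (t : ℂ) * I)) := by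
      ring
    rw [h3, hprod, hfun]
    obtain ⟨x, hx⟩ : ∃ x : ℂ, x = ∑ n ∈ Ico 1 (2 ^ J), a' n * (n : ℂ) ^ (-(σ : ℂ)) *
      (n : ℂ) ^ (-((t : ℂ) * I)) := ⟨_, rfl⟩
    have hPt : P t = ‖x‖ ^ 2 := by rw [hP, hx]
    rw [hPt, ← hx]
    obtain ⟨y, hy⟩ : ∃ y : ℂ, y = riemannZeta ((σ : ℂ) + (t : ℂ) * I) -
          Dp (fun _ => 1) (fun u => st (1 + d / 8) (d / 8) (u + 0)) T N ((σ : ℂ) + (t : ℂ) * I) := ⟨_, rfl⟩
    rw [← hy]
    have hyn : ‖y‖ ≤ 2 * T ^ (-1 : ℝ) := by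
      rw [hy]
      refine h1.trans ?_
      have h6 : T ^ (-((2 : ℕ) : ℝ)) ≤ T ^ (-1 : ℝ) := by
        apply Real.rpow_le_rpow_of_exponent_le hT1'
        push_cast
        linarith
      have h7 : 0 < T ^ (-1 : ℝ) := by positivity
      linarith
    have hy2 : ‖y‖ ^ 2 ≤ 4 * T ^ (-2 : ℝ) := by
      calc ‖y‖ ^ 2 ≤ (2 * T ^ (-1 : ℝ)) ^ 2 := pow_le_pow_left₀ (norm_nonneg _) hyn 2
        _ = 4 * T ^ (-2 : ℝ) := by
            rw [mul_pow, ← Real.rpow_natCast (T ^ (-1 : ℝ)), ← Real.rpow_mul hT0.le]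
            norm_num
    have h4 : ‖x + y‖ ^ 2 ≤ 2 * ‖x‖ ^ 2 + 2 * ‖y‖ ^ 2 := by
      have h5 := norm_add_le x y
      have h6 : ‖x + y‖ ^ 2 ≤ (‖x‖ + ‖y‖) ^ 2 := pow_le_pow_left₀ (norm_nonneg _) h5 2
      nlinarith [sq_nonneg (‖x‖ - ‖y‖)]
    linarith
  have hGc : ContinuousOn (fun t : ℝ => ‖riemannZeta ((σ : ℂ) + (t : ℂ) * I) - Zy d T ((σ : ℂ) + (t : ℂ) * I)‖ ^ 2)
      (Set.uIcc (T / 4) (4 * T)) := by
    intro t ht
    rw [Set.uIcc_of_le (by linarith)] at ht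
    have hne : ((σ : ℂ) + (t : ℂ) * I) ≠ 1 := by
      intro h
      have h1 := congrArg Complex.im h
      simp at h1
      linarith [ht.1]
    have h1 : ContinuousAt (fun z => riemannZeta z - Zy d T z) ((σ : ℂ) + (t : ℂ) * I) := by
      have h2 : DifferentiableAt ℂ (Zy d T) ((σ : ℂ) + (t : ℂ) * I) := by
        unfold Zy
        apply DifferentiableAt.fun_sum
        intro k hk
        apply DifferentiableAt.const_cpow differentiableAt_id.neg
        left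
        have : 1 ≤ k := (Finset.mem_Icc.1 hk).1
        exact_mod_cast (by omega : k ≠ 0)
      exact ((differentiableAt_riemannZeta hne).sub h2).continuousAt
    have h2 : ContinuousAt (fun t : ℝ => (σ : ℂ) + (t : ℂ) * I) t := by fun_prop
    have h3 : ContinuousAt (fun t : ℝ => riemannZeta ((σ : ℂ) + (t : ℂ) * I) - Zy d T ((σ : ℂ) + (t : ℂ) * I)) t :=
      ContinuousAt.comp (f := fun t : ℝ => (σ : ℂ) + (t : ℂ) * I) (g := fun z => riemannZeta z - Zy d T z) h1 h2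
    exact (h3.norm.pow 2).continuousWithinAt
  have hbig : ∫ t in (T / 4)..(4 * T), P t ≤ ∫ t in (-(4 * T))..(4 * T), P t := by
    apply intervalIntegral.integral_mono_interval (by linarith) (by linarith) le_rfl
    · exact Filter.Eventually.of_forall hP0
    · exact hPc.intervalIntegrable _ _
  have hT2 : 0 < T ^ (-2 : ℝ) := by positivity
  have hstep : ∫ t in (T / 4)..(4 * T), ‖riemannZeta ((σ : ℂ) + (t : ℂ) * I) - Zy d T ((σ : ℂ) + (t : ℂ) * I)‖ ^ 2 ≤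
      2 * (C * J * (A * T ^ (1 - 5 * d ^ 2 / 32))) + 32 * T ^ (-1 : ℝ) := by
    calc _ ≤ ∫ t in (T / 4)..(4 * T), (2 * P t + 8 * T ^ (-2 : ℝ)) := by
          apply intervalIntegral.integral_mono_on (by linarith) hGc.intervalIntegrable
          · apply Continuous.intervalIntegrable
            fun_prop
          · exact hpt
      _ = 2 * (∫ t in (T / 4)..(4 * T), P t) + (4 * T - T / 4) * (8 * T ^ (-2 : ℝ)) := by
          rw [intervalIntegral.integral_add, intervalIntegral.integral_const_mul,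
            intervalIntegral.integral_const, smul_eq_mul]
          · exact (hPc.const_mul 2 |>.intervalIntegrable _ _)
          · exact intervalIntegrable_const
      _ ≤ 2 * (C * J * (A * T ^ (1 - 5 * d ^ 2 / 32))) + 4 * T * (8 * T ^ (-2 : ℝ)) := by
          have h1 := hbig.trans hPint
          have h2 : (4 * T - T / 4) * (8 * T ^ (-2 : ℝ)) ≤ 4 * T * (8 * T ^ (-2 : ℝ)) := by
            apply mul_le_mul_of_nonneg_right (by linarith) (by positivity)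
          linarith
      _ = 2 * (C * J * (A * T ^ (1 - 5 * d ^ 2 / 32))) + 32 * T ^ (-1 : ℝ) := by
          have h1 : T * T ^ (-2 : ℝ) = T ^ (-1 : ℝ) := by
            nth_rewrite 1 [← Real.rpow_one T]
            rw [← Real.rpow_add hT0]
            norm_num
          rw [← h1]
          ring
  refine hstep.trans ?_
  have hTp : 0 < T ^ (1 - 5 * d ^ 2 / 32) := by positivity
  have h1 : T ^ (-1 : ℝ) ≤ T ^ (1 - 5 * d ^ 2 / 32) := by
    apply Real.rpow_le_rpow_of_exponent_le hT1'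
    nlinarith
  have h2 : C * J * (A * T ^ (1 - 5 * d ^ 2 / 32)) ≤
      (C * (5 * A)) * Real.log T * T ^ (1 - 5 * d ^ 2 / 32) := by
    have h3 : C * J * (A * T ^ (1 - 5 * d ^ 2 / 32)) = (C * A * T ^ (1 - 5 * d ^ 2 / 32)) * J := by ring
    have h4 : (C * A * T ^ (1 - 5 * d ^ 2 / 32)) * J ≤
        (C * A * T ^ (1 - 5 * d ^ 2 / 32)) * (5 * Real.log T) :=
      mul_le_mul_of_nonneg_left hJle (by positivity)
    rw [h3]
    refine h4.trans (le_of_eq ?_)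
    ring
  calc 2 * (C * J * (A * T ^ (1 - 5 * d ^ 2 / 32))) + 32 * T ^ (-1 : ℝ)
      ≤ 2 * ((C * (5 * A)) * Real.log T * T ^ (1 - 5 * d ^ 2 / 32)) +
          32 * T ^ (1 - 5 * d ^ 2 / 32) := by linarith
    _ = (2 * (C * (5 * A)) * Real.log T + 32) * T ^ (1 - 5 * d ^ 2 / 32) := by ring
    _ ≤ T ^ (d ^ 2 / 32) * T ^ (1 - 5 * d ^ 2 / 32) := mul_le_mul_of_nonneg_right hg hTp.le
    _ = T ^ (1 - d ^ 2 / 8) := by
        rw [← Real.rpow_add hT0]
        congr 1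
        ring

end Pool.Agent.H24.WH
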