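import Pool.Agent.H24.WH.Rcg
import Pool.Agent.H24.WH.Dls
import Pool.Agent.H24.WH.Grw
import Pool.Agent.H24.WH.Bas

/-!
# [H24 WH SHR] the right integral, from `Re = 2` to `Re = 1/2 + 2d`

PROOF. `rcg` with `q = HR T`, `x1 = 2d`, `x2 = 3/2`, `R = L^2`: by `GH` (window `T^κ - 1 ≥ L^2`) `ζ ≠ 0`, `|ζ'^2/ζ| ≤ T^(3d)` on the rectangle, `|Bp| ≤ C T`; so the
difference is `≤ C e^(-L^4) T^2 ≤ T^(-1)`.
-/

set_option autoImplicit false

namespace Pool.Agent.H24.WH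

open Complex MeasureTheory Finset Pool.Agent.H48.WN

/-- `e^(-L^4) ≤ T^(-4)` -/
private lemma shr_exp {T : ℝ} (hT : 10 ≤ T) : Real.exp (-((Real.log T) ^ 2) ^ 2) ≤ T ^ (-(4 : ℝ)) := by
  have hl : 2 ≤ Real.log T := by
    rw [Real.le_log_iff_exp_le (by linarith)]
    have h1 : Real.exp 1 < 2.7182818286 := Real.exp_one_lt_d9
    have h2 : Real.exp 2 = Real.exp 1 * Real.exp 1 := by
      rw [← Real.exp_add]
      norm_num
    have h3 : 0 < Real.exp 1 := Real.exp_pos 1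
    rw [h2]
    nlinarith
  rw [Real.rpow_def_of_pos (by linarith)]
  apply Real.exp_le_exp.2
  have h3 : 4 * Real.log T ≤ (Real.log T ^ 2) ^ 2 := by
    have : (4 : ℝ) ≤ Real.log T ^ 3 := by nlinarith [sq_nonneg (Real.log T)]
    nlinarith
  nlinarith

theorem shr (d κ : ℝ) (hd : 0 < d) (hd1 : d ≤ 1 / 32) (hκ : 0 < κ) (hκ1 : κ ≤ 1 / 4) :
    ∃ T0 : ℝ, 10 ≤ T0 ∧ ∀ T : ℝ, T0 ≤ T → ∀ t0 : ℝ, T ≤ t0 → t0 ≤ 2 * T → GH d κ T t0 →
      ‖JR T (3 / 2) t0 - JR T (2 * d) t0‖ ≤ T ^ (-(1 : ℝ)) := by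
  obtain ⟨C3, hC3, G3⟩ := dls_bp
  obtain ⟨T4, hT4, W⟩ := aux_win κ hκ
  -- total constant
  set K : ℝ := 2 * (3 / 2) * Real.exp (9 / 4) * (16 * C3) with hK
  obtain ⟨T6, hT6, P6⟩ := aux_pow K 1 one_pos
  refine ⟨max T4 T6, hT4.trans (le_max_left _ _), fun T hT t0 ht1 ht2 hg => ?_⟩
  have b4 : T4 ≤ T := (le_max_left _ _).trans hT
  have b6 : T6 ≤ T := (le_max_right _ _).trans hT
  have h10 : 10 ≤ T := hT4.trans b4
  have hTp : 0 < T := by linarith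
  have hT1' : 1 ≤ T := by linarith
  obtain ⟨w1, w2, w3⟩ := W T b4
  have p6 := P6 T b6
  rw [Real.rpow_one] at p6
  set L := Real.log T with hL
  have hL0 : 0 ≤ L := by linarith
  set R := L ^ 2 with hR
  have hRp : 0 < R := by positivity
  -- the bound of the integrand
  set B : ℝ := (T ^ d) ^ 2 * T ^ d * (16 * C3 * T) with hB
  have hq : ∀ s : ℂ, 1 / 2 + 2 * d ≤ s.re → s.re ≤ 1 / 2 + 3 / 2 → |s.im - t0| ≤ R →
      DifferentiableAt ℂ (HR T) s ∧ ‖HR T s‖ ≤ B := by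
    intro s hs1 hs2 hs3
    have hs2' : s.re ≤ 2 := by linarith
    obtain ⟨z0, z1, z2, z3⟩ := hg s hs1 hs2' (hs3.trans (by linarith))
    obtain ⟨i1, i2⟩ := abs_le.1 hs3
    have imp : 0 < s.im := by linarith
    have hs1' : s ≠ 1 := aux_ne imp.ne'
    refine ⟨?_, ?_⟩
    · unfold HR
      exact (((aux_dz hs1').pow 2).div (aux_z hs1') z0).mul ((aux_bp T) s)
    · have hTd : 0 < T ^ d := Real.rpow_pos_of_pos hTp _
      have e4 : ‖Bp T s‖ ≤ 16 * C3 * T := by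
        refine ((G3 T h10 s).1 (by linarith)).trans ?_
        have a1 : (4 : ℝ) ^ s.re ≤ 4 ^ (2 : ℝ) := Real.rpow_le_rpow_of_exponent_le (by norm_num) hs2'
        have a2 : (4 : ℝ) ^ (2 : ℝ) = 16 := by
          rw [show (2 : ℝ) = ((2 : ℕ) : ℝ) by norm_num, Real.rpow_natCast]
          norm_num
        rw [a2] at a1
        have a3 : T ^ (s.re / 2) ≤ T := by
          calc T ^ (s.re / 2) ≤ T ^ (1 : ℝ) := Real.rpow_le_rpow_of_exponent_le hT1' (by linarith)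
            _ = T := Real.rpow_one T
        calc C3 * 4 ^ s.re * T ^ (s.re / 2) ≤ C3 * 16 * T := by gcongr
          _ = 16 * C3 * T := by ring
      unfold HR
      rw [div_eq_mul_inv, norm_mul, norm_mul, norm_pow]
      rw [hB]
      gcongr
  have key := rcg (HR T) t0 R (2 * d) (3 / 2) B hRp (by linarith) hq
  have hJ : ‖JR T (3 / 2) t0 - JR T (2 * d) t0‖ ≤
      2 * (3 / 2 - 2 * d) * Real.exp (max ((2 * d) ^ 2) ((3 / 2) ^ 2)) * Real.exp (-R ^ 2) * B := by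
    rw [norm_sub_rev]
    exact key
  refine hJ.trans ?_
  have hB0 : 0 ≤ B := by positivity
  have m1 : Real.exp (max ((2 * d) ^ 2) ((3 / 2) ^ 2)) = Real.exp (9 / 4) := by
    congr 1
    rw [max_eq_right (by nlinarith)]
    norm_num
  have m2 := shr_exp h10
  rw [← hL, ← hR] at m2
  -- the size of B
  have m3 : B ≤ (16 * C3) * T ^ (2 : ℝ) := by
    have a3 : T ^ d * T ^ d * T ^ d * T ^ (1 : ℝ) ≤ T ^ (2 : ℝ) := by
      rw [← Real.rpow_add hTp, ← Real.rpow_add hTp, ← Real.rpow_add hTp]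
      exact Real.rpow_le_rpow_of_exponent_le hT1' (by linarith)
    rw [Real.rpow_one] at a3
    calc B = (16 * C3) * (T ^ d * T ^ d * T ^ d * T) := by
          rw [hB]
          ring
      _ ≤ _ := mul_le_mul_of_nonneg_left a3 (by positivity)
  have m4 : T ^ (-(4 : ℝ)) * T ^ (2 : ℝ) * T = T ^ (-(1 : ℝ)) := by
    rw [← Real.rpow_add hTp]
    nth_rewrite 2 [← Real.rpow_one T]
    rw [← Real.rpow_add hTp]
    norm_num
  rw [m1]
  calc 2 * (3 / 2 - 2 * d) * Real.exp (9 / 4) * Real.exp (-R ^ 2) * B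
      ≤ 2 * (3 / 2) * Real.exp (9 / 4) * T ^ (-(4 : ℝ)) *
        ((16 * C3) * T ^ (2 : ℝ)) := by
        gcongr
        linarith
    _ = T ^ (-(4 : ℝ)) * T ^ (2 : ℝ) * K := by
        rw [hK]
        ring
    _ ≤ T ^ (-(4 : ℝ)) * T ^ (2 : ℝ) * T := by gcongr
    _ = T ^ (-(1 : ℝ)) := m4

end Pool.Agent.H24.WH
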