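import Pool.Agent.H24.WH.Wgh
import Pool.Agent.H48.WN.Upb

/-!
# [H24 WH UPH] the window polynomial is bounded by errors in short intervals

PROOF. Copy `Pool/Agent/H48/WN/Upb.lean` with `rh`, `Rh` and the window end `b + 1/2 + 4h` instead of `b + 1 + 5h` (`T^(b+1/2+5h)` instead of `T^(b+1+6h)` in the hypothesis).
-/

set_option autoImplicit false

namespace Pool.Agent.H24.WH

open Complex MeasureTheory Finset Pool.Agent.H48.WN

private noncomputable def uphA (b h T σ : ℝ) (n : ℕ) : ℝ :=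
  (ArithmeticFunction.vonMangoldt n - 1) * (rh b h (Real.log n / Real.log T) * (n : ℝ) ^ (-σ))

private noncomputable def uphS (b h T σ : ℝ) (N : ℕ) (U v : ℝ) : ℂ :=
  ∑ n ∈ (Icc 1 N).filter (fun n : ℕ => v < Real.log n ∧ Real.log n ≤ v + 1 / U), (uphA b h T σ n : ℂ)

private lemma uph_uA_supp {b h T σ : ℝ} (hh : 0 < h) (hT : 1 < T) {n : ℕ} (hn : uphA b h T σ n ≠ 0) :
    (b + h) * Real.log T < Real.log n ∧ Real.log n < (b + 1 / 2 + 4 * h) * Real.log T := by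
  have hL : 0 < Real.log T := Real.log_pos hT
  constructor
  · by_contra hc
    push Not at hc
    apply hn
    unfold uphA
    rw [rh_zero_left hh (by rw [div_le_iff₀ hL]; exact hc)]
    ring
  · by_contra hc
    push Not at hc
    apply hn
    unfold uphA
    rw [rh_zero_right hh (by rw [le_div_iff₀ hL]; exact hc)]
    ring

private lemma uph_uS_eq {b h T σ : ℝ} {N : ℕ} (hN : ∀ n : ℕ, N < n → uphA b h T σ n = 0) {U x : ℝ}
    (hx : 0 < x) {η : ℝ} (hη : η = Real.exp (1 / U) - 1) :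
    uphS b h T σ N U (Real.log x) = ((∑ n ∈ Ioc ⌊x⌋₊ ⌊x + η * x⌋₊, uphA b h T σ n : ℝ) : ℂ) := by
  have hxe : x + η * x = x * Real.exp (1 / U) := by rw [hη]; ring
  have hx1 : 0 < x * Real.exp (1 / U) := mul_pos hx (Real.exp_pos _)
  have key : ∀ n : ℕ, 1 ≤ n → ((Real.log x < Real.log n ∧ Real.log n ≤ Real.log x + 1 / U) ↔
      n ∈ Ioc ⌊x⌋₊ ⌊x + η * x⌋₊) := by
    intro n hn
    have hn0 : (0 : ℝ) < n := by exact_mod_cast hn
    rw [mem_Ioc, Nat.floor_lt hx.le, hxe, Nat.le_floor_iff hx1.le, Real.log_lt_log_iff hx hn0,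
      ← Real.log_exp (1 / U), ← Real.log_mul hx.ne' (Real.exp_pos _).ne', Real.log_exp,
      Real.log_le_log_iff hn0 hx1]
  unfold uphS
  rw [Complex.ofReal_sum]
  apply sum_subset
  · intro n hn
    rw [mem_filter, mem_Icc] at hn
    exact (key n hn.1.1).1 hn.2
  · intro n hn hn'
    have hn1 : 1 ≤ n := by
      have := (mem_Ioc.1 hn).1
      omega
    have h1 := (key n hn1).2 hn
    rw [mem_filter, mem_Icc, not_and, not_and'] at hn'
    by_cases hnN : n ≤ N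
    · exact absurd h1 (fun h => (hn' ⟨hn1, hnN⟩ h.2) h.1)
    · rw [hN n (by omega), Complex.ofReal_zero]

private lemma uph_uS_zero {b h T σ : ℝ} {N : ℕ} (hh : 0 < h) (hT : 1 < T) {U v : ℝ}
    (hU : 1 / U ≤ h * Real.log T) (hv : v ≤ b * Real.log T ∨ (b + 1 / 2 + 4 * h) * Real.log T < v) :
    uphS b h T σ N U v = 0 := by
  unfold uphS
  apply sum_eq_zero
  intro n hn
  rw [mem_filter] at hn
  by_contra hc
  have h1 : uphA b h T σ n ≠ 0 := fun h => hc (by rw [h, Complex.ofReal_zero])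
  obtain ⟨h2, h3⟩ := uph_uA_supp hh hT h1
  rcases hv with hv | hv
  · nlinarith [hn.2.2]
  · linarith [hn.2.1]

private lemma uph_uS_meas (b h T σ : ℝ) (N : ℕ) (U : ℝ) : Measurable (uphS b h T σ N U) := by
  have e : uphS b h T σ N U = fun v => ∑ n ∈ Icc 1 N,
      if v < Real.log n ∧ Real.log n ≤ v + 1 / U then (uphA b h T σ n : ℂ) else 0 := by
    funext v
    unfold uphS
    rw [sum_filter]
  rw [e]
  refine Finset.measurable_fun_sum _ fun n _ => Measurable.ite ?_ measurable_const measurable_const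
  exact (measurableSet_lt measurable_id measurable_const).inter
    (measurableSet_le measurable_const (measurable_id.add_const _))

private lemma uph_uS_bd (b h T σ : ℝ) (N : ℕ) (U v : ℝ) : ‖uphS b h T σ N U v‖ ≤ ∑ n ∈ Icc 1 N, |uphA b h T σ n| := by
  unfold uphS
  refine (norm_sum_le _ _).trans ?_
  refine (sum_le_sum_of_subset_of_nonneg (filter_subset _ _) fun _ _ _ => norm_nonneg _).trans ?_
  refine sum_le_sum fun n _ => ?_
  rw [Complex.norm_real, Real.norm_eq_abs]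

private lemma uph_uS_int (b h T σ : ℝ) (N : ℕ) (U p q : ℝ) :
    IntervalIntegrable (fun v => ‖uphS b h T σ N U v‖ ^ 2) volume p q := by
  rw [intervalIntegrable_iff]
  refine Measure.integrableOn_of_bounded (M := (∑ n ∈ Icc 1 N, |uphA b h T σ n|) ^ 2) ?_ ?_ ?_
  · rw [Set.uIoc, Real.volume_Ioc]
    exact ENNReal.ofReal_ne_top
  · exact ((uph_uS_meas b h T σ N U).norm.pow_const 2).aestronglyMeasurable
  · refine Filter.Eventually.of_forall fun v => ?_
    rw [Real.norm_of_nonneg (by positivity)]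
    exact pow_le_pow_left₀ (norm_nonneg _) (uph_uS_bd b h T σ N U v) 2

private lemma uph_ps_i1 {X η : ℝ} (hX : 0 < X) (hη : 0 < η) (hη1 : η ≤ 1) :
    IntegrableOn (fun x => (Ps x (η * x)) ^ 2) (Set.Ioc X (2 * X)) := by
  obtain ⟨M, hM⟩ := ps_coc.bdd (2 * X)
  refine Measure.integrableOn_of_bounded (M := M ^ 2) ?_ ?_ ?_
  · rw [Real.volume_Ioc]
    exact ENNReal.ofReal_ne_top
  · have h1 : Measurable (fun x : ℝ => (x, η * x)) := by fun_prop
    exact ((ps_coc.meas.comp h1).pow_const 2).aestronglyMeasurable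
  · refine (ae_restrict_iff' measurableSet_Ioc).2 (Filter.Eventually.of_forall fun x hx => ?_)
    have hx0 : 0 < x := hX.trans hx.1
    have h1 := hM x (η * x) hx0.le hx.2 (by positivity) (by nlinarith [hx.2])
    rw [norm_pow, Real.norm_eq_abs]
    exact pow_le_pow_left₀ (abs_nonneg _) h1 2

private lemma uph_ps_i2 {X η : ℝ} (hX : 0 < X) (hη : 0 < η) (hη1 : η ≤ 1) :
    IntegrableOn (fun x => (η / x) * ∫ k in (0 : ℝ)..(η * x), (Ps x k) ^ 2) (Set.Ioc X (2 * X)) := by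
  obtain ⟨M, hM⟩ := ps_coc.bdd (2 * X)
  obtain ⟨G, hG⟩ : ∃ G : ℝ → ℝ, G = fun x => ∫ k : ℝ, if 0 < k ∧ k ≤ η * x then (Ps x k) ^ 2 else 0 := ⟨_, rfl⟩
  have hGm : Measurable G := by
    rw [hG]
    have h1 : Measurable (Function.uncurry fun (x k : ℝ) => if 0 < k ∧ k ≤ η * x then (Ps x k) ^ 2 else 0) := by
      unfold Function.uncurry
      refine Measurable.ite ?_ (ps_coc.meas.pow_const 2) measurable_const
      exact (measurableSet_lt measurable_const measurable_snd).inter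
        (measurableSet_le measurable_snd (measurable_fst.const_mul η))
    exact h1.stronglyMeasurable.integral_prod_right.measurable
  have hGe : ∀ x ∈ Set.Ioc X (2 * X), G x = ∫ k in (0 : ℝ)..(η * x), (Ps x k) ^ 2 := by
    intro x hx
    have hx0 : 0 < x := hX.trans hx.1
    rw [intervalIntegral.integral_of_le (by positivity), ← integral_indicator measurableSet_Ioc, hG]
    simp only [Set.indicator_apply, Set.mem_Ioc]
  have hGb : ∀ x ∈ Set.Ioc X (2 * X), |G x| ≤ M ^ 2 * (2 * X) := by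
    intro x hx
    have hx0 : 0 < x := hX.trans hx.1
    rw [hGe x hx]
    have h1 := intervalIntegral.norm_integral_le_of_norm_le_const (a := (0 : ℝ)) (b := η * x)
      (f := fun k => (Ps x k) ^ 2) (C := M ^ 2) (by
        intro k hk
        rw [Set.uIoc_of_le (by positivity)] at hk
        have h2 := hM x k hx0.le hx.2 hk.1.le (hk.2.trans (by nlinarith [hx.2]))
        rw [norm_pow, Real.norm_eq_abs]
        exact pow_le_pow_left₀ (abs_nonneg _) h2 2)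
    rw [Real.norm_eq_abs, sub_zero, abs_of_pos (by positivity : 0 < η * x)] at h1
    refine h1.trans ?_
    have h2 : η * x ≤ 2 * X := by nlinarith [hx.2]
    exact mul_le_mul_of_nonneg_left h2 (sq_nonneg M)
  have h2 : IntegrableOn (fun x => (η / x) * G x) (Set.Ioc X (2 * X)) := by
    refine Measure.integrableOn_of_bounded (M := (η / X) * (M ^ 2 * (2 * X))) ?_ ?_ ?_
    · rw [Real.volume_Ioc]
      exact ENNReal.ofReal_ne_top
    · exact ((measurable_const.div measurable_id).mul hGm).aestronglyMeasurable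
    · refine (ae_restrict_iff' measurableSet_Ioc).2 (Filter.Eventually.of_forall fun x hx => ?_)
      have hx0 : 0 < x := hX.trans hx.1
      rw [norm_mul, Real.norm_eq_abs, Real.norm_eq_abs, abs_of_pos (by positivity : 0 < η / x)]
      have h3 : η / x ≤ η / X := div_le_div_of_nonneg_left hη.le hX hx.1.le
      exact mul_le_mul h3 (hGb x hx) (abs_nonneg _) (by positivity)
  refine h2.congr_fun (fun x hx => ?_) measurableSet_Ioc
  show η / x * G x = _
  rw [hGe x hx]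

/-- one dyadic interval -/
private lemma uph_one {b h T σ : ℝ} {N : ℕ} (hN : ∀ n : ℕ, N < n → uphA b h T σ n = 0) {C2 : ℝ} (hC2 : 0 < C2)
    (hσ : 1 / 4 ≤ σ) {U η : ℝ} (hη : η = Real.exp (1 / U) - 1) (hη0 : 0 < η) (hη1 : η ≤ 1 / 4)
    (hw : ∀ x : ℝ, 1 ≤ x → (∑ n ∈ Ioc ⌊x⌋₊ ⌊x + η * x⌋₊, uphA b h T σ n) ^ 2 ≤
        C2 * x ^ (-(2 * σ)) * ((Ps x (η * x)) ^ 2 + 1 + (η / x) * ∫ k in (0 : ℝ)..(η * x), (Ps x k) ^ 2))
    {X W : ℝ} (hX : 1 ≤ X) (hW : 0 ≤ W)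
    (hV : ∀ k : ℝ, 0 ≤ k → k ≤ 4 * η * X → ∫ x in X..(3 * X), (Ps x k) ^ 2 ≤ W * X ^ 2) :
    ∫ v in Real.log X..(Real.log X + Real.log 2), ‖uphS b h T σ N U v‖ ^ 2 ≤
      C2 * (9 * W * X ^ (1 - 2 * σ) + X ^ (-(2 * σ))) := by
  have hX0 : 0 < X := by linarith
  have hl2 : 0 < Real.log 2 := Real.log_pos (by norm_num)
  have himg : Real.exp '' Set.Ioc (Real.log X) (Real.log X + Real.log 2) = Set.Ioc X (2 * X) := by
    ext y
    constructor
    · rintro ⟨v, hv, rfl⟩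
      constructor
      · rw [← Real.log_lt_iff_lt_exp hX0]
        exact hv.1
      · have h1 := Real.exp_le_exp.2 hv.2
        rw [Real.exp_add, Real.exp_log hX0, Real.exp_log (by norm_num), mul_comm] at h1
        exact h1
    · intro hy
      have hy0 : 0 < y := hX0.trans hy.1
      refine ⟨Real.log y, ⟨Real.log_lt_log hX0 hy.1, ?_⟩, Real.exp_log hy0⟩
      rw [add_comm, ← Real.log_mul (by norm_num) hX0.ne']
      exact Real.log_le_log hy0 hy.2
  have hcv : ∫ v in Real.log X..(Real.log X + Real.log 2), ‖uphS b h T σ N U v‖ ^ 2 =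
      ∫ x in Set.Ioc X (2 * X), ‖uphS b h T σ N U (Real.log x)‖ ^ 2 / x := by
    rw [intervalIntegral.integral_of_le (by linarith), ← himg,
      integral_image_eq_integral_abs_deriv_smul measurableSet_Ioc
        (fun x _ => (Real.hasDerivAt_exp x).hasDerivWithinAt) Real.exp_injective.injOn]
    refine integral_congr_ae (Filter.Eventually.of_forall fun v => ?_)
    simp only
    have h1 := Real.exp_pos v
    rw [abs_of_pos h1, smul_eq_mul, Real.log_exp]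
    field_simp
  rw [hcv]
  have hi1 := uph_ps_i1 hX0 hη0 (by linarith : η ≤ 1)
  have hi2 := uph_ps_i2 hX0 hη0 (by linarith : η ≤ 1)
  have hic : IntegrableOn (fun _ : ℝ => (1 : ℝ)) (Set.Ioc X (2 * X)) := by
    rw [integrableOn_const_iff]
    right
    rw [Real.volume_Ioc]
    exact ENNReal.ofReal_lt_top
  have hisum : IntegrableOn (fun x => C2 * X ^ (-(2 * σ) - 1) * ((Ps x (η * x)) ^ 2 + 1 +
      (η / x) * ∫ k in (0 : ℝ)..(η * x), (Ps x k) ^ 2)) (Set.Ioc X (2 * X)) :=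
    ((hi1.add hic).add hi2).const_mul _
  have hle : ∫ x in Set.Ioc X (2 * X), ‖uphS b h T σ N U (Real.log x)‖ ^ 2 / x ≤
      ∫ x in Set.Ioc X (2 * X), C2 * X ^ (-(2 * σ) - 1) * ((Ps x (η * x)) ^ 2 + 1 +
        (η / x) * ∫ k in (0 : ℝ)..(η * x), (Ps x k) ^ 2) := by
    refine integral_mono_of_nonneg ?_ hisum ?_
    · refine (ae_restrict_iff' measurableSet_Ioc).2 (Filter.Eventually.of_forall fun x hx => ?_)
      have hx0 : 0 < x := hX0.trans hx.1
      show 0 ≤ ‖uphS b h T σ N U (Real.log x)‖ ^ 2 / x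
      positivity
    · refine (ae_restrict_iff' measurableSet_Ioc).2 (Filter.Eventually.of_forall fun x hx => ?_)
      have hx0 : 0 < x := hX0.trans hx.1
      show ‖uphS b h T σ N U (Real.log x)‖ ^ 2 / x ≤ _
      rw [uph_uS_eq hN hx0 hη, Complex.norm_real, Real.norm_eq_abs, sq_abs]
      have h1 := hw x (hX.trans hx.1.le)
      have hin : 0 ≤ ∫ k in (0 : ℝ)..(η * x), (Ps x k) ^ 2 :=
        intervalIntegral.integral_nonneg (by positivity) fun k _ => sq_nonneg _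
      have hB : 0 ≤ (Ps x (η * x)) ^ 2 + 1 + (η / x) * ∫ k in (0 : ℝ)..(η * x), (Ps x k) ^ 2 := by positivity
      have h2 : x ^ (-(2 * σ)) / x ≤ X ^ (-(2 * σ) - 1) := by
        rw [← Real.rpow_sub_one hx0.ne']
        exact Real.rpow_le_rpow_of_nonpos hX0 hx.1.le (by linarith)
      calc (∑ n ∈ Ioc ⌊x⌋₊ ⌊x + η * x⌋₊, uphA b h T σ n) ^ 2 / x
          ≤ (C2 * x ^ (-(2 * σ)) * ((Ps x (η * x)) ^ 2 + 1 +
            (η / x) * ∫ k in (0 : ℝ)..(η * x), (Ps x k) ^ 2)) / x := by gcongr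
        _ = C2 * (x ^ (-(2 * σ)) / x) * ((Ps x (η * x)) ^ 2 + 1 +
            (η / x) * ∫ k in (0 : ℝ)..(η * x), (Ps x k) ^ 2) := by ring
        _ ≤ C2 * X ^ (-(2 * σ) - 1) * ((Ps x (η * x)) ^ 2 + 1 +
            (η / x) * ∫ k in (0 : ℝ)..(η * x), (Ps x k) ^ 2) := by gcongr
  refine hle.trans ?_
  have e1 : ∫ x in Set.Ioc X (2 * X), C2 * X ^ (-(2 * σ) - 1) * ((Ps x (η * x)) ^ 2 + 1 +
        (η / x) * ∫ k in (0 : ℝ)..(η * x), (Ps x k) ^ 2) =
      C2 * X ^ (-(2 * σ) - 1) * ((∫ x in Set.Ioc X (2 * X), (Ps x (η * x)) ^ 2) + X +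
        ∫ x in Set.Ioc X (2 * X), (η / x) * ∫ k in (0 : ℝ)..(η * x), (Ps x k) ^ 2) := by
    have e0 : ∫ x in Set.Ioc X (2 * X), ((Ps x (η * x)) ^ 2 + 1 +
        (η / x) * ∫ k in (0 : ℝ)..(η * x), (Ps x k) ^ 2) =
        (∫ x in Set.Ioc X (2 * X), (Ps x (η * x)) ^ 2) + (∫ _x in Set.Ioc X (2 * X), (1 : ℝ)) +
          ∫ x in Set.Ioc X (2 * X), (η / x) * ∫ k in (0 : ℝ)..(η * x), (Ps x k) ^ 2 := by
      rw [← integral_add hi1 hic]
      exact integral_add (hi1.add hic) hi2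
    have e00 : ∫ _x in Set.Ioc X (2 * X), (1 : ℝ) = X := by
      rw [setIntegral_const, Measure.real, Real.volume_Ioc, smul_eq_mul, mul_one,
        ENNReal.toReal_ofReal (by linarith)]
      ring
    rw [integral_const_mul, e0, e00]
  rw [e1]
  have h3 := fixh Ps ps_coc X η (W * X ^ 2) hX0 hη0 hη1 hV
  have h4 := fixi Ps ps_coc X η (W * X ^ 2) hX0 hη0 hη1 hV
  rw [intervalIntegral.integral_of_le (by linarith)] at h3 h4
  have hV0 : 0 ≤ W * X ^ 2 := by positivity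
  have h5 : 2 * η ^ 2 * (W * X ^ 2) ≤ 1 * (W * X ^ 2) := by
    gcongr
    nlinarith
  have hp : 0 < X ^ (-(2 * σ) - 1) := Real.rpow_pos_of_pos hX0 _
  calc C2 * X ^ (-(2 * σ) - 1) * ((∫ x in Set.Ioc X (2 * X), (Ps x (η * x)) ^ 2) + X +
        ∫ x in Set.Ioc X (2 * X), (η / x) * ∫ k in (0 : ℝ)..(η * x), (Ps x k) ^ 2)
      ≤ C2 * X ^ (-(2 * σ) - 1) * (9 * (W * X ^ 2) + X) := by
        apply mul_le_mul_of_nonneg_left _ (by positivity)
        linarith
    _ = C2 * (9 * W * (X ^ (-(2 * σ) - 1) * X ^ 2) + X ^ (-(2 * σ) - 1) * X) := by ring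
    _ = C2 * (9 * W * X ^ (1 - 2 * σ) + X ^ (-(2 * σ))) := by
        have e2 : X ^ (-(2 * σ) - 1) * X ^ 2 = X ^ (1 - 2 * σ) := by
          rw [← Real.rpow_natCast, ← Real.rpow_add hX0]
          congr 1
          push_cast
          ring
        have e3 : X ^ (-(2 * σ) - 1) * X = X ^ (-(2 * σ)) := by
          rw [← Real.rpow_add_one hX0.ne']
          congr 1
          ring
        rw [e2, e3]

private lemma uph_X {b h T σ d X : ℝ} (hT : 1 ≤ T) (hb : 1 ≤ b) (hh1 : h ≤ 1 / 100) (hd : 0 < d)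
    (hd1 : d ≤ 1 / 8) (hσ : σ = 1 / 2 + d ∨ σ = 1 / 2 - d) (hX1 : T ^ b ≤ X)
    (hX2 : X ≤ T ^ (b + 1 / 2 + 4 * h)) :
    X ^ (1 - 2 * σ) ≤ T ^ (2 * d * (b + 2)) ∧ X ^ (-(2 * σ)) ≤ T ^ (-(b * (1 - 2 * d))) := by
  have hT0 : 0 < T := by linarith
  have hXb : 1 ≤ X := (Real.one_le_rpow hT (by linarith)).trans hX1
  have hX0 : 0 < X := by linarith
  have hσ1 : 1 - 2 * σ ≤ 2 * d := by rcases hσ with h | h <;> linarith
  have hσ2 : -(2 * σ) ≤ -(1 - 2 * d) := by rcases hσ with h | h <;> linarith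
  constructor
  · calc X ^ (1 - 2 * σ) ≤ X ^ (2 * d) := Real.rpow_le_rpow_of_exponent_le hXb hσ1
      _ ≤ (T ^ (b + 2)) ^ (2 * d) := by
          apply Real.rpow_le_rpow hX0.le _ (by linarith)
          exact hX2.trans (Real.rpow_le_rpow_of_exponent_le hT (by linarith))
      _ = T ^ (2 * d * (b + 2)) := by
          rw [← Real.rpow_mul hT0.le]
          congr 1
          ring
  · calc X ^ (-(2 * σ)) ≤ X ^ (-(1 - 2 * d)) := Real.rpow_le_rpow_of_exponent_le hXb hσ2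
      _ ≤ (T ^ b) ^ (-(1 - 2 * d)) :=
          Real.rpow_le_rpow_of_nonpos (Real.rpow_pos_of_pos hT0 _) hX1 (by linarith)
      _ = T ^ (-(b * (1 - 2 * d))) := by
          rw [← Real.rpow_mul hT0.le]
          congr 1
          ring

private lemma uph_all {b h d : ℝ} (hb : 1 ≤ b) (hh : 0 < h) (hh1 : h ≤ 1 / 100) (hd : 0 < d) (hd1 : d ≤ 1 / 8)
    {C2 : ℝ} (hC2 : 0 < C2)
    (hw : ∀ T : ℝ, 3 ≤ T → ∀ σ : ℝ, 1 / 4 ≤ σ →
      σ ≤ 3 / 4 → ∀ x : ℝ, 1 ≤ x → ∀ η : ℝ, 0 < η → η ≤ 1 →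
      (∑ n ∈ Ioc ⌊x⌋₊ ⌊x + η * x⌋₊, (ArithmeticFunction.vonMangoldt n - 1) *
        (rh b h (Real.log n / Real.log T) * (n : ℝ) ^ (-σ))) ^ 2 ≤
        C2 * x ^ (-(2 * σ)) * ((Ps x (η * x)) ^ 2 + 1 + (η / x) * ∫ k in (0 : ℝ)..(η * x), (Ps x k) ^ 2))
    {T : ℝ} (hT : 10 ≤ T) (hTh : 1 ≤ h * Real.log T) {N : ℕ} (hNT : T ^ (b + 1 / 2 + 4 * h) ≤ N) {W : ℝ} (hW : 0 ≤ W)
    (hV : ∀ X : ℝ, T ^ b ≤ X → X ≤ T ^ (b + 1 / 2 + 5 * h) → ∀ k : ℝ, 0 ≤ k → k ≤ 2 * X / T →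
        ∫ x in X..(3 * X), (Ps x k) ^ 2 ≤ W * X ^ 2) {σ : ℝ} (hσ : σ = 1 / 2 + d ∨ σ = 1 / 2 - d) :
    ∫ v : ℝ, ‖uphS b h T σ N (4 * T) v‖ ^ 2 ≤
      27 * C2 * Real.log T * (W * T ^ (2 * d * (b + 2)) + T ^ (-(b * (1 - 2 * d)))) := by
  have hT0 : 0 < T := by linarith
  have hT1 : 1 < T := by linarith
  have hL0 : 0 < Real.log T := Real.log_pos hT1
  have hL1 : 1 ≤ Real.log T := by nlinarith
  have hl2 : 0.6931471803 < Real.log 2 := Real.log_two_gt_d9
  obtain ⟨η, hη⟩ : ∃ η, η = Real.exp (1 / (4 * T)) - 1 := ⟨_, rfl⟩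
  have hy0 : 0 < 1 / (4 * T) := by positivity
  have hη0 : 0 < η := by
    rw [hη]
    have := Real.add_one_lt_exp hy0.ne'
    linarith
  have hη1 : η ≤ 1 / (2 * T) := by
    have h1 := Real.one_sub_le_exp_neg (1 / (4 * T))
    have h2 : Real.exp (1 / (4 * T)) * Real.exp (-(1 / (4 * T))) = 1 := by
      rw [← Real.exp_add, add_neg_cancel, Real.exp_zero]
    have h3 : 1 / (4 * T) ≤ 1 / 2 := by
      rw [div_le_div_iff₀ (by positivity) (by norm_num)]
      linarith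
    have h4 : 1 / (2 * T) = 2 * (1 / (4 * T)) := by
      field_simp
      norm_num
    rw [h4, hη]
    nlinarith [Real.exp_pos (1 / (4 * T))]
  have hη2 : η ≤ 1 / 4 := by
    refine hη1.trans ?_
    rw [div_le_div_iff₀ (by positivity) (by norm_num)]
    linarith
  have hσ1 : 1 / 4 ≤ σ := by rcases hσ with h | h <;> linarith
  have hσ2 : σ ≤ 3 / 4 := by rcases hσ with h | h <;> linarith
  have hN : ∀ n : ℕ, N < n → uphA b h T σ n = 0 := by
    intro n hn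
    by_contra hc
    have h1 := (uph_uA_supp hh hT1 hc).2
    have hn0 : (0 : ℝ) < n := by exact_mod_cast (by omega : 0 < n)
    have h2 : (n : ℝ) < T ^ (b + 1 / 2 + 4 * h) := by
      rw [← Real.log_lt_log_iff hn0 (Real.rpow_pos_of_pos hT0 _), Real.log_rpow hT0]
      exact h1
    have h3 : (N : ℝ) < n := by exact_mod_cast hn
    linarith
  obtain ⟨v, hv⟩ : ∃ v : ℕ → ℝ, v = fun j : ℕ => b * Real.log T + (j : ℝ) * Real.log 2 := ⟨_, rfl⟩
  obtain ⟨q, hq⟩ : ∃ q : ℝ, q = (1 / 2 + 4 * h) * Real.log T / Real.log 2 := ⟨_, rfl⟩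
  have hq0 : 0 ≤ q := by rw [hq]; positivity
  have hql : q * Real.log 2 = (1 / 2 + 4 * h) * Real.log T := by
    rw [hq, div_mul_cancel₀ _ (by linarith)]
  have hvJ : (b + 1 / 2 + 4 * h) * Real.log T ≤ v (⌊q⌋₊ + 1) := by
    have h1 := (Nat.lt_floor_add_one q).le
    rw [hv]
    push_cast
    nlinarith
  have hv0 : v 0 = b * Real.log T := by rw [hv]; simp
  have hstep : ∀ j ∈ range (⌊q⌋₊ + 1), ∫ w in (v j)..(v (j + 1)), ‖uphS b h T σ N (4 * T) w‖ ^ 2 ≤
      C2 * (9 * W * T ^ (2 * d * (b + 2)) + T ^ (-(b * (1 - 2 * d)))) := by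
    intro j hj
    rw [mem_range, Nat.lt_succ_iff] at hj
    have hjq : (j : ℝ) ≤ q := (Nat.le_floor_iff hq0).1 hj
    have hX1 : T ^ b ≤ Real.exp (v j) := by
      rw [Real.rpow_def_of_pos hT0, Real.exp_le_exp, hv]
      have : 0 ≤ (j : ℝ) * Real.log 2 := by positivity
      simp only
      linarith
    have hX2 : Real.exp (v j) ≤ T ^ (b + 1 / 2 + 4 * h) := by
      rw [Real.rpow_def_of_pos hT0, Real.exp_le_exp, hv]
      simp only
      nlinarith
    have hX3 : 1 ≤ Real.exp (v j) := (Real.one_le_rpow hT1.le (by linarith)).trans hX1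
    obtain ⟨hX4, hX5⟩ := uph_X hT1.le hb hh1 hd hd1 hσ hX1 hX2
    have h1 := uph_one (T := T) hN hC2 hσ1 hη hη0 hη2
      (fun x hx => hw T (by linarith) σ hσ1 hσ2 x hx η hη0 (by linarith)) hX3 hW (by
        intro k hk0 hk
        apply hV _ hX1 (hX2.trans (Real.rpow_le_rpow_of_exponent_le hT1.le (by linarith))) k hk0
        refine hk.trans ?_
        have h2 : 4 * η ≤ 2 / T := by
          have h3 : 2 / T = 4 * (1 / (2 * T)) := by
            field_simp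
            norm_num
          rw [h3]
          linarith
        calc 4 * η * Real.exp (v j) ≤ 2 / T * Real.exp (v j) := by gcongr
          _ = 2 * Real.exp (v j) / T := by ring)
    rw [Real.log_exp] at h1
    have h2 : v j + Real.log 2 = v (j + 1) := by
      rw [hv]
      push_cast
      ring
    rw [h2] at h1
    refine h1.trans ?_
    gcongr
  have hsum : ∑ j ∈ range (⌊q⌋₊ + 1), ∫ w in (v j)..(v (j + 1)), ‖uphS b h T σ N (4 * T) w‖ ^ 2 =
      ∫ w in (v 0)..(v (⌊q⌋₊ + 1)), ‖uphS b h T σ N (4 * T) w‖ ^ 2 :=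
    intervalIntegral.sum_integral_adjacent_intervals fun k _ => uph_uS_int b h T σ N (4 * T) _ _
  have hv0J : v 0 ≤ v (⌊q⌋₊ + 1) := by
    rw [hv0]
    nlinarith
  have hall : ∫ w : ℝ, ‖uphS b h T σ N (4 * T) w‖ ^ 2 =
      ∫ w in (v 0)..(v (⌊q⌋₊ + 1)), ‖uphS b h T σ N (4 * T) w‖ ^ 2 := by
    rw [intervalIntegral.integral_of_le hv0J]
    refine (setIntegral_eq_integral_of_forall_compl_eq_zero fun w hw' => ?_).symm
    have hU : 1 / (4 * T) ≤ h * Real.log T := by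
      refine le_trans ?_ hTh
      rw [div_le_one (by positivity)]
      linarith
    rw [uph_uS_zero hh hT1 hU, norm_zero]
    · norm_num
    · rw [Set.mem_Ioc, not_and_or, not_lt, not_le, hv0] at hw'
      rcases hw' with hw' | hw'
      · exact Or.inl hw'
      · exact Or.inr (hvJ.trans_lt hw')
  rw [hall, ← hsum]
  refine (sum_le_sum hstep).trans ?_
  rw [sum_const, card_range, nsmul_eq_mul]
  have hJ : ((⌊q⌋₊ + 1 : ℕ) : ℝ) ≤ 3 * Real.log T := by
    push_cast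
    have h1 := Nat.floor_le hq0
    have h2 : q ≤ 2 * Real.log T := by
      rw [hq, div_le_iff₀ (by linarith)]
      nlinarith
    linarith
  have hA : 0 ≤ T ^ (2 * d * (b + 2)) := (Real.rpow_pos_of_pos hT0 _).le
  have hB : 0 ≤ T ^ (-(b * (1 - 2 * d))) := (Real.rpow_pos_of_pos hT0 _).le
  have hWA : 0 ≤ W * T ^ (2 * d * (b + 2)) := mul_nonneg hW hA
  calc ((⌊q⌋₊ + 1 : ℕ) : ℝ) * (C2 * (9 * W * T ^ (2 * d * (b + 2)) + T ^ (-(b * (1 - 2 * d)))))
      ≤ (3 * Real.log T) * (C2 * (9 * W * T ^ (2 * d * (b + 2)) + T ^ (-(b * (1 - 2 * d))))) := by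
        apply mul_le_mul_of_nonneg_right hJ
        have : 0 ≤ 9 * W * T ^ (2 * d * (b + 2)) := by positivity
        positivity
    _ ≤ (3 * Real.log T) * (C2 * (9 * (W * T ^ (2 * d * (b + 2)) + T ^ (-(b * (1 - 2 * d)))))) := by
        gcongr
        linarith
    _ = 27 * C2 * Real.log T * (W * T ^ (2 * d * (b + 2)) + T ^ (-(b * (1 - 2 * d)))) := by ring

private lemma uph_split {b h T σ : ℝ} {N : ℕ} (t : ℝ) :
    Dp La (rh b h) T N ((σ : ℂ) + (t : ℂ) * I) =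
      (∑ n ∈ Icc 1 N, (uphA b h T σ n : ℂ) * (n : ℂ) ^ (-((t : ℂ) * I))) +
        Dp (fun _ => 1) (fun u => rh b h (u + 0)) T N ((σ : ℂ) + (t : ℂ) * I) := by
  unfold Dp
  rw [← sum_add_distrib]
  refine sum_congr rfl fun n hn => ?_
  have hn0 : (n : ℂ) ≠ 0 := by
    have : n ≠ 0 := by
      have := (mem_Icc.1 hn).1
      omega
    exact_mod_cast this
  have e1 : (n : ℂ) ^ (-((σ : ℂ) + (t : ℂ) * I)) = (n : ℂ) ^ (-(σ : ℂ)) * (n : ℂ) ^ (-((t : ℂ) * I)) := by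
    rw [neg_add, Complex.cpow_add _ _ hn0]
  have e2 : (((n : ℝ) ^ (-σ) : ℝ) : ℂ) = (n : ℂ) ^ (-(σ : ℂ)) := by
    rw [Complex.ofReal_cpow (Nat.cast_nonneg n)]
    push_cast
    rfl
  unfold La uphA
  simp only [add_zero]
  rw [e1]
  push_cast
  rw [e2]
  ring

theorem uph (b h d : ℝ) (hb : 1 ≤ b) (hh : 0 < h) (hh1 : h ≤ 1 / 100) (hd : 0 < d) (hd1 : d ≤ 1 / 8) :
    ∃ C T0 : ℝ, 0 < C ∧ 10 ≤ T0 ∧ ∀ T : ℝ, T0 ≤ T → ∀ W : ℝ, 0 ≤ W →
      (∀ X : ℝ, T ^ b ≤ X → X ≤ T ^ (b + 1 / 2 + 5 * h) → ∀ k : ℝ, 0 ≤ k → k ≤ 2 * X / T →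
        ∫ x in X..(3 * X), (Ps x k) ^ 2 ≤ W * X ^ 2) →
      ∀ σ : ℝ, (σ = 1 / 2 + d ∨ σ = 1 / 2 - d) →
        ∫ t in (T / 4)..(4 * T), ‖Rh b h T ((σ : ℂ) + (t : ℂ) * I)‖ ^ 2 ≤
          C * Real.log T * (W * T ^ (2 + 2 * d * (b + 2)) + T ^ (2 - b * (1 - 2 * d))) + 1 := by
  obtain ⟨C1, hC1, hgal⟩ := gal
  obtain ⟨C2, hC2, hw⟩ := wgh b h hb hh
  obtain ⟨T1, hT1, hsmt⟩ := smt (rh b h) (rh_contDiff b h) (b + h) (b + 1 / 2 + 4 * h) 0 le_rfl (by linarith)
    (fun u hu => rh_zero_left hh hu) (fun u hu => rh_zero_right hh hu) 1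
  refine ⟨864 * C1 * C2, max (max 10 T1) (Real.exp (1 / h)), by positivity,
    (le_max_left _ _).trans (le_max_left _ _), ?_⟩
  intro T hT W hW hV σ hσ
  have hT10 : 10 ≤ T := ((le_max_left _ _).trans (le_max_left _ _)).trans hT
  have hTT1 : T1 ≤ T := ((le_max_right _ _).trans (le_max_left _ _)).trans hT
  have hTe : Real.exp (1 / h) ≤ T := (le_max_right _ _).trans hT
  have hT0 : 0 < T := by linarith
  have hT1' : 1 < T := by linarith
  have hTh : 1 ≤ h * Real.log T := by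
    have h1 : 1 / h ≤ Real.log T := by
      rw [Real.le_log_iff_exp_le hT0]
      exact hTe
    rw [div_le_iff₀ hh] at h1
    linarith
  have hL0 : 0 < Real.log T := Real.log_pos hT1'
  have hNT : T ^ (b + 1 / 2 + 4 * h) ≤ (NN b T : ℝ) := by
    have h1 := Nat.lt_floor_add_one (T ^ (b + 3))
    have h2 : T ^ (b + 1 / 2 + 4 * h) ≤ T ^ (b + 2) := Real.rpow_le_rpow_of_exponent_le hT1'.le (by linarith)
    have h3 : T ^ (b + 3) = T ^ (b + 2) * T := by
      rw [← Real.rpow_add_one hT0.ne']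
      congr 1
      ring
    have h4 : 1 ≤ T ^ (b + 2) := Real.one_le_rpow hT1'.le (by linarith)
    have h5 : T ^ (b + 2) + 1 ≤ T ^ (b + 3) := by
      rw [h3]
      nlinarith
    unfold NN
    linarith
  have hσ1 : 1 / 4 ≤ σ := by rcases hσ with h | h <;> linarith
  have hσ2 : σ ≤ 3 / 4 := by rcases hσ with h | h <;> linarith
  obtain ⟨P, hP⟩ : ∃ P : ℝ → ℂ, P = fun t : ℝ =>
      ∑ n ∈ Icc 1 (NN b T), (uphA b h T σ n : ℂ) * (n : ℂ) ^ (-((t : ℂ) * I)) := ⟨_, rfl⟩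
  have hcpow : ∀ (f : ℝ → ℂ), Continuous f → ∀ n ∈ Icc 1 (NN b T), Continuous fun t => (n : ℂ) ^ (f t) := by
    intro f hf n hn
    refine hf.const_cpow (Or.inl ?_)
    have : n ≠ 0 := by
      have := (mem_Icc.1 hn).1
      omega
    exact_mod_cast this
  have hPc : Continuous P := by
    rw [hP]
    refine continuous_finsetSum _ fun n hn => continuous_const.mul (hcpow _ (by fun_prop) n hn)
  have hRc : Continuous fun t : ℝ => Rh b h T ((σ : ℂ) + (t : ℂ) * I) := by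
    unfold Rh Dp
    refine continuous_finsetSum _ fun n hn => continuous_const.mul (hcpow _ (by fun_prop) n hn)
  have hle : ∀ t ∈ Set.Icc (T / 4) (4 * T), ‖Rh b h T ((σ : ℂ) + (t : ℂ) * I)‖ ^ 2 ≤
      2 * ‖P t‖ ^ 2 + 2 * (T ^ (-(1 : ℝ))) ^ 2 := by
    intro t ht
    have h1 : Rh b h T ((σ : ℂ) + (t : ℂ) * I) = P t +
        Dp (fun _ => 1) (fun u => rh b h (u + 0)) T (NN b T) ((σ : ℂ) + (t : ℂ) * I) := by
      unfold Rh
      rw [uph_split t, hP]
    have hre : ((σ : ℂ) + (t : ℂ) * I).re = σ := by simp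
    have him : ((σ : ℂ) + (t : ℂ) * I).im = t := by simp
    have h2 := hsmt T hTT1 0 le_rfl le_rfl (NN b T) hNT ((σ : ℂ) + (t : ℂ) * I)
      (by rw [hre]; linarith) (by rw [hre]; linarith) (by rw [him]; linarith [ht.1])
      (by rw [him]; linarith [ht.2])
    rw [Nat.cast_one] at h2
    have h3 := norm_add_le (P t) (Dp (fun _ => 1) (fun u => rh b h (u + 0)) T (NN b T) ((σ : ℂ) + (t : ℂ) * I))
    rw [← h1] at h3
    have h4 : ‖Rh b h T ((σ : ℂ) + (t : ℂ) * I)‖ ≤ ‖P t‖ + T ^ (-(1 : ℝ)) := h3.trans (by linarith)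
    have h5 := pow_le_pow_left₀ (norm_nonneg _) h4 2
    nlinarith [sq_nonneg (‖P t‖ - T ^ (-(1 : ℝ)))]
  have h1 : ∫ t in (T / 4)..(4 * T), ‖Rh b h T ((σ : ℂ) + (t : ℂ) * I)‖ ^ 2 ≤
      ∫ t in (T / 4)..(4 * T), (2 * ‖P t‖ ^ 2 + 2 * (T ^ (-(1 : ℝ))) ^ 2) := by
    apply intervalIntegral.integral_mono_on (by linarith) _ _ hle
    · exact (hRc.norm.pow 2).intervalIntegrable _ _
    · exact ((continuous_const.mul (hPc.norm.pow 2)).add continuous_const).intervalIntegrable _ _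
  have hPi : ∀ p q : ℝ, IntervalIntegrable (fun t => ‖P t‖ ^ 2) volume p q := fun p q =>
    (hPc.norm.pow 2).intervalIntegrable p q
  have h2 : ∫ t in (T / 4)..(4 * T), (2 * ‖P t‖ ^ 2 + 2 * (T ^ (-(1 : ℝ))) ^ 2) =
      2 * (∫ t in (T / 4)..(4 * T), ‖P t‖ ^ 2) + (4 * T - T / 4) * (2 * (T ^ (-(1 : ℝ))) ^ 2) := by
    rw [intervalIntegral.integral_add ((hPi _ _).const_mul 2) (by simp), intervalIntegral.integral_const_mul,
      intervalIntegral.integral_const, smul_eq_mul]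
  have h3 : (4 * T - T / 4) * (2 * (T ^ (-(1 : ℝ))) ^ 2) ≤ 1 := by
    rw [Real.rpow_neg_one]
    have h4 : (4 * T - T / 4) * (2 * (T⁻¹) ^ 2) = 15 / 2 / T := by
      field_simp
      ring
    rw [h4, div_le_one hT0]
    linarith
  have h4 : ∫ t in (T / 4)..(4 * T), ‖P t‖ ^ 2 ≤ ∫ t in (-(4 * T))..(4 * T), ‖P t‖ ^ 2 := by
    apply intervalIntegral.integral_mono_interval (by linarith) (by linarith) le_rfl
    · exact Filter.Eventually.of_forall fun t => by positivity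
    · exact hPi _ _
  have h5 := hgal (4 * T) (by linarith) (NN b T) (fun n => (uphA b h T σ n : ℂ))
  have h6 := uph_all hb hh hh1 hd hd1 hC2 hw hT10 hTh hNT hW hV hσ
  have h7 : ∫ t in (-(4 * T))..(4 * T), ‖P t‖ ^ 2 ≤
      C1 * (4 * T) ^ 2 * (27 * C2 * Real.log T * (W * T ^ (2 * d * (b + 2)) + T ^ (-(b * (1 - 2 * d))))) := by
    rw [hP]
    refine h5.trans ?_
    apply mul_le_mul_of_nonneg_left h6 (by positivity)
  have h8 : T ^ 2 * T ^ (2 * d * (b + 2)) = T ^ (2 + 2 * d * (b + 2)) := by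
    rw [Real.rpow_add hT0, Real.rpow_two]
  have h9 : T ^ 2 * T ^ (-(b * (1 - 2 * d))) = T ^ (2 - b * (1 - 2 * d)) := by
    rw [sub_eq_add_neg 2 (b * (1 - 2 * d)), Real.rpow_add hT0, Real.rpow_two]
  calc ∫ t in (T / 4)..(4 * T), ‖Rh b h T ((σ : ℂ) + (t : ℂ) * I)‖ ^ 2
      ≤ 2 * (∫ t in (T / 4)..(4 * T), ‖P t‖ ^ 2) + (4 * T - T / 4) * (2 * (T ^ (-(1 : ℝ))) ^ 2) := by
        rw [← h2]
        exact h1
    _ ≤ 2 * (C1 * (4 * T) ^ 2 * (27 * C2 * Real.log T *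
          (W * T ^ (2 * d * (b + 2)) + T ^ (-(b * (1 - 2 * d)))))) + 1 := by linarith
    _ = 864 * C1 * C2 * Real.log T * (W * (T ^ 2 * T ^ (2 * d * (b + 2))) +
          T ^ 2 * T ^ (-(b * (1 - 2 * d)))) + 1 := by ring
    _ = _ := by rw [h8, h9]

end Pool.Agent.H24.WH
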