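import Pool.Agent.H24.WH.Fdc
import Pool.Agent.H48.WN.Zad

/-!
# [H24 WH ZRP] `Zt` as a sum over `m`

PROOF. `zad` with `φ = st 6 1`, `β = 6`, `B = 7`, `A = 30`, `N = ⌈T^7⌉`: for `s = pt 0 (t0+y)`: `ζ'(s) = - sum_{m ≤ N} log m φ(log m/L) m^(-s) + O(T^(-30))`. `|K^(s-1)| ≤ 1`. `m^(-s) K^(s-1) = (mK)^(-1/2) exp(i(t0+y)(log K - log m))`;
the double integral factors: `Uu T (log K - log m)`.
-/

set_option autoImplicit false

namespace Pool.Agent.H24.WH

open Complex MeasureTheory Finset Pool.Agent.H48.WN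

private theorem zrp_kk_cont : Continuous (fun y : ℝ => kk 0 y) := by
  unfold kk
  fun_prop

private theorem zrp_pt_cont : Continuous (fun t : ℝ => pt 0 t) := by
  unfold pt
  fun_prop

private theorem zrp_pt_ne (t : ℝ) : pt 0 t ≠ 1 := by
  intro h
  have := congrArg Complex.re h
  rw [pt_re, Complex.one_re] at this
  norm_num at this

private theorem zrp_dz_cont : Continuous (fun t : ℝ => deriv riemannZeta (pt 0 t)) := by
  rw [continuous_iff_continuousAt]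
  intro t
  have h1 : DifferentiableOn ℂ riemannZeta {1}ᶜ := fun z hz =>
    (differentiableAt_riemannZeta (by simpa using hz)).differentiableWithinAt
  have h2 : ContinuousAt (deriv riemannZeta) (pt 0 t) := by
    have h3 := (h1.deriv isOpen_compl_singleton).continuousOn
    exact h3.continuousAt (isOpen_compl_singleton.mem_nhds (by simpa using zrp_pt_ne t))
  exact ContinuousAt.comp (f := fun t : ℝ => pt 0 t) h2 zrp_pt_cont.continuousAt

private theorem zrp_cpow {K : ℕ} (hK : 1 ≤ K) (w : ℂ) : (K : ℂ) ^ w = cexp (((Real.log K : ℝ) : ℂ) * w) := by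
  have hK0 : (K : ℂ) ≠ 0 := by
    exact_mod_cast (by omega : K ≠ 0)
  rw [Complex.cpow_def_of_ne_zero hK0, Complex.natCast_log]

private theorem zrp_sqrt {K : ℕ} (hK : 1 ≤ K) : (((Real.sqrt K)⁻¹ : ℝ) : ℂ) = cexp (((Real.log K : ℝ) : ℂ) * (-(1 / 2 : ℝ) : ℝ)) := by
  have hK0 : (0 : ℝ) < K := by exact_mod_cast hK
  rw [← Complex.ofReal_mul, ← Complex.ofReal_exp]
  congr 1
  rw [Real.sqrt_eq_rpow, ← Real.rpow_neg hK0.le, Real.rpow_def_of_pos hK0]

private theorem zrp_term {K m : ℕ} (hK : 1 ≤ K) (hm : 1 ≤ m) (a t : ℝ) :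
    ((Real.log m : ℝ) : ℂ) * (a : ℂ) * (m : ℂ) ^ (-pt 0 t) * (K : ℂ) ^ (pt 0 t - 1) =
      ((Real.log m * a / (Real.sqrt m * Real.sqrt K) : ℝ) : ℂ) *
        cexp (I * ((Real.log K - Real.log m : ℝ) : ℂ) * (t : ℂ)) := by
  have e1 : ((Real.log m * a / (Real.sqrt m * Real.sqrt K) : ℝ) : ℂ) =
      ((Real.log m : ℝ) : ℂ) * (a : ℂ) * (((Real.sqrt m)⁻¹ : ℝ) : ℂ) * (((Real.sqrt K)⁻¹ : ℝ) : ℂ) := by
    rw [← Complex.ofReal_mul, ← Complex.ofReal_mul, ← Complex.ofReal_mul]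
    congr 1
    rw [div_eq_mul_inv, mul_inv]
    ring
  rw [e1, zrp_sqrt hK, zrp_sqrt hm, zrp_cpow hK, zrp_cpow hm]
  have e2 : cexp (((Real.log m : ℝ) : ℂ) * (-pt 0 t)) * cexp (((Real.log K : ℝ) : ℂ) * (pt 0 t - 1)) =
      cexp (((Real.log m : ℝ) : ℂ) * (-(1 / 2 : ℝ) : ℝ)) * cexp (((Real.log K : ℝ) : ℂ) * (-(1 / 2 : ℝ) : ℝ)) *
        cexp (I * ((Real.log K - Real.log m : ℝ) : ℂ) * (t : ℂ)) := by
    rw [← Complex.exp_add, ← Complex.exp_add, ← Complex.exp_add]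
    congr 1
    unfold pt
    push_cast
    ring
  calc ((Real.log m : ℝ) : ℂ) * (a : ℂ) * cexp (((Real.log m : ℝ) : ℂ) * (-pt 0 t)) *
        cexp (((Real.log K : ℝ) : ℂ) * (pt 0 t - 1))
      = ((Real.log m : ℝ) : ℂ) * (a : ℂ) * (cexp (((Real.log m : ℝ) : ℂ) * (-pt 0 t)) *
        cexp (((Real.log K : ℝ) : ℂ) * (pt 0 t - 1))) := by ring
    _ = _ := by
      rw [e2]
      ring

private theorem zrp_cpow_norm {K : ℕ} (hK : 1 ≤ K) (t : ℝ) : ‖(K : ℂ) ^ (pt 0 t - 1)‖ ≤ 1 := by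
  have hK0 : (1 : ℝ) ≤ K := by exact_mod_cast hK
  rw [Complex.norm_natCast_cpow_of_pos (by omega)]
  apply Real.rpow_le_one_of_one_le_of_nonpos hK0
  rw [Complex.sub_re, pt_re, Complex.one_re]
  norm_num

theorem zrp : ∃ T0 : ℝ, 10 ≤ T0 ∧ ∀ T : ℝ, T0 ≤ T → ∀ K : ℕ, 1 ≤ K →
    ‖Zt T K + ∑ m ∈ Icc 1 ⌈T ^ 7⌉₊, ((Real.log m * st 6 1 (Real.log m / Real.log T) /
      (Real.sqrt m * Real.sqrt K) : ℝ) : ℂ) * Uu T (Real.log K - Real.log m)‖ ≤ T ^ (-(20 : ℝ)) := by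
  obtain ⟨T1, hT1, H1⟩ := zad (st 6 1) (st_contDiff 6 1) 6 7 (by norm_num)
    (fun u hu => st_one one_pos hu) (fun u hu => st_zero one_pos (by linarith)) 30
  refine ⟨max T1 1024, le_trans (by norm_num) (le_max_right _ _), fun T hT K hK => ?_⟩
  have hT1' : T1 ≤ T := (le_max_left _ _).trans hT
  have hT2 : (1024 : ℝ) ≤ T := (le_max_right _ _).trans hT
  have hT0 : 0 < T := by linarith
  obtain ⟨N, hN⟩ : ∃ N : ℕ, N = ⌈T ^ 7⌉₊ := ⟨_, rfl⟩
  obtain ⟨L, hL⟩ : ∃ L : ℝ, L = Real.log T := ⟨_, rfl⟩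
  rw [← hN]
  have hL0 : 0 ≤ L := by
    rw [hL]
    exact Real.log_nonneg (by linarith)
  have hLsq : L ^ 2 ≤ T / 2 := by
    have h1 : L = 4 * Real.log (Real.sqrt (Real.sqrt T)) := by
      rw [Real.log_sqrt (Real.sqrt_nonneg _), Real.log_sqrt hT0.le, hL]
      ring
    have h2 : Real.log (Real.sqrt (Real.sqrt T)) ≤ Real.sqrt (Real.sqrt T) :=
      Real.log_le_self (Real.sqrt_nonneg _)
    have h3 : L ≤ 4 * Real.sqrt (Real.sqrt T) := by linarith
    have h4 : L ^ 2 ≤ (4 * Real.sqrt (Real.sqrt T)) ^ 2 := pow_le_pow_left₀ hL0 h3 2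
    have h5 : (4 * Real.sqrt (Real.sqrt T)) ^ 2 = 16 * Real.sqrt T := by
      rw [mul_pow, Real.sq_sqrt (Real.sqrt_nonneg _)]
      norm_num
    have h6 : 32 ≤ Real.sqrt T := by
      apply Real.le_sqrt_of_sq_le
      linarith
    have h7 : Real.sqrt T * Real.sqrt T = T := Real.mul_self_sqrt hT0.le
    nlinarith
  obtain ⟨g, hg⟩ : ∃ g : ℝ → ℂ, g = fun t => deriv riemannZeta (pt 0 t) * (K : ℂ) ^ (pt 0 t - 1) := ⟨_, rfl⟩
  have hgc : Continuous g := by
    rw [hg]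
    refine zrp_dz_cont.mul ?_
    have hK0 : (K : ℂ) ≠ 0 := by
      exact_mod_cast (by omega : K ≠ 0)
    exact (zrp_pt_cont.sub continuous_const).const_cpow (Or.inl hK0)
  obtain ⟨c, hc⟩ : ∃ c : ℕ → ℝ, c = fun m : ℕ => Real.log m * st 6 1 (Real.log m / Real.log T) /
      (Real.sqrt m * Real.sqrt K) := ⟨_, rfl⟩
  obtain ⟨E, hE⟩ : ∃ E : ℝ → ℂ, E = fun t : ℝ => ∑ m ∈ Icc 1 N, ((c m : ℝ) : ℂ) *
      cexp (I * ((Real.log K - Real.log m : ℝ) : ℂ) * (t : ℂ)) := ⟨_, rfl⟩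
  have hEc : Continuous E := by
    rw [hE]
    fun_prop
  have hEd : ∀ t : ℝ, E t = Dp (fun n => ((Real.log n : ℝ) : ℂ)) (st 6 1) T N (pt 0 t) *
      (K : ℂ) ^ (pt 0 t - 1) := by
    intro t
    rw [hE]
    unfold Dp
    show ∑ m ∈ Icc 1 N, ((c m : ℝ) : ℂ) * cexp (I * ((Real.log K - Real.log m : ℝ) : ℂ) * (t : ℂ)) = _
    rw [Finset.sum_mul]
    refine sum_congr rfl fun m hm => ?_
    rw [hc]
    exact (zrp_term hK (Finset.mem_Icc.1 hm).1 _ t).symm
  have hNT : T ^ (7 : ℝ) ≤ N := by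
    have h7 : T ^ (7 : ℝ) = T ^ 7 := by
      rw [← Real.rpow_natCast]
      norm_num
    rw [h7, hN]
    exact Nat.le_ceil _
  have herr : ∀ t : ℝ, T / 32 ≤ t → t ≤ 32 * T → ‖g t + E t‖ ≤ T ^ (-((30 : ℕ) : ℝ)) := by
    intro t ht1 ht2
    rw [hEd, hg]
    show ‖deriv riemannZeta (pt 0 t) * (K : ℂ) ^ (pt 0 t - 1) +
      Dp (fun n => ((Real.log n : ℝ) : ℂ)) (st 6 1) T N (pt 0 t) * (K : ℂ) ^ (pt 0 t - 1)‖ ≤ _
    rw [← add_mul, norm_mul]
    have h1 := H1 T hT1' N hNT (pt 0 t) (by rw [pt_re]; norm_num) (by rw [pt_re]; norm_num)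
      (by rw [pt_im]; exact ht1) (by rw [pt_im]; exact ht2)
    calc _ ≤ T ^ (-((30 : ℕ) : ℝ)) * 1 := by
          apply mul_le_mul h1 (zrp_cpow_norm hK t) (norm_nonneg _) (Real.rpow_nonneg hT0.le _)
      _ = _ := mul_one _
  -- the sum as a double integral
  have hinner : ∀ t0 : ℝ, ∫ y in (-(L) ^ 2)..(L ^ 2), kk 0 y * E (t0 + y) =
      ∑ m ∈ Icc 1 N, ((c m : ℝ) : ℂ) * ((∫ y in (-(L) ^ 2)..(L ^ 2), kk 0 y *
        cexp (I * ((Real.log K - Real.log m : ℝ) : ℂ) * (y : ℂ))) *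
        cexp (I * ((Real.log K - Real.log m : ℝ) : ℂ) * (t0 : ℂ))) := by
    intro t0
    have h1 : ∀ y : ℝ, kk 0 y * E (t0 + y) = ∑ m ∈ Icc 1 N, ((c m : ℝ) : ℂ) *
        cexp (I * ((Real.log K - Real.log m : ℝ) : ℂ) * (t0 : ℂ)) *
        (kk 0 y * cexp (I * ((Real.log K - Real.log m : ℝ) : ℂ) * (y : ℂ))) := by
      intro y
      rw [hE]
      show kk 0 y * ∑ m ∈ Icc 1 N, ((c m : ℝ) : ℂ) *
        cexp (I * ((Real.log K - Real.log m : ℝ) : ℂ) * ((t0 + y : ℝ) : ℂ)) = _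
      rw [Finset.mul_sum]
      refine sum_congr rfl fun m _ => ?_
      have h2 : cexp (I * ((Real.log K - Real.log m : ℝ) : ℂ) * ((t0 + y : ℝ) : ℂ)) =
          cexp (I * ((Real.log K - Real.log m : ℝ) : ℂ) * (t0 : ℂ)) *
          cexp (I * ((Real.log K - Real.log m : ℝ) : ℂ) * (y : ℂ)) := by
        rw [← Complex.exp_add]
        congr 1
        push_cast
        ring
      rw [h2]
      ring
    rw [intervalIntegral.integral_congr (fun y _ => h1 y), intervalIntegral.integral_finsetSum]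
    · refine sum_congr rfl fun m _ => ?_
      rw [intervalIntegral.integral_const_mul]
      ring
    · intro m _
      apply Continuous.intervalIntegrable
      exact continuous_const.mul (zrp_kk_cont.mul (by fun_prop))
  have hph : Continuous (fun t0 : ℝ => ((ph (t0 / T) : ℝ) : ℂ)) := by
    have h1 : Continuous ph := ph_contDiff.continuous
    exact Complex.continuous_ofReal.comp (h1.comp (continuous_id.div_const T))
  have hsum : ∑ m ∈ Icc 1 N, ((c m : ℝ) : ℂ) * Uu T (Real.log K - Real.log m) =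
      ∫ t0 in T..(2 * T), ((ph (t0 / T) : ℝ) : ℂ) * ∫ y in (-(L) ^ 2)..(L ^ 2), kk 0 y * E (t0 + y) := by
    have h1 : ∀ t0 : ℝ, ((ph (t0 / T) : ℝ) : ℂ) * (∫ y in (-(L) ^ 2)..(L ^ 2), kk 0 y * E (t0 + y)) =
        ∑ m ∈ Icc 1 N, ((c m : ℝ) : ℂ) * (∫ y in (-(L) ^ 2)..(L ^ 2), kk 0 y *
          cexp (I * ((Real.log K - Real.log m : ℝ) : ℂ) * (y : ℂ))) *
          (((ph (t0 / T) : ℝ) : ℂ) * cexp (I * ((Real.log K - Real.log m : ℝ) : ℂ) * (t0 : ℂ))) := by
      intro t0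
      rw [hinner, Finset.mul_sum]
      refine sum_congr rfl fun m _ => ?_
      ring
    rw [intervalIntegral.integral_congr (fun t0 _ => h1 t0), intervalIntegral.integral_finsetSum]
    · refine sum_congr rfl fun m _ => ?_
      rw [intervalIntegral.integral_const_mul]
      unfold Uu
      rw [← hL]
      ring
    · intro m _
      apply Continuous.intervalIntegrable
      exact continuous_const.mul (hph.mul (by fun_prop))
  have hZt : Zt T K = ∫ t0 in T..(2 * T), ((ph (t0 / T) : ℝ) : ℂ) *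
      ∫ y in (-(L) ^ 2)..(L ^ 2), kk 0 y * g (t0 + y) := by
    unfold Zt
    rw [hL, hg]
  have hcont : ∀ f : ℝ → ℂ, Continuous f → Continuous (fun t0 : ℝ =>
      ∫ y in (-(L) ^ 2)..(L ^ 2), kk 0 y * f (t0 + y)) := by
    intro f hf
    apply intervalIntegral.continuous_parametric_intervalIntegral_of_continuous'
    show Continuous fun p : ℝ × ℝ => kk 0 p.2 * f (p.1 + p.2)
    exact (zrp_kk_cont.comp continuous_snd).mul (hf.comp (continuous_fst.add continuous_snd))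
  have hc1 := hcont g hgc
  have hc2 := hcont E hEc
  have htot : Zt T K + ∑ m ∈ Icc 1 N, ((c m : ℝ) : ℂ) * Uu T (Real.log K - Real.log m) =
      ∫ t0 in T..(2 * T), ((ph (t0 / T) : ℝ) : ℂ) *
        ∫ y in (-(L) ^ 2)..(L ^ 2), kk 0 y * (g (t0 + y) + E (t0 + y)) := by
    rw [hsum, hZt, ← intervalIntegral.integral_add]
    · refine intervalIntegral.integral_congr fun t0 _ => ?_
      show ((ph (t0 / T) : ℝ) : ℂ) * (∫ y in (-(L) ^ 2)..(L ^ 2), kk 0 y * g (t0 + y)) +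
        ((ph (t0 / T) : ℝ) : ℂ) * (∫ y in (-(L) ^ 2)..(L ^ 2), kk 0 y * E (t0 + y)) = _
      rw [← mul_add, ← intervalIntegral.integral_add]
      · congr 1
        refine intervalIntegral.integral_congr fun y _ => ?_
        show kk 0 y * g (t0 + y) + kk 0 y * E (t0 + y) = kk 0 y * (g (t0 + y) + E (t0 + y))
        ring
      · apply Continuous.intervalIntegrable
        exact zrp_kk_cont.mul (hgc.comp (continuous_const.add continuous_id))
      · apply Continuous.intervalIntegrable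
        exact zrp_kk_cont.mul (hEc.comp (continuous_const.add continuous_id))
    · exact (hph.mul hc1).intervalIntegrable _ _
    · exact (hph.mul hc2).intervalIntegrable _ _
  have hgoal : ‖Zt T K + ∑ m ∈ Icc 1 N, ((c m : ℝ) : ℂ) * Uu T (Real.log K - Real.log m)‖ ≤
      T ^ (-(20 : ℝ)) := by
    rw [htot]
    have hin : ∀ t0 ∈ Set.uIoc T (2 * T), ‖((ph (t0 / T) : ℝ) : ℂ) *
        ∫ y in (-(L) ^ 2)..(L ^ 2), kk 0 y * (g (t0 + y) + E (t0 + y))‖ ≤
        T ^ (-((30 : ℕ) : ℝ)) * T := by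
      intro t0 ht0
      rw [Set.uIoc_of_le (by linarith)] at ht0
      obtain ⟨ha, hb⟩ := ht0
      rw [norm_mul]
      have h1 : ‖((ph (t0 / T) : ℝ) : ℂ)‖ ≤ 1 := by
        rw [Complex.norm_real, Real.norm_eq_abs, abs_of_nonneg (ph_nonneg _)]
        exact ph_le _
      have h2 : ‖∫ y in (-(L) ^ 2)..(L ^ 2), kk 0 y * (g (t0 + y) + E (t0 + y))‖ ≤
          T ^ (-((30 : ℕ) : ℝ)) * |L ^ 2 - (-(L) ^ 2)| := by
        apply intervalIntegral.norm_integral_le_of_norm_le_const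
        intro y hy
        rw [Set.uIoc_of_le (by nlinarith [sq_nonneg L])] at hy
        obtain ⟨hy1, hy2⟩ := hy
        rw [norm_mul]
        have h3 : ‖kk 0 y‖ ≤ 1 := by
          rw [kk_norm]
          apply Real.exp_le_one_iff.2
          nlinarith [sq_nonneg y]
        have h4 := herr (t0 + y) (by linarith) (by linarith)
        calc _ ≤ 1 * T ^ (-((30 : ℕ) : ℝ)) := mul_le_mul h3 h4 (norm_nonneg _) zero_le_one
          _ = _ := one_mul _
      have h5 : |L ^ 2 - (-(L) ^ 2)| ≤ T := by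
        rw [abs_of_nonneg (by nlinarith [sq_nonneg L])]
        linarith
      calc _ ≤ 1 * (T ^ (-((30 : ℕ) : ℝ)) * T) := by
            apply mul_le_mul h1 _ (norm_nonneg _) zero_le_one
            exact h2.trans (mul_le_mul_of_nonneg_left h5 (Real.rpow_nonneg hT0.le _))
        _ = _ := one_mul _
    have h6 := intervalIntegral.norm_integral_le_of_norm_le_const hin
    refine h6.trans ?_
    have h7 : |2 * T - T| = T := by
      rw [abs_of_nonneg (by linarith)]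
      ring
    rw [h7]
    have h8 : T ^ (-((30 : ℕ) : ℝ)) * T * T = T ^ (-(28 : ℝ)) := by
      have e1 : T * T = T ^ (2 : ℝ) := by
        rw [Real.rpow_two]
        ring
      rw [mul_assoc, e1, ← Real.rpow_add hT0]
      congr 1
      push_cast
      norm_num
    rw [h8]
    exact Real.rpow_le_rpow_of_exponent_le (by linarith) (by norm_num)
  rw [hc] at hgoal
  exact hgoal

end Pool.Agent.H24.WH
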